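import Pool.Agent.H836_PV.StmtsB

open MeasureTheory Filter Topology Set Metric

namespace Pool.Agent.H836_PV

/-- cell masses of a configuration in terms of the cell labels -/
noncomputable def b1E {M n : ℕ} (k : Fin M → Fin n) (α : Fin n) : ℝ :=
  ((Finset.univ.filter fun i => k i = α).card : ℝ) / M

lemma b1_meas {M n : ℕ} (q : ℂ → Fin n) (hq : Measurable q)
    (P : (Fin n → ℝ) → (Fin n → ℝ) → Prop) :
    MeasurableSet {x : Conf M | P (emp q (x ∘ Sum.inl)) (emp q (x ∘ Sum.inr))} := by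
  have h1 : Measurable (fun x : Conf M => fun i => q (x i)) :=
    measurable_pi_lambda _ fun i => hq.comp (measurable_pi_apply i)
  have h2 : MeasurableSet {k : Fin M ⊕ Fin M → Fin n |
      P (b1E (k ∘ Sum.inl)) (b1E (k ∘ Sum.inr))} := (Set.toFinite _).measurableSet
  exact h1 h2

lemma b1_card {M n : ℕ} (q : ℂ → Fin n) (x x' : Fin M → ℂ) (t : Finset (Fin M)) (ht : t.card ≤ 3)
    (h : ∀ i ∉ t, x' i = x i) (α : Fin n) :
    emp q x α ≤ emp q x' α + 3 / M := by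
  have h1 : (Finset.univ.filter fun i => q (x i) = α) ⊆
      (Finset.univ.filter fun i => q (x' i) = α) ∪ t := by
    intro i hi
    rw [Finset.mem_filter] at hi
    rw [Finset.mem_union, Finset.mem_filter]
    by_cases hit : i ∈ t
    · exact Or.inr hit
    · left
      refine ⟨Finset.mem_univ _, ?_⟩
      rw [h i hit]; exact hi.2
  have h2 := (Finset.card_le_card h1).trans (Finset.card_union_le _ _)
  have h3 : ((Finset.univ.filter fun i => q (x i) = α).card : ℝ) ≤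
      (Finset.univ.filter fun i => q (x' i) = α).card + 3 := by
    have : (Finset.univ.filter fun i => q (x i) = α).card ≤
      (Finset.univ.filter fun i => q (x' i) = α).card + 3 := h2.trans (by omega)
    exact_mod_cast this
  unfold emp
  rw [← add_div]
  exact div_le_div_of_nonneg_right h3 (Nat.cast_nonneg _)

lemma b1_close {M n : ℕ} (q : ℂ → Fin n) (x x' : Conf M) (s : Finset (Fin M ⊕ Fin M))
    (hs : s.card = 3) (h : ∀ i ∉ s, x' i = x i) (α : Fin n) :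
    |emp q (x ∘ Sum.inl) α - emp q (x' ∘ Sum.inl) α| ≤ 3 / M ∧
    |emp q (x ∘ Sum.inr) α - emp q (x' ∘ Sum.inr) α| ≤ 3 / M := by
  classical
  have hl : (s.preimage Sum.inl Sum.inl_injective.injOn).card ≤ 3 := by
    rw [← hs]
    exact Finset.card_le_card_of_injOn Sum.inl (fun i hi => by simpa using hi)
      Sum.inl_injective.injOn
  have hr : (s.preimage Sum.inr Sum.inr_injective.injOn).card ≤ 3 := by
    rw [← hs]
    exact Finset.card_le_card_of_injOn Sum.inr (fun i hi => by simpa using hi)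
      Sum.inr_injective.injOn
  have l1 := b1_card q (x ∘ Sum.inl) (x' ∘ Sum.inl) _ hl
    (fun i hi => h _ (by simpa using hi)) α
  have l2 := b1_card q (x' ∘ Sum.inl) (x ∘ Sum.inl) _ hl
    (fun i hi => (h _ (by simpa using hi)).symm) α
  have r1 := b1_card q (x ∘ Sum.inr) (x' ∘ Sum.inr) _ hr
    (fun i hi => h _ (by simpa using hi)) α
  have r2 := b1_card q (x' ∘ Sum.inr) (x ∘ Sum.inr) _ hr
    (fun i hi => (h _ (by simpa using hi)).symm) α
  constructor <;> rw [abs_le] <;> constructor <;> linarith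

lemma b1_mass {Λ : Set ℂ} (hΛ : MeasurableSet Λ) {n : ℕ} (q : ℂ → Fin n) (hq : Measurable q)
    {ρ σ : ℂ → ℝ} (hρ : IntegrableOn ρ Λ) (hσ : IntegrableOn σ Λ) (α : Fin n) :
    |mass Λ q ρ α - mass Λ q σ α| ≤ ∫ x in Λ, |ρ x - σ x| := by
  have hm : MeasurableSet (q ⁻¹' {α}) := hq (measurableSet_singleton α)
  unfold mass
  rw [← integral_sub (hρ.mono_set inter_subset_left) (hσ.mono_set inter_subset_left)]
  refine (abs_integral_le_integral_abs).trans ?_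
  apply setIntegral_mono_set (hρ.sub hσ).abs
  · exact Eventually.of_forall fun x => abs_nonneg _
  · exact HasSubset.Subset.eventuallyLE inter_subset_left

lemma b1_claim (hS2 : TaskS2) {Λ : Set ℂ} {g : ℂ → ℂ → ℝ} {D C₃ cL CB : ℝ}
    (hK : Ker Λ g D C₃ cL CB) {ε : ℝ} (hε : 0 < ε) {n : ℕ} (q : ℂ → Fin n) (hq : Measurable q)
    {τ : ℝ} (hτ : 0 < τ) : ∃ ε₁ c₀ : ℝ, 0 < ε₁ ∧ ε₁ < ε ∧ 0 < c₀ ∧
    ∀ ρ₁ ρ₂, IsDens Λ ρ₁ → IsDens Λ ρ₂ → 4 * (ε - ε₁) ≤ en Λ (K g) ρ₁ ρ₂ →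
      ¬ NearMax Λ g ε q τ (mass Λ q ρ₁) (mass Λ q ρ₂) →
      1 / 2 * (entr Λ ρ₁ + entr Λ ρ₂) ≤ sL Λ (K g) ε - c₀ := by
  by_contra hcon
  push Not at hcon
  have hpos : ∀ k : ℕ, (0 : ℝ) < 1 / (k + 2) := fun k => by positivity
  have h1 : ∀ k : ℕ, 0 < ε * (1 / ((k : ℝ) + 2)) ∧ ε * (1 / ((k : ℝ) + 2)) < ε := by
    intro k
    refine ⟨mul_pos hε (hpos k), ?_⟩
    have : 1 / ((k : ℝ) + 2) < 1 := by
      rw [div_lt_one (by positivity)]
      have : (0 : ℝ) ≤ k := Nat.cast_nonneg k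
      linarith
    nlinarith
  choose ρ₁ ρ₂ d₁ d₂ hen hN hent using fun k : ℕ =>
    hcon (ε * (1 / ((k : ℝ) + 2))) (1 / ((k : ℝ) + 2)) (h1 k).1 (h1 k).2 (hpos k)
  have hlim : Tendsto (fun k : ℕ => 1 / ((k : ℝ) + 2)) atTop (𝓝 0) := by
    have := tendsto_one_div_add_atTop_nhds_zero_nat (𝕜 := ℝ)
    have h2 := this.comp (tendsto_add_atTop_nat 1)
    refine h2.congr fun k => ?_
    simp only [Function.comp]
    push_cast
    ring
  obtain ⟨φ, hφ, σ₁, σ₂, hmax, hc1, hc2⟩ := (hS2 Λ g D C₃ cL CB hK ε hε).1 ρ₁ ρ₂ d₁ d₂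
    (by
      intro e he
      have h3 : Tendsto (fun k : ℕ => 4 * (ε - ε * (1 / ((k : ℝ) + 2)))) atTop
          (𝓝 (4 * (ε - ε * 0))) := ((hlim.const_mul ε).const_sub ε).const_mul 4
      have h4 : 4 * e < 4 * (ε - ε * 0) := by linarith
      filter_upwards [h3.eventually (lt_mem_nhds h4)] with k hk
      exact hk.le.trans (hen k))
    (by
      intro t ht
      have h3 : Tendsto (fun k : ℕ => sL Λ (K g) ε - 1 / ((k : ℝ) + 2)) atTop
          (𝓝 (sL Λ (K g) ε - 0)) := hlim.const_sub _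
      have h4 : t < sL Λ (K g) ε - 0 := by linarith
      filter_upwards [h3.eventually (lt_mem_nhds h4)] with k hk
      exact hk.le.trans (hent k).le)
  have e1 := hc1.eventually (gt_mem_nhds hτ)
  have e2 := hc2.eventually (gt_mem_nhds hτ)
  obtain ⟨k, hk1, hk2⟩ := (e1.and e2).exists
  apply hN (φ k)
  refine ⟨σ₁, σ₂, hmax, fun α => ?_, fun α => ?_⟩
  · exact lt_of_le_of_lt (b1_mass hK.isOpen.measurableSet q hq (d₁ (φ k)).integrable
      hmax.1.1.integrable α) hk1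
  · exact lt_of_le_of_lt (b1_mass hK.isOpen.measurableSet q hq (d₂ (φ k)).integrable
      hmax.1.2.1.integrable α) hk2

theorem taskB1 (hU : TaskU) (hV4 : TaskV4) (hS2 : TaskS2) (hTS : TaskTS) : TaskB1 := by
  intro Λ g D C₃ cL CB hK ε hε n q hq τ hτ
  obtain ⟨ε₁, c₀, hε₁, hε₁', hc₀, hcl⟩ := b1_claim hS2 hK hε q hq (half_pos hτ)
  -- the large deviation bound
  obtain ⟨ε₂, hε₂, M₁, hV⟩ := hV4 Λ g D C₃ cL CB hK n q hq
    {p | ¬ NearMax Λ g ε q (τ / 2) p.1 p.2} ε ε₁ (sL Λ (K g) ε - c₀) hε₁ hε₁'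
    (fun ρ₁ ρ₂ h1 h2 h3 h4 => hcl ρ₁ ρ₂ h1 h2 h3 h4) (c₀ / 8) (by positivity)
  obtain ⟨C, hC, hU'⟩ := hU Λ g D C₃ cL CB hK
  -- the small parameter
  obtain ⟨η, hη0, hη1, hη2, hη3⟩ : ∃ η : ℝ, 0 < η ∧ η < 1 ∧ C * η ≤ ε₂ / 2 ∧ C * η ≤ c₀ / 8 := by
    refine ⟨min (1 / 2) (min (ε₂ / 2 / C) (c₀ / 8 / C)), by positivity, ?_, ?_, ?_⟩
    · exact lt_of_le_of_lt (min_le_left _ _) (by norm_num)
    · have : min (1 / 2) (min (ε₂ / 2 / C) (c₀ / 8 / C)) ≤ ε₂ / 2 / C :=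
        (min_le_right _ _).trans (min_le_left _ _)
      rw [le_div_iff₀ hC] at this
      linarith
    · have : min (1 / 2) (min (ε₂ / 2 / C) (c₀ / 8 / C)) ≤ c₀ / 8 / C :=
        (min_le_right _ _).trans (min_le_right _ _)
      rw [le_div_iff₀ hC] at this
      linarith
  obtain ⟨N₀, hN₀⟩ := hU' η hη0 hη1
  obtain ⟨M₂, hT⟩ := hTS Λ g D C₃ cL CB hK ε hε (c₀ / 4) (by positivity)
  -- the volume of `Λ`
  have hVfin : volume Λ ≠ ⊤ := by
    have h1 : Λ ⊆ closedBall 0 D := fun x hx => by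
      rw [mem_closedBall_zero_iff]; exact hK.norm_le x hx
    exact ((measure_mono h1).trans_lt (isCompact_closedBall _ _).measure_lt_top).ne
  have hVpos : volume Λ ≠ 0 := (hK.isOpen.measure_pos _ hK.nonempty).ne'
  set V : ℝ := (volume Λ).toReal with hVdef
  have hV0 : 0 < V := ENNReal.toReal_pos hVpos hVfin
  have hVeq : volume Λ = ENNReal.ofReal V := (ENNReal.ofReal_toReal hVfin).symm
  have hpow : ∀ k : ℕ, (volume Λ) ^ k = ENNReal.ofReal (V ^ k) := by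
    intro k; rw [hVeq, ENNReal.ofReal_pow hV0.le]
  set sl := sL Λ (K g) ε with hsl
  -- largeness
  obtain ⟨M₃, hM₃⟩ : ∃ M₃ : ℕ, ∀ M : ℕ, M₃ ≤ M → 0 < (M : ℝ) ∧ 3 / (M : ℝ) < τ / 2 ∧
      1 ≤ (2 * (M : ℝ)) ^ 2 * (ε₂ / 2) ∧ N₀ ≤ M + M ∧ Real.log 2 ≤ c₀ * M / 2 ∧
      -(η * (2 * (M : ℝ)) / 16) ≤ sl - 3 * c₀ / 4 + Real.log V := by
    have t1 : ∀ᶠ M : ℕ in atTop, (0 : ℝ) < M := by
      filter_upwards [eventually_gt_atTop 0] with M hM
      exact_mod_cast hM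
    have tM : Tendsto (fun M : ℕ => (M : ℝ)) atTop atTop := tendsto_natCast_atTop_atTop
    have t2 : ∀ᶠ M : ℕ in atTop, 6 / τ < M := tM.eventually (eventually_gt_atTop _)
    have t3 : ∀ᶠ M : ℕ in atTop, 1 / ε₂ + 1 < M := tM.eventually (eventually_gt_atTop _)
    have t4 : ∀ᶠ M : ℕ in atTop, N₀ ≤ M + M := by
      filter_upwards [eventually_ge_atTop N₀] with M hM; omega
    have t5 : ∀ᶠ M : ℕ in atTop, 2 * Real.log 2 / c₀ < M := tM.eventually (eventually_gt_atTop _)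
    have t6 : ∀ᶠ M : ℕ in atTop, -(sl - 3 * c₀ / 4 + Real.log V) * 8 / η < M :=
      tM.eventually (eventually_gt_atTop _)
    obtain ⟨M₃, hM₃⟩ := (t1.and (t2.and (t3.and (t4.and (t5.and t6))))).exists_forall_of_atTop
    refine ⟨M₃, fun M hM => ?_⟩
    obtain ⟨s1, s2, s3, s4, s5, s6⟩ := hM₃ M hM
    refine ⟨s1, ?_, ?_, s4, ?_, ?_⟩
    · rw [div_lt_iff₀ hτ] at s2
      rw [div_lt_iff₀ s1]; linarith
    · have h1 : 1 / ε₂ < M := by linarith
      have h0 : 0 < 1 / ε₂ := by positivity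
      have h2 : (1 : ℝ) < M := by linarith
      rw [div_lt_iff₀ hε₂] at h1
      nlinarith
    · rw [div_lt_iff₀ hc₀] at s5; linarith
    · rw [div_lt_iff₀ hη0] at s6; linarith
  refine ⟨c₀ / 2, by positivity, max (max M₁ M₂) M₃, ?_⟩
  intro M hM E hE δ hδ hδ1
  have hMM₁ : M₁ ≤ M := (le_max_left _ _).trans ((le_max_left _ _).trans hM)
  have hMM₂ : M₂ ≤ M := (le_max_right _ _).trans ((le_max_left _ _).trans hM)
  obtain ⟨s1, s2, s3, s4, s5, s6⟩ := hM₃ M ((le_max_right _ _).trans hM)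
  have hlow := (hT M hMM₂ E hE δ hδ hδ1).1
  have hup := hV M hMM₁
  -- the upper bound
  set A : Set (Conf M) := {x | ¬ NearMax Λ g ε q τ (emp q (x ∘ Sum.inl)) (emp q (x ∘ Sum.inr))}
    with hA
  set A' : Set (Conf M) := {x | ¬ NearMax Λ g ε q (τ / 2) (emp q (x ∘ Sum.inl))
    (emp q (x ∘ Sum.inr))} with hA'
  have hAm : MeasurableSet A := b1_meas q hq (fun m₁ m₂ => ¬ NearMax Λ g ε q τ m₁ m₂)
  have hA'm : MeasurableSet A' := b1_meas q hq (fun m₁ m₂ => ¬ NearMax Λ g ε q (τ / 2) m₁ m₂)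
  have hstab : ∀ x ∈ A, ∀ x', (∃ s : Finset (Fin M ⊕ Fin M), s.card = 3 ∧ ∀ i ∉ s, x' i = x i) →
      x' ∈ A' := by
    intro x hx x' ⟨s, hs, hss⟩ hcon
    apply hx
    obtain ⟨σ₁, σ₂, h1, h2, h3⟩ := hcon
    refine ⟨σ₁, σ₂, h1, fun α => ?_, fun α => ?_⟩
    · have k1 := (b1_close q x x' s hs hss α).1
      have k2 := h2 α
      rw [abs_le] at k1
      rw [abs_lt] at k2 ⊢
      constructor <;> linarith
    · have k1 := (b1_close q x x' s hs hss α).2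
      have k2 := h3 α
      rw [abs_le] at k1
      rw [abs_lt] at k2 ⊢
      constructor <;> linarith
  have hcard : Fintype.card (Fin M ⊕ Fin M) = M + M := by simp
  have hmain := hN₀ (Fin M ⊕ Fin M) (by rw [hcard]; exact s4) (circ M)
    (by rintro (i | i) <;> simp [circ]) A A' hAm hA'm hstab E δ hδ
  have hcardr : ((Fintype.card (Fin M ⊕ Fin M) : ℕ) : ℝ) = 2 * M := by
    rw [hcard]; push_cast; ring
  rw [hcardr] at hmain
  have hset : {x : Conf M | x ∈ shell Λ g M E δ ∧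
      ¬ NearMax Λ g ε q τ (emp q (x ∘ Sum.inl)) (emp q (x ∘ Sum.inr))} =
      cf Λ (Fin M ⊕ Fin M) ∩ A ∩ {x | E ≤ Ham g (circ M) x ∧ Ham g (circ M) x < E + δ} := by
    ext x
    simp only [shell, hA, Set.mem_inter_iff]
    constructor
    · rintro ⟨⟨h1, h2, h3⟩, h4⟩; exact ⟨⟨h1, h4⟩, h2, h3⟩
    · rintro ⟨⟨h1, h4⟩, h2, h3⟩; exact ⟨⟨h1, h2, h3⟩, h4⟩
  rw [hset]
  refine hmain.trans ?_
  -- first term
  have hsub : cf Λ (Fin M ⊕ Fin M) ∩ A' ∩
      {x | E - C * η * (2 * (M : ℝ)) ^ 2 ≤ Ham g (circ M) x} ⊆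
      {x : Conf M | x ∈ cf Λ _ ∧ (2 * (M : ℝ)) ^ 2 * (ε - ε₂) ≤ Ham g (circ M) x ∧
        (emp q (x ∘ Sum.inl), emp q (x ∘ Sum.inr)) ∈
          {p : (Fin n → ℝ) × (Fin n → ℝ) | ¬ NearMax Λ g ε q (τ / 2) p.1 p.2}} := by
    rintro x ⟨⟨h1, h2⟩, h3⟩
    refine ⟨h1, ?_, h2⟩
    have h3' : E - C * η * (2 * (M : ℝ)) ^ 2 ≤ Ham g (circ M) x := h3
    rw [abs_le] at hE
    have h4 : C * η * (2 * (M : ℝ)) ^ 2 ≤ ε₂ / 2 * (2 * (M : ℝ)) ^ 2 :=
      mul_le_mul_of_nonneg_right hη2 (sq_nonneg _)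
    linarith [hE.1]
  have h1 : volume (cf Λ (Fin M ⊕ Fin M) ∩ A' ∩
      {x | E - C * η * (2 * (M : ℝ)) ^ 2 ≤ Ham g (circ M) x}) ≤
      ENNReal.ofReal (Real.exp (2 * M * (sl - c₀ + c₀ / 8)) * V ^ (2 * M)) := by
    refine (measure_mono hsub).trans (hup.trans ?_)
    rw [hpow, ← ENNReal.ofReal_mul (Real.exp_pos _).le]
  have hVexp : V ^ (2 * M) = Real.exp (2 * M * Real.log V) := by
    rw [← Real.exp_log hV0, ← Real.exp_nat_mul, Real.log_exp]
    push_cast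
    ring_nf
  have h2 : ENNReal.ofReal (δ * Real.exp (C * η * (2 * M))) *
        volume (cf Λ (Fin M ⊕ Fin M) ∩ A' ∩
          {x | E - C * η * (2 * (M : ℝ)) ^ 2 ≤ Ham g (circ M) x}) +
        ENNReal.ofReal (δ * Real.exp (-(η * (2 * (M : ℝ)) ^ 2 / 16))) ≤
      ENNReal.ofReal (2 * (δ * Real.exp (2 * M * (sl - 3 * c₀ / 4)) * V ^ (2 * M))) := by
    refine (add_le_add_left (mul_le_mul_right h1 _) _).trans ?_
    rw [← ENNReal.ofReal_mul (by positivity), ← ENNReal.ofReal_add (by positivity) (by positivity)]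
    apply ENNReal.ofReal_le_ofReal
    have a1 : δ * Real.exp (C * η * (2 * M)) *
        (Real.exp (2 * M * (sl - c₀ + c₀ / 8)) * V ^ (2 * M)) ≤
        δ * Real.exp (2 * M * (sl - 3 * c₀ / 4)) * V ^ (2 * M) := by
      have : δ * Real.exp (C * η * (2 * M)) *
        (Real.exp (2 * M * (sl - c₀ + c₀ / 8)) * V ^ (2 * M)) =
        δ * (Real.exp (C * η * (2 * M) + 2 * M * (sl - c₀ + c₀ / 8))) * V ^ (2 * M) := by
        rw [Real.exp_add]; ring
      rw [this]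
      apply mul_le_mul_of_nonneg_right _ (by positivity)
      apply mul_le_mul_of_nonneg_left _ hδ.le
      apply Real.exp_le_exp.mpr
      nlinarith
    have a2 : δ * Real.exp (-(η * (2 * (M : ℝ)) ^ 2 / 16)) ≤
        δ * Real.exp (2 * M * (sl - 3 * c₀ / 4)) * V ^ (2 * M) := by
      rw [mul_assoc, hVexp, ← Real.exp_add]
      apply mul_le_mul_of_nonneg_left _ hδ.le
      apply Real.exp_le_exp.mpr
      nlinarith
    linarith
  refine h2.trans ?_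
  refine le_trans ?_ (mul_le_mul_right hlow _)
  rw [hpow, ← ENNReal.ofReal_mul (by positivity), ← ENNReal.ofReal_mul (by positivity)]
  apply ENNReal.ofReal_le_ofReal
  have a3 : 2 * (δ * Real.exp (2 * M * (sl - 3 * c₀ / 4)) * V ^ (2 * M)) =
      δ * V ^ (2 * M) * Real.exp (Real.log 2 + 2 * M * (sl - 3 * c₀ / 4)) := by
    rw [Real.exp_add, Real.exp_log (by norm_num)]; ring
  have a4 : Real.exp (-(c₀ / 2 * M)) * (δ * Real.exp (2 * M * (sl - c₀ / 4)) * V ^ (2 * M)) =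
      δ * V ^ (2 * M) * Real.exp (-(c₀ / 2 * M) + 2 * M * (sl - c₀ / 4)) := by
    rw [Real.exp_add]; ring
  rw [a3, a4]
  apply mul_le_mul_of_nonneg_left _ (by positivity)
  apply Real.exp_le_exp.mpr
  linarith

end Pool.Agent.H836_PV
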