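import Pool.Agent.H836_PV.StmtsB

open MeasureTheory Filter Topology Set Metric

namespace Pool.Agent.H836_PV

namespace B2aux

theorem abs_prod_sub_prod_le {ι : Type*} (s : Finset ι) (a b : ι → ℝ)
    (ha : ∀ i ∈ s, |a i| ≤ 1) (hb : ∀ i ∈ s, |b i| ≤ 1) :
    |∏ i ∈ s, a i - ∏ i ∈ s, b i| ≤ ∑ i ∈ s, |a i - b i| := by
  classical
  induction s using Finset.induction_on with
  | empty => simp
  | insert j s hj ih =>
    rw [Finset.prod_insert hj, Finset.prod_insert hj, Finset.sum_insert hj]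
    have h1 := ih (fun i hi => ha i (Finset.mem_insert_of_mem hi))
      (fun i hi => hb i (Finset.mem_insert_of_mem hi))
    have h2 : |∏ i ∈ s, b i| ≤ 1 := by
      rw [Finset.abs_prod]
      exact Finset.prod_le_one (fun i _ => abs_nonneg _)
        (fun i hi => hb i (Finset.mem_insert_of_mem hi))
    have h3 := ha j (Finset.mem_insert_self _ _)
    have h4 : a j * ∏ i ∈ s, a i - b j * ∏ i ∈ s, b i =
        a j * (∏ i ∈ s, a i - ∏ i ∈ s, b i) + (a j - b j) * ∏ i ∈ s, b i := by ring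
    rw [h4]
    calc |a j * (∏ i ∈ s, a i - ∏ i ∈ s, b i) + (a j - b j) * ∏ i ∈ s, b i|
        ≤ |a j * (∏ i ∈ s, a i - ∏ i ∈ s, b i)| + |(a j - b j) * ∏ i ∈ s, b i| := abs_add_le _ _
      _ = |a j| * |∏ i ∈ s, a i - ∏ i ∈ s, b i| + |a j - b j| * |∏ i ∈ s, b i| := by
          rw [abs_mul, abs_mul]
      _ ≤ 1 * (∑ i ∈ s, |a i - b i|) + |a j - b j| * 1 := by
          gcongr
      _ = _ := by ring

theorem exists_cells (D η : ℝ) (hD : 1 ≤ D) (hη : 0 < η) :
    ∃ (n : ℕ) (q : ℂ → Fin n) (rep : Fin n → ℂ), Measurable q ∧ (∀ α, ‖rep α‖ ≤ D) ∧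
      ∀ x, ‖x‖ ≤ D → ‖x - rep (q x)‖ < η := by
  have hB : IsCompact (closedBall (0 : ℂ) D) := isCompact_closedBall _ _
  obtain ⟨t, ht, htf, hcov⟩ := hB.finite_cover_balls hη
  have htne : t.Nonempty := by
    by_contra h
    rw [Set.not_nonempty_iff_eq_empty] at h
    subst h
    have : (0 : ℂ) ∈ closedBall (0 : ℂ) D := by simp; linarith
    simpa using hcov this
  obtain ⟨e, he⟩ := htf.countable.exists_eq_range htne
  -- bound on the index
  have hN : ∃ N : ℕ, ∀ y ∈ t, ∃ k ≤ N, e k = y := by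
    have h1 : ∀ y ∈ t, ∃ k, e k = y := by
      intro y hy
      rw [he] at hy
      exact hy
    choose! k hk using h1
    obtain ⟨N, hN⟩ := (htf.image k).bddAbove
    exact ⟨N, fun y hy => ⟨k y, hN ⟨y, hy, rfl⟩, hk y hy⟩⟩
  obtain ⟨N, hN⟩ := hN
  refine ⟨N + 1, fun x => ⟨SimpleFunc.nearestPtInd e N x,
    Nat.lt_succ_of_le (SimpleFunc.nearestPtInd_le e N x)⟩, fun α => e α, ?_, ?_, ?_⟩
  · refine measurable_to_countable' fun α => ?_
    have : (fun x => (⟨SimpleFunc.nearestPtInd e N x,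
        Nat.lt_succ_of_le (SimpleFunc.nearestPtInd_le e N x)⟩ : Fin (N + 1))) ⁻¹' {α} =
        (SimpleFunc.nearestPtInd e N) ⁻¹' {(α : ℕ)} := by
      ext x
      simp [Fin.ext_iff]
    rw [this]
    exact (SimpleFunc.nearestPtInd e N).measurableSet_fiber _
  · intro α
    have : e α ∈ t := by rw [he]; exact ⟨_, rfl⟩
    have := ht this
    simpa using this
  · intro x hx
    have hx' : x ∈ closedBall (0 : ℂ) D := by simpa using hx
    have := hcov hx'
    simp only [mem_iUnion, mem_ball, exists_prop] at this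
    obtain ⟨y, hy, hxy⟩ := this
    obtain ⟨k, hk, rfl⟩ := hN y hy
    have h1 := SimpleFunc.edist_nearestPt_le e x hk
    have h2 : SimpleFunc.nearestPt e N x = e (SimpleFunc.nearestPtInd e N x) := rfl
    rw [h2, edist_dist, edist_dist, ENNReal.ofReal_le_ofReal_iff dist_nonneg] at h1
    rw [← dist_eq_norm, dist_comm]
    calc _ ≤ dist (e k) x := h1
      _ < η := by rw [dist_comm]; exact hxy

theorem exists_modulus {ι : Type} [Fintype ι] (D : ℝ) (f : (ι → ℂ) → ℝ) (hf : Continuous f)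
    (κ : ℝ) (hκ : 0 < κ) : ∃ η : ℝ, 0 < η ∧ ∀ y y' : ι → ℂ, (∀ i, ‖y i‖ ≤ D) → (∀ i, ‖y' i‖ ≤ D) →
      (∀ i, ‖y i - y' i‖ < η) → |f y - f y'| ≤ κ := by
  have hK : IsCompact (Set.pi univ (fun _ : ι => closedBall (0 : ℂ) D)) :=
    isCompact_univ_pi fun _ => isCompact_closedBall _ _
  have huc := hK.uniformContinuousOn_of_continuous hf.continuousOn
  rw [Metric.uniformContinuousOn_iff] at huc
  obtain ⟨η, hη, h⟩ := huc κ hκ
  refine ⟨η, hη, fun y y' hy hy' hyy => ?_⟩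
  have := h y (by simpa [Set.mem_pi] using hy) y' (by simpa [Set.mem_pi] using hy') (by
    rw [dist_pi_lt_iff hη]
    intro i
    rw [dist_eq_norm]
    exact hyy i)
  rw [Real.dist_eq] at this
  exact this.le

theorem exists_bound {ι : Type} [Fintype ι] (D : ℝ) (f : (ι → ℂ) → ℝ) (hf : Continuous f) :
    ∃ C : ℝ, ∀ y : ι → ℂ, (∀ i, ‖y i‖ ≤ D) → |f y| ≤ C := by
  have hK : IsCompact (Set.pi univ (fun _ : ι => closedBall (0 : ℂ) D)) :=
    isCompact_univ_pi fun _ => isCompact_closedBall _ _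
  obtain ⟨C, hC⟩ := hK.exists_bound_of_continuousOn hf.continuousOn
  exact ⟨C, fun y hy => hC y (by simpa [Set.mem_pi] using hy)⟩

theorem avg_cell {ι : Type} [Fintype ι] [DecidableEq ι] {M n : ℕ}
    (k : ι → Fin M → Fin n) (F : (ι → Fin n) → ℝ) :
    (∑ s : ι → Fin M, F (fun i => k i (s i))) / (M : ℝ) ^ Fintype.card ι =
      ∑ c : ι → Fin n, F c * ∏ i, (((Finset.univ.filter fun j => k i j = c i).card : ℝ) / M) := by
  have h1 : ∀ c : ι → Fin n, ∏ i, (((Finset.univ.filter fun j => k i j = c i).card : ℝ) / M) =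
      (∑ s : ι → Fin M, if (fun i => k i (s i)) = c then (1 : ℝ) else 0) /
        (M : ℝ) ^ Fintype.card ι := by
    intro c
    rw [Finset.prod_div_distrib, Finset.prod_const, Finset.card_univ]
    congr 1
    have h2 : ∀ i, ((Finset.univ.filter fun j => k i j = c i).card : ℝ) =
        ∑ j : Fin M, if k i j = c i then (1 : ℝ) else 0 := by
      intro i
      rw [Finset.sum_boole]
    simp_rw [h2]
    rw [Finset.prod_univ_sum, Fintype.piFinset_univ]
    refine Finset.sum_congr rfl fun s _ => ?_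
    by_cases h : (fun i => k i (s i)) = c
    · rw [if_pos h]
      refine Finset.prod_eq_one fun i _ => ?_
      rw [if_pos (congrFun h i)]
    · rw [if_neg h]
      have : ∃ i, k i (s i) ≠ c i := by
        by_contra h'
        push Not at h'
        exact h (funext h')
      obtain ⟨i, hi⟩ := this
      exact Finset.prod_eq_zero (Finset.mem_univ i) (if_neg hi)
  simp_rw [h1]
  simp_rw [← mul_div_assoc, ← Finset.sum_div]
  congr 1
  simp_rw [Finset.mul_sum]
  rw [Finset.sum_comm]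
  refine Finset.sum_congr rfl fun s _ => ?_
  simp

theorem volume_restrict_cf (Λ : Set ℂ) (ι : Type) [Fintype ι] :
    (volume : Measure (ι → ℂ)).restrict (cf Λ ι) =
      Measure.pi (fun _ : ι => (volume : Measure ℂ).restrict Λ) := by
  have h : cf Λ ι = Set.univ.pi (fun _ : ι => Λ) := by
    ext x; simp [cf, Set.mem_pi]
  rw [h, volume_pi, Measure.restrict_pi_pi]

theorem prodInt_cell {ι : Type} [Fintype ι] [DecidableEq ι] (Λ : Set ℂ) {n : ℕ} (q : ℂ → Fin n)
    (hq : Measurable q) (F : (ι → Fin n) → ℝ) (ρ : ι → ℂ → ℝ) (hρ : ∀ i, IntegrableOn (ρ i) Λ) :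
    ∫ y in cf Λ ι, F (fun i => q (y i)) * ∏ i, ρ i (y i) =
      ∑ c : ι → Fin n, F c * ∏ i, mass Λ q (ρ i) (c i) := by
  rw [volume_restrict_cf]
  have h1 : ∀ y : ι → ℂ, F (fun i => q (y i)) * ∏ i, ρ i (y i) =
      ∑ c : ι → Fin n, F c * ∏ i, (q ⁻¹' {c i}).indicator (ρ i) (y i) := by
    intro y
    rw [Finset.sum_eq_single (fun i => q (y i))]
    · congr 1
      refine Finset.prod_congr rfl fun i _ => ?_
      rw [Set.indicator_of_mem (by simp)]
    · intro c _ hc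
      have : ∃ i, q (y i) ≠ c i := by
        by_contra h'
        push Not at h'
        exact hc (funext h').symm
      obtain ⟨i, hi⟩ := this
      rw [Finset.prod_eq_zero (Finset.mem_univ i), mul_zero]
      exact Set.indicator_of_notMem (by simpa using hi) _
    · simp
  simp_rw [h1]
  have h2 : ∀ (i : ι) (α : Fin n), Integrable ((q ⁻¹' {α}).indicator (ρ i))
      ((volume : Measure ℂ).restrict Λ) := fun i α =>
    (hρ i).indicator (hq (measurableSet_singleton α))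
  rw [integral_finsetSum _ fun c _ => (Integrable.fintype_prod (fun i => h2 i (c i))).const_mul _]
  refine Finset.sum_congr rfl fun c _ => ?_
  rw [integral_const_mul, integral_fintype_prod_eq_prod (𝕜 := ℝ)]
  congr 1
  refine Finset.prod_congr rfl fun i _ => ?_
  rw [integral_indicator (hq (measurableSet_singleton _)),
    Measure.restrict_restrict (hq (measurableSet_singleton _)), Set.inter_comm]
  rfl

/-! ### exchangeability -/

theorem ham_perm (g : ℂ → ℂ → ℝ) (M : ℕ) (σ τ : Equiv.Perm (Fin M)) (x : Conf M) :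
    Ham g (circ M) (x ∘ (Equiv.sumCongr σ τ)) = Ham g (circ M) x := by
  set e : Equiv.Perm (Fin M ⊕ Fin M) := Equiv.sumCongr σ τ with he
  have hc : ∀ i, circ M (e i) = circ M i := by
    intro i
    rcases i with i | i <;> simp [he, circ]
  unfold Ham
  congr 1
  rw [← Equiv.sum_comp e (fun i => ∑ j, circ M i * circ M j * K g (x i) (x j))]
  refine Finset.sum_congr rfl fun i _ => ?_
  rw [← Equiv.sum_comp e (fun j => circ M (e i) * circ M j * K g (x (e i)) (x j))]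
  refine Finset.sum_congr rfl fun j _ => ?_
  rw [hc, hc]
  rfl

theorem shell_perm (Λ : Set ℂ) (g : ℂ → ℂ → ℝ) (M : ℕ) (E δ : ℝ) (σ τ : Equiv.Perm (Fin M))
    (x : Conf M) :
    x ∘ (Equiv.sumCongr σ τ) ∈ shell Λ g M E δ ↔ x ∈ shell Λ g M E δ := by
  unfold shell
  simp only [Set.mem_ofPred_eq]
  rw [ham_perm]
  have : x ∘ (Equiv.sumCongr σ τ) ∈ cf Λ (Fin M ⊕ Fin M) ↔ x ∈ cf Λ (Fin M ⊕ Fin M) := by
    unfold cf
    simp only [Set.mem_ofPred_eq]
    constructor
    · intro h i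
      have := h ((Equiv.sumCongr σ τ).symm i)
      simpa only [Function.comp_apply, Equiv.apply_symm_apply] using this
    · intro h i
      exact h _
  rw [this]

theorem setIntegral_shell_perm (Λ : Set ℂ) (g : ℂ → ℂ → ℝ) (M : ℕ) (E δ : ℝ)
    (σ τ : Equiv.Perm (Fin M)) (F : Conf M → ℝ) :
    ∫ x in shell Λ g M E δ, F (x ∘ (Equiv.sumCongr σ τ)) = ∫ x in shell Λ g M E δ, F x := by
  set e : Equiv.Perm (Fin M ⊕ Fin M) := Equiv.sumCongr σ τ with he
  have hmp := volume_measurePreserving_piCongrLeft (fun _ : Fin M ⊕ Fin M => ℂ) e.symm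
  have hfun : ∀ x : Conf M, (MeasurableEquiv.piCongrLeft (fun _ : Fin M ⊕ Fin M => ℂ) e.symm) x =
      x ∘ e := by
    intro x
    funext i
    obtain ⟨j, rfl⟩ := e.symm.surjective i
    rw [MeasurableEquiv.coe_piCongrLeft, Equiv.piCongrLeft_apply_apply]
    simp
  have h := hmp.setIntegral_preimage_emb (MeasurableEquiv.measurableEmbedding _) F
    (shell Λ g M E δ)
  have hS : (MeasurableEquiv.piCongrLeft (fun _ : Fin M ⊕ Fin M => ℂ) e.symm) ⁻¹'
      (shell Λ g M E δ) = shell Λ g M E δ := by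
    ext x
    rw [Set.mem_preimage, hfun, he, shell_perm]
  rw [hS] at h
  rw [← h]
  congr 1
  funext x
  rw [hfun]

theorem exists_perm {M p : ℕ} (a a' : Fin p → Fin M) (ha : Function.Injective a)
    (ha' : Function.Injective a') : ∃ σ : Equiv.Perm (Fin M), ∀ i, σ (a i) = a' i := by
  have h := (Equiv.Perm.isMultiplyPretransitive (Fin M) p)
  obtain ⟨σ, hσ⟩ := h.exists_smul_eq (⟨a, ha⟩ : Fin p ↪ Fin M) ⟨a', ha'⟩
  refine ⟨σ, fun i => ?_⟩
  have := DFunLike.congr_fun hσ i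
  simpa using this

/-- average label -/
def pk {M p r : ℕ} (s : Fin p ⊕ Fin r → Fin M) (x : Conf M) : Fin p ⊕ Fin r → ℂ :=
  pick (s ∘ Sum.inl) (s ∘ Sum.inr) x

theorem setIntegral_pick_eq (Λ : Set ℂ) (g : ℂ → ℂ → ℝ) (M : ℕ) (E δ : ℝ) {p r : ℕ}
    (f : (Fin p ⊕ Fin r → ℂ) → ℝ) (a a' : Fin p → Fin M) (b b' : Fin r → Fin M)
    (ha : Function.Injective a) (ha' : Function.Injective a')
    (hb : Function.Injective b) (hb' : Function.Injective b') :
    ∫ x in shell Λ g M E δ, f (pick a b x) = ∫ x in shell Λ g M E δ, f (pick a' b' x) := by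
  obtain ⟨σ, hσ⟩ := exists_perm a' a ha' ha
  obtain ⟨τ, hτ⟩ := exists_perm b' b hb' hb
  rw [← setIntegral_shell_perm Λ g M E δ σ τ (fun x => f (pick a' b' x))]
  congr 1
  funext x
  congr 1
  funext i
  rcases i with i | i
  · simp [pick, hσ]
  · simp [pick, hτ]

/-- counting of injective labels -/
theorem card_inj (M p r : ℕ) :
    (Finset.univ.filter fun s : Fin p ⊕ Fin r → Fin M =>
      Function.Injective (s ∘ Sum.inl) ∧ Function.Injective (s ∘ Sum.inr)).card =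
      M.descFactorial p * M.descFactorial r := by
  have h1 : (Finset.univ.filter fun s : Fin p ⊕ Fin r → Fin M =>
      Function.Injective (s ∘ Sum.inl) ∧ Function.Injective (s ∘ Sum.inr)).card =
      Fintype.card ((Fin p ↪ Fin M) × (Fin r ↪ Fin M)) := by
    rw [← Fintype.card_subtype]
    refine Fintype.card_congr
      { toFun := fun s => (⟨s.1 ∘ Sum.inl, s.2.1⟩, ⟨s.1 ∘ Sum.inr, s.2.2⟩)
        invFun := fun t => ⟨Sum.elim t.1 t.2, by
          refine ⟨?_, ?_⟩
          · simpa using t.1.injective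
          · simpa using t.2.injective⟩
        left_inv := ?_
        right_inv := ?_ }
    · rintro ⟨s, hs⟩
      apply Subtype.ext
      funext i
      rcases i with i | i <;> rfl
    · rintro ⟨a, b⟩
      rfl
  rw [h1, Fintype.card_prod, Fintype.card_embedding_eq, Fintype.card_embedding_eq]
  simp

theorem frac_tendsto (p r : ℕ) :
    Tendsto (fun M : ℕ => 1 - ((M.descFactorial p * M.descFactorial r : ℕ) : ℝ) /
      (M : ℝ) ^ (p + r)) atTop (𝓝 0) := by
  have h1 : ∀ k : ℕ, Tendsto (fun M : ℕ => (M.descFactorial k : ℝ) / (M : ℝ) ^ k) atTop (𝓝 1) := by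
    intro k
    have h := isEquivalent_descFactorial k
    have hne : ∀ᶠ M : ℕ in atTop, ((M : ℝ) ^ k) ≠ 0 := by
      filter_upwards [eventually_gt_atTop 0] with M hM
      positivity
    exact (Asymptotics.isEquivalent_iff_tendsto_one hne).1 h
  have h2 := (h1 p).mul (h1 r)
  have h3 : Tendsto (fun M : ℕ => 1 - (M.descFactorial p : ℝ) / (M : ℝ) ^ p *
      ((M.descFactorial r : ℝ) / (M : ℝ) ^ r)) atTop (𝓝 (1 - 1 * 1)) := h2.const_sub 1
  rw [one_mul, sub_self] at h3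
  refine h3.congr fun M => ?_
  rw [pow_add, Nat.cast_mul, div_mul_div_comm]

theorem measurableSet_cf {Λ : Set ℂ} (hΛ : MeasurableSet Λ) (ι : Type) [Fintype ι] :
    MeasurableSet (cf Λ ι) := by
  have h : cf Λ ι = Set.univ.pi (fun _ : ι => Λ) := by
    ext x; simp [cf, Set.mem_pi]
  rw [h]
  exact MeasurableSet.univ_pi fun _ => hΛ

theorem ae_mem_cf {Λ : Set ℂ} (hΛ : MeasurableSet Λ) {ι : Type} [Fintype ι] {S : Set (ι → ℂ)}
    (hS : S ⊆ cf Λ ι) : ∀ᵐ x ∂((volume : Measure (ι → ℂ)).restrict S), x ∈ cf Λ ι := by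
  have h1 : (volume : Measure (ι → ℂ)).restrict S ≤ (volume : Measure (ι → ℂ)).restrict (cf Λ ι) :=
    Measure.restrict_mono hS le_rfl
  have h2 := ae_restrict_mem (μ := (volume : Measure (ι → ℂ))) (measurableSet_cf hΛ ι)
  exact (ae_mono h1) h2

theorem pk_mem {Λ : Set ℂ} {M p r : ℕ} (s : Fin p ⊕ Fin r → Fin M) {x : Conf M}
    (hx : x ∈ cf Λ (Fin M ⊕ Fin M)) : pk s x ∈ cf Λ (Fin p ⊕ Fin r) := by
  intro i
  rcases i with i | i
  · exact hx _
  · exact hx _

theorem continuous_pk {M p r : ℕ} (s : Fin p ⊕ Fin r → Fin M) : Continuous (pk s) := by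
  refine continuous_pi fun i => ?_
  rcases i with i | i
  · exact continuous_apply _
  · exact continuous_apply _

theorem avg_close {Λ : Set ℂ} (hΛ : MeasurableSet Λ) (g : ℂ → ℂ → ℝ) (M : ℕ) (E δ : ℝ) {p r : ℕ}
    (f : (Fin p ⊕ Fin r → ℂ) → ℝ) (hf : Continuous f) (C : ℝ)
    (hfC : ∀ y ∈ cf Λ (Fin p ⊕ Fin r), |f y| ≤ C)
    (hfin : volume (shell Λ g M E δ) ≠ ⊤) (hM : 0 < M)
    (a : Fin p → Fin M) (b : Fin r → Fin M) (ha : Function.Injective a)
    (hb : Function.Injective b) :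
    |(∫ x in shell Λ g M E δ, f (pick a b x)) -
      ∫ x in shell Λ g M E δ, (∑ s : Fin p ⊕ Fin r → Fin M, f (pk s x)) / (M : ℝ) ^ (p + r)| ≤
      (1 - ((M.descFactorial p * M.descFactorial r : ℕ) : ℝ) / (M : ℝ) ^ (p + r)) * (2 * C) *
        (volume (shell Λ g M E δ)).toReal := by
  classical
  set S := shell Λ g M E δ with hS
  have hSsub : S ⊆ cf Λ (Fin M ⊕ Fin M) := fun x hx => hx.1
  have : IsFiniteMeasure ((volume : Measure (Conf M)).restrict S) :=
    ⟨by rw [Measure.restrict_apply_univ]; exact lt_top_iff_ne_top.2 hfin⟩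
  have hae := ae_mem_cf hΛ hSsub
  set V : ℝ := (volume S).toReal with hV
  have hV0 : 0 ≤ V := ENNReal.toReal_nonneg
  have hint : ∀ s : Fin p ⊕ Fin r → Fin M,
      Integrable (fun x => f (pk s x)) ((volume : Measure (Conf M)).restrict S) := by
    intro s
    refine Integrable.of_bound (hf.comp (continuous_pk s)).aestronglyMeasurable C ?_
    filter_upwards [hae] with x hx
    exact hfC _ (pk_mem s hx)
  have hI : ∀ s : Fin p ⊕ Fin r → Fin M, |∫ x in S, f (pk s x)| ≤ C * V := by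
    intro s
    have := norm_integral_le_of_norm_le_const (μ := (volume : Measure (Conf M)).restrict S)
      (f := fun x => f (pk s x)) (C := C) (by
        filter_upwards [hae] with x hx
        exact hfC _ (pk_mem s hx))
    simpa [Measure.real, Measure.restrict_apply_univ] using this
  have hMp : (0 : ℝ) < (M : ℝ) ^ (p + r) := by positivity
  rw [integral_div, integral_finsetSum _ fun s _ => hint s]
  set I : (Fin p ⊕ Fin r → Fin M) → ℝ := fun s => ∫ x in S, f (pk s x) with hIdef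
  have hs0 : (∫ x in S, f (pick a b x)) = I (Sum.elim a b) := by
    rw [hIdef]
    rfl
  rw [hs0]
  have hcard : (Fintype.card (Fin p ⊕ Fin r → Fin M) : ℝ) = (M : ℝ) ^ (p + r) := by
    rw [Fintype.card_fun, Fintype.card_sum, Fintype.card_fin, Fintype.card_fin, Fintype.card_fin]
    push_cast
    rfl
  have h1 : I (Sum.elim a b) - (∑ s, I s) / (M : ℝ) ^ (p + r) =
      (∑ s, (I (Sum.elim a b) - I s)) / (M : ℝ) ^ (p + r) := by
    rw [Finset.sum_sub_distrib, Finset.sum_const, Finset.card_univ, nsmul_eq_mul, hcard]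
    field_simp
  rw [h1]
  set Inj := (Finset.univ.filter fun s : Fin p ⊕ Fin r → Fin M =>
      Function.Injective (s ∘ Sum.inl) ∧ Function.Injective (s ∘ Sum.inr)) with hInj
  have h2 : ∑ s, (I (Sum.elim a b) - I s) = ∑ s ∈ Injᶜ, (I (Sum.elim a b) - I s) := by
    rw [← Finset.sum_compl_add_sum Inj]
    have : ∑ s ∈ Inj, (I (Sum.elim a b) - I s) = 0 := by
      refine Finset.sum_eq_zero fun s hs => ?_
      rw [hInj, Finset.mem_filter] at hs
      rw [sub_eq_zero]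
      exact setIntegral_pick_eq Λ g M E δ f a (s ∘ Sum.inl) b (s ∘ Sum.inr) ha hs.2.1 hb hs.2.2
    rw [this, add_zero]
  have h3 : |∑ s ∈ Injᶜ, (I (Sum.elim a b) - I s)| ≤ (Injᶜ.card : ℝ) * (2 * C * V) := by
    calc |∑ s ∈ Injᶜ, (I (Sum.elim a b) - I s)| ≤ ∑ s ∈ Injᶜ, |I (Sum.elim a b) - I s| :=
          Finset.abs_sum_le_sum_abs _ _
      _ ≤ ∑ s ∈ Injᶜ, (2 * C * V) := by
          refine Finset.sum_le_sum fun s _ => ?_
          calc |I (Sum.elim a b) - I s| ≤ |I (Sum.elim a b)| + |I s| := abs_sub _ _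
            _ ≤ C * V + C * V := add_le_add (hI _) (hI _)
            _ = 2 * C * V := by ring
      _ = (Injᶜ.card : ℝ) * (2 * C * V) := by rw [Finset.sum_const, nsmul_eq_mul]
  have h4 : (Injᶜ.card : ℝ) = (M : ℝ) ^ (p + r) -
      ((M.descFactorial p * M.descFactorial r : ℕ) : ℝ) := by
    rw [Finset.card_compl, hInj, card_inj, Nat.cast_sub, hcard]
    rw [← card_inj]
    exact Finset.card_le_univ _
  rw [h2, abs_div, abs_of_pos hMp, div_le_iff₀ hMp]
  refine h3.trans (le_of_eq ?_)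
  rw [h4]
  field_simp

/-- empirical masses of a colouring -/
noncomputable def empT {M n : ℕ} (k : Fin M → Fin n) (α : Fin n) : ℝ :=
  ((Finset.univ.filter fun i => k i = α).card : ℝ) / M

theorem empT_nonneg {M n : ℕ} (k : Fin M → Fin n) (α : Fin n) : 0 ≤ empT k α := by
  unfold empT; positivity

theorem empT_le_one {M n : ℕ} (k : Fin M → Fin n) (α : Fin n) : empT k α ≤ 1 := by
  unfold empT
  refine div_le_one_of_le₀ ?_ (by positivity)
  have h := Finset.card_le_univ (Finset.univ.filter fun i => k i = α)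
  rw [Fintype.card_fin] at h
  exact_mod_cast h

theorem pointwise_avg {Λ : Set ℂ} {M n p r : ℕ} (hM : 0 < M) (q : ℂ → Fin n)
    (f : (Fin p ⊕ Fin r → ℂ) → ℝ) (F : (Fin p ⊕ Fin r → Fin n) → ℝ) (κ₁ : ℝ)
    (hF : ∀ y ∈ cf Λ (Fin p ⊕ Fin r), |f y - F (fun i => q (y i))| ≤ κ₁)
    (x : Conf M) (hx : x ∈ cf Λ (Fin M ⊕ Fin M)) :
    |(∑ s : Fin p ⊕ Fin r → Fin M, f (pk s x)) / (M : ℝ) ^ (p + r) -
      ∑ c : Fin p ⊕ Fin r → Fin n, F c * ((∏ i, empT (fun j => q (x (Sum.inl j))) (c (Sum.inl i))) *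
        ∏ i, empT (fun j => q (x (Sum.inr j))) (c (Sum.inr i)))| ≤ κ₁ := by
  classical
  have hMp : (0 : ℝ) < (M : ℝ) ^ (p + r) := by positivity
  set k : Fin p ⊕ Fin r → Fin M → Fin n :=
    fun i j => Sum.elim (fun _ => q (x (Sum.inl j))) (fun _ => q (x (Sum.inr j))) i with hk
  have h1 := avg_cell (ι := Fin p ⊕ Fin r) (M := M) k F
  have hcard : Fintype.card (Fin p ⊕ Fin r) = p + r := by simp
  rw [hcard] at h1
  have h2 : ∀ c : Fin p ⊕ Fin r → Fin n,
      ∏ i, (((Finset.univ.filter fun j => k i j = c i).card : ℝ) / M) =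
      (∏ i, empT (fun j => q (x (Sum.inl j))) (c (Sum.inl i))) *
        ∏ i, empT (fun j => q (x (Sum.inr j))) (c (Sum.inr i)) := by
    intro c
    rw [Fintype.prod_sum_type]
    rfl
  simp_rw [h2] at h1
  rw [← h1, ← sub_div, ← Finset.sum_sub_distrib, abs_div, abs_of_pos hMp, div_le_iff₀ hMp]
  calc |∑ s : Fin p ⊕ Fin r → Fin M, (f (pk s x) - F (fun i => k i (s i)))|
      ≤ ∑ s : Fin p ⊕ Fin r → Fin M, |f (pk s x) - F (fun i => k i (s i))| :=
        Finset.abs_sum_le_sum_abs _ _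
    _ ≤ ∑ s : Fin p ⊕ Fin r → Fin M, κ₁ := by
        refine Finset.sum_le_sum fun s _ => ?_
        have h3 := hF (pk s x) (pk_mem s hx)
        have h4 : (fun i => q (pk s x i)) = fun i => k i (s i) := by
          funext i
          rcases i with i | i <;> rfl
        rw [h4] at h3
        exact h3
    _ = κ₁ * (M : ℝ) ^ (p + r) := by
        rw [Finset.sum_const, nsmul_eq_mul, Finset.card_univ, Fintype.card_fun, Fintype.card_sum,
          Fintype.card_fin, Fintype.card_fin, Fintype.card_fin]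
        push_cast
        ring

theorem mass_nonneg {Λ : Set ℂ} (hΛ : MeasurableSet Λ) {n : ℕ} {q : ℂ → Fin n} (hq : Measurable q)
    {ρ : ℂ → ℝ} (hρ : IsDens Λ ρ) (α : Fin n) : 0 ≤ mass Λ q ρ α := by
  refine setIntegral_nonneg (hΛ.inter (hq (measurableSet_singleton α))) fun x hx => ?_
  exact hρ.nonneg x hx.1

theorem mass_le_one {Λ : Set ℂ} (hΛ : MeasurableSet Λ) {n : ℕ} {q : ℂ → Fin n}
    {ρ : ℂ → ℝ} (hρ : IsDens Λ ρ) (α : Fin n) : mass Λ q ρ α ≤ 1 := by
  rw [← hρ.integral]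
  refine setIntegral_mono_set hρ.integrable ?_ (Set.inter_subset_left.eventuallyLE)
  filter_upwards [ae_restrict_mem hΛ] with x hx
  exact hρ.nonneg x hx

theorem prodInt_eq {Λ : Set ℂ} {p r : ℕ} (f : (Fin p ⊕ Fin r → ℂ) → ℝ) (ρ₁ ρ₂ : ℂ → ℝ) :
    prodInt Λ f ρ₁ ρ₂ = ∫ y in cf Λ (Fin p ⊕ Fin r), f y *
      ∏ i, (Sum.elim (fun _ => ρ₁) (fun _ => ρ₂) : Fin p ⊕ Fin r → ℂ → ℝ) i (y i) := by
  unfold prodInt
  congr 1
  funext y
  rw [Fintype.prod_sum_type, mul_assoc]
  rfl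

theorem prod_dens {Λ : Set ℂ} (hΛ : MeasurableSet Λ) {ι : Type} [Fintype ι] (ρ : ι → ℂ → ℝ)
    (hρ : ∀ i, IsDens Λ (ρ i)) :
    Integrable (fun y : ι → ℂ => ∏ i, ρ i (y i)) (volume.restrict (cf Λ ι)) ∧
    (∫ y in cf Λ ι, ∏ i, ρ i (y i)) = 1 ∧
    ∀ᵐ y ∂((volume : Measure (ι → ℂ)).restrict (cf Λ ι)), 0 ≤ ∏ i, ρ i (y i) := by
  refine ⟨?_, ?_, ?_⟩
  · rw [volume_restrict_cf]
    exact Integrable.fintype_prod fun i => (hρ i).integrable
  · rw [volume_restrict_cf, integral_fintype_prod_eq_prod (𝕜 := ℝ)]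
    exact Finset.prod_eq_one fun i _ => (hρ i).integral
  · filter_upwards [ae_restrict_mem (measurableSet_cf hΛ ι)] with y hy
    exact Finset.prod_nonneg fun i _ => (hρ i).nonneg _ (hy i)

theorem prodInt_approx {Λ : Set ℂ} (hΛ : MeasurableSet Λ) {n p r : ℕ} (q : ℂ → Fin n)
    (hq : Measurable q) (f : (Fin p ⊕ Fin r → ℂ) → ℝ) (hf : Continuous f) (C : ℝ)
    (hfC : ∀ y ∈ cf Λ (Fin p ⊕ Fin r), |f y| ≤ C)
    (F : (Fin p ⊕ Fin r → Fin n) → ℝ) (κ₁ : ℝ)
    (hF : ∀ y ∈ cf Λ (Fin p ⊕ Fin r), |f y - F (fun i => q (y i))| ≤ κ₁)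
    (ρ₁ ρ₂ : ℂ → ℝ) (h₁ : IsDens Λ ρ₁) (h₂ : IsDens Λ ρ₂) :
    |prodInt Λ f ρ₁ ρ₂ -
      ∑ c : Fin p ⊕ Fin r → Fin n, F c * ((∏ i, mass Λ q ρ₁ (c (Sum.inl i))) *
        ∏ i, mass Λ q ρ₂ (c (Sum.inr i)))| ≤ κ₁ ∧ |prodInt Λ f ρ₁ ρ₂| ≤ C := by
  classical
  set ρ : Fin p ⊕ Fin r → ℂ → ℝ := Sum.elim (fun _ => ρ₁) (fun _ => ρ₂) with hρdef
  have hρ : ∀ i, IsDens Λ (ρ i) := by
    intro i
    rcases i with i | i
    · exact h₁
    · exact h₂
  obtain ⟨hint, hone, hnn⟩ := prod_dens hΛ ρ hρ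
  have hmem := ae_restrict_mem (μ := (volume : Measure (Fin p ⊕ Fin r → ℂ)))
    (measurableSet_cf hΛ (Fin p ⊕ Fin r))
  have hmeasF : Measurable fun y : Fin p ⊕ Fin r → ℂ => F (fun i => q (y i)) := by
    have h1 : Measurable fun y : Fin p ⊕ Fin r → ℂ => (fun i => q (y i)) :=
      measurable_pi_lambda _ fun i => hq.comp (measurable_pi_apply i)
    exact (measurable_of_countable F).comp h1
  have hint1 : Integrable (fun y : Fin p ⊕ Fin r → ℂ => f y * ∏ i, ρ i (y i))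
      (volume.restrict (cf Λ (Fin p ⊕ Fin r))) := by
    refine Integrable.bdd_mul (c := C) hint hf.aestronglyMeasurable ?_
    filter_upwards [hmem] with y hy
    exact hfC y hy
  have hint2 : Integrable (fun y : Fin p ⊕ Fin r → ℂ => F (fun i => q (y i)) * ∏ i, ρ i (y i))
      (volume.restrict (cf Λ (Fin p ⊕ Fin r))) := by
    refine Integrable.bdd_mul (c := C + κ₁) hint hmeasF.aestronglyMeasurable ?_
    filter_upwards [hmem] with y hy
    have h1 := hfC y hy
    have h2 := hF y hy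
    rw [Real.norm_eq_abs]
    have h3 : F (fun i => q (y i)) = f y - (f y - F (fun i => q (y i))) := by ring
    rw [h3]
    exact (abs_sub _ _).trans (add_le_add h1 h2)
  constructor
  · have h3 : ∑ c : Fin p ⊕ Fin r → Fin n, F c * ((∏ i, mass Λ q ρ₁ (c (Sum.inl i))) *
        ∏ i, mass Λ q ρ₂ (c (Sum.inr i))) =
        ∫ y in cf Λ (Fin p ⊕ Fin r), F (fun i => q (y i)) * ∏ i, ρ i (y i) := by
      rw [prodInt_cell Λ q hq F ρ fun i => (hρ i).integrable]
      refine Finset.sum_congr rfl fun c _ => ?_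
      rw [Fintype.prod_sum_type]
      rfl
    rw [h3, prodInt_eq, ← hρdef, ← integral_sub hint1 hint2]
    calc |∫ y in cf Λ (Fin p ⊕ Fin r), (f y * ∏ i, ρ i (y i) -
          F (fun i => q (y i)) * ∏ i, ρ i (y i))|
        ≤ ∫ y in cf Λ (Fin p ⊕ Fin r), κ₁ * ∏ i, ρ i (y i) := by
          rw [← Real.norm_eq_abs]
          refine norm_integral_le_of_norm_le (hint.const_mul κ₁) ?_
          filter_upwards [hmem, hnn] with y hy hy0
          rw [← sub_mul, norm_mul, Real.norm_eq_abs, Real.norm_eq_abs, abs_of_nonneg hy0]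
          exact mul_le_mul_of_nonneg_right (hF y hy) hy0
      _ = κ₁ := by rw [integral_const_mul, hone, mul_one]
  · rw [prodInt_eq, ← hρdef]
    calc |∫ y in cf Λ (Fin p ⊕ Fin r), f y * ∏ i, ρ i (y i)|
        ≤ ∫ y in cf Λ (Fin p ⊕ Fin r), C * ∏ i, ρ i (y i) := by
          rw [← Real.norm_eq_abs]
          refine norm_integral_le_of_norm_le (hint.const_mul C) ?_
          filter_upwards [hmem, hnn] with y hy hy0
          rw [norm_mul, Real.norm_eq_abs, Real.norm_eq_abs, abs_of_nonneg hy0]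
          exact mul_le_mul_of_nonneg_right (hfC y hy) hy0
      _ = C := by rw [integral_const_mul, hone, mul_one]

theorem cells_diff {n p r : ℕ} (F : (Fin p ⊕ Fin r → Fin n) → ℝ) (C τ : ℝ)
    (hFC : ∀ c, |F c| ≤ C) (e₁ e₂ m₁ m₂ : Fin n → ℝ)
    (he₁ : ∀ α, |e₁ α| ≤ 1) (he₂ : ∀ α, |e₂ α| ≤ 1) (hm₁ : ∀ α, |m₁ α| ≤ 1) (hm₂ : ∀ α, |m₂ α| ≤ 1)
    (h₁ : ∀ α, |e₁ α - m₁ α| ≤ τ) (h₂ : ∀ α, |e₂ α - m₂ α| ≤ τ) :
    |(∑ c : Fin p ⊕ Fin r → Fin n, F c * ((∏ i, e₁ (c (Sum.inl i))) * ∏ i, e₂ (c (Sum.inr i)))) -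
      ∑ c : Fin p ⊕ Fin r → Fin n, F c * ((∏ i, m₁ (c (Sum.inl i))) * ∏ i, m₂ (c (Sum.inr i)))| ≤
    (n : ℝ) ^ (p + r) * (C * ((p + r : ℕ) * τ)) := by
  rw [← Finset.sum_sub_distrib]
  have hC : ∀ c : Fin p ⊕ Fin r → Fin n, |F c * ((∏ i, e₁ (c (Sum.inl i))) *
      ∏ i, e₂ (c (Sum.inr i))) - F c * ((∏ i, m₁ (c (Sum.inl i))) * ∏ i, m₂ (c (Sum.inr i)))| ≤
      C * ((p + r : ℕ) * τ) := by
    intro c
    rw [← mul_sub, abs_mul]
    have h3 : ∀ (u v : Fin n → ℝ), (∏ i, u (c (Sum.inl i))) * ∏ i, v (c (Sum.inr i)) =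
        ∏ i, (Sum.elim (fun _ => u) (fun _ => v) : Fin p ⊕ Fin r → Fin n → ℝ) i (c i) := by
      intro u v
      rw [Fintype.prod_sum_type]
      rfl
    rw [h3, h3]
    have h4 := abs_prod_sub_prod_le (Finset.univ : Finset (Fin p ⊕ Fin r))
      (fun i => (Sum.elim (fun _ => e₁) (fun _ => e₂) : Fin p ⊕ Fin r → Fin n → ℝ) i (c i))
      (fun i => (Sum.elim (fun _ => m₁) (fun _ => m₂) : Fin p ⊕ Fin r → Fin n → ℝ) i (c i))
      (by rintro (i | i) _
          · exact he₁ _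
          · exact he₂ _)
      (by rintro (i | i) _
          · exact hm₁ _
          · exact hm₂ _)
    have h5 : ∑ i : Fin p ⊕ Fin r,
        |(Sum.elim (fun _ => e₁) (fun _ => e₂) : Fin p ⊕ Fin r → Fin n → ℝ) i (c i) -
          (Sum.elim (fun _ => m₁) (fun _ => m₂) : Fin p ⊕ Fin r → Fin n → ℝ) i (c i)| ≤
        (p + r : ℕ) * τ := by
      calc _ ≤ ∑ i : Fin p ⊕ Fin r, τ := by
            refine Finset.sum_le_sum ?_
            rintro (i | i) _
            · exact h₁ _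
            · exact h₂ _
        _ = _ := by
            rw [Finset.sum_const, nsmul_eq_mul, Finset.card_univ]
            simp
    have hC0 : 0 ≤ C := (abs_nonneg _).trans (hFC c)
    exact mul_le_mul (hFC c) (h4.trans h5) (abs_nonneg _) hC0
  calc _ ≤ ∑ c : Fin p ⊕ Fin r → Fin n, |F c * ((∏ i, e₁ (c (Sum.inl i))) *
      ∏ i, e₂ (c (Sum.inr i))) - F c * ((∏ i, m₁ (c (Sum.inl i))) * ∏ i, m₂ (c (Sum.inr i)))| :=
        Finset.abs_sum_le_sum_abs _ _
    _ ≤ ∑ c : Fin p ⊕ Fin r → Fin n, C * ((p + r : ℕ) * τ) :=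
        Finset.sum_le_sum fun c _ => hC c
    _ = _ := by
        rw [Finset.sum_const, nsmul_eq_mul, Finset.card_univ, Fintype.card_fun, Fintype.card_sum,
          Fintype.card_fin, Fintype.card_fin, Fintype.card_fin]
        push_cast
        ring

theorem integral_color {Ω T : Type} [MeasurableSpace Ω] [Fintype T] [MeasurableSpace T]
    [MeasurableSingletonClass T] (ν : Measure Ω) [IsFiniteMeasure ν] (Q : Ω → T)
    (hQ : Measurable Q) (G : T → ℝ) : ∫ x, G (Q x) ∂ν = ∑ k, ν.real (Q ⁻¹' {k}) * G k := by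
  have hG : Measurable G := measurable_of_countable G
  rw [← integral_map (f := G) hQ.aemeasurable hG.aestronglyMeasurable]
  have : IsFiniteMeasure (Measure.map Q ν) := Measure.isFiniteMeasure_map ν Q
  rw [integral_fintype Integrable.of_finite]
  refine Finset.sum_congr rfl fun k _ => ?_
  rw [smul_eq_mul, map_measureReal_apply hQ (measurableSet_singleton k)]

end B2aux

open B2aux

theorem taskB2 (hB1 : TaskB1) : TaskB2 := by
  classical
  intro Λ g D C₃ cL CB hK ε hε hmax L p r f hf κ hκ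
  have hΛ : MeasurableSet Λ := hK.isOpen.measurableSet
  obtain ⟨ρ₁₀, ρ₂₀, hρ₀⟩ := hmax
  -- a bound for all the functions
  obtain ⟨C, hC0, hC⟩ : ∃ C : ℝ, 0 < C ∧ ∀ l, ∀ y : Fin (p l) ⊕ Fin (r l) → ℂ,
      (∀ i, ‖y i‖ ≤ D) → |f l y| ≤ C := by
    choose C hC using fun l => exists_bound D (f l) (hf l)
    refine ⟨1 + ∑ l, |C l|, by positivity, fun l y hy => ?_⟩
    have h1 : |C l| ≤ ∑ l, |C l| :=
      Finset.single_le_sum (f := fun l => |C l|) (fun l _ => abs_nonneg _) (Finset.mem_univ l)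
    have h2 := hC l y hy
    have h3 := le_abs_self (C l)
    linarith
  -- a common modulus
  obtain ⟨η, hη0, hη⟩ : ∃ η : ℝ, 0 < η ∧ ∀ l, ∀ y y' : Fin (p l) ⊕ Fin (r l) → ℂ,
      (∀ i, ‖y i‖ ≤ D) → (∀ i, ‖y' i‖ ≤ D) → (∀ i, ‖y i - y' i‖ < η) →
        |f l y - f l y'| ≤ κ / 8 := by
    choose η hη hη' using fun l => exists_modulus D (f l) (hf l) (κ / 8) (by positivity)
    have hev : ∀ᶠ x : ℝ in 𝓝[>] 0, ∀ l, x < η l := by
      rw [eventually_all]
      intro l
      exact mem_nhdsWithin_of_mem_nhds (Iio_mem_nhds (hη l))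
    obtain ⟨x, hx, hx0⟩ := (hev.and self_mem_nhdsWithin).exists
    refine ⟨x, hx0, fun l y y' hy hy' hyy => hη' l y y' hy hy' fun i => (hyy i).trans (hx l)⟩
  obtain ⟨n, q, rep, hq, hrep, hcell⟩ := exists_cells D η hK.one_le hη0
  -- the cell functions
  set F : ∀ l, (Fin (p l) ⊕ Fin (r l) → Fin n) → ℝ := fun l c => f l (fun i => rep (c i)) with hF
  have hFC : ∀ l c, |F l c| ≤ C := fun l c => hC l _ fun i => hrep _
  have hcf : ∀ l, ∀ y ∈ cf Λ (Fin (p l) ⊕ Fin (r l)), ∀ i, ‖y i‖ ≤ D :=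
    fun l y hy i => hK.norm_le _ (hy i)
  have hfC : ∀ l, ∀ y ∈ cf Λ (Fin (p l) ⊕ Fin (r l)), |f l y| ≤ C :=
    fun l y hy => hC l y (hcf l y hy)
  have hFapp : ∀ l, ∀ y ∈ cf Λ (Fin (p l) ⊕ Fin (r l)),
      |f l y - F l (fun i => q (y i))| ≤ κ / 8 := by
    intro l y hy
    exact hη l y _ (hcf l y hy) (fun i => hrep _) fun i => hcell _ (hcf l y hy i)
  -- the accuracy of the masses
  obtain ⟨τ, hτ0, hτ⟩ : ∃ τ : ℝ, 0 < τ ∧
      ∀ l, (n : ℝ) ^ (p l + r l) * (C * ((p l + r l : ℕ) * τ)) ≤ κ / 4 := by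
    have hev : ∀ᶠ x : ℝ in 𝓝[>] 0, ∀ l,
        (n : ℝ) ^ (p l + r l) * (C * ((p l + r l : ℕ) * x)) < κ / 4 := by
      rw [eventually_all]
      intro l
      have hcont : Tendsto (fun x : ℝ => (n : ℝ) ^ (p l + r l) * (C * ((p l + r l : ℕ) * x)))
          (𝓝[>] 0) (𝓝 ((n : ℝ) ^ (p l + r l) * (C * ((p l + r l : ℕ) * 0)))) := by
        refine Tendsto.mono_left ?_ nhdsWithin_le_nhds
        exact Continuous.tendsto (by fun_prop) 0
      refine hcont.eventually (gt_mem_nhds ?_)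
      simp; positivity
    obtain ⟨x, hx, hx0⟩ := (hev.and self_mem_nhdsWithin).exists
    exact ⟨x, hx0, fun l => (hx l).le⟩
  obtain ⟨c, hc, M₁, hM₁⟩ := hB1 Λ g D C₃ cL CB hK ε hε n q hq τ hτ0
  -- the number of vortices
  have hexp : ∀ᶠ M : ℕ in atTop, 2 * C * Real.exp (-(c * M)) < κ / 8 := by
    have h1 : Tendsto (fun M : ℕ => 2 * C * Real.exp (-(c * M))) atTop (𝓝 (2 * C * 0)) := by
      refine Tendsto.const_mul _ (Real.tendsto_exp_neg_atTop_nhds_zero.comp ?_)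
      exact tendsto_natCast_atTop_atTop.const_mul_atTop hc
    refine h1.eventually (gt_mem_nhds ?_)
    simp; positivity
  have hfrac : ∀ᶠ M : ℕ in atTop, ∀ l,
      (1 - ((M.descFactorial (p l) * M.descFactorial (r l) : ℕ) : ℝ) /
        (M : ℝ) ^ (p l + r l)) * (2 * C) < κ / 8 := by
    rw [eventually_all]
    intro l
    have h1 := (frac_tendsto (p l) (r l)).mul_const (2 * C)
    refine h1.eventually (gt_mem_nhds ?_)
    simp; positivity
  obtain ⟨M₀, hM₀⟩ := eventually_atTop.1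
    (hexp.and (hfrac.and ((eventually_ge_atTop M₁).and (eventually_gt_atTop 0))))
  refine ⟨M₀, fun M hM E hE δ hδ0 hδ1 => ?_⟩
  obtain ⟨hexp, hfrac, hMM, hM0⟩ := hM₀ M hM
  have hfar := hM₁ M hMM E hE δ hδ0 hδ1
  set S := shell Λ g M E δ with hS
  have hSsub : S ⊆ cf Λ (Fin M ⊕ Fin M) := fun x hx => hx.1
  have hSfin : volume S ≠ ⊤ := by
    have h1 : S ⊆ closedBall (0 : Conf M) D := by
      intro x hx
      rw [mem_closedBall, dist_zero_right, pi_norm_le_iff_of_nonneg (by linarith [hK.one_le])]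
      intro i
      exact hK.norm_le _ (hx.1 i)
    exact ((measure_mono h1).trans_lt measure_closedBall_lt_top).ne
  set V : ℝ := (volume S).toReal with hV
  have hV0 : 0 ≤ V := ENNReal.toReal_nonneg
  rcases hV0.eq_or_lt with hVz | hVpos
  · -- the shell is negligible
    have hSz : volume S = 0 := by
      rcases (ENNReal.toReal_eq_zero_iff _).1 hVz.symm with h | h
      · exact h
      · exact absurd h hSfin
    refine ⟨1, fun _ => 1, fun _ => ρ₁₀, fun _ => ρ₂₀, fun _ => zero_le_one, by simp,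
      fun _ => hρ₀, fun l a b _ _ => ?_⟩
    have h1 : (volume : Measure (Conf M)).restrict S = 0 := Measure.restrict_eq_zero.2 hSz
    rw [h1, ← hVz]
    simp
  -- main case
  set ν : Measure (Conf M) := (volume : Measure (Conf M)).restrict S with hν
  have hνfin : IsFiniteMeasure ν :=
    ⟨by rw [hν, Measure.restrict_apply_univ]; exact lt_top_iff_ne_top.2 hSfin⟩
  have hνV : ν.real univ = V := by
    rw [Measure.real, hν, Measure.restrict_apply_univ]
  have hae : ∀ᵐ x ∂ν, x ∈ cf Λ (Fin M ⊕ Fin M) := ae_mem_cf hΛ hSsub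
  -- choice of the maximizing pairs
  have hch : ∀ k : Fin M ⊕ Fin M → Fin n, ∃ ρ₁ ρ₂, IsMaxPair Λ (K g) ε ρ₁ ρ₂ ∧
      (NearMax Λ g ε q τ (empT (k ∘ Sum.inl)) (empT (k ∘ Sum.inr)) →
        (∀ α, |empT (k ∘ Sum.inl) α - mass Λ q ρ₁ α| < τ) ∧
        (∀ α, |empT (k ∘ Sum.inr) α - mass Λ q ρ₂ α| < τ)) := by
    intro k
    by_cases h : NearMax Λ g ε q τ (empT (k ∘ Sum.inl)) (empT (k ∘ Sum.inr))
    · obtain ⟨ρ₁, ρ₂, h1, h2, h3⟩ := h
      exact ⟨ρ₁, ρ₂, h1, fun _ => ⟨h2, h3⟩⟩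
    · exact ⟨ρ₁₀, ρ₂₀, hρ₀, fun h' => absurd h' h⟩
  choose R₁ R₂ hR hRnear using hch
  set Q : Conf M → (Fin M ⊕ Fin M → Fin n) := fun x i => q (x i) with hQdef
  have hQ : Measurable Q := measurable_pi_lambda _ fun i => hq.comp (measurable_pi_apply i)
  have hsum : ∑ k, ν.real (Q ⁻¹' {k}) = V := by
    have h1 := integral_color ν Q hQ (fun _ => 1)
    simp only [integral_const, smul_eq_mul, mul_one] at h1
    rw [← h1, hνV]
  -- the mixture
  set e := (Fintype.equivFin (Fin M ⊕ Fin M → Fin n)).symm with he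
  refine ⟨Fintype.card (Fin M ⊕ Fin M → Fin n), fun i => ν.real (Q ⁻¹' {e i}) / V,
    fun i => R₁ (e i), fun i => R₂ (e i), fun i => div_nonneg measureReal_nonneg hV0, ?_,
    fun i => hR _, fun l a b ha hb => ?_⟩
  · rw [Equiv.sum_comp e (fun k => ν.real (Q ⁻¹' {k}) / V), ← Finset.sum_div, hsum,
      div_self hVpos.ne']
  set G : (Fin M ⊕ Fin M → Fin n) → ℝ := fun k => prodInt Λ (f l) (R₁ k) (R₂ k) with hG
  have hsumG : V * ∑ i, ν.real (Q ⁻¹' {e i}) / V * prodInt Λ (f l) (R₁ (e i)) (R₂ (e i)) =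
      ∫ x, G (Q x) ∂ν := by
    rw [integral_color ν Q hQ G, Equiv.sum_comp e (fun k => ν.real (Q ⁻¹' {k}) / V * G k),
      Finset.mul_sum]
    refine Finset.sum_congr rfl fun k _ => ?_
    field_simp
  rw [hsumG]
  -- replacing the integral by the average
  have h1 := avg_close hΛ g M E δ (f l) (hf l) C (hfC l) hSfin hM0 a b ha hb
  rw [← hS, ← hν, ← hV] at h1
  -- the far set
  set B : Set (Conf M) := {x | ¬ NearMax Λ g ε q τ (empT ((Q x) ∘ Sum.inl))
    (empT ((Q x) ∘ Sum.inr))} with hB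
  have hBm : MeasurableSet B := by
    have : B = Q ⁻¹' {k | ¬ NearMax Λ g ε q τ (empT (k ∘ Sum.inl)) (empT (k ∘ Sum.inr))} := rfl
    rw [this]
    exact hQ (Set.toFinite _).measurableSet
  have hνB : ν.real B ≤ Real.exp (-(c * M)) * V := by
    have h2 : ν B ≤ ENNReal.ofReal (Real.exp (-(c * M))) * volume S := by
      rw [hν, Measure.restrict_apply hBm]
      refine le_trans (measure_mono ?_) hfar
      rintro x ⟨hx1, hx2⟩
      exact ⟨hx2, hx1⟩
    have h3 := ENNReal.toReal_mono (ENNReal.mul_ne_top ENNReal.ofReal_ne_top hSfin) h2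
    rw [ENNReal.toReal_mul, ENNReal.toReal_ofReal (Real.exp_pos _).le] at h3
    exact h3
  -- pointwise estimate
  set A : Conf M → ℝ := fun x =>
    (∑ s : Fin (p l) ⊕ Fin (r l) → Fin M, f l (pk s x)) / (M : ℝ) ^ (p l + r l) with hA
  have hGC : ∀ k, |G k| ≤ C := fun k =>
    (prodInt_approx hΛ q hq (f l) (hf l) C (hfC l) (F l) (κ / 8) (hFapp l) (R₁ k) (R₂ k)
      (hR k).1.1 (hR k).1.2.1).2
  have hAC : ∀ x ∈ cf Λ (Fin M ⊕ Fin M), |A x| ≤ C := by
    intro x hx
    have hMp : (0 : ℝ) < (M : ℝ) ^ (p l + r l) := by positivity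
    rw [hA]
    simp only
    rw [abs_div, abs_of_pos hMp, div_le_iff₀ hMp]
    calc |∑ s : Fin (p l) ⊕ Fin (r l) → Fin M, f l (pk s x)|
        ≤ ∑ s : Fin (p l) ⊕ Fin (r l) → Fin M, |f l (pk s x)| := Finset.abs_sum_le_sum_abs _ _
      _ ≤ ∑ s : Fin (p l) ⊕ Fin (r l) → Fin M, C :=
          Finset.sum_le_sum fun s _ => hfC l _ (pk_mem s hx)
      _ = C * (M : ℝ) ^ (p l + r l) := by
        rw [Finset.sum_const, nsmul_eq_mul, Finset.card_univ, Fintype.card_fun, Fintype.card_sum,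
          Fintype.card_fin, Fintype.card_fin, Fintype.card_fin]
        push_cast
        ring
  have hnear : ∀ x ∈ cf Λ (Fin M ⊕ Fin M), x ∉ B → |A x - G (Q x)| ≤ κ / 2 := by
    intro x hx hxB
    have hn : NearMax Λ g ε q τ (empT ((Q x) ∘ Sum.inl)) (empT ((Q x) ∘ Sum.inr)) := by
      by_contra h
      exact hxB h
    obtain ⟨hn1, hn2⟩ := hRnear (Q x) hn
    have h2 := pointwise_avg hM0 q (f l) (F l) (κ / 8) (hFapp l) x hx
    have h3 := (prodInt_approx hΛ q hq (f l) (hf l) C (hfC l) (F l) (κ / 8) (hFapp l)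
      (R₁ (Q x)) (R₂ (Q x)) (hR (Q x)).1.1 (hR (Q x)).1.2.1).1
    have h4 := cells_diff (p := p l) (r := r l) (F l) C τ (hFC l)
      (empT ((Q x) ∘ Sum.inl)) (empT ((Q x) ∘ Sum.inr))
      (mass Λ q (R₁ (Q x))) (mass Λ q (R₂ (Q x)))
      (fun α => by rw [abs_of_nonneg (empT_nonneg _ _)]; exact empT_le_one _ _)
      (fun α => by rw [abs_of_nonneg (empT_nonneg _ _)]; exact empT_le_one _ _)
      (fun α => by
        rw [abs_of_nonneg (mass_nonneg hΛ hq (hR (Q x)).1.1 _)]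
        exact mass_le_one hΛ (hR (Q x)).1.1 _)
      (fun α => by
        rw [abs_of_nonneg (mass_nonneg hΛ hq (hR (Q x)).1.2.1 _)]
        exact mass_le_one hΛ (hR (Q x)).1.2.1 _)
      (fun α => (hn1 α).le) (fun α => (hn2 α).le)
    have h5 := hτ l
    set X := ∑ c : Fin (p l) ⊕ Fin (r l) → Fin n, F l c *
      ((∏ i, empT ((Q x) ∘ Sum.inl) (c (Sum.inl i))) *
        ∏ i, empT ((Q x) ∘ Sum.inr) (c (Sum.inr i))) with hX
    set Y := ∑ c : Fin (p l) ⊕ Fin (r l) → Fin n, F l c *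
      ((∏ i, mass Λ q (R₁ (Q x)) (c (Sum.inl i))) *
        ∏ i, mass Λ q (R₂ (Q x)) (c (Sum.inr i))) with hY
    have h2' : |A x - X| ≤ κ / 8 := h2
    have h3' : |G (Q x) - Y| ≤ κ / 8 := h3
    rw [abs_le] at h2' h3' h4 ⊢
    constructor <;> linarith [h2'.1, h2'.2, h3'.1, h3'.2, h4.1, h4.2]
  -- integrability
  have hAint : Integrable A ν := by
    refine Integrable.of_bound ?_ C ?_
    · refine Continuous.aestronglyMeasurable ?_
      refine Continuous.div_const ?_ _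
      exact continuous_finsetSum _ fun s _ => (hf l).comp (continuous_pk s)
    · filter_upwards [hae] with x hx
      exact hAC x hx
  have hGint : Integrable (fun x => G (Q x)) ν := by
    refine Integrable.of_bound ?_ C ?_
    · exact ((measurable_of_countable G).comp hQ).aestronglyMeasurable
    · exact ae_of_all _ fun x => hGC _
  have hmain : |(∫ x, A x ∂ν) - ∫ x, G (Q x) ∂ν| ≤ κ / 2 * V + 2 * C * ν.real B := by
    rw [← integral_sub hAint hGint, ← Real.norm_eq_abs]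
    have hbd : Integrable (fun x => κ / 2 + B.indicator (fun _ => 2 * C) x) ν :=
      (integrable_const _).add ((integrable_const _).indicator hBm)
    calc ‖∫ x, (A x - G (Q x)) ∂ν‖ ≤ ∫ x, (κ / 2 + B.indicator (fun _ => 2 * C) x) ∂ν := by
          refine norm_integral_le_of_norm_le hbd ?_
          filter_upwards [hae] with x hx
          rw [Real.norm_eq_abs]
          by_cases hxB : x ∈ B
          · rw [Set.indicator_of_mem hxB]
            have := hAC x hx
            have := hGC (Q x)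
            have := abs_sub (A x) (G (Q x))
            linarith
          · rw [Set.indicator_of_notMem hxB, add_zero]
            exact hnear x hx hxB
      _ = κ / 2 * V + 2 * C * ν.real B := by
          rw [integral_add (integrable_const _) ((integrable_const _).indicator hBm),
            integral_const, integral_indicator hBm, setIntegral_const, hνV]
          simp only [smul_eq_mul]
          ring
  have hfr := mul_le_mul_of_nonneg_right (hfrac l).le hV0
  have hfa := mul_le_mul_of_nonneg_right hexp.le hV0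
  have h6 : 2 * C * ν.real B ≤ κ / 8 * V := by
    calc 2 * C * ν.real B ≤ 2 * C * (Real.exp (-(c * M)) * V) := by gcongr
      _ = 2 * C * Real.exp (-(c * M)) * V := by ring
      _ ≤ κ / 8 * V := hfa
  have h7 : |(∫ x, f l (pick a b x) ∂ν) - ∫ x, A x ∂ν| ≤ κ / 8 * V := h1.trans hfr
  have h8 : 0 ≤ κ * V := mul_nonneg hκ.le hV0
  calc |(∫ x, f l (pick a b x) ∂ν) - ∫ x, G (Q x) ∂ν|
      ≤ |(∫ x, f l (pick a b x) ∂ν) - ∫ x, A x ∂ν| + |(∫ x, A x ∂ν) - ∫ x, G (Q x) ∂ν| :=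
        abs_sub_le _ _ _
    _ ≤ κ / 8 * V + (κ / 2 * V + κ / 8 * V) := by linarith
    _ ≤ κ * V := by linarith

end Pool.Agent.H836_PV
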