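import Pool.Agent.H836_PV.StmtsB

/-!
# Task B3: compactness of mixtures
-/

open MeasureTheory Filter Topology Set Metric

namespace Pool.Agent.H836_PV

namespace B3

/-- probability density up to null sets -/
structure PD (Λ : Set ℂ) (a : ℂ → ℝ) : Prop where
  int : Integrable a (volume.restrict Λ)
  nn : 0 ≤ᵐ[volume.restrict Λ] a
  one : ∫ x in Λ, a x = 1

theorem PD.abs {Λ : Set ℂ} {a : ℂ → ℝ} (h : PD Λ a) : ∫ x in Λ, |a x| = 1 := by
  rw [← h.one]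
  refine integral_congr_ae ?_
  filter_upwards [h.nn] with x hx
  exact abs_of_nonneg hx

theorem restrict_cf (Λ : Set ℂ) (ι : Type) [Fintype ι] :
    (volume : Measure (ι → ℂ)).restrict (cf Λ ι) =
      Measure.pi fun _ : ι => (volume : Measure ℂ).restrict Λ := by
  have h : cf Λ ι = Set.univ.pi fun _ => Λ := by
    ext x; simp [cf]
  rw [h, volume_pi, Measure.restrict_pi_pi]

variable {Λ : Set ℂ} {ι : Type} [Fintype ι]

/-- integral of `f` against the product of the `a i` -/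
noncomputable def pI (Λ : Set ℂ) (f : (ι → ℂ) → ℝ) (a : ι → ℂ → ℝ) : ℝ :=
  ∫ y, f y * ∏ i, a i (y i) ∂(Measure.pi fun _ : ι => (volume : Measure ℂ).restrict Λ)

theorem prodInt_eq {p r : ℕ} (f : (Fin p ⊕ Fin r → ℂ) → ℝ) (ρ₁ ρ₂ : ℂ → ℝ) :
    prodInt Λ f ρ₁ ρ₂ = pI Λ f (Sum.elim (fun _ => ρ₁) (fun _ => ρ₂)) := by
  unfold prodInt pI
  rw [restrict_cf]
  congr 1
  ext y
  rw [Fintype.prod_sum_type, mul_assoc]
  rfl

theorem prod_integrable {a : ι → ℂ → ℝ} (ha : ∀ i, PD Λ (a i)) :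
    Integrable (fun y : ι → ℂ => ∏ i, a i (y i))
      (Measure.pi fun _ : ι => (volume : Measure ℂ).restrict Λ) :=
  Integrable.fintype_prod (f := a) fun i => (ha i).int

theorem prod_abs {a : ι → ℂ → ℝ} (ha : ∀ i, PD Λ (a i)) :
    ∫ y : ι → ℂ, |∏ i, a i (y i)|
      ∂(Measure.pi fun _ : ι => (volume : Measure ℂ).restrict Λ) = 1 := by
  simp_rw [Finset.abs_prod]
  have h1 := integral_fintype_prod_eq_prod (𝕜 := ℝ) (fun (i : ι) (z : ℂ) => |a i z|)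
    (μ := fun _ : ι => (volume : Measure ℂ).restrict Λ)
  rw [h1]
  exact Finset.prod_eq_one fun i _ => (ha i).abs

theorem hybrid {a b : ι → ℂ → ℝ} (ha : ∀ i, PD Λ (a i)) (hb : ∀ i, PD Λ (b i)) [DecidableEq ι]
    (s : Finset ι) :
    ∫ y : ι → ℂ, |∏ i, (s.piecewise a b) i (y i) - ∏ i, b i (y i)|
      ∂(Measure.pi fun _ : ι => (volume : Measure ℂ).restrict Λ) ≤
      ∑ i ∈ s, ∫ x in Λ, |a i x - b i x| := by
  have hpd : ∀ (s : Finset ι) (i : ι), PD Λ ((s.piecewise a b) i) := by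
    intro s i
    by_cases h : i ∈ s
    · rw [Finset.piecewise_eq_of_mem _ _ _ h]; exact ha i
    · rw [Finset.piecewise_eq_of_notMem _ _ _ h]; exact hb i
  induction s using Finset.induction_on with
  | empty => simp
  | insert i s hi ih =>
    rw [Finset.sum_insert hi]
    have e1 := prod_integrable (hpd (insert i s))
    have e2 := prod_integrable (hpd s)
    have e3 := prod_integrable hb
    have h1 : ∫ y : ι → ℂ, |∏ j, ((insert i s).piecewise a b) j (y j) -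
        ∏ j, (s.piecewise a b) j (y j)|
        ∂(Measure.pi fun _ : ι => (volume : Measure ℂ).restrict Λ) = ∫ x in Λ, |a i x - b i x| := by
      have h2 : ∀ y : ι → ℂ, |∏ j, ((insert i s).piecewise a b) j (y j) -
          ∏ j, (s.piecewise a b) j (y j)| =
          ∏ j, (Function.update (fun j z => |(s.piecewise a b) j z|) i
            (fun z => |a i z - b i z|)) j (y j) := by
        intro y
        rw [← Finset.mul_prod_erase Finset.univ _ (Finset.mem_univ i),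
          ← Finset.mul_prod_erase Finset.univ (fun j => (s.piecewise a b) j (y j))
            (Finset.mem_univ i),
          ← Finset.mul_prod_erase Finset.univ (fun j => (Function.update
            (fun j z => |(s.piecewise a b) j z|) i (fun z => |a i z - b i z|)) j (y j))
            (Finset.mem_univ i)]
        have h3 : ∏ j ∈ Finset.univ.erase i, ((insert i s).piecewise a b) j (y j) =
            ∏ j ∈ Finset.univ.erase i, (s.piecewise a b) j (y j) := by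
          refine Finset.prod_congr rfl fun j hj => ?_
          have hji : j ≠ i := Finset.ne_of_mem_erase hj
          by_cases hjs : j ∈ s
          · rw [Finset.piecewise_eq_of_mem _ _ _ hjs,
              Finset.piecewise_eq_of_mem _ _ _ (Finset.mem_insert_of_mem hjs)]
          · rw [Finset.piecewise_eq_of_notMem _ _ _ hjs,
              Finset.piecewise_eq_of_notMem _ _ _ (by simp [hji, hjs])]
        have h4 : ∏ j ∈ Finset.univ.erase i, (Function.update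
            (fun j z => |(s.piecewise a b) j z|) i (fun z => |a i z - b i z|)) j (y j) =
            |∏ j ∈ Finset.univ.erase i, (s.piecewise a b) j (y j)| := by
          rw [Finset.abs_prod]
          refine Finset.prod_congr rfl fun j hj => ?_
          have hji : j ≠ i := Finset.ne_of_mem_erase hj
          rw [Function.update_of_ne hji]
        rw [h3, h4, Function.update_self,
          Finset.piecewise_eq_of_mem _ _ _ (Finset.mem_insert_self i s),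
          Finset.piecewise_eq_of_notMem _ _ _ hi, ← abs_mul, sub_mul]
      simp_rw [h2]
      have h5 := integral_fintype_prod_eq_prod (𝕜 := ℝ)
        (Function.update (fun j z => |(s.piecewise a b) j z|) i (fun z => |a i z - b i z|))
        (μ := fun _ : ι => (volume : Measure ℂ).restrict Λ)
      rw [h5, ← Finset.mul_prod_erase Finset.univ _ (Finset.mem_univ i), Function.update_self]
      rw [Finset.prod_eq_one, mul_one]
      intro j hj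
      have hji : j ≠ i := Finset.ne_of_mem_erase hj
      rw [Function.update_of_ne hji]
      exact (hpd s j).abs
    have h6 : ∫ y : ι → ℂ, |∏ j, ((insert i s).piecewise a b) j (y j) - ∏ j, b j (y j)|
        ∂(Measure.pi fun _ : ι => (volume : Measure ℂ).restrict Λ) ≤
        ∫ y : ι → ℂ, (|∏ j, ((insert i s).piecewise a b) j (y j) -
          ∏ j, (s.piecewise a b) j (y j)| +
          |∏ j, (s.piecewise a b) j (y j) - ∏ j, b j (y j)|)
        ∂(Measure.pi fun _ : ι => (volume : Measure ℂ).restrict Λ) := by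
      refine integral_mono (e1.sub e3).abs ((e1.sub e2).abs.add (e2.sub e3).abs) fun y => ?_
      exact abs_sub_le _ _ _
    have h7 := integral_add (e1.sub e2).abs (e2.sub e3).abs
    simp only [Pi.sub_apply] at h7
    rw [h7, h1] at h6
    linarith

theorem prod_sub_le {a b : ι → ℂ → ℝ} (ha : ∀ i, PD Λ (a i)) (hb : ∀ i, PD Λ (b i)) :
    ∫ y : ι → ℂ, |∏ i, a i (y i) - ∏ i, b i (y i)|
      ∂(Measure.pi fun _ : ι => (volume : Measure ℂ).restrict Λ) ≤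
      ∑ i, ∫ x in Λ, |a i x - b i x| := by
  classical
  have h := hybrid ha hb Finset.univ
  simpa using h

/-- bounded continuous functions -/
structure BC (Λ : Set ℂ) (f : (ι → ℂ) → ℝ) (C : ℝ) : Prop where
  cont : ContinuousOn f (cf Λ ι)
  le : ∀ y ∈ cf Λ ι, |f y| ≤ C

theorem isOpen_cf (hΛ : IsOpen Λ) : IsOpen (cf Λ ι) := by
  have h : cf Λ ι = Set.univ.pi fun _ => Λ := by
    ext x; simp [cf]
  rw [h]
  exact isOpen_set_pi Set.finite_univ fun _ _ => hΛ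

theorem BC.aesm (hΛ : IsOpen Λ) {f : (ι → ℂ) → ℝ} {C : ℝ} (hf : BC Λ f C) :
    AEStronglyMeasurable f (Measure.pi fun _ : ι => (volume : Measure ℂ).restrict Λ) := by
  rw [← restrict_cf]
  exact hf.cont.aestronglyMeasurable (isOpen_cf hΛ).measurableSet

theorem BC.ae_le (hΛ : IsOpen Λ) {f : (ι → ℂ) → ℝ} {C : ℝ} (hf : BC Λ f C) :
    ∀ᵐ y ∂(Measure.pi fun _ : ι => (volume : Measure ℂ).restrict Λ), ‖f y‖ ≤ C := by
  rw [← restrict_cf]
  exact (ae_restrict_iff' (isOpen_cf hΛ).measurableSet).2 (ae_of_all _ hf.le)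

theorem BC.integrable (hΛ : IsOpen Λ) {f : (ι → ℂ) → ℝ} {C : ℝ} (hf : BC Λ f C)
    {a : ι → ℂ → ℝ} (ha : ∀ i, PD Λ (a i)) :
    Integrable (fun y : ι → ℂ => f y * ∏ i, a i (y i))
      (Measure.pi fun _ : ι => (volume : Measure ℂ).restrict Λ) :=
  (prod_integrable ha).bdd_mul (hf.aesm hΛ) (hf.ae_le hΛ)

theorem pI_sub_le (hΛ : IsOpen Λ) {f : (ι → ℂ) → ℝ} {C : ℝ} (hC : 0 ≤ C) (hf : BC Λ f C)
    {a b : ι → ℂ → ℝ} (ha : ∀ i, PD Λ (a i)) (hb : ∀ i, PD Λ (b i)) :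
    |pI Λ f a - pI Λ f b| ≤ C * ∑ i, ∫ x in Λ, |a i x - b i x| := by
  unfold pI
  rw [← integral_sub (hf.integrable hΛ ha) (hf.integrable hΛ hb)]
  have h1 : ∀ y : ι → ℂ, f y * ∏ i, a i (y i) - f y * ∏ i, b i (y i) =
      f y * (∏ i, a i (y i) - ∏ i, b i (y i)) := fun y => by ring
  simp_rw [h1]
  have hab := (prod_integrable ha).sub (prod_integrable hb)
  calc |∫ y : ι → ℂ, f y * (∏ i, a i (y i) - ∏ i, b i (y i))
        ∂(Measure.pi fun _ : ι => (volume : Measure ℂ).restrict Λ)|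
      ≤ ∫ y : ι → ℂ, |f y * (∏ i, a i (y i) - ∏ i, b i (y i))|
        ∂(Measure.pi fun _ : ι => (volume : Measure ℂ).restrict Λ) := abs_integral_le_integral_abs
    _ ≤ ∫ y : ι → ℂ, C * |∏ i, a i (y i) - ∏ i, b i (y i)|
        ∂(Measure.pi fun _ : ι => (volume : Measure ℂ).restrict Λ) := by
        refine integral_mono_ae ?_ (hab.abs.const_mul C) ?_
        · exact (hab.bdd_mul (hf.aesm hΛ) (hf.ae_le hΛ)).abs
        · filter_upwards [hf.ae_le hΛ] with y hy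
          rw [abs_mul]
          exact mul_le_mul_of_nonneg_right hy (abs_nonneg _)
    _ = C * ∫ y : ι → ℂ, |∏ i, a i (y i) - ∏ i, b i (y i)|
        ∂(Measure.pi fun _ : ι => (volume : Measure ℂ).restrict Λ) := integral_const_mul _ _
    _ ≤ _ := mul_le_mul_of_nonneg_left (prod_sub_le ha hb) hC

theorem pI_abs_le (hΛ : IsOpen Λ) {f : (ι → ℂ) → ℝ} {C : ℝ} (hf : BC Λ f C)
    {a : ι → ℂ → ℝ} (ha : ∀ i, PD Λ (a i)) : |pI Λ f a| ≤ C := by
  unfold pI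
  calc |∫ y : ι → ℂ, f y * ∏ i, a i (y i)
        ∂(Measure.pi fun _ : ι => (volume : Measure ℂ).restrict Λ)|
      ≤ ∫ y : ι → ℂ, |f y * ∏ i, a i (y i)|
        ∂(Measure.pi fun _ : ι => (volume : Measure ℂ).restrict Λ) := abs_integral_le_integral_abs
    _ ≤ ∫ y : ι → ℂ, C * |∏ i, a i (y i)|
        ∂(Measure.pi fun _ : ι => (volume : Measure ℂ).restrict Λ) := by
        refine integral_mono_ae (hf.integrable hΛ ha).abs ((prod_integrable ha).abs.const_mul C) ?_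
        filter_upwards [hf.ae_le hΛ] with y hy
        rw [abs_mul]
        exact mul_le_mul_of_nonneg_right hy (abs_nonneg _)
    _ = C * ∫ y : ι → ℂ, |∏ i, a i (y i)|
        ∂(Measure.pi fun _ : ι => (volume : Measure ℂ).restrict Λ) := integral_const_mul _ _
    _ = C := by rw [prod_abs ha, mul_one]

theorem pI_mono (hΛ : IsOpen Λ) {f₁ f₂ : (ι → ℂ) → ℝ} {C₁ C₂ : ℝ} (hf₁ : BC Λ f₁ C₁)
    (hf₂ : BC Λ f₂ C₂) {a : ι → ℂ → ℝ} (ha : ∀ i, PD Λ (a i)) (h : ∀ y ∈ cf Λ ι, f₁ y ≤ f₂ y) :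
    pI Λ f₁ a ≤ pI Λ f₂ a := by
  unfold pI
  refine integral_mono_ae (hf₁.integrable hΛ ha) (hf₂.integrable hΛ ha) ?_
  have h1 : ∀ᵐ y ∂(Measure.pi fun _ : ι => (volume : Measure ℂ).restrict Λ), f₁ y ≤ f₂ y := by
    rw [← restrict_cf]
    exact (ae_restrict_iff' (isOpen_cf hΛ).measurableSet).2 (ae_of_all _ h)
  have h2 : ∀ᵐ y ∂(Measure.pi fun _ : ι => (volume : Measure ℂ).restrict Λ),
      ∀ i, 0 ≤ a i (y i) := by
    rw [ae_all_iff]
    intro i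
    exact (Measure.quasiMeasurePreserving_eval (μ := fun _ : ι => (volume : Measure ℂ).restrict Λ)
      i).ae (ha i).nn
  filter_upwards [h1, h2] with y hy1 hy2
  exact mul_le_mul_of_nonneg_right hy1 (Finset.prod_nonneg fun i _ => hy2 i)

theorem pI_add (hΛ : IsOpen Λ) {f₁ f₂ : (ι → ℂ) → ℝ} {C₁ C₂ : ℝ} (hf₁ : BC Λ f₁ C₁)
    (hf₂ : BC Λ f₂ C₂) {a : ι → ℂ → ℝ} (ha : ∀ i, PD Λ (a i)) :
    pI Λ (fun y => f₁ y + f₂ y) a = pI Λ f₁ a + pI Λ f₂ a := by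
  unfold pI
  rw [← integral_add (hf₁.integrable hΛ ha) (hf₂.integrable hΛ ha)]
  congr 1
  ext y
  ring

theorem pI_const {a : ι → ℂ → ℝ} (ha : ∀ i, PD Λ (a i)) (c : ℝ) :
    pI Λ (fun _ => c) a = c := by
  unfold pI
  rw [integral_const_mul]
  have h1 := integral_fintype_prod_eq_prod (𝕜 := ℝ) a
    (μ := fun _ : ι => (volume : Measure ℂ).restrict Λ)
  rw [h1, Finset.prod_eq_one fun i _ => (ha i).one, mul_one]

theorem pI_smul (c : ℝ) (f : (ι → ℂ) → ℝ) (a : ι → ℂ → ℝ) :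
    pI Λ (fun y => c * f y) a = c * pI Λ f a := by
  unfold pI
  rw [← integral_const_mul]
  congr 1
  ext y
  ring

end B3

end Pool.Agent.H836_PV

namespace Pool.Agent.H836_PV

namespace B3

variable {Λ : Set ℂ} {G : ℂ → ℂ → ℝ} {ε : ℝ}

theorem pd_of_dens (hΛ : IsOpen Λ) {ρ : ℂ → ℝ} (h : IsDens Λ ρ) : PD Λ ρ :=
  ⟨h.integrable, (ae_restrict_iff' hΛ.measurableSet).2 (ae_of_all _ h.nonneg), h.integral⟩

theorem dist_L1 {μ : Measure ℂ} {f g : Lp ℝ 1 μ} {a b : ℂ → ℝ} (hf : f =ᵐ[μ] a) (hg : g =ᵐ[μ] b) :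
    dist f g = ∫ x, |a x - b x| ∂μ := by
  rw [dist_eq_norm, L1.norm_eq_integral_norm]
  refine integral_congr_ae ?_
  filter_upwards [Lp.coeFn_sub f g, hf, hg] with x h1 h2 h3
  rw [h1, Pi.sub_apply, h2, h3, Real.norm_eq_abs]

variable (Λ G ε) in
/-- the set of maximizing pairs in `L¹` -/
def SS : Set (Lp ℝ 1 (volume.restrict Λ) × Lp ℝ 1 (volume.restrict Λ)) :=
  {z | ∃ ρ₁ ρ₂, IsMaxPair Λ G ε ρ₁ ρ₂ ∧ z.1 =ᵐ[volume.restrict Λ] ρ₁ ∧
    z.2 =ᵐ[volume.restrict Λ] ρ₂}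

/-- the compactness hypothesis -/
def Comp (Λ : Set ℂ) (G : ℂ → ℂ → ℝ) (ε : ℝ) : Prop :=
  ∀ (ρ₁ ρ₂ : ℕ → ℂ → ℝ), (∀ n, IsMaxPair Λ G ε (ρ₁ n) (ρ₂ n)) →
    ∃ φ : ℕ → ℕ, StrictMono φ ∧ ∃ σ₁ σ₂, IsMaxPair Λ G ε σ₁ σ₂ ∧
      Tendsto (fun n => ∫ x in Λ, |ρ₁ (φ n) x - σ₁ x|) atTop (𝓝 0) ∧
      Tendsto (fun n => ∫ x in Λ, |ρ₂ (φ n) x - σ₂ x|) atTop (𝓝 0)

theorem exists_mem {ρ₁ ρ₂ : ℂ → ℝ} (h : IsMaxPair Λ G ε ρ₁ ρ₂) :
    ∃ z ∈ SS Λ G ε, z.1 =ᵐ[volume.restrict Λ] ρ₁ ∧ z.2 =ᵐ[volume.restrict Λ] ρ₂ := by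
  have i1 : Integrable ρ₁ (volume.restrict Λ) := h.1.1.integrable
  have i2 : Integrable ρ₂ (volume.restrict Λ) := h.1.2.1.integrable
  exact ⟨(i1.toL1 ρ₁, i2.toL1 ρ₂), ⟨ρ₁, ρ₂, h, i1.coeFn_toL1, i2.coeFn_toL1⟩, i1.coeFn_toL1,
    i2.coeFn_toL1⟩

theorem compact_SS (hcomp : Comp Λ G ε) : IsCompact (SS Λ G ε) := by
  apply IsSeqCompact.isCompact
  intro u hu
  choose ρ₁ ρ₂ hmax h1 h2 using hu
  obtain ⟨φ, hφ, σ₁, σ₂, hσ, t1, t2⟩ := hcomp ρ₁ ρ₂ hmax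
  obtain ⟨z, hz, hz1, hz2⟩ := exists_mem hσ
  refine ⟨z, hz, φ, hφ, ?_⟩
  rw [tendsto_iff_dist_tendsto_zero]
  have e : ∀ n, dist ((u ∘ φ) n) z = max (∫ x in Λ, |ρ₁ (φ n) x - σ₁ x|)
      (∫ x in Λ, |ρ₂ (φ n) x - σ₂ x|) := by
    intro n
    rw [Prod.dist_eq, Function.comp_apply, dist_L1 (h1 (φ n)) hz1, dist_L1 (h2 (φ n)) hz2]
  simp_rw [e]
  have := t1.max t2
  rwa [max_self] at this

/-- the chosen representatives -/
noncomputable def r₁ (z : SS Λ G ε) : ℂ → ℝ := z.2.choose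

/-- the chosen representatives -/
noncomputable def r₂ (z : SS Λ G ε) : ℂ → ℝ := z.2.choose_spec.choose

theorem r_spec (z : SS Λ G ε) : IsMaxPair Λ G ε (r₁ z) (r₂ z) ∧
    z.1.1 =ᵐ[volume.restrict Λ] r₁ z ∧ z.1.2 =ᵐ[volume.restrict Λ] r₂ z :=
  z.2.choose_spec.choose_spec

theorem pd_sum {p r : ℕ} (hΛ : IsOpen Λ) {ρ₁ ρ₂ : ℂ → ℝ} (h : IsMaxPair Λ G ε ρ₁ ρ₂) :
    ∀ i, PD Λ (Sum.elim (fun _ : Fin p => ρ₁) (fun _ : Fin r => ρ₂) i) := by
  rintro (i | i)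
  · exact pd_of_dens hΛ h.1.1
  · exact pd_of_dens hΛ h.1.2.1

theorem prodInt_sub_le (hΛ : IsOpen Λ) {p r : ℕ} {f : (Fin p ⊕ Fin r → ℂ) → ℝ} {C : ℝ}
    (hC : 0 ≤ C) (hf : BC Λ f C) {ρ₁ ρ₂ σ₁ σ₂ : ℂ → ℝ} (h : IsMaxPair Λ G ε ρ₁ ρ₂)
    (h' : IsMaxPair Λ G ε σ₁ σ₂) :
    |prodInt Λ f ρ₁ ρ₂ - prodInt Λ f σ₁ σ₂| ≤
      C * (p * ∫ x in Λ, |ρ₁ x - σ₁ x|) + C * (r * ∫ x in Λ, |ρ₂ x - σ₂ x|) := by
  rw [prodInt_eq, prodInt_eq]
  refine (pI_sub_le hΛ hC hf (pd_sum hΛ h) (pd_sum hΛ h')).trans_eq ?_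
  rw [Fintype.sum_sum_type]
  simp
  ring

theorem prodInt_congr (hΛ : IsOpen Λ) {p r : ℕ} {f : (Fin p ⊕ Fin r → ℂ) → ℝ} {C : ℝ}
    (hC : 0 ≤ C) (hf : BC Λ f C) {ρ₁ ρ₂ σ₁ σ₂ : ℂ → ℝ} (h : IsMaxPair Λ G ε ρ₁ ρ₂)
    (h' : IsMaxPair Λ G ε σ₁ σ₂) (e1 : ρ₁ =ᵐ[volume.restrict Λ] σ₁)
    (e2 : ρ₂ =ᵐ[volume.restrict Λ] σ₂) :
    prodInt Λ f ρ₁ ρ₂ = prodInt Λ f σ₁ σ₂ := by
  have h1 := prodInt_sub_le hΛ hC hf h h'
  have h2 : ∫ x in Λ, |ρ₁ x - σ₁ x| = 0 := by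
    rw [integral_congr_ae (g := fun _ => 0)]
    · simp
    · filter_upwards [e1] with x hx
      rw [hx, sub_self, abs_zero]
  have h3 : ∫ x in Λ, |ρ₂ x - σ₂ x| = 0 := by
    rw [integral_congr_ae (g := fun _ => 0)]
    · simp
    · filter_upwards [e2] with x hx
      rw [hx, sub_self, abs_zero]
  rw [h2, h3] at h1
  simp only [mul_zero, add_zero] at h1
  exact sub_eq_zero.1 (abs_eq_zero.1 (le_antisymm h1 (abs_nonneg _)))

/-- the function on the space of maximizing pairs -/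
noncomputable def PF {p r : ℕ} (f : (Fin p ⊕ Fin r → ℂ) → ℝ) (z : SS Λ G ε) : ℝ :=
  prodInt Λ f (r₁ z) (r₂ z)

theorem continuous_PF (hΛ : IsOpen Λ) {p r : ℕ} {f : (Fin p ⊕ Fin r → ℂ) → ℝ} {C : ℝ}
    (hC : 0 ≤ C) (hf : BC Λ f C) : Continuous (PF f : SS Λ G ε → ℝ) := by
  have hL : LipschitzWith (Real.toNNReal (C * (p + r))) (PF f : SS Λ G ε → ℝ) := by
    refine LipschitzWith.of_dist_le_mul fun z w => ?_
    rw [Real.dist_eq, Real.coe_toNNReal _ (by positivity)]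
    obtain ⟨m1, a1, b1⟩ := r_spec z
    obtain ⟨m2, a2, b2⟩ := r_spec w
    have h1 := prodInt_sub_le hΛ hC hf m1 m2
    rw [← dist_L1 a1 a2, ← dist_L1 b1 b2] at h1
    have h2 : dist z.1.1 w.1.1 ≤ dist z w := by
      rw [Subtype.dist_eq, Prod.dist_eq]; exact le_max_left _ _
    have h3 : dist z.1.2 w.1.2 ≤ dist z w := by
      rw [Subtype.dist_eq, Prod.dist_eq]; exact le_max_right _ _
    unfold PF
    calc _ ≤ C * (p * dist z.1.1 w.1.1) + C * (r * dist z.1.2 w.1.2) := h1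
      _ ≤ C * (p * dist z w) + C * (r * dist z w) := by gcongr
      _ = _ := by ring
  exact hL.continuous

theorem abs_PF_le (hΛ : IsOpen Λ) {p r : ℕ} {f : (Fin p ⊕ Fin r → ℂ) → ℝ} {C : ℝ}
    (hf : BC Λ f C) (z : SS Λ G ε) : |PF f z| ≤ C := by
  unfold PF
  rw [prodInt_eq]
  exact pI_abs_le hΛ hf (pd_sum hΛ (r_spec z).1)

noncomputable instance : MeasurableSpace (SS Λ G ε) := borel _

instance : BorelSpace (SS Λ G ε) := ⟨rfl⟩

theorem mix (hΛ : IsOpen Λ) {n : ℕ} {w : Fin n → ℝ} {ρ₁ ρ₂ : Fin n → ℂ → ℝ} (hw : ∀ i, 0 ≤ w i)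
    (hw1 : ∑ i, w i = 1) (h : ∀ i, IsMaxPair Λ G ε (ρ₁ i) (ρ₂ i)) :
    ∃ Θ : ProbabilityMeasure (SS Λ G ε), ∀ (p r : ℕ) (f : (Fin p ⊕ Fin r → ℂ) → ℝ) (C : ℝ),
      0 ≤ C → BC Λ f C →
      ∫ z, PF f z ∂(Θ : Measure (SS Λ G ε)) = ∑ i, w i * prodInt Λ f (ρ₁ i) (ρ₂ i) := by
  choose z hz hz1 hz2 using fun i => exists_mem (h i)
  let y : Fin n → SS Λ G ε := fun i => ⟨z i, hz i⟩
  let μ : Measure (SS Λ G ε) := ∑ i, ENNReal.ofReal (w i) • Measure.dirac (y i)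
  have hμ : IsProbabilityMeasure μ := by
    constructor
    simp only [μ, Measure.coe_finsetSum, Finset.sum_apply, Measure.smul_apply, measure_univ,
      smul_eq_mul, mul_one]
    rw [← ENNReal.ofReal_sum_of_nonneg fun i _ => hw i, hw1, ENNReal.ofReal_one]
  refine ⟨⟨μ, hμ⟩, fun p r f C hC hf => ?_⟩
  change ∫ z, PF f z ∂μ = _
  rw [integral_finsetSum_measure]
  · refine Finset.sum_congr rfl fun i _ => ?_
    rw [integral_smul_measure, integral_dirac, ENNReal.toReal_ofReal (hw i), smul_eq_mul]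
    congr 1
    obtain ⟨m1, a1, b1⟩ := r_spec (y i)
    exact prodInt_congr hΛ hC hf m1 (h i) (a1.symm.trans (hz1 i)) (b1.symm.trans (hz2 i))
  · intro i _
    refine Integrable.smul_measure ?_ ENNReal.ofReal_ne_top
    exact integrable_dirac (by simp)

end B3

end Pool.Agent.H836_PV

namespace Pool.Agent.H836_PV

namespace B3

set_option linter.unusedSectionVars false

variable {Λ : Set ℂ} {ι : Type} [Fintype ι]

/-- positive normalised linear functionals on bounded continuous functions -/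
structure Pos (Λ : Set ℂ) (F : ((ι → ℂ) → ℝ) → ℝ) : Prop where
  lin : ∀ f₁ f₂ : (ι → ℂ) → ℝ, ContinuousOn f₁ (cf Λ _) →
    ContinuousOn f₂ (cf Λ _) → (∃ C, ∀ y ∈ cf Λ _, |f₁ y| ≤ C) → (∃ C, ∀ y ∈ cf Λ _, |f₂ y| ≤ C) →
    F (f₁ + f₂) = F f₁ + F f₂ ∧ (∀ c : ℝ, F (c • f₁) = c * F f₁) ∧
    ((∀ y ∈ cf Λ _, f₁ y ≤ f₂ y) → F f₁ ≤ F f₂)
  one : F (fun _ => 1) = 1

theorem BC.add {f h : (ι → ℂ) → ℝ} {C C' : ℝ} (hf : BC Λ f C) (hh : BC Λ h C') :
    BC Λ (f + h) (C + C') :=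
  ⟨hf.cont.add hh.cont, fun y hy => (abs_add_le _ _).trans (add_le_add (hf.le y hy) (hh.le y hy))⟩

theorem BC.smul {f : (ι → ℂ) → ℝ} {C : ℝ} (c : ℝ) (hf : BC Λ f C) : BC Λ (c • f) (|c| * C) :=
  ⟨hf.cont.const_smul c, fun y hy => by
    rw [Pi.smul_apply, smul_eq_mul, abs_mul]
    exact mul_le_mul_of_nonneg_left (hf.le y hy) (abs_nonneg _)⟩

theorem BC.one : BC Λ (fun _ : ι → ℂ => (1 : ℝ)) 1 :=
  ⟨continuousOn_const, fun y _ => by simp⟩

theorem Pos.le_add {F : ((ι → ℂ) → ℝ) → ℝ} (hF : Pos Λ F) {f h : (ι → ℂ) → ℝ} {C C' δ : ℝ}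
    (hf : BC Λ f C) (hh : BC Λ h C') (hle : ∀ y ∈ cf Λ ι, f y ≤ h y + δ) : F f ≤ F h + δ := by
  have h1 : BC Λ (δ • (fun _ : ι → ℂ => (1 : ℝ))) (|δ| * 1) := BC.one.smul δ
  have h2 := (hF.lin h (δ • (fun _ : ι → ℂ => (1 : ℝ))) hh.cont h1.cont ⟨_, hh.le⟩ ⟨_, h1.le⟩).1
  have h3 := (hF.lin (fun _ : ι → ℂ => (1 : ℝ)) h BC.one.cont hh.cont ⟨_, BC.one.le⟩
    ⟨_, hh.le⟩).2.1 δ
  have h4 := hh.add h1
  have h5 := (hF.lin f (h + δ • (fun _ : ι → ℂ => (1 : ℝ))) hf.cont h4.cont ⟨_, hf.le⟩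
    ⟨_, h4.le⟩).2.2 (fun y hy => by simpa using hle y hy)
  rw [h2, h3, hF.one, mul_one] at h5
  exact h5

theorem Pos.abs_sub_le {F : ((ι → ℂ) → ℝ) → ℝ} (hF : Pos Λ F) {f h : (ι → ℂ) → ℝ} {C C' δ : ℝ}
    (hf : BC Λ f C) (hh : BC Λ h C') (hle : ∀ y ∈ cf Λ ι, |f y - h y| ≤ δ) :
    |F f - F h| ≤ δ := by
  rw [abs_sub_le_iff]
  have h1 := hF.le_add hf hh (δ := δ) fun y hy => by
    have := (abs_le.1 (hle y hy)).2; linarith
  have h2 := hF.le_add hh hf (δ := δ) fun y hy => by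
    have := (abs_le.1 (hle y hy)).1; linarith
  constructor <;> linarith

theorem BC.mul {f χ : (ι → ℂ) → ℝ} {C : ℝ} (hf : BC Λ f C) (hχ : BC Λ χ 1) :
    BC Λ (fun y => f y * χ y) C :=
  ⟨hf.cont.mul hχ.cont, fun y hy => by
    rw [abs_mul]
    have h1 := hf.le y hy
    have h2 := hχ.le y hy
    have h3 := abs_nonneg (f y)
    have h4 := abs_nonneg (χ y)
    nlinarith⟩

theorem Pos.cut {F : ((ι → ℂ) → ℝ) → ℝ} (hF : Pos Λ F) {f χ : (ι → ℂ) → ℝ} {C : ℝ}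
    (hf : BC Λ f C) (hχ : BC Λ χ 1) (h1 : ∀ y, χ y ≤ 1) :
    |F f - F (fun y => f y * χ y)| ≤ C * (1 - F χ) := by
  have hm := hf.mul hχ
  have hs : BC Λ ((-C) • χ) (|(-C)| * 1) := hχ.smul (-C)
  have e1 := (hF.lin (fun y => f y * χ y) ((-C) • χ) hm.cont hs.cont ⟨_, hm.le⟩ ⟨_, hs.le⟩).1
  have e2 := (hF.lin χ χ hχ.cont hχ.cont ⟨_, hχ.le⟩ ⟨_, hχ.le⟩).2.1 (-C)
  have e3 := (hF.lin f ((-C) • χ) hf.cont hs.cont ⟨_, hf.le⟩ ⟨_, hs.le⟩).1
  have a1 := hF.le_add hf (hm.add hs) (δ := C) fun y hy => by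
    have g1 := (abs_le.1 (hf.le y hy)).2
    have g2 := h1 y
    simp only [Pi.add_apply, Pi.smul_apply, smul_eq_mul]
    nlinarith
  have a2 := hF.le_add hm (hf.add hs) (δ := C) fun y hy => by
    have g1 := (abs_le.1 (hf.le y hy)).1
    have g2 := h1 y
    simp only [Pi.add_apply, Pi.smul_apply, smul_eq_mul]
    nlinarith
  rw [e1, e2] at a1
  rw [e3, e2] at a2
  rw [abs_sub_le_iff]
  constructor <;> linarith

/-- cutoff functions -/
noncomputable def chi (Λ : Set ℂ) (n : ℕ) (y : ι → ℂ) : ℝ := min 1 (n * infDist y (cf Λ ι)ᶜ)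

theorem chi_nonneg (n : ℕ) (y : ι → ℂ) : 0 ≤ chi Λ n y :=
  le_min zero_le_one (mul_nonneg (Nat.cast_nonneg n) infDist_nonneg)

theorem chi_le (n : ℕ) (y : ι → ℂ) : chi Λ n y ≤ 1 := min_le_left _ _

theorem continuous_chi (n : ℕ) : Continuous (chi Λ n : (ι → ℂ) → ℝ) :=
  continuous_const.min (continuous_const.mul (continuous_infDist_pt _))

theorem bc_chi (n : ℕ) : BC Λ (chi Λ n : (ι → ℂ) → ℝ) 1 :=
  ⟨(continuous_chi n).continuousOn, fun y _ => by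
    rw [abs_of_nonneg (chi_nonneg n y)]; exact chi_le n y⟩

theorem chi_zero {n : ℕ} {y : ι → ℂ} (hy : y ∉ cf Λ ι) : chi Λ n y = 0 := by
  unfold chi
  rw [infDist_zero_of_mem (show y ∈ (cf Λ ι)ᶜ from hy)]
  simp

theorem tendsto_chi (hΛ : IsOpen Λ) (hne : ((cf Λ ι)ᶜ).Nonempty) {y : ι → ℂ} (hy : y ∈ cf Λ ι) :
    Tendsto (fun n => chi Λ n y) atTop (𝓝 1) := by
  have h1 : 0 < infDist y (cf Λ ι)ᶜ :=
    ((isOpen_cf hΛ).isClosed_compl.notMem_iff_infDist_pos hne).1 (by simpa using hy)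
  obtain ⟨N, hN⟩ := exists_nat_gt (1 / infDist y (cf Λ ι)ᶜ)
  refine tendsto_const_nhds.congr' ?_
  filter_upwards [eventually_ge_atTop N] with n hn
  unfold chi
  rw [min_eq_left]
  rw [div_lt_iff₀ h1] at hN
  have h2 : (N : ℝ) ≤ n := by exact_mod_cast hn
  nlinarith

theorem continuous_mul_chi (hΛ : IsOpen Λ) {f : (ι → ℂ) → ℝ} {C : ℝ} (hf : BC Λ f C) (n : ℕ) :
    Continuous (fun y : ι → ℂ => f y * chi Λ n y) := by
  rw [continuous_iff_continuousAt]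
  intro y
  by_cases hy : y ∈ cf Λ ι
  · exact (hf.cont.continuousAt ((isOpen_cf hΛ).mem_nhds hy)).mul (continuous_chi n).continuousAt
  · have e0 : (fun y => f y * chi Λ n y) y = 0 := by
      dsimp only; rw [chi_zero hy, mul_zero]
    unfold ContinuousAt
    rw [e0]
    refine squeeze_zero_norm (a := fun y' => |C| * chi Λ n y') (fun y' => ?_) ?_
    · rw [Real.norm_eq_abs, abs_mul, abs_of_nonneg (chi_nonneg n y')]
      by_cases hy' : y' ∈ cf Λ ι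
      · exact mul_le_mul_of_nonneg_right ((hf.le y' hy').trans (le_abs_self C)) (chi_nonneg n y')
      · rw [chi_zero hy']; simp
    · have h1 : Tendsto (fun y' => |C| * chi Λ n y') (𝓝 y) (𝓝 (|C| * chi Λ n y)) :=
        ((continuous_const.mul (continuous_chi n)).tendsto y)
      rwa [chi_zero hy, mul_zero] at h1

theorem bc_of_cont {D : ℝ} (hD0 : 0 ≤ D) (hD : ∀ x ∈ Λ, ‖x‖ ≤ D) {f : (ι → ℂ) → ℝ}
    (hf : Continuous f) : ∃ C, 0 ≤ C ∧ BC Λ f C := by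
  obtain ⟨C, hC⟩ := (isCompact_closedBall (0 : ι → ℂ) D).exists_bound_of_continuousOn
    hf.continuousOn
  refine ⟨max C 0, le_max_right _ _, hf.continuousOn, fun y hy => ?_⟩
  refine (hC y ?_).trans (le_max_left _ _)
  rw [mem_closedBall_zero_iff, pi_norm_le_iff_of_nonneg hD0]
  exact fun i => hD _ (hy i)

variable {G : ℂ → ℂ → ℝ} {ε : ℝ}

theorem integrable_PF (hΛ : IsOpen Λ) (Θ : Measure (SS Λ G ε)) [IsProbabilityMeasure Θ] {p r : ℕ}
    {f : (Fin p ⊕ Fin r → ℂ) → ℝ} {C : ℝ} (hC : 0 ≤ C) (hf : BC Λ f C) :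
    Integrable (PF f : SS Λ G ε → ℝ) Θ := by
  refine Integrable.of_bound (C := C) (continuous_PF hΛ hC hf).measurable.aestronglyMeasurable ?_
  exact ae_of_all _ fun z => abs_PF_le hΛ hf z

theorem bc_nonneg {f : (ι → ℂ) → ℝ} (h1 : ContinuousOn f (cf Λ ι))
    (h2 : ∃ C, ∀ y ∈ cf Λ ι, |f y| ≤ C) : ∃ C, 0 ≤ C ∧ BC Λ f C := by
  obtain ⟨C, hC⟩ := h2
  exact ⟨max C 0, le_max_right _ _, h1, fun y hy => (hC y hy).trans (le_max_left _ _)⟩

theorem pos_int (hΛ : IsOpen Λ) (Θ : Measure (SS Λ G ε)) [IsProbabilityMeasure Θ] {p r : ℕ} :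
    Pos Λ (fun f : (Fin p ⊕ Fin r → ℂ) → ℝ => ∫ z, PF f z ∂Θ) := by
  constructor
  · intro f₁ f₂ h1 h2 b1 b2
    obtain ⟨C₁, hC₁, b1⟩ := bc_nonneg h1 b1
    obtain ⟨C₂, hC₂, b2⟩ := bc_nonneg h2 b2
    refine ⟨?_, fun c => ?_, fun hle => ?_⟩
    · rw [← integral_add (integrable_PF hΛ Θ hC₁ b1) (integrable_PF hΛ Θ hC₂ b2)]
      congr 1
      ext z
      unfold PF
      rw [prodInt_eq, prodInt_eq, prodInt_eq]
      exact pI_add hΛ b1 b2 (pd_sum hΛ (r_spec z).1)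
    · rw [← integral_const_mul]
      congr 1
      ext z
      unfold PF
      rw [prodInt_eq, prodInt_eq]
      exact pI_smul c f₁ _
    · refine integral_mono (integrable_PF hΛ Θ hC₁ b1) (integrable_PF hΛ Θ hC₂ b2) fun z => ?_
      unfold PF
      rw [prodInt_eq, prodInt_eq]
      exact pI_mono hΛ b1 b2 (pd_sum hΛ (r_spec z).1) hle
  · have : ∀ z : SS Λ G ε, PF (fun _ : Fin p ⊕ Fin r → ℂ => (1 : ℝ)) z = 1 := by
      intro z
      unfold PF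
      rw [prodInt_eq]
      exact pI_const (pd_sum hΛ (r_spec z).1) 1
    simp [this]

theorem tendsto_PF_chi (hΛ : IsOpen Λ) {p r : ℕ}
    (hne : ((cf Λ (Fin p ⊕ Fin r))ᶜ).Nonempty) (z : SS Λ G ε) :
    Tendsto (fun n => PF (chi Λ n : (Fin p ⊕ Fin r → ℂ) → ℝ) z) atTop (𝓝 1) := by
  have hpd := pd_sum (p := p) (r := r) hΛ (r_spec z).1
  have h1 : (1 : ℝ) = pI Λ (fun _ => 1) (Sum.elim (fun _ : Fin p => r₁ z) (fun _ : Fin r => r₂ z)) :=
    (pI_const hpd 1).symm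
  rw [h1]
  unfold PF
  simp_rw [prodInt_eq]
  unfold pI
  refine tendsto_integral_of_dominated_convergence
    (fun y => |∏ i, (Sum.elim (fun _ : Fin p => r₁ z) (fun _ : Fin r => r₂ z)) i (y i)|)
    (fun n => ((bc_chi n).integrable hΛ hpd).aestronglyMeasurable) (prod_integrable hpd).abs
    (fun n => ae_of_all _ fun y => ?_) ?_
  · rw [Real.norm_eq_abs, abs_mul, abs_of_nonneg (chi_nonneg n y)]
    exact mul_le_of_le_one_left (abs_nonneg _) (chi_le n y)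
  · rw [← restrict_cf]
    refine (ae_restrict_iff' (isOpen_cf hΛ).measurableSet).2 (ae_of_all _ fun y hy => ?_)
    exact (tendsto_chi hΛ hne hy).mul_const _

theorem tendsto_int_chi (hΛ : IsOpen Λ) {p r : ℕ} (hne : ((cf Λ (Fin p ⊕ Fin r))ᶜ).Nonempty)
    (Θ : Measure (SS Λ G ε)) [IsProbabilityMeasure Θ] :
    Tendsto (fun n => ∫ z, PF (chi Λ n : (Fin p ⊕ Fin r → ℂ) → ℝ) z ∂Θ) atTop (𝓝 1) := by
  have h1 : (1 : ℝ) = ∫ _ : SS Λ G ε, (1 : ℝ) ∂Θ := by simp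
  rw [h1]
  refine tendsto_integral_of_dominated_convergence (fun _ => 1)
    (fun n => (integrable_PF hΛ Θ zero_le_one (bc_chi n)).aestronglyMeasurable)
    (integrable_const 1) (fun n => ae_of_all _ fun z => ?_)
    (ae_of_all _ fun z => tendsto_PF_chi hΛ hne z)
  exact abs_PF_le hΛ (bc_chi n) z

/-- convergence for all bounded continuous functions from convergence for functions continuous on
the whole space -/
theorem conv_all (hΛ : IsOpen Λ) (Θ : Measure (SS Λ G ε)) [IsProbabilityMeasure Θ] {p r : ℕ}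
    {F : ℕ → ((Fin p ⊕ Fin r → ℂ) → ℝ) → ℝ} (hF : ∀ᶠ k in atTop, Pos Λ (F k))
    (hc : ∀ f : (Fin p ⊕ Fin r → ℂ) → ℝ, Continuous f →
      Tendsto (fun k => F k f) atTop (𝓝 (∫ z, PF f z ∂Θ)))
    {f : (Fin p ⊕ Fin r → ℂ) → ℝ} {C : ℝ} (hf : BC Λ f C) :
    Tendsto (fun k => F k f) atTop (𝓝 (∫ z, PF f z ∂Θ)) := by
  rcases ((cf Λ (Fin p ⊕ Fin r))ᶜ).eq_empty_or_nonempty with he | hne
  · refine hc f ?_
    have h1 : cf Λ (Fin p ⊕ Fin r) = univ := by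
      rw [← compl_compl (cf Λ (Fin p ⊕ Fin r)), he, compl_empty]
    have h2 := hf.cont
    rwa [h1, continuousOn_univ] at h2
  rw [Metric.tendsto_atTop']
  intro δ hδ
  have hI := pos_int hΛ Θ (p := p) (r := r)
  -- choose the cutoff
  have t1 : Tendsto (fun n => C * (1 - ∫ z, PF (chi Λ n : (Fin p ⊕ Fin r → ℂ) → ℝ) z ∂Θ)) atTop
      (𝓝 (C * (1 - 1))) := (tendsto_const_nhds.sub (tendsto_int_chi hΛ hne Θ)).const_mul C
  rw [sub_self, mul_zero] at t1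
  obtain ⟨n, hn⟩ := (t1.eventually (gt_mem_nhds (show (0:ℝ) < δ / 4 by positivity))).exists
  have t2 := (tendsto_const_nhds (x := (1 : ℝ)) (f := atTop)).sub
    (hc (chi Λ n) (continuous_chi n)) |>.const_mul C
  have t3 := hc _ (continuous_mul_chi hΛ hf n)
  have e2 := t2.eventually (gt_mem_nhds hn)
  have e3 := (Metric.tendsto_nhds.1 t3) (δ / 4) (by positivity)
  have hall := (hF.and (e2.and e3))
  rw [eventually_atTop] at hall
  obtain ⟨N, hN⟩ := hall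
  refine ⟨N, fun k hk => ?_⟩
  obtain ⟨g1, g2, g3⟩ := hN k (le_of_lt hk)
  have c1 := g1.cut hf (bc_chi n) (chi_le n)
  have c2 := hI.cut hf (bc_chi n) (chi_le n)
  rw [Real.dist_eq] at g3 ⊢
  have c1' := abs_le.1 c1
  have c2' := abs_le.1 c2
  have g3' := abs_lt.1 g3
  rw [abs_lt]
  constructor <;> linarith [c1'.1, c1'.2, c2'.1, c2'.2, g3'.1, g3'.2]

end B3

end Pool.Agent.H836_PV

namespace Pool.Agent.H836_PV

theorem taskB3 : TaskB3 := by
  intro Λ g D C₃ cL CB hK ε _ hex hcomp m hlin hone happ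
  have hΛ := hK.isOpen
  have hD0 : 0 ≤ D := zero_le_one.trans hK.one_le
  have hD := hK.norm_le
  have hcs : CompactSpace (B3.SS Λ (K g) ε) := isCompact_iff_compactSpace.1 (B3.compact_SS hcomp)
  -- the test functions
  let P : ℕ → ℕ := fun j => (Nat.unpair j).1
  let R : ℕ → ℕ := fun j => (Nat.unpair (Nat.unpair j).2).1
  let N : ℕ → ℕ := fun j => (Nat.unpair (Nat.unpair j).2).2
  let tf : ∀ p r : ℕ, ℕ → C(Fin p ⊕ Fin r → ℂ, ℝ) := fun p r n =>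
    TopologicalSpace.denseSeq C(Fin p ⊕ Fin r → ℂ, ℝ) n
  -- approximating mixtures
  have h1 : ∀ J : ℕ, ∀ᶠ k in atTop, ∃ Θ : ProbabilityMeasure (B3.SS Λ (K g) ε),
      ∀ l < J, |m k (P l) (R l) (tf (P l) (R l) (N l)) -
        ∫ z, B3.PF (tf (P l) (R l) (N l)) z ∂(Θ : Measure (B3.SS Λ (K g) ε))| ≤ 1 / (J + 1) := by
    intro J
    filter_upwards [happ J (fun l : Fin J => P l) (fun l => R l)
      (fun l => tf (P l) (R l) (N l)) (fun l => (tf (P l) (R l) (N l)).continuous)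
      (1 / (J + 1)) (by positivity)] with k hk
    obtain ⟨n, w, ρ₁, ρ₂, hw, hw1, hmax, hk⟩ := hk
    obtain ⟨Θ, hΘ⟩ := B3.mix hΛ hw hw1 hmax
    refine ⟨Θ, fun l hl => ?_⟩
    obtain ⟨C, hC, hbc⟩ := B3.bc_of_cont hD0 hD (tf (P l) (R l) (N l)).continuous
    rw [hΘ _ _ _ C hC hbc]
    exact hk ⟨l, hl⟩
  obtain ⟨ψ, hψ, h2⟩ := extraction_forall_of_eventually h1
  choose Θ hΘ using h2
  obtain ⟨Θ₀, ψ', hψ', hlim⟩ := CompactSpace.tendsto_subseq Θ
  refine ⟨ψ ∘ ψ', hψ.comp hψ', ?_⟩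
  have hφ : Tendsto (ψ ∘ ψ') atTop atTop := (hψ.comp hψ').tendsto_atTop
  -- the functionals are positive
  have hpos : ∀ p r, ∀ᶠ k in atTop, B3.Pos Λ (m ((ψ ∘ ψ') k) p r) := by
    intro p r
    filter_upwards [hφ.eventually (hlin p r), hφ.eventually (hone p r)] with k hk1 hk2
    exact ⟨hk1, hk2⟩
  -- convergence for the test functions
  have hc1 : ∀ l, Tendsto (fun k => m ((ψ ∘ ψ') k) (P l) (R l) (tf (P l) (R l) (N l))) atTop
      (𝓝 (∫ z, B3.PF (tf (P l) (R l) (N l)) z ∂(Θ₀ : Measure (B3.SS Λ (K g) ε)))) := by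
    intro l
    obtain ⟨C, hC, hbc⟩ := B3.bc_of_cont hD0 hD (tf (P l) (R l) (N l)).continuous
    let F : BoundedContinuousFunction (B3.SS Λ (K g) ε) ℝ :=
      BoundedContinuousFunction.ofNormedAddCommGroup (B3.PF (tf (P l) (R l) (N l)))
        (B3.continuous_PF hΛ hC hbc) C (fun z => B3.abs_PF_le hΛ hbc z)
    have t1 := (ProbabilityMeasure.tendsto_iff_forall_integral_tendsto.1 hlim) F
    have t2 : Tendsto (fun k => m ((ψ ∘ ψ') k) (P l) (R l) (tf (P l) (R l) (N l)) -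
        ∫ z, F z ∂(((Θ ∘ ψ') k : ProbabilityMeasure (B3.SS Λ (K g) ε)) :
          Measure (B3.SS Λ (K g) ε))) atTop (𝓝 0) := by
      have t3 : Tendsto (fun k => (1 : ℝ) / ((ψ' k : ℝ) + 1)) atTop (𝓝 0) :=
        tendsto_one_div_add_atTop_nhds_zero_nat.comp hψ'.tendsto_atTop
      refine squeeze_zero_norm' ?_ t3
      filter_upwards [hψ'.tendsto_atTop.eventually_gt_atTop l] with k hk
      exact hΘ (ψ' k) l hk
    have t4 := t2.add t1
    simp only [sub_add_cancel, zero_add] at t4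
    exact t4
  -- convergence for functions continuous on the whole space
  have hc2 : ∀ (p r : ℕ) (f : (Fin p ⊕ Fin r → ℂ) → ℝ), Continuous f →
      Tendsto (fun k => m ((ψ ∘ ψ') k) p r f) atTop
        (𝓝 (∫ z, B3.PF f z ∂(Θ₀ : Measure (B3.SS Λ (K g) ε)))) := by
    intro p r f hf
    rw [Metric.tendsto_nhds]
    intro δ hδ
    -- approximate
    have hdense := TopologicalSpace.denseRange_denseSeq C(Fin p ⊕ Fin r → ℂ, ℝ)
    obtain ⟨n, hn⟩ : ∃ n, ∀ y ∈ closedBall (0 : Fin p ⊕ Fin r → ℂ) D,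
        |f y - tf p r n y| ≤ δ / 4 := by
      have hopen : IsOpen {h : C(Fin p ⊕ Fin r → ℂ, ℝ) |
          MapsTo (h - (⟨f, hf⟩ : C(Fin p ⊕ Fin r → ℂ, ℝ)))
            (closedBall (0 : Fin p ⊕ Fin r → ℂ) D) (ball (0 : ℝ) (δ / 4))} := by
        have h3 : IsOpen {h : C(Fin p ⊕ Fin r → ℂ, ℝ) |
            MapsTo h (closedBall (0 : Fin p ⊕ Fin r → ℂ) D) (ball (0 : ℝ) (δ / 4))} :=
          ContinuousMap.isOpen_setOfPred_mapsTo (isCompact_closedBall _ _) isOpen_ball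
        exact h3.preimage (continuous_id.sub continuous_const)
      obtain ⟨n, hn⟩ := hdense.exists_mem_open hopen ⟨⟨f, hf⟩, fun y _ => by
        simp only [sub_self, ContinuousMap.coe_zero, Pi.zero_apply]
        exact mem_ball_self (by positivity)⟩
      refine ⟨n, fun y hy => ?_⟩
      have h4 := hn hy
      rw [mem_ball_zero_iff, Real.norm_eq_abs, ContinuousMap.sub_apply, abs_sub_comm] at h4
      exact h4.le
    -- index of the test function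
    obtain ⟨l, hl⟩ : ∃ l : ℕ, P l = p ∧ R l = r ∧ N l = n := by
      refine ⟨Nat.pair p (Nat.pair r n), ?_, ?_, ?_⟩ <;> simp [P, R, N]
    obtain ⟨rfl, rfl, rfl⟩ := hl
    obtain ⟨C, hC, hbc⟩ := B3.bc_of_cont hD0 hD hf
    obtain ⟨C', hC', hbc'⟩ := B3.bc_of_cont hD0 hD (tf (P l) (R l) (N l)).continuous
    have hcl : ∀ y ∈ cf Λ (Fin (P l) ⊕ Fin (R l)), |f y - tf (P l) (R l) (N l) y| ≤ δ / 4 := by
      intro y hy
      refine hn y ?_
      rw [mem_closedBall_zero_iff, pi_norm_le_iff_of_nonneg hD0]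
      exact fun i => hD _ (hy i)
    have hI := (B3.pos_int hΛ (Θ₀ : Measure (B3.SS Λ (K g) ε)) (p := P l) (r := R l)).abs_sub_le
      hbc hbc' hcl
    filter_upwards [hpos (P l) (R l), (Metric.tendsto_nhds.1 (hc1 l)) (δ / 4) (by positivity)]
      with k hk1 hk2
    have hM := hk1.abs_sub_le hbc hbc' hcl
    rw [Real.dist_eq] at hk2 ⊢
    have a1 := abs_le.1 hI
    have a2 := abs_le.1 hM
    have a3 := abs_lt.1 hk2
    rw [abs_lt]
    constructor <;> linarith [a1.1, a1.2, a2.1, a2.2, a3.1, a3.2]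
  refine ⟨B3.SS Λ (K g) ε, inferInstance, (Θ₀ : Measure (B3.SS Λ (K g) ε)), B3.r₁, B3.r₂,
    inferInstance, fun z => (B3.r_spec z).1, fun p r f hf hfb => ?_⟩
  obtain ⟨C, hC, hbc⟩ := B3.bc_nonneg hf hfb
  exact ⟨(B3.continuous_PF hΛ hC hbc).measurable,
    B3.conv_all hΛ (Θ₀ : Measure (B3.SS Λ (K g) ε)) (hpos p r) (hc2 p r) hbc⟩

end Pool.Agent.H836_PV
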