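import Pool.Agent.H836_PV.Stmts

/-!
# Task V4, part a: auxiliary lemmas
-/

open MeasureTheory Filter Topology Set Metric

namespace Pool.Agent.H836_PV

/-- coincidences have measure zero -/
theorem V4_inj {ι : Type} [Fintype ι] : volume {x : ι → ℂ | ¬ Function.Injective x} = 0 := by
  classical
  have h : {x : ι → ℂ | ¬ Function.Injective x} ⊆
      ⋃ (i : ι), ⋃ (j : ι), ⋃ (_ : i ≠ j), {x : ι → ℂ | x i = x j} := by
    intro x hx
    simp only [mem_setOf_eq, Function.Injective, not_forall] at hx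
    obtain ⟨i, j, hij, hne⟩ := hx
    simp only [mem_iUnion]
    exact ⟨i, j, hne, hij⟩
  refine measure_mono_null h ?_
  refine measure_iUnion_null fun i => measure_iUnion_null fun j => measure_iUnion_null fun hij => ?_
  let S : Submodule ℝ (ι → ℂ) :=
    { carrier := {x : ι → ℂ | x i = x j}
      add_mem' := by
        intro a b ha hb
        simp only [mem_setOf_eq, Pi.add_apply] at *
        rw [ha, hb]
      zero_mem' := rfl
      smul_mem' := by
        intro t a ha
        simp only [mem_setOf_eq, Pi.smul_apply] at *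
        rw [ha] }
  have hS : S ≠ ⊤ := by
    intro h
    have : (Pi.single i (1 : ℂ) : ι → ℂ) ∈ S := by rw [h]; trivial
    have h2 : (Pi.single i (1 : ℂ) : ι → ℂ) i = (Pi.single i (1 : ℂ) : ι → ℂ) j := this
    rw [Pi.single_eq_same, Pi.single_eq_of_ne hij.symm] at h2
    exact one_ne_zero h2
  exact Measure.addHaar_submodule volume S hS

theorem V4_fd_nonneg (δ : ℝ) (x y : ℂ) : 0 ≤ fd δ x y := le_max_left _ _

theorem V4_fd_mono {δ δ' : ℝ} (hδ : 0 < δ) (h : δ ≤ δ') (x y : ℂ) : fd δ x y ≤ fd δ' x y := by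
  unfold fd
  apply max_le_max le_rfl
  rcases eq_or_lt_of_le (norm_nonneg (x - y)) with h0 | h0
  · rw [← h0]; simp
  · apply Real.log_le_log (by positivity)
    exact div_le_div_of_nonneg_right h h0.le

/-- the truncation of the kernel -/
theorem V4_trunc {Λ : Set ℂ} {g : ℂ → ℂ → ℝ} {D C₃ cL CB : ℝ} (hK : Ker Λ g D C₃ cL CB)
    {δ : ℝ} (hδ : 0 < δ) {x y : ℂ} (hx : x ∈ Λ) (hy : y ∈ Λ) (hxy : x ≠ y) :
    K g x y ≤ min (K g x y) (Real.log (D / δ)) + fd δ x y ∧ 0 ≤ K g x y := by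
  have hpos : 0 < ‖x - y‖ := norm_pos_iff.mpr (sub_ne_zero.mpr hxy)
  have hD : 0 < D := by linarith [hK.one_le]
  have h1 := hK.log_le x hx y hy hxy
  have h2 := hK.le_log x hx y hy
  refine ⟨?_, by unfold K; linarith⟩
  have hfd0 := V4_fd_nonneg δ x y
  have hfd : Real.log (δ / ‖x - y‖) ≤ fd δ x y := le_max_right _ _
  rw [Real.log_div hδ.ne' hpos.ne'] at hfd
  rw [Real.log_div hD.ne' hδ.ne']
  rcases min_cases (K g x y) (Real.log D - Real.log δ) with ⟨h, _⟩ | ⟨h, _⟩
  · rw [h]; linarith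
  · rw [h]; unfold K; linarith

/-- energy of a configuration versus the step kernel -/
theorem V4_energy {Λ : Set ℂ} {g : ℂ → ℂ → ℝ} {D C₃ cL CB : ℝ} (hK : Ker Λ g D C₃ cL CB)
    {ι : Type} [Fintype ι] (c : ι → ℝ) (hc : ∀ i, c i = 1 ∨ c i = -1) {δ ε₃ : ℝ} (hδ : 0 < δ)
    (hδ1 : δ < 1) (hε₃ : 0 ≤ ε₃)
    {m : ℕ} (q : ℂ → Fin (m + 1)) (Gt : Fin (m + 1) → Fin (m + 1) → ℝ)
    (hG0 : ∀ α β, 0 ≤ Gt α β ∧ Gt α β ≤ Real.log (D / δ))
    (hGt : ∀ x ∈ Λ, ∀ y ∈ Λ, x ≠ y → q x ≠ 0 → q y ≠ 0 →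
      |min (K g x y) (Real.log (D / δ)) - Gt (q x) (q y)| ≤ ε₃)
    (x : ι → ℂ) (hx : ∀ i, x i ∈ Λ) (hinj : Function.Injective x) :
    Ham g c x ≤ 1 / 2 * ∑ i, ∑ j, c i * c j * Gt (q (x i)) (q (x j)) +
      1 / 2 * ((Fintype.card ι : ℝ) * Real.log D + ∑ i, ∑ j, fd δ (x i) (x j) +
        ε₃ * (Fintype.card ι : ℝ) ^ 2 + 2 * Real.log (D / δ) * (Fintype.card ι : ℝ) *
          ((Finset.univ.filter fun i => q (x i) = 0).card : ℝ)) := by
  classical
  set L := Real.log (D / δ) with hL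
  have hD : 1 ≤ D := hK.one_le
  have hL0 : 0 ≤ L := by
    apply Real.log_nonneg
    rw [le_div_iff₀ hδ]
    linarith
  have hlogD : 0 ≤ Real.log D := Real.log_nonneg hD
  have key : ∀ i j, c i * c j * K g (x i) (x j) ≤ c i * c j * Gt (q (x i)) (q (x j)) +
      (if i = j then Real.log D else 0) + fd δ (x i) (x j) + ε₃ +
      L * (if q (x i) = 0 then 1 else 0) + L * (if q (x j) = 0 then 1 else 0) := by
    intro i j
    have hfd0 := V4_fd_nonneg δ (x i) (x j)
    have hi0 : 0 ≤ L * (if q (x i) = 0 then (1 : ℝ) else 0) := by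
      apply mul_nonneg hL0; split_ifs <;> norm_num
    have hj0 : 0 ≤ L * (if q (x j) = 0 then (1 : ℝ) else 0) := by
      apply mul_nonneg hL0; split_ifs <;> norm_num
    by_cases hij : i = j
    · subst hij
      have hcc : c i * c i = 1 := by
        rcases hc i with h | h <;> rw [h] <;> norm_num
      rw [hcc, if_pos rfl, one_mul, one_mul]
      have h1 : K g (x i) (x i) ≤ Real.log D := by
        unfold K; simp only [sub_self, norm_zero, Real.log_zero, sub_zero]
        exact hK.le_log _ (hx i) _ (hx i)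
      have h2 := (hG0 (q (x i)) (q (x i))).1
      linarith
    · rw [if_neg hij]
      have hne : x i ≠ x j := fun h => hij (hinj h)
      obtain ⟨ht, hK0⟩ := V4_trunc hK hδ (hx i) (hx j) hne
      rw [← hL] at ht
      have hmin0 : 0 ≤ min (K g (x i) (x j)) L := le_min hK0 hL0
      have hminL : min (K g (x i) (x j)) L ≤ L := min_le_right _ _
      have hminK : min (K g (x i) (x j)) L ≤ K g (x i) (x j) := min_le_left _ _
      have hG1 := hG0 (q (x i)) (q (x j))
      have hdiff : |min (K g (x i) (x j)) L - Gt (q (x i)) (q (x j))| ≤ ε₃ +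
          L * (if q (x i) = 0 then 1 else 0) + L * (if q (x j) = 0 then 1 else 0) := by
        by_cases h1 : q (x i) = 0
        · rw [if_pos h1] at hi0 ⊢
          rw [abs_le]; constructor <;> linarith
        · by_cases h2 : q (x j) = 0
          · rw [if_pos h2] at hj0 ⊢
            rw [abs_le]; constructor <;> linarith
          · have := hGt _ (hx i) _ (hx j) hne h1 h2
            linarith
      rw [abs_le] at hdiff
      have hcc : c i * c j = 1 ∨ c i * c j = -1 := by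
        rcases hc i with h | h <;> rcases hc j with h' | h' <;> rw [h, h'] <;> norm_num
      rcases hcc with h | h <;> rw [h] <;> linarith [hdiff.1, hdiff.2]
  have hsum : ∑ i, ∑ j, c i * c j * K g (x i) (x j) ≤
      ∑ i, ∑ j, (c i * c j * Gt (q (x i)) (q (x j)) +
      (if i = j then Real.log D else 0) + fd δ (x i) (x j) + ε₃ +
      L * (if q (x i) = 0 then 1 else 0) + L * (if q (x j) = 0 then 1 else 0)) :=
    Finset.sum_le_sum fun i _ => Finset.sum_le_sum fun j _ => key i j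
  have hcount : (∑ i, (if q (x i) = 0 then (1 : ℝ) else 0)) =
      ((Finset.univ.filter fun i => q (x i) = 0).card : ℝ) := by
    rw [Finset.sum_boole]
  have heq : ∑ i, ∑ j, (c i * c j * Gt (q (x i)) (q (x j)) +
      (if i = j then Real.log D else 0) + fd δ (x i) (x j) + ε₃ +
      L * (if q (x i) = 0 then 1 else 0) + L * (if q (x j) = 0 then 1 else 0)) =
      ∑ i, ∑ j, c i * c j * Gt (q (x i)) (q (x j)) + ((Fintype.card ι : ℝ) * Real.log D +
        ∑ i, ∑ j, fd δ (x i) (x j) +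
        ε₃ * (Fintype.card ι : ℝ) ^ 2 + 2 * L * (Fintype.card ι : ℝ) *
          ((Finset.univ.filter fun i => q (x i) = 0).card : ℝ)) := by
    simp only [Finset.sum_add_distrib, Finset.sum_ite_eq, Finset.mem_univ, if_true,
      Finset.sum_const, Finset.card_univ, nsmul_eq_mul, ← Finset.mul_sum]
    rw [hcount]
    ring
  unfold Ham
  rw [heq] at hsum
  linarith

/-- few points in a small set -/
theorem V4_bad {ι : Type} [Fintype ι] {Λ S : Set ℂ} (hSΛ : S ⊆ Λ) (hV : volume Λ ≠ ⊤) {θ κ : ℝ}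
    (hθ0 : 0 < θ) (hθ1 : θ ≤ 1) (hS : volume S ≤ ENNReal.ofReal θ * volume Λ) :
    volume {x : ι → ℂ | x ∈ cf Λ ι ∧
      κ * (Fintype.card ι : ℝ) ≤ (Nat.card {i // x i ∈ S} : ℝ)} ≤
      ENNReal.ofReal ((2 * θ ^ κ) ^ (Fintype.card ι)) * (volume Λ) ^ (Fintype.card ι) := by
  classical
  set N := Fintype.card ι with hN
  set 𝒥 : Finset (Finset ι) := Finset.univ.filter fun I => κ * (N : ℝ) ≤ (I.card : ℝ) with h𝒥
  have hsub : {x : ι → ℂ | x ∈ cf Λ ι ∧ κ * (N : ℝ) ≤ (Nat.card {i // x i ∈ S} : ℝ)} ⊆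
      ⋃ I ∈ 𝒥, Set.pi univ (fun i => if i ∈ I then S else Λ) := by
    intro x hx
    obtain ⟨hxΛ, hxc⟩ := hx
    simp only [mem_iUnion]
    refine ⟨Finset.univ.filter fun i => x i ∈ S, ?_, ?_⟩
    · rw [h𝒥, Finset.mem_filter]
      refine ⟨Finset.mem_univ _, ?_⟩
      rw [Nat.card_eq_fintype_card, Fintype.card_subtype] at hxc
      exact hxc
    · intro i _
      by_cases hi : x i ∈ S
      · simp [hi]
      · simp [hi]; exact hxΛ i
  have hbox : ∀ I ∈ 𝒥, volume (Set.pi univ (fun i => if i ∈ I then S else Λ) : Set (ι → ℂ)) ≤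
      ENNReal.ofReal (θ ^ (κ * N)) * (volume Λ) ^ N := by
    intro I hI
    rw [h𝒥, Finset.mem_filter] at hI
    have h1 : volume (Set.pi univ (fun i => if i ∈ I then S else Λ) : Set (ι → ℂ)) ≤
        ∏ i : ι, ((if i ∈ I then ENNReal.ofReal θ else 1) * volume Λ) := by
      rw [volume_pi_pi]
      apply Finset.prod_le_prod'
      intro i _
      by_cases hi : i ∈ I
      · simp only [hi, if_true]; exact hS
      · simp only [hi, if_false]; rw [one_mul]
    refine h1.trans ?_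
    rw [Finset.prod_mul_distrib, Finset.prod_const, Finset.card_univ, ← hN]
    gcongr
    rw [Finset.prod_ite, Finset.prod_const, Finset.prod_const_one, mul_one]
    have h2 : (Finset.univ.filter fun i => i ∈ I) = I := by ext; simp
    rw [h2, ← ENNReal.ofReal_pow hθ0.le]
    apply ENNReal.ofReal_le_ofReal
    rw [← Real.rpow_natCast θ I.card]
    exact Real.rpow_le_rpow_of_exponent_ge hθ0 hθ1 hI.2
  calc volume {x : ι → ℂ | x ∈ cf Λ ι ∧ κ * (N : ℝ) ≤ (Nat.card {i // x i ∈ S} : ℝ)}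
      ≤ volume (⋃ I ∈ 𝒥, (Set.pi univ (fun i => if i ∈ I then S else Λ) : Set (ι → ℂ))) :=
        measure_mono hsub
    _ ≤ ∑ I ∈ 𝒥, volume (Set.pi univ (fun i => if i ∈ I then S else Λ) : Set (ι → ℂ)) :=
        measure_biUnion_finset_le _ _
    _ ≤ ∑ I ∈ 𝒥, ENNReal.ofReal (θ ^ (κ * N)) * (volume Λ) ^ N := Finset.sum_le_sum hbox
    _ = (𝒥.card : ENNReal) * (ENNReal.ofReal (θ ^ (κ * N)) * (volume Λ) ^ N) := by
        rw [Finset.sum_const, nsmul_eq_mul]
    _ ≤ ((2 : ENNReal) ^ N) * (ENNReal.ofReal (θ ^ (κ * N)) * (volume Λ) ^ N) := by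
        gcongr
        have : 𝒥.card ≤ 2 ^ N := by
          rw [hN, ← Fintype.card_finset, ← Finset.card_univ]
          exact Finset.card_filter_le _ _
        calc (𝒥.card : ENNReal) ≤ ((2 ^ N : ℕ) : ENNReal) := by exact_mod_cast this
          _ = 2 ^ N := by push_cast; rfl
    _ = ENNReal.ofReal ((2 * θ ^ κ) ^ N) * (volume Λ) ^ N := by
        rw [← mul_assoc]
        congr 1
        have h2 : (2 : ENNReal) = ENNReal.ofReal 2 := by simp
        rw [h2, ← ENNReal.ofReal_pow (by norm_num), ← ENNReal.ofReal_mul (by positivity), mul_pow,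
          Real.rpow_mul hθ0.le, Real.rpow_natCast]

end Pool.Agent.H836_PV
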