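import Pool.Agent.H836_PV.StmtsB
import Pool.Agent.H836_PV.V4a

/-!
# Task Df: differentiability of the phase space integrals (assembly)
-/

open MeasureTheory Filter Topology Set Metric

namespace Pool.Agent.H836_PV

theorem Df_cf_eq (Λ : Set ℂ) (ι : Type) : cf Λ ι = Set.pi univ (fun _ => Λ) := by
  ext x
  constructor
  · intro h i _
    exact h i
  · intro h i
    exact h i trivial

theorem Df_cf_open {Λ : Set ℂ} (h : IsOpen Λ) (ι : Type) [Fintype ι] : IsOpen (cf Λ ι) := by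
  rw [Df_cf_eq]
  exact isOpen_set_pi finite_univ fun _ _ => h

theorem Df_cf_volume (Λ : Set ℂ) (ι : Type) [Fintype ι] :
    volume (cf Λ ι) = (volume Λ) ^ (Fintype.card ι) := by
  rw [Df_cf_eq, volume_pi_pi, Finset.prod_const, Finset.card_univ]

theorem Df_RR_open {Λ : Set ℂ} (h : IsOpen Λ) (ι : Type) [Fintype ι] : IsOpen (RR Λ ι) := by
  classical
  have e : RR Λ ι = cf Λ ι ∩ ⋂ (i : ι), ⋂ (j : ι), {x : ι → ℂ | i ≠ j → x i ≠ x j} := by
    ext x
    simp only [RR, mem_inter_iff, mem_iInter]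
    constructor
    · intro hx
      exact ⟨hx.1, fun i j hij h => hij (hx.2 h)⟩
    · intro hx
      refine ⟨hx.1, fun i j h => ?_⟩
      by_contra hij
      exact hx.2 i j hij h
  rw [e]
  apply (Df_cf_open h ι).inter
  apply isOpen_iInter_of_finite
  intro i
  apply isOpen_iInter_of_finite
  intro j
  by_cases hij : i = j
  · have : {x : ι → ℂ | i ≠ j → x i ≠ x j} = univ := by
      ext x
      simp only [mem_univ, iff_true]
      exact fun h => absurd hij h
    rw [this]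
    exact isOpen_univ
  · have : {x : ι → ℂ | i ≠ j → x i ≠ x j} = {x : ι → ℂ | x i ≠ x j} := by
      ext x
      exact ⟨fun h => h hij, fun h _ => h⟩
    rw [this]
    exact isOpen_ne_fun (continuous_apply i) (continuous_apply j)

theorem Df_Ham_smooth {Λ : Set ℂ} {g : ℂ → ℂ → ℝ} {D C₃ cL CB : ℝ} (hK : Ker Λ g D C₃ cL CB)
    {ι : Type} [Fintype ι] (c : ι → ℝ) : ContDiffOn ℝ 2 (Ham g c) (RR Λ ι) := by
  classical
  unfold Ham
  apply ContDiffOn.mul contDiffOn_const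
  apply ContDiffOn.sum
  intro i _
  apply ContDiffOn.sum
  intro j _
  apply ContDiffOn.mul contDiffOn_const
  unfold K
  have hp : ContDiff ℝ 2 (fun x : ι → ℂ => ((x i, x j) : ℂ × ℂ)) :=
    (contDiff_apply ℝ ℂ i).prodMk (contDiff_apply ℝ ℂ j)
  have hg : ContDiffOn ℝ 2 (fun x : ι → ℂ => g (x i) (x j)) (RR Λ ι) := by
    have h3 : ContDiffOn ℝ 2 (fun p : ℂ × ℂ => g p.1 p.2) (Λ ×ˢ Λ) :=
      hK.smooth.of_le (by norm_num)
    exact h3.comp hp.contDiffOn (fun x hx => ⟨hx.1 i, hx.1 j⟩)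
  apply hg.sub
  by_cases hij : i = j
  · subst hij
    simp only [sub_self, norm_zero]
    exact contDiffOn_const
  · have hsub : ContDiffOn ℝ 2 (fun x : ι → ℂ => x i - x j) (RR Λ ι) :=
      ((contDiff_apply ℝ ℂ i).sub (contDiff_apply ℝ ℂ j)).contDiffOn
    have hne : ∀ x ∈ RR Λ ι, x i - x j ≠ 0 := fun x hx h => hij (hx.2 (sub_eq_zero.mp h))
    apply ContDiffOn.log
    · exact hsub.norm ℝ hne
    · intro x hx
      exact norm_ne_zero_iff.mpr (hne x hx)

theorem taskDf (hU : TaskU) (hDf2 : TaskDf2) (hDf3 : TaskDf3) (hDf4 : TaskDf4) : TaskDf := by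
  intro Λ g D C₃ cL CB hK
  classical
  obtain ⟨C, hC0, hC⟩ := hU Λ g D C₃ cL CB hK
  obtain ⟨N₁, hN₁⟩ := hC (1 / 2) (by norm_num) (by norm_num)
  obtain ⟨N₂, hN₂⟩ := hDf3 Λ g D C₃ cL CB hK
  refine ⟨N₁ + N₂ + 3, ?_⟩
  intro M hM F hF hFb E
  have hcard : Fintype.card (Fin M ⊕ Fin M) = 2 * M := by
    rw [Fintype.card_sum, Fintype.card_fin]; ring
  have hsub : Λ ⊆ closedBall 0 D := fun z hz => by
    rw [mem_closedBall_zero_iff]; exact hK.norm_le z hz
  have hVtop : volume Λ ≠ ⊤ := ((measure_mono hsub).trans_lt measure_closedBall_lt_top).ne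
  have hc : ∀ i, |circ M i| = 1 := by
    intro i
    rcases i with i | i <;> simp [circ]
  set ι := Fin M ⊕ Fin M with hι
  set R : Set (ι → ℂ) := RR Λ ι with hR
  have hRo : IsOpen R := Df_RR_open hK.isOpen ι
  have hcfV : volume (cf Λ ι) ≠ ⊤ := by
    rw [Df_cf_volume]
    exact ENNReal.pow_ne_top hVtop
  have hRcf : R ⊆ cf Λ ι := fun x hx => hx.1
  have hRV : volume R ≠ ⊤ := ((measure_mono hRcf).trans_lt (lt_top_iff_ne_top.mpr hcfV)).ne
  have hsm : ContDiffOn ℝ 2 (Ham g (circ M)) R := Df_Ham_smooth hK (circ M)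
  set H : (ι → ℂ) → ℝ := R.piecewise (Ham g (circ M)) (fun _ => 0) with hH
  have hHR : ∀ x ∈ R, H x = Ham g (circ M) x := fun x hx => piecewise_eq_of_mem _ _ _ hx
  have hHm : Measurable H :=
    ContinuousOn.measurable_piecewise hsm.continuousOn continuousOn_const hRo.measurableSet
  have hHs : ContDiffOn ℝ 2 H R := hsm.congr hHR
  have hgr : ∀ x ∈ R, gr2 H x = gr2 (Ham g (circ M)) x := by
    intro x hx
    have he : H =ᶠ[𝓝 x] Ham g (circ M) := by
      filter_upwards [hRo.mem_nhds hx] with y hy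
      exact hHR y hy
    unfold gr2 D1
    rw [he.fderiv_eq]
  have key := hDf2 ι R H hRo hRV hHs hHm ?_ ?_ ?_ F (hF.mono hRcf)
    (by obtain ⟨C, hC⟩ := hFb; exact ⟨C, fun x hx => hC x (hRcf hx)⟩) E
  · refine key.congr_of_eventuallyEq (Eventually.of_forall fun t => ?_)
    apply setIntegral_congr_set
    rw [ae_eq_set]
    constructor
    · refine measure_mono_null ?_ (V4_inj (ι := ι))
      rintro x ⟨⟨hx1, hx2⟩, hx3⟩
      by_contra hx4
      apply hx3
      have hinj : Function.Injective x := by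
        by_contra h
        exact hx4 h
      refine ⟨⟨hx1, hinj⟩, ?_⟩
      rw [hHR x ⟨hx1, hinj⟩]
      exact hx2
    · refine measure_mono_null ?_ (measure_empty (μ := volume))
      rintro x ⟨⟨hx1, hx2⟩, hx3⟩
      apply hx3
      rw [hHR x hx1] at hx2
      exact ⟨hx1.1, hx2⟩
  · -- Lipschitz bound
    set V := (volume (cf Λ ι)).toReal with hV
    refine ⟨Real.exp (C * (1 / 2) * Fintype.card ι) * V +
      Real.exp (-((1 / 2) * (Fintype.card ι : ℝ) ^ 2 / 16)), ?_⟩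
    intro E' δ hδ
    have h1 := hN₁ ι (by rw [hcard]; omega) (circ M) hc univ univ MeasurableSet.univ
      MeasurableSet.univ (fun _ _ _ _ => trivial) E' δ hδ
    calc volume {x | x ∈ R ∧ E' ≤ H x ∧ H x < E' + δ}
        ≤ volume (cf Λ ι ∩ univ ∩ {x | E' ≤ Ham g (circ M) x ∧ Ham g (circ M) x < E' + δ}) := by
          apply measure_mono
          rintro x ⟨hx1, hx2, hx3⟩
          rw [hHR x hx1] at hx2 hx3
          exact ⟨⟨hx1.1, trivial⟩, hx2, hx3⟩
      _ ≤ _ := h1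
      _ ≤ ENNReal.ofReal (δ * Real.exp (C * (1 / 2) * Fintype.card ι)) * volume (cf Λ ι) +
          ENNReal.ofReal (δ * Real.exp (-((1 / 2) * (Fintype.card ι : ℝ) ^ 2 / 16))) := by
          gcongr
          intro x hx
          exact hx.1.1
      _ = ENNReal.ofReal ((Real.exp (C * (1 / 2) * Fintype.card ι) * V +
          Real.exp (-((1 / 2) * (Fintype.card ι : ℝ) ^ 2 / 16))) * δ) := by
          rw [← ENNReal.ofReal_toReal hcfV, ← hV, ← ENNReal.ofReal_mul (by positivity),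
            ← ENNReal.ofReal_add (by positivity) (by positivity)]
          congr 1
          ring
  · intro κ hκ
    obtain ⟨Q, hQc, hQR, hQ⟩ := hN₂ ι (by rw [hcard]; omega) (circ M) hc κ hκ
    refine ⟨Q, hQc, hQR, fun E' δ hδ => ?_⟩
    refine le_trans (measure_mono ?_) (hQ E' δ hδ)
    rintro x ⟨hx1, hx2, hx3, hx4⟩
    rw [hHR x hx1] at hx3 hx4
    exact ⟨hx1, hx2, hx3, hx4⟩
  · intro Q hQc hQR κ hκ
    obtain ⟨τ, hτ, hb⟩ := hDf4 Λ g D C₃ cL CB hK ι (by rw [hcard]; omega) (circ M) hc Q hQc hQR κ hκ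
    refine ⟨τ, hτ, fun E' δ hδ => ?_⟩
    refine le_trans (measure_mono ?_) (hb E' δ hδ)
    rintro x ⟨hx1, hx2, hx3, hx4⟩
    rw [hHR x (hQR hx1)] at hx3 hx4
    rw [hgr x (hQR hx1)] at hx2
    exact ⟨hx1, hx2, hx3, hx4⟩

end Pool.Agent.H836_PV
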