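import Pool.Agent.H836_PV.StmtsB

/-!
# TASK Df1: divergence theorem

With `k = F / (Γ + τ²)` and `g_e = χ k ∂_e H` (of class `C¹` with compact support in `R`) integration by
parts against `Φ(H)`, `Φ(s) = θ_c(b - s)`, `θ_c(t) = (t + √(t² + c)) / 2`, gives
`∫ W θ_c'(b - H) = ∫ DIV θ_c(b - H)` with `W = χ F Γ / (Γ + τ²)` and `DIV = ∑_e ∂_e g_e`.  Letting `c → 0`,
`∫_{H < b} W = ∫ DIV max(0, b - H)`, which is differentiable in `b` because level sets are null.
-/

open MeasureTheory Filter Topology Set Metric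

namespace Pool.Agent.H836_PV

section Df1

/-- a product of a function supported in `R` and a function regular in `R` -/
theorem Df1_mul {V : Type*} [NormedAddCommGroup V] [NormedSpace ℝ V] {n : WithTop ℕ∞} {R : Set V}
    (hR : IsOpen R) {v h : V → ℝ} (hv : ContDiff ℝ n v) (hs : tsupport v ⊆ R)
    (hh : ContDiffOn ℝ n h R) : ContDiff ℝ n (fun x => v x * h x) := by
  rw [contDiff_iff_contDiffAt]
  intro x
  by_cases hx : x ∈ tsupport v
  · exact hv.contDiffAt.mul (hh.contDiffAt (hR.mem_nhds (hs hx)))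
  · refine (contDiffAt_const (c := (0:ℝ))).congr_of_eventuallyEq ?_
    filter_upwards [notMem_tsupport_iff_eventuallyEq.1 hx] with y hy
    rw [hy]
    simp

variable {ι : Type} [Fintype ι]

theorem Df1_int {R : Set (ι → ℂ)} (hR : IsOpen R) {v h : (ι → ℂ) → ℝ} (hv : Continuous v)
    (hc : HasCompactSupport v) (hs : tsupport v ⊆ R) (hh : ContinuousOn h R) :
    Integrable (fun x => v x * h x) := by
  have h1 : Continuous fun x => v x * h x :=
    contDiff_zero.1 (Df1_mul hR (contDiff_zero.2 hv) hs (contDiffOn_zero.2 hh))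
  exact h1.integrable_of_hasCompactSupport hc.mul_right

theorem Df1_D1 {R : Set (ι → ℂ)} (hR : IsOpen R) {H : (ι → ℂ) → ℝ} (hH : ContDiffOn ℝ 2 H R)
    (e : ι → ℂ) : ContDiffOn ℝ 1 (fun x => D1 H x e) R := by
  have h1 : ContDiffOn ℝ 1 (fun x => fderiv ℝ H x) R := hH.fderiv_of_isOpen hR (by norm_num)
  exact h1.clm_apply contDiffOn_const

/-- integration by parts -/
theorem Df1_parts {R : Set (ι → ℂ)} (hR : IsOpen R) {H v : (ι → ℂ) → ℝ}
    (hH : ContDiffOn ℝ 2 H R) (hv : ContDiff ℝ 1 v) (hc : HasCompactSupport v)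
    (hs : tsupport v ⊆ R) {Φ Φ' : ℝ → ℝ} (hΦ : ∀ t, HasDerivAt Φ (Φ' t) t)
    (hΦ' : Continuous Φ') (e : ι → ℂ) :
    Integrable (fun x => v x * (Φ' (H x) * D1 H x e)) ∧
    Integrable (fun x => fderiv ℝ v x e * Φ (H x)) ∧
    ∫ x, v x * (Φ' (H x) * D1 H x e) = - ∫ x, fderiv ℝ v x e * Φ (H x) := by
  have hHc : ContinuousOn H R := hH.continuousOn
  have hΦc : Continuous Φ := continuous_iff_continuousAt.2 fun t => (hΦ t).continuousAt
  have hd : ∀ x ∈ R, HasFDerivAt (fun x => Φ (H x)) (Φ' (H x) • fderiv ℝ H x) x := by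
    intro x hx
    have h1 : DifferentiableAt ℝ H x :=
      (hH.contDiffAt (hR.mem_nhds hx)).differentiableAt (by norm_num)
    exact (hΦ (H x)).comp_hasFDerivAt x h1.hasFDerivAt
  have heq : ∀ x, v x * fderiv ℝ (fun x => Φ (H x)) x e = v x * (Φ' (H x) * D1 H x e) := by
    intro x
    by_cases hx : x ∈ R
    · rw [(hd x hx).fderiv]
      rfl
    · rw [image_eq_zero_of_notMem_tsupport fun h => hx (hs h)]
      simp
  have i2' : Integrable (fun x => v x * (Φ' (H x) * D1 H x e)) :=
    Df1_int hR hv.continuous hc hs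
      ((hΦ'.comp_continuousOn hHc).mul (Df1_D1 hR hH e).continuousOn)
  have i1 : Integrable (fun x => fderiv ℝ v x e * Φ (H x)) := by
    refine Df1_int hR (v := fun x => fderiv ℝ v x e) ?_ (hc.fderiv_apply (𝕜 := ℝ) e) ?_
      (hΦc.comp_continuousOn hHc)
    · exact (hv.continuous_fderiv (by norm_num)).clm_apply continuous_const
    · exact (tsupport_fderiv_apply_subset ℝ e).trans hs
  have i2 : Integrable (fun x => v x * fderiv ℝ (fun x => Φ (H x)) x e) := by
    simp only [heq]
    exact i2'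
  have i3 : Integrable (fun x => v x * Φ (H x)) :=
    Df1_int hR hv.continuous hc hs (hΦc.comp_continuousOn hHc)
  refine ⟨i2', i1, ?_⟩
  have := integral_mul_fderiv_eq_neg_fderiv_mul_of_integrable (μ := volume) (f := v)
    (g := fun x => Φ (H x)) (v := e) i1 i2 i3 (fun x _ => hv.differentiable (by norm_num) x)
    (fun x hx => (hd x (hs hx)).differentiableAt)
  rw [← this]
  exact integral_congr_ae (Eventually.of_forall fun x => (heq x).symm)

/-- a smooth approximation of the positive part -/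
noncomputable def Df1_th (c t : ℝ) : ℝ := (t + √(t ^ 2 + c)) / 2

/-- its derivative -/
noncomputable def Df1_th' (c t : ℝ) : ℝ := (1 + t / √(t ^ 2 + c)) / 2

theorem Df1_th_deriv {c : ℝ} (hc : 0 < c) (t : ℝ) : HasDerivAt (Df1_th c) (Df1_th' c t) t := by
  have h0 : t ^ 2 + c ≠ 0 := by positivity
  have h1 : HasDerivAt (fun t : ℝ => √(t ^ 2 + c)) (2 * t / (2 * √(t ^ 2 + c))) t := by
    have := ((hasDerivAt_pow 2 t).add_const c).sqrt h0
    simpa using this
  have h2 := ((hasDerivAt_id t).add h1).div_const 2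
  have h3 : 2 * t / (2 * √(t ^ 2 + c)) = t / √(t ^ 2 + c) := mul_div_mul_left _ _ two_ne_zero
  rw [h3] at h2
  exact h2

theorem Df1_th'_cont {c : ℝ} (hc : 0 < c) : Continuous (Df1_th' c) := by
  unfold Df1_th'
  have : ∀ t : ℝ, √(t ^ 2 + c) ≠ 0 := fun t => by positivity
  fun_prop (disch := assumption)

theorem Df1_th_le {c : ℝ} (hc1 : c ≤ 1) (t : ℝ) : |Df1_th c t| ≤ |t| + 1 := by
  have h1 : √(t ^ 2 + c) ≤ |t| + 1 := by
    rw [Real.sqrt_le_left (by positivity)]
    nlinarith [abs_nonneg t, sq_abs t]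
  have h2 : 0 ≤ √(t ^ 2 + c) := Real.sqrt_nonneg _
  unfold Df1_th
  rw [abs_le]
  constructor <;> linarith [neg_abs_le t, le_abs_self t]

theorem Df1_th'_le {c : ℝ} (hc : 0 < c) (t : ℝ) : |Df1_th' c t| ≤ 1 := by
  have h1 : |t| ≤ √(t ^ 2 + c) := by
    apply Real.le_sqrt_of_sq_le
    rw [sq_abs]
    linarith
  have h0 : 0 < √(t ^ 2 + c) := by positivity
  have h2 : |t / √(t ^ 2 + c)| ≤ 1 := by
    rw [abs_div, abs_of_pos h0]
    exact (div_le_one h0).2 h1
  unfold Df1_th'
  rw [abs_le] at h2 ⊢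
  constructor <;> linarith [h2.1, h2.2]

/-- the sequence of parameters -/
noncomputable def Df1_c (n : ℕ) : ℝ := 1 / ((n : ℝ) + 1)

theorem Df1_c_pos (n : ℕ) : 0 < Df1_c n := by unfold Df1_c; positivity

theorem Df1_c_le (n : ℕ) : Df1_c n ≤ 1 := by
  unfold Df1_c
  rw [div_le_one (by positivity)]
  have : (0:ℝ) ≤ n := Nat.cast_nonneg n
  linarith

theorem Df1_sqrt_tendsto (t : ℝ) :
    Tendsto (fun n => √(t ^ 2 + Df1_c n)) atTop (𝓝 |t|) := by
  have h1 : Tendsto (fun n => t ^ 2 + Df1_c n) atTop (𝓝 (t ^ 2 + 0)) :=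
    tendsto_const_nhds.add tendsto_one_div_add_atTop_nhds_zero_nat
  rw [add_zero] at h1
  have h2 := (Real.continuous_sqrt.tendsto (t ^ 2)).comp h1
  rw [Real.sqrt_sq_eq_abs] at h2
  exact h2

theorem Df1_th_tendsto (t : ℝ) : Tendsto (fun n => Df1_th (Df1_c n) t) atTop (𝓝 (max 0 t)) := by
  have h1 : Tendsto (fun n => (t + √(t ^ 2 + Df1_c n)) / 2) atTop (𝓝 ((t + |t|) / 2)) :=
    (tendsto_const_nhds.add (Df1_sqrt_tendsto t)).div_const 2
  have h2 : (t + |t|) / 2 = max 0 t := by
    rcases le_total 0 t with h | h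
    · rw [abs_of_nonneg h, max_eq_right h]
      ring
    · rw [abs_of_nonpos h, max_eq_left h]
      ring
  rw [h2] at h1
  exact h1

theorem Df1_th'_tendsto {t : ℝ} (ht : t ≠ 0) :
    Tendsto (fun n => Df1_th' (Df1_c n) t) atTop (𝓝 (if 0 < t then 1 else 0)) := by
  have h0 : |t| ≠ 0 := abs_ne_zero.2 ht
  have h1 : Tendsto (fun n => (1 + t / √(t ^ 2 + Df1_c n)) / 2) atTop (𝓝 ((1 + t / |t|) / 2)) :=
    (tendsto_const_nhds.add (tendsto_const_nhds.div (Df1_sqrt_tendsto t) h0)).div_const 2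
  have h2 : (1 + t / |t|) / 2 = if 0 < t then 1 else 0 := by
    rcases lt_or_gt_of_ne ht with h | h
    · rw [abs_of_neg h, if_neg (not_lt.2 h.le), div_neg, div_self ht]
      norm_num
    · rw [abs_of_pos h, if_pos h, div_self ht]
      norm_num
  rw [h2] at h1
  exact h1

/-- positive part formula: the integral of `W` over `{H < b}` -/
theorem Df1_formula [DecidableEq ι] {R : Set (ι → ℂ)} {H χ F : (ι → ℂ) → ℝ} (hR : IsOpen R)
    (hH : ContDiffOn ℝ 2 H R) (hHm : Measurable H)
    (hnull : ∀ E, volume {x | x ∈ R ∧ H x = E} = 0) (hχ : ContDiff ℝ 1 χ)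
    (hc : HasCompactSupport χ) (hs : tsupport χ ⊆ R) (hF : ContDiff ℝ 1 F) {τ : ℝ} (hτ : 0 < τ) :
    ∃ DIV : (ι → ℂ) → ℝ, Continuous DIV ∧ HasCompactSupport DIV ∧ tsupport DIV ⊆ R ∧
      ∀ b : ℝ, ∫ x in {x | x ∈ R ∧ H x < b}, χ x * F x * (gr2 H x / (gr2 H x + τ ^ 2)) =
        ∫ x, DIV x * max 0 (b - H x) := by
  classical
  have hgr : ContDiffOn ℝ 1 (gr2 H) R := by
    unfold gr2
    exact ContDiffOn.sum fun i _ => ((Df1_D1 hR hH _).pow 2).add ((Df1_D1 hR hH _).pow 2)
  have hgr0 : ∀ x, 0 ≤ gr2 H x := fun x => Finset.sum_nonneg fun i _ => by positivity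
  have hpos : ∀ x, gr2 H x + τ ^ 2 ≠ 0 := fun x => by
    have := hgr0 x
    positivity
  let k : (ι → ℂ) → ℝ := fun x => F x / (gr2 H x + τ ^ 2)
  have hk : ContDiffOn ℝ 1 k R := hF.contDiffOn.div (hgr.add contDiffOn_const) fun x _ => hpos x
  let g : (ι → ℂ) → (ι → ℂ) → ℝ := fun e x => χ x * (k x * D1 H x e)
  have hg : ∀ e, ContDiff ℝ 1 (g e) := fun e => Df1_mul hR hχ hs (hk.mul (Df1_D1 hR hH e))
  have hgc : ∀ e, HasCompactSupport (g e) := fun e => hc.mul_right
  have hgs : ∀ e, tsupport (g e) ⊆ tsupport χ := fun e => tsupport_mul_subset_left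
  let e₁ : ι → ι → ℂ := fun i => Pi.single i 1
  let e₂ : ι → ι → ℂ := fun i => Pi.single i Complex.I
  let dv : (ι → ℂ) → (ι → ℂ) → ℝ := fun e x => fderiv ℝ (g e) x e
  have hdv : ∀ e, Continuous (dv e) := fun e =>
    ((hg e).continuous_fderiv (by norm_num)).clm_apply continuous_const
  have hdvs : ∀ e, tsupport (dv e) ⊆ tsupport χ := fun e =>
    (tsupport_fderiv_apply_subset ℝ e).trans (hgs e)
  have hdv0 : ∀ e x, x ∉ tsupport χ → dv e x = 0 := fun e x hx =>
    image_eq_zero_of_notMem_tsupport fun h => hx (hdvs e h)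
  let DIV : (ι → ℂ) → ℝ := fun x => ∑ i, (dv (e₁ i) x + dv (e₂ i) x)
  have hDIV : Continuous DIV := continuous_finsetSum _ fun i _ => (hdv _).add (hdv _)
  have hDIV0 : ∀ x, x ∉ tsupport χ → DIV x = 0 := fun x hx =>
    Finset.sum_eq_zero fun i _ => by rw [hdv0 _ x hx, hdv0 _ x hx, add_zero]
  have hDIVs : tsupport DIV ⊆ tsupport χ := by
    refine closure_minimal (fun x hx => ?_) (isClosed_tsupport χ)
    by_contra h
    exact hx (hDIV0 x h)
  have hDIVc : HasCompactSupport DIV := hc.of_isClosed_subset (isClosed_tsupport _) hDIVs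
  have hDIVR : tsupport DIV ⊆ R := hDIVs.trans hs
  refine ⟨DIV, hDIV, hDIVc, hDIVR, fun b => ?_⟩
  let W : (ι → ℂ) → ℝ := fun x => χ x * F x * (gr2 H x / (gr2 H x + τ ^ 2))
  have hWR : ∀ x, x ∉ R → W x = 0 := by
    intro x hx
    have : χ x = 0 := image_eq_zero_of_notMem_tsupport fun h => hx (hs h)
    simp only [W, this, zero_mul]
  have hHc : ContinuousOn H R := hH.continuousOn
  have hWc : Continuous W := by
    have h1 : Continuous fun x => χ x * (F x * (gr2 H x / (gr2 H x + τ ^ 2))) :=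
      contDiff_zero.1 (Df1_mul hR (contDiff_zero.2 hχ.continuous) hs (contDiffOn_zero.2
        (hF.continuous.continuousOn.mul (hgr.continuousOn.div
          (hgr.continuousOn.add continuousOn_const) fun x _ => hpos x))))
    simpa only [W, mul_assoc] using h1
  have hWcs : HasCompactSupport W := by
    have : W = fun x => χ x * (F x * (gr2 H x / (gr2 H x + τ ^ 2))) := by
      funext x
      simp only [W, mul_assoc]
    rw [this]
    exact hc.mul_right
  -- the formula for the approximations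
  have happ : ∀ c : ℝ, 0 < c → ∫ x, W x * Df1_th' c (b - H x) =
      ∫ x, DIV x * Df1_th c (b - H x) := by
    intro c hc0
    have hΦ : ∀ t, HasDerivAt (fun s => Df1_th c (b - s)) (-Df1_th' c (b - t)) t := by
      intro t
      exact HasDerivAt.comp_const_sub b t (Df1_th_deriv hc0 (b - t))
    have hΦ' : Continuous fun t => -Df1_th' c (b - t) :=
      ((Df1_th'_cont hc0).comp (continuous_const.sub continuous_id)).neg
    have hP : ∀ e, Integrable (fun x => g e x * (Df1_th' c (b - H x) * D1 H x e)) ∧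
        Integrable (fun x => dv e x * Df1_th c (b - H x)) ∧
        ∫ x, g e x * (Df1_th' c (b - H x) * D1 H x e) = ∫ x, dv e x * Df1_th c (b - H x) := by
      intro e
      obtain ⟨a1, a2, a3⟩ := Df1_parts hR hH (hg e) (hgc e) ((hgs e).trans hs) hΦ hΦ' e
      have h1 : ∀ x, g e x * (-Df1_th' c (b - H x) * D1 H x e) =
          -(g e x * (Df1_th' c (b - H x) * D1 H x e)) := fun x => by ring
      simp only [h1] at a1 a3
      rw [integral_neg, neg_inj] at a3
      exact ⟨by simpa using a1.neg, a2, a3⟩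
    have h1 : ∀ x, W x * Df1_th' c (b - H x) =
        ∑ i, (g (e₁ i) x * (Df1_th' c (b - H x) * D1 H x (e₁ i)) +
          g (e₂ i) x * (Df1_th' c (b - H x) * D1 H x (e₂ i))) := by
      intro x
      have h2 : ∀ i, g (e₁ i) x * (Df1_th' c (b - H x) * D1 H x (e₁ i)) +
          g (e₂ i) x * (Df1_th' c (b - H x) * D1 H x (e₂ i)) =
          (χ x * k x * Df1_th' c (b - H x)) *
            ((D1 H x (Pi.single i 1)) ^ 2 + (D1 H x (Pi.single i Complex.I)) ^ 2) := by
        intro i
        simp only [g, e₁, e₂]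
        ring
      rw [Finset.sum_congr rfl fun i _ => h2 i, ← Finset.mul_sum]
      show χ x * F x * (gr2 H x / (gr2 H x + τ ^ 2)) * Df1_th' c (b - H x) =
        χ x * (F x / (gr2 H x + τ ^ 2)) * Df1_th' c (b - H x) * gr2 H x
      ring
    have h3 : ∀ x, DIV x * Df1_th c (b - H x) =
        ∑ i, (dv (e₁ i) x * Df1_th c (b - H x) + dv (e₂ i) x * Df1_th c (b - H x)) := by
      intro x
      simp only [DIV, Finset.sum_mul, add_mul]
    simp only [h1, h3]
    have J1 : ∀ i ∈ (Finset.univ : Finset ι), Integrable fun x =>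
        g (e₁ i) x * (Df1_th' c (b - H x) * D1 H x (e₁ i)) +
          g (e₂ i) x * (Df1_th' c (b - H x) * D1 H x (e₂ i)) := fun i _ =>
      (hP (e₁ i)).1.add (hP (e₂ i)).1
    have J2 : ∀ i ∈ (Finset.univ : Finset ι), Integrable fun x =>
        dv (e₁ i) x * Df1_th c (b - H x) + dv (e₂ i) x * Df1_th c (b - H x) := fun i _ =>
      (hP (e₁ i)).2.1.add (hP (e₂ i)).2.1
    rw [integral_finsetSum _ J1, integral_finsetSum _ J2]
    refine Finset.sum_congr rfl fun i _ => ?_
    rw [integral_add (hP (e₁ i)).1 (hP (e₂ i)).1, integral_add (hP (e₁ i)).2.1 (hP (e₂ i)).2.1,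
      (hP (e₁ i)).2.2, (hP (e₂ i)).2.2]
  -- limits
  have hl1 : Tendsto (fun n => ∫ x, W x * Df1_th' (Df1_c n) (b - H x)) atTop
      (𝓝 (∫ x, W x * (if H x < b then 1 else 0))) := by
    refine tendsto_integral_of_dominated_convergence (fun x => |W x|) (fun n => ?_)
      (hWc.abs.integrable_of_hasCompactSupport hWcs.norm) (fun n => ?_) ?_
    · exact (hWc.measurable.mul ((Df1_th'_cont (Df1_c_pos n)).measurable.comp
        (measurable_const.sub hHm))).aestronglyMeasurable
    · refine Eventually.of_forall fun x => ?_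
      rw [norm_mul, Real.norm_eq_abs, Real.norm_eq_abs]
      exact mul_le_of_le_one_right (abs_nonneg _) (Df1_th'_le (Df1_c_pos n) _)
    · have h1 : ∀ᵐ x, ¬ (x ∈ R ∧ H x = b) := measure_eq_zero_iff_ae_notMem.1 (hnull b)
      filter_upwards [h1] with x hx
      by_cases hxR : x ∈ R
      · have hne : b - H x ≠ 0 := fun h => hx ⟨hxR, by linarith⟩
        have h2 := (Df1_th'_tendsto hne).const_mul (W x)
        simpa only [sub_pos] using h2
      · simp only [hWR x hxR, zero_mul]
        exact tendsto_const_nhds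
  have hl2 : Tendsto (fun n => ∫ x, DIV x * Df1_th (Df1_c n) (b - H x)) atTop
      (𝓝 (∫ x, DIV x * max 0 (b - H x))) := by
    have hb : Integrable (fun x => DIV x * (|b - H x| + 1)) :=
      Df1_int hR hDIV hDIVc hDIVR (((continuousOn_const.sub hHc).abs).add continuousOn_const)
    refine tendsto_integral_of_dominated_convergence (fun x => ‖DIV x * (|b - H x| + 1)‖)
      (fun n => ?_) hb.norm (fun n => ?_) ?_
    · have h1 : Continuous (Df1_th (Df1_c n)) := continuous_iff_continuousAt.2 fun t =>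
        (Df1_th_deriv (Df1_c_pos n) t).continuousAt
      exact (hDIV.measurable.mul (h1.measurable.comp
        (measurable_const.sub hHm))).aestronglyMeasurable
    · refine Eventually.of_forall fun x => ?_
      rw [norm_mul, norm_mul]
      refine mul_le_mul_of_nonneg_left ?_ (norm_nonneg _)
      rw [Real.norm_eq_abs, Real.norm_eq_abs]
      exact (Df1_th_le (Df1_c_le n) _).trans (le_abs_self _)
    · exact Eventually.of_forall fun x => (Df1_th_tendsto _).const_mul (DIV x)
  have hlim := tendsto_nhds_unique hl1 (by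
    simp only [happ _ (Df1_c_pos _)]
    exact hl2)
  have hmeas : MeasurableSet {x | x ∈ R ∧ H x < b} :=
    hR.measurableSet.inter (measurableSet_lt hHm measurable_const)
  rw [← hlim, ← integral_indicator hmeas]
  refine integral_congr_ae (Eventually.of_forall fun x => ?_)
  by_cases hxR : x ∈ R
  · by_cases hxb : H x < b
    · rw [indicator_of_mem (show x ∈ {x | x ∈ R ∧ H x < b} from ⟨hxR, hxb⟩)]
      simp only [hxb, if_true, mul_one, W]
    · rw [indicator_of_notMem (show x ∉ {x | x ∈ R ∧ H x < b} from fun h => hxb h.2)]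
      simp only [hxb, if_false, mul_zero]
  · rw [indicator_of_notMem (show x ∉ {x | x ∈ R ∧ H x < b} from fun h => hxR h.1)]
    simp only [hWR x hxR, zero_mul]

end Df1

theorem taskDf1 : TaskDf1 := by
  intro ι _ _ R H χ F hR hH hHm hnull hχ hc hs hF τ hτ E
  obtain ⟨DIV, hDIV, hDIVc, hDIVR, hform⟩ := Df1_formula hR hH hHm hnull hχ hc hs hF hτ
  simp only [hform]
  have hi : Integrable DIV := hDIV.integrable_of_hasCompactSupport hDIVc
  have hm : ∀ t : ℝ, AEStronglyMeasurable (fun x => DIV x * max 0 (t - H x)) volume := fun t =>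
    (hDIV.measurable.mul (measurable_const.max
      (measurable_const.sub hHm))).aestronglyMeasurable
  have key := hasDerivAt_integral_of_dominated_loc_of_lip (μ := volume) (𝕜 := ℝ)
    (F := fun (t : ℝ) x => DIV x * max 0 (t - H x))
    (F' := fun x => DIV x * (if H x < E then 1 else 0)) (x₀ := E) (s := univ)
    (bound := fun x => |DIV x|) univ_mem (Eventually.of_forall hm) ?_ ?_ ?_ hi.abs ?_
  · exact key.2.differentiableAt
  · exact Df1_int hR hDIV hDIVc hDIVR (continuousOn_const.sup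
      (continuousOn_const.sub hH.continuousOn))
  · refine (hDIV.measurable.mul ?_).aestronglyMeasurable
    exact Measurable.ite (measurableSet_lt hHm measurable_const) measurable_const
      measurable_const
  · refine Eventually.of_forall fun x => LipschitzOnWith.of_dist_le_mul fun s _ t _ => ?_
    rw [Real.dist_eq, Real.dist_eq, ← mul_sub, abs_mul, Real.coe_nnabs, abs_abs]
    refine mul_le_mul_of_nonneg_left ?_ (abs_nonneg _)
    have h1 := abs_max_sub_max_le_abs (s - H x) (t - H x) 0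
    rw [max_comm 0 (s - H x), max_comm 0 (t - H x)]
    refine h1.trans (le_of_eq ?_)
    congr 1
    ring
  · have h1 : ∀ᵐ x, ¬ (x ∈ R ∧ H x = E) := measure_eq_zero_iff_ae_notMem.1 (hnull E)
    filter_upwards [h1] with x hx
    by_cases hxR : x ∈ R
    · rcases lt_trichotomy (H x) E with h | h | h
      · rw [if_pos h]
        refine HasDerivAt.const_mul (DIV x) ?_
        have h2 : HasDerivAt (fun t : ℝ => t - H x) 1 E := (hasDerivAt_id E).sub_const _
        refine h2.congr_of_eventuallyEq ?_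
        filter_upwards [lt_mem_nhds h] with t ht
        exact max_eq_right (by linarith)
      · exact absurd ⟨hxR, h⟩ hx
      · rw [if_neg (not_lt.2 h.le)]
        refine HasDerivAt.const_mul (DIV x) ?_
        refine (hasDerivAt_const E (0:ℝ)).congr_of_eventuallyEq ?_
        filter_upwards [gt_mem_nhds h] with t ht
        exact max_eq_left (by linarith)
    · have h0 : DIV x = 0 := image_eq_zero_of_notMem_tsupport fun h => hxR (hDIVR h)
      simp only [h0, zero_mul]
      exact hasDerivAt_const E (0:ℝ)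

end Pool.Agent.H836_PV
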