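import Pool.Agent.H836_PV.StmtsB

open MeasureTheory Filter Topology Set Metric

namespace Pool.Agent.H836_PV

/-- smooth cut-off function -/
theorem df2_cutoff {E : Type*} [NormedAddCommGroup E] [NormedSpace ℝ E] [FiniteDimensional ℝ E]
    {Q R : Set E} (hQ : IsCompact Q) (hR : IsOpen R) (hQR : Q ⊆ R) :
    ∃ χ : E → ℝ, ContDiff ℝ 1 χ ∧ HasCompactSupport χ ∧ tsupport χ ⊆ R ∧ (∀ x, 0 ≤ χ x) ∧
      (∀ x, χ x ≤ 1) ∧ ∀ x ∈ Q, χ x = 1 := by
  obtain ⟨K, hK, hQK, hKR⟩ := exists_compact_between hQ hR hQR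
  obtain ⟨f, hf, hr, hs, h1⟩ := exists_contMDiff_support_eq_eq_one_iff (n := 1)
    (modelWithCornersSelf ℝ E) isOpen_interior hQ.isClosed hQK
  have hts : tsupport f ⊆ K := by
    unfold tsupport
    rw [hs]
    exact closure_minimal interior_subset hK.isClosed
  refine ⟨f, hf.contDiff, ?_, hts.trans hKR, ?_, ?_, ?_⟩
  · exact hK.of_isClosed_subset (isClosed_tsupport f) hts
  · intro x; exact (hr (mem_range_self x)).1
  · intro x; exact (hr (mem_range_self x)).2
  · intro x hx; exact (h1 x).1 hx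

/-- smooth approximation on a compact set -/
theorem df2_approx {E : Type*} [NormedAddCommGroup E] [NormedSpace ℝ E] [FiniteDimensional ℝ E]
    {Q R : Set E} (hQ : IsCompact Q) (hR : IsOpen R) (hQR : Q ⊆ R) {F : E → ℝ}
    (hF : ContinuousOn F R) {κ : ℝ} (hκ : 0 < κ) :
    ∃ G : E → ℝ, ContDiff ℝ 1 G ∧ ∀ x ∈ Q, |F x - G x| ≤ κ := by
  obtain ⟨χ, h1, h2, h3, h4, h5, h6⟩ := df2_cutoff hQ hR hQR
  set f : E → ℝ := fun x => χ x * F x with hf
  have hfc : Continuous f := by
    rw [continuous_iff_continuousAt]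
    intro x
    by_cases hx : x ∈ tsupport χ
    · exact (h1.continuous.continuousAt).mul (hF.continuousAt (hR.mem_nhds (h3 hx)))
    · have h7 : (fun _ : E => (0 : ℝ)) =ᶠ[𝓝 x] f := by
        filter_upwards [(isClosed_tsupport χ).isOpen_compl.mem_nhds hx] with y hy
        simp [hf, image_eq_zero_of_notMem_tsupport hy]
      exact continuousAt_const.congr h7
  have hfs : HasCompactSupport f := h2.mul_right
  have hu : UniformContinuous f := HasCompactSupport.uniformContinuous_of_continuous hfs hfc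
  obtain ⟨G, hG1, hG2⟩ := hu.exists_contDiff_dist_le hκ
  refine ⟨G, hG1.of_le (by exact_mod_cast le_top), ?_⟩
  intro x hx
  have h8 := hG2 x
  rw [Real.dist_eq] at h8
  have h9 : f x = F x := by simp [hf, h6 x hx]
  rw [h9] at h8
  rw [abs_sub_comm]
  exact h8.le

/-- differentiability of a function that is close to differentiable functions -/
theorem df2_diff {φ : ℝ → ℝ} {E : ℝ} (h : ∀ κ : ℝ, 0 < κ → ∃ ψ : ℝ → ℝ, DifferentiableAt ℝ ψ E ∧
    ∀ t, |(φ t - φ E) - (ψ t - ψ E)| ≤ κ * |t - E|) : DifferentiableAt ℝ φ E := by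
  have hc : Cauchy (Filter.map (slope φ E) (𝓝[≠] E)) := by
    rw [Metric.cauchy_iff]
    refine ⟨inferInstance, ?_⟩
    intro ε hε
    obtain ⟨ψ, hψ, hb⟩ := h (ε / 4) (by linarith)
    have h1 := hasDerivAt_iff_tendsto_slope.mp hψ.hasDerivAt
    have h2 := Metric.tendsto_nhds.mp h1 (ε / 4) (by linarith)
    refine ⟨ball (deriv ψ E) (ε / 2), ?_, ?_⟩
    · rw [Filter.mem_map]
      filter_upwards [h2, self_mem_nhdsWithin] with t ht hne
      have hne' : t - E ≠ 0 := sub_ne_zero.mpr hne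
      rw [mem_preimage, mem_ball]
      have h3 : dist (slope φ E t) (slope ψ E t) ≤ ε / 4 := by
        rw [Real.dist_eq, slope_def_field, slope_def_field, ← sub_div, abs_div]
        exact div_le_of_le_mul₀ (abs_nonneg _) (by linarith) (hb t)
      have := dist_triangle (slope φ E t) (slope ψ E t) (deriv ψ E)
      linarith
    · intro x hx y hy
      rw [mem_ball] at hx hy
      have := dist_triangle_right x y (deriv ψ E)
      linarith
  obtain ⟨a, ha⟩ := CompleteSpace.complete hc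
  exact (hasDerivAt_iff_tendsto_slope.mpr ha).differentiableAt

theorem df2_shell {α : Type*} [MeasurableSpace α] {μ : Measure α} {R : Set α} {H f : α → ℝ}
    (hR : MeasurableSet R) (hH : Measurable H) (hf : IntegrableOn f R μ) {s t : ℝ} (hst : s ≤ t) :
    (∫ x in {x | x ∈ R ∧ H x < t}, f x ∂μ) - (∫ x in {x | x ∈ R ∧ H x < s}, f x ∂μ) =
      ∫ x in {x | x ∈ R ∧ s ≤ H x ∧ H x < t}, f x ∂μ := by
  have hu : {x | x ∈ R ∧ H x < t} = {x | x ∈ R ∧ H x < s} ∪ {x | x ∈ R ∧ s ≤ H x ∧ H x < t} := by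
    ext x
    simp only [mem_ofPred_eq, mem_union]
    constructor
    · rintro ⟨h1, h2⟩
      rcases lt_or_ge (H x) s with h | h
      · exact Or.inl ⟨h1, h⟩
      · exact Or.inr ⟨h1, h, h2⟩
    · rintro (⟨h1, h2⟩ | ⟨h1, h2, h3⟩)
      · exact ⟨h1, lt_of_lt_of_le h2 hst⟩
      · exact ⟨h1, h3⟩
  have hd : Disjoint {x | x ∈ R ∧ H x < s} {x | x ∈ R ∧ s ≤ H x ∧ H x < t} := by
    rw [Set.disjoint_left]
    rintro x ⟨_, h1⟩ ⟨_, h2, _⟩
    linarith
  have hm : MeasurableSet {x | x ∈ R ∧ s ≤ H x ∧ H x < t} := by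
    refine hR.inter ?_
    exact (measurableSet_le measurable_const hH).inter (measurableSet_lt hH measurable_const)
  rw [hu, setIntegral_union hd hm]
  · ring
  · exact hf.mono_set (fun x hx => hx.1)
  · exact hf.mono_set (fun x hx => hx.1)

theorem taskDf2 (hDf1 : TaskDf1) : TaskDf2 := by
  intro ι _ _ R H hRo hRfin hH2 hHm ⟨C, hC⟩ hQ hτ F hF ⟨CF, hCF⟩ E
  apply df2_diff
  intro κ hκ
  have hRm : MeasurableSet R := hRo.measurableSet
  set C0 : ℝ := max C 0 with hC0
  set CF0 : ℝ := max CF 0 with hCF0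
  have hC0' : 0 ≤ C0 := le_max_right _ _
  have hCF0' : 0 ≤ CF0 := le_max_right _ _
  have hCb : ∀ E δ : ℝ, 0 < δ →
      volume {x | x ∈ R ∧ E ≤ H x ∧ H x < E + δ} ≤ ENNReal.ofReal (C0 * δ) := by
    intro E δ hδ
    refine le_trans (hC E δ hδ) (ENNReal.ofReal_le_ofReal ?_)
    exact mul_le_mul_of_nonneg_right (le_max_left _ _) hδ.le
  have hFb : ∀ x ∈ R, |F x| ≤ CF0 := fun x hx => le_trans (hCF x hx) (le_max_left _ _)
  set D : ℝ := 2 * CF0 + 1 + (2 + CF0) * C0 with hD
  have hDpos : 0 < D := by positivity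
  set κ₁ : ℝ := min 1 (κ / D) with hκ₁
  have hκ₁pos : 0 < κ₁ := lt_min one_pos (div_pos hκ hDpos)
  have hκ₁le : κ₁ ≤ 1 := min_le_left _ _
  have hκ₁D : κ₁ * D ≤ κ := by
    have h1 : κ₁ ≤ κ / D := min_le_right _ _
    calc κ₁ * D ≤ κ / D * D := mul_le_mul_of_nonneg_right h1 hDpos.le
      _ = κ := div_mul_cancel₀ _ hDpos.ne'
  obtain ⟨Q, hQc, hQR, hQv⟩ := hQ κ₁ hκ₁pos
  obtain ⟨χ, hχ1, hχ2, hχ3, hχ4, hχ5, hχ6⟩ := df2_cutoff hQc hRo hQR
  have hQ'c : IsCompact (tsupport χ) := hχ2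
  obtain ⟨G, hG1, hG2⟩ := df2_approx hQ'c hRo hχ3 hF hκ₁pos
  obtain ⟨τ, hτpos, hτv⟩ := hτ (tsupport χ) hQ'c hχ3 κ₁ hκ₁pos
  set τ' : ℝ := τ * κ₁ with hτ'
  have hτ'pos : 0 < τ' := mul_pos hτpos hκ₁pos
  have hτ'sq : τ' ^ 2 ≤ κ₁ * τ ^ 2 := by
    rw [hτ', mul_pow]
    have : κ₁ ^ 2 ≤ κ₁ := by nlinarith
    nlinarith [sq_nonneg τ]
  have hnull : ∀ E, volume {x | x ∈ R ∧ H x = E} = 0 := by
    intro E
    have h1 : ∀ δ : ℝ, 0 < δ → volume {x | x ∈ R ∧ H x = E} ≤ ENNReal.ofReal (C0 * δ) := by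
      intro δ hδ
      refine le_trans (measure_mono ?_) (hCb E δ hδ)
      rintro x ⟨hx, hE⟩
      exact ⟨hx, hE.ge, by linarith⟩
    have h2 : Tendsto (fun δ : ℝ => ENNReal.ofReal (C0 * δ)) (𝓝[>] 0) (𝓝 0) := by
      have h3 : Tendsto (fun δ : ℝ => ENNReal.ofReal (C0 * δ)) (𝓝 0) (𝓝 (ENNReal.ofReal (C0 * 0))) :=
        (ENNReal.continuous_ofReal.comp (continuous_const.mul continuous_id)).tendsto 0
      rw [mul_zero, ENNReal.ofReal_zero] at h3
      exact h3.mono_left nhdsWithin_le_nhds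
    refine le_antisymm (ge_of_tendsto h2 ?_) bot_le
    filter_upwards [self_mem_nhdsWithin] with δ hδ
    exact h1 δ hδ
  set Γ : (ι → ℂ) → ℝ := gr2 H with hΓ
  have hΓ0 : ∀ x, 0 ≤ Γ x := by
    intro x
    rw [hΓ]
    unfold gr2
    exact Finset.sum_nonneg fun i _ => add_nonneg (sq_nonneg _) (sq_nonneg _)
  have hΓm : Measurable Γ := by
    rw [hΓ]
    unfold gr2 D1
    refine Finset.measurable_fun_sum _ fun i _ => ?_
    exact ((measurable_fderiv_apply_const ℝ H _).pow_const 2).add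
      ((measurable_fderiv_apply_const ℝ H _).pow_const 2)
  set P : (ι → ℂ) → ℝ := fun x => χ x * G x * (Γ x / (Γ x + τ' ^ 2)) with hP
  have hPm : Measurable P :=
    (hχ1.continuous.measurable.mul hG1.continuous.measurable).mul
      (hΓm.div (hΓm.add measurable_const))
  have hq0 : ∀ x, 0 ≤ Γ x / (Γ x + τ' ^ 2) := fun x => by
    have := hΓ0 x; positivity
  have hq1 : ∀ x, Γ x / (Γ x + τ' ^ 2) ≤ 1 := fun x => by
    have := hΓ0 x
    have h2 : 0 < Γ x + τ' ^ 2 := by positivity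
    rw [div_le_one h2]
    linarith [sq_nonneg τ']
  have hGb : ∀ x ∈ tsupport χ, |G x| ≤ CF0 + κ₁ := by
    intro x hx
    have h1 := hG2 x hx
    have h2 := hFb x (hχ3 hx)
    rw [abs_le] at h1 h2 ⊢
    constructor <;> linarith
  have hPb : ∀ x, |P x| ≤ CF0 + κ₁ := by
    intro x
    by_cases hx : x ∈ tsupport χ
    · rw [hP]
      simp only
      rw [abs_mul, abs_mul, abs_of_nonneg (hχ4 x), abs_of_nonneg (hq0 x)]
      have h1 := hGb x hx
      have h3 : χ x * |G x| ≤ CF0 + κ₁ := by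
        calc χ x * |G x| ≤ 1 * |G x| := mul_le_mul_of_nonneg_right (hχ5 x) (abs_nonneg _)
          _ ≤ CF0 + κ₁ := by rw [one_mul]; exact h1
      calc χ x * |G x| * (Γ x / (Γ x + τ' ^ 2)) ≤ χ x * |G x| * 1 :=
            mul_le_mul_of_nonneg_left (hq1 x) (mul_nonneg (hχ4 x) (abs_nonneg _))
        _ ≤ CF0 + κ₁ := by rw [mul_one]; exact h3
    · have : χ x = 0 := image_eq_zero_of_notMem_tsupport hx
      rw [hP]
      simp only [this, zero_mul, abs_zero]
      positivity
  have hFint : IntegrableOn F R volume := by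
    have : IsFiniteMeasure (volume.restrict R) := ⟨by simpa using hRfin.lt_top⟩
    refine Integrable.of_bound (hF.aestronglyMeasurable hRm) CF0 ?_
    exact (ae_restrict_iff' hRm).mpr (ae_of_all _ fun x hx => hFb x hx)
  have hPint : IntegrableOn P R volume := by
    refine Measure.integrableOn_of_bounded hRfin hPm.aestronglyMeasurable (M := CF0 + κ₁) ?_
    exact ae_of_all _ fun x => hPb x
  refine ⟨fun t => ∫ x in {x | x ∈ R ∧ H x < t}, P x, ?_, ?_⟩
  · exact hDf1 ι R H χ G hRo hH2 hHm hnull hχ1 hχ2 hχ3 hG1 τ' hτ'pos E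
  -- pointwise bound
  set A1 : Set (ι → ℂ) := {x | x ∈ R ∧ x ∉ Q} with hA1
  set A2 : Set (ι → ℂ) := {x | x ∈ tsupport χ ∧ Γ x ≤ τ ^ 2} with hA2
  have hA1m : MeasurableSet A1 := hRm.inter hQc.measurableSet.compl
  have hA2m : MeasurableSet A2 :=
    (isClosed_tsupport χ).measurableSet.inter (measurableSet_le hΓm measurable_const)
  have hpt : ∀ x ∈ R, |F x - P x| ≤ (κ₁ + (CF0 + κ₁) * κ₁) + A1.indicator (fun _ => CF0) x +
      A2.indicator (fun _ => CF0 + κ₁) x := by
    intro x hx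
    have hi1 : 0 ≤ A1.indicator (fun _ => CF0) x := indicator_nonneg (fun _ _ => hCF0') x
    have hi2 : 0 ≤ A2.indicator (fun _ => CF0 + κ₁) x :=
      indicator_nonneg (fun _ _ => by positivity) x
    have e1 : F x - P x = F x * (1 - χ x) + χ x * (F x - G x) +
        χ x * G x * (1 - Γ x / (Γ x + τ' ^ 2)) := by
      rw [hP]; ring
    have t1 : |F x * (1 - χ x)| ≤ A1.indicator (fun _ => CF0) x := by
      by_cases hxQ : x ∈ Q
      · rw [hχ6 x hxQ]
        simpa using hi1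
      · have : x ∈ A1 := ⟨hx, hxQ⟩
        rw [indicator_of_mem this, abs_mul, abs_of_nonneg (sub_nonneg.mpr (hχ5 x))]
        calc |F x| * (1 - χ x) ≤ |F x| * 1 := by
              apply mul_le_mul_of_nonneg_left _ (abs_nonneg _)
              linarith [hχ4 x]
          _ ≤ CF0 := by rw [mul_one]; exact hFb x hx
    have t2 : |χ x * (F x - G x)| ≤ κ₁ := by
      by_cases hxs : x ∈ tsupport χ
      · rw [abs_mul, abs_of_nonneg (hχ4 x)]
        calc χ x * |F x - G x| ≤ 1 * |F x - G x| :=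
              mul_le_mul_of_nonneg_right (hχ5 x) (abs_nonneg _)
          _ ≤ κ₁ := by rw [one_mul]; exact hG2 x hxs
      · rw [image_eq_zero_of_notMem_tsupport hxs, zero_mul, abs_zero]
        exact hκ₁pos.le
    have t3 : |χ x * G x * (1 - Γ x / (Γ x + τ' ^ 2))| ≤ (CF0 + κ₁) * κ₁ +
        A2.indicator (fun _ => CF0 + κ₁) x := by
      by_cases hxs : x ∈ tsupport χ
      · have h1 : |χ x * G x| ≤ CF0 + κ₁ := by
          rw [abs_mul, abs_of_nonneg (hχ4 x)]
          calc χ x * |G x| ≤ 1 * |G x| := mul_le_mul_of_nonneg_right (hχ5 x) (abs_nonneg _)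
            _ ≤ CF0 + κ₁ := by rw [one_mul]; exact hGb x hxs
        have h2 : 0 ≤ 1 - Γ x / (Γ x + τ' ^ 2) := by linarith [hq1 x]
        rw [abs_mul, abs_of_nonneg h2]
        by_cases hg : Γ x ≤ τ ^ 2
        · have : x ∈ A2 := ⟨hxs, hg⟩
          rw [indicator_of_mem this]
          have h3 : |χ x * G x| * (1 - Γ x / (Γ x + τ' ^ 2)) ≤ (CF0 + κ₁) * 1 := by
            apply mul_le_mul h1 _ h2 (by positivity)
            linarith [hq0 x]
          have h4 : 0 ≤ (CF0 + κ₁) * κ₁ := by positivity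
          linarith
        · push Not at hg
          have h3 : 1 - Γ x / (Γ x + τ' ^ 2) ≤ κ₁ := by
            have h5 : 0 < Γ x + τ' ^ 2 := by have := hΓ0 x; positivity
            have h6 : 1 - Γ x / (Γ x + τ' ^ 2) = τ' ^ 2 / (Γ x + τ' ^ 2) := by
              field_simp
              ring
            rw [h6, div_le_iff₀ h5]
            nlinarith [sq_nonneg τ']
          have h4 : |χ x * G x| * (1 - Γ x / (Γ x + τ' ^ 2)) ≤ (CF0 + κ₁) * κ₁ :=
            mul_le_mul h1 h3 h2 (by positivity)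
          linarith
      · rw [image_eq_zero_of_notMem_tsupport hxs, zero_mul, zero_mul, abs_zero]
        positivity
    rw [e1]
    have := abs_add_three (F x * (1 - χ x)) (χ x * (F x - G x))
      (χ x * G x * (1 - Γ x / (Γ x + τ' ^ 2)))
    linarith
  -- integrated bound
  have hmain : ∀ s t : ℝ, s < t →
      |((∫ x in {x | x ∈ R ∧ H x < t}, F x) - (∫ x in {x | x ∈ R ∧ H x < s}, F x)) -
        ((∫ x in {x | x ∈ R ∧ H x < t}, P x) - (∫ x in {x | x ∈ R ∧ H x < s}, P x))| ≤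
      κ * (t - s) := by
    intro s t hst
    rw [df2_shell hRm hHm hFint hst.le, df2_shell hRm hHm hPint hst.le]
    set S : Set (ι → ℂ) := {x | x ∈ R ∧ s ≤ H x ∧ H x < t} with hS
    have hSR : S ⊆ R := fun x hx => hx.1
    have hSm : MeasurableSet S := by
      refine hRm.inter ?_
      exact (measurableSet_le measurable_const hHm).inter (measurableSet_lt hHm measurable_const)
    have hSfin : volume S ≠ ⊤ := ne_top_of_le_ne_top hRfin (measure_mono hSR)
    have hst' : t = s + (t - s) := by ring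
    have hδ : 0 < t - s := by linarith
    have v0 : volume.real S ≤ C0 * (t - s) := by
      have := hCb s (t - s) hδ
      rw [← hst'] at this
      exact ENNReal.toReal_le_of_le_ofReal (by positivity) this
    have v1 : volume.real (S ∩ A1) ≤ κ₁ * (t - s) := by
      have h1 := hQv s (t - s) hδ
      rw [← hst'] at h1
      refine ENNReal.toReal_le_of_le_ofReal (by positivity) (le_trans (measure_mono ?_) h1)
      rintro x ⟨⟨h2, h3, h4⟩, h5, h6⟩
      exact ⟨h2, h6, h3, h4⟩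
    have v2 : volume.real (S ∩ A2) ≤ κ₁ * (t - s) := by
      have h1 := hτv s (t - s) hδ
      rw [← hst'] at h1
      refine ENNReal.toReal_le_of_le_ofReal (by positivity) (le_trans (measure_mono ?_) h1)
      rintro x ⟨⟨h2, h3, h4⟩, h5, h6⟩
      exact ⟨h5, h6, h3, h4⟩
    rw [← integral_sub (hFint.mono_set hSR) (hPint.mono_set hSR)]
    have i0 : IntegrableOn (fun _ : ι → ℂ => κ₁ + (CF0 + κ₁) * κ₁) S volume :=
      integrableOn_const hSfin
    have i1 : IntegrableOn (A1.indicator (fun _ => CF0)) S volume :=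
      (integrableOn_const hSfin).indicator hA1m
    have i2 : IntegrableOn (A2.indicator (fun _ => CF0 + κ₁)) S volume :=
      (integrableOn_const hSfin).indicator hA2m
    calc |∫ x in S, F x - P x| ≤ ∫ x in S, |F x - P x| := abs_integral_le_integral_abs
      _ ≤ ∫ x in S, ((κ₁ + (CF0 + κ₁) * κ₁) + A1.indicator (fun _ => CF0) x +
          A2.indicator (fun _ => CF0 + κ₁) x) := by
        refine setIntegral_mono_on ?_ ((i0.add i1).add i2) hSm fun x hx => hpt x (hSR hx)
        exact ((hFint.mono_set hSR).sub (hPint.mono_set hSR)).abs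
      _ = (κ₁ + (CF0 + κ₁) * κ₁) * volume.real S + CF0 * volume.real (S ∩ A1) +
          (CF0 + κ₁) * volume.real (S ∩ A2) := by
        have i01 : IntegrableOn (fun x => (κ₁ + (CF0 + κ₁) * κ₁) +
          A1.indicator (fun _ => CF0) x) S volume := i0.add i1
        rw [integral_add i01 i2, integral_add i0 i1]
        rw [setIntegral_indicator hA1m, setIntegral_indicator hA2m]
        simp only [setIntegral_const, smul_eq_mul]
        ring
      _ ≤ (κ₁ + (CF0 + κ₁) * κ₁) * (C0 * (t - s)) + CF0 * (κ₁ * (t - s)) +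
          (CF0 + κ₁) * (κ₁ * (t - s)) := by
        gcongr
      _ ≤ κ * (t - s) := by
        have h1 : (κ₁ + (CF0 + κ₁) * κ₁) * (C0 * (t - s)) + CF0 * (κ₁ * (t - s)) +
          (CF0 + κ₁) * (κ₁ * (t - s)) =
          κ₁ * ((1 + (CF0 + κ₁)) * C0 + CF0 + (CF0 + κ₁)) * (t - s) := by ring
        rw [h1]
        apply mul_le_mul_of_nonneg_right _ hδ.le
        refine le_trans ?_ hκ₁D
        apply mul_le_mul_of_nonneg_left _ hκ₁pos.le
        rw [hD]
        nlinarith
  intro t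
  rcases lt_trichotomy E t with h | h | h
  · have := hmain E t h
    rw [abs_of_pos (sub_pos.mpr h)]
    exact this
  · subst h
    simp
  · have := hmain t E h
    rw [abs_sub_comm t E, abs_of_pos (sub_pos.mpr h), ← abs_neg]
    refine le_trans (le_of_eq ?_) this
    congr 1
    ring

end Pool.Agent.H836_PV
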