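import Pool.Agent.H836_PV.StmtsB

open MeasureTheory Filter Topology Set Metric

namespace Pool.Agent.H836_PV

namespace Df3

/-- the compact sets -/
def QQ (Λ : Set ℂ) (ι : Type) (k : ℕ) : Set (ι → ℂ) :=
  {x | (∀ i, ball (x i) (Real.exp (-(k : ℝ))) ⊆ Λ) ∧
    ∀ i j, i ≠ j → Real.exp (-(k : ℝ)) ≤ ‖x i - x j‖}

theorem isClosed_ballset (Λ : Set ℂ) (r : ℝ) : IsClosed {z : ℂ | ball z r ⊆ Λ} := by
  rw [← isOpen_compl_iff]
  have : {z : ℂ | ball z r ⊆ Λ}ᶜ = ⋃ w ∈ Λᶜ, ball w r := by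
    ext z
    simp only [mem_compl_iff, mem_ofPred_eq, not_subset, mem_iUnion, mem_ball, exists_prop]
    constructor
    · rintro ⟨w, hw, hwΛ⟩
      exact ⟨w, hwΛ, by rw [dist_comm]; exact hw⟩
    · rintro ⟨w, hw, hzw⟩
      exact ⟨w, by rw [dist_comm]; exact hzw, hw⟩
  rw [this]
  exact isOpen_biUnion fun w _ => isOpen_ball

theorem isClosed_QQ (Λ : Set ℂ) (ι : Type) (k : ℕ) : IsClosed (QQ Λ ι k) := by
  have e : QQ Λ ι k = (⋂ i, (fun x : ι → ℂ => x i) ⁻¹' {z : ℂ | ball z (Real.exp (-(k : ℝ))) ⊆ Λ}) ∩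
      ⋂ i, ⋂ j, ⋂ (_ : i ≠ j), {x : ι → ℂ | Real.exp (-(k : ℝ)) ≤ ‖x i - x j‖} := by
    ext x
    simp only [QQ, mem_ofPred_eq, mem_inter_iff, mem_iInter, mem_preimage]
  rw [e]
  refine IsClosed.inter (isClosed_iInter fun i => ?_) (isClosed_iInter fun i => isClosed_iInter
    fun j => isClosed_iInter fun _ => ?_)
  · exact (isClosed_ballset Λ _).preimage (continuous_apply i)
  · exact isClosed_le continuous_const ((continuous_apply i).sub (continuous_apply j)).norm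

theorem QQ_sub (Λ : Set ℂ) (ι : Type) (k : ℕ) : QQ Λ ι k ⊆ RR Λ ι := by
  rintro x ⟨h1, h2⟩
  refine ⟨fun i => h1 i (mem_ball_self (Real.exp_pos _)), fun i j hij => ?_⟩
  by_contra hne
  have := h2 i j hne
  rw [hij, sub_self, norm_zero] at this
  exact absurd (Real.exp_pos (-(k : ℝ))) (not_lt.2 this)

theorem isCompact_QQ {Λ : Set ℂ} {D : ℝ} (hD : 0 ≤ D) (hΛ : ∀ x ∈ Λ, ‖x‖ ≤ D) (ι : Type)
    [Fintype ι] (k : ℕ) : IsCompact (QQ Λ ι k) := by
  refine Metric.isCompact_of_isClosed_isBounded (isClosed_QQ Λ ι k) ?_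
  refine (isBounded_closedBall (x := (0 : ι → ℂ)) (r := D)).subset ?_
  intro x hx
  rw [mem_closedBall, dist_zero_right, pi_norm_le_iff_of_nonneg hD]
  intro i
  exact hΛ _ ((QQ_sub Λ ι k hx).1 i)

/-- `y` outside `s` is not good if the glued configuration is not in `QQ` -/
theorem glue_not {Λ : Set ℂ} {ι : Type} [DecidableEq ι] {s : Finset ι}
    {y : {i // i ∉ s} → ℂ} {u : {i // i ∈ s} → ℂ} {r : ℝ} (hu : GoodAt Λ s y r u) {k : ℕ}
    (hr : Real.exp (-(k : ℝ)) ≤ r) (h : glue s u y ∉ QQ Λ ι k) : y ∉ QQ Λ {i // i ∉ s} k := by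
  intro hy
  apply h
  have gin : ∀ i (hi : i ∈ s), glue s u y i = u ⟨i, hi⟩ := fun i hi => by
    unfold glue; rw [dif_pos hi]
  have gout : ∀ i (hi : i ∉ s), glue s u y i = y ⟨i, hi⟩ := fun i hi => by
    unfold glue; rw [dif_neg hi]
  refine ⟨fun i => ?_, fun i j hij => ?_⟩
  · by_cases hi : i ∈ s
    · rw [gin i hi]
      exact (ball_subset_ball hr).trans (hu.bdry _)
    · rw [gout i hi]
      exact hy.1 _
  · by_cases hi : i ∈ s <;> by_cases hj : j ∈ s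
    · rw [gin i hi, gin j hj]
      exact hr.trans (hu.pair _ _ (fun h => hij (congrArg Subtype.val h)))
    · rw [gin i hi, gout j hj]
      exact hr.trans (hu.other _ _)
    · rw [gout i hi, gin j hj, norm_sub_rev]
      exact hr.trans (hu.other _ _)
    · rw [gout i hi, gout j hj]
      exact hy.2 _ _ (fun h => hij (congrArg Subtype.val h))

/-- volume of the complement of `QQ` -/
theorem vol_not_QQ (hU2 : TaskU2) {Λ : Set ℂ} {V CB : ℝ} (ho : IsOpen Λ) (hV : 1 ≤ V)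
    (hvol : volume Λ ≤ ENNReal.ofReal V) (hCB : 0 ≤ CB)
    (hl : ∀ r, 0 < r → r ≤ 1 → volume {x ∈ Λ | ¬ ball x r ⊆ Λ} ≤ ENNReal.ofReal (CB * r))
    (ι : Type) [Fintype ι] [DecidableEq ι] (k : ℕ) :
    volume {y : ι → ℂ | y ∈ cf Λ ι ∧ y ∉ QQ Λ ι k} ≤
      ENNReal.ofReal (2 * 2 ^ Fintype.card ι * V ^ Fintype.card ι *
        ((CB + 4 * Fintype.card ι) * Real.exp (-(k : ℝ)))) := by
  have h := hU2 Λ V CB ho hV hvol hCB hl ι 1 (Real.exp (-(k : ℝ))) (Real.exp_pos _)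
    (Real.exp_le_one_iff.2 (by simp))
  rw [show (1 + 1) / 2 = 1 from rfl, pow_one] at h
  refine (measure_mono ?_).trans h
  rintro y ⟨hy, hn⟩
  refine ⟨hy, ?_⟩
  by_contra hne
  rw [not_le, Nat.lt_one_iff, Set.ncard_eq_zero (toFinite _), Set.eq_empty_iff_forall_notMem] at hne
  apply hn
  have hg : ∀ i, Gd Λ Finset.univ (Real.exp (-(k : ℝ))) y i := fun i => by
    have := hne i
    simpa using this
  refine ⟨fun i => (hg i).1, fun i j hij => (hg i).2 j (Finset.mem_univ _) (Ne.symm hij)⟩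

/-- constant for the geometric series -/
theorem summ (K₁ : ℝ) (p : ℕ) (hp : 21 ≤ p) :
    ∑' m : ℕ, ENNReal.ofReal (K₁ * Real.exp (20 * (2 + m)) * Real.exp (-(1 + m)) ^ p) ≠ ⊤ := by
  have hle : ∀ m : ℕ, K₁ * Real.exp (20 * (2 + m)) * Real.exp (-(1 + m)) ^ p ≤
      |K₁| * Real.exp 19 * (Real.exp (-1)) ^ m := by
    intro m
    have e1 : K₁ * Real.exp (20 * (2 + m)) * Real.exp (-(1 + m)) ^ p ≤
        |K₁| * (Real.exp (20 * (2 + m)) * Real.exp (-(1 + m)) ^ p) := by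
      rw [mul_assoc]
      exact mul_le_mul_of_nonneg_right (le_abs_self _) (by positivity)
    refine e1.trans ?_
    rw [mul_assoc |K₁|]
    apply mul_le_mul_of_nonneg_left _ (abs_nonneg _)
    rw [← Real.exp_nat_mul, ← Real.exp_nat_mul, ← Real.exp_add, ← Real.exp_add, Real.exp_le_exp]
    have hp' : (21 : ℝ) ≤ p := by exact_mod_cast hp
    have hm : (0 : ℝ) ≤ m := Nat.cast_nonneg m
    nlinarith [mul_nonneg (by linarith : (0 : ℝ) ≤ p - 21) (by linarith : (0 : ℝ) ≤ 1 + m)]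
  have hs : Summable fun m : ℕ => |K₁| * Real.exp 19 * (Real.exp (-1)) ^ m := by
    apply Summable.mul_left
    exact summable_geometric_of_lt_one (Real.exp_pos _).le (by rw [Real.exp_lt_one_iff]; norm_num)
  refine ne_top_of_le_ne_top hs.tsum_ofReal_ne_top (ENNReal.tsum_le_tsum fun m => ?_)
  exact ENNReal.ofReal_le_ofReal (hle m)

theorem term (hU2 : TaskU2) {Λ : Set ℂ} {V CB : ℝ} (ho : IsOpen Λ) (hV : 1 ≤ V)
    (hvol : volume Λ ≤ ENNReal.ofReal V) (hCB : 0 ≤ CB)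
    (hl : ∀ r, 0 < r → r ≤ 1 → volume {x ∈ Λ | ¬ ball x r ⊆ Λ} ≤ ENNReal.ofReal (CB * r))
    {C : ℝ} (hC : 0 < C) (g : ℂ → ℂ → ℝ)
    (ι : Type) [Fintype ι] [DecidableEq ι] (hN : 60 ≤ Fintype.card ι) (c : ι → ℝ)
    (s : Finset ι) (κ : ℝ) (hκ : 0 < κ) :
    ∀ᶠ k : ℕ in atTop, ∀ E δ : ℝ, 0 < δ →
        (ENNReal.ofReal (C * δ * Fintype.card ι ^ 2 * Real.exp (20 * (1 : ℕ))) *
          volume {y : {i // i ∉ s} → ℂ | (∀ i, y i ∈ Λ) ∧
            ∃ u, GoodAt Λ s y (Real.exp (-(1 : ℕ))) u ∧ glue s u y ∈ (QQ Λ ι k)ᶜ ∧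
              E ≤ Ham g c (glue s u y)} +
        ∑' m : ℕ, ENNReal.ofReal (C * δ * Fintype.card ι ^ 2 * Real.exp (20 * ((1 : ℕ) + 1 + m))) *
          volume {y : {i // i ∉ s} → ℂ | (∀ i, y i ∈ Λ) ∧
            (∃ u, GoodAt Λ s y (Real.exp (-((1 : ℕ) + 1 + m))) u ∧ glue s u y ∈ (QQ Λ ι k)ᶜ) ∧
            Fintype.card ι ≤ 8 +
              Set.ncard {i | ¬ Gd Λ Finset.univ (2 * Real.exp (-((1 : ℕ) + m))) y i}}) ≤
      ENNReal.ofReal (κ * δ) := by
  set N := Fintype.card ι with hNdef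
  set n' := Fintype.card {i // i ∉ s} with hn'
  set p := (N - 8 + 1) / 2 with hp
  have hp21 : 21 ≤ p := by omega
  set B₀ : ℝ := 2 * 2 ^ n' * V ^ n' * (CB + 4 * n') with hB₀
  set Wc : ℝ := 2 * 2 ^ n' * V ^ n' * ((CB + 4 * n') * 2) ^ p with hWc
  have hV0 : 0 < V := by linarith
  have hB₀' : 0 ≤ B₀ := by positivity
  have hWc' : 0 ≤ Wc := by positivity
  set b : ℕ → ENNReal := fun k => ENNReal.ofReal (B₀ * Real.exp (-(k : ℝ))) with hb
  set e : ℕ → ENNReal := fun m => ENNReal.ofReal (C * N ^ 2 * Real.exp (20 * (2 + m))) with he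
  set e₀ : ENNReal := ENNReal.ofReal (C * N ^ 2 * Real.exp 20) with he₀
  set w : ℕ → ENNReal := fun m => ENNReal.ofReal (Wc * Real.exp (-(1 + m)) ^ p) with hw
  have hew : ∑' m, e m * w m ≠ ⊤ := by
    have := summ (C * N ^ 2 * Wc) p hp21
    convert this using 3 with m
    rw [he, hw]
    simp only
    rw [← ENNReal.ofReal_mul (by positivity)]
    congr 1
    ring
  -- the two bounds for the volumes
  have hvb : ∀ k m : ℕ, m ≤ k → volume {y : {i // i ∉ s} → ℂ | (∀ i, y i ∈ Λ) ∧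
      ∃ u, GoodAt Λ s y (Real.exp (-(m : ℝ))) u ∧ glue s u y ∈ (QQ Λ ι k)ᶜ} ≤ b k := by
    intro k m hmk
    have h1 := vol_not_QQ hU2 ho hV hvol hCB hl {i // i ∉ s} k
    rw [← hn'] at h1
    have h2 : b k = ENNReal.ofReal (2 * 2 ^ n' * V ^ n' * ((CB + 4 * n') * Real.exp (-(k : ℝ)))) := by
      rw [hb, hB₀]
      simp only
      congr 1
      ring
    rw [h2]
    refine (measure_mono ?_).trans h1
    rintro y ⟨hy, u, hu, hg⟩
    refine ⟨hy, glue_not hu ?_ hg⟩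
    rw [Real.exp_le_exp, neg_le_neg_iff]
    exact_mod_cast hmk
  have hvw : ∀ m : ℕ, volume {y : {i // i ∉ s} → ℂ | (∀ i, y i ∈ Λ) ∧
      N ≤ 8 + Set.ncard {i | ¬ Gd Λ Finset.univ (2 * Real.exp (-((1 : ℕ) + m))) y i}} ≤ w m := by
    intro m
    have hr1 : 2 * Real.exp (-((1 : ℕ) + m)) ≤ 1 := by
      have h1 : Real.exp (-((1 : ℕ) + m)) ≤ Real.exp (-1) := by
        rw [Real.exp_le_exp]
        have : (0 : ℝ) ≤ m := Nat.cast_nonneg m
        push_cast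
        linarith
      have h2 : Real.exp (-1) ≤ 1 / 2 := by
        rw [Real.exp_neg, one_div]
        apply inv_anti₀ (by norm_num)
        have := Real.add_one_le_exp (1 : ℝ)
        linarith
      linarith
    have h1 := hU2 Λ V CB ho hV hvol hCB hl {i // i ∉ s} (N - 8) (2 * Real.exp (-((1 : ℕ) + m)))
      (by positivity) hr1
    have h2 : w m = ENNReal.ofReal (2 * 2 ^ n' * V ^ n' *
        ((CB + 4 * n') * (2 * Real.exp (-((1 : ℕ) + m)))) ^ p) := by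
      rw [hw, hWc]
      simp only
      congr 1
      push_cast
      rw [← mul_assoc (CB + 4 * (n' : ℝ)), mul_pow ((CB + 4 * (n' : ℝ)) * 2)]
      ring
    rw [h2]
    refine (measure_mono ?_).trans h1
    rintro y ⟨hy, hn⟩
    exact ⟨hy, by omega⟩
  -- the tail
  have htail := ENNReal.tendsto_sum_nat_add (fun m => e m * w m) hew
  have hκ2 : (0 : ENNReal) < ENNReal.ofReal (κ / 2) := by
    rw [ENNReal.ofReal_pos]; linarith
  obtain ⟨M, hM⟩ := ((tendsto_order.1 htail).2 _ hκ2).exists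
  -- the main part
  have hmain : Tendsto (fun k => (e₀ + ∑ m ∈ Finset.range M, e m) * b k) atTop (𝓝 0) := by
    have h1 : Tendsto b atTop (𝓝 0) := by
      have h2 : Tendsto (fun k : ℕ => B₀ * Real.exp (-(k : ℝ))) atTop (𝓝 (B₀ * 0)) :=
        (Real.tendsto_exp_neg_atTop_nhds_zero.comp tendsto_natCast_atTop_atTop).const_mul B₀
      have h3 := ENNReal.tendsto_ofReal h2
      rw [mul_zero, ENNReal.ofReal_zero] at h3
      exact h3
    have h4 : e₀ + ∑ m ∈ Finset.range M, e m ≠ ⊤ := by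
      rw [ENNReal.add_ne_top]
      refine ⟨ENNReal.ofReal_ne_top, ?_⟩
      rw [ENNReal.sum_ne_top]
      exact fun m _ => ENNReal.ofReal_ne_top
    have h5 := ENNReal.Tendsto.const_mul h1 (Or.inr h4)
    rwa [mul_zero] at h5
  filter_upwards [(tendsto_order.1 hmain).2 _ hκ2, eventually_ge_atTop (M + 2)] with k hk hkM
  intro E δ hδ
  -- the terms
  have hfirst : ENNReal.ofReal (C * δ * N ^ 2 * Real.exp (20 * (1 : ℕ))) *
          volume {y : {i // i ∉ s} → ℂ | (∀ i, y i ∈ Λ) ∧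
            ∃ u, GoodAt Λ s y (Real.exp (-(1 : ℕ))) u ∧ glue s u y ∈ (QQ Λ ι k)ᶜ ∧
              E ≤ Ham g c (glue s u y)} ≤ ENNReal.ofReal δ * (e₀ * b k) := by
    rw [← mul_assoc]
    refine mul_le_mul' (le_of_eq ?_) ((measure_mono ?_).trans (hvb k 1 (by omega)))
    · rw [he₀, ← ENNReal.ofReal_mul hδ.le]
      congr 1
      rw [Nat.cast_one, mul_one]
      ring
    · rintro y ⟨hy, u, hu, hg, -⟩
      exact ⟨hy, u, hu, hg⟩
  set f : ℕ → ENNReal := fun m => ENNReal.ofReal (C * δ * N ^ 2 * Real.exp (20 * ((1 : ℕ) + 1 + m))) *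
          volume {y : {i // i ∉ s} → ℂ | (∀ i, y i ∈ Λ) ∧
            (∃ u, GoodAt Λ s y (Real.exp (-((1 : ℕ) + 1 + m))) u ∧ glue s u y ∈ (QQ Λ ι k)ᶜ) ∧
            N ≤ 8 +
              Set.ncard {i | ¬ Gd Λ Finset.univ (2 * Real.exp (-((1 : ℕ) + m))) y i}} with hf
  have hcoef : ∀ m : ℕ, ENNReal.ofReal (C * δ * N ^ 2 * Real.exp (20 * ((1 : ℕ) + 1 + m))) =
      ENNReal.ofReal δ * e m := by
    intro m
    rw [he]
    simp only
    rw [← ENNReal.ofReal_mul hδ.le]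
    congr 1
    push_cast
    rw [show (1 : ℝ) + 1 = 2 by norm_num]
    ring
  have hf1 : ∀ m, m < M → f m ≤ ENNReal.ofReal δ * (e m * b k) := by
    intro m hm
    rw [hf, ← mul_assoc]
    simp only
    refine mul_le_mul' (hcoef m).le ((measure_mono ?_).trans (hvb k (2 + m) (by omega)))
    rintro y ⟨hy, ⟨u, hu, hg⟩, -⟩
    refine ⟨hy, u, ?_, hg⟩
    have : ((2 + m : ℕ) : ℝ) = (1 : ℕ) + 1 + m := by push_cast; ring
    rw [this]
    exact hu
  have hf2 : ∀ m, f m ≤ ENNReal.ofReal δ * (e m * w m) := by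
    intro m
    rw [hf, ← mul_assoc]
    simp only
    refine mul_le_mul' (hcoef m).le ((measure_mono ?_).trans (hvw m))
    rintro y ⟨hy, -, hn⟩
    exact ⟨hy, hn⟩
  have hsum : ∑' m, f m ≤ ENNReal.ofReal δ * (∑ m ∈ Finset.range M, e m * b k) +
      ENNReal.ofReal δ * ∑' m, e (m + M) * w (m + M) := by
    rw [← (ENNReal.summable : Summable (fun n => f (n + M))).sum_add_tsum_nat_add']
    refine add_le_add ?_ ?_
    · rw [Finset.mul_sum]
      exact Finset.sum_le_sum fun m hm => hf1 m (Finset.mem_range.1 hm)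
    · rw [← ENNReal.tsum_mul_left]
      exact ENNReal.tsum_le_tsum fun m => hf2 (m + M)
  calc _ ≤ ENNReal.ofReal δ * (e₀ * b k) + (ENNReal.ofReal δ * (∑ m ∈ Finset.range M, e m * b k) +
      ENNReal.ofReal δ * ∑' m, e (m + M) * w (m + M)) := add_le_add hfirst hsum
    _ = ENNReal.ofReal δ * ((e₀ + ∑ m ∈ Finset.range M, e m) * b k +
        ∑' m, e (m + M) * w (m + M)) := by
      rw [← Finset.sum_mul]
      ring
    _ ≤ ENNReal.ofReal δ * (ENNReal.ofReal (κ / 2) + ENNReal.ofReal (κ / 2)) := by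
      gcongr
    _ = ENNReal.ofReal (κ * δ) := by
      rw [← ENNReal.ofReal_add (by linarith) (by linarith), ← ENNReal.ofReal_mul hδ.le]
      congr 1
      ring

end Df3

theorem taskDf3 (hUm : TaskUm) (hU2 : TaskU2) : TaskDf3 := by
  intro Λ g D C₃ cL CB hK
  obtain ⟨C, hC, hUm⟩ := hUm Λ g D C₃ cL CB hK
  refine ⟨60, ?_⟩
  intro ι _ _ hN c hc κ hκ
  have hvt : volume Λ ≠ ⊤ := by
    have : Λ ⊆ closedBall 0 D := fun x hx => by
      rw [mem_closedBall, dist_zero_right]; exact hK.norm_le x hx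
    exact ne_top_of_le_ne_top measure_closedBall_lt_top.ne (measure_mono this)
  set V : ℝ := max 1 (volume Λ).toReal with hVdef
  have hV : 1 ≤ V := le_max_left _ _
  have hvol : volume Λ ≤ ENNReal.ofReal V := by
    rw [← ENNReal.ofReal_toReal hvt]
    exact ENNReal.ofReal_le_ofReal (le_max_right _ _)
  set P := (Finset.univ : Finset ι).powersetCard 3 with hP
  have hκ' : 0 < κ / (P.card + 1) := by positivity
  have hev : ∀ᶠ k : ℕ in atTop, ∀ s ∈ P, ∀ E δ : ℝ, 0 < δ →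
        (ENNReal.ofReal (C * δ * Fintype.card ι ^ 2 * Real.exp (20 * (1 : ℕ))) *
          volume {y : {i // i ∉ s} → ℂ | (∀ i, y i ∈ Λ) ∧
            ∃ u, GoodAt Λ s y (Real.exp (-(1 : ℕ))) u ∧ glue s u y ∈ (Df3.QQ Λ ι k)ᶜ ∧
              E ≤ Ham g c (glue s u y)} +
        ∑' m : ℕ, ENNReal.ofReal (C * δ * Fintype.card ι ^ 2 * Real.exp (20 * ((1 : ℕ) + 1 + m))) *
          volume {y : {i // i ∉ s} → ℂ | (∀ i, y i ∈ Λ) ∧
            (∃ u, GoodAt Λ s y (Real.exp (-((1 : ℕ) + 1 + m))) u ∧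
              glue s u y ∈ (Df3.QQ Λ ι k)ᶜ) ∧
            Fintype.card ι ≤ 8 +
              Set.ncard {i | ¬ Gd Λ Finset.univ (2 * Real.exp (-((1 : ℕ) + m))) y i}}) ≤
      ENNReal.ofReal (κ / (P.card + 1) * δ) := by
    rw [Filter.eventually_all_finset]
    intro s _
    exact Df3.term hU2 hK.isOpen hV hvol hK.CB_nonneg hK.layer hC g ι hN c s _ hκ'
  obtain ⟨k, hk⟩ := hev.exists
  refine ⟨Df3.QQ Λ ι k, Df3.isCompact_QQ (by linarith [hK.one_le]) hK.norm_le ι k,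
    Df3.QQ_sub Λ ι k, ?_⟩
  intro E δ hδ
  have h := hUm ι (by omega) c hc (Df3.QQ Λ ι k)ᶜ (Df3.isClosed_QQ Λ ι k).measurableSet.compl 1 E δ hδ
  have hsub : {x | x ∈ RR Λ ι ∧ x ∉ Df3.QQ Λ ι k ∧ E ≤ Ham g c x ∧ Ham g c x < E + δ} ⊆
      cf Λ ι ∩ (Df3.QQ Λ ι k)ᶜ ∩ {x | E ≤ Ham g c x ∧ Ham g c x < E + δ} := by
    rintro x ⟨hx, hxQ, hE⟩
    exact ⟨⟨hx.1, hxQ⟩, hE⟩
  refine (measure_mono hsub).trans (h.trans ?_)
  refine (Finset.sum_le_card_nsmul P _ (ENNReal.ofReal (κ / (P.card + 1) * δ))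
    (fun s hs => hk s hs E δ hδ)).trans ?_
  rw [nsmul_eq_mul, ← ENNReal.ofReal_natCast, ← ENNReal.ofReal_mul (Nat.cast_nonneg _)]
  apply ENNReal.ofReal_le_ofReal
  have h1 : (P.card : ℝ) * (κ / (P.card + 1) * δ) = κ * δ * (P.card / (P.card + 1)) := by ring
  rw [h1]
  have h2 : (P.card : ℝ) / (P.card + 1) ≤ 1 := by
    rw [div_le_one (by positivity)]; linarith
  exact mul_le_of_le_one_right (by positivity) h2

end Pool.Agent.H836_PV
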