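import Pool.Agent.H836_PV.L3

/-!
# Task L
-/

open MeasureTheory Filter Topology Set Metric

namespace Pool.Agent.H836_PV

theorem taskL : TaskL := by
  have hπ := Real.pi_pos
  refine ⟨125000 * Real.pi ^ 3 * (3456 * 432 ^ 3), by positivity, ?_⟩
  intro κ _ hκ R D r L lam τ h h1 B hR hh hD hRD hr hr1 hlam hlam1 hL hτ hH hlevi E δ hδ
  have hL0 : 0 < L := by linarith
  have hD0 : 0 < D := by linarith
  set X : ℝ := 1 / r + L / lam with hX
  have hX0 : 0 < X := by positivity
  have hX1 : 1 ≤ X := by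
    have : 1 ≤ 1 / r := by rw [le_div_iff₀ hr]; linarith
    have : 0 < L / lam := by positivity
    linarith
  set ρ : ℝ := 1 / (432 * X) with hρ
  have hρ0 : 0 < ρ := by positivity
  have hρr : 12 * ρ < r := by
    have h1 : 1 / r ≤ X := by
      have : 0 < L / lam := by positivity
      linarith
    have h2 : 1 ≤ X * r := by rwa [div_le_iff₀ hr] at h1
    rw [hρ, mul_one_div, div_lt_iff₀ (by positivity)]
    nlinarith
  have hρL : 432 * L * ρ ≤ lam := by
    have h1 : L / lam ≤ X := by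
      have : 0 < 1 / r := by positivity
      linarith
    have h2 : L ≤ X * lam := by rwa [div_le_iff₀ hlam] at h1
    rw [hρ, mul_one_div, div_le_iff₀ (by positivity)]
    nlinarith
  have hρD : ρ ≤ D := by
    have : ρ ≤ 1 := by
      rw [hρ, div_le_one (by positivity)]; linarith
    linarith
  have hρinv : 1 / ρ = 432 * X := by rw [hρ]; field_simp
  have hmE : ∀ E δ : ℝ, MeasurableSet {u | E ≤ h u ∧ h u < E + δ} := fun E δ =>
    (measurableSet_le measurable_const hh).inter (measurableSet_lt hh measurable_const)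
  have hlam4 : 0 < lam / 4 := by positivity
  constructor
  · have key := assemble hκ (A := R ∩ {u | E ≤ h u ∧ h u < E + δ}) (hR.inter (hmE E δ))
      (D := D) (ρ := ρ) (Q := 72 * δ * ρ / (lam / 4)) (inter_subset_left.trans hRD) hρ0 hρD
      (by positivity) (by
        intro u₀ hu₀
        obtain ⟨W, hWc, hWn, hW⟩ := slice hκ hlam hL0 (hH u₀ hu₀.1) (hlevi u₀ hu₀.1) hρ0 hρr hρL
        refine ⟨W, hWc, hWn, fun u hu => ?_⟩
        obtain ⟨hSC, hcont, -⟩ := hW u hu
        refine (measure_mono ?_).trans (L1 (E := E) (δ := δ) hlam4 hρ0 hSC hcont hδ).1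
        rintro s ⟨hs, hs2⟩
        exact ⟨hs, hs2.2⟩)
    refine key.trans (ENNReal.ofReal_le_ofReal ?_)
    have e1 : 125000 * Real.pi ^ 3 * (72 * δ * ρ / (lam / 4) * D ^ 6 / ρ ^ 3) =
        125000 * Real.pi ^ 3 * (288 * (1 / ρ) ^ 2) * δ * D ^ 6 / lam := by
      field_simp; ring
    rw [e1, hρinv]
    have e2 : 125000 * Real.pi ^ 3 * (288 * (432 * X) ^ 2) * δ * D ^ 6 / lam =
      (125000 * Real.pi ^ 3 * (288 * 432 ^ 2)) * (δ * D ^ 6 / lam * X ^ 2) := by ring
    have e3 : 125000 * Real.pi ^ 3 * (3456 * 432 ^ 3) * δ * D ^ 6 / lam * X ^ 2 =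
      (125000 * Real.pi ^ 3 * (3456 * 432 ^ 3)) * (δ * D ^ 6 / lam * X ^ 2) := by ring
    rw [e2, e3]
    have h3 : (288 * 432 ^ 2 : ℝ) ≤ 3456 * 432 ^ 3 := by norm_num
    gcongr
  · intro hgrad
    -- subdivide
    obtain ⟨n, hn⟩ := exists_nat_gt (δ * lam / (18 * τ ^ 2))
    have hn0 : 0 < n := by
      have : (0:ℝ) < n := lt_of_le_of_lt (by positivity) hn
      exact_mod_cast this
    have hnR : (0:ℝ) < n := by exact_mod_cast hn0
    have hδn : δ / n ≤ 18 * τ ^ 2 / lam := by
      rw [div_lt_iff₀ (by positivity)] at hn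
      rw [div_le_div_iff₀ hnR hlam]
      nlinarith
    have hsl : 0 < Real.sqrt lam := Real.sqrt_pos.2 hlam
    have hslsq : Real.sqrt lam ^ 2 = lam := Real.sq_sqrt hlam.le
    have hsl4 : Real.sqrt (lam / 4) = Real.sqrt lam / 2 := by
      rw [Real.sqrt_div hlam.le]
      congr 1
      rw [show (4:ℝ) = 2 ^ 2 by norm_num]
      exact Real.sqrt_sq (by norm_num)
    set β : ℝ := 6 * τ / Real.sqrt lam with hβ
    have hβ0 : 0 ≤ β := by positivity
    have hβ2 : β ^ 2 = 36 * τ ^ 2 / lam := by rw [hβ, div_pow, hslsq]; ring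
    -- the bound for one slice
    have hpiece : ∀ E' : ℝ, volume (R ∩ {u | E' ≤ h u ∧ h u < E' + δ / n}) ≤
        ENNReal.ofReal (125000 * Real.pi ^ 3 *
          (72 * (δ / n) * β / (lam / 4 * Real.sqrt (lam / 4)) * D ^ 6 / ρ ^ 3)) := by
      intro E'
      apply assemble hκ (hR.inter (hmE E' _)) (inter_subset_left.trans hRD) hρ0 hρD
        (by positivity)
      intro u₀ hu₀
      obtain ⟨W, hWc, hWn, hW⟩ := slice hκ hlam hL0 (hH u₀ hu₀.1) (hlevi u₀ hu₀.1) hρ0 hρr hρL
      refine ⟨W, hWc, hWn, fun u hu => ?_⟩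
      obtain ⟨hSC, hcont, hgr⟩ := hW u hu
      rcases ({s | s ∈ closedBall (0 : R3) ρ ∧ u + W s ∈
          R ∩ {u | E' ≤ h u ∧ h u < E' + δ / n}}).eq_empty_or_nonempty with he | ⟨s₀, hs₀, hs₀'⟩
      · rw [he]; simp
      · refine (measure_mono ?_).trans
          ((L1 (E := E') (δ := δ / n) hlam4 hρ0 hSC hcont (by positivity)).2 β hβ0 ?_)
        · rintro s ⟨hs, hs2⟩
          exact ⟨hs, hs2.2⟩
        · intro s' hs'
          have k1 := hgr s₀ hs₀ τ hτ.le (hgrad _ hs₀'.1) s' hs'
          have k2 : h (u + W s₀) < E' + δ / n := hs₀'.2.2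
          rw [hβ2]
          have : 36 * τ ^ 2 / lam = 18 * τ ^ 2 / lam + 18 * τ ^ 2 / lam := by ring
          linarith
    -- union
    have hcover : R ∩ {u | E ≤ h u ∧ h u < E + δ} ⊆
        ⋃ k ∈ Finset.range n, R ∩ {u | E + k * (δ / n) ≤ h u ∧ h u < E + k * (δ / n) + δ / n} := by
      rintro u ⟨huR, hu1, hu2⟩
      have hq : 0 < δ / n := by positivity
      have h0 : 0 ≤ (h u - E) / (δ / n) := div_nonneg (by linarith) hq.le
      set k := ⌊(h u - E) / (δ / n)⌋₊ with hk
      have hk1 : (k : ℝ) ≤ (h u - E) / (δ / n) := Nat.floor_le h0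
      have hk2 : (h u - E) / (δ / n) < k + 1 := Nat.lt_floor_add_one _
      rw [le_div_iff₀ hq] at hk1
      rw [div_lt_iff₀ hq] at hk2
      have hkn : k < n := by
        have : (k : ℝ) * (δ / n) < n * (δ / n) := by
          have : n * (δ / n) = δ := by field_simp
          linarith
        exact_mod_cast lt_of_mul_lt_mul_right this hq.le
      simp only [mem_iUnion, Finset.mem_range, exists_prop]
      exact ⟨k, hkn, huR, by linarith, by linarith⟩
    calc volume (R ∩ {u | E ≤ h u ∧ h u < E + δ})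
        ≤ ∑ k ∈ Finset.range n, volume
            (R ∩ {u | E + k * (δ / n) ≤ h u ∧ h u < E + k * (δ / n) + δ / n}) :=
          (measure_mono hcover).trans (measure_biUnion_finset_le _ _)
      _ ≤ ∑ k ∈ Finset.range n, ENNReal.ofReal (125000 * Real.pi ^ 3 *
          (72 * (δ / n) * β / (lam / 4 * Real.sqrt (lam / 4)) * D ^ 6 / ρ ^ 3)) :=
          Finset.sum_le_sum fun k _ => hpiece _
      _ = ENNReal.ofReal (n * (125000 * Real.pi ^ 3 *
          (72 * (δ / n) * β / (lam / 4 * Real.sqrt (lam / 4)) * D ^ 6 / ρ ^ 3))) := by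
          rw [Finset.sum_const, Finset.card_range, nsmul_eq_mul,
            ENNReal.ofReal_mul (Nat.cast_nonneg n), ENNReal.ofReal_natCast]
      _ ≤ _ := by
          apply ENNReal.ofReal_le_ofReal
          have e1 : n * (125000 * Real.pi ^ 3 *
              (72 * (δ / n) * β / (lam / 4 * Real.sqrt (lam / 4)) * D ^ 6 / ρ ^ 3)) =
              125000 * Real.pi ^ 3 * (3456 * (1 / ρ) ^ 3) * (δ * D ^ 6 / lam ^ 2 * τ) := by
            rw [hsl4, hβ]
            have : Real.sqrt lam * Real.sqrt lam = lam := by rw [← sq]; exact hslsq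
            field_simp
            nlinarith [this]
          rw [e1, hρinv]
          apply le_of_eq
          ring

end Pool.Agent.H836_PV
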