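import Pool.Agent.H836_PV.U1b
import Pool.Agent.H836_PV.L

/-!
# Task Df4: near critical configurations
-/

open MeasureTheory Filter Topology Set Metric

namespace Pool.Agent.H836_PV

variable {ι : Type} [Fintype ι] [DecidableEq ι]
variable {Λ : Set ℂ} {g : ℂ → ℂ → ℝ} {D C₃ cL CB : ℝ}

omit [DecidableEq ι] in
/-- a common scale for a compact set of distinct configurations -/
theorem df4_scale (hΛ : IsOpen Λ) {Q : Set (ι → ℂ)} (hQ : IsCompact Q) (hQR : Q ⊆ RR Λ ι) :
    ∃ r : ℝ, 0 < r ∧ r ≤ 1 ∧ ∀ x ∈ Q, (∀ i, ball (x i) r ⊆ Λ) ∧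
      ∀ i j, i ≠ j → r ≤ ‖x i - x j‖ := by
  have h1 : ∀ i : ι, ∀ᶠ r : ℝ in 𝓝[>] 0, ∀ x ∈ Q, ball (x i) r ⊆ Λ := by
    intro i
    have hc : IsCompact ((fun x : ι → ℂ => x i) '' Q) := hQ.image (continuous_apply i)
    have hs : ((fun x : ι → ℂ => x i) '' Q) ⊆ Λ := by
      rintro _ ⟨x, hx, rfl⟩
      exact (hQR hx).1 i
    obtain ⟨δ, hδ, hδ2⟩ := hc.exists_thickening_subset_open hΛ hs
    filter_upwards [Ioo_mem_nhdsGT hδ] with r hr x hx z hz
    apply hδ2
    rw [mem_thickening_iff]
    exact ⟨x i, ⟨x, hx, rfl⟩, (mem_ball.1 hz).trans hr.2⟩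
  have h2 : ∀ i j : ι, ∀ᶠ r : ℝ in 𝓝[>] 0, i ≠ j → ∀ x ∈ Q, r ≤ ‖x i - x j‖ := by
    intro i j
    by_cases hij : i = j
    · exact Eventually.of_forall fun r h => absurd hij h
    by_cases hne : Q.Nonempty
    · obtain ⟨x₀, hx₀, hmin⟩ := hQ.exists_isMinOn hne (f := fun x : ι → ℂ => ‖x i - x j‖)
        (Continuous.continuousOn (by fun_prop))
      have hpos : 0 < ‖x₀ i - x₀ j‖ := by
        rw [norm_pos_iff, sub_ne_zero]
        exact fun h => hij ((hQR hx₀).2 h)
      filter_upwards [Ioo_mem_nhdsGT hpos] with r hr _ x hx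
      exact hr.2.le.trans (hmin hx)
    · rw [not_nonempty_iff_eq_empty] at hne
      subst hne
      exact Eventually.of_forall fun r _ x hx => absurd hx (notMem_empty x)
  have h3 : ∀ᶠ r : ℝ in 𝓝[>] 0, 0 < r ∧ r < 1 := Ioo_mem_nhdsGT one_pos
  obtain ⟨r, hr1, hr2, hr3⟩ := ((eventually_all.2 h1).and
    ((eventually_all.2 fun i => eventually_all.2 (h2 i)).and h3)).exists
  exact ⟨r, hr3.1, hr3.2.le, fun x hx => ⟨fun i => hr1 i x hx, fun i j hij => hr2 i j hij x hx⟩⟩

omit [DecidableEq ι] in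
theorem df4_measurableSet_cf (hΛ : IsOpen Λ) : MeasurableSet (cf Λ ι) := by
  have : cf Λ ι = ⋂ i, (fun x : ι → ℂ => x i) ⁻¹' Λ := by
    ext x; simp [cf]
  rw [this]
  exact MeasurableSet.iInter fun i => (measurable_pi_apply i) hΛ.measurableSet

omit [DecidableEq ι] in
/-- a globally measurable version of the Hamiltonian -/
theorem df4_meas (hK : Ker Λ g D C₃ cL CB) (c : ι → ℝ) :
    ∃ F : (ι → ℂ) → ℝ, Measurable F ∧ ∀ x ∈ cf Λ ι, F x = Ham g c x := by
  classical
  refine ⟨fun x => 1 / 2 * ∑ i, ∑ j, c i * c j *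
    ((cf Λ ι).piecewise (fun x => g (x i) (x j)) (fun _ => 0) x - Real.log ‖x i - x j‖), ?_, ?_⟩
  · have h1 : ∀ i j : ι, Measurable ((cf Λ ι).piecewise (fun x => g (x i) (x j)) (fun _ => 0)) := by
      intro i j
      apply ContinuousOn.measurable_piecewise
      · have h2 := hK.smooth.continuousOn
        have h3 : ContinuousOn (fun x : ι → ℂ => (x i, x j)) (cf Λ ι) :=
          Continuous.continuousOn (by fun_prop)
        exact h2.comp h3 fun x hx => ⟨hx i, hx j⟩
      · exact continuousOn_const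
      · exact df4_measurableSet_cf hK.isOpen
    apply Measurable.const_mul
    apply Finset.measurable_fun_sum
    intro i _
    apply Finset.measurable_fun_sum
    intro j _
    apply Measurable.const_mul
    apply (h1 i j).sub
    apply Real.measurable_log.comp
    fun_prop
  · intro x hx
    unfold Ham K
    refine congrArg (fun z => 1 / 2 * z) ?_
    apply Finset.sum_congr rfl; intro i _
    apply Finset.sum_congr rfl; intro j _
    rw [Set.piecewise_eq_of_mem _ _ _ hx]

omit [DecidableEq ι] in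
theorem df4_diff (hK : Ker Λ g D C₃ cL CB) (c : ι → ℝ) {x : ι → ℂ} (hx : x ∈ RR Λ ι) :
    DifferentiableAt ℝ (Ham g c) x := by
  unfold Ham
  apply DifferentiableAt.const_mul
  apply DifferentiableAt.fun_sum
  intro i _
  apply DifferentiableAt.fun_sum
  intro j _
  apply DifferentiableAt.const_mul
  unfold K
  have h1 : DifferentiableAt ℝ (fun p : ℂ × ℂ => g p.1 p.2) (x i, x j) := by
    apply (hK.smooth.contDiffAt ?_).differentiableAt (by norm_num)
    exact (hK.isOpen.prod hK.isOpen).mem_nhds ⟨hx.1 i, hx.1 j⟩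
  have h2 : DifferentiableAt ℝ (fun y : ι → ℂ => g (y i) (y j)) x := by
    have h3 : DifferentiableAt ℝ (fun y : ι → ℂ => (y i, y j)) x := by fun_prop
    exact DifferentiableAt.comp (g := fun p : ℂ × ℂ => g p.1 p.2) x h1 h3
  apply h2.sub
  by_cases hij : i = j
  · subst hij
    simp
  · apply DifferentiableAt.log
    · apply DifferentiableAt.norm ℝ
      · fun_prop
      · rw [sub_ne_zero]
        exact fun h => hij (hx.2 h)
    · rw [norm_ne_zero_iff, sub_ne_zero]
      exact fun h => hij (hx.2 h)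

omit [Fintype ι] in
theorem df4_glue_line (s : Finset ι) (u a : {i // i ∈ s} → ℂ) (y : {i // i ∉ s} → ℂ) (t : ℝ) :
    glue s (u + t • a) y = glue s u y + t • glue s a 0 := by
  ext i
  by_cases hi : i ∈ s <;> simp [glue, hi]

/-- the gradient controls all directional derivatives -/
theorem df4_grad {H : (ι → ℂ) → ℝ} {x : ι → ℂ} {τ : ℝ} (hτ : 0 ≤ τ) (h : gr2 H x ≤ τ ^ 2)
    (v : ι → ℂ) : |fderiv ℝ H x v| ≤ ∑ i, 2 * τ * ‖v i‖ := by
  have h1 : ∀ i, |D1 H x (Pi.single i 1)| ≤ τ ∧ |D1 H x (Pi.single i Complex.I)| ≤ τ := by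
    intro i
    have h2 : (D1 H x (Pi.single i 1)) ^ 2 + (D1 H x (Pi.single i Complex.I)) ^ 2 ≤ gr2 H x := by
      unfold gr2
      exact Finset.single_le_sum (f := fun i => (D1 H x (Pi.single i 1)) ^ 2 +
        (D1 H x (Pi.single i Complex.I)) ^ 2) (fun j _ => by positivity) (Finset.mem_univ i)
    constructor
    · apply abs_le_of_sq_le_sq _ hτ
      linarith [sq_nonneg (D1 H x (Pi.single i Complex.I))]
    · apply abs_le_of_sq_le_sq _ hτ
      linarith [sq_nonneg (D1 H x (Pi.single i 1))]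
  have h2 : v = ∑ i, ((v i).re • (Pi.single i 1 : ι → ℂ) + (v i).im • (Pi.single i Complex.I : ι → ℂ)) := by
    ext j
    simp only [Finset.sum_apply, Pi.add_apply, Pi.smul_apply, Pi.single_apply]
    rw [Finset.sum_eq_single j]
    · simp
    · intro i _ hij
      simp [hij.symm]
    · simp
  have h3 : fderiv ℝ H x v = ∑ i, ((v i).re * D1 H x (Pi.single i 1) +
      (v i).im * D1 H x (Pi.single i Complex.I)) := by
    conv_lhs => rw [h2]
    rw [map_sum]
    apply Finset.sum_congr rfl; intro i _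
    rw [map_add, map_smul, map_smul]
    rfl
  rw [h3]
  refine (Finset.abs_sum_le_sum_abs _ _).trans (Finset.sum_le_sum fun i _ => ?_)
  refine (abs_add_le _ _).trans ?_
  rw [abs_mul, abs_mul]
  have h4 := Complex.abs_re_le_norm (v i)
  have h5 := Complex.abs_im_le_norm (v i)
  have h6 := (h1 i).1
  have h7 := (h1 i).2
  have h8 : |(v i).re| * |D1 H x (Pi.single i 1)| ≤ ‖v i‖ * τ := by gcongr
  have h9 : |(v i).im| * |D1 H x (Pi.single i Complex.I)| ≤ ‖v i‖ * τ := by gcongr
  linarith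

theorem df4_HH1 (hK : Ker Λ g D C₃ cL CB) {c : ι → ℝ} (hc : ∀ i, |c i| = 1) {s : Finset ι}
    (hs : s.card = 3) {y : {i // i ∉ s} → ℂ} (hy : ∀ i, y i ∈ Λ) {u : {i // i ∈ s} → ℂ} {r : ℝ}
    (hr : 0 < r) (hr1 : r ≤ 1) (hG : GoodAt Λ s y r u) (hx : glue s u y ∈ RR Λ ι) {τ : ℝ}
    (hτ : 0 ≤ τ) (hgr : gr2 (Ham g c) (glue s u y) ≤ τ ^ 2) (a : {i // i ∈ s} → ℂ) :
    |HH1 g c s y u a| ≤ 6 * τ * ‖a‖ := by
  have h1 := (hess_Ham hK hc hs hy hr hr1 hG).d1 u (mem_ball_self (by positivity)) a
  have h2 : HasDerivAt (fun t : ℝ => Ham g c (glue s (u + t • a) y))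
      (fderiv ℝ (Ham g c) (glue s u y) (glue s a 0)) 0 := by
    have h3 := (df4_diff hK c hx).hasFDerivAt
    have h4 : HasDerivAt (fun t : ℝ => glue s u y + t • glue s a 0) (glue s a 0) 0 := by
      simpa using ((hasDerivAt_id (0 : ℝ)).smul_const (glue s a 0)).const_add (glue s u y)
    have h5 : HasFDerivAt (Ham g c) (fderiv ℝ (Ham g c) (glue s u y))
        (glue s u y + (0 : ℝ) • glue s a 0) := by simpa using h3
    have h6 := h5.comp_hasDerivAt (0 : ℝ) h4
    have e : (fun t : ℝ => Ham g c (glue s (u + t • a) y)) =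
        Ham g c ∘ fun t : ℝ => glue s u y + t • glue s a 0 := by
      ext t
      simp [df4_glue_line]
    rw [e]
    exact h6
  rw [h1.unique h2]
  refine (df4_grad hτ hgr _).trans ?_
  have h3 : ∀ i, 2 * τ * ‖glue s a 0 i‖ ≤ if i ∈ s then 2 * τ * ‖a‖ else 0 := by
    intro i
    by_cases hi : i ∈ s
    · simp only [glue, hi, dif_pos, if_true]
      gcongr
      exact norm_le_pi_norm a ⟨i, hi⟩
    · simp [glue, hi]
  refine (Finset.sum_le_sum fun i _ => h3 i).trans (le_of_eq ?_)
  rw [Finset.sum_ite_mem, Finset.univ_inter, Finset.sum_const, hs]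
  simp only [nsmul_eq_mul]
  push_cast
  ring

omit [Fintype ι] in
theorem df4_glue_eq (s : Finset ι) (u : {i // i ∈ s} → ℂ) (y : {i // i ∉ s} → ℂ) :
    glue s u y = (MeasurableEquiv.piEquivPiSubtypeProd (fun _ : ι => ℂ) (fun i => i ∈ s)).symm
      (u, y) := by
  ext i
  by_cases hi : i ∈ s <;> simp [glue, hi, MeasurableEquiv.piEquivPiSubtypeProd,
    Equiv.piEquivPiSubtypeProd]

theorem df4_fubini (s : Finset ι) {S : Set (ι → ℂ)} (hS : MeasurableSet S) :
    volume S = ∫⁻ y : {i // i ∉ s} → ℂ, volume {u : {i // i ∈ s} → ℂ | glue s u y ∈ S} := by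
  have hmp := volume_preserving_piEquivPiSubtypeProd (fun _ : ι => ℂ) (fun i => i ∈ s)
  have h1 := (MeasurePreserving.symm _ hmp).measure_preimage hS.nullMeasurableSet
  rw [← h1, Measure.volume_eq_prod, Measure.prod_apply_symm]
  · have hI : (Subtype.fintype fun i => i ∈ s) = Finset.Subtype.fintype s := Subsingleton.elim _ _
    rw [hI]
    rfl
  · exact (MeasurableEquiv.piEquivPiSubtypeProd (fun _ : ι => ℂ) (fun i => i ∈ s)).symm.measurable hS

omit [Fintype ι] in
theorem df4_glue_measurable (s : Finset ι) (y : {i // i ∉ s} → ℂ) :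
    Measurable fun u : {i // i ∈ s} → ℂ => glue s u y := by
  apply measurable_pi_lambda
  intro i
  by_cases hi : i ∈ s
  · simp only [glue, hi, dif_pos]
    exact measurable_pi_apply _
  · simp [glue, hi]

theorem df4_gr2_measurable (H : (ι → ℂ) → ℝ) : Measurable (gr2 H) := by
  unfold gr2 D1
  apply Finset.measurable_fun_sum
  intro i _
  exact ((measurable_fderiv_apply_const ℝ H _).pow_const 2).add
    ((measurable_fderiv_apply_const ℝ H _).pow_const 2)

theorem taskDf4 : TaskDf4 := by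
  intro Λ g D C₃ cL CB hK ι _ _ hcard c hc Q hQ hQR κ hκ
  obtain ⟨C, hC, hL⟩ := taskL
  obtain ⟨r, hr, hr1, hrQ⟩ := df4_scale hK.isOpen hQ hQR
  obtain ⟨s, -, hs⟩ := Finset.exists_subset_card_eq (s := (Finset.univ : Finset ι)) (n := 3)
    (by rwa [Finset.card_univ])
  obtain ⟨F, hFm, hF⟩ := df4_meas hK c
  have hC3 := hK.C₃_nonneg
  have hcL := hK.cL_pos
  have hD1 := hK.one_le
  set L : ℝ := max 1 (3 * (C₃ + 1024) * Fintype.card ι / r ^ 4) with hLdef
  set lam : ℝ := min 1 (cL * r ^ 4) with hlam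
  have hL1 : 1 ≤ L := le_max_left _ _
  have hlam0 : 0 < lam := lt_min one_pos (by positivity)
  have hlam1 : lam ≤ 1 := min_le_left _ _
  set A : ℝ := C * D ^ 6 / lam ^ 2 * (1 / (r / 4) + L / lam) ^ 3 * 6 with hA
  have hD0 : 0 < D := by linarith
  have hA0 : 0 < A := by positivity
  -- the volume of the other coordinates
  set V := volume {y : {i // i ∉ s} → ℂ | ∀ i, y i ∈ Λ} with hV
  have hVtop : V ≠ ⊤ := by
    have : {y : {i // i ∉ s} → ℂ | ∀ i, y i ∈ Λ} ⊆ closedBall 0 D := by
      intro y hy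
      rw [mem_closedBall_zero_iff, pi_norm_le_iff_of_nonneg hD0.le]
      exact fun i => hK.norm_le _ (hy i)
    exact ((measure_mono this).trans_lt measure_closedBall_lt_top).ne
  have hVm : MeasurableSet {y : {i // i ∉ s} → ℂ | ∀ i, y i ∈ Λ} :=
    df4_measurableSet_cf (ι := {i // i ∉ s}) hK.isOpen
  set τ : ℝ := κ / (A * V.toReal + 1) with hτdef
  have hVr : 0 ≤ V.toReal := ENNReal.toReal_nonneg
  have hτ : 0 < τ := by positivity
  refine ⟨τ, hτ, fun E δ hδ => ?_⟩
  have hQm : MeasurableSet Q := hQ.isClosed.measurableSet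
  set S : Set (ι → ℂ) := {x | x ∈ Q ∧ gr2 (Ham g c) x ≤ τ ^ 2 ∧ E ≤ Ham g c x ∧ Ham g c x < E + δ}
    with hSdef
  have hScf : ∀ x ∈ Q, F x = Ham g c x := fun x hx => hF x (hQR hx).1
  have hS' : S = Q ∩ ({x | gr2 (Ham g c) x ≤ τ ^ 2} ∩ ({x | E ≤ F x} ∩ {x | F x < E + δ})) := by
    ext x
    simp only [hSdef, mem_ofPred_eq, mem_inter_iff]
    constructor
    · rintro ⟨h1, h2, h3, h4⟩
      rw [← hScf x h1] at h3 h4
      exact ⟨h1, h2, h3, h4⟩
    · rintro ⟨h1, h2, h3, h4⟩
      rw [hScf x h1] at h3 h4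
      exact ⟨h1, h2, h3, h4⟩
  have hgm := df4_gr2_measurable (Ham g c)
  have hSm : MeasurableSet S := by
    rw [hS']
    exact hQm.inter ((measurableSet_le hgm measurable_const).inter
      ((measurableSet_le measurable_const hFm).inter (measurableSet_lt hFm measurable_const)))
  rw [df4_fubini s hSm]
  -- the bound for fixed `y`
  have key : ∀ y : {i // i ∉ s} → ℂ, volume {u : {i // i ∈ s} → ℂ | glue s u y ∈ S} ≤
      {y : {i // i ∉ s} → ℂ | ∀ i, y i ∈ Λ}.indicator
        (fun _ => ENNReal.ofReal (A * τ * δ)) y := by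
    intro y
    by_cases hy : ∀ i, y i ∈ Λ
    · rw [indicator_of_mem (by exact hy)]
      set R : Set ({i // i ∈ s} → ℂ) := {u | glue s u y ∈ Q ∧
        gr2 (Ham g c) (glue s u y) ≤ τ ^ 2} with hR
      have hgl := df4_glue_measurable s y
      have hRm : MeasurableSet R := (hgl hQm).inter
        (measurableSet_le (hgm.comp hgl) measurable_const)
      have hval : ∀ (u : {i // i ∈ s} → ℂ) (i : {i // i ∈ s}), glue s u y i = u i := by
        intro u i
        simp [glue]
      have hval' : ∀ (u : {i // i ∈ s} → ℂ) (i : {i // i ∉ s}), glue s u y i = y i := by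
        intro u i
        simp [glue, i.2]
      have hGood : ∀ u ∈ R, GoodAt Λ s y r u := by
        intro u hu
        obtain ⟨h1, h2⟩ := hrQ _ hu.1
        constructor
        · intro i
          have := h1 i
          rwa [hval] at this
        · intro i j hij
          have := h2 i j (fun h => hij (Subtype.ext h))
          rwa [hval, hval] at this
        · intro i j
          have := h2 i j (fun h => j.2 (h ▸ i.2))
          rwa [hval, hval'] at this
      have hRD : R ⊆ closedBall 0 D := by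
        intro u hu
        rw [mem_closedBall_zero_iff, pi_norm_le_iff_of_nonneg hD0.le]
        intro i
        have := hK.norm_le _ ((hQR hu.1).1 i)
        rwa [hval] at this
      have hres := (hL {i // i ∈ s} (by simpa using hs) R D (r / 4) L lam (6 * τ)
        (fun u => F (glue s u y)) (HH1 g c s y) (HH2 g c s y) hRm (hFm.comp hgl) hD1 hRD
        (by positivity) (by linarith) hlam0 hlam1 hL1 (by positivity) ?_ ?_ E δ hδ).2 ?_
      · refine (measure_mono ?_).trans (hres.trans (ENNReal.ofReal_le_ofReal (le_of_eq ?_)))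
        · intro u hu
          rw [mem_ofPred_eq, hSdef] at hu
          obtain ⟨h1, h2, h3, h4⟩ := hu
          rw [← hScf _ h1] at h3 h4
          exact ⟨⟨h1, h2⟩, h3, h4⟩
        · rw [hA]; ring
      · intro u hu
        apply ((hess_Ham hK hc hs hy hr hr1 (hGood u hu)).mono subset_rfl
          (le_max_right 1 _)).congr isOpen_ball
        intro v hv
        apply hF
        intro i
        by_cases hi : i ∈ s
        · have h1 := (hGood u hu).bdry ⟨i, hi⟩
          have h2 := ball_coord hv ⟨i, hi⟩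
          have h3 : glue s v y i = v ⟨i, hi⟩ := hval v ⟨i, hi⟩
          rw [h3]
          apply h1
          rw [mem_ball, dist_eq_norm]
          linarith
        · have h3 : glue s v y i = y ⟨i, hi⟩ := hval' v ⟨i, hi⟩
          rw [h3]
          exact hy _
      · intro u hu a
        refine (levi_Ham hK hc hs hy hr hr1 (hGood u hu) a).trans ?_
        have : lam * ‖a‖ ^ 2 ≤ cL * r ^ 4 * ‖a‖ ^ 2 := by
          gcongr
          exact min_le_right _ _
        linarith
      · intro u hu a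
        exact df4_HH1 hK hc hs hy hr hr1 (hGood u hu) (hQR hu.1) hτ.le hu.2 a
    · rw [indicator_of_notMem (by exact hy)]
      rw [nonpos_iff_eq_zero]
      have : {u : {i // i ∈ s} → ℂ | glue s u y ∈ S} = ∅ := by
        rw [eq_empty_iff_forall_notMem]
        intro u hu
        apply hy
        intro i
        have h1 := (hQR hu.1).1 i
        simpa [glue, i.2] using h1
      rw [this, measure_empty]
  refine (lintegral_mono key).trans ?_
  rw [lintegral_indicator hVm, setLIntegral_const, ← hV, ← ENNReal.ofReal_toReal hVtop,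
    ← ENNReal.ofReal_mul (by positivity)]
  apply ENNReal.ofReal_le_ofReal
  have h1 : A * τ * δ * V.toReal = (A * V.toReal) / (A * V.toReal + 1) * (κ * δ) := by
    rw [hτdef]; field_simp
  rw [h1]
  have h2 : A * V.toReal / (A * V.toReal + 1) ≤ 1 := by
    rw [div_le_one (by positivity)]; linarith
  have h3 : 0 ≤ κ * δ := by positivity
  nlinarith

end Pool.Agent.H836_PV
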