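import Pool.Agent.H836_PV.StmtsF
import Pool.Agent.H836_PV.Df

open MeasureTheory Filter Topology Set Metric

namespace Pool.Agent.H836_PV

/-- what is used about the Hamiltonian, for `M` large -/
theorem Fa_core (hU : TaskU) (hDf2 : TaskDf2) (hDf3 : TaskDf3) (hDf4 : TaskDf4)
    {Λ : Set ℂ} {g : ℂ → ℂ → ℝ} {D C₃ cL CB : ℝ} (hK : Ker Λ g D C₃ cL CB) :
    ∃ M₀ : ℕ, ∀ M : ℕ, M₀ ≤ M → ∃ H : Conf M → ℝ, Measurable H ∧
      (∀ x ∈ RR Λ (Fin M ⊕ Fin M), H x = Ham g (circ M) x) ∧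
      (∀ κ : ℝ, 0 < κ → ∃ Q : Set (Conf M), IsCompact Q ∧ Q ⊆ RR Λ (Fin M ⊕ Fin M) ∧
        ∀ E δ : ℝ, 0 < δ → volume {x | x ∈ RR Λ (Fin M ⊕ Fin M) ∧ x ∉ Q ∧ E ≤ H x ∧ H x < E + δ} ≤
          ENNReal.ofReal (κ * δ)) ∧
      (∀ F : Conf M → ℝ, ContinuousOn F (RR Λ (Fin M ⊕ Fin M)) →
        (∃ C, ∀ x ∈ RR Λ (Fin M ⊕ Fin M), |F x| ≤ C) → ∀ E : ℝ,
        DifferentiableAt ℝ (fun t => ∫ x in {x | x ∈ RR Λ (Fin M ⊕ Fin M) ∧ H x < t}, F x) E) := by
  classical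
  obtain ⟨C, hC0, hC⟩ := hU Λ g D C₃ cL CB hK
  obtain ⟨N₁, hN₁⟩ := hC (1 / 2) (by norm_num) (by norm_num)
  obtain ⟨N₂, hN₂⟩ := hDf3 Λ g D C₃ cL CB hK
  refine ⟨N₁ + N₂ + 3, ?_⟩
  intro M hM
  have hcard : Fintype.card (Fin M ⊕ Fin M) = 2 * M := by
    rw [Fintype.card_sum, Fintype.card_fin]; ring
  have hsub : Λ ⊆ closedBall 0 D := fun z hz => by
    rw [mem_closedBall_zero_iff]; exact hK.norm_le z hz
  have hVtop : volume Λ ≠ ⊤ := ((measure_mono hsub).trans_lt measure_closedBall_lt_top).ne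
  have hc : ∀ i, |circ M i| = 1 := by
    intro i
    rcases i with i | i <;> simp [circ]
  set ι := Fin M ⊕ Fin M with hι
  set R : Set (ι → ℂ) := RR Λ ι with hR
  have hRo : IsOpen R := Df_RR_open hK.isOpen ι
  have hcfV : volume (cf Λ ι) ≠ ⊤ := by
    rw [Df_cf_volume]
    exact ENNReal.pow_ne_top hVtop
  have hRcf : R ⊆ cf Λ ι := fun x hx => hx.1
  have hRV : volume R ≠ ⊤ := ((measure_mono hRcf).trans_lt (lt_top_iff_ne_top.mpr hcfV)).ne
  have hsm : ContDiffOn ℝ 2 (Ham g (circ M)) R := Df_Ham_smooth hK (circ M)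
  set H : (ι → ℂ) → ℝ := R.piecewise (Ham g (circ M)) (fun _ => 0) with hH
  have hHR : ∀ x ∈ R, H x = Ham g (circ M) x := fun x hx => piecewise_eq_of_mem _ _ _ hx
  have hHm : Measurable H :=
    ContinuousOn.measurable_piecewise hsm.continuousOn continuousOn_const hRo.measurableSet
  have hHs : ContDiffOn ℝ 2 H R := hsm.congr hHR
  have hgr : ∀ x ∈ R, gr2 H x = gr2 (Ham g (circ M)) x := by
    intro x hx
    have he : H =ᶠ[𝓝 x] Ham g (circ M) := by
      filter_upwards [hRo.mem_nhds hx] with y hy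
      exact hHR y hy
    unfold gr2 D1
    rw [he.fderiv_eq]
  have hexh : ∀ κ : ℝ, 0 < κ → ∃ Q : Set (Conf M), IsCompact Q ∧ Q ⊆ R ∧
        ∀ E δ : ℝ, 0 < δ → volume {x | x ∈ R ∧ x ∉ Q ∧ E ≤ H x ∧ H x < E + δ} ≤
          ENNReal.ofReal (κ * δ) := by
    intro κ hκ
    obtain ⟨Q, hQc, hQR, hQ⟩ := hN₂ ι (by rw [hcard]; omega) (circ M) hc κ hκ
    refine ⟨Q, hQc, hQR, fun E' δ hδ => ?_⟩
    refine le_trans (measure_mono ?_) (hQ E' δ hδ)
    rintro x ⟨hx1, hx2, hx3, hx4⟩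
    rw [hHR x hx1] at hx3 hx4
    exact ⟨hx1, hx2, hx3, hx4⟩
  refine ⟨H, hHm, hHR, hexh, ?_⟩
  refine hDf2 ι R H hRo hRV hHs hHm ?_ hexh ?_
  · -- Lipschitz bound
    set V := (volume (cf Λ ι)).toReal with hV
    refine ⟨Real.exp (C * (1 / 2) * Fintype.card ι) * V +
      Real.exp (-((1 / 2) * (Fintype.card ι : ℝ) ^ 2 / 16)), ?_⟩
    intro E' δ hδ
    have h1 := hN₁ ι (by rw [hcard]; omega) (circ M) hc univ univ MeasurableSet.univ
      MeasurableSet.univ (fun _ _ _ _ => trivial) E' δ hδ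
    calc volume {x | x ∈ R ∧ E' ≤ H x ∧ H x < E' + δ}
        ≤ volume (cf Λ ι ∩ univ ∩ {x | E' ≤ Ham g (circ M) x ∧ Ham g (circ M) x < E' + δ}) := by
          apply measure_mono
          rintro x ⟨hx1, hx2, hx3⟩
          rw [hHR x hx1] at hx2 hx3
          exact ⟨⟨hx1.1, trivial⟩, hx2, hx3⟩
      _ ≤ _ := h1
      _ ≤ ENNReal.ofReal (δ * Real.exp (C * (1 / 2) * Fintype.card ι)) * volume (cf Λ ι) +
          ENNReal.ofReal (δ * Real.exp (-((1 / 2) * (Fintype.card ι : ℝ) ^ 2 / 16))) := by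
          gcongr
          intro x hx
          exact hx.1.1
      _ = ENNReal.ofReal ((Real.exp (C * (1 / 2) * Fintype.card ι) * V +
          Real.exp (-((1 / 2) * (Fintype.card ι : ℝ) ^ 2 / 16))) * δ) := by
          rw [← ENNReal.ofReal_toReal hcfV, ← hV, ← ENNReal.ofReal_mul (by positivity),
            ← ENNReal.ofReal_add (by positivity) (by positivity)]
          congr 1
          ring
  · intro Q hQc hQR κ hκ
    obtain ⟨τ, hτ, hb⟩ := hDf4 Λ g D C₃ cL CB hK ι (by rw [hcard]; omega) (circ M) hc Q hQc hQR κ hκ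
    refine ⟨τ, hτ, fun E' δ hδ => ?_⟩
    refine le_trans (measure_mono ?_) (hb E' δ hδ)
    rintro x ⟨hx1, hx2, hx3, hx4⟩
    rw [hHR x (hQR hx1)] at hx3 hx4
    rw [hgr x (hQR hx1)] at hx2
    exact ⟨hx1, hx2, hx3, hx4⟩

theorem Fa_energy {Λ : Set ℂ} {G g : ℂ → ℂ → ℝ} (hG : ∀ x ∈ Λ, ∀ y ∈ Λ, Gstar G x y = K g x y)
    {M : ℕ} {x : Conf M} (hx : ∀ i, x i ∈ Λ) : energy G x = Ham g (circ M) x := by
  unfold energy Ham
  congr 1
  refine Finset.sum_congr rfl fun i _ => Finset.sum_congr rfl fun j _ => ?_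
  rw [hG _ (hx i) _ (hx j)]

/-- a.e. equality for a predicate of the energy -/
theorem Fa_ae {Λ : Set ℂ} {g : ℂ → ℂ → ℝ} {M : ℕ} {H : Conf M → ℝ}
    (hH : ∀ x ∈ RR Λ (Fin M ⊕ Fin M), H x = Ham g (circ M) x) (P : ℝ → Prop) :
    ({x : Conf M | x ∈ cf Λ (Fin M ⊕ Fin M) ∧ P (Ham g (circ M) x)} : Set (Conf M)) =ᵐ[volume]
      {x | x ∈ RR Λ (Fin M ⊕ Fin M) ∧ P (H x)} := by
  rw [ae_eq_set]
  constructor
  · refine measure_mono_null ?_ (V4_inj (ι := Fin M ⊕ Fin M))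
    rintro x ⟨⟨hx1, hx2⟩, hx3⟩
    by_contra hx4
    apply hx3
    have hinj : Function.Injective x := by
      by_contra h
      exact hx4 h
    refine ⟨⟨hx1, hinj⟩, ?_⟩
    rw [hH x ⟨hx1, hinj⟩]
    exact hx2
  · refine measure_mono_null ?_ (measure_empty (μ := volume))
    rintro x ⟨⟨hx1, hx2⟩, hx3⟩
    apply hx3
    rw [hH x hx1] at hx2
    exact ⟨hx1.1, hx2⟩

theorem taskFa (hTS : TaskTS) (hDf : TaskDf) (hDf2 : TaskDf2) (hDf3 : TaskDf3) (hDf4 : TaskDf4)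
    (hU : TaskU) (hMu : TaskMu) : TaskFa := by
  intro Λ G g D C₃ cL CB hK hG ε hε
  classical
  obtain ⟨M₁, hM₁⟩ := Fa_core hU hDf2 hDf3 hDf4 hK
  have hsub : Λ ⊆ closedBall 0 D := fun z hz => by
    rw [mem_closedBall_zero_iff]; exact hK.norm_le z hz
  have hVtop : volume Λ ≠ ⊤ := ((measure_mono hsub).trans_lt measure_closedBall_lt_top).ne
  have hV0 : volume Λ ≠ 0 := (hK.isOpen.measure_pos volume hK.nonempty).ne'
  set V := (volume Λ).toReal with hV
  have hVpos : 0 < V := ENNReal.toReal_pos hV0 hVtop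
  have hVe : volume Λ = ENNReal.ofReal V := (ENNReal.ofReal_toReal hVtop).symm
  -- the set of the statement
  have hset : ∀ (M : ℕ) (t : ℝ), {x : Conf M | (∀ i, x i ∈ Λ) ∧ energy G x < t} =
      {x : Conf M | x ∈ cf Λ (Fin M ⊕ Fin M) ∧ Ham g (circ M) x < t} := by
    intro M t
    ext x
    simp only [Set.mem_ofPred_eq, cf]
    constructor
    · rintro ⟨h1, h2⟩
      exact ⟨h1, by rwa [← Fa_energy hG h1]⟩
    · rintro ⟨h1, h2⟩
      exact ⟨h1, by rwa [Fa_energy hG h1]⟩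
  have hRV : ∀ (M : ℕ) (S : Set (Conf M)), S ⊆ RR Λ (Fin M ⊕ Fin M) → volume S ≠ ⊤ := by
    intro M S hS
    have hcfV : volume (cf Λ (Fin M ⊕ Fin M)) ≠ ⊤ := by
      rw [Df_cf_volume]
      exact ENNReal.pow_ne_top hVtop
    exact ((measure_mono (fun x hx => (hS hx).1)).trans_lt (lt_top_iff_ne_top.mpr hcfV)).ne
  -- `Phi` in terms of `H`
  have hPhi : ∀ (M : ℕ) (H : Conf M → ℝ), (∀ x ∈ RR Λ (Fin M ⊕ Fin M), H x = Ham g (circ M) x) →
      Phi Λ G M = fun t => (volume {x | x ∈ RR Λ (Fin M ⊕ Fin M) ∧ H x < t}).toReal := by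
    intro M H hH
    funext t
    unfold Phi
    rw [hset M t, measure_congr (Fa_ae hH (fun s => s < t))]
  -- differentiability of `Phi`
  have hPd : ∀ M, M₁ ≤ M → ∀ E, DifferentiableAt ℝ (Phi Λ G M) E := by
    intro M hM E
    obtain ⟨H, hHm, hHR, hexh, hdiff⟩ := hM₁ M hM
    rw [hPhi M H hHR]
    have h1 := hdiff (fun _ => 1) continuousOn_const ⟨1, fun _ _ => by simp⟩ E
    refine h1.congr_of_eventuallyEq (Eventually.of_forall fun t => ?_)
    simp [Measure.real]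
  -- the bounds for the derivative
  have hbd : ∀ η : ℝ, 0 < η → ∃ M₂ : ℕ, ∀ M, M₂ ≤ M →
      Real.exp (2 * M * (sL Λ (K g) ε - η)) * V ^ (2 * M) ≤
        deriv (Phi Λ G M) ((2 * (M : ℝ)) ^ 2 * ε) ∧
      deriv (Phi Λ G M) ((2 * (M : ℝ)) ^ 2 * ε) ≤
        Real.exp (2 * M * (sL Λ (K g) ε + η)) * V ^ (2 * M) := by
    intro η hη
    obtain ⟨M₂, hM₂⟩ := hTS Λ g D C₃ cL CB hK ε hε η hη
    refine ⟨max M₁ M₂, fun M hM => ?_⟩
    have hMa := (le_max_left _ _).trans hM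
    have hMb := (le_max_right _ _).trans hM
    set E := (2 * (M : ℝ)) ^ 2 * ε with hE
    obtain ⟨H, hHm, hHR, hexh, hdiff⟩ := hM₁ M hMa
    have hd := (hPd M hMa E).hasDerivAt.tendsto_slope_zero_right
    have hRo : IsOpen (RR Λ (Fin M ⊕ Fin M)) := Df_RR_open hK.isOpen _
    have hslope : ∀ δ : ℝ, 0 < δ → δ ≤ 1 →
        Real.exp (2 * M * (sL Λ (K g) ε - η)) * V ^ (2 * M) ≤
          δ⁻¹ • (Phi Λ G M (E + δ) - Phi Λ G M E) ∧
        δ⁻¹ • (Phi Λ G M (E + δ) - Phi Λ G M E) ≤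
          Real.exp (2 * M * (sL Λ (K g) ε + η)) * V ^ (2 * M) := by
      intro δ hδ hδ1
      have hm : ∀ t, MeasurableSet {x | x ∈ RR Λ (Fin M ⊕ Fin M) ∧ H x < t} := fun t =>
        hRo.measurableSet.inter (measurableSet_lt hHm measurable_const)
      have hsh : volume (shell Λ g M E δ) =
          volume {x | x ∈ RR Λ (Fin M ⊕ Fin M) ∧ E ≤ H x ∧ H x < E + δ} :=
        measure_congr (Fa_ae hHR (fun s => E ≤ s ∧ s < E + δ))
      have hdif : Phi Λ G M (E + δ) - Phi Λ G M E = (volume (shell Λ g M E δ)).toReal := by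
        rw [hPhi M H hHR, hsh]
        simp only
        rw [← ENNReal.toReal_sub_of_le (measure_mono ?_) (hRV M _ (fun x hx => hx.1)),
          ← measure_sdiff ?_ (hm E).nullMeasurableSet (hRV M _ (fun x hx => hx.1))]
        · congr 2
          ext x
          simp only [Set.mem_sdiff, Set.mem_ofPred_eq]
          constructor
          · rintro ⟨⟨h1, h2⟩, h3⟩
            exact ⟨h1, not_lt.1 fun h => h3 ⟨h1, h⟩, h2⟩
          · rintro ⟨h1, h2, h3⟩
            exact ⟨⟨h1, h3⟩, fun h => absurd h.2 (not_lt.2 h2)⟩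
        · rintro x ⟨h1, h2⟩
          exact ⟨h1, by linarith⟩
        · rintro x ⟨h1, h2⟩
          exact ⟨h1, by linarith⟩
      have hfin : volume (shell Λ g M E δ) ≠ ⊤ := by
        rw [hsh]
        exact hRV M _ (fun x hx => hx.1)
      obtain ⟨hlo, hup⟩ := hM₂ M hMb E (by rw [hE]; simp) δ hδ hδ1
      rw [hVe, ← ENNReal.ofReal_pow hVpos.le, ← ENNReal.ofReal_mul (by positivity)] at hlo hup
      have h1 := ENNReal.toReal_mono hfin hlo
      have h2 := ENNReal.toReal_mono ENNReal.ofReal_ne_top hup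
      rw [ENNReal.toReal_ofReal (by positivity)] at h1 h2
      rw [hdif, smul_eq_mul, inv_mul_eq_div, le_div_iff₀ hδ, div_le_iff₀ hδ]
      constructor
      · linarith
      · linarith
    have hev : ∀ᶠ δ : ℝ in 𝓝[>] 0, 0 < δ ∧ δ ≤ 1 := by
      have : Ioc (0 : ℝ) 1 ∈ 𝓝[>] (0 : ℝ) := Ioc_mem_nhdsGT one_pos
      filter_upwards [this] with δ hδ using hδ
    constructor
    · exact ge_of_tendsto hd (hev.mono fun δ h => (hslope δ h.1 h.2).1)
    · exact le_of_tendsto hd (hev.mono fun δ h => (hslope δ h.1 h.2).2)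
  constructor
  · -- existence and uniqueness of the microcanonical measure
    obtain ⟨M₂, hM₂⟩ := hbd 1 one_pos
    filter_upwards [eventually_ge_atTop (max M₁ M₂)] with M hM
    have hMa := (le_max_left _ _).trans hM
    have hMb := (le_max_right _ _).trans hM
    set E := (2 * (M : ℝ)) ^ 2 * ε with hE
    refine ⟨hPd M hMa, ?_⟩
    obtain ⟨H, hHm, hHR, hexh, hdiff⟩ := hM₁ M hMa
    have hRo : IsOpen (RR Λ (Fin M ⊕ Fin M)) := Df_RR_open hK.isOpen _
    have hpos : 0 < deriv (Phi Λ G M) E := lt_of_lt_of_le (by positivity) (hM₂ M hMb).1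
    obtain ⟨μ, hμp, hμR, hμd⟩ := hMu (Fin M ⊕ Fin M) (RR Λ (Fin M ⊕ Fin M)) H hRo
      (hRV M _ subset_rfl) hHm E
      (fun κ hκ => by
        obtain ⟨Q, h1, h2, h3⟩ := hexh κ hκ
        exact ⟨Q, h1, h2, fun δ hδ => h3 E δ hδ⟩)
      (fun F h1 h2 => hdiff F h1 h2 E)
      (by rw [hPhi M H hHR] at hpos; exact hpos)
    have hsetint : ∀ (F : Conf M → ℝ) (t : ℝ),
        ∫ x in {x : Conf M | (∀ i, x i ∈ Λ) ∧ energy G x < t}, F x =
        ∫ x in {x | x ∈ RR Λ (Fin M ⊕ Fin M) ∧ H x < t}, F x := by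
      intro F t
      rw [hset M t]
      exact setIntegral_congr_set (Fa_ae hHR (fun s => s < t))
    have hmic : IsMicro Λ G M E μ := by
      refine ⟨hμp, ?_, hpos, ?_⟩
      · refine measure_mono_null ?_ hμR
        rintro x ⟨i, hi⟩ hx
        exact hi (hx.1 i)
      · intro F hF hFb
        have h1 := hμd F (hF.mono fun x hx => hx.1)
          (by obtain ⟨C, hC⟩ := hFb; exact ⟨C, fun x hx => hC x hx.1⟩)
        rw [hPhi M H hHR]
        refine h1.congr_of_eventuallyEq (Eventually.of_forall fun t => ?_)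
        exact hsetint F t
    refine ⟨μ, hmic, ?_⟩
    intro ν hν
    have hνp := hν.prob
    apply ext_of_forall_integral_eq_of_IsFiniteMeasure
    intro f
    have hfb : ∃ C, ∀ x : Conf M, (∀ i, x i ∈ Λ) → |f x| ≤ C :=
      ⟨‖f‖, fun x _ => f.norm_coe_le_norm x⟩
    have h1 := hν.hasDerivAt f f.continuous.continuousOn hfb
    have h2 := hmic.hasDerivAt f f.continuous.continuousOn hfb
    exact mul_left_cancel₀ hpos.ne' (h1.unique h2)
  · -- part (a)
    rw [Metric.tendsto_atTop]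
    intro e he
    obtain ⟨M₂, hM₂⟩ := hbd (e / 2) (by positivity)
    refine ⟨max M₂ 1, fun M hM => ?_⟩
    have hMb := (le_max_left _ _).trans hM
    have hMone : 1 ≤ M := (le_max_right _ _).trans hM
    have hM0 : (0 : ℝ) < M := by exact_mod_cast hMone
    obtain ⟨hlo, hup⟩ := hM₂ M hMb
    set E := (2 * (M : ℝ)) ^ 2 * ε with hE
    set d := deriv (Phi Λ G M) E with hd
    have hVp : 0 < V ^ (2 * M) := by positivity
    have hq1 : Real.exp (2 * M * (sL Λ (K g) ε - e / 2)) ≤ d / V ^ (2 * M) := by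
      rw [le_div_iff₀ hVp]
      exact hlo
    have hq2 : d / V ^ (2 * M) ≤ Real.exp (2 * M * (sL Λ (K g) ε + e / 2)) := by
      rw [div_le_iff₀ hVp]
      exact hup
    have hqp : 0 < d / V ^ (2 * M) := lt_of_lt_of_le (Real.exp_pos _) hq1
    have hl1 : 2 * M * (sL Λ (K g) ε - e / 2) ≤ Real.log (d / V ^ (2 * M)) := by
      rw [Real.le_log_iff_exp_le hqp]
      exact hq1
    have hl2 : Real.log (d / V ^ (2 * M)) ≤ 2 * M * (sL Λ (K g) ε + e / 2) := by
      rw [Real.log_le_iff_le_exp hqp]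
      exact hq2
    rw [Real.dist_eq, one_div, inv_mul_eq_div, abs_lt]
    have h2M : (0 : ℝ) < 2 * M := by positivity
    constructor
    · have : sL Λ (K g) ε - e / 2 ≤ Real.log (d / V ^ (2 * M)) / (2 * M) := by
        rw [le_div_iff₀ h2M]
        linarith
      linarith
    · have : Real.log (d / V ^ (2 * M)) / (2 * M) ≤ sL Λ (K g) ε + e / 2 := by
        rw [div_le_iff₀ h2M]
        linarith
      linarith

end Pool.Agent.H836_PV
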