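import Pool.Agent.H836_PV.Stmts

/-!
# Task S1 : integrability and uniform smallness of the near diagonal part
-/

open MeasureTheory Filter Topology Set Metric

namespace Pool.Agent.H836_PV

/-- `δ / |z|` on the disc of radius `δ` -/
noncomputable def ek (δ : ℝ) (z : ℂ) : ℝ := (Iio δ).indicator (fun r : ℝ => δ / r) ‖z‖

/-- `s log⁺ s` -/
noncomputable def pl (s : ℝ) : ℝ := s * max 0 (Real.log s)

lemma ek_nonneg {δ : ℝ} (hδ : 0 < δ) (z : ℂ) : 0 ≤ ek δ z := by
  unfold ek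
  by_cases h : ‖z‖ < δ
  · rw [indicator_of_mem (show ‖z‖ ∈ Iio δ from h)]
    positivity
  · rw [indicator_of_notMem (show ‖z‖ ∉ Iio δ from h)]

lemma ek_of_lt {δ : ℝ} {z : ℂ} (h : ‖z‖ < δ) : ek δ z = δ / ‖z‖ := by
  unfold ek
  rw [indicator_of_mem (show ‖z‖ ∈ Iio δ from h)]

lemma ek_neg (δ : ℝ) (z : ℂ) : ek δ (-z) = ek δ z := by
  simp [ek]

lemma ek_aux {δ : ℝ} (hδ : 0 < δ) :
    EqOn (fun y : ℝ => y ^ (Module.finrank ℝ ℂ - 1) • (Iio δ).indicator (fun r : ℝ => δ / r) y)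
      ((Iio δ).indicator (fun _ => δ)) (Ioi 0) := by
  intro y hy
  have hy : 0 < y := hy
  by_cases h : y < δ
  · simp [h, Complex.finrank_real_complex]
    field_simp
  · simp [h]

lemma ek_integrable {δ : ℝ} (hδ : 0 < δ) : Integrable (ek δ) := by
  unfold ek
  rw [integrable_fun_norm_addHaar volume, integrableOn_congr_fun (ek_aux hδ) measurableSet_Ioi]
  rw [IntegrableOn, integrable_indicator_iff measurableSet_Iio, IntegrableOn,
    Measure.restrict_restrict measurableSet_Iio]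
  refine integrable_const_iff.2 (Or.inr ?_)
  constructor
  simp only [MeasurableSet.univ, Measure.restrict_apply, univ_inter]
  rw [inter_comm, Ioi_inter_Iio]
  simp

lemma ek_integral {δ : ℝ} (hδ : 0 < δ) : ∫ z, ek δ z = 2 * Real.pi * δ ^ 2 := by
  unfold ek
  rw [integral_fun_norm_addHaar volume, setIntegral_congr_fun measurableSet_Ioi (ek_aux hδ)]
  rw [setIntegral_indicator measurableSet_Iio, Ioi_inter_Iio, setIntegral_const]
  simp [Complex.finrank_real_complex, Measure.real, hδ.le]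
  ring

lemma fd_nonneg (δ : ℝ) (x y : ℂ) : 0 ≤ fd δ x y := le_max_left _ _

lemma fd_le_ek {δ : ℝ} (hδ : 0 < δ) (x y : ℂ) : fd δ x y ≤ ek δ (x - y) := by
  unfold fd
  refine max_le (ek_nonneg hδ _) ?_
  by_cases h : ‖x - y‖ < δ
  · rw [ek_of_lt h]
    by_cases h0 : ‖x - y‖ = 0
    · simp [h0]
    · exact Real.log_le_self (by positivity)
  · refine le_trans ?_ (ek_nonneg hδ _)
    apply Real.log_nonpos (by positivity)
    rw [div_le_one (lt_of_lt_of_le hδ (not_lt.1 h))]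
    exact not_lt.1 h

lemma pl_nonneg {s : ℝ} (hs : 0 ≤ s) : 0 ≤ pl s := mul_nonneg hs (le_max_left _ _)

lemma mul_log_ge {s : ℝ} (hs : 0 ≤ s) : -1 ≤ s * Real.log s := by
  rcases hs.eq_or_lt with rfl | hs
  · simp
  · have h := Real.one_sub_inv_le_log_of_pos hs
    have : s * (1 - s⁻¹) ≤ s * Real.log s := mul_le_mul_of_nonneg_left h hs.le
    have h2 : s * (1 - s⁻¹) = s - 1 := by field_simp
    linarith

lemma pl_le {s : ℝ} (hs : 0 ≤ s) : pl s ≤ s * Real.log s + 1 := by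
  unfold pl
  rcases le_total (Real.log s) 0 with h | h
  · rw [max_eq_left h]
    have := mul_log_ge hs
    linarith
  · rw [max_eq_right h]
    linarith

lemma mul_log_le_pl {s : ℝ} (hs : 0 ≤ s) : s * Real.log s ≤ pl s :=
  mul_le_mul_of_nonneg_left (le_max_right _ _) hs

lemma le_pl {s L : ℝ} (hs : 0 ≤ s) (hL : 1 < L) : s ≤ L + pl s / Real.log L := by
  have hl : 0 < Real.log L := Real.log_pos hL
  by_cases h : s ≤ L
  · have := pl_nonneg hs
    have : 0 ≤ pl s / Real.log L := by positivity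
    linarith
  · push Not at h
    have h1 : Real.log L ≤ Real.log s := Real.log_le_log (by linarith) h.le
    have : s ≤ pl s / Real.log L := by
      rw [le_div_iff₀ hl]
      exact mul_le_mul_of_nonneg_left (h1.trans (le_max_right _ _)) hs
    linarith

lemma young (a : ℝ) {b : ℝ} (hb : 0 ≤ b) : a * b ≤ b * Real.log b - b + Real.exp a := by
  rcases hb.eq_or_lt with rfl | hb
  · simp
    positivity
  · have h := Real.add_one_le_exp (a - Real.log b)
    have h2 : Real.exp a = b * Real.exp (a - Real.log b) := by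
      rw [Real.exp_sub, Real.exp_log hb]
      field_simp
    rw [h2]
    nlinarith

lemma fd_mul_le {δ : ℝ} (hδ : 0 < δ) (x y : ℂ) {s : ℝ} (hs : 0 ≤ s) :
    fd δ x y * s ≤ pl s + ek δ (x - y) := by
  have h1 := pl_nonneg hs
  have h2 := ek_nonneg hδ (x - y)
  rcases le_or_gt (Real.log (δ / ‖x - y‖)) 0 with h | h
  · unfold fd
    rw [max_eq_left h]
    linarith
  · unfold fd
    rw [max_eq_right h.le]
    have h0 : 0 < ‖x - y‖ := by
      rcases (norm_nonneg (x - y)).eq_or_lt with h0 | h0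
      · rw [← h0] at h
        simp at h
      · exact h0
    have h3 : ‖x - y‖ < δ := by
      by_contra h3
      push Not at h3
      have : Real.log (δ / ‖x - y‖) ≤ 0 := by
        apply Real.log_nonpos (by positivity)
        rwa [div_le_one h0]
      linarith
    have h4 := young (Real.log (δ / ‖x - y‖)) hs
    rw [Real.exp_log (by positivity)] at h4
    rw [ek_of_lt h3]
    have := mul_log_le_pl hs
    linarith

lemma fd_main {δ L : ℝ} (hδ : 0 < δ) (hL : 1 < L) (x y : ℂ) {s t : ℝ} (hs : 0 ≤ s) (ht : 0 ≤ t) :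
    fd δ x y * s * t ≤ L * (ek δ (x - y) * t) + L * (ek δ (x - y) * s) +
      (Real.log L)⁻¹ * (pl s * pl t + ek δ (x - y) * pl t) := by
  have hl : 0 < Real.log L := Real.log_pos hL
  have h1 := pl_nonneg hs
  have h1' := pl_nonneg ht
  have h2 := ek_nonneg hδ (x - y)
  have h3 := fd_nonneg δ x y
  have h4 := fd_le_ek hδ x y
  have e1 : 0 ≤ L * (ek δ (x - y) * t) := by positivity
  have e2 : 0 ≤ L * (ek δ (x - y) * s) := by positivity
  have e3 : 0 ≤ (Real.log L)⁻¹ * (pl s * pl t + ek δ (x - y) * pl t) := by positivity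
  by_cases hsL : s ≤ L
  · have : fd δ x y * s * t ≤ ek δ (x - y) * L * t := by gcongr
    linarith
  by_cases htL : t ≤ L
  · have : fd δ x y * s * t ≤ ek δ (x - y) * s * L := by gcongr
    linarith
  push Not at hsL htL
  have h5 : t ≤ (Real.log L)⁻¹ * pl t := by
    rw [inv_mul_eq_div, le_div_iff₀ hl]
    exact mul_le_mul_of_nonneg_left ((Real.log_le_log (by linarith) htL.le).trans
      (le_max_right _ _)) ht
  have h6 := fd_mul_le hδ x y hs
  have : fd δ x y * s * t ≤ (pl s + ek δ (x - y)) * ((Real.log L)⁻¹ * pl t) := by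
    apply mul_le_mul h6 h5 ht (by positivity)
  nlinarith

lemma vol_prod_restrict (Λ : Set ℂ) : (volume : Measure (ℂ × ℂ)).restrict (Λ ×ˢ Λ) =
    (volume.restrict Λ).prod (volume.restrict Λ) := by
  rw [Measure.prod_restrict]; rfl

lemma ek_prod {Λ : Set ℂ} {h : ℂ → ℝ} {δ : ℝ} (hδ : 0 < δ) (hΛ : MeasurableSet Λ)
    (hh : IntegrableOn h Λ) (h0 : ∀ x ∈ Λ, 0 ≤ h x) :
    IntegrableOn (fun p : ℂ × ℂ => ek δ (p.1 - p.2) * h p.2) (Λ ×ˢ Λ) ∧
      ∫ p in Λ ×ˢ Λ, ek δ (p.1 - p.2) * h p.2 ≤ 2 * Real.pi * δ ^ 2 * ∫ x in Λ, h x := by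
  have I : Integrable (fun p : ℂ × ℂ => h p.2 * ek δ (p.1 - p.2))
      (volume.prod (volume.restrict Λ)) :=
    Integrable.convolution_integrand (ContinuousLinearMap.mul ℝ ℝ) hh (ek_integrable hδ)
  have I' : Integrable (fun p : ℂ × ℂ => ek δ (p.1 - p.2) * h p.2)
      (volume.prod (volume.restrict Λ)) := by
    refine I.congr (Eventually.of_forall fun p => ?_)
    simp only
    ring
  have hr : (volume : Measure (ℂ × ℂ)).restrict (Λ ×ˢ Λ) =
      ((volume : Measure ℂ).prod (volume.restrict Λ)).restrict (Λ ×ˢ univ) := by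
    rw [vol_prod_restrict, ← Measure.prod_restrict, Measure.restrict_univ]
  have hn : 0 ≤ᵐ[volume.prod (volume.restrict Λ)] fun p : ℂ × ℂ => ek δ (p.1 - p.2) * h p.2 := by
    have : ∀ᵐ y ∂(volume.restrict Λ), 0 ≤ h y := by
      filter_upwards [ae_restrict_mem hΛ] with y hy using h0 y hy
    have h2 := Measure.quasiMeasurePreserving_snd (μ := (volume : Measure ℂ)) (ν := volume.restrict Λ) |>.ae this
    filter_upwards [h2] with p hp
    exact mul_nonneg (ek_nonneg hδ _) hp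
  constructor
  · rw [IntegrableOn, hr]
    exact I'.integrableOn
  · rw [hr]
    refine (setIntegral_le_integral I' hn).trans (le_of_eq ?_)
    rw [integral_prod_symm _ I']
    simp only
    calc ∫ y in Λ, ∫ x, ek δ (x - y) * h y = ∫ y in Λ, (2 * Real.pi * δ ^ 2) * h y := by
          congr 1
          ext y
          rw [integral_mul_const, integral_sub_right_eq_self (fun z => ek δ z) y, ek_integral hδ]
      _ = _ := by rw [integral_const_mul]

lemma ek_prod' {Λ : Set ℂ} {h : ℂ → ℝ} {δ : ℝ} (hδ : 0 < δ) (hΛ : MeasurableSet Λ)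
    (hh : IntegrableOn h Λ) (h0 : ∀ x ∈ Λ, 0 ≤ h x) :
    IntegrableOn (fun p : ℂ × ℂ => ek δ (p.1 - p.2) * h p.1) (Λ ×ˢ Λ) ∧
      ∫ p in Λ ×ˢ Λ, ek δ (p.1 - p.2) * h p.1 ≤ 2 * Real.pi * δ ^ 2 * ∫ x in Λ, h x := by
  obtain ⟨h1, h2⟩ := ek_prod hδ hΛ hh h0
  rw [IntegrableOn, vol_prod_restrict] at h1
  rw [vol_prod_restrict] at h2
  have e : (fun p : ℂ × ℂ => ek δ (p.1 - p.2) * h p.1) =
      (fun p : ℂ × ℂ => ek δ (p.1 - p.2) * h p.2) ∘ Prod.swap := by
    ext p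
    simp only [Function.comp, Prod.fst_swap, Prod.snd_swap]
    rw [← ek_neg, neg_sub]
  constructor
  · rw [IntegrableOn, vol_prod_restrict, e]
    exact h1.swap
  · rw [vol_prod_restrict, e]
    refine le_trans (le_of_eq ?_) h2
    exact integral_prod_swap (fun p : ℂ × ℂ => ek δ (p.1 - p.2) * h p.2)

lemma IsDens.pl_integrable {Λ : Set ℂ} {ρ : ℂ → ℝ} (hΛ : MeasurableSet Λ) (hV : volume Λ ≠ ⊤)
    (h : IsDens Λ ρ) : IntegrableOn (fun x => pl (ρ x)) Λ := by
  have hm : AEStronglyMeasurable (fun x => pl (ρ x)) (volume.restrict Λ) := by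
    have h1 := h.integrable.aestronglyMeasurable.aemeasurable
    unfold pl
    exact (h1.mul (measurable_const.aemeasurable.max h1.log)).aestronglyMeasurable
  have : IsFiniteMeasure (volume.restrict Λ) := ⟨by simpa using hV.lt_top⟩
  refine Integrable.mono' (h.entropy.add (integrable_const (1 : ℝ))) hm ?_
  filter_upwards [ae_restrict_mem hΛ] with x hx
  rw [Real.norm_of_nonneg (pl_nonneg (h.nonneg x hx))]
  exact pl_le (h.nonneg x hx)

lemma IsDens.pl_integral_le {Λ : Set ℂ} {ρ : ℂ → ℝ} (hΛ : MeasurableSet Λ) (hV : volume Λ ≠ ⊤)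
    (h : IsDens Λ ρ) : ∫ x in Λ, pl (ρ x) ≤
      (∫ x in Λ, ρ x * Real.log (ρ x)) + (volume Λ).toReal := by
  have : IsFiniteMeasure (volume.restrict Λ) := ⟨by simpa using hV.lt_top⟩
  have h1 : ∫ x in Λ, pl (ρ x) ≤ ∫ x in Λ, (ρ x * Real.log (ρ x) + 1) :=
    setIntegral_mono_on (h.pl_integrable hΛ hV) (h.entropy.add (integrable_const (1 : ℝ))) hΛ
      (fun x hx => pl_le (h.nonneg x hx))
  rw [integral_add h.entropy (integrable_const (1 : ℝ))] at h1
  simpa [Measure.real] using h1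

lemma IsDens.pl_integral_nonneg {Λ : Set ℂ} {ρ : ℂ → ℝ} (hΛ : MeasurableSet Λ)
    (h : IsDens Λ ρ) : 0 ≤ ∫ x in Λ, pl (ρ x) :=
  setIntegral_nonneg hΛ fun x hx => pl_nonneg (h.nonneg x hx)

lemma measurable_fd (δ : ℝ) : Measurable (fun p : ℂ × ℂ => fd δ p.1 p.2) := by
  unfold fd
  fun_prop

lemma fd_int {Λ : Set ℂ} (hΛ : MeasurableSet Λ) (hV : volume Λ ≠ ⊤) {ρ₁ ρ₂ : ℂ → ℝ}
    (h₁ : IsDens Λ ρ₁) (h₂ : IsDens Λ ρ₂) {δ L : ℝ} (hδ : 0 < δ) (hL : 1 < L) :
    IntegrableOn (fun p : ℂ × ℂ => fd δ p.1 p.2 * ρ₁ p.1 * ρ₂ p.2) (Λ ×ˢ Λ) ∧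
    ∫ p in Λ ×ˢ Λ, fd δ p.1 p.2 * ρ₁ p.1 * ρ₂ p.2 ≤ 2 * L * (2 * Real.pi * δ ^ 2) +
      (Real.log L)⁻¹ * ((∫ x in Λ, pl (ρ₁ x)) * (∫ x in Λ, pl (ρ₂ x)) +
        2 * Real.pi * δ ^ 2 * ∫ x in Λ, pl (ρ₂ x)) := by
  have hl : 0 < Real.log L := Real.log_pos hL
  obtain ⟨a1, a2⟩ := ek_prod hδ hΛ h₂.integrable h₂.nonneg
  obtain ⟨b1, b2⟩ := ek_prod' hδ hΛ h₁.integrable h₁.nonneg
  obtain ⟨c1, c2⟩ := ek_prod hδ hΛ (h₂.pl_integrable hΛ hV)
    (fun x hx => pl_nonneg (h₂.nonneg x hx))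
  have d1 : IntegrableOn (fun p : ℂ × ℂ => pl (ρ₁ p.1) * pl (ρ₂ p.2)) (Λ ×ˢ Λ) := by
    rw [IntegrableOn, vol_prod_restrict]
    exact (h₁.pl_integrable hΛ hV).mul_prod (h₂.pl_integrable hΛ hV)
  have d2 : ∫ p in Λ ×ˢ Λ, pl (ρ₁ p.1) * pl (ρ₂ p.2) =
      (∫ x in Λ, pl (ρ₁ x)) * (∫ x in Λ, pl (ρ₂ x)) := by
    rw [vol_prod_restrict]
    exact integral_prod_mul (fun x => pl (ρ₁ x)) (fun x => pl (ρ₂ x))
  have hb : IntegrableOn (fun p : ℂ × ℂ => L * (ek δ (p.1 - p.2) * ρ₂ p.2) +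
      L * (ek δ (p.1 - p.2) * ρ₁ p.1) + (Real.log L)⁻¹ * (pl (ρ₁ p.1) * pl (ρ₂ p.2) +
        ek δ (p.1 - p.2) * pl (ρ₂ p.2))) (Λ ×ˢ Λ) :=
    ((a1.const_mul L).add (b1.const_mul L)).add ((d1.add c1).const_mul _)
  have hpt : ∀ p ∈ Λ ×ˢ Λ, fd δ p.1 p.2 * ρ₁ p.1 * ρ₂ p.2 ≤ L * (ek δ (p.1 - p.2) * ρ₂ p.2) +
      L * (ek δ (p.1 - p.2) * ρ₁ p.1) + (Real.log L)⁻¹ * (pl (ρ₁ p.1) * pl (ρ₂ p.2) +
        ek δ (p.1 - p.2) * pl (ρ₂ p.2)) := fun p hp =>
    fd_main hδ hL p.1 p.2 (h₁.nonneg _ hp.1) (h₂.nonneg _ hp.2)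
  have hm : AEStronglyMeasurable (fun p : ℂ × ℂ => fd δ p.1 p.2 * ρ₁ p.1 * ρ₂ p.2)
      ((volume : Measure (ℂ × ℂ)).restrict (Λ ×ˢ Λ)) := by
    rw [vol_prod_restrict]
    exact ((measurable_fd δ).aestronglyMeasurable.mul
      h₁.integrable.aestronglyMeasurable.comp_fst).mul
        h₂.integrable.aestronglyMeasurable.comp_snd
  have hi : IntegrableOn (fun p : ℂ × ℂ => fd δ p.1 p.2 * ρ₁ p.1 * ρ₂ p.2) (Λ ×ˢ Λ) := by
    refine Integrable.mono' hb hm ?_
    filter_upwards [ae_restrict_mem (hΛ.prod hΛ)] with p hp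
    rw [Real.norm_of_nonneg (mul_nonneg (mul_nonneg (fd_nonneg _ _ _) (h₁.nonneg _ hp.1))
      (h₂.nonneg _ hp.2))]
    exact hpt p hp
  refine ⟨hi, (setIntegral_mono_on hi hb (hΛ.prod hΛ) hpt).trans ?_⟩
  have i1 : IntegrableOn (fun p : ℂ × ℂ => L * (ek δ (p.1 - p.2) * ρ₂ p.2)) (Λ ×ˢ Λ) :=
    a1.const_mul L
  have i2 : IntegrableOn (fun p : ℂ × ℂ => L * (ek δ (p.1 - p.2) * ρ₁ p.1)) (Λ ×ˢ Λ) :=
    b1.const_mul L
  have i3 : IntegrableOn (fun p : ℂ × ℂ => L * (ek δ (p.1 - p.2) * ρ₂ p.2) +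
      L * (ek δ (p.1 - p.2) * ρ₁ p.1)) (Λ ×ˢ Λ) := i1.add i2
  have i4 : IntegrableOn (fun p : ℂ × ℂ => (Real.log L)⁻¹ * (pl (ρ₁ p.1) * pl (ρ₂ p.2) +
        ek δ (p.1 - p.2) * pl (ρ₂ p.2))) (Λ ×ˢ Λ) := (d1.add c1).const_mul _
  rw [integral_add i3 i4, integral_add i1 i2, integral_const_mul, integral_const_mul,
    integral_const_mul, integral_add d1 c1, d2]
  rw [h₂.integral] at a2
  rw [h₁.integral] at b2
  have e1 : L * ∫ p in Λ ×ˢ Λ, ek δ (p.1 - p.2) * ρ₂ p.2 ≤ L * (2 * Real.pi * δ ^ 2 * 1) :=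
    mul_le_mul_of_nonneg_left a2 (by linarith)
  have e2 : L * ∫ p in Λ ×ˢ Λ, ek δ (p.1 - p.2) * ρ₁ p.1 ≤ L * (2 * Real.pi * δ ^ 2 * 1) :=
    mul_le_mul_of_nonneg_left b2 (by linarith)
  have e3 := mul_le_mul_of_nonneg_left (add_le_add_right c2
    ((∫ x in Λ, pl (ρ₁ x)) * (∫ x in Λ, pl (ρ₂ x)))) (inv_nonneg.2 hl.le)
  linarith

lemma ae_ne : ∀ᵐ p : ℂ × ℂ, p.1 ≠ p.2 := by
  have hm : MeasurableSet {p : ℂ × ℂ | p.1 = p.2} := measurableSet_eq_fun measurable_fst
    measurable_snd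
  have h : (volume : Measure (ℂ × ℂ)) {p : ℂ × ℂ | p.1 = p.2} = 0 := by
    have : (volume : Measure (ℂ × ℂ)) = (volume : Measure ℂ).prod (volume : Measure ℂ) := rfl
    rw [this, Measure.measure_prod_null hm]
    filter_upwards with x
    have e : Prod.mk x ⁻¹' {p : ℂ × ℂ | p.1 = p.2} = {x} := by
      ext y
      simp [eq_comm]
    rw [e]
    simp
  rw [ae_iff]
  simpa using h

namespace Ker

variable {Λ : Set ℂ} {g : ℂ → ℂ → ℝ} {D C₃ cL CB : ℝ} (hK : Ker Λ g D C₃ cL CB)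

include hK

lemma measurableSet : MeasurableSet Λ := hK.isOpen.measurableSet

lemma volume_ne_top : volume Λ ≠ ⊤ := by
  have h : Λ ⊆ closedBall 0 D := fun x hx => by simpa using hK.norm_le x hx
  exact ((measure_mono h).trans_lt measure_closedBall_lt_top).ne

lemma volume_pos : 0 < volume Λ := hK.isOpen.measure_pos _ hK.nonempty

lemma K_nonneg {x y : ℂ} (hx : x ∈ Λ) (hy : y ∈ Λ) (hxy : x ≠ y) : 0 ≤ K g x y := by
  have := hK.log_le x hx y hy hxy
  unfold K
  linarith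

lemma K_le_fd {x y : ℂ} (hx : x ∈ Λ) (hy : y ∈ Λ) (hxy : x ≠ y) : K g x y ≤ fd D x y := by
  have h1 := hK.le_log x hx y hy
  have hD : 0 < D := by linarith [hK.one_le]
  unfold K fd
  rw [Real.log_div hD.ne' (norm_pos_iff.2 (sub_ne_zero.2 hxy)).ne']
  exact le_max_of_le_right (by linarith)

lemma aesm_K : AEStronglyMeasurable (fun p : ℂ × ℂ => K g p.1 p.2)
    ((volume : Measure (ℂ × ℂ)).restrict (Λ ×ˢ Λ)) := by
  unfold K
  refine (hK.smooth.continuousOn.aestronglyMeasurable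
    (hK.measurableSet.prod hK.measurableSet)).sub ?_
  exact (by fun_prop : Measurable fun p : ℂ × ℂ => Real.log ‖p.1 - p.2‖).aestronglyMeasurable

end Ker

/-- the pointwise estimate turned into integrability -/
lemma integrableOn_of_abs_le {Λ : Set ℂ} {f F : ℂ × ℂ → ℝ}
    (hf : AEStronglyMeasurable f ((volume : Measure (ℂ × ℂ)).restrict (Λ ×ˢ Λ)))
    (hΛ : MeasurableSet Λ) (hF : IntegrableOn F (Λ ×ˢ Λ))
    (h : ∀ x ∈ Λ, ∀ y ∈ Λ, x ≠ y → |f (x, y)| ≤ F (x, y)) : IntegrableOn f (Λ ×ˢ Λ) := by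
  refine Integrable.mono' hF hf ?_
  filter_upwards [ae_restrict_mem (hΛ.prod hΛ), ae_restrict_of_ae ae_ne] with p hp hne
  exact h p.1 hp.1 p.2 hp.2 hne

theorem taskS1 : TaskS1 := by
  intro Λ g D C₃ cL CB hK
  have hΛ := hK.measurableSet
  have hV := hK.volume_ne_top
  have hD : 0 < D := by linarith [hK.one_le]
  set V := (volume Λ).toReal with hVdef
  have hV0 : 0 ≤ V := ENNReal.toReal_nonneg
  refine ⟨?_, ?_, ?_⟩
  · intro ρ₁ ρ₂ h₁ h₂
    have hi := (fd_int hΛ hV h₁ h₂ hD (by norm_num : (1 : ℝ) < 2)).1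
    refine integrableOn_of_abs_le ?_ hΛ hi ?_
    · refine (hK.aesm_K.mul ?_).mul ?_
      · rw [vol_prod_restrict]
        exact h₁.integrable.aestronglyMeasurable.comp_fst
      · rw [vol_prod_restrict]
        exact h₂.integrable.aestronglyMeasurable.comp_snd
    · intro x hx y hy hxy
      have e1 := hK.K_nonneg hx hy hxy
      have e2 := hK.K_le_fd hx hy hxy
      have e3 := h₁.nonneg x hx
      have e4 := h₂.nonneg y hy
      simp only
      rw [abs_of_nonneg (by positivity)]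
      gcongr
  · intro Kb η hη
    set P := |Kb| + V with hP
    have hP0 : 0 ≤ P := by positivity
    -- choose L
    set l := 2 * (P * P + 8 * P) / η + 1 with hl
    have hl0 : 0 < l := by positivity
    set L := Real.exp l with hLdef
    have hL1 : 1 < L := by
      rw [hLdef]
      exact Real.one_lt_exp_iff.2 hl0
    have hL0 : 0 < L := by linarith
    have hlogL : Real.log L = l := Real.log_exp l
    refine ⟨min (1 / 2) (η / (32 * L)), by positivity, by
      exact lt_of_le_of_lt (min_le_left _ _) (by norm_num), ?_⟩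
    intro δ hδ hδ₀ ρ₁ ρ₂ h₁ h₂ hb₁ hb₂
    obtain ⟨i1, i2⟩ := fd_int hΛ hV h₁ h₂ hδ hL1
    refine ⟨i1, i2.trans ?_⟩
    have hδ1 : δ ≤ 1 / 2 := hδ₀.trans (min_le_left _ _)
    have hδ2 : δ ≤ η / (32 * L) := hδ₀.trans (min_le_right _ _)
    have hc : 2 * Real.pi * δ ^ 2 ≤ 8 * δ := by
      have := Real.pi_le_four
      have e : δ ^ 2 ≤ δ := by nlinarith
      nlinarith
    have hc' : 2 * Real.pi * δ ^ 2 ≤ 8 := by linarith
    have hc0 : 0 ≤ 2 * Real.pi * δ ^ 2 := by positivity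
    have p1 : ∫ x in Λ, pl (ρ₁ x) ≤ P := by
      have := h₁.pl_integral_le hΛ hV
      have := le_abs_self Kb
      linarith
    have p2 : ∫ x in Λ, pl (ρ₂ x) ≤ P := by
      have := h₂.pl_integral_le hΛ hV
      have := le_abs_self Kb
      linarith
    have q1 := h₁.pl_integral_nonneg hΛ
    have q2 := h₂.pl_integral_nonneg hΛ
    have s1 : 2 * L * (2 * Real.pi * δ ^ 2) ≤ η / 2 := by
      calc 2 * L * (2 * Real.pi * δ ^ 2) ≤ 2 * L * (8 * (η / (32 * L))) :=
            mul_le_mul_of_nonneg_left (by linarith) (by positivity)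
        _ = η / 2 := by field_simp; norm_num
    have s2 : (Real.log L)⁻¹ * ((∫ x in Λ, pl (ρ₁ x)) * (∫ x in Λ, pl (ρ₂ x)) +
        2 * Real.pi * δ ^ 2 * ∫ x in Λ, pl (ρ₂ x)) ≤ η / 2 := by
      rw [hlogL]
      calc l⁻¹ * ((∫ x in Λ, pl (ρ₁ x)) * (∫ x in Λ, pl (ρ₂ x)) +
        2 * Real.pi * δ ^ 2 * ∫ x in Λ, pl (ρ₂ x)) ≤ l⁻¹ * (P * P + 8 * P) := by gcongr
        _ ≤ η / 2 := by
          rw [inv_mul_le_iff₀ hl0, hl]
          field_simp
          nlinarith
    linarith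
  · intro Kb η hη
    set P := |Kb| + V with hP
    have hP0 : 0 ≤ P := by positivity
    set l := 2 * P / η + 1 with hl
    have hl0 : 0 < l := by positivity
    set L := Real.exp l with hLdef
    have hL1 : 1 < L := by
      rw [hLdef]
      exact Real.one_lt_exp_iff.2 hl0
    have hL0 : 0 < L := by linarith
    have hlogL : Real.log L = l := Real.log_exp l
    refine ⟨η / (2 * L), by positivity, ?_⟩
    intro ρ h hb A hA hAΛ hvol
    have p1 : ∫ x in Λ, pl (ρ x) ≤ P := by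
      have := h.pl_integral_le hΛ hV
      have := le_abs_self Kb
      linarith
    have hA' : (volume A).toReal ≤ η / (2 * L) := by
      have := ENNReal.toReal_mono ENNReal.ofReal_ne_top hvol
      rwa [ENNReal.toReal_ofReal (by positivity)] at this
    have : IsFiniteMeasure (volume.restrict A) :=
      ⟨by simpa using lt_of_le_of_lt (measure_mono hAΛ) hV.lt_top⟩
    have ip := (h.pl_integrable hΛ hV)
    have ia : IntegrableOn (fun x => pl (ρ x) / Real.log L) A :=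
      (ip.mono_set hAΛ).div_const _
    calc ∫ x in A, ρ x ≤ ∫ x in A, (L + pl (ρ x) / Real.log L) :=
          setIntegral_mono_on (h.integrable.mono_set hAΛ) ((integrable_const L).add ia) hA
            (fun x hx => le_pl (h.nonneg x (hAΛ hx)) hL1)
      _ = L * (volume A).toReal + (∫ x in A, pl (ρ x)) / l := by
          rw [integral_add (integrable_const L) ia, integral_div, hlogL]
          simp [Measure.real, mul_comm]
      _ ≤ L * (η / (2 * L)) + P / l := by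
          have : ∫ x in A, pl (ρ x) ≤ P := by
            refine le_trans (setIntegral_mono_set ip ?_ (ae_of_all _ hAΛ)) p1
            filter_upwards [ae_restrict_mem hΛ] with x hx using pl_nonneg (h.nonneg x hx)
          gcongr
      _ ≤ η := by
          have e1 : L * (η / (2 * L)) = η / 2 := by field_simp
          have e2 : P / l ≤ η / 2 := by
            rw [div_le_iff₀ hl0, hl]
            field_simp
            nlinarith
          linarith

end Pool.Agent.H836_PV
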