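import Pool.Agent.H836_PV.StmtsB

/-!
# Task Um
-/

open MeasureTheory Filter Topology Set Metric

namespace Pool.Agent.H836_PV

namespace Um

variable {ι : Type} [Fintype ι] [DecidableEq ι]

/-- Fubini -/
theorem fubini (s : Finset ι) {S : Set (ι → ℂ)} (hS : MeasurableSet S) :
    volume S = ∫⁻ y : {i // i ∉ s} → ℂ, volume {u : {i // i ∈ s} → ℂ | glue s u y ∈ S} := by
  have hmp := volume_preserving_piEquivPiSubtypeProd (fun _ : ι => ℂ) (fun i => i ∈ s)
  have h1 := (MeasurePreserving.symm _ hmp).measure_preimage hS.nullMeasurableSet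
  rw [← h1, Measure.volume_eq_prod, Measure.prod_apply_symm]
  · have hI : (Subtype.fintype fun i => i ∈ s) = Finset.Subtype.fintype s := Subsingleton.elim _ _
    rw [hI]
    rfl
  · exact (MeasurableEquiv.piEquivPiSubtypeProd (fun _ : ι => ℂ) (fun i => i ∈ s)).symm.measurable hS

theorem fubini_le (s : Finset ι) {S : Set (ι → ℂ)} (hS : MeasurableSet S)
    {Y : Set ({i // i ∉ s} → ℂ)} {c : ENNReal}
    (h1 : ∀ u y, glue s u y ∈ S → y ∈ Y)
    (h2 : ∀ y ∈ Y, volume {u : {i // i ∈ s} → ℂ | glue s u y ∈ S} ≤ c) :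
    volume S ≤ c * volume Y := by
  rw [fubini s hS]
  refine le_trans (lintegral_mono (g := Y.indicator (fun _ => c)) fun y => ?_)
    (lintegral_indicator_const_le Y c)
  by_cases hy : y ∈ Y
  · rw [indicator_of_mem hy]; exact h2 y hy
  · have : {u : {i // i ∈ s} → ℂ | glue s u y ∈ S} = ∅ := by
      ext u
      simp only [mem_ofPred_eq, mem_empty_iff_false, iff_false]
      exact fun hu => hy (h1 u y hu)
    rw [this, measure_empty]
    exact zero_le

/-- coincidences are null -/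
theorem null_coinc (i j : ι) (hij : i ≠ j) : volume {x : ι → ℂ | x i = x j} = 0 := by
  let V : Submodule ℝ (ι → ℂ) :=
    { carrier := {x | x i = x j}
      add_mem' := fun {a b} ha hb => by
        simp only [mem_ofPred_eq, Pi.add_apply] at *; rw [ha, hb]
      zero_mem' := rfl
      smul_mem' := fun t a ha => by
        simp only [mem_ofPred_eq, Pi.smul_apply] at *; rw [ha] }
  have hV : V ≠ ⊤ := by
    intro h
    have : (Pi.single i 1 : ι → ℂ) ∈ V := by rw [h]; exact Submodule.mem_top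
    have h2 : (Pi.single i 1 : ι → ℂ) i = (Pi.single i 1 : ι → ℂ) j := this
    rw [Pi.single_eq_same, Pi.single_eq_of_ne hij.symm] at h2
    exact one_ne_zero h2
  exact Measure.addHaar_submodule volume V hV

theorem null_notInj : volume {x : ι → ℂ | ¬ Function.Injective x} = 0 := by
  have : {x : ι → ℂ | ¬ Function.Injective x} ⊆
      ⋃ p : ι × ι, ⋃ _ : p.1 ≠ p.2, {x : ι → ℂ | x p.1 = x p.2} := by
    intro x hx
    simp only [mem_ofPred_eq, Function.Injective] at hx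
    push Not at hx
    obtain ⟨i, j, h1, h2⟩ := hx
    simp only [mem_iUnion, exists_prop, mem_ofPred_eq]
    exact ⟨(i, j), h2, h1⟩
  refine measure_mono_null this ?_
  exact measure_iUnion_null fun p => measure_iUnion_null fun hp => null_coinc _ _ hp

omit [DecidableEq ι] in
theorem isOpen_cf {Λ : Set ℂ} (hΛ : IsOpen Λ) : IsOpen (cf Λ ι) := by
  have : cf Λ ι = ⋂ i, (fun x : ι → ℂ => x i) ⁻¹' Λ := by ext; simp [cf]
  rw [this]
  exact isOpen_iInter_of_finite fun i => hΛ.preimage (continuous_apply i)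

omit [DecidableEq ι] in
/-- measurability of the Hamiltonian on `cf Λ ι` -/
theorem meas_Ham {Λ : Set ℂ} {g : ℂ → ℂ → ℝ} {D C₃ cL CB : ℝ} (h : Ker Λ g D C₃ cL CB)
    (c : ι → ℝ) {T : Set ℝ} (hT : MeasurableSet T) :
    MeasurableSet (cf Λ ι ∩ {x | Ham g c x ∈ T}) := by
  classical
  have ho := isOpen_cf (ι := ι) h.isOpen
  have hcf := ho.measurableSet
  have h1 : ∀ i j, Measurable ((cf Λ ι).piecewise (fun x : ι → ℂ => g (x i) (x j)) 0) := by
    intro i j
    refine ContinuousOn.measurable_piecewise ?_ continuousOn_const hcf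
    have := h.smooth.continuousOn.comp (s := cf Λ ι)
      (f := fun x : ι → ℂ => (x i, x j)) (by fun_prop) (fun x hx => ⟨hx i, hx j⟩)
    exact this
  have h2 : ∀ i j, Measurable (fun x : ι → ℂ => Real.log ‖x i - x j‖) := fun i j =>
    Real.measurable_log.comp ((measurable_pi_apply i).sub (measurable_pi_apply j)).norm
  have h3 : Measurable (fun x : ι → ℂ => 1 / 2 * ∑ i, ∑ j, c i * c j *
      ((cf Λ ι).piecewise (fun x : ι → ℂ => g (x i) (x j)) 0 x - Real.log ‖x i - x j‖)) :=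
    measurable_const.mul (Finset.measurable_sum _ fun i _ => Finset.measurable_sum _ fun j _ =>
      measurable_const.mul ((h1 i j).sub (h2 i j)))
  have h4 : cf Λ ι ∩ {x | Ham g c x ∈ T} = cf Λ ι ∩ (fun x : ι → ℂ => 1 / 2 * ∑ i, ∑ j, c i * c j *
      ((cf Λ ι).piecewise (fun x : ι → ℂ => g (x i) (x j)) 0 x - Real.log ‖x i - x j‖)) ⁻¹' T := by
    ext x
    simp only [mem_inter_iff, mem_ofPred_eq, mem_preimage]
    refine and_congr_right fun hx => ?_
    simp only [Set.piecewise_eq_of_mem _ _ _ hx, Ham, K]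
  rw [h4]
  exact hcf.inter (h3 hT)

theorem closed_ball_sub {Λ : Set ℂ} (r : ℝ) : IsClosed {z : ℂ | ball z r ⊆ Λ} := by
  rw [← isOpen_compl_iff, Metric.isOpen_iff]
  intro z hz
  simp only [mem_compl_iff, mem_ofPred_eq, not_subset] at hz
  obtain ⟨w, hw, hwΛ⟩ := hz
  refine ⟨r - dist w z, by rw [mem_ball] at hw; linarith, fun z' hz' => ?_⟩
  simp only [mem_compl_iff, mem_ofPred_eq, not_subset]
  refine ⟨w, ?_, hwΛ⟩
  rw [mem_ball] at *
  have := dist_triangle w z z'
  rw [dist_comm z z'] at this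
  linarith

theorem meas_Gd {Λ : Set ℂ} (r : ℝ) (i : ι) :
    MeasurableSet {x : ι → ℂ | Gd Λ Finset.univ r x i} := by
  have : {x : ι → ℂ | Gd Λ Finset.univ r x i} = (fun x : ι → ℂ => x i) ⁻¹' {z : ℂ | ball z r ⊆ Λ} ∩
      ⋂ j, {x : ι → ℂ | j ≠ i → r ≤ ‖x i - x j‖} := by
    ext x; simp [Gd]
  rw [this]
  refine ((measurable_pi_apply i) (closed_ball_sub r).measurableSet).inter
    (MeasurableSet.iInter fun j => ?_)
  by_cases hj : j = i
  · subst hj; simp
  · have : {x : ι → ℂ | j ≠ i → r ≤ ‖x i - x j‖} = {x : ι → ℂ | r ≤ ‖x i - x j‖} := by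
      ext x; simp [hj]
    rw [this]
    exact measurableSet_le measurable_const
      ((measurable_pi_apply i).sub (measurable_pi_apply j)).norm

theorem meas_bad {Λ : Set ℂ} (r : ℝ) (N k : ℕ) :
    MeasurableSet {x : ι → ℂ | N ≤ k + Set.ncard {i | ¬ Gd Λ Finset.univ r x i}} := by
  classical
  have h1 : ∀ x : ι → ℂ, Set.ncard {i | ¬ Gd Λ Finset.univ r x i} =
      ∑ i, (({x : ι → ℂ | Gd Λ Finset.univ r x i}ᶜ).indicator (fun _ => 1) x : ℕ) := by
    intro x
    rw [Set.ncard_eq_toFinset_card', Finset.card_eq_sum_ones]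
    rw [← Finset.sum_subset (Finset.subset_univ {i | ¬ Gd Λ Finset.univ r x i}.toFinset)]
    · refine Finset.sum_congr rfl fun i hi => ?_
      rw [mem_toFinset] at hi
      exact (indicator_of_mem (show x ∈ {x : ι → ℂ | Gd Λ Finset.univ r x i}ᶜ from hi)
        (fun _ => (1 : ℕ))).symm
    · intro i _ hi
      rw [mem_toFinset] at hi
      exact indicator_of_notMem (show x ∉ {x : ι → ℂ | Gd Λ Finset.univ r x i}ᶜ from
        fun h => hi h) (fun _ => (1 : ℕ))
  have h2 : Measurable (fun x : ι → ℂ => k + Set.ncard {i | ¬ Gd Λ Finset.univ r x i}) := by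
    simp only [h1]
    exact measurable_const.add (Finset.measurable_sum _ fun i _ =>
      measurable_const.indicator (meas_Gd r i).compl)
  exact measurableSet_le measurable_const h2

omit [Fintype ι] [DecidableEq ι] in
theorem Gd_mono {Λ : Set ℂ} {r r' : ℝ} (h : r' ≤ r) {x : ι → ℂ} {i : ι} {t : Finset ι}
    (hG : Gd Λ t r x i) : Gd Λ t r' x i :=
  ⟨(ball_subset_ball h).trans hG.1, fun j hj hji => h.trans (hG.2 j hj hji)⟩

theorem tendsto_exp (m₀ : ℕ) : Tendsto (fun m : ℕ => Real.exp (-((m₀ : ℝ) + m))) atTop (𝓝 0) := by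
  refine Real.tendsto_exp_neg_atTop_nhds_zero.comp ?_
  exact tendsto_atTop_add_const_left _ _ tendsto_natCast_atTop_atTop

omit [DecidableEq ι] in
theorem eventually_good {Λ : Set ℂ} (hΛ : IsOpen Λ) {x : ι → ℂ} (hx : x ∈ cf Λ ι)
    (hinj : Function.Injective x) (m₀ : ℕ) (i : ι) :
    ∀ᶠ m : ℕ in atTop, Gd Λ Finset.univ (Real.exp (-((m₀ : ℝ) + m))) x i := by
  obtain ⟨ε, hε, hb⟩ := Metric.isOpen_iff.1 hΛ (x i) (hx i)
  have h1 : ∀ᶠ m : ℕ in atTop, Real.exp (-((m₀ : ℝ) + m)) ≤ ε :=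
    (tendsto_exp m₀).eventually (ge_mem_nhds hε)
  have h2 : ∀ᶠ m : ℕ in atTop, ∀ j, j ≠ i → Real.exp (-((m₀ : ℝ) + m)) ≤ ‖x i - x j‖ := by
    rw [eventually_all]
    intro j
    by_cases hj : j = i
    · exact Eventually.of_forall fun m h => absurd hj h
    · have : 0 < ‖x i - x j‖ := norm_pos_iff.2 (sub_ne_zero.2 fun h => hj (hinj h).symm)
      filter_upwards [(tendsto_exp m₀).eventually (ge_mem_nhds this)] with m hm _
      exact hm
  filter_upwards [h1, h2] with m k1 k2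
  exact ⟨(ball_subset_ball k1).trans hb, fun j _ hj => k2 j hj⟩

theorem cover {Λ : Set ℂ} (hΛ : IsOpen Λ) (hN : 3 ≤ Fintype.card ι) {x : ι → ℂ}
    (hx : x ∈ cf Λ ι) (hinj : Function.Injective x) (m₀ : ℕ) :
    ∃ s ∈ (Finset.univ : Finset ι).powersetCard 3,
      (∀ i ∈ s, Gd Λ Finset.univ (Real.exp (-(m₀ : ℝ))) x i) ∨
      ∃ m : ℕ, (∀ i ∈ s, Gd Λ Finset.univ (Real.exp (-((m₀ : ℝ) + 1 + m))) x i) ∧
        Fintype.card ι ≤ 2 + Set.ncard {i | ¬ Gd Λ Finset.univ (Real.exp (-((m₀ : ℝ) + m))) x i} := by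
  classical
  let P : ℕ → Prop := fun k => ∃ s ∈ (Finset.univ : Finset ι).powersetCard 3,
    ∀ i ∈ s, Gd Λ Finset.univ (Real.exp (-((m₀ : ℝ) + k))) x i
  have hP : ∃ k, P k := by
    have h1 : ∀ᶠ m : ℕ in atTop, ∀ i, Gd Λ Finset.univ (Real.exp (-((m₀ : ℝ) + m))) x i :=
      eventually_all.2 fun i => eventually_good hΛ hx hinj m₀ i
    obtain ⟨k, hk⟩ := h1.exists
    obtain ⟨s, hs, hs3⟩ := Finset.exists_subset_card_eq (s := (Finset.univ : Finset ι)) (n := 3)
      (by rw [Finset.card_univ]; exact hN)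
    exact ⟨k, s, Finset.mem_powersetCard.2 ⟨hs, hs3⟩, fun i _ => hk i⟩
  rcases h0 : Nat.find hP with _ | k
  · obtain ⟨s, hs, h⟩ := Nat.find_spec hP
    refine ⟨s, hs, Or.inl fun i hi => ?_⟩
    have := h i hi
    rw [h0] at this
    simpa using this
  · obtain ⟨s, hs, h⟩ := Nat.find_spec hP
    have hk : ¬ P k := Nat.find_min hP (by omega)
    refine ⟨s, hs, Or.inr ⟨k, fun i hi => ?_, ?_⟩⟩
    · have := h i hi
      rw [h0] at this
      have e : (m₀ : ℝ) + 1 + k = m₀ + ((k + 1 : ℕ) : ℝ) := by push_cast; ring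
      rw [e]; exact this
    · have h2 : ((Finset.univ : Finset ι).filter fun i =>
          Gd Λ Finset.univ (Real.exp (-((m₀ : ℝ) + k))) x i).card ≤ 2 := by
        by_contra hlt
        push Not at hlt
        obtain ⟨t, ht, ht3⟩ := Finset.exists_subset_card_eq hlt
        exact hk ⟨t, Finset.mem_powersetCard.2 ⟨Finset.subset_univ _, ht3⟩, fun i hi =>
          (Finset.mem_filter.1 (ht hi)).2⟩
      have h3 := Finset.card_filter_add_card_filter_not (s := (Finset.univ : Finset ι))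
        (fun i => Gd Λ Finset.univ (Real.exp (-((m₀ : ℝ) + k))) x i)
      have h4 : Set.ncard {i | ¬ Gd Λ Finset.univ (Real.exp (-((m₀ : ℝ) + k))) x i} =
          ((Finset.univ : Finset ι).filter fun i =>
            ¬ Gd Λ Finset.univ (Real.exp (-((m₀ : ℝ) + k))) x i).card := by
        rw [← Set.ncard_coe_finset]
        congr 1
        ext i; simp
      rw [Finset.card_univ] at h3
      omega

theorem count {Λ : Set ℂ} {s : Finset ι} (hs : s.card = 3) {u : {i // i ∈ s} → ℂ}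
    {y : {i // i ∉ s} → ℂ} {r : ℝ} (hr : 0 < r)
    (h : Fintype.card ι ≤ 2 + Set.ncard {i | ¬ Gd Λ Finset.univ r (glue s u y) i}) :
    Fintype.card ι ≤ 8 + Set.ncard {i | ¬ Gd Λ Finset.univ (2 * r) y i} := by
  classical
  set x := glue s u y with hx
  have hxy : ∀ i (hi : i ∉ s), x i = y ⟨i, hi⟩ := fun i hi => by rw [hx]; simp [glue, hi]
  set B := (Finset.univ : Finset ι).filter fun i => ¬ Gd Λ Finset.univ r x i with hB
  set By := ((Finset.univ : Finset {i // i ∉ s}).filter fun i =>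
    ¬ Gd Λ Finset.univ (2 * r) y i).image Subtype.val with hBy
  have hByc : By.card = Set.ncard {i | ¬ Gd Λ Finset.univ (2 * r) y i} := by
    rw [hBy, Finset.card_image_of_injective _ Subtype.val_injective, ← Set.ncard_coe_finset]
    congr 1
    ext i; simp
  have hBc : B.card = Set.ncard {i | ¬ Gd Λ Finset.univ r x i} := by
    rw [hB, ← Set.ncard_coe_finset]
    congr 1
    ext i; simp
  have hmem : ∀ i (hi : i ∉ s), i ∈ By ↔ ¬ Gd Λ Finset.univ (2 * r) y ⟨i, hi⟩ := by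
    intro i hi
    rw [hBy, Finset.mem_image]
    constructor
    · rintro ⟨j, hj, rfl⟩
      exact (Finset.mem_filter.1 hj).2
    · intro hj
      exact ⟨⟨i, hi⟩, Finset.mem_filter.2 ⟨Finset.mem_univ _, hj⟩, rfl⟩
  let Lost : ι → Finset ι := fun v => (Finset.univ : Finset ι).filter fun i =>
    i ∉ s ∧ ‖x i - x v‖ < r ∧ i ∉ By
  have hLost : ∀ v ∈ s, (Lost v).card ≤ 1 := by
    intro v _
    rw [Finset.card_le_one]
    intro a ha b hb
    simp only [Lost, Finset.mem_filter, Finset.mem_univ, true_and] at ha hb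
    by_contra hab
    apply ha.2.2
    rw [hmem a ha.1]
    intro hG
    have h1 := hG.2 ⟨b, hb.1⟩ (Finset.mem_univ _) (fun e => hab (congrArg Subtype.val e).symm)
    rw [← hxy a ha.1, ← hxy b hb.1] at h1
    have h2 : ‖x a - x b‖ ≤ ‖x a - x v‖ + ‖x b - x v‖ := by
      have := norm_sub_le (x a - x v) (x b - x v)
      rwa [sub_sub_sub_cancel_right] at this
    linarith [ha.2.1, hb.2.1]
  have hsub : B ⊆ (By ∪ s) ∪ s.biUnion Lost := by
    intro i hi
    by_cases his : i ∈ s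
    · simp [his]
    by_cases hiB : i ∈ By
    · simp [hiB]
    · have hG : Gd Λ Finset.univ (2 * r) y ⟨i, his⟩ := by
        by_contra hn
        exact hiB ((hmem i his).2 hn)
      have hbad : ¬ Gd Λ Finset.univ r x i := (Finset.mem_filter.1 hi).2
      -- some vortex of the triple is close
      obtain ⟨v, hv, hvr⟩ : ∃ v ∈ s, ‖x i - x v‖ < r := by
        by_contra hn
        push Not at hn
        apply hbad
        refine ⟨?_, fun j _ hj => ?_⟩
        · rw [hxy i his]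
          exact (ball_subset_ball (by linarith)).trans hG.1
        · by_cases hjs : j ∈ s
          · exact hn j hjs
          · have := hG.2 ⟨j, hjs⟩ (Finset.mem_univ _) (fun e => hj (congrArg Subtype.val e))
            rw [hxy i his, hxy j hjs]
            linarith
      refine Finset.mem_union_right _ (Finset.mem_biUnion.2 ⟨v, hv, ?_⟩)
      simp only [Lost, Finset.mem_filter, Finset.mem_univ, true_and]
      exact ⟨his, hvr, hiB⟩
  have h1 := Finset.card_le_card hsub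
  have h2 : (s.biUnion Lost).card ≤ 3 := by
    have := Finset.card_biUnion_le_card_mul s Lost 1 hLost
    omega
  have h3 := Finset.card_union_le (By ∪ s) (s.biUnion Lost)
  have h4 := Finset.card_union_le By s
  omega

theorem goodAt {Λ : Set ℂ} {s : Finset ι} {u : {i // i ∈ s} → ℂ} {y : {i // i ∉ s} → ℂ} {r : ℝ}
    (h : ∀ i ∈ s, Gd Λ Finset.univ r (glue s u y) i) : GoodAt Λ s y r u := by
  have hu : ∀ i (hi : i ∈ s), glue s u y i = u ⟨i, hi⟩ := fun i hi => by simp [glue, hi]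
  have hy : ∀ i (hi : i ∉ s), glue s u y i = y ⟨i, hi⟩ := fun i hi => by simp [glue, hi]
  refine ⟨?_, ?_, ?_⟩
  · rintro ⟨i, hi⟩
    rw [← hu i hi]; exact (h i hi).1
  · rintro ⟨i, hi⟩ ⟨j, hj⟩ hij
    rw [← hu i hi, ← hu j hj]
    exact (h i hi).2 j (Finset.mem_univ _) fun e => hij (by simp [e])
  · rintro ⟨i, hi⟩ ⟨j, hj⟩
    rw [← hu i hi, ← hy j hj]
    exact (h i hi).2 j (Finset.mem_univ _) fun e => hj (e ▸ hi)

end Um

open Um

theorem taskUm (hU1 : TaskU1) : TaskUm := by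
  intro Λ g D C₃ cL CB hK
  obtain ⟨C, hC, h1⟩ := hU1 Λ g D C₃ cL CB hK
  refine ⟨C, hC, ?_⟩
  intro ι _ _ hN c hc A hA m₀ E δ hδ
  classical
  -- the shell
  set T : Set (ι → ℂ) := cf Λ ι ∩ {x | Ham g c x ∈ Ico E (E + δ)} with hT
  have hTm : MeasurableSet T := meas_Ham hK c measurableSet_Ico
  let S0 : Finset ι → Set (ι → ℂ) := fun s =>
    (T ∩ A) ∩ ⋂ i ∈ s, {x | Gd Λ Finset.univ (Real.exp (-(m₀ : ℝ))) x i}
  let S1 : Finset ι → ℕ → Set (ι → ℂ) := fun s m =>
    ((T ∩ A) ∩ ⋂ i ∈ s, {x | Gd Λ Finset.univ (Real.exp (-((m₀ : ℝ) + 1 + m))) x i}) ∩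
      {x | Fintype.card ι ≤ 2 + Set.ncard {i | ¬ Gd Λ Finset.univ (Real.exp (-((m₀ : ℝ) + m))) x i}}
  have hS0m : ∀ s, MeasurableSet (S0 s) := fun s =>
    (hTm.inter hA).inter (Finset.measurableSet_biInter _ fun i _ => meas_Gd _ i)
  have hS1m : ∀ s m, MeasurableSet (S1 s m) := fun s m =>
    ((hTm.inter hA).inter (Finset.measurableSet_biInter _ fun i _ => meas_Gd _ i)).inter
      (meas_bad _ _ _)
  have hcov : cf Λ ι ∩ A ∩ {x | E ≤ Ham g c x ∧ Ham g c x < E + δ} ⊆
      (⋃ s ∈ (Finset.univ : Finset ι).powersetCard 3, (S0 s ∪ ⋃ m, S1 s m)) ∪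
        {x | ¬ Function.Injective x} := by
    rintro x ⟨⟨hx, hxA⟩, hxE⟩
    by_cases hinj : Function.Injective x
    · left
      obtain ⟨s, hs, h⟩ := cover hK.isOpen hN hx hinj m₀
      simp only [mem_iUnion, exists_prop]
      refine ⟨s, hs, ?_⟩
      rcases h with h | ⟨m, h, h'⟩
      · left
        exact ⟨⟨⟨hx, hxE⟩, hxA⟩, by simpa using h⟩
      · right
        simp only [mem_iUnion]
        exact ⟨m, ⟨⟨⟨hx, hxE⟩, hxA⟩, by simpa using h⟩, h'⟩
    · right; exact hinj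
  -- the bound for one triple
  have hexp : ∀ t : ℝ, 0 ≤ t → 0 < Real.exp (-t) ∧ Real.exp (-t) ≤ 1 := fun t ht =>
    ⟨Real.exp_pos _, Real.exp_le_one_iff.2 (by linarith)⟩
  have hpow : ∀ t : ℝ, C * δ * (Fintype.card ι : ℝ) ^ 2 / Real.exp (-t) ^ 20 =
      C * δ * (Fintype.card ι : ℝ) ^ 2 * Real.exp (20 * t) := by
    intro t
    rw [div_eq_mul_inv, ← Real.exp_nat_mul, ← Real.exp_neg]
    congr 2
    push_cast; ring
  have hglue : ∀ (s : Finset ι) (u : {i // i ∈ s} → ℂ) (y : {i // i ∉ s} → ℂ),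
      glue s u y ∈ cf Λ ι → ∀ i, y i ∈ Λ := by
    rintro s u y h ⟨i, hi⟩
    have := h i
    simpa [glue, hi] using this
  have b0 : ∀ s ∈ (Finset.univ : Finset ι).powersetCard 3, volume (S0 s) ≤
      ENNReal.ofReal (C * δ * Fintype.card ι ^ 2 * Real.exp (20 * m₀)) *
          volume {y : {i // i ∉ s} → ℂ | (∀ i, y i ∈ Λ) ∧
            ∃ u, GoodAt Λ s y (Real.exp (-m₀)) u ∧ glue s u y ∈ A ∧ E ≤ Ham g c (glue s u y)} := by
    intro s hs
    have hs3 := (Finset.mem_powersetCard.1 hs).2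
    apply fubini_le s (hS0m s)
    · rintro u y ⟨⟨⟨hcf, hH⟩, hA'⟩, hG⟩
      refine ⟨hglue s u y hcf, u, goodAt ?_, hA', hH.1⟩
      simpa using hG
    · rintro y ⟨hy, -⟩
      refine (measure_mono ?_).trans ((h1 ι c hc s hs3 y hy (Real.exp (-m₀))
        (hexp _ (Nat.cast_nonneg _)).1 (hexp _ (Nat.cast_nonneg _)).2 E δ hδ).trans
        (le_of_eq (by rw [hpow])))
      rintro u ⟨⟨⟨hcf, hH⟩, hA'⟩, hG⟩
      exact ⟨goodAt (by simpa using hG), hH.1, hH.2⟩
  have b1 : ∀ s ∈ (Finset.univ : Finset ι).powersetCard 3, ∀ m : ℕ, volume (S1 s m) ≤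
      ENNReal.ofReal (C * δ * Fintype.card ι ^ 2 * Real.exp (20 * (m₀ + 1 + m))) *
          volume {y : {i // i ∉ s} → ℂ | (∀ i, y i ∈ Λ) ∧
            (∃ u, GoodAt Λ s y (Real.exp (-(m₀ + 1 + m))) u ∧ glue s u y ∈ A) ∧
            Fintype.card ι ≤ 8 + Set.ncard {i | ¬ Gd Λ Finset.univ (2 * Real.exp (-(m₀ + m))) y i}} := by
    intro s hs m
    have hs3 := (Finset.mem_powersetCard.1 hs).2
    apply fubini_le s (hS1m s m)
    · rintro u y ⟨⟨⟨⟨hcf, hH⟩, hA'⟩, hG⟩, hb⟩
      refine ⟨hglue s u y hcf, ⟨u, goodAt ?_, hA'⟩, count hs3 (Real.exp_pos _) hb⟩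
      simpa using hG
    · rintro y ⟨hy, -⟩
      refine (measure_mono ?_).trans ((h1 ι c hc s hs3 y hy (Real.exp (-(m₀ + 1 + m)))
        (hexp _ (by positivity)).1 (hexp _ (by positivity)).2 E δ hδ).trans
        (le_of_eq (by rw [hpow])))
      rintro u ⟨⟨⟨⟨hcf, hH⟩, hA'⟩, hG⟩, hb⟩
      exact ⟨goodAt (by simpa using hG), hH.1, hH.2⟩
  calc volume (cf Λ ι ∩ A ∩ {x | E ≤ Ham g c x ∧ Ham g c x < E + δ})
      ≤ volume ((⋃ s ∈ (Finset.univ : Finset ι).powersetCard 3, (S0 s ∪ ⋃ m, S1 s m)) ∪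
        {x | ¬ Function.Injective x}) := measure_mono hcov
    _ ≤ volume (⋃ s ∈ (Finset.univ : Finset ι).powersetCard 3, (S0 s ∪ ⋃ m, S1 s m)) +
        volume {x : ι → ℂ | ¬ Function.Injective x} := measure_union_le _ _
    _ = volume (⋃ s ∈ (Finset.univ : Finset ι).powersetCard 3, (S0 s ∪ ⋃ m, S1 s m)) := by
        rw [null_notInj, add_zero]
    _ ≤ ∑ s ∈ (Finset.univ : Finset ι).powersetCard 3, volume (S0 s ∪ ⋃ m, S1 s m) :=
        measure_biUnion_finset_le _ _
    _ ≤ _ := by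
        refine Finset.sum_le_sum fun s hs => ?_
        refine (measure_union_le _ _).trans (add_le_add (b0 s hs) ?_)
        refine (measure_iUnion_le _).trans ?_
        exact ENNReal.tsum_le_tsum fun m => b1 s hs m

end Pool.Agent.H836_PV
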