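import Pool.Agent.H836_PV.StmtsF
import Pool.Agent.H836_PV.Um
import Pool.Agent.H836_PV.S1

/-!
# Task Fd: exponential concentration of the empirical densities
-/

open MeasureTheory Filter Topology Set Metric

namespace Pool.Agent.H836_PV

namespace Fd

/-- a partition on which finitely many continuous functions are almost constant -/
theorem exists_part {Λ Q : Set ℂ} (hQ : IsCompact Q) (hQΛ : Q ⊆ Λ) {L : ℕ}
    (f : Fin L → ℂ → ℝ) (hf : ∀ l, ContinuousOn (f l) Λ) {B : ℝ} (hB : 0 ≤ B)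
    (hfB : ∀ l, ∀ z ∈ Λ, |f l z| ≤ B) {κ : ℝ} (hκ : 0 < κ) :
    ∃ (n : ℕ) (q : ℂ → Fin (n + 1)) (φ : Fin L → Fin (n + 1) → ℝ), Measurable q ∧
      (∀ z, q z = 0 ↔ z ∉ Q) ∧ (∀ l α, |φ l α| ≤ B) ∧
      (∀ l, ∀ z ∈ Q, |f l z - φ l (q z)| ≤ κ) := by
  classical
  rcases Q.eq_empty_or_nonempty with hQe | hQne
  · refine ⟨0, fun _ => 0, fun _ _ => 0, measurable_const, ?_, ?_, ?_⟩
    · intro z; simp [hQe]
    · intro l α; simpa using hB
    · intro l z hz; rw [hQe] at hz; exact absurd hz (notMem_empty z)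
  have hFc : ContinuousOn (fun z : ℂ => fun l => f l z) Q :=
    continuousOn_pi.mpr fun l => (hf l).mono hQΛ
  have hFu := hQ.uniformContinuousOn_of_continuous hFc
  rw [Metric.uniformContinuousOn_iff] at hFu
  obtain ⟨r, hr, hFr⟩ := hFu κ hκ
  obtain ⟨t, htQ, htf, htc⟩ := hQ.finite_cover_balls hr
  obtain ⟨n, e₀, -, he₀⟩ := htf.fin_param
  have hn : 0 < n := by
    obtain ⟨z, hz⟩ := hQne
    have h1 := htc hz
    simp only [mem_iUnion] at h1
    obtain ⟨x, hx, -⟩ := h1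
    rw [← he₀] at hx
    obtain ⟨i, -⟩ := hx
    exact i.pos
  obtain ⟨N, rfl⟩ : ∃ N, n = N + 1 := ⟨n - 1, by omega⟩
  set e : ℕ → ℂ := fun k => e₀ ⟨min k N, by omega⟩ with he
  have heQ : ∀ k, e k ∈ Q := fun k => htQ (he₀ ▸ mem_range_self _)
  set ψ : ℕ → Fin (N + 2) := fun k => ⟨min (k + 1) (N + 1), by omega⟩ with hψ
  set q : ℂ → Fin (N + 2) := fun z => if z ∈ Q then ψ (SimpleFunc.nearestPtInd e N z) else 0 with hq
  have hψ0 : ∀ k, ψ k ≠ 0 := by
    intro k h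
    have := congrArg Fin.val h
    simp only [hψ, Fin.val_zero] at this
    omega
  refine ⟨N + 1, q, fun l α => if α = 0 then 0 else f l (e ((α : ℕ) - 1)), ?_, ?_, ?_, ?_⟩
  · refine Measurable.ite hQ.measurableSet ?_ measurable_const
    exact (measurable_from_nat (f := ψ)).comp (SimpleFunc.nearestPtInd e N).measurable
  · intro z
    simp only [hq]
    split_ifs with h
    · simp [hψ0, h]
    · simp [h]
  · intro l α
    dsimp only
    split_ifs with h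
    · simpa using hB
    · exact hfB l _ (hQΛ (heQ _))
  · intro l z hz
    have h1 : q z = ψ (SimpleFunc.nearestPtInd e N z) := by simp only [hq]; rw [if_pos hz]
    rw [h1]
    dsimp only
    rw [if_neg (hψ0 _)]
    have h2 : ((ψ (SimpleFunc.nearestPtInd e N z) : Fin (N + 2)) : ℕ) - 1 =
        SimpleFunc.nearestPtInd e N z := by
      have h3 := SimpleFunc.nearestPtInd_le e N z
      simp only [hψ]
      omega
    rw [h2]
    have h4 := htc hz
    simp only [mem_iUnion] at h4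
    obtain ⟨x, hx, hxz⟩ := h4
    rw [← he₀] at hx
    obtain ⟨i, rfl⟩ := hx
    have h5 : e i = e₀ i := by
      simp only [he]
      congr 1
      ext
      simp only
      have := i.2
      omega
    have h6 := SimpleFunc.edist_nearestPt_le e z (k := i) (N := N) (by have := i.2; omega)
    rw [h5] at h6
    have h7 : dist (e (SimpleFunc.nearestPtInd e N z)) z < r := by
      have h8 : edist (e (SimpleFunc.nearestPtInd e N z)) z ≤ edist (e₀ i) z := h6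
      rw [edist_dist, edist_dist] at h8
      have h9 := (ENNReal.ofReal_le_ofReal_iff dist_nonneg).mp h8
      rw [mem_ball, dist_comm] at hxz
      exact h9.trans_lt hxz
    have h10 := hFr z hz (e (SimpleFunc.nearestPtInd e N z)) (heQ _) (by rwa [dist_comm])
    have h11 := (dist_le_pi_dist (fun l => f l z)
      (fun l => f l (e (SimpleFunc.nearestPtInd e N z))) l).trans h10.le
    rwa [Real.dist_eq] at h11

theorem emp_avg {n M : ℕ} (q : ℂ → Fin (n + 1)) (φ : Fin (n + 1) → ℝ) (x : Fin M → ℂ) :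
    ∑ α, φ α * emp q x α = 1 / (M : ℝ) * ∑ j, φ (q (x j)) := by
  classical
  have h1 : ∀ α, φ α * emp q x α = ∑ j, 1 / (M : ℝ) * (if q (x j) = α then φ α else 0) := by
    intro α
    rw [emp, Finset.card_filter, ← Finset.mul_sum]
    push_cast
    rw [mul_div_assoc', Finset.mul_sum, div_eq_mul_one_div, mul_comm]
    congr 1
    refine Finset.sum_congr rfl fun j _ => ?_
    split_ifs <;> simp
  rw [Finset.sum_congr rfl fun α _ => h1 α, Finset.sum_comm, Finset.mul_sum]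
  refine Finset.sum_congr rfl fun j _ => ?_
  rw [← Finset.mul_sum, Finset.sum_ite_eq]
  simp

theorem avg_close {Λ Q : Set ℂ} {n : ℕ} {q : ℂ → Fin (n + 1)} (hq0 : ∀ z, q z = 0 ↔ z ∉ Q)
    {F : ℂ → ℝ} {φ : Fin (n + 1) → ℝ} {B κ : ℝ} (hFB : ∀ z ∈ Λ, |F z| ≤ B) (hφ : ∀ α, |φ α| ≤ B)
    (hκ : 0 ≤ κ) (hFφ : ∀ z ∈ Q, |F z - φ (q z)| ≤ κ) {M : ℕ} (hM : 0 < M) (x : Fin M → ℂ)
    (hx : ∀ j, x j ∈ Λ) :
    |1 / (M : ℝ) * ∑ j, F (x j) - ∑ α, φ α * emp q x α| ≤ κ + 2 * B * emp q x 0 := by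
  classical
  have hM' : (0 : ℝ) < M := by exact_mod_cast hM
  rw [emp_avg, ← mul_sub, ← Finset.sum_sub_distrib]
  have h1 : ∀ j, |F (x j) - φ (q (x j))| ≤ κ + 2 * B * (if q (x j) = 0 then 1 else 0) := by
    intro j
    have hB0 : 0 ≤ B := (abs_nonneg _).trans (hφ 0)
    by_cases h : x j ∈ Q
    · have := hFφ _ h
      split_ifs <;> nlinarith
    · rw [if_pos ((hq0 _).mpr h)]
      have h2 := abs_sub (F (x j)) (φ (q (x j)))
      have h3 := hFB _ (hx j)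
      have h4 := hφ (q (x j))
      linarith
  calc |1 / (M : ℝ) * ∑ j, (F (x j) - φ (q (x j)))|
      ≤ 1 / (M : ℝ) * ∑ j, (κ + 2 * B * (if q (x j) = 0 then 1 else 0)) := by
        rw [abs_mul, abs_of_pos (by positivity : 0 < 1 / (M : ℝ))]
        exact mul_le_mul_of_nonneg_left ((Finset.abs_sum_le_sum_abs _ _).trans
          (Finset.sum_le_sum fun j _ => h1 j)) (by positivity)
    _ = κ + 2 * B * emp q x 0 := by
        rw [Finset.sum_add_distrib, Finset.sum_const, Finset.card_univ, Fintype.card_fin,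
          ← Finset.mul_sum, nsmul_eq_mul, emp, Finset.card_filter]
        push_cast
        field_simp

theorem int_close {Λ Q : Set ℂ} (hΛ : MeasurableSet Λ) {n : ℕ} {q : ℂ → Fin (n + 1)}
    (hq : Measurable q) (hq0 : ∀ z, q z = 0 ↔ z ∉ Q)
    {F : ℂ → ℝ} (hF : ContinuousOn F Λ) {φ : Fin (n + 1) → ℝ} {B κ : ℝ}
    (hFB : ∀ z ∈ Λ, |F z| ≤ B) (hφ : ∀ α, |φ α| ≤ B)
    (hκ : 0 ≤ κ) (hFφ : ∀ z ∈ Q, |F z - φ (q z)| ≤ κ) {ρ : ℂ → ℝ} (hρ : IsDens Λ ρ) :
    |(∫ z in Λ, F z * ρ z) - ∑ α, φ α * mass Λ q ρ α| ≤ κ + 2 * B * mass Λ q ρ 0 := by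
  classical
  have hms : ∀ α, MeasurableSet (q ⁻¹' {α}) := fun α => hq (measurableSet_singleton α)
  have hφm : Measurable fun z => φ (q z) := (measurable_of_finite φ).comp hq
  have hFρ : IntegrableOn (fun z => F z * ρ z) Λ := by
    refine (hρ.integrable.bdd_mul (hF.aestronglyMeasurable hΛ) (c := B) ?_)
    rw [ae_restrict_iff' hΛ]
    exact Eventually.of_forall fun z hz => by simpa using hFB z hz
  have hφρ : IntegrableOn (fun z => φ (q z) * ρ z) Λ := by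
    refine (hρ.integrable.bdd_mul hφm.aestronglyMeasurable (c := B) ?_)
    exact Eventually.of_forall fun z => by simpa using hφ (q z)
  have hind : ∀ α, IntegrableOn (fun z => (q ⁻¹' {α}).indicator ρ z) Λ := fun α =>
    hρ.integrable.indicator (hms α)
  have h1 : ∑ α, φ α * mass Λ q ρ α = ∫ z in Λ, φ (q z) * ρ z := by
    have h2 : ∀ z, φ (q z) * ρ z = ∑ α, φ α * (q ⁻¹' {α}).indicator ρ z := by
      intro z
      rw [Finset.sum_eq_single (q z)]
      · rw [indicator_of_mem (by simp)]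
      · intro α _ hα
        rw [indicator_of_notMem (by simpa using hα.symm), mul_zero]
      · intro h; exact absurd (Finset.mem_univ _) h
    simp_rw [h2]
    rw [integral_finsetSum _ fun α _ => (hind α).const_mul _]
    refine Finset.sum_congr rfl fun α _ => ?_
    rw [integral_const_mul, setIntegral_indicator (hms α)]
    rfl
  have hB0 : 0 ≤ B := (abs_nonneg _).trans (hφ 0)
  rw [h1, ← integral_sub hFρ hφρ]
  calc |∫ z in Λ, F z * ρ z - φ (q z) * ρ z|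
      ≤ ∫ z in Λ, |F z * ρ z - φ (q z) * ρ z| := abs_integral_le_integral_abs
    _ ≤ ∫ z in Λ, (κ * ρ z + 2 * B * (q ⁻¹' {0}).indicator ρ z) := by
        refine setIntegral_mono_on (hFρ.sub hφρ).abs
          ((hρ.integrable.const_mul _).add ((hind 0).const_mul _)) hΛ ?_
        intro z hz
        have hρz := hρ.nonneg z hz
        rw [← sub_mul, abs_mul, abs_of_nonneg hρz]
        by_cases h : z ∈ Q
        · have h3 := mul_le_mul_of_nonneg_right (hFφ z h) hρz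
          have h4 : 0 ≤ (q ⁻¹' {0}).indicator ρ z := by
            rw [indicator]
            split_ifs
            · exact hρz
            · exact le_rfl
          have h5 : 0 ≤ 2 * B * (q ⁻¹' {0}).indicator ρ z := by positivity
          linarith
        · rw [indicator_of_mem (by simpa using (hq0 z).mpr h)]
          have h2 := abs_sub (F z) (φ (q z))
          have h3 := hFB _ hz
          have h4 := hφ (q z)
          have h5 : |F z - φ (q z)| * ρ z ≤ 2 * B * ρ z :=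
            mul_le_mul_of_nonneg_right (by linarith) hρz
          have h6 : 0 ≤ κ * ρ z := mul_nonneg hκ hρz
          linarith
    _ = κ + 2 * B * mass Λ q ρ 0 := by
        rw [integral_add (hρ.integrable.const_mul _) ((hind 0).const_mul _), integral_const_mul,
          integral_const_mul, hρ.integral, setIntegral_indicator (hms 0), mul_one]
        rfl

/-- near the maximizing pairs in terms of cell masses implies near for the functions -/
theorem near_one {Λ Q : Set ℂ} (hΛ : MeasurableSet Λ) {n : ℕ} {q : ℂ → Fin (n + 1)}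
    (hq : Measurable q) (hq0 : ∀ z, q z = 0 ↔ z ∉ Q)
    {F : ℂ → ℝ} (hF : ContinuousOn F Λ) {φ : Fin (n + 1) → ℝ} {B κ κ₁ τ : ℝ}
    (hFB : ∀ z ∈ Λ, |F z| ≤ B) (hφ : ∀ α, |φ α| ≤ B)
    (hκ : 0 ≤ κ) (hFφ : ∀ z ∈ Q, |F z - φ (q z)| ≤ κ) {ρ : ℂ → ℝ} (hρ : IsDens Λ ρ)
    (hm : mass Λ q ρ 0 ≤ κ₁) {M : ℕ} (hM : 0 < M) (x : Fin M → ℂ)
    (hx : ∀ j, x j ∈ Λ) (hτ : ∀ α, |emp q x α - mass Λ q ρ α| < τ) :
    |1 / (M : ℝ) * ∑ j, F (x j) - ∫ z in Λ, F z * ρ z| ≤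
      2 * κ + 4 * B * κ₁ + (n + 3) * B * τ := by
  have h1 := avg_close hq0 hFB hφ hκ hFφ hM x hx
  have h2 := int_close hΛ hq hq0 hF hFB hφ hκ hFφ hρ
  have hB0 : 0 ≤ B := (abs_nonneg _).trans (hφ 0)
  have hτ0 : 0 ≤ τ := (abs_nonneg _).trans (hτ 0).le
  have h3 : |∑ α, φ α * emp q x α - ∑ α, φ α * mass Λ q ρ α| ≤ (n + 1) * (B * τ) := by
    rw [← Finset.sum_sub_distrib]
    refine (Finset.abs_sum_le_sum_abs _ _).trans ?_
    calc ∑ α, |φ α * emp q x α - φ α * mass Λ q ρ α| ≤ ∑ _α : Fin (n + 1), B * τ := by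
          refine Finset.sum_le_sum fun α _ => ?_
          rw [← mul_sub, abs_mul]
          exact mul_le_mul (hφ α) (hτ α).le (abs_nonneg _) hB0
      _ = _ := by rw [Finset.sum_const, Finset.card_univ, Fintype.card_fin, nsmul_eq_mul]; simp
  have h4 : emp q x 0 ≤ κ₁ + τ := by
    have := (abs_lt.mp (hτ 0)).2
    linarith
  have h5 : B * emp q x 0 ≤ B * (κ₁ + τ) := mul_le_mul_of_nonneg_left h4 hB0
  have h6 : B * mass Λ q ρ 0 ≤ B * κ₁ := mul_le_mul_of_nonneg_left hm hB0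
  have h7 : |1 / (M : ℝ) * ∑ j, F (x j) - ∫ z in Λ, F z * ρ z| ≤
      |1 / (M : ℝ) * ∑ j, F (x j) - ∑ α, φ α * emp q x α| +
      |∑ α, φ α * emp q x α - ∑ α, φ α * mass Λ q ρ α| +
      |(∫ z in Λ, F z * ρ z) - ∑ α, φ α * mass Λ q ρ α| := by
    rw [abs_sub_comm (∫ z in Λ, F z * ρ z)]
    have h8 : 1 / (M : ℝ) * ∑ j, F (x j) - ∫ z in Λ, F z * ρ z =
      (1 / (M : ℝ) * ∑ j, F (x j) - ∑ α, φ α * emp q x α) +
      (∑ α, φ α * emp q x α - ∑ α, φ α * mass Λ q ρ α) +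
      (∑ α, φ α * mass Λ q ρ α - ∫ z in Λ, F z * ρ z) := by ring
    rw [h8]
    exact (abs_add_le _ _).trans (add_le_add_left (abs_add_le _ _) _)
  nlinarith [h1, h2, h3, h5, h6, h7]

theorem ent_ge {Λ : Set ℂ} (hΛ : MeasurableSet Λ) (hV : volume Λ ≠ ⊤) {ρ : ℂ → ℝ}
    (hρ : IsDens Λ ρ) : -(volume Λ).toReal ≤ ∫ z in Λ, ρ z * Real.log (ρ z) := by
  have h1 : ∫ _z in Λ, (-1 : ℝ) ≤ ∫ z in Λ, ρ z * Real.log (ρ z) := by
    refine setIntegral_mono_on (integrableOn_const hV) hρ.entropy hΛ ?_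
    intro z hz
    exact mul_log_ge (hρ.nonneg z hz)
  rw [setIntegral_const, smul_eq_mul] at h1
  have h2 : volume.real Λ = (volume Λ).toReal := rfl
  rw [h2] at h1
  linarith

/-- the choice of the cells -/
theorem part_all (hS1 : TaskS1) {Λ : Set ℂ} {g : ℂ → ℂ → ℝ} {D C₃ cL CB : ℝ}
    (hK : Ker Λ g D C₃ cL CB) {ε : ℝ} (hmax : ∃ ρ₁ ρ₂, IsMaxPair Λ (K g) ε ρ₁ ρ₂)
    {L : ℕ} (f : Fin L → ℂ → ℝ) (hf : ∀ l, ContinuousOn (f l) Λ)
    (hfB : ∀ l, ∃ C, ∀ z ∈ Λ, |f l z| ≤ C) {κ : ℝ} (hκ : 0 < κ) :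
    ∃ (n : ℕ) (q : ℂ → Fin n) (τ : ℝ), Measurable q ∧ 0 < τ ∧ ∀ M : ℕ, 0 < M → ∀ x : Conf M,
      x ∈ cf Λ _ → NearMax Λ g ε q τ (emp q (x ∘ Sum.inl)) (emp q (x ∘ Sum.inr)) →
      ∃ ρ₁ ρ₂, IsMaxPair Λ (K g) ε ρ₁ ρ₂ ∧
        ∀ l, |1 / (M : ℝ) * ∑ j, f l (x (Sum.inl j)) - ∫ z in Λ, f l z * ρ₁ z| < κ ∧
          |1 / (M : ℝ) * ∑ j, f l (x (Sum.inr j)) - ∫ z in Λ, f l z * ρ₂ z| < κ := by
  classical
  have hΛ := hK.measurableSet
  have hV := hK.volume_ne_top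
  obtain ⟨B, hB, hfB'⟩ : ∃ B : ℝ, 0 ≤ B ∧ ∀ l, ∀ z ∈ Λ, |f l z| ≤ B := by
    choose C hC using hfB
    refine ⟨∑ l, |C l|, Finset.sum_nonneg fun l _ => abs_nonneg _, fun l z hz => ?_⟩
    exact (hC l z hz).trans ((le_abs_self _).trans
      (Finset.single_le_sum (f := fun l => |C l|) (fun l _ => abs_nonneg _) (Finset.mem_univ l)))
  obtain ⟨a₁, a₂, ha⟩ := hmax
  set S : ℝ := (∫ z in Λ, a₁ z * Real.log (a₁ z)) + ∫ z in Λ, a₂ z * Real.log (a₂ z) with hS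
  set Kb : ℝ := S + (volume Λ).toReal with hKb
  have hent : ∀ ρ₁ ρ₂, IsMaxPair Λ (K g) ε ρ₁ ρ₂ →
      (∫ z in Λ, ρ₁ z * Real.log (ρ₁ z)) ≤ Kb ∧ (∫ z in Λ, ρ₂ z * Real.log (ρ₂ z)) ≤ Kb := by
    intro ρ₁ ρ₂ hρ
    have h1 := hρ.2 a₁ a₂ ha.1
    have h2 := ent_ge hΛ hV hρ.1.1
    have h3 := ent_ge hΛ hV hρ.1.2.1
    simp only [entr] at h1
    constructor <;> linarith
  set κ₁ : ℝ := κ / (32 * (B + 1)) with hκ₁
  have hB1 : 0 < B + 1 := by linarith
  have hκ₁0 : 0 < κ₁ := by positivity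
  obtain ⟨δ₀, hδ₀, hδ⟩ := (hS1 Λ g D C₃ cL CB hK).2.2 Kb κ₁ hκ₁0
  obtain ⟨Q, hQΛ, hQc, hQv⟩ := hK.isOpen.measurableSet.exists_isCompact_sdiff_lt hV
    (ε := ENNReal.ofReal δ₀) (by simpa using hδ₀)
  obtain ⟨n, q, φ, hq, hq0, hφ, hFφ⟩ := exists_part hQc hQΛ f hf hB hfB' (κ := κ / 16)
    (by positivity)
  set τ : ℝ := κ / (8 * (n + 3) * (B + 1)) with hτ
  have hτ0 : 0 < τ := by positivity
  refine ⟨n + 1, q, τ, hq, hτ0, ?_⟩
  intro M hM x hx hnear
  obtain ⟨ρ₁, ρ₂, hmax, hm₁, hm₂⟩ := hnear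
  have hmass : ∀ ρ, IsDens Λ ρ → (∫ z in Λ, ρ z * Real.log (ρ z)) ≤ Kb →
      mass Λ q ρ 0 ≤ κ₁ := by
    intro ρ hρ he
    refine hδ ρ hρ he _ (hΛ.inter (hq (measurableSet_singleton 0))) inter_subset_left ?_
    refine (measure_mono ?_).trans hQv.le
    rintro z ⟨hz1, hz2⟩
    exact ⟨hz1, (hq0 z).mp hz2⟩
  have hfin : 2 * (κ / 16) + 4 * B * κ₁ + (n + 3) * B * τ < κ := by
    have h1 : 4 * B * κ₁ ≤ κ / 8 := by
      rw [hκ₁, mul_div_assoc', div_le_div_iff₀ (by positivity) (by norm_num)]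
      nlinarith
    have h2 : ((n : ℝ) + 3) * B * τ ≤ κ / 8 := by
      rw [hτ, mul_div_assoc', div_le_div_iff₀ (by positivity) (by norm_num)]
      have : (0 : ℝ) ≤ (n : ℝ) + 3 := by positivity
      nlinarith [mul_nonneg this hκ.le]
    linarith
  refine ⟨ρ₁, ρ₂, hmax, fun l => ⟨?_, ?_⟩⟩
  · exact (near_one hΛ hq hq0 (hf l) (hfB' l) (hφ l) (by positivity) (hFφ l) hmax.1.1
      (hmass _ hmax.1.1 (hent _ _ hmax).1) hM (x ∘ Sum.inl) (fun j => hx _) hm₁).trans_lt hfin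
  · exact (near_one hΛ hq hq0 (hf l) (hfB' l) (hφ l) (by positivity) (hFφ l) hmax.1.2.1
      (hmass _ hmax.1.2.1 (hent _ _ hmax).2) hM (x ∘ Sum.inr) (fun j => hx _) hm₂).trans_lt hfin

section shells

variable {Λ : Set ℂ} {G g : ℂ → ℂ → ℝ} {D C₃ cL CB : ℝ}

theorem energy_eq (hGs : ∀ x ∈ Λ, ∀ y ∈ Λ, Gstar G x y = K g x y) {M : ℕ} {x : Conf M}
    (hx : ∀ i, x i ∈ Λ) : energy G x = Ham g (circ M) x := by
  rw [energy, Ham]
  congr 1
  refine Finset.sum_congr rfl fun i _ => Finset.sum_congr rfl fun j _ => ?_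
  rw [hGs _ (hx i) _ (hx j)]

theorem set_eq (hGs : ∀ x ∈ Λ, ∀ y ∈ Λ, Gstar G x y = K g x y) (M : ℕ) (t : ℝ) :
    {x : Conf M | (∀ i, x i ∈ Λ) ∧ energy G x < t} =
      cf Λ _ ∩ {x | Ham g (circ M) x ∈ Iio t} := by
  ext x
  simp only [mem_ofPred_eq, mem_inter_iff, cf, mem_Iio]
  exact and_congr_right fun hx => by rw [energy_eq hGs hx]

theorem cf_vol (hK : Ker Λ g D C₃ cL CB) (M : ℕ) : volume (cf Λ (Fin M ⊕ Fin M)) ≠ ⊤ := by
  have h : cf Λ (Fin M ⊕ Fin M) = Set.univ.pi (fun _ => Λ) := by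
    ext x; simp [cf, Set.mem_pi]
  rw [h, volume_pi_pi]
  exact ENNReal.prod_ne_top fun _ _ => hK.volume_ne_top

theorem shell_meas (hK : Ker Λ g D C₃ cL CB) (M : ℕ) (E δ : ℝ) :
    MeasurableSet (shell Λ g M E δ) := by
  have h : shell Λ g M E δ = cf Λ _ ∩ {x | Ham g (circ M) x ∈ Ico E (E + δ)} := by
    ext x
    simp only [shell, mem_ofPred_eq, Set.mem_inter_iff, mem_Ico]
  rw [h]
  exact Um.meas_Ham hK _ measurableSet_Ico

theorem shell_diff (hK : Ker Λ g D C₃ cL CB) (hGs : ∀ x ∈ Λ, ∀ y ∈ Λ, Gstar G x y = K g x y)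
    {M : ℕ} {F : Conf M → ℝ} (hF : IntegrableOn F (cf Λ _)) (E : ℝ) {δ : ℝ} (hδ : 0 < δ) :
    (∫ x in {x : Conf M | (∀ i, x i ∈ Λ) ∧ energy G x < E + δ}, F x) -
      (∫ x in {x : Conf M | (∀ i, x i ∈ Λ) ∧ energy G x < E}, F x) =
      ∫ x in shell Λ g M E δ, F x := by
  rw [set_eq hGs, set_eq hGs]
  have hsub : cf Λ (Fin M ⊕ Fin M) ∩ {x | Ham g (circ M) x ∈ Iio E} ⊆
      cf Λ _ ∩ {x | Ham g (circ M) x ∈ Iio (E + δ)} := by
    rintro x ⟨hx1, hx2⟩
    simp only [mem_ofPred_eq, mem_Iio] at hx2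
    exact ⟨hx1, by simp only [mem_ofPred_eq, mem_Iio]; linarith⟩
  have h1 : shell Λ g M E δ = (cf Λ (Fin M ⊕ Fin M) ∩ {x | Ham g (circ M) x ∈ Iio (E + δ)}) \
      (cf Λ _ ∩ {x | Ham g (circ M) x ∈ Iio E}) := by
    ext x
    simp only [shell, mem_ofPred_eq, Set.mem_sdiff, Set.mem_inter_iff, mem_Iio, not_and, not_lt]
    tauto
  rw [h1]
  exact (setIntegral_sdiff (Um.meas_Ham hK _ measurableSet_Iio)
    (hF.mono_set inter_subset_left) hsub).symm

/-- from the shells to the microcanonical measure -/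
theorem micro_le (hK : Ker Λ g D C₃ cL CB) (hGs : ∀ x ∈ Λ, ∀ y ∈ Λ, Gstar G x y = K g x y)
    {M : ℕ} {E : ℝ} {μ : Measure (Conf M)} (hμ : IsMicro Λ G M E μ) {F : Conf M → ℝ}
    (hF : ContinuousOn F (cf Λ _)) (hF0 : ∀ x, 0 ≤ F x) (hF1 : ∀ x, F x ≤ 1) {b : ℝ}
    (hb : 0 ≤ b) {A : ℝ → Set (Conf M)}
    (hA : ∀ δ, 0 < δ → δ ≤ 1 → ∀ x ∈ shell Λ g M E δ, F x ≠ 0 → x ∈ A δ)
    (hAv : ∀ δ, 0 < δ → δ ≤ 1 → volume (A δ) ≤ ENNReal.ofReal b * volume (shell Λ g M E δ)) :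
    μ {x | 1 ≤ F x} ≤ ENNReal.ofReal b := by
  have hprob := hμ.prob
  have hcf : MeasurableSet (cf Λ (Fin M ⊕ Fin M)) := (Um.isOpen_cf hK.isOpen).measurableSet
  have hcfv := cf_vol hK M
  have hfin : IsFiniteMeasure (volume.restrict (cf Λ (Fin M ⊕ Fin M))) := by
    rw [isFiniteMeasure_restrict]; exact hcfv
  have hFi : IntegrableOn F (cf Λ _) := by
    refine Integrable.of_bound (hF.aestronglyMeasurable hcf) 1 ?_
    exact Eventually.of_forall fun x => by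
      rw [Real.norm_eq_abs, abs_of_nonneg (hF0 x)]; exact hF1 x
  have h1i : IntegrableOn (fun _ : Conf M => (1 : ℝ)) (cf Λ _) := integrableOn_const hcfv
  have hbd : ∃ C, ∀ x : Conf M, (∀ i, x i ∈ Λ) → |F x| ≤ C :=
    ⟨1, fun x _ => by rw [abs_of_nonneg (hF0 x)]; exact hF1 x⟩
  have hd := (hμ.hasDerivAt F hF hbd).tendsto_slope_zero_right
  have hd1 := (hμ.hasDerivAt (fun _ => 1) continuousOn_const ⟨1, fun x _ => by simp⟩).tendsto_slope_zero_right
  simp only [smul_eq_mul] at hd hd1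
  have hone : ∫ _x : Conf M, (1 : ℝ) ∂μ = 1 := by simp
  rw [hone, mul_one] at hd1
  have hle : deriv (Phi Λ G M) E * ∫ x, F x ∂μ ≤ b * deriv (Phi Λ G M) E := by
    refine le_of_tendsto_of_tendsto hd (hd1.const_mul b) ?_
    have h01 : Ioc (0 : ℝ) 1 ∈ 𝓝[>] (0 : ℝ) := Ioc_mem_nhdsGT one_pos
    filter_upwards [h01] with δ hδ
    rw [shell_diff hK hGs hFi E hδ.1, shell_diff hK hGs h1i E hδ.1]
    have hsv : volume (shell Λ g M E δ) ≠ ⊤ :=
      ((measure_mono fun x hx => hx.1).trans_lt hcfv.lt_top).ne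
    have h2 : ∫ x in shell Λ g M E δ, F x ≤ b * ∫ _x in shell Λ g M E δ, (1 : ℝ) := by
      rw [setIntegral_const, smul_eq_mul, mul_one]
      have hms := shell_meas hK M E δ
      rw [integral_eq_lintegral_of_nonneg_ae (Eventually.of_forall hF0)
        ((hF.mono fun x hx => hx.1).aestronglyMeasurable hms)]
      have h3 : ∫⁻ x in shell Λ g M E δ, ENNReal.ofReal (F x) ≤ volume (A δ) := by
        calc ∫⁻ x in shell Λ g M E δ, ENNReal.ofReal (F x)
            ≤ ∫⁻ x in shell Λ g M E δ, (A δ).indicator 1 x := by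
              refine setLIntegral_mono' hms ?_
              intro x hx
              by_cases h0 : F x = 0
              · rw [h0]; simp
              · rw [indicator_of_mem (hA δ hδ.1 hδ.2 x hx h0)]
                simpa using hF1 x
          _ ≤ volume.restrict (shell Λ g M E δ) (A δ) := lintegral_indicator_one_le _
          _ ≤ volume (A δ) := Measure.restrict_apply_le _ _
      have h4 := h3.trans (hAv δ hδ.1 hδ.2)
      have h5 : ENNReal.ofReal b * volume (shell Λ g M E δ) ≠ ⊤ :=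
        ENNReal.mul_ne_top ENNReal.ofReal_ne_top hsv
      have h6 := ENNReal.toReal_mono h5 h4
      rw [ENNReal.toReal_mul, ENNReal.toReal_ofReal hb] at h6
      exact h6
    have h7 : 0 ≤ δ⁻¹ := inv_nonneg.mpr hδ.1.le
    calc δ⁻¹ * ∫ x in shell Λ g M E δ, F x ≤ δ⁻¹ * (b * ∫ _x in shell Λ g M E δ, (1 : ℝ)) :=
          mul_le_mul_of_nonneg_left h2 h7
      _ = b * (δ⁻¹ * ∫ _x in shell Λ g M E δ, (1 : ℝ)) := by ring
  have hFb : ∫ x, F x ∂μ ≤ b := by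
    have hpos := hμ.pos
    nlinarith
  have hae : ∀ᵐ x ∂μ, x ∈ cf Λ (Fin M ⊕ Fin M) := by
    rw [ae_iff]
    have : {x | ¬ x ∈ cf Λ (Fin M ⊕ Fin M)} = {x : Conf M | ∃ i, x i ∉ Λ} := by
      ext x
      simp only [cf, mem_ofPred_eq, not_forall]
    rw [this]
    exact hμ.supp
  have hFμ : AEStronglyMeasurable F μ := by
    rw [← Measure.restrict_eq_self_of_ae_mem hae]
    exact hF.aestronglyMeasurable hcf
  have hFiμ : Integrable F μ := Integrable.of_bound hFμ 1 (Eventually.of_forall fun x => by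
    rw [Real.norm_eq_abs, abs_of_nonneg (hF0 x)]; exact hF1 x)
  have h8 := mul_meas_ge_le_integral_of_nonneg (Eventually.of_forall hF0) hFiμ 1
  rw [one_mul] at h8
  rw [← ofReal_measureReal (measure_ne_top μ _)]
  exact ENNReal.ofReal_le_ofReal (h8.trans hFb)

end shells

end Fd

theorem taskFd (hB1 : TaskB1) (hS1 : TaskS1) : TaskFd := by
  classical
  intro Λ G g D C₃ cL CB hK hGs ε hε hmax μ hμ L f hf hfB κ hκ
  obtain ⟨n, q, τ, hq, hτ, hpart⟩ := Fd.part_all hS1 hK hmax f hf hfB (κ := κ / 2) (by positivity)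
  obtain ⟨c, hc, M₀, hM₀⟩ := hB1 Λ g D C₃ cL CB hK ε hε n q hq τ hτ
  refine ⟨c, hc, ?_⟩
  filter_upwards [hμ, eventually_ge_atTop M₀, eventually_gt_atTop 0] with M hM hMM hM0
  -- the vector of the averages
  set X : Conf M → (Fin L ⊕ Fin L → ℝ) := fun x => Sum.elim
    (fun l => 1 / (M : ℝ) * ∑ j, f l (x (Sum.inl j)))
    (fun l => 1 / (M : ℝ) * ∑ j, f l (x (Sum.inr j))) with hX
  set V : (ℂ → ℝ) → (ℂ → ℝ) → (Fin L ⊕ Fin L → ℝ) := fun ρ₁ ρ₂ => Sum.elim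
    (fun l => ∫ z in Λ, f l z * ρ₁ z) (fun l => ∫ z in Λ, f l z * ρ₂ z) with hV
  set C : Set (Fin L ⊕ Fin L → ℝ) := {v | ∃ ρ₁ ρ₂, IsMaxPair Λ (K g) ε ρ₁ ρ₂ ∧ v = V ρ₁ ρ₂} with hC
  have hCne : C.Nonempty := by
    obtain ⟨ρ₁, ρ₂, h⟩ := hmax
    exact ⟨_, ρ₁, ρ₂, h, rfl⟩
  have hXc : ContinuousOn X (cf Λ _) := by
    refine continuousOn_pi.mpr fun i => ?_
    rcases i with l | l
    · simp only [hX, Sum.elim_inl]
      refine continuousOn_const.mul (continuousOn_finsetSum _ fun j _ => ?_)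
      exact (hf l).comp (continuous_apply _).continuousOn fun x hx => hx _
    · simp only [hX, Sum.elim_inr]
      refine continuousOn_const.mul (continuousOn_finsetSum _ fun j _ => ?_)
      exact (hf l).comp (continuous_apply _).continuousOn fun x hx => hx _
  set F : Conf M → ℝ := fun x => min 1 (max 0 ((infDist (X x) C - κ / 2) * (2 / κ))) with hF
  have hFc : ContinuousOn F (cf Λ _) := by
    have h1 : Continuous fun v : Fin L ⊕ Fin L → ℝ =>
        min 1 (max 0 ((infDist v C - κ / 2) * (2 / κ))) := by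
      have := continuous_infDist_pt C
      fun_prop
    exact h1.comp_continuousOn hXc
  have hF0 : ∀ x, 0 ≤ F x := fun x => le_min zero_le_one (le_max_left _ _)
  have hF1 : ∀ x, F x ≤ 1 := fun x => min_le_left _ _
  have hmain := Fd.micro_le hK hGs hM hFc hF0 hF1 (b := Real.exp (-(c * M))) (Real.exp_nonneg _)
    (A := fun δ => {x : Conf M | x ∈ shell Λ g M ((2 * (M : ℝ)) ^ 2 * ε) δ ∧
        ¬ NearMax Λ g ε q τ (emp q (x ∘ Sum.inl)) (emp q (x ∘ Sum.inr))}) ?_ ?_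
  · refine (measure_mono ?_).trans hmain
    intro x hx
    simp only [mem_ofPred_eq] at hx ⊢
    have h1 : κ ≤ infDist (X x) C := by
      rw [le_infDist hCne]
      rintro _ ⟨ρ₁, ρ₂, hρ, rfl⟩
      by_contra hcon
      push Not at hcon
      apply hx
      refine ⟨ρ₁, ρ₂, hρ, fun l => ⟨?_, ?_⟩⟩
      · have h2 := (dist_le_pi_dist (X x) (V ρ₁ ρ₂) (Sum.inl l)).trans_lt hcon
        simpa [Real.dist_eq, hX, hV] using h2
      · have h2 := (dist_le_pi_dist (X x) (V ρ₁ ρ₂) (Sum.inr l)).trans_lt hcon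
        simpa [Real.dist_eq, hX, hV] using h2
    have h3 : 1 ≤ (infDist (X x) C - κ / 2) * (2 / κ) := by
      rw [mul_div_assoc', le_div_iff₀ hκ]
      linarith
    exact le_min le_rfl (h3.trans (le_max_right _ _))
  · intro δ hδ hδ1 x hx hne
    refine ⟨hx, fun hnear => ?_⟩
    obtain ⟨ρ₁, ρ₂, hρ, hcl⟩ := hpart M hM0 x hx.1 hnear
    have h1 : κ / 2 < infDist (X x) C := by
      by_contra hcon
      push Not at hcon
      apply hne
      have h2 : (infDist (X x) C - κ / 2) * (2 / κ) ≤ 0 :=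
        mul_nonpos_of_nonpos_of_nonneg (by linarith) (by positivity)
      simp only [hF]
      rw [max_eq_left h2]
      simp
    have h2 : infDist (X x) C ≤ dist (X x) (V ρ₁ ρ₂) := infDist_le_dist_of_mem ⟨ρ₁, ρ₂, hρ, rfl⟩
    have h3 : dist (X x) (V ρ₁ ρ₂) < κ / 2 := by
      rw [dist_pi_lt_iff (by positivity)]
      rintro (l | l)
      · simpa [Real.dist_eq, hX, hV] using (hcl l).1
      · simpa [Real.dist_eq, hX, hV] using (hcl l).2
    linarith
  · intro δ hδ hδ1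
    exact hM₀ M hMM _ (by simp) δ hδ hδ1

end Pool.Agent.H836_PV
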