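import Pool.Agent.H836_PV.StmtsF

open MeasureTheory Filter Topology Set Metric

namespace Pool.Agent.H836_PV

namespace FeAux

theorem restrict_cf (Λ : Set ℂ) (ι : Type) [Fintype ι] :
    (volume : Measure (ι → ℂ)).restrict (cf Λ ι) =
      Measure.pi fun _ : ι => (volume : Measure ℂ).restrict Λ := by
  have h : cf Λ ι = Set.univ.pi fun _ => Λ := by
    ext x
    simp [cf, Set.mem_pi]
  rw [h, volume_pi, Measure.restrict_pi_pi]

theorem ae_coord {Λ : Set ℂ} {ι : Type} [Fintype ι] {P : ℂ → Prop}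
    (hP : ∀ᵐ z ∂volume.restrict Λ, P z) (i : ι) :
    ∀ᵐ y ∂(volume : Measure (ι → ℂ)).restrict (cf Λ ι), P (y i) := by
  rw [restrict_cf]
  exact (Measure.tendsto_eval_ae_ae (i := i)).eventually hP

theorem prodInt_congr {Λ : Set ℂ} {p r : ℕ} (f : (Fin p ⊕ Fin r → ℂ) → ℝ) {σ₁ σ₂ ρ₁ ρ₂ : ℂ → ℝ}
    (h1 : ∀ᵐ z ∂volume.restrict Λ, σ₁ z = ρ₁ z) (h2 : ∀ᵐ z ∂volume.restrict Λ, σ₂ z = ρ₂ z) :
    prodInt Λ f σ₁ σ₂ = prodInt Λ f ρ₁ ρ₂ := by
  unfold prodInt
  apply integral_congr_ae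
  have e1 : ∀ᵐ y ∂(volume : Measure (Fin p ⊕ Fin r → ℂ)).restrict (cf Λ (Fin p ⊕ Fin r)),
      ∀ i : Fin p, σ₁ (y (Sum.inl i)) = ρ₁ (y (Sum.inl i)) :=
    ae_all_iff.2 fun i => ae_coord h1 (Sum.inl i)
  have e2 : ∀ᵐ y ∂(volume : Measure (Fin p ⊕ Fin r → ℂ)).restrict (cf Λ (Fin p ⊕ Fin r)),
      ∀ j : Fin r, σ₂ (y (Sum.inr j)) = ρ₂ (y (Sum.inr j)) :=
    ae_all_iff.2 fun i => ae_coord h2 (Sum.inr i)
  filter_upwards [e1, e2] with y h1 h2
  simp only [h1, h2]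

/-- integral over a one point product -/
theorem integral_unique (Λ : Set ℂ) (ι : Type) [Fintype ι] [Unique ι] (F : ℂ → ℝ) :
    ∫ y in cf Λ ι, F (y default) = ∫ z in Λ, F z := by
  obtain rfl : ‹Fintype ι› = Unique.fintype := Subsingleton.elim _ _
  have h := (volume_preserving_funUnique ι ℂ).setIntegral_preimage_emb
    (MeasurableEquiv.funUnique ι ℂ).measurableEmbedding F Λ
  rw [← h]
  have e : (MeasurableEquiv.funUnique ι ℂ) ⁻¹' Λ = cf Λ ι := by
    ext y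
    simp only [cf, Set.mem_preimage, Set.mem_ofPred_eq]
    constructor
    · intro hy i
      rw [Subsingleton.elim i default]
      exact hy
    · intro hy
      exact hy default
  rw [e]
  rfl

theorem prodInt_one (Λ : Set ℂ) (h ρ₁ ρ₂ : ℂ → ℝ) :
    prodInt Λ (p := 1) (r := 0) (fun y => h (y (Sum.inl 0))) ρ₁ ρ₂ = ∫ z in Λ, h z * ρ₁ z := by
  let _ : Unique (Fin 1 ⊕ Fin 0) :=
    { default := Sum.inl 0
      uniq := by
        rintro (i | i)
        · rw [Subsingleton.elim i 0]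
        · exact i.elim0 }
  rw [← integral_unique Λ (Fin 1 ⊕ Fin 0) (fun z => h z * ρ₁ z)]
  unfold prodInt
  congr 1
  funext y
  simp only [Finset.univ_unique, Finset.prod_singleton, Fin.default_eq_zero, Finset.univ_eq_empty,
    Finset.prod_empty, mul_one]
  rfl

theorem prodInt_one' (Λ : Set ℂ) (h ρ₁ ρ₂ : ℂ → ℝ) :
    prodInt Λ (p := 0) (r := 1) (fun y => h (y (Sum.inr 0))) ρ₁ ρ₂ = ∫ z in Λ, h z * ρ₂ z := by
  let _ : Unique (Fin 0 ⊕ Fin 1) :=
    { default := Sum.inr 0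
      uniq := by
        rintro (i | i)
        · exact i.elim0
        · rw [Subsingleton.elim i 0] }
  rw [← integral_unique Λ (Fin 0 ⊕ Fin 1) (fun z => h z * ρ₂ z)]
  unfold prodInt
  congr 1
  funext y
  simp only [Finset.univ_unique, Finset.prod_singleton, Fin.default_eq_zero, Finset.univ_eq_empty,
    Finset.prod_empty, mul_one]
  rfl

/-! ### Separation -/

theorem exists_sep {Λ : Set ℂ} (hΛ : IsOpen Λ) {ρ₁ ρ₂ : ℂ → ℝ} (h1 : IntegrableOn ρ₁ Λ)
    (h2 : IntegrableOn ρ₂ Λ) (hne : ¬ ∀ᵐ z ∂volume.restrict Λ, ρ₁ z = ρ₂ z) :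
    ∃ h : ℂ → ℝ, Continuous h ∧ (∃ C, ∀ z, |h z| ≤ C) ∧
      ∫ z in Λ, h z * ρ₁ z ≠ ∫ z in Λ, h z * ρ₂ z := by
  by_contra hcon
  push Not at hcon
  apply hne
  have hd : IntegrableOn (fun z => ρ₁ z - ρ₂ z) Λ := h1.sub h2
  have key := hΛ.ae_eq_zero_of_integral_contDiff_smul_eq_zero (μ := volume)
    (f := fun z => ρ₁ z - ρ₂ z) hd.locallyIntegrableOn (fun g hg hgc hgs => ?_)
  · rw [ae_restrict_iff' hΛ.measurableSet]
    filter_upwards [key] with z hz hzΛ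
    exact sub_eq_zero.1 (hz hzΛ)
  · have hgb : ∃ C, ∀ z, |g z| ≤ C := by
      obtain ⟨C, hC⟩ := hgc.exists_bound_of_continuous hg.continuous
      exact ⟨C, fun z => by simpa using hC z⟩
    have h3 := hcon g hg.continuous hgb
    obtain ⟨C, hC⟩ := hgb
    have i1 : IntegrableOn (fun z => g z * ρ₁ z) Λ :=
      h1.bdd_mul hg.continuous.aestronglyMeasurable (ae_of_all _ fun z => by simpa using hC z)
    have i2 : IntegrableOn (fun z => g z * ρ₂ z) Λ :=
      h2.bdd_mul hg.continuous.aestronglyMeasurable (ae_of_all _ fun z => by simpa using hC z)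
    have h4 : ∫ z in Λ, g z • (ρ₁ z - ρ₂ z) = 0 := by
      simp only [smul_eq_mul, mul_sub]
      rw [integral_sub i1 i2, h3, sub_self]
    rw [← h4]
    symm
    apply setIntegral_eq_integral_of_forall_compl_eq_zero
    intro z hz
    have : g z = 0 := by
      by_contra h0
      exact hz (hgs (subset_tsupport g h0))
    rw [this, zero_smul]

/-! ### Exchange symmetry -/

theorem circ_swap (M : ℕ) (i : Fin M ⊕ Fin M) : circ M (Sum.swap i) = - circ M i := by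
  rcases i with i | i <;> simp [circ]

theorem energy_swap (G : ℂ → ℂ → ℝ) {M : ℕ} (x : Conf M) :
    energy G (fun i => x (Sum.swap i)) = energy G x := by
  unfold energy
  congr 1
  have h : ∀ F : (Fin M ⊕ Fin M) → ℝ, ∑ i, F (Sum.swap i) = ∑ i, F i := fun F =>
    Equiv.sum_comp (Equiv.sumComm (Fin M) (Fin M)) F
  rw [← h (fun i => ∑ j, circ M i * circ M j * Gstar G (x i) (x j))]
  refine Finset.sum_congr rfl fun i _ => ?_
  rw [← h (fun j => circ M (Sum.swap i) * circ M j * Gstar G (x (Sum.swap i)) (x j))]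
  refine Finset.sum_congr rfl fun j _ => ?_
  rw [circ_swap, circ_swap]
  ring

theorem swap_eq (M : ℕ) : (fun (x : Conf M) i => x (Sum.swap i)) =
    (MeasurableEquiv.piCongrLeft (fun _ : Fin M ⊕ Fin M => ℂ) (Equiv.sumComm _ _)) := by
  funext x i
  rw [MeasurableEquiv.coe_piCongrLeft]
  have h := Equiv.piCongrLeft_apply_apply (fun _ : Fin M ⊕ Fin M => ℂ)
    (Equiv.sumComm (Fin M) (Fin M)) x (Sum.swap i)
  have e : (Equiv.sumComm (Fin M) (Fin M)) (Sum.swap i) = i := Sum.swap_swap i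
  rw [e] at h
  exact h.symm

theorem mp_swap (M : ℕ) :
    MeasurePreserving (fun (x : Conf M) i => x (Sum.swap i)) volume volume := by
  rw [swap_eq]
  exact volume_measurePreserving_piCongrLeft (fun _ : Fin M ⊕ Fin M => ℂ) (Equiv.sumComm _ _)

theorem me_swap (M : ℕ) : MeasurableEmbedding (fun (x : Conf M) i => x (Sum.swap i)) := by
  rw [swap_eq]
  exact (MeasurableEquiv.piCongrLeft (fun _ : Fin M ⊕ Fin M => ℂ)
    (Equiv.sumComm _ _)).measurableEmbedding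

theorem micro_swap {Λ : Set ℂ} {G : ℂ → ℂ → ℝ} {M : ℕ} {E : ℝ} {μ : Measure (Conf M)}
    (hμ : IsMicro Λ G M E μ) (F : Conf M → ℝ) (hF : ContinuousOn F {x | ∀ i, x i ∈ Λ})
    (hb : ∃ C, ∀ x, (∀ i, x i ∈ Λ) → |F x| ≤ C) :
    ∫ x, F (fun i => x (Sum.swap i)) ∂μ = ∫ x, F x ∂μ := by
  have h1 := hμ.hasDerivAt F hF hb
  have hF' : ContinuousOn (fun x : Conf M => F (fun i => x (Sum.swap i))) {x | ∀ i, x i ∈ Λ} := by
    refine hF.comp (Continuous.continuousOn (by fun_prop)) ?_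
    intro x hx i
    exact hx _
  have hb' : ∃ C, ∀ x : Conf M, (∀ i, x i ∈ Λ) → |F (fun i => x (Sum.swap i))| ≤ C := by
    obtain ⟨C, hC⟩ := hb
    exact ⟨C, fun x hx => hC _ fun i => hx _⟩
  have h2 := hμ.hasDerivAt _ hF' hb'
  have e : (fun t => ∫ x in {x : Conf M | (∀ i, x i ∈ Λ) ∧ energy G x < t},
      F (fun i => x (Sum.swap i))) =
      fun t => ∫ x in {x : Conf M | (∀ i, x i ∈ Λ) ∧ energy G x < t}, F x := by
    funext t
    rw [← (mp_swap M).setIntegral_preimage_emb (me_swap M) F]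
    congr 2
    ext x
    simp only [Set.mem_ofPred_eq, Set.mem_preimage]
    have e1 : energy G (fun i => x (Sum.swap i)) = energy G x := energy_swap G x
    have e2 : (∀ i, x (Sum.swap i) ∈ Λ) ↔ ∀ i, x i ∈ Λ := by
      constructor
      · intro h i
        have := h (Sum.swap i)
        rwa [Sum.swap_swap] at this
      · intro h i
        exact h _
    constructor
    · rintro ⟨h3, h4⟩
      exact ⟨e2.2 h3, by rw [e1]; exact h4⟩
    · rintro ⟨h3, h4⟩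
      exact ⟨e2.1 h3, by rw [← e1]; exact h4⟩
  rw [e] at h2
  have h3 := h2.unique h1
  exact mul_left_cancel₀ hμ.pos.ne' h3

theorem en_zero {Λ : Set ℂ} (G : ℂ → ℂ → ℝ) {ρ₁ ρ₂ : ℂ → ℝ}
    (h : ∀ᵐ z ∂volume.restrict Λ, ρ₁ z = ρ₂ z) : en Λ G ρ₁ ρ₂ = 0 := by
  unfold en
  have : ∫ x in Λ, ∫ y in Λ, G x y * (ρ₁ x - ρ₂ x) * (ρ₁ y - ρ₂ y) = 0 := by
    rw [← integral_zero ℂ ℝ (μ := volume.restrict Λ)]
    apply integral_congr_ae
    filter_upwards [h] with x hx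
    rw [hx]
    simp
  rw [this, mul_zero]

end FeAux

open FeAux in
theorem taskFe : TaskFe := by
  intro Λ G g D C₃ cL CB hK _ ε hε μ hμ hmix ρ₁ ρ₂ hmax huniq p r f hf hfb κ hκ
  by_contra hcon
  have hcon2 := Filter.not_eventually.1 hcon
  clear hcon
  push Not at hcon2
  have hfr : ∃ᶠ M : ℕ in atTop, 0 < M ∧ IsMicro Λ G M ((2 * (M : ℝ)) ^ 2 * ε) (μ M) ∧
      ∃ (a : Fin p → Fin M) (b : Fin r → Fin M), Function.Injective a ∧ Function.Injective b ∧
      κ < |(∫ x, f (pick a b x) ∂(μ M)) -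
        1 / 2 * (prodInt Λ f ρ₁ ρ₂ + prodInt Λ f ρ₂ ρ₁)| := by
    refine (hcon2.and_eventually (hμ.and (eventually_gt_atTop 0))).mono ?_
    rintro M ⟨h1, h2, h3⟩
    obtain ⟨a, b, ha, hb, hab⟩ := h1
    exact ⟨h3, h2, a, b, ha, hb, hab⟩
  obtain ⟨N, hN, hP⟩ := Filter.extraction_of_frequently_atTop hfr
  obtain ⟨φ, hφ, Z, mZ, Θ, R₁, R₂, hΘ, hR, hlim⟩ := hmix N (fun k => (hP k).1) hN.tendsto_atTop
  have hdich := fun z => huniq (R₁ z) (R₂ z) (hR z)
  -- the separating function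
  have hne : ¬ ∀ᵐ z ∂volume.restrict Λ, ρ₁ z = ρ₂ z := by
    intro h
    have h1 := hmax.1.2.2
    rw [en_zero (K g) h] at h1
    linarith
  obtain ⟨h, hc, ⟨C, hC⟩, hsep⟩ := exists_sep hK.isOpen hmax.1.1.integrable hmax.1.2.1.integrable hne
  set c₁ : ℝ := ∫ z in Λ, h z * ρ₁ z with hc₁
  set c₂ : ℝ := ∫ z in Λ, h z * ρ₂ z with hc₂
  have hA := hlim 1 0 (fun y => h (y (Sum.inl 0)))
    (Continuous.continuousOn (by fun_prop)) ⟨C, fun y _ => hC _⟩
  have hB := hlim 0 1 (fun y => h (y (Sum.inr 0)))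
    (Continuous.continuousOn (by fun_prop)) ⟨C, fun y _ => hC _⟩
  have hF := hlim p r f hf hfb
  -- the set where the pair is not exchanged
  set S : Set Z := {z | prodInt Λ (p := 1) (r := 0) (fun y => h (y (Sum.inl 0))) (R₁ z) (R₂ z) = c₁}
    with hS
  have hSm : MeasurableSet S := hA.1 (measurableSet_singleton c₁)
  have hval : ∀ z, (z ∈ S ∧ (∀ᵐ w ∂volume.restrict Λ, R₁ z w = ρ₁ w) ∧
      (∀ᵐ w ∂volume.restrict Λ, R₂ z w = ρ₂ w)) ∨
      (z ∉ S ∧ (∀ᵐ w ∂volume.restrict Λ, R₁ z w = ρ₂ w) ∧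
      (∀ᵐ w ∂volume.restrict Λ, R₂ z w = ρ₁ w)) := by
    intro z
    rcases hdich z with h1 | h1
    · left
      refine ⟨?_, h1⟩
      change prodInt Λ _ (R₁ z) (R₂ z) = c₁
      rw [prodInt_congr _ h1.1 h1.2, prodInt_one]
    · right
      refine ⟨?_, h1⟩
      intro h2
      change prodInt Λ _ (R₁ z) (R₂ z) = c₁ at h2
      rw [prodInt_congr _ h1.1 h1.2, prodInt_one] at h2
      exact hsep h2.symm
  set θ : ℝ := Θ.real S with hθ
  have hint : ∀ (p' r' : ℕ) (f' : (Fin p' ⊕ Fin r' → ℂ) → ℝ),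
      ∫ z, prodInt Λ f' (R₁ z) (R₂ z) ∂Θ =
        θ * prodInt Λ f' ρ₁ ρ₂ + (1 - θ) * prodInt Λ f' ρ₂ ρ₁ := by
    intro p' r' f'
    have e : (fun z => prodInt Λ f' (R₁ z) (R₂ z)) = fun z =>
        S.indicator (fun _ => prodInt Λ f' ρ₁ ρ₂) z + Sᶜ.indicator (fun _ => prodInt Λ f' ρ₂ ρ₁) z := by
      funext z
      rcases hval z with ⟨h1, h2, h3⟩ | ⟨h1, h2, h3⟩
      · rw [prodInt_congr _ h2 h3, Set.indicator_of_mem h1,
          Set.indicator_of_notMem (Set.notMem_compl_iff.2 h1), add_zero]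
      · rw [prodInt_congr _ h2 h3, Set.indicator_of_notMem h1,
          Set.indicator_of_mem (show z ∈ Sᶜ from h1), zero_add]
    rw [e, integral_add ((integrable_const _).indicator hSm) ((integrable_const _).indicator hSm.compl),
      integral_indicator_const _ hSm, integral_indicator_const _ hSm.compl, smul_eq_mul, smul_eq_mul,
      probReal_compl_eq_one_sub hSm]
  -- the value of θ
  have hNpos : ∀ k, 0 < (N ∘ φ) k := fun k => (hP (φ k)).1
  let a0 : ∀ k, Fin 1 → Fin ((N ∘ φ) k) := fun k _ => ⟨0, hNpos k⟩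
  let b0 : ∀ k, Fin 0 → Fin ((N ∘ φ) k) := fun k i => i.elim0
  have ha0 : ∀ᶠ k in atTop, Function.Injective (a0 k) :=
    Eventually.of_forall fun k x y _ => Subsingleton.elim x y
  have hb0 : ∀ᶠ k in atTop, Function.Injective (b0 k) :=
    Eventually.of_forall fun k x y _ => Subsingleton.elim x y
  have l1 := hA.2 a0 b0 ha0 hb0
  have l2 := hB.2 b0 a0 hb0 ha0
  rw [hint, prodInt_one, prodInt_one] at l1
  rw [hint, prodInt_one', prodInt_one'] at l2
  have heq : ∀ k, ∫ x, (fun y : Fin 1 ⊕ Fin 0 → ℂ => h (y (Sum.inl 0))) (pick (a0 k) (b0 k) x)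
      ∂(μ (N (φ k))) = ∫ x, (fun y : Fin 0 ⊕ Fin 1 → ℂ => h (y (Sum.inr 0))) (pick (b0 k) (a0 k) x)
      ∂(μ (N (φ k))) := by
    intro k
    have hm := (hP (φ k)).2.1
    have := micro_swap hm (fun x => h (x (Sum.inr ⟨0, hNpos k⟩)))
      (Continuous.continuousOn (by fun_prop)) ⟨C, fun y _ => hC _⟩
    exact this
  have l3 := tendsto_nhds_unique l1 (by
    refine l2.congr fun k => ?_
    exact (heq k).symm)
  have hθ2 : θ = 1 / 2 := by
    have h5 : (2 * θ - 1) * (c₁ - c₂) = 0 := by linear_combination l3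
    rcases mul_eq_zero.1 h5 with h6 | h6
    · linarith
    · exact absurd (sub_eq_zero.1 h6) hsep
  -- the contradiction
  choose a b ha hb hab using fun k => (hP (φ k)).2.2
  have l4 := hF.2 a b (Eventually.of_forall ha) (Eventually.of_forall hb)
  rw [hint, hθ2] at l4
  have l5 : Tendsto (fun k => |(∫ x, f (pick (a k) (b k) x) ∂(μ (N (φ k)))) -
      1 / 2 * (prodInt Λ f ρ₁ ρ₂ + prodInt Λ f ρ₂ ρ₁)|) atTop (𝓝 0) := by
    have h6 := (l4.sub_const (1 / 2 * (prodInt Λ f ρ₁ ρ₂ + prodInt Λ f ρ₂ ρ₁))).abs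
    have h7 : |1 / 2 * prodInt Λ f ρ₁ ρ₂ + (1 - 1 / 2) * prodInt Λ f ρ₂ ρ₁ -
        1 / 2 * (prodInt Λ f ρ₁ ρ₂ + prodInt Λ f ρ₂ ρ₁)| = 0 := by
      rw [abs_eq_zero]; ring
    rw [h7] at h6
    exact h6
  have l6 := ge_of_tendsto l5 (Eventually.of_forall fun k => (hab k).le)
  linarith

end Pool.Agent.H836_PV
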