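import Pool.Agent.H836_PV.StmtsF
import Pool.Agent.H836_PV.B3

open MeasureTheory Filter Topology Set Metric

namespace Pool.Agent.H836_PV

namespace Fg

variable {Λ : Set ℂ} {G : ℂ → ℂ → ℝ} {ε : ℝ}

/-- product integrals are bounded by the supremum of the function -/
theorem prodInt_bound (hΛ : IsOpen Λ) {p r : ℕ} {f : (Fin p ⊕ Fin r → ℂ) → ℝ} {C : ℝ}
    (hC : ∀ y, (∀ i, y i ∈ Λ) → |f y| ≤ C) {ρ₁ ρ₂ : ℂ → ℝ}
    (h : IsMaxPair Λ G ε ρ₁ ρ₂) : |prodInt Λ f ρ₁ ρ₂| ≤ C := by
  rw [B3.prodInt_eq]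
  unfold B3.pI
  have hpd := B3.pd_sum (p := p) (r := r) hΛ h
  have hint := B3.prod_integrable hpd
  have habs := B3.prod_abs hpd
  have hmem : ∀ᵐ y ∂(Measure.pi fun _ : Fin p ⊕ Fin r => (volume : Measure ℂ).restrict Λ),
      ∀ i, y i ∈ Λ := by
    rw [← B3.restrict_cf]
    exact ae_restrict_mem (B3.isOpen_cf hΛ).measurableSet
  have h1 := norm_integral_le_of_norm_le (μ := Measure.pi fun _ : Fin p ⊕ Fin r =>
      (volume : Measure ℂ).restrict Λ) (f := fun y => f y *
      ∏ i, (Sum.elim (fun _ : Fin p => ρ₁) (fun _ : Fin r => ρ₂) i) (y i))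
    (g := fun y => C * |∏ i, (Sum.elim (fun _ : Fin p => ρ₁) (fun _ : Fin r => ρ₂) i) (y i)|)
    (hint.abs.const_mul C) (by
      filter_upwards [hmem] with y hy
      rw [norm_mul, Real.norm_eq_abs, Real.norm_eq_abs]
      exact mul_le_mul_of_nonneg_right (hC y hy) (abs_nonneg _))
  rw [integral_const_mul, habs, mul_one, Real.norm_eq_abs] at h1
  exact h1

/-- the mean of a bounded vector valued function is close to a finite convex combination -/
theorem approx {Z : Type} [MeasurableSpace Z] (Θ : Measure Z) [IsProbabilityMeasure Θ] {L : ℕ}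
    (V : Z → Fin L → ℝ) (hV : Measurable V) (C : ℝ) (hC : ∀ z l, |V z l| ≤ C) (κ : ℝ)
    (hκ : 0 < κ) : ∃ (n : ℕ) (w : Fin n → ℝ) (z : Fin n → Z), (∀ i, 0 ≤ w i) ∧ ∑ i, w i = 1 ∧
      ∀ l, |∑ i, w i * V (z i) l - ∫ y, V y l ∂Θ| < κ := by
  have hint : Integrable V Θ := by
    refine Integrable.of_bound hV.aestronglyMeasurable (max C 0) (Eventually.of_forall fun z => ?_)
    rw [pi_norm_le_iff_of_nonneg (le_max_right _ _)]
    intro l
    rw [Real.norm_eq_abs]
    exact (hC z l).trans (le_max_left _ _)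
  have hmem := (convex_convexHull ℝ (range V)).closure.integral_mem isClosed_closure
    (Eventually.of_forall fun z => subset_closure (subset_convexHull ℝ _ (mem_range_self z))) hint
  obtain ⟨x, hx, hdist⟩ := Metric.mem_closure_iff.1 hmem κ hκ
  obtain ⟨ι, _, w, y, hw0, hw1, hy, rfl⟩ := mem_convexHull_iff_exists_fintype.1 hx
  choose z hz using hy
  let e := Fintype.equivFin ι
  refine ⟨Fintype.card ι, w ∘ e.symm, z ∘ e.symm, fun i => hw0 _, ?_, fun l => ?_⟩
  · rw [← hw1]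
    exact e.symm.sum_comp w
  · have h1 : ∑ i, (w ∘ e.symm) i * V ((z ∘ e.symm) i) l = (∑ i, w i • y i) l := by
      rw [Finset.sum_apply]
      have := e.symm.sum_comp (fun i => (w i • y i) l)
      rw [← this]
      refine Finset.sum_congr rfl fun i _ => ?_
      simp only [Function.comp_apply, Pi.smul_apply, smul_eq_mul, ← hz]
    have h2 : ∫ y, V y l ∂Θ = (∫ y, V y ∂Θ) l := by
      rw [eval_integral]
      intro i
      exact (integrable_pi_iff.1 hint) i
    rw [h1, h2, abs_sub_comm, ← Real.dist_eq]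
    exact (dist_le_pi_dist _ _ l).trans_lt hdist

end Fg

theorem taskFg : TaskFg := by
  intro Λ G ε hΛ μ hsub L p r f hf hfb κ hκ
  by_contra hcon
  have hfreq := (not_eventually.1 hcon).and_eventually (eventually_gt_atTop 0)
  obtain ⟨N, hN, hNP⟩ := extraction_of_frequently_atTop hfreq
  obtain ⟨φ, hφ, Z, mZ, Θ, ρ₁, ρ₂, hΘ, hmax, hconv⟩ :=
    hsub N (fun k => (hNP k).2) hN.tendsto_atTop
  choose C hC using hfb
  -- the finite convex combination
  obtain ⟨n, w, z, hw0, hw1, hz⟩ := Fg.approx Θ (fun z l => prodInt Λ (f l) (ρ₁ z) (ρ₂ z))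
    (measurable_pi_lambda _ fun l => (hconv (p l) (r l) (f l) (hf l) ⟨C l, hC l⟩).1)
    (∑ l, |C l|) (fun z l => (Fg.prodInt_bound hΛ (hC l) (hmax z)).trans
      ((le_abs_self _).trans (Finset.single_le_sum (f := fun l => |C l|)
        (fun l _ => abs_nonneg _) (Finset.mem_univ l)))) (κ / 2) (by positivity)
  -- it fails for every `N (φ k)`
  have hfail : ∀ k, ∃ (l : Fin L) (a : Fin (p l) → Fin (N (φ k))) (b : Fin (r l) → Fin (N (φ k))),
      Function.Injective a ∧ Function.Injective b ∧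
      κ < |(∫ x, f l (pick a b x) ∂(μ (N (φ k)))) -
        ∑ i, w i * prodInt Λ (f l) (ρ₁ (z i)) (ρ₂ (z i))| := by
    intro k
    by_contra hk
    push Not at hk
    exact (hNP (φ k)).1 ⟨n, w, fun i => ρ₁ (z i), fun i => ρ₂ (z i), hw0, hw1,
      fun i => hmax (z i), fun l a b ha hb => hk l a b ha hb⟩
  choose l a b ha hb hab using hfail
  have hpos : ∀ k, 0 < N (φ k) := fun k => (hNP (φ k)).2
  have htend : Tendsto (fun k => N (φ k)) atTop atTop :=
    hN.tendsto_atTop.comp hφ.tendsto_atTop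
  classical
  let A : ∀ l0 : Fin L, ∀ k, Fin (p l0) → Fin (N (φ k)) := fun l0 k =>
    if h : l k = l0 then h ▸ a k
    else if h' : p l0 ≤ N (φ k) then Fin.castLE h' else fun _ => ⟨0, hpos k⟩
  let B : ∀ l0 : Fin L, ∀ k, Fin (r l0) → Fin (N (φ k)) := fun l0 k =>
    if h : l k = l0 then h ▸ b k
    else if h' : r l0 ≤ N (φ k) then Fin.castLE h' else fun _ => ⟨0, hpos k⟩
  have hA : ∀ l0 : Fin L, ∀ᶠ k in atTop, Function.Injective (A l0 k) := by
    intro l0
    filter_upwards [htend.eventually_ge_atTop (p l0)] with k hk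
    by_cases h : l k = l0
    · subst h
      simp only [A, dif_pos]
      exact ha k
    · simp only [A, dif_neg h, dif_pos hk]
      exact Fin.castLE_injective hk
  have hB : ∀ l0 : Fin L, ∀ᶠ k in atTop, Function.Injective (B l0 k) := by
    intro l0
    filter_upwards [htend.eventually_ge_atTop (r l0)] with k hk
    by_cases h : l k = l0
    · subst h
      simp only [B, dif_pos]
      exact hb k
    · simp only [B, dif_neg h, dif_pos hk]
      exact Fin.castLE_injective hk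
  have hlim : ∀ᶠ k in atTop, ∀ l0 : Fin L,
      |(∫ x, f l0 (pick (A l0 k) (B l0 k) x) ∂(μ (N (φ k)))) -
        ∫ z, prodInt Λ (f l0) (ρ₁ z) (ρ₂ z) ∂Θ| < κ / 2 := by
    rw [eventually_all]
    intro l0
    have h1 := (hconv (p l0) (r l0) (f l0) (hf l0) ⟨C l0, hC l0⟩).2 (A l0) (B l0) (hA l0) (hB l0)
    have h2 := (Metric.tendsto_nhds.1 h1) (κ / 2) (by positivity)
    filter_upwards [h2] with k hk
    rw [Real.dist_eq] at hk
    exact hk
  obtain ⟨k, hk⟩ := hlim.exists
  have h1 := hk (l k)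
  have e1 : A (l k) k = a k := by simp only [A, dif_pos]
  have e2 : B (l k) k = b k := by simp only [B, dif_pos]
  rw [e1, e2] at h1
  have h2 := hz (l k)
  have h3 := hab k
  have h4 := abs_sub_le (∫ x, f (l k) (pick (a k) (b k) x) ∂(μ (N (φ k))))
    (∫ z, prodInt Λ (f (l k)) (ρ₁ z) (ρ₂ z) ∂Θ)
    (∑ i, w i * prodInt Λ (f (l k)) (ρ₁ (z i)) (ρ₂ (z i)))
  rw [abs_sub_comm (∫ z, prodInt Λ (f (l k)) (ρ₁ z) (ρ₂ z) ∂Θ)] at h4
  linarith

end Pool.Agent.H836_PV
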