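import Pool.Agent.H836_PV.StmtsF

open MeasureTheory Filter Topology Set Metric

namespace Pool.Agent.H836_PV

namespace MuAux

open scoped CompactlySupported

variable {ι : Type} [Fintype ι]

/-- bounded continuous functions on `R` -/
def BC (R : Set (ι → ℂ)) (F : (ι → ℂ) → ℝ) : Prop := ContinuousOn F R ∧ ∃ C, ∀ x ∈ R, |F x| ≤ C

/-- the sublevel set -/
def A (R : Set (ι → ℂ)) (H : (ι → ℂ) → ℝ) (t : ℝ) : Set (ι → ℂ) := {x | x ∈ R ∧ H x < t}

/-- the integral over the sublevel set -/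
noncomputable def I (R : Set (ι → ℂ)) (H : (ι → ℂ) → ℝ) (F : (ι → ℂ) → ℝ) (t : ℝ) : ℝ :=
  ∫ x in A R H t, F x

theorem measA {R : Set (ι → ℂ)} (hR : IsOpen R) {H : (ι → ℂ) → ℝ} (hH : Measurable H) (t : ℝ) :
    MeasurableSet (A R H t) :=
  hR.measurableSet.inter (measurableSet_lt hH measurable_const)

theorem BC.integrableOn {R : Set (ι → ℂ)} (hR : IsOpen R) (hRv : volume R ≠ ⊤)
    {F : (ι → ℂ) → ℝ} (hF : BC R F) : IntegrableOn F R := by
  obtain ⟨hc, C, hC⟩ := hF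
  have hfin : IsFiniteMeasure (volume.restrict R) := by
    rw [isFiniteMeasure_restrict]
    exact hRv
  refine Integrable.of_bound (hc.aestronglyMeasurable hR.measurableSet) C ?_
  rw [ae_restrict_iff' hR.measurableSet]
  exact Eventually.of_forall fun x hx => hC x hx

theorem BC.integrableOnA {R : Set (ι → ℂ)} (hR : IsOpen R) (hRv : volume R ≠ ⊤)
    {F : (ι → ℂ) → ℝ} (hF : BC R F) (H : (ι → ℂ) → ℝ) (t : ℝ) : IntegrableOn F (A R H t) :=
  (hF.integrableOn hR hRv).mono_set fun _ hx => hx.1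

theorem BC.add {R : Set (ι → ℂ)} {F F' : (ι → ℂ) → ℝ} (hF : BC R F) (hF' : BC R F') :
    BC R fun x => F x + F' x := by
  obtain ⟨hc, C, hC⟩ := hF
  obtain ⟨hc', C', hC'⟩ := hF'
  exact ⟨hc.add hc', C + C', fun x hx => (abs_add_le _ _).trans (add_le_add (hC x hx) (hC' x hx))⟩

theorem BC.smul {R : Set (ι → ℂ)} {F : (ι → ℂ) → ℝ} (hF : BC R F) (c : ℝ) :
    BC R fun x => c * F x := by
  obtain ⟨hc, C, hC⟩ := hF
  refine ⟨continuousOn_const.mul hc, |c| * C, fun x hx => ?_⟩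
  rw [abs_mul]
  exact mul_le_mul_of_nonneg_left (hC x hx) (abs_nonneg c)

theorem BC.mul {R : Set (ι → ℂ)} {F F' : (ι → ℂ) → ℝ} (hF : BC R F) (hF' : BC R F') :
    BC R fun x => F x * F' x := by
  obtain ⟨hc, C, hC⟩ := hF
  obtain ⟨hc', C', hC'⟩ := hF'
  refine ⟨hc.mul hc', C * C', fun x hx => ?_⟩
  rw [abs_mul]
  exact mul_le_mul (hC x hx) (hC' x hx) (abs_nonneg _) ((abs_nonneg _).trans (hC x hx))

theorem BC.const (R : Set (ι → ℂ)) (c : ℝ) : BC R fun _ => c :=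
  ⟨continuousOn_const, |c|, fun _ _ => le_rfl⟩

section deriv

variable {R : Set (ι → ℂ)} {H : (ι → ℂ) → ℝ} {E : ℝ}

/-- the derivative -/
noncomputable def D (R : Set (ι → ℂ)) (H : (ι → ℂ) → ℝ) (E : ℝ) (F : (ι → ℂ) → ℝ) : ℝ :=
  deriv (I R H F) E

theorem D_add (hR : IsOpen R) (hRv : volume R ≠ ⊤)
    (hd : ∀ F : (ι → ℂ) → ℝ, BC R F → DifferentiableAt ℝ (I R H F) E)
    {F F' : (ι → ℂ) → ℝ} (hF : BC R F) (hF' : BC R F') :
    D R H E (fun x => F x + F' x) = D R H E F + D R H E F' := by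
  have h1 : I R H (fun x => F x + F' x) = fun t => I R H F t + I R H F' t := by
    funext t
    exact integral_add (hF.integrableOnA hR hRv H t) (hF'.integrableOnA hR hRv H t)
  unfold D
  rw [h1]
  exact ((hd F hF).hasDerivAt.add (hd F' hF').hasDerivAt).deriv

theorem D_smul (hd : ∀ F : (ι → ℂ) → ℝ, BC R F → DifferentiableAt ℝ (I R H F) E)
    {F : (ι → ℂ) → ℝ} (hF : BC R F) (c : ℝ) :
    D R H E (fun x => c * F x) = c * D R H E F := by
  have h1 : I R H (fun x => c * F x) = fun t => c * I R H F t := by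
    funext t
    exact integral_const_mul c _
  unfold D
  rw [h1]
  exact ((hd F hF).hasDerivAt.const_mul c).deriv

theorem I_sub (hR : IsOpen R) (hRv : volume R ≠ ⊤) (hH : Measurable H)
    {F : (ι → ℂ) → ℝ} (hF : BC R F) {s t : ℝ} (hst : s ≤ t) :
    I R H F t - I R H F s = ∫ x in {x | x ∈ R ∧ s ≤ H x ∧ H x < t}, F x := by
  have hsub : A R H s ⊆ A R H t := fun x hx => ⟨hx.1, lt_of_lt_of_le hx.2 hst⟩
  have h1 : A R H t \ A R H s = {x | x ∈ R ∧ s ≤ H x ∧ H x < t} := by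
    ext x
    simp only [A, Set.mem_sdiff, Set.mem_ofPred_eq, not_and, not_lt]
    tauto
  rw [← h1]
  exact (setIntegral_sdiff (measA hR hH s) (hF.integrableOnA hR hRv H t) hsub).symm

/-- the basic estimate -/
theorem D_bound (hR : IsOpen R) (hRv : volume R ≠ ⊤) (hH : Measurable H)
    (hd : ∀ F : (ι → ℂ) → ℝ, BC R F → DifferentiableAt ℝ (I R H F) E)
    {Q : Set (ι → ℂ)} (hQ : IsCompact Q) {κ : ℝ} (hκ : 0 ≤ κ)
    (hQs : ∀ δ : ℝ, 0 < δ →
      volume {x | x ∈ R ∧ x ∉ Q ∧ E ≤ H x ∧ H x < E + δ} ≤ ENNReal.ofReal (κ * δ))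
    {F : (ι → ℂ) → ℝ} (hF : BC R F) (hFQ : ∀ x ∈ Q, F x = 0) {C : ℝ} (hC : ∀ x ∈ R, |F x| ≤ C)
    (hC0 : 0 ≤ C) : |D R H E F| ≤ C * κ := by
  have h1 := (hd F hF).hasDerivAt.tendsto_slope_zero_right
  have h2 : Tendsto (fun t : ℝ => |t⁻¹ • (I R H F (E + t) - I R H F E)|) (𝓝[>] 0)
      (𝓝 |D R H E F|) := h1.abs
  refine le_of_tendsto h2 ?_
  filter_upwards [self_mem_nhdsWithin] with δ hδ
  have hδ' : (0 : ℝ) < δ := hδ
  rw [I_sub hR hRv hH hF (by linarith : E ≤ E + δ)]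
  have hm1 : MeasurableSet {x | x ∈ R ∧ E ≤ H x ∧ H x < E + δ} :=
    hR.measurableSet.inter ((measurableSet_le measurable_const hH).inter
      (measurableSet_lt hH measurable_const))
  have h3 : ∫ x in {x | x ∈ R ∧ E ≤ H x ∧ H x < E + δ}, F x =
      ∫ x in {x | x ∈ R ∧ x ∉ Q ∧ E ≤ H x ∧ H x < E + δ}, F x := by
    have h4 : {x | x ∈ R ∧ x ∉ Q ∧ E ≤ H x ∧ H x < E + δ} =
        {x | x ∈ R ∧ E ≤ H x ∧ H x < E + δ} ∩ Qᶜ := by
      ext x
      simp only [Set.mem_ofPred_eq, Set.mem_inter_iff, Set.mem_compl_iff]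
      tauto
    rw [h4, ← setIntegral_indicator hQ.isClosed.isOpen_compl.measurableSet]
    refine integral_congr_ae (Eventually.of_forall fun x => ?_)
    by_cases hx : x ∈ Q
    · simp [hx, hFQ x hx]
    · simp [hx]
  rw [h3]
  have hlt : volume {x | x ∈ R ∧ x ∉ Q ∧ E ≤ H x ∧ H x < E + δ} < ⊤ :=
    lt_of_le_of_lt (hQs δ hδ') ENNReal.ofReal_lt_top
  have h5 := norm_setIntegral_le_of_norm_le_const (f := F) hlt (C := C)
    (fun x hx => hC x hx.1)
  have h6 : volume.real {x | x ∈ R ∧ x ∉ Q ∧ E ≤ H x ∧ H x < E + δ} ≤ κ * δ := by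
    rw [Measure.real]
    exact ENNReal.toReal_le_of_le_ofReal (by positivity) (hQs δ hδ')
  rw [Real.norm_eq_abs] at h5
  rw [smul_eq_mul, abs_mul, abs_of_pos (inv_pos.2 hδ')]
  calc δ⁻¹ * |∫ x in {x | x ∈ R ∧ x ∉ Q ∧ E ≤ H x ∧ H x < E + δ}, F x|
      ≤ δ⁻¹ * (C * (κ * δ)) := by
        refine mul_le_mul_of_nonneg_left (h5.trans ?_) (inv_pos.2 hδ').le
        exact mul_le_mul_of_nonneg_left h6 hC0
    _ = C * κ * (δ⁻¹ * δ) := by ring
    _ = C * κ := by rw [inv_mul_cancel₀ hδ'.ne', mul_one]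

theorem D_nonneg (hR : IsOpen R) (hRv : volume R ≠ ⊤) (hH : Measurable H)
    (hd : ∀ F : (ι → ℂ) → ℝ, BC R F → DifferentiableAt ℝ (I R H F) E)
    {F : (ι → ℂ) → ℝ} (hF : BC R F) (h0 : ∀ x ∈ R, 0 ≤ F x) : 0 ≤ D R H E F := by
  have h1 := (hd F hF).hasDerivAt.tendsto_slope_zero_right
  refine ge_of_tendsto h1 ?_
  filter_upwards [self_mem_nhdsWithin] with δ hδ
  have hδ' : (0 : ℝ) < δ := hδ
  rw [I_sub hR hRv hH hF (by linarith : E ≤ E + δ), smul_eq_mul]
  have hm1 : MeasurableSet {x | x ∈ R ∧ E ≤ H x ∧ H x < E + δ} :=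
    hR.measurableSet.inter ((measurableSet_le measurable_const hH).inter
      (measurableSet_lt hH measurable_const))
  exact mul_nonneg (inv_pos.2 hδ').le (setIntegral_nonneg hm1 fun x hx => h0 x hx.1)

theorem D_mono (hR : IsOpen R) (hRv : volume R ≠ ⊤) (hH : Measurable H)
    (hd : ∀ F : (ι → ℂ) → ℝ, BC R F → DifferentiableAt ℝ (I R H F) E)
    {F F' : (ι → ℂ) → ℝ} (hF : BC R F) (hF' : BC R F') (h : ∀ x ∈ R, F x ≤ F' x) :
    D R H E F ≤ D R H E F' := by
  have h1 := D_add hR hRv hd hF' (hF.smul (-1))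
  rw [D_smul hd hF] at h1
  have h2 := D_nonneg hR hRv hH hd (hF'.add (hF.smul (-1))) (fun x hx => by
    have := h x hx
    linarith)
  rw [h1] at h2
  linarith

end deriv

theorem BC_of_cc (R : Set (ι → ℂ)) (f : C_c(ι → ℂ, ℝ)) : BC R f := by
  refine ⟨f.continuous.continuousOn, ?_⟩
  obtain ⟨C, hC⟩ := f.hasCompactSupport.exists_bound_of_continuous f.continuous
  exact ⟨C, fun x _ => hC x⟩

/-- a cut-off times a bounded continuous function -/
theorem cut_continuous {R : Set (ι → ℂ)} (hR : IsOpen R) {F : (ι → ℂ) → ℝ} (hF : ContinuousOn F R)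
    (χ : C(ι → ℂ, ℝ)) (hχ : tsupport χ ⊆ R) : Continuous fun x => F x * χ x := by
  refine continuous_of_tsupport fun x hx => ?_
  have h1 : x ∈ tsupport χ := by
    refine closure_mono ?_ hx
    intro y hy
    rw [Function.mem_support] at hy ⊢
    exact right_ne_zero_of_mul hy
  exact ((hF x (hχ h1)).continuousAt (hR.mem_nhds (hχ h1))).mul χ.continuous.continuousAt

theorem cut_support {F : (ι → ℂ) → ℝ} (χ : C(ι → ℂ, ℝ)) (hχ : IsCompact (tsupport χ)) :
    HasCompactSupport fun x => F x * χ x :=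
  HasCompactSupport.mul_left hχ

end MuAux

open MuAux in
open scoped CompactlySupported in
theorem taskMu : TaskMu := by
  intro ι _ _ R H hR hRv hH E h1 h2 h3
  have hd : ∀ F : (ι → ℂ) → ℝ, BC R F → DifferentiableAt ℝ (I R H F) E :=
    fun F hF => h2 F hF.1 hF.2
  set p := deriv (fun t => (volume {x | x ∈ R ∧ H x < t}).toReal) E with hp
  have hD1 : D R H E (fun _ => 1) = p := by
    rw [hp]
    unfold D
    congr 1
    funext t
    unfold I
    rw [integral_const, smul_eq_mul, mul_one, measureReal_restrict_apply_univ]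
    rfl
  have hne : p ≠ 0 := h3.ne'
  -- the functional
  let Λ : C_c(ι → ℂ, ℝ) →ₚ[ℝ] ℝ := PositiveLinearMap.mk₀
    { toFun := fun f => D R H E f / p
      map_add' := fun f g => by
        have h4 := D_add hR hRv hd (BC_of_cc R f) (BC_of_cc R g)
        rw [← add_div, ← h4]
        rfl
      map_smul' := fun c f => by
        have h4 := D_smul hd (BC_of_cc R f) c
        rw [RingHom.id_apply, smul_eq_mul, ← mul_div_assoc, ← h4]
        rfl }
    (fun f hf => div_nonneg (D_nonneg hR hRv hH hd (BC_of_cc R f) fun x _ => hf x) h3.le)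
  have hΛ : ∀ f : C_c(ι → ℂ, ℝ), Λ f = D R H E f / p := fun f => rfl
  set μ : Measure (ι → ℂ) := RealRMK.rieszMeasure Λ with hμ
  have hint : ∀ f : C_c(ι → ℂ, ℝ), ∫ x, f x ∂μ = D R H E f / p := fun f =>
    (RealRMK.integral_rieszMeasure Λ f).trans (hΛ f)
  -- total mass at most one
  have hle1 : μ Set.univ ≤ 1 := by
    rw [isOpen_univ.measure_eq_iSup_isCompact]
    refine iSup₂_le fun K _ => iSup_le fun hK => ?_
    obtain ⟨ψ, hψ1, hψ2, _, hψ4⟩ :=
      exists_continuousMap_one_of_isCompact_subset_isOpen hK isOpen_univ (Set.subset_univ K)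
    let f : C_c(ι → ℂ, ℝ) := ⟨ψ, hψ2⟩
    have h4 := RealRMK.rieszMeasure_le_of_eq_one Λ (f := f) (fun x => (hψ4 x).1) hK
      (fun x hx => hψ1 hx)
    refine h4.trans ?_
    have h5 : Λ f ≤ 1 := by
      rw [hΛ, div_le_one h3, ← hD1]
      exact D_mono hR hRv hH hd (BC_of_cc R f) (BC.const R 1) fun x _ => (hψ4 x).2
    rw [← ENNReal.ofReal_one]
    exact ENNReal.ofReal_le_ofReal h5
  -- cut-offs
  have hcut : ∀ κ : ℝ, 0 < κ → ∃ χ : C(ι → ℂ, ℝ), IsCompact (tsupport χ) ∧ tsupport χ ⊆ R ∧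
      (∀ x, χ x ∈ Set.Icc (0 : ℝ) 1) ∧
      ∀ (F : (ι → ℂ) → ℝ) (C : ℝ), BC R F → (∀ x ∈ R, |F x| ≤ C) → 0 ≤ C →
        |D R H E F - D R H E (fun x => F x * χ x)| ≤ C * (κ * p) := by
    intro κ hκ
    obtain ⟨Q, hQ, hQR, hQs⟩ := h1 (κ * p) (mul_pos hκ h3)
    obtain ⟨χ, hχ1, hχ2, hχ3, hχ4⟩ := exists_continuousMap_one_of_isCompact_subset_isOpen hQ hR hQR
    refine ⟨χ, hχ2, hχ3, hχ4, fun F C hF hC hC0 => ?_⟩
    have hχBC : BC R χ := ⟨χ.continuous.continuousOn, 1, fun x _ => by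
      rw [abs_of_nonneg (hχ4 x).1]
      exact (hχ4 x).2⟩
    have hFχ : BC R fun x => F x * χ x := hF.mul hχBC
    have h4 := D_add hR hRv hd hF (hFχ.smul (-1))
    rw [D_smul hd hFχ] at h4
    have h5 : D R H E F - D R H E (fun x => F x * χ x) =
        D R H E fun x => F x + -1 * (F x * χ x) := by
      rw [h4]
      ring
    rw [h5]
    refine D_bound hR hRv hH hd hQ (mul_pos hκ h3).le hQs (hF.add (hFχ.smul (-1))) ?_ ?_ hC0
    · intro x hx
      have h6 : χ x = 1 := hχ1 hx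
      rw [h6]
      ring
    · intro x hx
      have h6 : F x + -1 * (F x * χ x) = F x * (1 - χ x) := by ring
      rw [h6, abs_mul]
      have h7 : |1 - χ x| ≤ 1 := by
        rw [abs_of_nonneg (by linarith [(hχ4 x).2])]
        linarith [(hχ4 x).1]
      calc |F x| * |1 - χ x| ≤ C * 1 :=
            mul_le_mul (hC x hx) h7 (abs_nonneg _) hC0
        _ = C := mul_one C
  have hχD : ∀ κ : ℝ, 0 < κ → ∀ χ : C(ι → ℂ, ℝ), (∀ (F : (ι → ℂ) → ℝ) (C : ℝ), BC R F →
      (∀ x ∈ R, |F x| ≤ C) → 0 ≤ C →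
        |D R H E F - D R H E (fun x => F x * χ x)| ≤ C * (κ * p)) →
      1 - κ ≤ D R H E χ / p := by
    intro κ hκ χ hχ
    have h4 := hχ (fun _ => 1) 1 (BC.const R 1) (fun _ _ => by simp) zero_le_one
    have h5 : (fun x => 1 * χ x) = (χ : (ι → ℂ) → ℝ) := by
      funext x
      rw [one_mul]
    rw [h5, hD1, one_mul] at h4
    have h6 := (abs_le.1 h4).2
    rw [le_div_iff₀ h3]
    linarith
  have hge1 : 1 ≤ μ R := by
    refine le_of_forall_lt fun c hc => ?_
    obtain ⟨κ, hκ0, hκ⟩ : ∃ κ : ℝ, 0 < κ ∧ c < ENNReal.ofReal (1 - κ) := by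
      have hctop : c ≠ ⊤ := ne_top_of_lt hc
      have hc1 : c.toReal < 1 := by
        rw [← ENNReal.toReal_one]
        exact (ENNReal.toReal_lt_toReal hctop ENNReal.one_ne_top).2 hc
      refine ⟨(1 - c.toReal) / 2, by linarith, ?_⟩
      rw [ENNReal.lt_ofReal_iff_toReal_lt hctop]
      linarith
    obtain ⟨χ, hχ1, hχ2, hχ3, hχ4⟩ := hcut κ hκ0
    let f : C_c(ι → ℂ, ℝ) := ⟨χ, hχ1⟩
    have h4 := RealRMK.le_rieszMeasure_tsupport_subset Λ (f := f) hχ3 hχ2
    refine lt_of_lt_of_le hκ (le_trans ?_ h4)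
    exact ENNReal.ofReal_le_ofReal (hχD κ hκ0 χ hχ4)
  have hprob : IsProbabilityMeasure μ :=
    ⟨le_antisymm hle1 (hge1.trans (measure_mono (Set.subset_univ R)))⟩
  have hR1 : μ R = 1 := le_antisymm ((measure_mono (Set.subset_univ R)).trans hle1) hge1
  have hRc : μ Rᶜ = 0 := (prob_compl_eq_zero_iff hR.measurableSet).2 hR1
  refine ⟨μ, hprob, hRc, fun F hFc hFb => ?_⟩
  have hF : BC R F := ⟨hFc, hFb⟩
  have hae : ∀ᵐ x ∂μ, x ∈ R := by
    rw [ae_iff]
    exact hRc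
  have hres : μ.restrict R = μ := Measure.restrict_eq_self_of_ae_mem hae
  have hintF : ∀ F : (ι → ℂ) → ℝ, BC R F → Integrable F μ := by
    rintro F ⟨hc, C, hC⟩
    have h4 : AEStronglyMeasurable F μ := by
      have := hc.aestronglyMeasurable (μ := μ) hR.measurableSet
      rwa [hres] at this
    refine Integrable.of_bound h4 C ?_
    filter_upwards [hae] with x hx
    exact hC x hx
  have hkey : D R H E F = p * ∫ x, F x ∂μ := by
    obtain ⟨C0, hC0⟩ := hFb
    set C := |C0| with hCdef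
    have hC : ∀ x ∈ R, |F x| ≤ C := fun x hx => (hC0 x hx).trans (le_abs_self C0)
    have hCn : 0 ≤ C := abs_nonneg C0
    have hest : ∀ κ : ℝ, 0 < κ → |D R H E F / p - ∫ x, F x ∂μ| ≤ 2 * C * κ := by
      intro κ hκ
      obtain ⟨χ, hχ1, hχ2, hχ3, hχ4⟩ := hcut κ hκ
      let fχ : C_c(ι → ℂ, ℝ) := ⟨⟨fun x => F x * χ x, cut_continuous hR hFc χ hχ2⟩,
        cut_support χ hχ1⟩
      let f : C_c(ι → ℂ, ℝ) := ⟨χ, hχ1⟩
      have h4 : ∫ x, F x * χ x ∂μ = D R H E (fun x => F x * χ x) / p := hint fχ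
      have h5 : ∫ x, χ x ∂μ = D R H E χ / p := hint f
      have h6 := hχD κ hκ χ hχ4
      have h7 := hχ4 F C hF hC hCn
      have hχBC : BC R χ := ⟨χ.continuous.continuousOn, 1, fun x _ => by
        rw [abs_of_nonneg (hχ3 x).1]
        exact (hχ3 x).2⟩
      have hiF := hintF F hF
      have hiFχ := hintF _ (hF.mul hχBC)
      have hiχ := hintF _ hχBC
      have h8 : |∫ x, F x ∂μ - ∫ x, F x * χ x ∂μ| ≤ C * κ := by
        rw [← integral_sub hiF hiFχ]
        have h9 : ‖∫ x, (F x - F x * χ x) ∂μ‖ ≤ ∫ x, C * (1 - χ x) ∂μ := by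
          refine norm_integral_le_of_norm_le
            (((integrable_const (1 : ℝ)).sub hiχ).const_mul C) ?_
          filter_upwards [hae] with x hx
          have h10 : F x - F x * χ x = F x * (1 - χ x) := by ring
          rw [h10, Real.norm_eq_abs, abs_mul, abs_of_nonneg (by linarith [(hχ3 x).2] :
            (0 : ℝ) ≤ 1 - χ x)]
          exact mul_le_mul_of_nonneg_right (hC x hx) (by linarith [(hχ3 x).2])
        rw [integral_const_mul, integral_sub (integrable_const (1 : ℝ)) hiχ, h5] at h9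
        simp only [integral_const, probReal_univ, smul_eq_mul, mul_one] at h9
        rw [Real.norm_eq_abs] at h9
        refine h9.trans (mul_le_mul_of_nonneg_left ?_ hCn)
        linarith
      have h11 : |D R H E F / p - D R H E (fun x => F x * χ x) / p| ≤ C * κ := by
        rw [← sub_div, abs_div, abs_of_pos h3, div_le_iff₀ h3]
        linarith
      rw [h4] at h8
      have h12 : D R H E F / p - ∫ x, F x ∂μ =
          (D R H E F / p - D R H E (fun x => F x * χ x) / p) -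
          (∫ x, F x ∂μ - D R H E (fun x => F x * χ x) / p) := by ring
      rw [h12]
      refine (abs_sub _ _).trans ?_
      linarith
    have hzero : D R H E F / p - ∫ x, F x ∂μ = 0 := by
      by_contra hne0
      have hpos : 0 < |D R H E F / p - ∫ x, F x ∂μ| := abs_pos.2 hne0
      have h13 := hest (|D R H E F / p - ∫ x, F x ∂μ| / (4 * (C + 1))) (by positivity)
      have h14 : 2 * C * (|D R H E F / p - ∫ x, F x ∂μ| / (4 * (C + 1))) ≤
          |D R H E F / p - ∫ x, F x ∂μ| / 2 := by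
        rw [mul_div_assoc', div_le_div_iff₀ (by positivity) (by norm_num)]
        nlinarith
      linarith
    rw [sub_eq_zero, div_eq_iff hne] at hzero
    rw [hzero, mul_comm]
  have h15 := (hd F hF).hasDerivAt
  have h16 : deriv (I R H F) E = p * ∫ x, F x ∂μ := hkey
  rw [h16] at h15
  exact h15

end Pool.Agent.H836_PV
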