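import Pool.Agent.H836_PV.Pb1

/-!
# Task Pb: the sweeping measures
-/

open MeasureTheory Filter Topology Set Metric ProbabilityTheory

namespace Pool.Agent.H836_PV

theorem sweep_zero (Λ : Set ℂ) (x : ℂ) : sweep Λ x 0 = Measure.dirac x := rfl

theorem sweep_succ (Λ : Set ℂ) (x : ℂ) (n : ℕ) :
    sweep Λ x (n + 1) = (sweep Λ x n).bind (step Λ) := rfl

theorem sweep_one {Λ : Set ℂ} (ho : IsOpen Λ) (x : ℂ) : sweep Λ x 1 = step Λ x := by
  rw [sweep_succ, sweep_zero, Measure.dirac_bind (step_measurable ho)]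

theorem sweep_measurable {Λ : Set ℂ} (ho : IsOpen Λ) (n : ℕ) :
    Measurable (fun x => sweep Λ x n) := by
  induction n with
  | zero => exact Measure.measurable_dirac
  | succ n ih => exact (Measure.measurable_bind' (step_measurable ho)).comp ih

theorem sweep_prob {Λ : Set ℂ} (ho : IsOpen Λ) (hb : Bornology.IsBounded Λ) (x : ℂ) (n : ℕ) :
    IsProbabilityMeasure (sweep Λ x n) := by
  induction n with
  | zero => rw [sweep_zero]; infer_instance
  | succ n ih =>
    constructor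
    rw [sweep_succ, Measure.bind_apply MeasurableSet.univ (step_measurable ho).aemeasurable]
    have : ∀ z, step Λ z univ = 1 := fun z => (step_prob ho hb z).measure_univ
    simp only [this, lintegral_const, one_mul]
    exact ih.measure_univ

theorem sweep_compl {Λ : Set ℂ} (ho : IsOpen Λ) {x : ℂ} (hx : x ∈ Λ) (n : ℕ) :
    sweep Λ x n Λᶜ = 0 := by
  have hm : MeasurableSet Λᶜ := ho.isClosed_compl.measurableSet
  induction n with
  | zero => rw [sweep_zero, Measure.dirac_apply' _ hm]; simp [hx]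
  | succ n ih =>
    rw [sweep_succ, Measure.bind_apply hm (step_measurable ho).aemeasurable]
    have hae : ∀ᵐ z ∂(sweep Λ x n), z ∈ Λ := by
      rw [ae_iff]; exact ih
    have h0 : ∫⁻ a, step Λ a Λᶜ ∂(sweep Λ x n) = ∫⁻ _, 0 ∂(sweep Λ x n) := by
      apply lintegral_congr_ae
      filter_upwards [hae] with z hz using step_compl ho hz
    rw [h0, lintegral_zero]

theorem sweep_ae {Λ : Set ℂ} (ho : IsOpen Λ) {x : ℂ} (hx : x ∈ Λ) (n : ℕ) :
    ∀ᵐ z ∂(sweep Λ x n), z ∈ Λ := by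
  rw [ae_iff]; exact sweep_compl ho hx n

theorem sweep_restrict {Λ : Set ℂ} (ho : IsOpen Λ) {x : ℂ} (hx : x ∈ Λ) (n : ℕ) :
    (sweep Λ x n).restrict Λ = sweep Λ x n :=
  Measure.restrict_eq_self_of_ae_mem (sweep_ae ho hx n)

/-- a bounded function, measurable on `Λ`, is integrable -/
theorem sweep_integrable {Λ : Set ℂ} (ho : IsOpen Λ) (hb : Bornology.IsBounded Λ) {x : ℂ}
    (hx : x ∈ Λ) (n : ℕ) {f : ℂ → ℝ} (hf : AEStronglyMeasurable f (sweep Λ x n)) {C : ℝ}
    (hC : ∀ z ∈ Λ, |f z| ≤ C) : Integrable f (sweep Λ x n) := by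
  have := sweep_prob ho hb x n
  apply Integrable.of_bound hf C
  filter_upwards [sweep_ae ho hx n] with z hz
  exact hC z hz

/-- integral with respect to the next sweep -/
theorem integral_sweep_succ {Λ : Set ℂ} (ho : IsOpen Λ) (hb : Bornology.IsBounded Λ) {x : ℂ}
    (n : ℕ) {f : ℂ → ℝ} (hf : Integrable f (sweep Λ x (n + 1))) :
    Integrable (fun z => ∫ w, f w ∂(step Λ z)) (sweep Λ x n) ∧
    ∫ z, f z ∂(sweep Λ x (n + 1)) = ∫ z, ∫ w, f w ∂(step Λ z) ∂(sweep Λ x n) := by
  have := sweep_prob ho hb x n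
  have := kstep_markov ho hb
  have e : sweep Λ x (n + 1) = (kstep Λ ho ∘ₖ (Kernel.const Unit (sweep Λ x n))) () := by
    rw [Kernel.comp_apply, Kernel.const_apply]
    rfl
  have hf2 := hf
  rw [e] at hf2
  constructor
  · have h := hf2.integral_comp
    rw [Kernel.const_apply] at h
    exact h
  · rw [e, Kernel.integral_comp hf2, Kernel.const_apply]
    rfl

theorem sweep_harmonic {Λ : Set ℂ} (ho : IsOpen Λ) (hb : Bornology.IsBounded Λ) {u : ℂ → ℝ}
    (hu : InnerProductSpace.HarmonicOnNhd u Λ) {C : ℝ} (hC : ∀ x ∈ Λ, |u x| ≤ C) {x : ℂ}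
    (hx : x ∈ Λ) (n : ℕ) : ∫ z, u z ∂(sweep Λ x n) = u x := by
  induction n with
  | zero => rw [sweep_zero, integral_dirac]
  | succ n ih =>
    have hm : AEStronglyMeasurable u (sweep Λ x (n + 1)) := by
      rw [← sweep_restrict ho hx]
      exact hu.continuousOn.aestronglyMeasurable ho.measurableSet
    rw [(integral_sweep_succ ho hb n (sweep_integrable ho hb hx (n + 1) hm hC)).2, ← ih]
    apply integral_congr_ae
    filter_upwards [sweep_ae ho hx n] with z hz
    exact harmonic_step ho hb hz hu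

/-- `E d(X_n)² → 0` -/
theorem sweep_dc {Λ : Set ℂ} (ho : IsOpen Λ) (hb : Bornology.IsBounded Λ) {x : ℂ}
    (hx : x ∈ Λ) : Tendsto (fun n => ∫ z, dc Λ z ^ 2 ∂(sweep Λ x n)) atTop (𝓝 0) := by
  obtain ⟨D, hD⟩ := hb.exists_norm_le
  have hD0 : 0 ≤ D := (norm_nonneg x).trans (hD x hx)
  obtain ⟨y, hy⟩ := compl_nonempty_of_bdd hb
  have hdb : ∀ z ∈ Λ, |dc Λ z ^ 2| ≤ (D + ‖y‖) ^ 2 := by
    intro z hz
    rw [abs_of_nonneg (by positivity)]
    apply pow_le_pow_left₀ (dc_nonneg Λ z)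
    calc dc Λ z ≤ dist z y := infDist_le_dist_of_mem hy
      _ ≤ ‖z‖ + ‖y‖ := by rw [dist_eq_norm]; exact norm_sub_le z y
      _ ≤ D + ‖y‖ := by linarith [hD z hz]
  have hnb : ∀ z ∈ Λ, |‖z‖ ^ 2| ≤ D ^ 2 := by
    intro z hz
    rw [abs_of_nonneg (by positivity)]
    exact pow_le_pow_left₀ (norm_nonneg z) (hD z hz) 2
  have hi1 : ∀ n, Integrable (fun z => dc Λ z ^ 2) (sweep Λ x n) := fun n =>
    sweep_integrable ho hb hx n ((dc_continuous Λ).pow 2).aestronglyMeasurable hdb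
  have hi2 : ∀ n, Integrable (fun z : ℂ => ‖z‖ ^ 2) (sweep Λ x n) := fun n =>
    sweep_integrable ho hb hx n (by fun_prop : Continuous fun z : ℂ => ‖z‖ ^ 2).aestronglyMeasurable
      hnb
  have hstep : ∀ n, (∫ z, ‖z‖ ^ 2 ∂(sweep Λ x n)) + 3 / 64 * ∫ z, dc Λ z ^ 2 ∂(sweep Λ x n) ≤
      ∫ z, ‖z‖ ^ 2 ∂(sweep Λ x (n + 1)) := by
    intro n
    obtain ⟨h1, h2⟩ := integral_sweep_succ ho hb n (hi2 (n + 1))
    rw [h2, ← integral_const_mul, ← integral_add (hi2 n) ((hi1 n).const_mul _)]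
    apply integral_mono_ae ((hi2 n).add ((hi1 n).const_mul _)) h1
    filter_upwards [sweep_ae ho hx n] with z hz
    exact second_moment_step ho hb hz
  have hnn : ∀ n, 0 ≤ ∫ z, dc Λ z ^ 2 ∂(sweep Λ x n) := fun n =>
    integral_nonneg fun z => by positivity
  have hsum : ∀ n, ∑ k ∈ Finset.range n, (∫ z, dc Λ z ^ 2 ∂(sweep Λ x k)) ≤ 64 / 3 * D ^ 2 := by
    intro n
    have h1 : 3 / 64 * ∑ k ∈ Finset.range n, (∫ z, dc Λ z ^ 2 ∂(sweep Λ x k)) ≤
        ∫ z, ‖z‖ ^ 2 ∂(sweep Λ x n) := by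
      induction n with
      | zero => simp; exact integral_nonneg fun z => by positivity
      | succ n ih =>
        rw [Finset.sum_range_succ]
        linarith [hstep n]
    have h2 : ∫ z, ‖z‖ ^ 2 ∂(sweep Λ x n) ≤ D ^ 2 := by
      have := sweep_prob ho hb x n
      calc ∫ z, ‖z‖ ^ 2 ∂(sweep Λ x n) ≤ ∫ z, D ^ 2 ∂(sweep Λ x n) := by
            apply integral_mono_ae (hi2 n) (integrable_const _)
            filter_upwards [sweep_ae ho hx n] with z hz
            exact pow_le_pow_left₀ (norm_nonneg z) (hD z hz) 2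
        _ = D ^ 2 := by simp
    linarith
  exact (summable_of_sum_range_le hnn hsum).tendsto_atTop_zero

/-- small density on compact subsets -/
theorem sweep_density {Λ : Set ℂ} (ho : IsOpen Λ) (hb : Bornology.IsBounded Λ) {x : ℂ}
    (hx : x ∈ Λ) {η : ℝ} (hη : 0 < η) : ∃ θ : ℕ → ℝ, (∀ n, 0 ≤ θ n) ∧ Tendsto θ atTop (𝓝 0) ∧
    ∀ n, ∀ A : Set ℂ, MeasurableSet A → (∀ z ∈ A, z ∈ Λ ∧ η ≤ infDist z Λᶜ) →
      sweep Λ x (n + 1) A ≤ ENNReal.ofReal (θ n) * volume A := by
  refine ⟨fun n => 81 / (4 * Real.pi * η ^ 4) * ∫ z, dc Λ z ^ 2 ∂(sweep Λ x n), ?_, ?_, ?_⟩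
  · intro n
    have := Real.pi_pos
    have h : 0 ≤ ∫ z, dc Λ z ^ 2 ∂(sweep Λ x n) := integral_nonneg fun z => by positivity
    positivity
  · simpa using (sweep_dc ho hb hx).const_mul (81 / (4 * Real.pi * η ^ 4))
  · intro n A hA hAη
    have := Real.pi_pos
    obtain ⟨D, hD⟩ := hb.exists_norm_le
    obtain ⟨y, hy⟩ := compl_nonempty_of_bdd hb
    have hdb : ∀ z ∈ Λ, |dc Λ z ^ 2| ≤ (D + ‖y‖) ^ 2 := by
      intro z hz
      rw [abs_of_nonneg (by positivity)]
      apply pow_le_pow_left₀ (dc_nonneg Λ z)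
      calc dc Λ z ≤ dist z y := infDist_le_dist_of_mem hy
        _ ≤ ‖z‖ + ‖y‖ := by rw [dist_eq_norm]; exact norm_sub_le z y
        _ ≤ D + ‖y‖ := by linarith [hD z hz]
    have hi1 : Integrable (fun z => dc Λ z ^ 2) (sweep Λ x n) :=
      sweep_integrable ho hb hx n ((dc_continuous Λ).pow 2).aestronglyMeasurable hdb
    rw [sweep_succ, Measure.bind_apply hA (step_measurable ho).aemeasurable]
    calc ∫⁻ z, step Λ z A ∂(sweep Λ x n)
        ≤ ∫⁻ z, ENNReal.ofReal (81 / (4 * Real.pi * η ^ 4) * dc Λ z ^ 2) * volume A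
            ∂(sweep Λ x n) := by
          apply lintegral_mono_ae
          filter_upwards [sweep_ae ho hx n] with z hz
          exact step_le' ho hb hz hη A hA fun w hw => (hAη w hw).2
      _ = (∫⁻ z, ENNReal.ofReal (81 / (4 * Real.pi * η ^ 4) * dc Λ z ^ 2) ∂(sweep Λ x n)) *
            volume A := by
          rw [lintegral_mul_const]
          exact (((dc_continuous Λ).pow 2).const_mul _ |>.measurable).ennreal_ofReal
      _ = _ := by
          rw [← ofReal_integral_eq_lintegral_ofReal (hi1.const_mul _)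
            (Eventually.of_forall fun z => by positivity), integral_const_mul]

/-- uniform smallness near the boundary -/
theorem small_near_boundary {Λ : Set ℂ} (ho : IsOpen Λ) (hb : Bornology.IsBounded Λ)
    {F : ℂ → ℝ} (hF : ∀ ξ ∈ frontier Λ, Tendsto F (𝓝[Λ] ξ) (𝓝 0)) {e : ℝ} (he : 0 < e) :
    ∃ η : ℝ, 0 < η ∧ ∀ z ∈ Λ, dc Λ z < η → F z ≤ e := by
  by_contra hcon
  push Not at hcon
  have hk : ∀ k : ℕ, ∃ z ∈ Λ, dc Λ z < 1 / ((k : ℝ) + 1) ∧ e < F z := fun k =>
    hcon (1 / ((k : ℝ) + 1)) (by positivity)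
  choose z hz hdz hFz using hk
  have hcomp : IsCompact (closure Λ) := hb.isCompact_closure
  obtain ⟨ξ, hξ, φ, hφ, hlim⟩ := hcomp.tendsto_subseq fun k => subset_closure (hz k)
  have hd0 : Tendsto (fun k => dc Λ (z (φ k))) atTop (𝓝 0) := by
    apply squeeze_zero (fun k => dc_nonneg Λ _) (fun k => (hdz (φ k)).le)
    exact tendsto_one_div_add_atTop_nhds_zero_nat.comp hφ.tendsto_atTop
  have hd1 : Tendsto (fun k => dc Λ (z (φ k))) atTop (𝓝 (dc Λ ξ)) :=
    ((dc_continuous Λ).tendsto ξ).comp hlim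
  have hd2 : dc Λ ξ = 0 := tendsto_nhds_unique hd1 hd0
  have hξc : ξ ∉ Λ := fun h => (dc_pos ho hb h).ne' hd2
  have hfr : ξ ∈ frontier Λ := ⟨hξ, by rwa [ho.interior_eq]⟩
  have h1 : Tendsto (fun k => z (φ k)) atTop (𝓝[Λ] ξ) :=
    tendsto_nhdsWithin_iff.2 ⟨hlim, Eventually.of_forall fun k => hz _⟩
  have h2 := (hF ξ hfr).comp h1
  obtain ⟨k, hk⟩ := (h2.eventually (gt_mem_nhds he)).exists
  exact absurd hk (not_lt.2 (hFz (φ k)).le)

/-- the restriction of a sweep to a compact region -/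
theorem restrict_le_of {μ : Measure ℂ} {S : Set ℂ} (hS : MeasurableSet S) {c : ENNReal}
    (h : ∀ A : Set ℂ, MeasurableSet A → A ⊆ S → μ A ≤ c * volume A) :
    μ.restrict S ≤ c • volume.restrict S := by
  refine Measure.le_iff.2 fun A hA => ?_
  rw [Measure.restrict_apply hA, Measure.smul_apply, Measure.restrict_apply hA, smul_eq_mul]
  exact h _ (hA.inter hS) inter_subset_right

theorem measurableSet_dc (Λ : Set ℂ) (ho : IsOpen Λ) (η : ℝ) :
    MeasurableSet {z | z ∈ Λ ∧ η ≤ infDist z Λᶜ} :=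
  ho.measurableSet.inter (measurableSet_le measurable_const (dc_continuous Λ).measurable)

/-- a function vanishing at the boundary is swept out -/
theorem sweep_out {Λ : Set ℂ} (ho : IsOpen Λ) (hb : Bornology.IsBounded Λ)
    {F : ℂ → ℝ} (hF0 : ∀ z ∈ Λ, 0 ≤ F z) (hFm : Measurable F)
    (hF : ∀ ξ ∈ frontier Λ, Tendsto F (𝓝[Λ] ξ) (𝓝 0))
    (hFi : ∀ η : ℝ, 0 < η → IntegrableOn F {z | z ∈ Λ ∧ η ≤ infDist z Λᶜ}) {x : ℂ} (hx : x ∈ Λ) :
    (∀ n, Integrable F (sweep Λ x (n + 1))) ∧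
    Tendsto (fun n => ∫ z, F z ∂(sweep Λ x (n + 1))) atTop (𝓝 0) := by
  have key : ∀ e : ℝ, 0 < e → ∃ (θ : ℕ → ℝ) (I : ℝ), Tendsto θ atTop (𝓝 0) ∧
      (∀ n, Integrable F (sweep Λ x (n + 1))) ∧
      ∀ n, ∫ z, F z ∂(sweep Λ x (n + 1)) ≤ e + θ n * I := by
    intro e he
    obtain ⟨η, hη, hsmall⟩ := small_near_boundary ho hb hF he
    obtain ⟨θ, hθ0, hθ, hdens⟩ := sweep_density ho hb hx hη
    set S : Set ℂ := {z | z ∈ Λ ∧ η ≤ infDist z Λᶜ} with hS
    have hSm : MeasurableSet S := measurableSet_dc Λ ho η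
    refine ⟨θ, ∫ z in S, F z, hθ, ?_, ?_⟩
    · intro n
      have := sweep_prob ho hb x (n + 1)
      have hle := restrict_le_of hSm (c := ENNReal.ofReal (θ n)) fun A hA hAS =>
        hdens n A hA hAS
      have h1 : IntegrableOn F S (sweep Λ x (n + 1)) := by
        refine Integrable.mono_measure ?_ hle
        exact (hFi η hη).smul_measure ENNReal.ofReal_ne_top
      have h2 : IntegrableOn F Sᶜ (sweep Λ x (n + 1)) := by
        apply Integrable.of_bound hFm.aestronglyMeasurable e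
        have h3 : ∀ᵐ z ∂(sweep Λ x (n + 1)).restrict Sᶜ, z ∈ Λ :=
          ae_restrict_of_ae (sweep_ae ho hx _)
        filter_upwards [h3, ae_restrict_mem hSm.compl] with z hz hzS
        rw [Real.norm_eq_abs, abs_of_nonneg (hF0 z hz)]
        apply hsmall z hz
        by_contra hge
        exact hzS ⟨hz, not_lt.1 hge⟩
      have := h1.union h2
      rwa [union_compl_self, integrableOn_univ] at this
    · intro n
      have := sweep_prob ho hb x (n + 1)
      have hle := restrict_le_of hSm (c := ENNReal.ofReal (θ n)) fun A hA hAS =>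
        hdens n A hA hAS
      have h1 : IntegrableOn F S (sweep Λ x (n + 1)) := by
        refine Integrable.mono_measure ?_ hle
        exact (hFi η hη).smul_measure ENNReal.ofReal_ne_top
      have h3 : ∀ᵐ z ∂(sweep Λ x (n + 1)).restrict Sᶜ, z ∈ Λ :=
          ae_restrict_of_ae (sweep_ae ho hx _)
      have h4 : ∀ᵐ z ∂(sweep Λ x (n + 1)).restrict Sᶜ, |F z| ≤ e := by
        filter_upwards [h3, ae_restrict_mem hSm.compl] with z hz hzS
        rw [abs_of_nonneg (hF0 z hz)]
        apply hsmall z hz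
        by_contra hge
        exact hzS ⟨hz, not_lt.1 hge⟩
      have h2 : IntegrableOn F Sᶜ (sweep Λ x (n + 1)) :=
        Integrable.of_bound hFm.aestronglyMeasurable e h4
      have hi : Integrable F (sweep Λ x (n + 1)) := by
        have := h1.union h2
        rwa [union_compl_self, integrableOn_univ] at this
      rw [← integral_add_compl hSm hi, add_comm]
      apply add_le_add
      · calc ∫ z in Sᶜ, F z ∂(sweep Λ x (n + 1)) ≤ ∫ z in Sᶜ, e ∂(sweep Λ x (n + 1)) := by
              apply integral_mono_ae h2 (integrable_const _)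
              filter_upwards [h4] with z hz
              exact (le_abs_self _).trans hz
          _ = (sweep Λ x (n + 1)).real Sᶜ * e := by rw [setIntegral_const, smul_eq_mul]
          _ ≤ 1 * e := by
              apply mul_le_mul_of_nonneg_right _ he.le
              exact measureReal_le_one
          _ = e := one_mul e
      · calc ∫ z in S, F z ∂(sweep Λ x (n + 1))
            ≤ ∫ z, F z ∂(ENNReal.ofReal (θ n) • volume.restrict S) := by
              apply integral_mono_measure hle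
              · apply Measure.ae_smul_measure
                filter_upwards [ae_restrict_mem hSm] with z hz
                exact hF0 z hz.1
              · exact (hFi η hη).smul_measure ENNReal.ofReal_ne_top
          _ = θ n * ∫ z in S, F z := by
              rw [integral_smul_measure, ENNReal.toReal_ofReal (hθ0 n), smul_eq_mul]
  obtain ⟨_, _, _, hint, _⟩ := key 1 one_pos
  refine ⟨hint, ?_⟩
  have hnn : ∀ n, 0 ≤ ∫ z, F z ∂(sweep Λ x (n + 1)) := by
    intro n
    apply integral_nonneg_of_ae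
    filter_upwards [sweep_ae ho hx (n + 1)] with z hz
    exact hF0 z hz
  rw [Metric.tendsto_atTop]
  intro e he
  obtain ⟨θ, I, hθ, _, hle⟩ := key (e / 2) (by linarith)
  have h1 : Tendsto (fun n => θ n * I) atTop (𝓝 0) := by simpa using hθ.mul_const I
  obtain ⟨N, hN⟩ := (Metric.tendsto_atTop.1 h1) (e / 2) (by linarith)
  refine ⟨N, fun n hn => ?_⟩
  have h2 := hN n hn
  rw [Real.dist_eq, sub_zero] at h2 ⊢
  rw [abs_of_nonneg (hnn n)]
  have := hle n
  have := (abs_lt.1 h2).2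
  linarith

theorem taskPb : TaskPb := by
  intro Λ ho _ hb
  refine ⟨step_measurable ho, fun x hx n => ⟨sweep_prob ho hb x n, sweep_compl ho hx n⟩,
    sweep_measurable ho, ?_, ?_, ?_⟩
  · rintro u hu ⟨C, hC⟩ x hx n
    exact sweep_harmonic ho hb hu hC hx n
  · intro x hx η hη
    exact sweep_density ho hb hx hη
  · intro F hF0 hFm hF hFi x hx
    exact (sweep_out ho hb hF0 hFm hF hFi hx).2

end Pool.Agent.H836_PV
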