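import Pool.Agent.H836_PV.Pa

/-!
# Task Pc : symmetry of the Green's function

Proof (only the maximum principle and circle averages).
(1) `g(x, y)` is, as a function of `y`, locally Lipschitz uniformly in `x`.
(2) `y ↦ g(x, y)` has the circle mean value property: `x ↦ avg_y g(x, y) - g(x, y₀)` has the mean
value property and vanishes at the boundary, because `avg_y log |ξ - y| = log |ξ - y₀|`.
(3) for fixed `x`, `u(y) = g(x, y) - g(y, x) = G(x, y) - G(y, x) ≥ - G(y, x) → 0` at the boundary, so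
that `u ≥ 0`. Exchange `x` and `y`.
-/

open MeasureTheory Filter Topology Set Metric InnerProductSpace

namespace Pool.Agent.H836_PV

/-- strict inequality for circle averages -/
lemma circleAverage_lt_of_lt {u : ℂ → ℝ} {q : ℂ} {r M : ℝ} (hr : 0 < r)
    (hc : ContinuousOn u (sphere q r)) (hle : ∀ z ∈ sphere q r, u z ≤ M)
    (hlt : u (q + r) < M) : Real.circleAverage u q r < M := by
  have hpi : (0 : ℝ) < 2 * Real.pi := by positivity
  have hcomp : ContinuousOn (fun θ : ℝ => u (circleMap q r θ)) (Icc 0 (2 * Real.pi)) := by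
    refine hc.comp (continuous_circleMap q r).continuousOn ?_
    intro θ _
    exact circleMap_mem_sphere q hr.le θ
  have h := intervalIntegral.integral_lt_integral_of_continuousOn_of_le_of_exists_lt hpi hcomp
    (continuousOn_const (c := M)) (fun θ _ => hle _ (circleMap_mem_sphere q hr.le θ))
    ⟨0, ⟨le_rfl, hpi.le⟩, by simpa [circleMap] using hlt⟩
  rw [intervalIntegral.integral_const, sub_zero, smul_eq_mul] at h
  rw [Real.circleAverage_def, smul_eq_mul]
  calc (2 * Real.pi)⁻¹ * ∫ θ in (0)..2 * Real.pi, u (circleMap q r θ)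
      < (2 * Real.pi)⁻¹ * (2 * Real.pi * M) := by gcongr
    _ = M := by field_simp

/-- weak maximum principle for continuous functions below their circle averages -/
lemma mvp_max_principle {U : Set ℂ} (hU : IsOpen U) (hb : Bornology.IsBounded U) {u : ℂ → ℝ}
    (hcont : ContinuousOn u U)
    (hmv : ∀ x ∈ U, ∀ r : ℝ, 0 < r → closedBall x r ⊆ U → u x ≤ Real.circleAverage u x r) {m : ℝ}
    (hbd : ∀ ξ ∈ frontier U, ∀ e : ℝ, 0 < e → ∀ᶠ x in 𝓝[U] ξ, u x ≤ m + e) :
    ∀ x ∈ U, u x ≤ m := by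
  intro x₀ hx₀
  by_contra hlt
  push Not at hlt
  -- superlevel sets above m are compact
  have hcomp : ∀ t : ℝ, m < t → IsCompact {x | x ∈ U ∧ t ≤ u x} := by
    intro t ht
    refine Metric.isCompact_of_isClosed_isBounded ?_ (hb.subset fun x hx => hx.1)
    rw [isClosed_iff_clusterPt]
    intro a ha
    have hacl : a ∈ closure {x | x ∈ U ∧ t ≤ u x} := mem_closure_iff_clusterPt.2 ha
    have hfr : Filter.NeBot (𝓝[{x | x ∈ U ∧ t ≤ u x}] a) := mem_closure_iff_nhdsWithin_neBot.1 hacl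
    by_cases haU : a ∈ U
    · refine ⟨haU, ?_⟩
      have hca : ContinuousWithinAt u {x | x ∈ U ∧ t ≤ u x} a :=
        ((hcont a haU).mono fun x hx => hx.1)
      refine ge_of_tendsto hca ?_
      filter_upwards [self_mem_nhdsWithin] with x hx using hx.2
    · exfalso
      have haF : a ∈ frontier U := by
        rw [hU.frontier_eq]
        exact ⟨closure_mono (fun x hx => hx.1) hacl, haU⟩
      have h1 := hbd a haF ((t - m) / 2) (by linarith)
      have h2 : ∀ᶠ x in 𝓝[{x | x ∈ U ∧ t ≤ u x}] a, u x ≤ m + (t - m) / 2 :=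
        nhdsWithin_mono a (fun x hx => hx.1) h1
      have h3 : ∀ᶠ x in 𝓝[{x | x ∈ U ∧ t ≤ u x}] a, t ≤ u x := by
        filter_upwards [self_mem_nhdsWithin] with x hx using hx.2
      obtain ⟨x, hx1, hx2⟩ := (h2.and h3).exists
      linarith
  have hK := hcomp (u x₀) hlt
  obtain ⟨p, hpK, hpmax⟩ := hK.exists_isMaxOn ⟨x₀, hx₀, le_rfl⟩
    (hcont.mono fun x hx => hx.1)
  have hglob : ∀ x ∈ U, u x ≤ u p := by
    intro x hx
    by_cases h : u x₀ ≤ u x
    · exact hpmax ⟨hx, h⟩
    · push Not at h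
      exact h.le.trans hpK.2
  have hK' := hcomp (u p) (lt_of_lt_of_le hlt hpK.2)
  obtain ⟨q, hqK, hqmax⟩ := hK'.exists_isMaxOn (f := fun z : ℂ => z.re) ⟨p, hpK.1, le_rfl⟩
    Complex.continuous_re.continuousOn
  have hq : u q = u p := le_antisymm (hglob q hqK.1) hqK.2
  obtain ⟨ε, hε, hball⟩ := Metric.isOpen_iff.1 hU q hqK.1
  have hcb : closedBall q (ε / 2) ⊆ U := (closedBall_subset_ball (by linarith)).trans hball
  have hz : q + ((ε / 2 : ℝ) : ℂ) ∈ closedBall q (ε / 2) := by
    rw [mem_closedBall, dist_eq_norm]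
    simp only [add_sub_cancel_left, Complex.norm_real, Real.norm_eq_abs]
    rw [abs_of_pos (by linarith)]
  have hlt' : u (q + ((ε / 2 : ℝ) : ℂ)) < u p := by
    by_contra hcon
    push Not at hcon
    have := hqmax (show q + ((ε / 2 : ℝ) : ℂ) ∈ {x | x ∈ U ∧ u p ≤ u x} from ⟨hcb hz, hcon⟩)
    simp only [mem_ofPred_eq, Complex.add_re, Complex.ofReal_re] at this
    linarith
  have h1 := circleAverage_lt_of_lt (u := u) (q := q) (r := ε / 2) (M := u p) (by linarith)
    (hcont.mono (sphere_subset_closedBall.trans hcb))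
    (fun z hz => hglob z (hcb (sphere_subset_closedBall hz))) hlt'
  have h2 := hmv q hqK.1 (ε / 2) (by linarith) hcb
  linarith

/-- the regular part is Lipschitz in the second variable, uniformly in the first -/
lemma regPart_lip {Λ : Set ℂ} {G g : ℂ → ℂ → ℝ} (hO : IsOpen Λ) (hb : Bornology.IsBounded Λ)
    (hG : IsGreen Λ G) (hg : RegPart Λ G g) {y y' : ℂ} {δ : ℝ} (hδ : 0 < δ) (hy : y ∈ Λ)
    (hy' : y' ∈ Λ) (hby' : ball y' δ ⊆ Λ) :
    ∀ x ∈ Λ, g x y - g x y' ≤ ‖y - y'‖ / δ := by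
  have hh : HarmonicOnNhd (fun x => g x y - g x y') Λ := (hg.harm y hy).sub (hg.harm y' hy')
  refine harm_max_principle hO hb hh ?_
  intro ξ hξ e he
  have h1 := (regPart_boundary hO hG hg hy hξ).sub (regPart_boundary hO hG hg hy' hξ)
  have hξΛ : ξ ∉ Λ := by
    rw [hO.frontier_eq] at hξ
    exact hξ.2
  have hne : 0 < ‖ξ - y‖ := norm_pos_iff.2 (sub_ne_zero.2 fun h => hξΛ (h ▸ hy))
  have hd : δ ≤ ‖ξ - y'‖ := by
    by_contra h
    push Not at h
    exact hξΛ (hby' (by rwa [mem_ball, dist_eq_norm]))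
  have hd0 : 0 < ‖ξ - y'‖ := lt_of_lt_of_le hδ hd
  have h3 : Real.log ‖ξ - y‖ - Real.log ‖ξ - y'‖ ≤ ‖y - y'‖ / δ := by
    rw [← Real.log_div hne.ne' hd0.ne']
    have h4 := Real.log_le_sub_one_of_pos (show 0 < ‖ξ - y‖ / ‖ξ - y'‖ by positivity)
    have h5 : ‖ξ - y‖ ≤ ‖ξ - y'‖ + ‖y - y'‖ := by
      have := norm_sub_le (ξ - y') (y - y')
      have h6 : ξ - y' - (y - y') = ξ - y := by ring
      rwa [h6] at this
    have h7 : ‖ξ - y‖ / ‖ξ - y'‖ - 1 ≤ ‖y - y'‖ / ‖ξ - y'‖ := by
      rw [div_sub_one hd0.ne', div_le_div_iff_of_pos_right hd0]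
      linarith
    have h8 : ‖y - y'‖ / ‖ξ - y'‖ ≤ ‖y - y'‖ / δ := by gcongr
    linarith
  have h4 : ∀ᶠ x in 𝓝[Λ] ξ, g x y - g x y' < ‖y - y'‖ / δ + e :=
    h1.eventually_lt_const (by linarith)
  filter_upwards [h4] with z hz using hz.le

lemma regPart_abs_lip {Λ : Set ℂ} {G g : ℂ → ℂ → ℝ} (hO : IsOpen Λ) (hb : Bornology.IsBounded Λ)
    (hG : IsGreen Λ G) (hg : RegPart Λ G g) {y y' : ℂ} {δ : ℝ} (hδ : 0 < δ) (hy : y ∈ Λ)
    (hy' : y' ∈ Λ) (hby : ball y δ ⊆ Λ) (hby' : ball y' δ ⊆ Λ) :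
    ∀ x ∈ Λ, |g x y - g x y'| ≤ ‖y - y'‖ / δ := by
  intro x hx
  rw [abs_le]
  have h1 := regPart_lip hO hb hG hg hδ hy hy' hby' x hx
  have h2 := regPart_lip hO hb hG hg hδ hy' hy hby x hx
  rw [norm_sub_rev] at h2
  constructor <;> linarith

/-- joint continuity of the regular part -/
lemma regPart_continuousOn {Λ : Set ℂ} {G g : ℂ → ℂ → ℝ} (hO : IsOpen Λ)
    (hb : Bornology.IsBounded Λ) (hG : IsGreen Λ G) (hg : RegPart Λ G g) :
    ContinuousOn (fun p : ℂ × ℂ => g p.1 p.2) (Λ ×ˢ Λ) := by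
  rintro ⟨x₀, y₀⟩ ⟨hx₀, hy₀⟩
  simp only at hx₀ hy₀
  refine ContinuousAt.continuousWithinAt ?_
  obtain ⟨ε, hε, hball⟩ := Metric.isOpen_iff.1 hO y₀ hy₀
  set δ := ε / 2 with hδ
  have hδ0 : 0 < δ := by positivity
  have hb' : ∀ y ∈ ball y₀ δ, ball y δ ⊆ Λ := by
    intro y hy
    refine Subset.trans (fun w hw => ?_) hball
    rw [mem_ball] at *
    have := dist_triangle w y y₀
    linarith
  have h1 : Tendsto (fun p : ℂ × ℂ => g p.1 y₀) (𝓝 (x₀, y₀)) (𝓝 (g x₀ y₀)) := by
    have : ContinuousAt (fun x => g x y₀) x₀ := (hg.harm y₀ hy₀ x₀ hx₀).1.continuousAt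
    exact this.tendsto.comp continuous_fst.continuousAt.tendsto
  have h2 : Tendsto (fun p : ℂ × ℂ => g p.1 p.2 - g p.1 y₀) (𝓝 (x₀, y₀)) (𝓝 0) := by
    refine squeeze_zero_norm' (a := fun p : ℂ × ℂ => ‖p.2 - y₀‖ / δ) ?_ ?_
    · have hev : ∀ᶠ p : ℂ × ℂ in 𝓝 (x₀, y₀), p.1 ∈ Λ ∧ p.2 ∈ ball y₀ δ :=
        (hO.eventually_mem hx₀).prod_nhds (isOpen_ball.eventually_mem (mem_ball_self hδ0))
      filter_upwards [hev] with p hp
      rw [Real.norm_eq_abs]
      exact regPart_abs_lip hO hb hG hg hδ0 (hb' p.2 hp.2 (mem_ball_self hδ0)) hy₀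
        (hb' p.2 hp.2) (hb' y₀ (mem_ball_self hδ0)) p.1 hp.1
    · have : ContinuousAt (fun p : ℂ × ℂ => ‖p.2 - y₀‖ / δ) (x₀, y₀) := by fun_prop
      have h3 := this.tendsto
      simpa using h3
  have h3 := h2.add h1
  simp only [sub_add_cancel, zero_add] at h3
  exact h3

/-- the circle mean value property in the second variable -/
lemma regPart_circleAverage_snd {Λ : Set ℂ} {G g : ℂ → ℂ → ℝ} (hO : IsOpen Λ)
    (hb : Bornology.IsBounded Λ) (hG : IsGreen Λ G) (hg : RegPart Λ G g) {y₀ : ℂ} {ρ : ℝ}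
    (hρ : 0 < ρ) (hball : closedBall y₀ ρ ⊆ Λ) :
    ∀ x ∈ Λ, Real.circleAverage (fun y => g x y) y₀ ρ = g x y₀ := by
  have hy₀ : y₀ ∈ Λ := hball (mem_closedBall_self hρ.le)
  have hcirc : ∀ φ : ℝ, circleMap y₀ ρ φ ∈ Λ := fun φ =>
    hball (sphere_subset_closedBall (circleMap_mem_sphere y₀ hρ.le φ))
  have hjc := regPart_continuousOn hO hb hG hg
  -- uniform bound
  obtain ⟨C, hC⟩ : ∃ C : ℝ, ∀ x ∈ Λ, ∀ φ : ℝ, |g x (circleMap y₀ ρ φ)| ≤ C := by
    obtain ⟨D₀, hD₀⟩ := hb.subset_closedBall 0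
    obtain ⟨δ, hδ, hthick⟩ := (isCompact_closedBall y₀ ρ).exists_thickening_subset_open hO hball
    refine ⟨|Real.log (2 * D₀)| + |Real.log δ|, fun x hx φ => ?_⟩
    have h1 : g x (circleMap y₀ ρ φ) ≤ Real.log (2 * D₀) := by
      refine regPart_le_log hO hb hG hg ?_ x hx _ (hcirc φ)
      intro z hz w hw
      have h2 : ‖z‖ ≤ D₀ := by simpa using hD₀ hz
      have h3 : ‖w‖ ≤ D₀ := by simpa using hD₀ hw
      have := norm_sub_le z w
      linarith
    have h2 : Real.log δ ≤ g x (circleMap y₀ ρ φ) := by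
      refine regPart_log_le hO hb hG hg x hx _ (hcirc φ) δ hδ ?_
      refine Subset.trans ?_ hthick
      intro w hw
      rw [mem_thickening_iff]
      exact ⟨_, sphere_subset_closedBall (circleMap_mem_sphere y₀ hρ.le φ), hw⟩
    rw [abs_le]
    have h3 := neg_abs_le (Real.log δ)
    have h4 := le_abs_self (Real.log (2 * D₀))
    have h5 := abs_nonneg (Real.log (2 * D₀))
    have h6 := abs_nonneg (Real.log δ)
    constructor <;> linarith
  set A : ℂ → ℝ := fun x => Real.circleAverage (fun y => g x y) y₀ ρ with hA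
  have hφcont : ∀ x ∈ Λ, Continuous (fun φ : ℝ => g x (circleMap y₀ ρ φ)) := by
    intro x hx
    have h1 : ContinuousOn ((fun p : ℂ × ℂ => g p.1 p.2) ∘ fun φ : ℝ => (x, circleMap y₀ ρ φ))
        univ := by
      refine hjc.comp ?_ ?_
      · exact (continuous_const.prodMk (continuous_circleMap y₀ ρ)).continuousOn
      · intro φ _
        exact ⟨hx, hcirc φ⟩
    exact continuousOn_univ.1 h1
  have hAcont : ContinuousOn A Λ := by
    intro x₀ hx₀
    simp only [hA, Real.circleAverage_def]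
    refine ContinuousWithinAt.fun_const_smul (c := (2 * Real.pi)⁻¹) ?_
    refine intervalIntegral.continuousWithinAt_of_dominated_interval (bound := fun _ => C) ?_ ?_ ?_ ?_
    · filter_upwards [self_mem_nhdsWithin] with x hx
      exact (hφcont x hx).aestronglyMeasurable
    · filter_upwards [self_mem_nhdsWithin] with x hx
      exact Eventually.of_forall fun φ _ => hC x hx φ
    · exact intervalIntegrable_const
    · refine Eventually.of_forall fun φ _ => ?_
      exact (hg.harm _ (hcirc φ)).continuousOn x₀ hx₀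
  -- mean value property of A
  have hAmv : ∀ x ∈ Λ, ∀ r : ℝ, 0 < r → closedBall x r ⊆ Λ → Real.circleAverage A x r = A x := by
    intro x hx r hr hxr
    have hcircx : ∀ θ : ℝ, circleMap x r θ ∈ Λ := fun θ =>
      hxr (sphere_subset_closedBall (circleMap_mem_sphere x hr.le θ))
    have hF : Continuous (fun p : ℝ × ℝ => g (circleMap x r p.1) (circleMap y₀ ρ p.2)) := by
      have h1 : ContinuousOn ((fun p : ℂ × ℂ => g p.1 p.2) ∘
          fun p : ℝ × ℝ => (circleMap x r p.1, circleMap y₀ ρ p.2)) univ := by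
        refine hjc.comp ?_ ?_
        · exact (((continuous_circleMap x r).comp continuous_fst).prodMk
            ((continuous_circleMap y₀ ρ).comp continuous_snd)).continuousOn
        · intro p _
          exact ⟨hcircx p.1, hcirc p.2⟩
      exact continuousOn_univ.1 h1
    have hswap : ∫ θ in (0)..2 * Real.pi, ∫ φ in (0)..2 * Real.pi,
        g (circleMap x r θ) (circleMap y₀ ρ φ) =
        ∫ φ in (0)..2 * Real.pi, ∫ θ in (0)..2 * Real.pi,
          g (circleMap x r θ) (circleMap y₀ ρ φ) := by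
      refine intervalIntegral_intervalIntegral_swap ?_
      have hK : IsCompact (Icc 0 (2 * Real.pi) ×ˢ Icc 0 (2 * Real.pi) : Set (ℝ × ℝ)) :=
        isCompact_Icc.prod isCompact_Icc
      refine (hF.continuousOn.integrableOn_compact hK).mono_set ?_
      rw [uIoc_of_le (by positivity)]
      exact prod_mono Ioc_subset_Icc_self Ioc_subset_Icc_self
    have hinner : ∀ φ : ℝ, (2 * Real.pi)⁻¹ * ∫ θ in (0)..2 * Real.pi,
        g (circleMap x r θ) (circleMap y₀ ρ φ) = g x (circleMap y₀ ρ φ) := by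
      intro φ
      have h1 : HarmonicOnNhd (fun z => g z (circleMap y₀ ρ φ)) (closedBall x |r|) := by
        rw [abs_of_pos hr]
        exact (hg.harm _ (hcirc φ)).mono hxr
      have h2 := InnerProductSpace.HarmonicOnNhd.circleAverage_eq h1
      rwa [Real.circleAverage_def, smul_eq_mul] at h2
    simp only [hA, Real.circleAverage_def, smul_eq_mul]
    rw [intervalIntegral.integral_const_mul, hswap, ← intervalIntegral.integral_const_mul]
    congr 1
    exact intervalIntegral.integral_congr fun φ _ => hinner φ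
  -- boundary values of A
  have hAbd : ∀ ξ ∈ frontier Λ, Tendsto A (𝓝[Λ] ξ) (𝓝 (Real.log ‖ξ - y₀‖)) := by
    intro ξ hξ
    have hξΛ : ξ ∉ Λ := by
      rw [hO.frontier_eq] at hξ
      exact hξ.2
    have hlog : Real.circleAverage (fun y => Real.log ‖ξ - y‖) y₀ ρ = Real.log ‖ξ - y₀‖ := by
      have h1 : HarmonicOnNhd (fun y => Real.log ‖ξ - y‖) (closedBall y₀ |ρ|) := by
        intro y hy
        rw [abs_of_pos hρ] at hy
        have hne : y ≠ ξ := fun h => hξΛ (h ▸ hball hy)
        have h2 := log_norm_harmonicAt hne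
        refine (harmonicAt_congr_nhds (Eventually.of_forall fun z => ?_)).1 h2
        rw [norm_sub_rev]
      exact InnerProductSpace.HarmonicOnNhd.circleAverage_eq h1
    rw [← hlog]
    simp only [hA, Real.circleAverage_def]
    refine Tendsto.const_smul ?_ _
    refine intervalIntegral.tendsto_integral_filter_of_dominated_convergence (fun _ => C)
      ?_ ?_ ?_ ?_
    · filter_upwards [self_mem_nhdsWithin] with x hx
      exact (hφcont x hx).aestronglyMeasurable
    · filter_upwards [self_mem_nhdsWithin] with x hx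
      exact Eventually.of_forall fun φ _ => hC x hx φ
    · exact intervalIntegrable_const
    · exact Eventually.of_forall fun φ _ => regPart_boundary hO hG hg (hcirc φ) hξ
  -- comparison
  have hgcont : ContinuousOn (fun x => g x y₀) Λ := (hg.harm y₀ hy₀).continuousOn
  have hgmv : ∀ x ∈ Λ, ∀ r : ℝ, 0 < r → closedBall x r ⊆ Λ →
      Real.circleAverage (fun z => g z y₀) x r = g x y₀ := by
    intro x hx r hr hxr
    have h1 : HarmonicOnNhd (fun z => g z y₀) (closedBall x |r|) := by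
      rw [abs_of_pos hr]
      exact (hg.harm _ hy₀).mono hxr
    exact InnerProductSpace.HarmonicOnNhd.circleAverage_eq h1
  have hci : ∀ (f : ℂ → ℝ), ContinuousOn f Λ → ∀ x ∈ Λ, ∀ r : ℝ, 0 < r → closedBall x r ⊆ Λ →
      CircleIntegrable f x r := fun f hf x hx r hr hxr =>
    ContinuousOn.circleIntegrable hr.le (hf.mono (sphere_subset_closedBall.trans hxr))
  have hle1 : ∀ x ∈ Λ, A x - g x y₀ ≤ 0 := by
    refine mvp_max_principle (u := fun x => A x - g x y₀) hO hb (hAcont.sub hgcont) ?_ ?_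
    · intro x hx r hr hxr
      have := Real.circleAverage_fun_sub (hci A hAcont x hx r hr hxr)
        (hci _ hgcont x hx r hr hxr)
      rw [this, hAmv x hx r hr hxr, hgmv x hx r hr hxr]
    · intro ξ hξ e he
      have h1 := (hAbd ξ hξ).sub (regPart_boundary hO hG hg hy₀ hξ)
      rw [sub_self] at h1
      have h4 : ∀ᶠ x in 𝓝[Λ] ξ, A x - g x y₀ < 0 + e := h1.eventually_lt_const (by linarith)
      filter_upwards [h4] with z hz using hz.le
  have hle2 : ∀ x ∈ Λ, g x y₀ - A x ≤ 0 := by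
    refine mvp_max_principle (u := fun x => g x y₀ - A x) hO hb (hgcont.sub hAcont) ?_ ?_
    · intro x hx r hr hxr
      have := Real.circleAverage_fun_sub (hci _ hgcont x hx r hr hxr)
        (hci A hAcont x hx r hr hxr)
      rw [this, hAmv x hx r hr hxr, hgmv x hx r hr hxr]
    · intro ξ hξ e he
      have h1 := (regPart_boundary hO hG hg hy₀ hξ).sub (hAbd ξ hξ)
      rw [sub_self] at h1
      have h4 : ∀ᶠ x in 𝓝[Λ] ξ, g x y₀ - A x < 0 + e := h1.eventually_lt_const (by linarith)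
      filter_upwards [h4] with z hz using hz.le
  intro x hx
  have h1 := hle1 x hx
  have h2 := hle2 x hx
  linarith

lemma regPart_symm_le {Λ : Set ℂ} {G g : ℂ → ℂ → ℝ} (hO : IsOpen Λ)
    (hb : Bornology.IsBounded Λ) (hG : IsGreen Λ G) (hg : RegPart Λ G g) :
    ∀ x ∈ Λ, ∀ y ∈ Λ, g y x ≤ g x y := by
  intro x hx
  have hjc := regPart_continuousOn hO hb hG hg
  have hc1 : ContinuousOn (fun y => g y x) Λ := (hg.harm x hx).continuousOn
  have hc2 : ContinuousOn (fun y => g x y) Λ := by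
    have h1 : ContinuousOn ((fun p : ℂ × ℂ => g p.1 p.2) ∘ fun y : ℂ => (x, y)) Λ := by
      refine hjc.comp (by fun_prop) ?_
      intro y hy
      exact ⟨hx, hy⟩
    exact h1
  have hci : ∀ (f : ℂ → ℝ), ContinuousOn f Λ → ∀ x ∈ Λ, ∀ r : ℝ, 0 < r → closedBall x r ⊆ Λ →
      CircleIntegrable f x r := fun f hf x hx r hr hxr =>
    ContinuousOn.circleIntegrable hr.le (hf.mono (sphere_subset_closedBall.trans hxr))
  have hmain : ∀ y ∈ Λ, g y x - g x y ≤ 0 := by
    refine mvp_max_principle (u := fun y => g y x - g x y) hO hb (hc1.sub hc2) ?_ ?_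
    · intro y hy r hr hyr
      have h1 : HarmonicOnNhd (fun z => g z x) (closedBall y |r|) := by
        rw [abs_of_pos hr]
        exact (hg.harm _ hx).mono hyr
      have h2 := InnerProductSpace.HarmonicOnNhd.circleAverage_eq h1
      have h3 := regPart_circleAverage_snd hO hb hG hg hr hyr x hx
      have h4 := Real.circleAverage_fun_sub (hci _ hc1 y hy r hr hyr) (hci _ hc2 y hy r hr hyr)
      rw [h4, h2, h3]
    · intro ξ hξ e he
      have hξΛ : ξ ∉ Λ := by
        rw [hO.frontier_eq] at hξ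
        exact hξ.2
      have hne : ξ ≠ x := fun h => hξΛ (h ▸ hx)
      have h1 := hG.boundary x hx ξ hξ
      have h2 : ∀ᶠ y in 𝓝[Λ] ξ, G y x < 0 + e := h1.eventually_lt_const (by linarith)
      have h3 : ∀ᶠ y in 𝓝[Λ] ξ, y ≠ x := nhdsWithin_le_nhds (isOpen_ne.eventually_mem hne)
      filter_upwards [h2, h3, self_mem_nhdsWithin] with y hy hyx hyΛ
      have h4 := green_nonneg hO hb hG hg x hx y hyΛ hyx.symm
      rw [hg.eq x hx y hyΛ hyx.symm] at h4
      rw [hg.eq y hyΛ x hx hyx, norm_sub_rev] at hy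
      linarith
  intro y hy
  have := hmain y hy
  linarith

theorem taskPc : TaskPc := by
  intro Λ G g hO _hne hb hG hg x hx y hy
  exact le_antisymm (regPart_symm_le hO hb hG hg y hy x hx) (regPart_symm_le hO hb hG hg x hx y hy)

end Pool.Agent.H836_PV
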