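import Pool.Agent.H836_PV.StmtsP

/-!
# Task Pd, part B: the Green function of the disc is a positive semidefinite kernel on measures
-/

open MeasureTheory Filter Topology Set Metric
open scoped ENNReal ComplexConjugate

namespace Pool.Agent.H836_PV.PdAux

/-- kernels with finitely many continuous features -/
def FF (T : ℂ → ℂ → ℂ) : Prop :=
  ∃ (κ : Type) (_ : Fintype κ) (φ : κ → ℂ → ℂ), (∀ k, Continuous (φ k)) ∧
    ∀ x y, T x y = ∑ k, φ k x * conj (φ k y)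

theorem FF.one (f : ℂ → ℂ) (hf : Continuous f) : FF (fun x y => f x * conj (f y)) :=
  ⟨Unit, inferInstance, fun _ => f, fun _ => hf, fun x y => by simp⟩

theorem FF.add {S T : ℂ → ℂ → ℂ} (hS : FF S) (hT : FF T) : FF (fun x y => S x y + T x y) := by
  obtain ⟨κ, hκ, φ, h1, h2⟩ := hS
  obtain ⟨κ', hκ', φ', h1', h2'⟩ := hT
  refine ⟨κ ⊕ κ', inferInstance, Sum.elim φ φ', ?_, ?_⟩
  · rintro (k | k)
    · exact h1 k
    · exact h1' k
  · intro x y
    beta_reduce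
    rw [Fintype.sum_sum_type, h2, h2']
    simp

theorem FF.mul {S T : ℂ → ℂ → ℂ} (hS : FF S) (hT : FF T) : FF (fun x y => S x y * T x y) := by
  obtain ⟨κ, hκ, φ, h1, h2⟩ := hS
  obtain ⟨κ', hκ', φ', h1', h2'⟩ := hT
  refine ⟨κ × κ', inferInstance, fun k x => φ k.1 x * φ' k.2 x, fun k => (h1 _).mul (h1' _), ?_⟩
  intro x y
  beta_reduce
  rw [Fintype.sum_prod_type, h2, h2', Finset.sum_mul_sum]
  refine Finset.sum_congr rfl fun k _ => Finset.sum_congr rfl fun k' _ => ?_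
  simp only [map_mul]
  ring

theorem FF.conj {S : ℂ → ℂ → ℂ} (hS : FF S) : FF (fun x y => conj (S x y)) := by
  obtain ⟨κ, hκ, φ, h1, h2⟩ := hS
  refine ⟨κ, hκ, fun k x => conj (φ k x), fun k => (Complex.continuous_conj.comp (h1 k)), ?_⟩
  intro x y
  beta_reduce
  rw [h2, map_sum]
  refine Finset.sum_congr rfl fun k _ => ?_
  simp only [map_mul]

theorem FF.pow {S : ℂ → ℂ → ℂ} (hS : FF S) (m : ℕ) : FF (fun x y => S x y ^ m) := by
  induction m with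
  | zero =>
    have := FF.one (fun _ => 1) continuous_const
    simpa using this
  | succ m ih =>
    have := ih.mul hS
    simpa only [pow_succ] using this

theorem FF.geom (f : ℂ → ℂ) (hf : Continuous f) (P : ℕ) :
    FF (fun x y => ∑ p ∈ Finset.range P, (f x * (starRingEnd ℂ) (f y)) ^ p) := by
  induction P with
  | zero =>
    simp only [Finset.range_zero, Finset.sum_empty]
    have := FF.one (fun _ => 0) continuous_const
    simpa using this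
  | succ P ih =>
    simp only [Finset.sum_range_succ]
    exact ih.add ((FF.one f hf).pow P)

variable {n : ℕ} (μ : Fin n → Measure ℂ) [∀ i, IsProbabilityMeasure (μ i)]

/-- a continuous function is integrable for a measure carried by a ball -/
theorem integrable_of_carried {α : Type*} [NormedAddCommGroup α] (ν : Measure ℂ) [IsFiniteMeasure ν]
    (R₁ : ℝ) (hν : ν (closedBall 0 R₁)ᶜ = 0) (f : ℂ → α) (hf : ContinuousOn f (closedBall 0 R₁)) :
    Integrable f ν := by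
  have h1 : IntegrableOn f (closedBall 0 R₁) ν :=
    hf.integrableOn_compact (isCompact_closedBall 0 R₁)
  have h2 : ν.restrict (closedBall 0 R₁) = ν := by
    rw [Measure.restrict_eq_self_of_ae_mem]
    exact measure_eq_zero_iff_ae_notMem.1 hν |>.mono fun x hx => by simpa using hx
  rw [IntegrableOn, h2] at h1
  exact h1

theorem FF.nonneg {T : ℂ → ℂ → ℂ} (hT : FF T) (R₁ : ℝ) (hμ : ∀ i, μ i (closedBall 0 R₁)ᶜ = 0)
    (b : Fin n → ℝ) :
    0 ≤ (∑ i, ∑ j, (b i : ℂ) * b j * ∫ p, T p.1 p.2 ∂((μ i).prod (μ j))).re := by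
  obtain ⟨κ, hκ, φ, h1, h2⟩ := hT
  have hi : ∀ i k, Integrable (φ k) (μ i) := fun i k =>
    integrable_of_carried (μ i) R₁ (hμ i) _ (h1 k).continuousOn
  have hi' : ∀ i k, Integrable (fun x => conj (φ k x)) (μ i) := fun i k =>
    integrable_of_carried (μ i) R₁ (hμ i) _ (Complex.continuous_conj.comp (h1 k)).continuousOn
  have h3 : ∀ i j, ∫ p, T p.1 p.2 ∂((μ i).prod (μ j)) =
      ∑ k, (∫ x, φ k x ∂(μ i)) * conj (∫ x, φ k x ∂(μ j)) := by
    intro i j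
    simp only [h2]
    rw [integral_finsetSum]
    · refine Finset.sum_congr rfl fun k _ => ?_
      rw [← integral_conj]
      exact integral_prod_mul (φ k) (fun x => conj (φ k x))
    · intro k _
      exact (hi i k).mul_prod (hi' j k)
  simp only [h3]
  have h4 : ∑ i, ∑ j, (b i : ℂ) * b j * ∑ k, (∫ x, φ k x ∂(μ i)) * conj (∫ x, φ k x ∂(μ j)) =
      ∑ k, (∑ i, (b i : ℂ) * ∫ x, φ k x ∂(μ i)) * conj (∑ i, (b i : ℂ) * ∫ x, φ k x ∂(μ i)) := by
    simp only [map_sum, Finset.sum_mul_sum, map_mul, Complex.conj_ofReal]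
    simp only [Finset.mul_sum]
    rw [Finset.sum_comm_cycle]
    refine Finset.sum_congr rfl fun k _ => Finset.sum_congr rfl fun i _ =>
      Finset.sum_congr rfl fun j _ => ?_
    ring
  rw [h4, Complex.re_sum]
  refine Finset.sum_nonneg fun k _ => ?_
  rw [Complex.mul_conj]
  simp only [Complex.ofReal_re]
  exact Complex.normSq_nonneg _

/-- the kernel `t` -/
noncomputable def tt (R : ℝ) (x y : ℂ) : ℝ :=
  (1 - ‖x‖ ^ 2 / R ^ 2) * (1 - ‖y‖ ^ 2 / R ^ 2) / ‖1 - x / R * (starRingEnd ℂ) (y / R)‖ ^ 2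

/-- approximations of `t` -/
noncomputable def tP (R : ℝ) (P : ℕ) (x y : ℂ) : ℂ :=
  ((1 - (‖x‖ : ℂ) ^ 2 / R ^ 2) * (starRingEnd ℂ) (1 - (‖y‖ : ℂ) ^ 2 / R ^ 2)) *
    ((∑ p ∈ Finset.range P, (x / R * (starRingEnd ℂ) (y / R)) ^ p) *
    (starRingEnd ℂ) (∑ p ∈ Finset.range P, (x / R * (starRingEnd ℂ) (y / R)) ^ p))

theorem tP_FF (R : ℝ) (P m : ℕ) : FF (fun x y => tP R P x y ^ m) := by
  apply FF.pow
  unfold tP
  apply FF.mul
  · exact FF.one (fun x => 1 - (‖x‖ : ℂ) ^ 2 / R ^ 2) (by fun_prop)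
  · apply FF.mul
    · exact FF.geom (fun x => x / R) (by fun_prop) P
    · exact (FF.geom (fun x => x / R) (by fun_prop) P).conj

theorem zbound {R R₁ : ℝ} (h0 : 0 < R₁) (h1 : R₁ < R) {x y : ℂ} (hx : x ∈ closedBall (0:ℂ) R₁)
    (hy : y ∈ closedBall (0:ℂ) R₁) : ‖x / R * (starRingEnd ℂ) (y / R)‖ ≤ (R₁ / R) ^ 2 := by
  have hR : 0 < R := h0.trans h1
  rw [mem_closedBall_zero_iff] at hx hy
  rw [norm_mul, RCLike.norm_conj, norm_div, norm_div, Complex.norm_real, Real.norm_eq_abs,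
    abs_of_pos hR, pow_two]
  have h2 : ‖x‖ / R ≤ R₁ / R := by gcongr
  have h3 : ‖y‖ / R ≤ R₁ / R := by gcongr
  exact mul_le_mul h2 h3 (by positivity) (by positivity)

theorem qlt {R R₁ : ℝ} (h0 : 0 < R₁) (h1 : R₁ < R) : (R₁ / R) ^ 2 < 1 := by
  have hR : 0 < R := h0.trans h1
  rw [sq_lt_one_iff₀ (by positivity)]
  rwa [div_lt_one hR]

theorem tP_bound {R R₁ : ℝ} (h0 : 0 < R₁) (h1 : R₁ < R) {x y : ℂ} (hx : x ∈ closedBall (0:ℂ) R₁)
    (hy : y ∈ closedBall (0:ℂ) R₁) (P m : ℕ) :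
    ‖tP R P x y ^ m‖ ≤ ((1 - (R₁ / R) ^ 2)⁻¹ ^ 2) ^ m := by
  have hR : 0 < R := h0.trans h1
  have hq := qlt h0 h1
  have hw : ∀ x ∈ closedBall (0:ℂ) R₁, ‖(1 - (‖x‖ : ℂ) ^ 2 / R ^ 2)‖ ≤ 1 := by
    intro x hx
    rw [mem_closedBall_zero_iff] at hx
    have e : (1 - (‖x‖ : ℂ) ^ 2 / R ^ 2) = ((1 - ‖x‖ ^ 2 / R ^ 2 : ℝ) : ℂ) := by push_cast; ring
    rw [e, Complex.norm_real, Real.norm_eq_abs, abs_le]
    have h2 : 0 ≤ ‖x‖ ^ 2 / R ^ 2 := by positivity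
    have h3 : ‖x‖ ^ 2 / R ^ 2 ≤ 1 := by
      rw [div_le_one (by positivity)]
      exact pow_le_pow_left₀ (norm_nonneg _) (hx.trans h1.le) 2
    constructor <;> linarith
  have hz := zbound h0 h1 hx hy
  have hS : ‖∑ p ∈ Finset.range P, (x / R * (starRingEnd ℂ) (y / R)) ^ p‖ ≤
      (1 - (R₁ / R) ^ 2)⁻¹ := by
    refine (norm_sum_le _ _).trans ?_
    calc ∑ p ∈ Finset.range P, ‖(x / R * (starRingEnd ℂ) (y / R)) ^ p‖
        ≤ ∑ p ∈ Finset.range P, ((R₁ / R) ^ 2) ^ p := by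
          refine Finset.sum_le_sum fun p _ => ?_
          rw [norm_pow]
          gcongr
      _ ≤ ∑' p, ((R₁ / R) ^ 2) ^ p := by
          apply Summable.sum_le_tsum
          · intro p _; positivity
          · exact summable_geometric_of_lt_one (by positivity) hq
      _ = _ := tsum_geometric_of_lt_one (by positivity) hq
  rw [norm_pow]
  gcongr
  unfold tP
  rw [norm_mul, norm_mul, norm_mul, RCLike.norm_conj, RCLike.norm_conj,
    pow_two (1 - (R₁ / R) ^ 2)⁻¹]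
  have h4 := hw x hx
  have h5 := hw y hy
  have h6 : 0 ≤ (1 - (R₁ / R) ^ 2)⁻¹ := (norm_nonneg _).trans hS
  calc _ ≤ (1 * 1) * ((1 - (R₁ / R) ^ 2)⁻¹ * (1 - (R₁ / R) ^ 2)⁻¹) := by gcongr
    _ = _ := by ring

theorem tP_tendsto {R R₁ : ℝ} (h0 : 0 < R₁) (h1 : R₁ < R) {x y : ℂ} (hx : x ∈ closedBall (0:ℂ) R₁)
    (hy : y ∈ closedBall (0:ℂ) R₁) (m : ℕ) :
    Tendsto (fun P => tP R P x y ^ m) atTop (𝓝 ((tt R x y ^ m : ℝ) : ℂ)) := by
  have hq := qlt h0 h1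
  have hz := zbound h0 h1 hx hy
  have hz1 : ‖x / R * (starRingEnd ℂ) (y / R)‖ < 1 := hz.trans_lt hq
  have h2 : Tendsto (fun P => ∑ p ∈ Finset.range P, (x / R * (starRingEnd ℂ) (y / R)) ^ p) atTop
      (𝓝 (1 - x / R * (starRingEnd ℂ) (y / R))⁻¹) :=
    (hasSum_geometric_of_norm_lt_one hz1).tendsto_sum_nat
  have h3 : Tendsto (fun P => (starRingEnd ℂ)
      (∑ p ∈ Finset.range P, (x / R * (starRingEnd ℂ) (y / R)) ^ p)) atTop
      (𝓝 ((starRingEnd ℂ) (1 - x / R * (starRingEnd ℂ) (y / R))⁻¹)) :=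
    (Complex.continuous_conj.tendsto _).comp h2
  have h4 : Tendsto (fun P => tP R P x y) atTop (𝓝 (tt R x y : ℂ)) := by
    have := (h2.mul h3).const_mul
      ((1 - (‖x‖ : ℂ) ^ 2 / R ^ 2) * (starRingEnd ℂ) (1 - (‖y‖ : ℂ) ^ 2 / R ^ 2))
    unfold tP
    convert this using 2
    unfold tt
    rw [Complex.mul_conj, Complex.normSq_eq_norm_sq, norm_inv]
    push_cast
    have e : (starRingEnd ℂ) (1 - (‖y‖ : ℂ) ^ 2 / R ^ 2) = 1 - (‖y‖ : ℂ) ^ 2 / R ^ 2 := by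
      simp
    rw [e]
    ring
  have := h4.pow m
  simpa using this

omit [∀ i, IsProbabilityMeasure (μ i)] in
theorem ae_prod_ball (R₁ : ℝ) (hμ : ∀ i, μ i (closedBall 0 R₁)ᶜ = 0) (i j : Fin n) :
    ∀ᵐ p ∂((μ i).prod (μ j)), p.1 ∈ closedBall (0:ℂ) R₁ ∧ p.2 ∈ closedBall (0:ℂ) R₁ := by
  have h1 : ∀ᵐ x ∂(μ i), x ∈ closedBall (0:ℂ) R₁ := by
    rw [ae_iff]; exact hμ i
  have h2 : ∀ᵐ x ∂(μ j), x ∈ closedBall (0:ℂ) R₁ := by
    rw [ae_iff]; exact hμ j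
  have h3 := Measure.quasiMeasurePreserving_fst (μ := μ i) (ν := μ j) |>.ae h1
  have h4 := Measure.quasiMeasurePreserving_snd (μ := μ i) (ν := μ j) |>.ae h2
  filter_upwards [h3, h4] with p hp1 hp2
  exact ⟨hp1, hp2⟩

theorem measurable_tt (R : ℝ) : Measurable (fun p : ℂ × ℂ => tt R p.1 p.2) := by
  unfold tt
  have : Measurable (fun p : ℂ × ℂ => (starRingEnd ℂ) (p.2 / R)) :=
    Complex.continuous_conj.measurable.comp (by fun_prop)
  fun_prop

theorem measurable_tP (R : ℝ) (P : ℕ) : Measurable (fun p : ℂ × ℂ => tP R P p.1 p.2) := by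
  unfold tP
  have h1 : Measurable (fun p : ℂ × ℂ => (starRingEnd ℂ) (p.2 / R)) :=
    Complex.continuous_conj.measurable.comp (by fun_prop)
  have h2 : Measurable (fun p : ℂ × ℂ => (starRingEnd ℂ) (1 - (‖p.2‖ : ℂ) ^ 2 / R ^ 2)) :=
    Complex.continuous_conj.measurable.comp (by fun_prop)
  have h3 : Measurable (fun p : ℂ × ℂ =>
      ∑ k ∈ Finset.range P, (p.1 / R * (starRingEnd ℂ) (p.2 / R)) ^ k) := by
    refine Finset.measurable_fun_sum _ fun k _ => ?_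
    fun_prop
  have h4 : Measurable (fun p : ℂ × ℂ => (starRingEnd ℂ)
      (∑ k ∈ Finset.range P, (p.1 / R * (starRingEnd ℂ) (p.2 / R)) ^ k)) :=
    Complex.continuous_conj.measurable.comp h3
  fun_prop

theorem tt_nonneg {R R₁ : ℝ} (h0 : 0 < R₁) (h1 : R₁ < R) {x y : ℂ} (hx : x ∈ closedBall (0:ℂ) R₁)
    (hy : y ∈ closedBall (0:ℂ) R₁) : 0 ≤ tt R x y := by
  have hR : 0 < R := h0.trans h1
  rw [mem_closedBall_zero_iff] at hx hy
  have h2 : ‖x‖ ^ 2 / R ^ 2 ≤ 1 := by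
    rw [div_le_one (by positivity)]
    exact pow_le_pow_left₀ (norm_nonneg _) (hx.trans h1.le) 2
  have h3 : ‖y‖ ^ 2 / R ^ 2 ≤ 1 := by
    rw [div_le_one (by positivity)]
    exact pow_le_pow_left₀ (norm_nonneg _) (hy.trans h1.le) 2
  unfold tt
  apply div_nonneg
  · apply mul_nonneg <;> linarith
  · positivity

theorem one_sub_ne {R R₁ : ℝ} (h0 : 0 < R₁) (h1 : R₁ < R) {x y : ℂ} (hx : x ∈ closedBall (0:ℂ) R₁)
    (hy : y ∈ closedBall (0:ℂ) R₁) : 0 < ‖1 - x / R * (starRingEnd ℂ) (y / R)‖ := by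
  rw [norm_pos_iff]
  intro h
  have h2 : x / R * (starRingEnd ℂ) (y / R) = 1 := (sub_eq_zero.1 h).symm
  have h3 := zbound h0 h1 hx hy
  rw [h2, norm_one] at h3
  exact absurd (qlt h0 h1) (not_lt.2 h3)

theorem one_sub_tt {R R₁ : ℝ} (h0 : 0 < R₁) (h1 : R₁ < R) {x y : ℂ} (hx : x ∈ closedBall (0:ℂ) R₁)
    (hy : y ∈ closedBall (0:ℂ) R₁) :
    1 - tt R x y = (‖x - y‖ / (R * ‖1 - x / R * (starRingEnd ℂ) (y / R)‖)) ^ 2 := by
  have hR : 0 < R := h0.trans h1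
  have h2 := one_sub_ne h0 h1 hx hy
  unfold tt
  have key : ‖1 - x / R * (starRingEnd ℂ) (y / R)‖ ^ 2 * R ^ 2 - ‖x - y‖ ^ 2 =
      (1 - ‖x‖ ^ 2 / R ^ 2) * (1 - ‖y‖ ^ 2 / R ^ 2) * R ^ 2 := by
    rw [← Complex.normSq_eq_norm_sq, ← Complex.normSq_eq_norm_sq, ← Complex.normSq_eq_norm_sq,
      ← Complex.normSq_eq_norm_sq]
    simp only [Complex.normSq_apply]
    have e1 : (x / (R:ℂ)) = ⟨x.re / R, x.im / R⟩ := by
      apply Complex.ext <;> simp [Complex.div_ofReal_re, Complex.div_ofReal_im]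
    have e2 : (y / (R:ℂ)) = ⟨y.re / R, y.im / R⟩ := by
      apply Complex.ext <;> simp [Complex.div_ofReal_re, Complex.div_ofReal_im]
    rw [e1, e2]
    simp only [Complex.sub_re, Complex.sub_im, Complex.mul_re, Complex.mul_im, Complex.conj_re,
      Complex.conj_im, Complex.one_re, Complex.one_im]
    field_simp
    ring
  generalize ‖1 - x / R * (starRingEnd ℂ) (y / R)‖ = N at h2 key ⊢
  generalize (1 - ‖x‖ ^ 2 / R ^ 2) * (1 - ‖y‖ ^ 2 / R ^ 2) = A at key ⊢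
  field_simp
  linear_combination key

theorem tt_lt_one {R R₁ : ℝ} (h0 : 0 < R₁) (h1 : R₁ < R) {x y : ℂ} (hx : x ∈ closedBall (0:ℂ) R₁)
    (hy : y ∈ closedBall (0:ℂ) R₁) (hxy : x ≠ y) : tt R x y < 1 := by
  have hR : 0 < R := h0.trans h1
  have h2 := one_sub_ne h0 h1 hx hy
  have h3 := one_sub_tt h0 h1 hx hy
  have h4 : 0 < ‖x - y‖ := norm_pos_iff.2 (sub_ne_zero.2 hxy)
  have h5 : 0 < (‖x - y‖ / (R * ‖1 - x / R * (starRingEnd ℂ) (y / R)‖)) ^ 2 := by positivity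
  linarith

theorem tt_le_one {R R₁ : ℝ} (h0 : 0 < R₁) (h1 : R₁ < R) {x y : ℂ} (hx : x ∈ closedBall (0:ℂ) R₁)
    (hy : y ∈ closedBall (0:ℂ) R₁) : tt R x y ≤ 1 := by
  have h3 := one_sub_tt h0 h1 hx hy
  have h5 : 0 ≤ (‖x - y‖ / (R * ‖1 - x / R * (starRingEnd ℂ) (y / R)‖)) ^ 2 := by positivity
  linarith

theorem log_tt {R R₁ : ℝ} (h0 : 0 < R₁) (h1 : R₁ < R) {x y : ℂ} (hx : x ∈ closedBall (0:ℂ) R₁)
    (hy : y ∈ closedBall (0:ℂ) R₁) (hxy : x ≠ y) :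
    K (gD R) x y = - (1 / 2) * Real.log (1 - tt R x y) := by
  have hR : 0 < R := h0.trans h1
  have h2 := one_sub_ne h0 h1 hx hy
  have h4 : 0 < ‖x - y‖ := norm_pos_iff.2 (sub_ne_zero.2 hxy)
  rw [one_sub_tt h0 h1 hx hy, Real.log_pow, Real.log_div h4.ne' (by positivity),
    Real.log_mul hR.ne' h2.ne']
  unfold K gD
  have e : (R : ℂ) ^ 2 - x * (starRingEnd ℂ) y = (R : ℂ) ^ 2 * (1 - x / R * (starRingEnd ℂ) (y / R)) := by
    have : (R : ℂ) ≠ 0 := by exact_mod_cast hR.ne'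
    rw [map_div₀, Complex.conj_ofReal]
    field_simp
  rw [e, norm_mul, norm_pow, Complex.norm_real, Real.norm_eq_abs, abs_of_pos hR,
    Real.log_mul (by positivity) h2.ne', Real.log_pow]
  push_cast
  ring

theorem integrable_tt {R R₁ : ℝ} (h0 : 0 < R₁) (h1 : R₁ < R)
    (hμ : ∀ i, μ i (closedBall 0 R₁)ᶜ = 0) (i j : Fin n) (m : ℕ) :
    Integrable (fun p : ℂ × ℂ => tt R p.1 p.2 ^ m) ((μ i).prod (μ j)) := by
  refine Integrable.of_bound ((measurable_tt R).pow_const m).aestronglyMeasurable 1 ?_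
  filter_upwards [ae_prod_ball μ R₁ hμ i j] with p hp
  rw [Real.norm_eq_abs, abs_pow, abs_of_nonneg (tt_nonneg h0 h1 hp.1 hp.2)]
  exact pow_le_one₀ (tt_nonneg h0 h1 hp.1 hp.2) (tt_le_one h0 h1 hp.1 hp.2)

theorem tt_psd {R R₁ : ℝ} (h0 : 0 < R₁) (h1 : R₁ < R)
    (hμ : ∀ i, μ i (closedBall 0 R₁)ᶜ = 0) (b : Fin n → ℝ) (m : ℕ) :
    0 ≤ ∑ i, ∑ j, b i * b j * ∫ p, tt R p.1 p.2 ^ m ∂((μ i).prod (μ j)) := by
  have h2 : ∀ i j, Tendsto (fun P => ∫ p, tP R P p.1 p.2 ^ m ∂((μ i).prod (μ j))) atTop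
      (𝓝 (∫ p, ((tt R p.1 p.2 ^ m : ℝ) : ℂ) ∂((μ i).prod (μ j)))) := by
    intro i j
    refine tendsto_integral_of_dominated_convergence
      (fun _ => ((1 - (R₁ / R) ^ 2)⁻¹ ^ 2) ^ m) ?_ (integrable_const _) ?_ ?_
    · intro P
      exact ((measurable_tP R P).pow_const m).aestronglyMeasurable
    · intro P
      filter_upwards [ae_prod_ball μ R₁ hμ i j] with p hp
      exact tP_bound h0 h1 hp.1 hp.2 P m
    · filter_upwards [ae_prod_ball μ R₁ hμ i j] with p hp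
      exact tP_tendsto h0 h1 hp.1 hp.2 m
  have h3 : Tendsto (fun P => (∑ i, ∑ j, (b i : ℂ) * b j *
      ∫ p, tP R P p.1 p.2 ^ m ∂((μ i).prod (μ j))).re) atTop
      (𝓝 (∑ i, ∑ j, (b i : ℂ) * b j *
        ∫ p, ((tt R p.1 p.2 ^ m : ℝ) : ℂ) ∂((μ i).prod (μ j))).re) := by
    refine (Complex.continuous_re.tendsto _).comp ?_
    refine tendsto_finsetSum _ fun i _ => tendsto_finsetSum _ fun j _ => ?_
    exact (h2 i j).const_mul _
  have h4 : 0 ≤ (∑ i, ∑ j, (b i : ℂ) * b j *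
        ∫ p, ((tt R p.1 p.2 ^ m : ℝ) : ℂ) ∂((μ i).prod (μ j))).re := by
    refine ge_of_tendsto' h3 fun P => ?_
    exact FF.nonneg μ (tP_FF R P m) R₁ hμ b
  have h5 : (∑ i, ∑ j, (b i : ℂ) * b j *
        ∫ p, ((tt R p.1 p.2 ^ m : ℝ) : ℂ) ∂((μ i).prod (μ j))) =
      ((∑ i, ∑ j, b i * b j * ∫ p, tt R p.1 p.2 ^ m ∂((μ i).prod (μ j)) : ℝ) : ℂ) := by
    push_cast
    refine Finset.sum_congr rfl fun i _ => Finset.sum_congr rfl fun j _ => ?_
    congr 1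
    rw [← integral_complex_ofReal]
    push_cast
    rfl
  rw [h5, Complex.ofReal_re] at h4
  exact h4

/-- finite sums of the logarithmic series -/
noncomputable def QM (R : ℝ) (M : ℕ) (x y : ℂ) : ℝ :=
  1 / 2 * ∑ m ∈ Finset.range M, tt R x y ^ (m + 1) / (m + 1)

theorem GD_psd {R R₁ : ℝ} (h0 : 0 < R₁) (h1 : R₁ < R)
    (hμ : ∀ i, μ i (closedBall 0 R₁)ᶜ = 0) (b : Fin n → ℝ)
    (hdiag : ∀ i j, ∀ᵐ p ∂((μ i).prod (μ j)), p.1 ≠ p.2)
    (hint : ∀ i j, Integrable (fun p : ℂ × ℂ => K (gD R) p.1 p.2) ((μ i).prod (μ j))) :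
    0 ≤ ∑ i, ∑ j, b i * b j * ∫ p, K (gD R) p.1 p.2 ∂((μ i).prod (μ j)) := by
  have hsum : ∀ x ∈ closedBall (0:ℂ) R₁, ∀ y ∈ closedBall (0:ℂ) R₁, x ≠ y →
      HasSum (fun m : ℕ => 1 / 2 * (tt R x y ^ (m + 1) / (m + 1))) (K (gD R) x y) := by
    intro x hx y hy hxy
    have h2 : |tt R x y| < 1 := by
      rw [abs_of_nonneg (tt_nonneg h0 h1 hx hy)]
      exact tt_lt_one h0 h1 hx hy hxy
    have h3 := (Real.hasSum_pow_div_log_of_abs_lt_one h2).mul_left (1 / 2)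
    rw [log_tt h0 h1 hx hy hxy]
    have e : -(1 / 2) * Real.log (1 - tt R x y) = 1 / 2 * (-Real.log (1 - tt R x y)) := by ring
    rw [e]
    exact h3
  have h2 : ∀ i j, Tendsto (fun M => ∫ p, QM R M p.1 p.2 ∂((μ i).prod (μ j))) atTop
      (𝓝 (∫ p, K (gD R) p.1 p.2 ∂((μ i).prod (μ j)))) := by
    intro i j
    refine tendsto_integral_of_dominated_convergence
      (fun p => K (gD R) p.1 p.2) ?_ (hint i j) ?_ ?_
    · intro M
      unfold QM
      apply Measurable.aestronglyMeasurable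
      apply Measurable.const_mul
      refine Finset.measurable_fun_sum _ fun k _ => ?_
      exact ((measurable_tt R).pow_const _).div_const _
    · intro M
      filter_upwards [ae_prod_ball μ R₁ hμ i j, hdiag i j] with p hp hd
      have h5 := hsum p.1 hp.1 p.2 hp.2 hd
      have h6 : ∀ m : ℕ, 0 ≤ 1 / 2 * (tt R p.1 p.2 ^ (m + 1) / (m + 1)) := by
        intro m
        have := tt_nonneg h0 h1 hp.1 hp.2
        positivity
      unfold QM
      rw [Finset.mul_sum, Real.norm_eq_abs, abs_of_nonneg (Finset.sum_nonneg fun m _ => h6 m)]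
      exact sum_le_hasSum _ (fun m _ => h6 m) h5
    · filter_upwards [ae_prod_ball μ R₁ hμ i j, hdiag i j] with p hp hd
      have h5 := (hsum p.1 hp.1 p.2 hp.2 hd).tendsto_sum_nat
      unfold QM
      simpa only [Finset.mul_sum] using h5
  have h3 : Tendsto (fun M => ∑ i, ∑ j, b i * b j * ∫ p, QM R M p.1 p.2 ∂((μ i).prod (μ j))) atTop
      (𝓝 (∑ i, ∑ j, b i * b j * ∫ p, K (gD R) p.1 p.2 ∂((μ i).prod (μ j)))) :=
    tendsto_finsetSum _ fun i _ => tendsto_finsetSum _ fun j _ => (h2 i j).const_mul _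
  refine ge_of_tendsto' h3 fun M => ?_
  have h4 : ∀ i j, ∫ p, QM R M p.1 p.2 ∂((μ i).prod (μ j)) =
      ∑ m ∈ Finset.range M, 1 / 2 * ((∫ p, tt R p.1 p.2 ^ (m + 1) ∂((μ i).prod (μ j))) / (m + 1)) := by
    intro i j
    unfold QM
    rw [integral_const_mul, integral_finsetSum, Finset.mul_sum]
    · refine Finset.sum_congr rfl fun m _ => ?_
      rw [integral_div]
    · intro m _
      exact (integrable_tt μ h0 h1 hμ i j (m + 1)).div_const _
  have h5 : ∑ i, ∑ j, b i * b j * ∫ p, QM R M p.1 p.2 ∂((μ i).prod (μ j)) =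
      ∑ m ∈ Finset.range M, 1 / 2 / (m + 1) *
        ∑ i, ∑ j, b i * b j * ∫ p, tt R p.1 p.2 ^ (m + 1) ∂((μ i).prod (μ j)) := by
    simp only [h4, Finset.mul_sum]
    rw [Finset.sum_comm_cycle]
    refine Finset.sum_congr rfl fun k _ => Finset.sum_congr rfl fun i _ =>
      Finset.sum_congr rfl fun j _ => ?_
    field_simp
  rw [h5]
  refine Finset.sum_nonneg fun m _ => mul_nonneg (by positivity) (tt_psd μ h0 h1 hμ b (m + 1))

end Pool.Agent.H836_PV.PdAux
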