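import Pool.Agent.H836_PV.PdA
import Pool.Agent.H836_PV.PdB

/-!
# Task Pd
-/

open MeasureTheory Filter Topology Set Metric
open scoped ENNReal ComplexConjugate

namespace Pool.Agent.H836_PV.PdAux

section basics

variable {Λ : Set ℂ} {R R₁ : ℝ}

theorem compl_nonempty (hsub : Λ ⊆ closedBall 0 R₁) : (Λᶜ).Nonempty := by
  refine ⟨((R₁ + 1 : ℝ) : ℂ), fun h => ?_⟩
  have := hsub h
  rw [mem_closedBall_zero_iff, Complex.norm_real, Real.norm_eq_abs] at this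
  have h2 := le_abs_self (R₁ + 1)
  linarith

theorem dist_pos' (hΛ : IsOpen Λ) (hsub : Λ ⊆ closedBall 0 R₁) {z : ℂ} (hz : z ∈ Λ) :
    0 < infDist z Λᶜ := by
  have h1 := (hΛ.isClosed_compl.notMem_iff_infDist_pos (compl_nonempty hsub)).1
    (show z ∉ Λᶜ from fun h => h hz)
  exact h1

theorem ball_sub (z : ℂ) : ball z (infDist z Λᶜ) ⊆ Λ := by
  intro y hy
  by_contra h
  have h1 : infDist z Λᶜ ≤ dist z y := infDist_le_dist_of_mem h
  rw [mem_ball, dist_comm] at hy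
  linarith

/-- the upper bound for the logarithms -/
noncomputable def CC (R₁ : ℝ) : ℝ := Real.log (max 1 (2 * R₁))

theorem CC_nonneg (R₁ : ℝ) : 0 ≤ CC R₁ := Real.log_nonneg (le_max_left _ _)

theorem log_le_CC {x y : ℂ} (hx : x ∈ closedBall (0:ℂ) R₁) (hy : y ∈ closedBall (0:ℂ) R₁) :
    Real.log ‖x - y‖ ≤ CC R₁ := by
  by_cases h : x = y
  · rw [h]; simp [CC_nonneg]
  · rw [mem_closedBall_zero_iff] at hx hy
    apply Real.log_le_log (norm_pos_iff.2 (sub_ne_zero.2 h))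
    refine le_trans ?_ (le_max_right _ _)
    refine (norm_sub_le _ _).trans ?_
    linarith

/-- the singular function -/
noncomputable def fη (R₁ : ℝ) (η ξ : ℂ) : ℝ≥0∞ := by
  classical
  exact if ξ = η then ⊤ else ENNReal.ofReal (CC R₁ - Real.log ‖ξ - η‖)

theorem measurable_fη (R₁ : ℝ) (η : ℂ) : Measurable (fη R₁ η) := by
  unfold fη
  apply Measurable.ite
  · exact measurableSet_eq
  · exact measurable_const
  · fun_prop

theorem fη_step (hΛ : IsOpen Λ) (hsub : Λ ⊆ closedBall 0 R₁) {η : ℂ}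
    (hη : η ∈ closedBall (0:ℂ) R₁) {z : ℂ} (hz : z ∈ Λ) :
    ∫⁻ ξ, fη R₁ η ξ ∂(step Λ z) ≤ fη R₁ η z := by
  by_cases h : z = η
  · have : fη R₁ η z = ⊤ := by unfold fη; rw [if_pos h]
    rw [this]; exact le_top
  · have e : fη R₁ η z = ENNReal.ofReal (CC R₁ - Real.log ‖z - η‖) := by
      unfold fη; rw [if_neg h]
    have hd := dist_pos' hΛ hsub hz
    have hb : ball z (infDist z Λᶜ / 2) ⊆ Λ :=
      (ball_subset_ball (by linarith)).trans (ball_sub z)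
    have e2 : step Λ z = (volume (ball z (infDist z Λᶜ / 2)))⁻¹ •
        volume.restrict (ball z (infDist z Λᶜ / 2)) := by
      unfold step; rw [if_pos hz]
    rw [e, e2, lintegral_smul_measure, smul_eq_mul]
    have e3 : ∫⁻ ξ in ball z (infDist z Λᶜ / 2), fη R₁ η ξ =
        ∫⁻ ξ in ball z (infDist z Λᶜ / 2), ENNReal.ofReal (CC R₁ - Real.log ‖ξ - η‖) := by
      apply lintegral_congr_ae
      have h1 : ∀ᵐ ξ : ℂ, ξ ≠ η := by
        rw [ae_iff]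
        simp
      filter_upwards [ae_restrict_of_ae h1] with ξ hξ
      unfold fη; rw [if_neg hξ]
    rw [e3]
    have h2 := disc_log (CC R₁) z η (infDist z Λᶜ / 2) h
      (fun ξ hξ => log_le_CC (hsub (hb hξ)) hη)
    have h3 : volume (ball z (infDist z Λᶜ / 2)) ≠ 0 :=
      (measure_ball_pos volume z (by linarith)).ne'
    have h4 : volume (ball z (infDist z Λᶜ / 2)) ≠ ⊤ := measure_ball_lt_top.ne
    calc _ ≤ (volume (ball z (infDist z Λᶜ / 2)))⁻¹ *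
          (ENNReal.ofReal (CC R₁ - Real.log ‖z - η‖) * volume (ball z (infDist z Λᶜ / 2))) := by
          gcongr
      _ = ENNReal.ofReal (CC R₁ - Real.log ‖z - η‖) *
          ((volume (ball z (infDist z Λᶜ / 2)))⁻¹ * volume (ball z (infDist z Λᶜ / 2))) := by ring
      _ = _ := by rw [ENNReal.inv_mul_cancel h3 h4, mul_one]

theorem fη_sweep (hb : TaskPb) (hΛ : IsOpen Λ) (hsub : Λ ⊆ closedBall 0 R₁) {η : ℂ}
    (hη : η ∈ closedBall (0:ℂ) R₁) {w : ℂ} (hw : w ∈ Λ) (n : ℕ) :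
    ∫⁻ ξ, fη R₁ η ξ ∂(sweep Λ w n) ≤ fη R₁ η w := by
  obtain ⟨h1, h2, -⟩ := hb Λ hΛ ⟨w, hw⟩ (isBounded_closedBall.subset hsub)
  induction n with
  | zero =>
    show ∫⁻ ξ, fη R₁ η ξ ∂(Measure.dirac w) ≤ _
    rw [lintegral_dirac' _ (measurable_fη R₁ η)]
  | succ n ih =>
    show ∫⁻ ξ, fη R₁ η ξ ∂((sweep Λ w n).bind (step Λ)) ≤ _
    rw [Measure.lintegral_bind h1.aemeasurable (measurable_fη R₁ η).aemeasurable]
    refine le_trans (lintegral_mono_ae ?_) ih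
    have h3 : ∀ᵐ z ∂(sweep Λ w n), z ∈ Λ := by
      rw [ae_iff]; exact (h2 w hw n).2
    filter_upwards [h3] with z hz
    exact fη_step hΛ hsub hη hz

theorem no_atom (hb : TaskPb) (hΛ : IsOpen Λ) (hsub : Λ ⊆ closedBall 0 R₁) {w : ℂ} (hw : w ∈ Λ)
    (n : ℕ) (η : ℂ) : sweep Λ w (n + 1) {η} = 0 := by
  obtain ⟨-, h2, -, -, h5, -⟩ := hb Λ hΛ ⟨w, hw⟩ (isBounded_closedBall.subset hsub)
  by_cases hη : η ∈ Λ
  · obtain ⟨θ, -, -, h6⟩ := h5 w hw (infDist η Λᶜ) (dist_pos' hΛ hsub hη)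
    have h7 := h6 n {η} (measurableSet_singleton η) (by
      intro z hz
      rw [mem_singleton_iff] at hz
      rw [hz]
      exact ⟨hη, le_rfl⟩)
    have h8 : volume ({η} : Set ℂ) = 0 := measure_singleton η
    rw [h8, mul_zero] at h7
    exact le_antisymm h7 (zero_le)
  · refine measure_mono_null ?_ (h2 w hw (n + 1)).2
    intro z hz
    rw [mem_singleton_iff] at hz
    rw [hz]
    exact hη

theorem log_lintegral_ne_top (hb : TaskPb) (hΛ : IsOpen Λ) (hsub : Λ ⊆ closedBall 0 R₁) {w η : ℂ}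
    (hw : w ∈ Λ) (hη : η ∈ Λ) (n : ℕ) :
    ∫⁻ ξ, ENNReal.ofReal (CC R₁ - Real.log ‖ξ - η‖) ∂(sweep Λ w (n + 1)) ≠ ⊤ := by
  obtain ⟨-, h2, -, -, h5, -⟩ := hb Λ hΛ ⟨w, hw⟩ (isBounded_closedBall.subset hsub)
  have hd := dist_pos' hΛ hsub hη
  set s : ℝ := infDist η Λᶜ / 2 with hs
  have hspos : 0 < s := by linarith
  obtain ⟨θ, -, -, h6⟩ := h5 w hw s hspos
  have hprob := (h2 w hw (n + 1)).1
  rw [← lintegral_add_compl _ (measurableSet_ball (x := η) (ε := s))]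
  have hle : (sweep Λ w (n + 1)).restrict (ball η s) ≤
      ENNReal.ofReal (θ n) • volume.restrict (ball η s) := by
    refine Measure.le_iff.2 fun A hA => ?_
    rw [Measure.restrict_apply hA, Measure.smul_apply, Measure.restrict_apply hA, smul_eq_mul]
    refine h6 n (A ∩ ball η s) (hA.inter measurableSet_ball) fun z hz => ?_
    have hz2 : dist z η < s := hz.2
    constructor
    · apply ball_sub η
      rw [mem_ball]
      linarith
    · have := infDist_le_infDist_add_dist (s := Λᶜ) (x := η) (y := z)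
      rw [dist_comm] at hz2
      linarith
  refine (ENNReal.add_lt_top.2 ⟨?_, ?_⟩).ne
  · refine (lintegral_mono' hle le_rfl).trans_lt ?_
    rw [lintegral_smul_measure, smul_eq_mul]
    exact ENNReal.mul_lt_top ENNReal.ofReal_lt_top (ball_log_ne_top _ _ _ hspos).lt_top
  · refine lt_of_le_of_lt (setLIntegral_mono' (measurableSet_ball.compl)
      (g := fun _ => ENNReal.ofReal (CC R₁ - Real.log s)) fun ξ hξ => ?_) ?_
    · apply ENNReal.ofReal_le_ofReal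
      have h7 : s ≤ ‖ξ - η‖ := by
        rw [mem_compl_iff, mem_ball, not_lt, dist_eq_norm] at hξ
        exact hξ
      have := Real.log_le_log hspos h7
      linarith
    · rw [setLIntegral_const]
      exact ENNReal.mul_lt_top ENNReal.ofReal_lt_top (measure_lt_top _ _)

theorem ae_mem (hb : TaskPb) (hΛ : IsOpen Λ) (hsub : Λ ⊆ closedBall 0 R₁) {w : ℂ}
    (hw : w ∈ Λ) (n : ℕ) : ∀ᵐ ξ ∂(sweep Λ w n), ξ ∈ Λ := by
  obtain ⟨-, h2, -⟩ := hb Λ hΛ ⟨w, hw⟩ (isBounded_closedBall.subset hsub)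
  rw [ae_iff]; exact (h2 w hw n).2

theorem ae_ne (hb : TaskPb) (hΛ : IsOpen Λ) (hsub : Λ ⊆ closedBall 0 R₁) {w : ℂ}
    (hw : w ∈ Λ) (n : ℕ) (η : ℂ) : ∀ᵐ ξ ∂(sweep Λ w (n + 1)), ξ ≠ η := by
  rw [ae_iff]
  simpa using no_atom hb hΛ hsub hw n η

theorem prob (hb : TaskPb) (hΛ : IsOpen Λ) (hsub : Λ ⊆ closedBall 0 R₁) {w : ℂ}
    (hw : w ∈ Λ) (n : ℕ) : IsProbabilityMeasure (sweep Λ w n) := by
  obtain ⟨-, h2, -⟩ := hb Λ hΛ ⟨w, hw⟩ (isBounded_closedBall.subset hsub)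
  exact (h2 w hw n).1

theorem log_integrable (hb : TaskPb) (hΛ : IsOpen Λ) (hsub : Λ ⊆ closedBall 0 R₁) {w η : ℂ}
    (hw : w ∈ Λ) (hη : η ∈ Λ) (n : ℕ) :
    Integrable (fun ξ => CC R₁ - Real.log ‖ξ - η‖) (sweep Λ w (n + 1)) := by
  refine ⟨Measurable.aestronglyMeasurable (by fun_prop), ?_⟩
  rw [hasFiniteIntegral_iff_ofReal]
  · exact (log_lintegral_ne_top hb hΛ hsub hw hη n).lt_top
  · filter_upwards [ae_mem hb hΛ hsub hw (n + 1)] with ξ hξ
    have := log_le_CC (hsub hξ) (hsub hη)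
    simp only [Pi.zero_apply]
    linarith

/-- the logarithm is subharmonic -/
theorem log_sweep (hb : TaskPb) (hΛ : IsOpen Λ) (hsub : Λ ⊆ closedBall 0 R₁) {w η : ℂ}
    (hw : w ∈ Λ) (hη : η ∈ Λ) (n : ℕ) (hne : w ≠ η) :
    ∫ ξ, (CC R₁ - Real.log ‖ξ - η‖) ∂(sweep Λ w (n + 1)) ≤ CC R₁ - Real.log ‖w - η‖ := by
  have h1 := fη_sweep hb hΛ hsub (hsub hη) hw (n + 1)
  have e : fη R₁ η w = ENNReal.ofReal (CC R₁ - Real.log ‖w - η‖) := by
    unfold fη; rw [if_neg hne]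
  have e2 : ∫⁻ ξ, fη R₁ η ξ ∂(sweep Λ w (n + 1)) =
      ∫⁻ ξ, ENNReal.ofReal (CC R₁ - Real.log ‖ξ - η‖) ∂(sweep Λ w (n + 1)) := by
    apply lintegral_congr_ae
    filter_upwards [ae_ne hb hΛ hsub hw n η] with ξ hξ
    unfold fη; rw [if_neg hξ]
  rw [e, e2, ← ofReal_integral_eq_lintegral_ofReal (log_integrable hb hΛ hsub hw hη n)] at h1
  · refine (ENNReal.ofReal_le_ofReal_iff ?_).1 h1
    have := log_le_CC (hsub hw) (hsub hη)
    linarith
  · filter_upwards [ae_mem hb hΛ hsub hw (n + 1)] with ξ hξ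
    have := log_le_CC (hsub hξ) (hsub hη)
    simp only [Pi.zero_apply]
    linarith

/-! ### the kernels -/

theorem gD_symm (R : ℝ) (x y : ℂ) : gD R x y = gD R y x := by
  unfold gD
  congr 2
  rw [← RCLike.norm_conj (_ - _ : ℂ)]
  congr 1
  simp only [map_sub, map_mul, map_pow, Complex.conj_ofReal, Complex.conj_conj]
  ring

theorem gD_lower (h0 : 0 < R₁) (h1 : R₁ < R) {x y : ℂ} (hx : x ∈ closedBall (0:ℂ) R₁)
    (hy : y ∈ closedBall (0:ℂ) R₁) : R ^ 2 - R₁ ^ 2 ≤ ‖(R : ℂ) ^ 2 - x * (starRingEnd ℂ) y‖ := by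
  rw [mem_closedBall_zero_iff] at hx hy
  have hR : 0 < R := h0.trans h1
  have h2 : ‖(R : ℂ) ^ 2‖ - ‖x * (starRingEnd ℂ) y‖ ≤ ‖(R : ℂ) ^ 2 - x * (starRingEnd ℂ) y‖ :=
    norm_sub_norm_le _ _
  rw [norm_pow, Complex.norm_real, Real.norm_eq_abs, abs_of_pos hR, norm_mul, RCLike.norm_conj] at h2
  have h3 : ‖x‖ * ‖y‖ ≤ R₁ * R₁ := by gcongr
  nlinarith

theorem gD_upper (h0 : 0 < R₁) (h1 : R₁ < R) {x y : ℂ} (hx : x ∈ closedBall (0:ℂ) R₁)
    (hy : y ∈ closedBall (0:ℂ) R₁) : ‖(R : ℂ) ^ 2 - x * (starRingEnd ℂ) y‖ ≤ R ^ 2 + R₁ ^ 2 := by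
  rw [mem_closedBall_zero_iff] at hx hy
  have hR : 0 < R := h0.trans h1
  have h2 : ‖(R : ℂ) ^ 2 - x * (starRingEnd ℂ) y‖ ≤ ‖(R : ℂ) ^ 2‖ + ‖x * (starRingEnd ℂ) y‖ :=
    norm_sub_le _ _
  rw [norm_pow, Complex.norm_real, Real.norm_eq_abs, abs_of_pos hR, norm_mul, RCLike.norm_conj] at h2
  have h3 : ‖x‖ * ‖y‖ ≤ R₁ * R₁ := by gcongr
  nlinarith

theorem gD_bdd (h0 : 0 < R₁) (h1 : R₁ < R) : ∃ C : ℝ, ∀ x ∈ closedBall (0:ℂ) R₁,
    ∀ y ∈ closedBall (0:ℂ) R₁, |gD R x y| ≤ C := by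
  have hR : 0 < R := h0.trans h1
  have hp : 0 < R ^ 2 - R₁ ^ 2 := by nlinarith
  refine ⟨|Real.log (R ^ 2 - R₁ ^ 2)| + |Real.log (R ^ 2 + R₁ ^ 2)| + |Real.log R|, ?_⟩
  intro x hx y hy
  have h2 := gD_lower h0 h1 hx hy
  have h3 := gD_upper h0 h1 hx hy
  have h4 := Real.log_le_log hp h2
  have h5 := Real.log_le_log (hp.trans_le h2) h3
  unfold gD
  have h6 := neg_abs_le (Real.log (R ^ 2 - R₁ ^ 2))
  have h7 := le_abs_self (Real.log (R ^ 2 + R₁ ^ 2))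
  have h8 := neg_abs_le (Real.log R)
  have h9 := le_abs_self (Real.log R)
  have h10 := abs_nonneg (Real.log (R ^ 2 - R₁ ^ 2))
  have h11 := abs_nonneg (Real.log (R ^ 2 + R₁ ^ 2))
  rw [abs_le]
  constructor <;> linarith

theorem gD_harm (hsub : Λ ⊆ closedBall 0 R₁) (h0 : 0 < R₁) (h1 : R₁ < R) {y : ℂ} (hy : y ∈ Λ) :
    InnerProductSpace.HarmonicOnNhd (fun x => gD R x y) Λ := by
  intro x hx
  have h2 := gD_lower h0 h1 (hsub hx) (hsub hy)
  have hR : 0 < R := h0.trans h1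
  have hp : 0 < R ^ 2 - R₁ ^ 2 := by nlinarith
  have h3 : (R : ℂ) ^ 2 - x * (starRingEnd ℂ) y ≠ 0 := norm_pos_iff.1 (hp.trans_le h2)
  have h4 : InnerProductSpace.HarmonicAt
      (fun x : ℂ => Real.log ‖(R : ℂ) ^ 2 - x * (starRingEnd ℂ) y‖) x :=
    AnalyticAt.harmonicAt_log_norm (by fun_prop) h3
  have h5 : InnerProductSpace.HarmonicAt (fun _ : ℂ => Real.log R) x :=
    InnerProductSpace.harmonicAt_const _
  exact h4.sub h5

theorem measurable_K (R : ℝ) : Measurable (fun p : ℂ × ℂ => K (gD R) p.1 p.2) := by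
  unfold K gD
  have : Measurable (fun p : ℂ × ℂ => (starRingEnd ℂ) p.2) :=
    Complex.continuous_conj.measurable.comp measurable_snd
  fun_prop

theorem K_nonneg (h0 : 0 < R₁) (h1 : R₁ < R) {x y : ℂ} (hx : x ∈ closedBall (0:ℂ) R₁)
    (hy : y ∈ closedBall (0:ℂ) R₁) (hxy : x ≠ y) : 0 ≤ K (gD R) x y := by
  rw [log_tt h0 h1 hx hy hxy]
  have h2 : Real.log (1 - tt R x y) ≤ 0 := by
    apply Real.log_nonpos
    · have := tt_lt_one h0 h1 hx hy hxy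
      linarith
    · have := tt_nonneg h0 h1 hx hy
      linarith
  linarith

/-! ### the regular part -/

theorem reg_bounds (ha : TaskPa) {G g : ℂ → ℂ → ℝ} (hΛ : IsOpen Λ) (hsub : Λ ⊆ closedBall 0 R₁)
    (hne : Λ.Nonempty) (hG : IsGreen Λ G) (hg : RegPart Λ G g) :
    (∀ x ∈ Λ, ∀ y ∈ Λ, g x y ≤ CC R₁) ∧ (∀ x ∈ Λ, ∀ y ∈ Λ, x ≠ y → 0 ≤ G x y) ∧
    (∀ x ∈ Λ, ∀ y ∈ Λ, ∀ r, 0 < r → ball y r ⊆ Λ → Real.log r ≤ g x y) := by
  have hd : ∀ x ∈ Λ, ∀ y ∈ Λ, ‖x - y‖ ≤ max 1 (2 * R₁) := by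
    intro x hx y hy
    have h1 := hsub hx
    have h2 := hsub hy
    rw [mem_closedBall_zero_iff] at h1 h2
    refine le_trans ((norm_sub_le _ _).trans ?_) (le_max_right _ _)
    linarith
  obtain ⟨g', hg', h1, h2, h3⟩ := ha Λ G hΛ hne (isBounded_closedBall.subset hsub) hG
    (max 1 (2 * R₁)) (le_max_left _ _) hd
  have e : ∀ x ∈ Λ, ∀ y ∈ Λ, g x y = g' x y := by
    intro x hx y hy
    have e1 : ∀ x ∈ Λ, x ≠ y → g x y = g' x y := by
      intro x hx hxy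
      have e2 := hg.eq x hx y hy hxy
      have e3 := hg'.eq x hx y hy hxy
      linarith
    by_cases hxy : x = y
    · subst hxy
      have c1 : Tendsto (fun z => g z x) (𝓝[≠] x) (𝓝 (g x x)) :=
        (((hg.harm x hy).continuousOn.continuousAt (hΛ.mem_nhds hy)).tendsto).mono_left
          nhdsWithin_le_nhds
      have c2 : Tendsto (fun z => g' z x) (𝓝[≠] x) (𝓝 (g' x x)) :=
        (((hg'.harm x hy).continuousOn.continuousAt (hΛ.mem_nhds hy)).tendsto).mono_left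
          nhdsWithin_le_nhds
      refine tendsto_nhds_unique c1 (c2.congr' ?_)
      filter_upwards [self_mem_nhdsWithin, mem_nhdsWithin_of_mem_nhds (hΛ.mem_nhds hy)] with z hz hz2
      exact (e1 z hz2 hz).symm
    · exact e1 x hx hxy
  refine ⟨fun x hx y hy => ?_, h2, fun x hx y hy r hr hb => ?_⟩
  · rw [e x hx y hy]; exact h1 x hx y hy
  · rw [e x hx y hy]; exact h3 x hx y hy r hr hb

theorem g_bdd (hΛ : IsOpen Λ) {g : ℂ → ℂ → ℝ}
    (hup : ∀ x ∈ Λ, ∀ y ∈ Λ, g x y ≤ CC R₁)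
    (hlow : ∀ x ∈ Λ, ∀ y ∈ Λ, ∀ r, 0 < r → ball y r ⊆ Λ → Real.log r ≤ g x y)
    {y : ℂ} (hy : y ∈ Λ) : ∃ C : ℝ, ∀ x ∈ Λ, |g x y| ≤ C := by
  obtain ⟨r, hr, hb⟩ := Metric.isOpen_iff.1 hΛ y hy
  refine ⟨CC R₁ + |Real.log r|, fun x hx => ?_⟩
  have h1 := hup x hx y hy
  have h2 := hlow x hx y hy r hr hb
  have h3 := neg_abs_le (Real.log r)
  have h4 := abs_nonneg (Real.log r)
  have h5 := CC_nonneg R₁
  rw [abs_le]
  constructor <;> linarith

/-- bounded continuous functions on `Λ` are integrable for the sweeping measures -/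
theorem integrable_bdd (hb : TaskPb) (hΛ : IsOpen Λ) (hsub : Λ ⊆ closedBall 0 R₁) {w : ℂ}
    (hw : w ∈ Λ) (n : ℕ) {u : ℂ → ℝ} (hu : ContinuousOn u Λ) (hC : ∃ C : ℝ, ∀ x ∈ Λ, |u x| ≤ C) :
    Integrable u (sweep Λ w n) := by
  obtain ⟨C, hC⟩ := hC
  have := prob hb hΛ hsub hw n
  have h2 : (sweep Λ w n).restrict Λ = sweep Λ w n :=
    Measure.restrict_eq_self_of_ae_mem (ae_mem hb hΛ hsub hw n)
  refine Integrable.of_bound ?_ C ?_
  · rw [← h2]
    exact hu.aestronglyMeasurable hΛ.measurableSet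
  · filter_upwards [ae_mem hb hΛ hsub hw n] with x hx
    exact hC x hx

theorem K_integrable (hb : TaskPb) (hΛ : IsOpen Λ) (hsub : Λ ⊆ closedBall 0 R₁) (h0 : 0 < R₁)
    (h1 : R₁ < R) {w η : ℂ} (hw : w ∈ Λ) (hη : η ∈ Λ) (n : ℕ) :
    Integrable (fun ξ => K (gD R) ξ η) (sweep Λ w (n + 1)) := by
  obtain ⟨C, hC⟩ := gD_bdd h0 h1
  have := prob hb hΛ hsub hw (n + 1)
  have h2 : Integrable (fun ξ => gD R ξ η) (sweep Λ w (n + 1)) :=
    integrable_bdd hb hΛ hsub hw (n + 1) (gD_harm hsub h0 h1 hη).continuousOn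
      ⟨C, fun x hx => hC x (hsub hx) η (hsub hη)⟩
  have h3 := (h2.sub (integrable_const (CC R₁))).add (log_integrable hb hΛ hsub hw hη n)
  refine h3.congr (Eventually.of_forall fun ξ => ?_)
  simp only [Pi.add_apply, Pi.sub_apply, K]
  ring

theorem U_upper (hb : TaskPb) (hΛ : IsOpen Λ) (hsub : Λ ⊆ closedBall 0 R₁) (h0 : 0 < R₁)
    (h1 : R₁ < R) {w η : ℂ} (hw : w ∈ Λ) (hη : η ∈ Λ) (n : ℕ) (hne : w ≠ η) :
    ∫ ξ, K (gD R) ξ η ∂(sweep Λ w (n + 1)) ≤ K (gD R) w η := by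
  obtain ⟨-, -, -, h4, -⟩ := hb Λ hΛ ⟨w, hw⟩ (isBounded_closedBall.subset hsub)
  obtain ⟨C, hC⟩ := gD_bdd h0 h1
  have := prob hb hΛ hsub hw (n + 1)
  have h2 : Integrable (fun ξ => gD R ξ η) (sweep Λ w (n + 1)) :=
    integrable_bdd hb hΛ hsub hw (n + 1) (gD_harm hsub h0 h1 hη).continuousOn
      ⟨C, fun x hx => hC x (hsub hx) η (hsub hη)⟩
  have h3 := h4 _ (gD_harm hsub h0 h1 hη) ⟨C, fun x hx => hC x (hsub hx) η (hsub hη)⟩ w hw (n + 1)
  have h5 := log_sweep hb hΛ hsub hw hη n hne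
  have e : ∫ ξ, K (gD R) ξ η ∂(sweep Λ w (n + 1)) =
      ∫ ξ, ((gD R ξ η - CC R₁) + (CC R₁ - Real.log ‖ξ - η‖)) ∂(sweep Λ w (n + 1)) := by
    refine integral_congr_ae (Eventually.of_forall fun ξ => ?_)
    simp only [K]
    ring
  have h2' : Integrable (fun ξ => gD R ξ η - CC R₁) (sweep Λ w (n + 1)) :=
    h2.sub (integrable_const _)
  rw [e, integral_add h2' (log_integrable hb hΛ hsub hw hη n),
    integral_sub h2 (integrable_const _), h3]
  simp only [integral_const, probReal_univ, smul_eq_mul, one_mul]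
  unfold K
  linarith

theorem k_integrable (ha : TaskPa) (hb : TaskPb) {G g : ℂ → ℂ → ℝ} (hΛ : IsOpen Λ)
    (hsub : Λ ⊆ closedBall 0 R₁) (h0 : 0 < R₁)
    (h1 : R₁ < R) (hG : IsGreen Λ G) (hg : RegPart Λ G g) {w η : ℂ} (hw : w ∈ Λ) (hη : η ∈ Λ)
    (n : ℕ) : Integrable (fun ξ => gD R ξ η - g ξ η) (sweep Λ w n) ∧
      ∫ ξ, (gD R ξ η - g ξ η) ∂(sweep Λ w n) = gD R w η - g w η := by
  obtain ⟨-, -, -, h4, -⟩ := hb Λ hΛ ⟨w, hw⟩ (isBounded_closedBall.subset hsub)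
  obtain ⟨hup, hGpos, hlow⟩ := reg_bounds ha hΛ hsub ⟨w, hw⟩ hG hg
  obtain ⟨C, hC⟩ := gD_bdd h0 h1
  obtain ⟨C', hC'⟩ := g_bdd hΛ hup hlow hη
  have hh : InnerProductSpace.HarmonicOnNhd (fun ξ => gD R ξ η - g ξ η) Λ :=
    (gD_harm hsub h0 h1 hη).sub (hg.harm η hη)
  have hbd : ∃ C : ℝ, ∀ x ∈ Λ, |gD R x η - g x η| ≤ C := by
    refine ⟨C + C', fun x hx => ?_⟩
    exact (abs_sub _ _).trans (add_le_add (hC x (hsub hx) η (hsub hη)) (hC' x hx))
  exact ⟨integrable_bdd hb hΛ hsub hw n hh.continuousOn hbd, h4 _ hh hbd w hw n⟩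

theorem U_lower (ha : TaskPa) (hb : TaskPb) {G g : ℂ → ℂ → ℝ} (hΛ : IsOpen Λ)
    (hsub : Λ ⊆ closedBall 0 R₁) (h0 : 0 < R₁)
    (h1 : R₁ < R) (hG : IsGreen Λ G) (hg : RegPart Λ G g) {w η : ℂ} (hw : w ∈ Λ) (hη : η ∈ Λ)
    (n : ℕ) : gD R w η - g w η ≤ ∫ ξ, K (gD R) ξ η ∂(sweep Λ w (n + 1)) := by
  obtain ⟨hup, hGpos, hlow⟩ := reg_bounds ha hΛ hsub ⟨w, hw⟩ hG hg
  obtain ⟨hi, he⟩ := k_integrable ha hb hΛ hsub h0 h1 hG hg hw hη (n + 1)
  rw [← he]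
  refine integral_mono_ae hi (K_integrable hb hΛ hsub h0 h1 hw hη n) ?_
  filter_upwards [ae_mem hb hΛ hsub hw (n + 1), ae_ne hb hΛ hsub hw n η] with ξ hξ hξ2
  have h2 := hGpos ξ hξ η hη hξ2
  rw [hg.eq ξ hξ η hη hξ2] at h2
  simp only [K]
  linarith

theorem ae_ball (hb : TaskPb) (hΛ : IsOpen Λ) (hsub : Λ ⊆ closedBall 0 R₁) {w : ℂ}
    (hw : w ∈ Λ) (n : ℕ) : sweep Λ w n (closedBall 0 R₁)ᶜ = 0 := by
  have h1 := ae_mem hb hΛ hsub hw n
  rw [ae_iff] at h1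
  refine measure_mono_null ?_ h1
  intro x hx hx2
  exact hx (hsub hx2)

theorem ae_diag (hb : TaskPb) (hΛ : IsOpen Λ) (hsub : Λ ⊆ closedBall 0 R₁) {w w' : ℂ}
    (hw : w ∈ Λ) (hw' : w' ∈ Λ) (n : ℕ) :
    ∀ᵐ p ∂((sweep Λ w (n + 1)).prod (sweep Λ w' (n + 1))), p.1 ≠ p.2 := by
  have := prob hb hΛ hsub hw (n + 1)
  have := prob hb hΛ hsub hw' (n + 1)
  rw [ae_iff]
  have hm : MeasurableSet {p : ℂ × ℂ | ¬ p.1 ≠ p.2} := by
    have : {p : ℂ × ℂ | ¬ p.1 ≠ p.2} = {p : ℂ × ℂ | p.1 = p.2} := by ext p; simp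
    rw [this]
    exact measurableSet_eq_fun measurable_fst measurable_snd
  rw [Measure.prod_apply hm, lintegral_eq_zero_iff (measurable_measure_prodMk_left hm)]
  refine Eventually.of_forall fun x => ?_
  have e : Prod.mk x ⁻¹' {p : ℂ × ℂ | ¬ p.1 ≠ p.2} = {x} := by
    ext y
    simp [eq_comm]
  simp only [Pi.zero_apply]
  rw [e]
  exact no_atom hb hΛ hsub hw' n x

theorem U_integrable (ha : TaskPa) (hb : TaskPb) {G g : ℂ → ℂ → ℝ} (hΛ : IsOpen Λ)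
    (hsub : Λ ⊆ closedBall 0 R₁) (h0 : 0 < R₁)
    (h1 : R₁ < R) (hG : IsGreen Λ G) (hg : RegPart Λ G g)
    (hsymm : ∀ x ∈ Λ, ∀ y ∈ Λ, g x y = g y x)
    {w w' : ℂ} (hw : w ∈ Λ) (hw' : w' ∈ Λ) (n : ℕ) :
    Integrable (fun η => ∫ ξ, K (gD R) ξ η ∂(sweep Λ w (n + 1))) (sweep Λ w' (n + 1)) := by
  have := prob hb hΛ hsub hw (n + 1)
  have := prob hb hΛ hsub hw' (n + 1)
  have i1 := (k_integrable ha hb hΛ hsub h0 h1 hG hg hw' hw (n + 1)).1
  have i2 := K_integrable hb hΛ hsub h0 h1 hw' hw n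
  refine (i1.abs.add i2.abs).mono' ?_ ?_
  · have := (measurable_K R).stronglyMeasurable.integral_prod_left' (μ := sweep Λ w (n + 1))
    exact this.aestronglyMeasurable
  · filter_upwards [ae_mem hb hΛ hsub hw' (n + 1), ae_ne hb hΛ hsub hw' n w] with η hη hη2
    have h2 := U_lower ha hb hΛ hsub h0 h1 hG hg hw hη n
    have h3 := U_upper hb hΛ hsub h0 h1 hw hη n (Ne.symm hη2)
    have e1 : gD R w η - g w η = gD R η w - g η w := by
      rw [gD_symm R w η, hsymm w hw η hη]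
    have e2 : K (gD R) w η = K (gD R) η w := by
      unfold K
      rw [gD_symm R w η, norm_sub_rev]
    rw [e1] at h2
    rw [e2] at h3
    simp only [Pi.add_apply]
    rw [Real.norm_eq_abs, abs_le]
    have h4 := neg_abs_le (gD R η w - g η w)
    have h5 := le_abs_self (K (gD R) η w)
    have h6 := abs_nonneg (gD R η w - g η w)
    have h7 := abs_nonneg (K (gD R) η w)
    constructor <;> linarith

theorem K_prod_integrable (ha : TaskPa) (hb : TaskPb) {G g : ℂ → ℂ → ℝ} (hΛ : IsOpen Λ)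
    (hsub : Λ ⊆ closedBall 0 R₁) (h0 : 0 < R₁)
    (h1 : R₁ < R) (hG : IsGreen Λ G) (hg : RegPart Λ G g)
    (hsymm : ∀ x ∈ Λ, ∀ y ∈ Λ, g x y = g y x)
    {w w' : ℂ} (hw : w ∈ Λ) (hw' : w' ∈ Λ) (n : ℕ) :
    Integrable (fun p : ℂ × ℂ => K (gD R) p.1 p.2)
      ((sweep Λ w (n + 1)).prod (sweep Λ w' (n + 1))) := by
  have := prob hb hΛ hsub hw (n + 1)
  have := prob hb hΛ hsub hw' (n + 1)
  rw [integrable_prod_iff' (measurable_K R).aestronglyMeasurable]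
  constructor
  · filter_upwards [ae_mem hb hΛ hsub hw' (n + 1)] with η hη
    exact K_integrable hb hΛ hsub h0 h1 hw hη n
  · refine (U_integrable ha hb hΛ hsub h0 h1 hG hg hsymm hw hw' n).congr ?_
    filter_upwards [ae_mem hb hΛ hsub hw' (n + 1)] with η hη
    refine integral_congr_ae ?_
    filter_upwards [ae_mem hb hΛ hsub hw (n + 1), ae_ne hb hΛ hsub hw n η] with ξ hξ hξ2
    rw [Real.norm_eq_abs, abs_of_nonneg (K_nonneg h0 h1 (hsub hξ) (hsub hη) hξ2)]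

/-- the function which is swept out -/
noncomputable def FF' (Λ : Set ℂ) (g : ℂ → ℂ → ℝ) (w η : ℂ) : ℝ :=
  max 0 (Λ.indicator (fun η => g η w) η - Real.log ‖η - w‖)

theorem FF'_eq (ha : TaskPa) {G g : ℂ → ℂ → ℝ} (hΛ : IsOpen Λ)
    (hsub : Λ ⊆ closedBall 0 R₁) (hG : IsGreen Λ G) (hg : RegPart Λ G g) {w η : ℂ} (hw : w ∈ Λ)
    (hη : η ∈ Λ) (hne : η ≠ w) : FF' Λ g w η = G η w ∧ FF' Λ g w η = g η w - Real.log ‖η - w‖ := by
  obtain ⟨hup, hGpos, hlow⟩ := reg_bounds ha hΛ hsub ⟨w, hw⟩ hG hg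
  have h2 := hGpos η hη w hw hne
  have h3 := hg.eq η hη w hw hne
  have : FF' Λ g w η = g η w - Real.log ‖η - w‖ := by
    unfold FF'
    rw [indicator_of_mem hη, max_eq_right]
    rw [← h3]; exact h2
  exact ⟨by rw [this, h3], this⟩

theorem measurable_FF' {G g : ℂ → ℂ → ℝ} (hΛ : IsOpen Λ) (hg : RegPart Λ G g) {w : ℂ}
    (hw : w ∈ Λ) : Measurable (FF' Λ g w) := by
  unfold FF'
  have h1 : Measurable (Λ.indicator (fun η => g η w)) := by
    have h2 : ContinuousOn (fun η => g η w) Λ := (hg.harm w hw).continuousOn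
    classical
    rw [← Set.piecewise_eq_indicator]
    exact h2.measurable_piecewise continuousOn_const hΛ.measurableSet
  fun_prop

theorem FF'_tendsto (ha : TaskPa) (hb : TaskPb) {G g : ℂ → ℂ → ℝ} (hΛ : IsOpen Λ)
    (hsub : Λ ⊆ closedBall 0 R₁) (hG : IsGreen Λ G) (hg : RegPart Λ G g) {w w' : ℂ} (hw : w ∈ Λ)
    (hw' : w' ∈ Λ) : Tendsto (fun n => ∫ z, FF' Λ g w z ∂(sweep Λ w' (n + 1))) atTop (𝓝 0) := by
  obtain ⟨-, -, -, -, -, h6⟩ := hb Λ hΛ ⟨w, hw⟩ (isBounded_closedBall.subset hsub)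
  obtain ⟨hup, hGpos, hlow⟩ := reg_bounds ha hΛ hsub ⟨w, hw⟩ hG hg
  refine h6 (FF' Λ g w) (fun z _ => le_max_left _ _) (measurable_FF' hΛ hg hw) ?_ ?_ w' hw'
  · intro ξ hξ
    have hξ2 : ξ ∉ Λ := by
      intro h
      rw [hΛ.frontier_eq] at hξ
      exact hξ.2 h
    have hne : ξ ≠ w := fun h => hξ2 (h ▸ hw)
    refine (hG.boundary w hw ξ hξ).congr' ?_
    filter_upwards [self_mem_nhdsWithin,
      mem_nhdsWithin_of_mem_nhds (isOpen_ne.mem_nhds hne)] with x hx hx2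
    exact ((FF'_eq ha hΛ hsub hG hg hw hx hx2).1).symm
  · intro s hs
    have h1 : IntegrableOn (fun ξ => CC R₁ - Real.log ‖ξ - w‖) Λ := by
      have h3 : Λ ⊆ ball w (|2 * R₁| + 1) := by
        intro x hx
        have e1 := hsub hx
        have e2 := hsub hw
        rw [mem_closedBall_zero_iff] at e1 e2
        rw [mem_ball, dist_eq_norm]
        have e3 := norm_sub_le x w
        have e4 := le_abs_self (2 * R₁)
        linarith
      refine ⟨Measurable.aestronglyMeasurable (by fun_prop), ?_⟩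
      rw [hasFiniteIntegral_iff_ofReal]
      · refine (lintegral_mono_set h3).trans_lt ?_
        exact (ball_log_ne_top _ _ _ (by positivity)).lt_top
      · refine (ae_restrict_iff' hΛ.measurableSet).2 (Eventually.of_forall fun ξ hξ => ?_)
        have := log_le_CC (hsub hξ) (hsub hw)
        simp only [Pi.zero_apply]
        linarith
    have h4 : {z ∈ Λ | s ≤ infDist z Λᶜ} ⊆ Λ := fun z hz => hz.1
    have hms : MeasurableSet {z ∈ Λ | s ≤ infDist z Λᶜ} := by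
      refine hΛ.measurableSet.inter ?_
      exact measurableSet_le measurable_const (measurable_infDist)
    refine (h1.mono_set h4).mono' (measurable_FF' hΛ hg hw).aestronglyMeasurable ?_
    refine (ae_restrict_iff' hms).2 (Eventually.of_forall fun ξ hξ => ?_)
    have h5 := log_le_CC (hsub hξ.1) (hsub hw)
    have h6 := hup ξ hξ.1 w hw
    unfold FF'
    rw [indicator_of_mem hξ.1, Real.norm_eq_abs, abs_of_nonneg (le_max_left _ _)]
    apply max_le <;> linarith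

theorem J_tendsto (ha : TaskPa) (hb : TaskPb) {G g : ℂ → ℂ → ℝ} (hΛ : IsOpen Λ)
    (hsub : Λ ⊆ closedBall 0 R₁) (h0 : 0 < R₁)
    (h1 : R₁ < R) (hG : IsGreen Λ G) (hg : RegPart Λ G g)
    (hsymm : ∀ x ∈ Λ, ∀ y ∈ Λ, g x y = g y x) {w w' : ℂ} (hw : w ∈ Λ) (hw' : w' ∈ Λ) :
    Tendsto (fun n => ∫ p, K (gD R) p.1 p.2 ∂((sweep Λ w (n + 1)).prod (sweep Λ w' (n + 1)))) atTop
      (𝓝 (gD R w w' - g w w')) := by
  have e1 : ∀ n, ∫ p, K (gD R) p.1 p.2 ∂((sweep Λ w (n + 1)).prod (sweep Λ w' (n + 1))) =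
      ∫ η, ∫ ξ, K (gD R) ξ η ∂(sweep Λ w (n + 1)) ∂(sweep Λ w' (n + 1)) := by
    intro n
    have := prob hb hΛ hsub hw (n + 1)
    have := prob hb hΛ hsub hw' (n + 1)
    exact integral_prod_symm _ (K_prod_integrable ha hb hΛ hsub h0 h1 hG hg hsymm hw hw' n)
  have e2 : gD R w w' - g w w' = gD R w' w - g w' w := by
    rw [gD_symm R w w', hsymm w hw w' hw']
  have hlim : Tendsto (fun n => (gD R w w' - g w w') + ∫ z, FF' Λ g w z ∂(sweep Λ w' (n + 1)))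
      atTop (𝓝 (gD R w w' - g w w')) := by
    have := (FF'_tendsto ha hb hΛ hsub hG hg hw hw').const_add (gD R w w' - g w w')
    simpa using this
  refine tendsto_of_tendsto_of_tendsto_of_le_of_le tendsto_const_nhds hlim ?_ ?_
  · intro n
    beta_reduce
    rw [e1 n, e2]
    obtain ⟨hi, he⟩ := k_integrable ha hb hΛ hsub h0 h1 hG hg hw' hw (n + 1)
    rw [← he]
    refine integral_mono_ae hi (U_integrable ha hb hΛ hsub h0 h1 hG hg hsymm hw hw' n) ?_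
    filter_upwards [ae_mem hb hΛ hsub hw' (n + 1)] with η hη
    have h2 := U_lower ha hb hΛ hsub h0 h1 hG hg hw hη n
    rw [gD_symm R w η, hsymm w hw η hη] at h2
    exact h2
  · intro n
    beta_reduce
    rw [e1 n, e2]
    obtain ⟨hi, he⟩ := k_integrable ha hb hΛ hsub h0 h1 hG hg hw' hw (n + 1)
    have hK := K_integrable hb hΛ hsub h0 h1 hw' hw n
    have hF : Integrable (FF' Λ g w) (sweep Λ w' (n + 1)) := by
      refine (hK.sub hi).congr ?_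
      filter_upwards [ae_mem hb hΛ hsub hw' (n + 1), ae_ne hb hΛ hsub hw' n w] with η hη hη2
      rw [(FF'_eq ha hΛ hsub hG hg hw hη hη2).2]
      simp only [Pi.sub_apply, K]
      ring
    rw [← he, ← integral_add hi hF]
    refine integral_mono_ae (U_integrable ha hb hΛ hsub h0 h1 hG hg hsymm hw hw' n)
      (hi.add hF) ?_
    filter_upwards [ae_mem hb hΛ hsub hw' (n + 1), ae_ne hb hΛ hsub hw' n w] with η hη hη2
    have h3 := U_upper hb hΛ hsub h0 h1 hw hη n (Ne.symm hη2)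
    rw [(FF'_eq ha hΛ hsub hG hg hw hη hη2).2]
    refine h3.trans (le_of_eq ?_)
    unfold K
    rw [gD_symm R w η, norm_sub_rev]
    ring

end basics

end Pool.Agent.H836_PV.PdAux

namespace Pool.Agent.H836_PV

/-- TASK Pd -/
theorem taskPd (ha : TaskPa) (hb : TaskPb) (hc : TaskPc) : TaskPd := by
  intro Λ G g R R₁ hΛ hne hG hg h0 h1 hsub n w b hw
  have hbdd := isBounded_closedBall.subset hsub
  have hsymm := hc Λ G g hΛ hne hbdd hG hg
  have key : ∀ i j, Tendsto (fun N => ∫ p, K (gD R) p.1 p.2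
      ∂((sweep Λ (w i) (N + 1)).prod (sweep Λ (w j) (N + 1)))) atTop
      (𝓝 (gD R (w i) (w j) - g (w i) (w j))) := fun i j =>
    PdAux.J_tendsto ha hb hΛ hsub h0 h1 hG hg hsymm (hw i) (hw j)
  have hlim : Tendsto (fun N => ∑ i, ∑ j, b i * b j * ∫ p, K (gD R) p.1 p.2
      ∂((sweep Λ (w i) (N + 1)).prod (sweep Λ (w j) (N + 1)))) atTop
      (𝓝 (∑ i, ∑ j, b i * b j * (gD R (w i) (w j) - g (w i) (w j)))) :=
    tendsto_finsetSum _ fun i _ => tendsto_finsetSum _ fun j _ => (key i j).const_mul _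
  refine ge_of_tendsto' hlim fun N => ?_
  have : ∀ i, IsProbabilityMeasure (sweep Λ (w i) (N + 1)) := fun i =>
    PdAux.prob hb hΛ hsub (hw i) (N + 1)
  exact PdAux.GD_psd (fun i => sweep Λ (w i) (N + 1)) h0 h1
    (fun i => PdAux.ae_ball hb hΛ hsub (hw i) (N + 1)) b
    (fun i j => PdAux.ae_diag hb hΛ hsub (hw i) (hw j) N)
    (fun i j => PdAux.K_prod_integrable ha hb hΛ hsub h0 h1 hG hg hsymm (hw i) (hw j) N)

end Pool.Agent.H836_PV
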