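import Pool.Agent.H836_PV.Pe1

/-!
# Task Pe: joint smoothness of separately harmonic functions
-/

open MeasureTheory Filter Topology Set Metric

namespace Pool.Agent.H836_PV

/-- the mollifier on `ℂ × ℂ` -/
noncomputable def mo2 (z : ℂ × ℂ) : ℝ := mo z.1 * mo z.2

lemma mo2_contDiff : ContDiff ℝ (⊤ : ℕ∞) mo2 :=
  (mo_contDiff.comp contDiff_fst).mul (mo_contDiff.comp contDiff_snd)

lemma mo2_zero {z : ℂ × ℂ} (hz : 1 / 2 < ‖z‖) : mo2 z = 0 := by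
  rw [Prod.norm_def, lt_max_iff] at hz
  rcases hz with h | h
  · rw [mo2, mo_zero h.le, zero_mul]
  · rw [mo2, mo_zero h.le, mul_zero]

lemma mo2_compact : HasCompactSupport mo2 := by
  refine HasCompactSupport.intro (isCompact_closedBall (0 : ℂ × ℂ) (1 / 2)) fun z hz => ?_
  rw [mem_closedBall, dist_zero_right, not_le] at hz
  exact mo2_zero hz

/-- separately harmonic and locally bounded implies continuous -/
lemma sep_continuousAt {w : ℂ → ℂ → ℝ} {x₀ y₀ : ℂ} {ρ K : ℝ} (hρ : 0 < ρ)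
    (h1 : ∀ y ∈ ball y₀ ρ, InnerProductSpace.HarmonicOnNhd (fun x => w x y) (ball x₀ ρ))
    (h2 : ∀ x ∈ ball x₀ ρ, InnerProductSpace.HarmonicOnNhd (fun y => w x y) (ball y₀ ρ))
    (hK : ∀ x ∈ ball x₀ ρ, ∀ y ∈ ball y₀ ρ, |w x y| ≤ K) :
    ContinuousAt (fun p : ℂ × ℂ => w p.1 p.2) (x₀, y₀) := by
  obtain ⟨C, hC, hb⟩ := harm_bounds
  have hx₀ : x₀ ∈ ball x₀ (ρ / 2) := mem_ball_self (by positivity)
  have hy₀ : y₀ ∈ ball y₀ (ρ / 2) := mem_ball_self (by positivity)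
  have hsub : ∀ c : ℂ, ball c (ρ / 2) ⊆ ball c ρ := fun c => ball_subset_ball (by linarith)
  have key : ∀ᶠ p : ℂ × ℂ in 𝓝 (x₀, y₀), dist (w p.1 p.2) (w x₀ y₀) ≤
      C * K / ρ * ‖p.1 - x₀‖ + C * K / ρ * ‖p.2 - y₀‖ := by
    have h3 : ball x₀ (ρ / 2) ×ˢ ball y₀ (ρ / 2) ∈ 𝓝 (x₀, y₀) :=
      prod_mem_nhds (ball_mem_nhds _ (by positivity)) (ball_mem_nhds _ (by positivity))
    filter_upwards [h3] with p hp
    have h4 := (hb (fun x => w x p.2) x₀ ρ K hρ (h1 p.2 (hsub _ hp.2))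
      (fun x hx => hK x hx p.2 (hsub _ hp.2))).2 p.1 hp.1 x₀ hx₀
    have h5 := (hb (fun y => w x₀ y) y₀ ρ K hρ (h2 x₀ (hsub _ hx₀))
      (fun y hy => hK x₀ (hsub _ hx₀) y hy)).2 p.2 hp.2 y₀ hy₀
    calc dist (w p.1 p.2) (w x₀ y₀) ≤ dist (w p.1 p.2) (w x₀ p.2) + dist (w x₀ p.2) (w x₀ y₀) :=
          dist_triangle _ _ _
      _ ≤ _ := add_le_add h4 h5
  rw [ContinuousAt, tendsto_iff_dist_tendsto_zero]
  refine squeeze_zero' (Eventually.of_forall fun _ => dist_nonneg) key ?_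
  have h6 : Continuous (fun p : ℂ × ℂ => C * K / ρ * ‖p.1 - x₀‖ + C * K / ρ * ‖p.2 - y₀‖) := by
    fun_prop
  have h7 := h6.tendsto (x₀, y₀)
  simpa using h7

lemma ball_mem_of_half {x₀ x y : ℂ} {r : ℝ} (hx : x ∈ ball x₀ (r / 2))
    (hy : y ∈ closedBall x (r / 2)) : y ∈ ball x₀ r := by
  rw [mem_ball, dist_eq_norm] at hx ⊢
  rw [mem_closedBall, dist_eq_norm] at hy
  calc ‖y - x₀‖ ≤ ‖y - x‖ + ‖x - x₀‖ := norm_sub_le_norm_sub_add_norm_sub _ _ _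
    _ < r := by linarith

/-- mean value property in both variables -/
lemma mo2_mean {w : ℂ → ℂ → ℝ} {x₀ y₀ : ℂ} {r : ℝ} (hr : 0 < r)
    (h1 : ∀ y ∈ ball y₀ r, InnerProductSpace.HarmonicOnNhd (fun x => w x y) (ball x₀ r))
    (h2 : ∀ x ∈ ball x₀ r, InnerProductSpace.HarmonicOnNhd (fun y => w x y) (ball y₀ r))
    (hc : ContinuousOn (fun p : ℂ × ℂ => w p.1 p.2) (ball (x₀, y₀) r)) {p : ℂ × ℂ}
    (hp : p ∈ ball (x₀, y₀) (r / 2)) :
    ∫ z : ℂ × ℂ, w (p - r • z).1 (p - r • z).2 * mo2 z = w p.1 p.2 := by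
  have hp1 : p.1 ∈ ball x₀ (r / 2) ∧ p.2 ∈ ball y₀ (r / 2) := by
    rw [← ball_prod_same] at hp
    exact ⟨hp.1, hp.2⟩
  have hmem : ∀ z ∈ closedBall (0 : ℂ × ℂ) (1 / 2), p - r • z ∈ ball (x₀, y₀) r := by
    intro z hz
    rw [mem_closedBall, dist_zero_right] at hz
    rw [mem_ball, dist_eq_norm] at hp ⊢
    calc ‖p - r • z - (x₀, y₀)‖ = ‖(p - (x₀, y₀)) - r • z‖ := by congr 1; abel
      _ ≤ ‖p - (x₀, y₀)‖ + ‖r • z‖ := norm_sub_le _ _
      _ < r := by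
        rw [norm_smul, Real.norm_of_nonneg hr.le]
        nlinarith
  have hint : Integrable (fun z : ℂ × ℂ => w (p - r • z).1 (p - r • z).2 * mo2 z) := by
    rw [← integrableOn_iff_integrable_of_support_subset (s := closedBall (0 : ℂ × ℂ) (1 / 2))]
    · refine ContinuousOn.integrableOn_compact (isCompact_closedBall _ _) ?_
      refine ContinuousOn.mul ?_ mo2_contDiff.continuous.continuousOn
      exact hc.comp (f := fun z : ℂ × ℂ => p - r • z) (by fun_prop) hmem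
    · intro z hz
      by_contra hz1
      rw [mem_closedBall, dist_zero_right, not_le] at hz1
      exact hz (by simp only [mo2_zero hz1, mul_zero])
  rw [Measure.volume_eq_prod] at hint ⊢
  rw [integral_prod _ hint]
  have h3 : ∀ x : ℂ, ∫ y : ℂ, w (p - r • ((x, y) : ℂ × ℂ)).1 (p - r • ((x, y) : ℂ × ℂ)).2 *
      mo2 (x, y) = w (p.1 - r • x) p.2 * mo x := by
    intro x
    by_cases hx : 1 / 2 ≤ ‖x‖
    · simp only [mo2, mo_zero hx, zero_mul, mul_zero, integral_zero]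
    · have hx1 : p.1 - r • x ∈ ball x₀ r := by
        refine ball_mem_of_half hp1.1 ?_
        rw [mem_closedBall, dist_eq_norm, sub_sub_cancel_left, norm_neg, norm_smul,
          Real.norm_of_nonneg hr.le]
        nlinarith
      have h4 : ∫ y : ℂ, w (p.1 - r • x) (p.2 - r • y) * mo y = w (p.1 - r • x) p.2 := by
        refine mo_mean (u := fun y => w (p.1 - r • x) y) hr ((h2 _ hx1).mono ?_)
        intro y hy
        exact ball_mem_of_half hp1.2 hy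
      rw [← h4, ← integral_mul_const]
      congr 1
      ext y
      simp only [mo2, Prod.fst_sub, Prod.snd_sub, Prod.smul_fst, Prod.smul_snd]
      ring
  simp only [h3]
  refine mo_mean (u := fun x => w x p.2) hr ((h1 p.2 ?_).mono ?_)
  · exact ball_subset_ball (by linarith) hp1.2
  · intro x hx
    exact ball_mem_of_half hp1.1 hx

theorem taskPe : TaskPe := by
  have : (volume : Measure (ℂ × ℂ)).IsAddHaarMeasure := by
    rw [Measure.volume_eq_prod]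
    infer_instance
  obtain ⟨C, hC, hm⟩ := moll (volume : Measure (ℂ × ℂ)) mo2_contDiff mo2_compact
    (fun z hz => mo2_zero hz)
  refine ⟨C, hC, fun Λ w hΛ h1 h2 hb => ?_⟩
  -- continuity
  have hcA : ∀ p ∈ Λ ×ˢ Λ, ContinuousAt (fun p : ℂ × ℂ => w p.1 p.2) p := by
    rintro ⟨x, y⟩ ⟨hx, hy⟩
    obtain ⟨ρ₀, hρ₀, K, hK⟩ := hb x hx y hy
    obtain ⟨ρ₁, hρ₁, hs1⟩ := Metric.isOpen_iff.1 hΛ x hx
    obtain ⟨ρ₂, hρ₂, hs2⟩ := Metric.isOpen_iff.1 hΛ y hy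
    have hρ : 0 < min ρ₀ (min ρ₁ ρ₂) := by positivity
    have e0 : min ρ₀ (min ρ₁ ρ₂) ≤ ρ₀ := min_le_left _ _
    have e1 : min ρ₀ (min ρ₁ ρ₂) ≤ ρ₁ := (min_le_right _ _).trans (min_le_left _ _)
    have e2 : min ρ₀ (min ρ₁ ρ₂) ≤ ρ₂ := (min_le_right _ _).trans (min_le_right _ _)
    refine sep_continuousAt (K := K) hρ ?_ ?_ ?_
    · intro y' hy'
      exact (h1 y' (hs2 (ball_subset_ball e2 hy'))).mono ((ball_subset_ball e1).trans hs1)
    · intro x' hx'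
      exact (h2 x' (hs1 (ball_subset_ball e1 hx'))).mono ((ball_subset_ball e2).trans hs2)
    · intro x' hx' y' hy'
      exact hK x' (ball_subset_ball e0 hx') y' (ball_subset_ball e0 hy')
  have hcO : ContinuousOn (fun p : ℂ × ℂ => w p.1 p.2) (Λ ×ˢ Λ) :=
    fun p hp => (hcA p hp).continuousWithinAt
  -- main step
  have main : ∀ x₀ y₀ r K, 0 < r → ball x₀ r ⊆ Λ → ball y₀ r ⊆ Λ →
      (∀ x ∈ ball x₀ r, ∀ y ∈ ball y₀ r, |w x y| ≤ K) →
      (∀ p ∈ ball (x₀, y₀) (r / 2), ContDiffAt ℝ (⊤ : ℕ∞) (fun p : ℂ × ℂ => w p.1 p.2) p) ∧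
      HessOn (ball (x₀, y₀) (r / 2)) (fun p : ℂ × ℂ => w p.1 p.2)
        (D1 (fun p : ℂ × ℂ => w p.1 p.2)) (D2 (fun p : ℂ × ℂ => w p.1 p.2)) (C * K / r ^ 3) := by
    intro x₀ y₀ r K hr hx hy hK
    have hsub : ball (x₀, y₀) r ⊆ Λ ×ˢ Λ := by
      rw [← ball_prod_same]
      exact prod_mono hx hy
    have hcB : ContinuousOn (fun p : ℂ × ℂ => w p.1 p.2) (ball (x₀, y₀) r) := hcO.mono hsub
    obtain ⟨a1, a2, _⟩ := hm (fun p : ℂ × ℂ => w p.1 p.2) (x₀, y₀) r K hr hcB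
      (by
        intro p hp
        rw [← ball_prod_same] at hp
        exact hK p.1 hp.1 p.2 hp.2)
      (fun p hp => mo2_mean hr (fun y hy' => (h1 y (hy hy')).mono hx)
        (fun x hx' => (h2 x (hx hx')).mono hy) hcB hp)
    exact ⟨a1, a2⟩
  constructor
  · rintro ⟨x, y⟩ ⟨hx, hy⟩
    obtain ⟨ρ₀, hρ₀, K, hK⟩ := hb x hx y hy
    obtain ⟨ρ₁, hρ₁, hs1⟩ := Metric.isOpen_iff.1 hΛ x hx
    obtain ⟨ρ₂, hρ₂, hs2⟩ := Metric.isOpen_iff.1 hΛ y hy
    have hρ : 0 < min ρ₀ (min ρ₁ ρ₂) := by positivity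
    have e0 : min ρ₀ (min ρ₁ ρ₂) ≤ ρ₀ := min_le_left _ _
    have e1 : min ρ₀ (min ρ₁ ρ₂) ≤ ρ₁ := (min_le_right _ _).trans (min_le_left _ _)
    have e2 : min ρ₀ (min ρ₁ ρ₂) ≤ ρ₂ := (min_le_right _ _).trans (min_le_right _ _)
    have h3 := (main x y _ K hρ ((ball_subset_ball e1).trans hs1)
      ((ball_subset_ball e2).trans hs2) (fun x' hx' y' hy' =>
        hK x' (ball_subset_ball e0 hx') y' (ball_subset_ball e0 hy'))).1 (x, y)
        (mem_ball_self (by positivity))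
    exact (h3.of_le ENat.LEInfty.out).contDiffWithinAt
  · intro x₀ y₀ r K hr hx hy hK
    rw [ball_prod_same]
    exact (main x₀ y₀ r K hr hx hy hK).2

end Pool.Agent.H836_PV
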