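import Pool.Agent.H836_PV.Pe0

/-!
# Task Pe1: radial mollifier, mean value property, one variable version
-/

open MeasureTheory Filter Topology Set Metric

namespace Pool.Agent.H836_PV

/-- integral in polar coordinates of a function with the circle mean value property against a
radial function -/
lemma radial_integral {u : ℂ → ℝ} {x : ℂ} {r : ℝ} (hr : 0 < r)
    (hu : ContinuousOn u (closedBall x (r / 2)))
    (hm : ∀ s, 0 < s → s ≤ 1 / 2 → Real.circleAverage u x (r * s) = u x) {ψ : ℝ → ℝ}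
    (hψ : Continuous ψ) (hψ0 : ∀ s, 1 / 2 < s → ψ s = 0) :
    ∫ z : ℂ, u (x + r • z) * ψ ‖z‖ = u x * (2 * Real.pi * ∫ s in Ioi (0 : ℝ), s * ψ s) := by
  rw [← Complex.integral_comp_polarCoord_symm]
  have h1 : polarCoord.target = Ioi (0 : ℝ) ×ˢ Ioo (-Real.pi) Real.pi := rfl
  -- the integrand
  obtain ⟨G, hG⟩ : ∃ G : ℝ × ℝ → ℝ, G = fun p => p.1 * (u (circleMap x (r * p.1) p.2) * ψ p.1) :=
    ⟨_, rfl⟩
  have h2 : ∀ p ∈ polarCoord.target, p.1 • (u (x + r • Complex.polarCoord.symm p) *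
      ψ ‖Complex.polarCoord.symm p‖) = G p := by
    intro p hp
    rw [h1] at hp
    rw [Complex.norm_polarCoord_symm, abs_of_pos hp.1, hG, smul_eq_mul]
    have h3 : x + r • Complex.polarCoord.symm p = circleMap x (r * p.1) p.2 := by
      rw [circleMap, Complex.polarCoord_symm_apply, Complex.exp_mul_I]
      simp
      ring
    rw [h3]
  rw [setIntegral_congr_fun (by rw [h1]; exact measurableSet_Ioi.prod measurableSet_Ioo) h2, h1]
  have hint : IntegrableOn G (Ioi (0 : ℝ) ×ˢ Ioo (-Real.pi) Real.pi) := by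
    have h4 : IntegrableOn G (Icc (0 : ℝ) (1 / 2) ×ˢ Icc (-Real.pi) Real.pi) := by
      refine ContinuousOn.integrableOn_compact (isCompact_Icc.prod isCompact_Icc) ?_
      rw [hG]
      refine continuousOn_fst.mul (ContinuousOn.mul ?_ (hψ.comp continuous_fst).continuousOn)
      refine hu.comp ?_ ?_
      · unfold circleMap
        fun_prop
      · intro p hp
        change circleMap x (r * p.1) p.2 ∈ closedBall x (r / 2)
        rw [mem_closedBall, dist_eq_norm, circleMap, add_sub_cancel_left, norm_mul,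
          Complex.norm_exp_ofReal_mul_I, mul_one, Complex.norm_real, Real.norm_eq_abs,
          abs_of_nonneg (mul_nonneg hr.le hp.1.1)]
        have := hp.1.2
        nlinarith
    have h5 : IntegrableOn G (Icc (0 : ℝ) (1 / 2) ×ˢ Icc (-Real.pi) Real.pi ∪
        (Ioi (1 / 2 : ℝ) ×ˢ (univ : Set ℝ))) := by
      refine h4.union ?_
      refine (integrableOn_zero (μ := volume) (s := Ioi (1 / 2 : ℝ) ×ˢ (univ : Set ℝ))).congr_fun ?_
        (measurableSet_Ioi.prod MeasurableSet.univ)
      intro p hp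
      simp [hG, hψ0 p.1 hp.1]
    refine h5.mono_set ?_
    intro p hp
    by_cases hp1 : p.1 ≤ 1 / 2
    · exact Or.inl ⟨⟨le_of_lt hp.1, hp1⟩, ⟨hp.2.1.le, hp.2.2.le⟩⟩
    · exact Or.inr ⟨not_le.1 hp1, mem_univ _⟩
  rw [Measure.volume_eq_prod] at hint ⊢
  rw [setIntegral_prod _ hint]
  have h6 : ∀ s ∈ Ioi (0 : ℝ), ∫ θ in Ioo (-Real.pi) Real.pi, G (s, θ) =
      u x * (2 * Real.pi) * (s * ψ s) := by
    intro s hs
    by_cases hs1 : s ≤ 1 / 2
    · have h7 : ∫ θ in Ioo (-Real.pi) Real.pi, G (s, θ) =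
          (s * ψ s) * ∫ θ in Ioo (-Real.pi) Real.pi, u (circleMap x (r * s) θ) := by
        rw [← integral_const_mul]
        congr 1
        ext θ
        simp [hG]
        ring
      have h8 : ∫ θ in Ioo (-Real.pi) Real.pi, u (circleMap x (r * s) θ) =
          2 * Real.pi * u x := by
        rw [← integral_Ioc_eq_integral_Ioo, ← intervalIntegral.integral_of_le
          (by linarith [Real.pi_pos])]
        have h9 := ((periodic_circleMap x (r * s)).comp u).intervalIntegral_add_eq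
          (-Real.pi) 0
        have h10 := hm s hs hs1
        rw [Real.circleAverage_def] at h10
        have h11 : -Real.pi + 2 * Real.pi = Real.pi := by ring
        rw [h11, zero_add] at h9
        have h12 : ∫ θ in (-Real.pi)..Real.pi, u (circleMap x (r * s) θ) =
          ∫ θ in 0..2 * Real.pi, u (circleMap x (r * s) θ) := h9
        rw [h12, ← h10, smul_eq_mul]
        have := Real.pi_pos
        field_simp
      rw [h7, h8]
      ring
    · have h13 : ψ s = 0 := hψ0 s (not_le.1 hs1)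
      simp [hG, h13]
  rw [setIntegral_congr_fun measurableSet_Ioi h6, integral_const_mul]
  ring

/-- the radial profile -/
noncomputable def prof (s : ℝ) : ℝ := expNegInvGlue (1 / 4 - s ^ 2)

lemma prof_eq_zero {s : ℝ} (hs : 1 / 2 ≤ s) : prof s = 0 :=
  expNegInvGlue.zero_of_nonpos (by nlinarith)

lemma prof_nonneg (s : ℝ) : 0 ≤ prof s := expNegInvGlue.nonneg _

lemma prof_continuous : Continuous prof :=
  expNegInvGlue.contDiff.continuous (n := 0) |>.comp (by fun_prop)

/-- the (unnormalised) mollifier on `ℂ` -/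
noncomputable def mo0 (z : ℂ) : ℝ := prof ‖z‖

lemma mo0_contDiff : ContDiff ℝ (⊤ : ℕ∞) mo0 := by
  unfold mo0 prof
  exact expNegInvGlue.contDiff.comp (contDiff_const.sub (contDiff_norm_sq ℝ))

lemma mo0_zero {z : ℂ} (hz : 1 / 2 ≤ ‖z‖) : mo0 z = 0 := prof_eq_zero hz

lemma mo0_compact : HasCompactSupport mo0 := by
  refine HasCompactSupport.intro (isCompact_closedBall (0 : ℂ) (1 / 2)) fun z hz => ?_
  rw [mem_closedBall, dist_zero_right, not_le] at hz
  exact mo0_zero hz.le

lemma mo0_integral_pos : 0 < ∫ z, mo0 z := by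
  refine mo0_contDiff.continuous.integral_pos_of_hasCompactSupport_nonneg_nonzero mo0_compact
    (fun z => prof_nonneg _) (x := 0) ?_
  rw [mo0, norm_zero, prof]
  exact (expNegInvGlue.pos_of_pos (by norm_num)).ne'

/-- the mollifier on `ℂ` -/
noncomputable def mo (z : ℂ) : ℝ := (∫ z, mo0 z)⁻¹ * mo0 z

lemma mo_contDiff : ContDiff ℝ (⊤ : ℕ∞) mo := contDiff_const.mul mo0_contDiff

lemma mo_zero {z : ℂ} (hz : 1 / 2 ≤ ‖z‖) : mo z = 0 := by rw [mo, mo0_zero hz, mul_zero]

lemma mo_compact : HasCompactSupport mo := by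
  refine HasCompactSupport.intro (isCompact_closedBall (0 : ℂ) (1 / 2)) fun z hz => ?_
  rw [mem_closedBall, dist_zero_right, not_le] at hz
  exact mo_zero hz.le

/-- mean value property -/
lemma mo_mean {u : ℂ → ℝ} {x : ℂ} {r : ℝ} (hr : 0 < r)
    (hu : InnerProductSpace.HarmonicOnNhd u (closedBall x (r / 2))) :
    ∫ z, u (x - r • z) * mo z = u x := by
  have hm : ∀ s, 0 < s → s ≤ 1 / 2 → Real.circleAverage u x (r * s) = u x := by
    intro s hs hs1
    refine InnerProductSpace.HarmonicOnNhd.circleAverage_eq (hu.mono ?_)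
    rw [abs_of_pos (by positivity)]
    exact closedBall_subset_closedBall (by nlinarith)
  have h1 := radial_integral hr hu.continuousOn hm prof_continuous (fun s hs => prof_eq_zero hs.le)
  have h2 := radial_integral (u := fun _ => 1) (x := x) hr continuousOn_const
    (fun s _ _ => Real.circleAverage_const 1 x (r * s)) prof_continuous (fun s hs => prof_eq_zero hs.le)
  have h3 : ∫ z : ℂ, u (x - r • z) * mo z = ∫ z : ℂ, u (x + r • z) * mo z := by
    rw [← integral_neg_eq_self]
    congr 1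
    ext z
    simp [mo, mo0]
  have h4 : ∫ z : ℂ, u (x + r • z) * mo z = (∫ z, mo0 z)⁻¹ * ∫ z : ℂ, u (x + r • z) * prof ‖z‖ := by
    rw [← integral_const_mul]
    congr 1
    ext z
    rw [mo, mo0]
    ring
  have h5 : ∫ z, mo0 z = 2 * Real.pi * ∫ s in Ioi (0 : ℝ), s * prof s := by
    rw [one_mul] at h2
    rw [← h2]
    congr 1
    ext z
    rw [one_mul, mo0]
  rw [h3, h4, h1, ← h5]
  have := mo0_integral_pos
  field_simp

/-- one variable: bounds -/
lemma harm_bounds : ∃ C : ℝ, 0 < C ∧ ∀ (u : ℂ → ℝ) (x₀ : ℂ) (r K : ℝ), 0 < r →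
    InnerProductSpace.HarmonicOnNhd u (ball x₀ r) → (∀ x ∈ ball x₀ r, |u x| ≤ K) →
    HessOn (ball x₀ (r / 2)) u (D1 u) (D2 u) (C * K / r ^ 3) ∧
    ∀ p ∈ ball x₀ (r / 2), ∀ q ∈ ball x₀ (r / 2), |u p - u q| ≤ C * K / r * ‖p - q‖ := by
  obtain ⟨C, hC, h⟩ := moll volume mo_contDiff mo_compact (fun z hz => mo_zero hz.le)
  refine ⟨C, hC, fun u x₀ r K hr hu hK => ?_⟩
  refine (h u x₀ r K hr hu.continuousOn hK fun p hp => mo_mean hr (hu.mono ?_)).2
  intro y hy
  rw [mem_ball, dist_eq_norm] at hp ⊢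
  rw [mem_closedBall, dist_eq_norm] at hy
  calc ‖y - x₀‖ ≤ ‖y - p‖ + ‖p - x₀‖ := norm_sub_le_norm_sub_add_norm_sub _ _ _
    _ < r := by linarith

theorem taskPe1 : TaskPe1 := by
  obtain ⟨C, hC, h⟩ := harm_bounds
  exact ⟨C, hC, fun u x₀ r K hr hu hK => (h u x₀ r K hr hu hK).1⟩

end Pool.Agent.H836_PV
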