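import Pool.Agent.H836_PV.StmtsP

open MeasureTheory Filter Topology Set Metric

namespace Pool.Agent.H836_PV

/-- symmetric second difference quotient -/
theorem pf_sd {V : Type*} [NormedAddCommGroup V] [NormedSpace ℝ V] {f : V → ℝ} {p : V}
    (hf : ContDiffAt ℝ 2 f p) (v : V) :
    Tendsto (fun t : ℝ => (f (p + t • v) + f (p + (-t) • v) - 2 * f p) / t ^ 2) (𝓝[≠] 0)
      (𝓝 (D2 f p v v)) := by
  have hd : ∀ᶠ x in 𝓝 p, DifferentiableAt ℝ f x := by
    have := hf.eventually (by simp)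
    filter_upwards [this] with x hx using hx.differentiableAt (by norm_num)
  have h2 : HasFDerivAt (fderiv ℝ f) (fderiv ℝ (fderiv ℝ f) p) p := by
    have : ContDiffAt ℝ 1 (fderiv ℝ f) p := hf.fderiv_right (by norm_num)
    exact (this.differentiableAt (by norm_num)).hasFDerivAt
  have hline : ∀ t : ℝ, HasDerivAt (fun t : ℝ => p + t • v) v t := by
    intro t
    have := ((hasDerivAt_id t).smul_const v).const_add p
    simpa using this
  have hline' : ∀ t : ℝ, HasDerivAt (fun t : ℝ => p + (-t) • v) (-v) t := by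
    intro t
    have := (((hasDerivAt_id t).neg).smul_const v).const_add p
    simpa using this
  have hcont : Tendsto (fun t : ℝ => p + t • v) (𝓝 0) (𝓝 p) := by
    have := (hline 0).continuousAt.tendsto
    simpa using this
  have hcont' : Tendsto (fun t : ℝ => p + (-t) • v) (𝓝 0) (𝓝 p) := by
    have := (hline' 0).continuousAt.tendsto
    simpa using this
  have hfc : ContinuousAt f p := hf.continuousAt
  apply HasDerivAt.lhopital_zero_nhdsNE
    (f' := fun t => fderiv ℝ f (p + t • v) v - fderiv ℝ f (p + (-t) • v) v)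
    (g' := fun t => 2 * t)
  · have e1 := hcont.eventually hd
    have e2 := hcont'.eventually hd
    refine Filter.Eventually.filter_mono nhdsWithin_le_nhds ?_
    filter_upwards [e1, e2] with t h1 h2
    have d1 := h1.hasFDerivAt.comp_hasDerivAt t (hline t)
    have d2 := h2.hasFDerivAt.comp_hasDerivAt t (hline' t)
    have d3 := (d1.add d2).sub_const (2 * f p)
    refine d3.congr_deriv ?_
    rw [map_neg]; ring
  · refine Filter.Eventually.of_forall fun t => ?_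
    have := hasDerivAt_pow 2 t
    simpa using this
  · filter_upwards [self_mem_nhdsWithin] with t ht
    simpa using ht
  · have : Tendsto (fun t : ℝ => f (p + t • v) + f (p + (-t) • v) - 2 * f p) (𝓝 0)
        (𝓝 (f p + f p - 2 * f p)) :=
      ((hfc.tendsto.comp hcont).add (hfc.tendsto.comp hcont')).sub tendsto_const_nhds
    have e : f p + f p - 2 * f p = 0 := by ring
    rw [e] at this
    exact this.mono_left nhdsWithin_le_nhds
  · have : Tendsto (fun t : ℝ => t ^ 2) (𝓝 0) (𝓝 (0 ^ 2)) := (continuous_pow 2).tendsto 0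
    simp at this
    exact this.mono_left nhdsWithin_le_nhds
  · have h2' : HasFDerivAt (fderiv ℝ f) (fderiv ℝ (fderiv ℝ f) p) (p + (0 : ℝ) • v) := by simpa using h2
    have h2'' : HasFDerivAt (fderiv ℝ f) (fderiv ℝ (fderiv ℝ f) p) (p + (-(0 : ℝ)) • v) := by
      simpa using h2
    have k01 : HasDerivAt (fun t : ℝ => fderiv ℝ f (p + t • v)) (fderiv ℝ (fderiv ℝ f) p v) 0 :=
      h2'.comp_hasDerivAt (0 : ℝ) (hline 0)
    have k02 : HasDerivAt (fun t : ℝ => fderiv ℝ f (p + (-t) • v)) (fderiv ℝ (fderiv ℝ f) p (-v)) 0 :=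
      h2''.comp_hasDerivAt (0 : ℝ) (hline' 0)
    have k1 : HasDerivAt (fun t : ℝ => fderiv ℝ f (p + t • v) v) (fderiv ℝ (fderiv ℝ f) p v v) 0 :=
      (ContinuousLinearMap.apply ℝ ℝ v).hasFDerivAt.comp_hasDerivAt (0:ℝ) k01
    have k2 : HasDerivAt (fun t : ℝ => fderiv ℝ f (p + (-t) • v) v)
        (-(fderiv ℝ (fderiv ℝ f) p v v)) 0 := by
      have k3 : HasDerivAt (fun t : ℝ => fderiv ℝ f (p + (-t) • v) v)
        ((fderiv ℝ (fderiv ℝ f) p (-v)) v) 0 :=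
        (ContinuousLinearMap.apply ℝ ℝ v).hasFDerivAt.comp_hasDerivAt (0:ℝ) k02
      refine k3.congr_deriv ?_
      rw [map_neg]; rfl
    have k3 := (k1.sub k2).tendsto_slope_zero
    have k4 := k3.const_mul (1 / 2 : ℝ)
    have e : (1 / 2 : ℝ) * (fderiv ℝ (fderiv ℝ f) p v v - -(fderiv ℝ (fderiv ℝ f) p v v)) = D2 f p v v := by
      simp only [D2]; ring
    rw [e] at k4
    refine k4.congr' ?_
    filter_upwards [self_mem_nhdsWithin] with t ht
    have ht' : t ≠ 0 := ht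
    simp
    field_simp

/-- one variable harmonic functions -/
theorem pf_harm {h : ℂ → ℝ} {x : ℂ} (hh : InnerProductSpace.HarmonicAt h x) (a : ℂ) :
    D2 h x a a + D2 h x (Complex.I * a) (Complex.I * a) = 0 := by
  have hc : ContDiffAt ℝ 2 h x := hh.1
  have hl : Laplacian.laplacian h x = 0 := hh.2.self_of_nhds
  rw [InnerProductSpace.laplacian_eq_iteratedFDeriv_complexPlane] at hl
  simp only [iteratedFDeriv_two_apply] at hl
  simp at hl
  have hsymm : IsSymmSndFDerivAt ℝ h x := hc.isSymmSndFDerivAt (by simp)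
  have hs := hsymm 1 Complex.I
  have ea : a = a.re • (1 : ℂ) + a.im • Complex.I := by
    apply Complex.ext <;> simp
  have eb : Complex.I * a = (-a.im) • (1 : ℂ) + a.re • Complex.I := by
    apply Complex.ext <;> simp
  rw [eb]
  rw [show D2 h x a a = D2 h x (a.re • (1 : ℂ) + a.im • Complex.I) (a.re • (1 : ℂ) + a.im • Complex.I) by
    rw [← ea]]
  simp only [D2, map_add, map_smul, add_apply, smul_apply,
    smul_eq_mul]
  rw [hs]
  linear_combination (a.re ^ 2 + a.im ^ 2) * hl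

/-- the kernel of the disc, balanced weights -/
theorem pf_gD {R : ℝ} (hR : 1 ≤ R) {ι : Type} [Fintype ι] (w : ι → ℂ) (b : ι → ℝ)
    (hw : ∀ i, ‖w i‖ < R) (hb : ∑ i, b i = 0) :
    ∑ i, ∑ j, b i * b j * gD R (w i) (w j) ≤
      - ∑ n ∈ (Finset.Icc 1 3 : Finset ℕ), ‖∑ i, (b i : ℂ) * w i ^ n‖ ^ 2 / ((n : ℝ) * R ^ (2 * n)) := by
  have hR0 : 0 < R := by linarith
  have hRc : (R : ℂ) ≠ 0 := by exact_mod_cast hR0.ne'
  set z : ι → ι → ℂ := fun i j => w i * (starRingEnd ℂ) (w j) / (R : ℂ) ^ 2 with hz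
  have hz1 : ∀ i j, ‖z i j‖ < 1 := by
    intro i j
    simp only [hz, norm_div, norm_mul, norm_pow, Complex.norm_real, RCLike.norm_conj]
    rw [Real.norm_of_nonneg hR0.le, div_lt_one (by positivity), sq]
    exact mul_lt_mul'' (hw i) (hw j) (norm_nonneg _) (norm_nonneg _)
  have hne : ∀ i j, 1 - z i j ≠ 0 := by
    intro i j h
    have : z i j = 1 := (sub_eq_zero.mp h).symm
    have h1 := hz1 i j
    rw [this] at h1
    simp at h1
  have hg : ∀ i j, gD R (w i) (w j) = Real.log R + (Complex.log (1 - z i j)).re := by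
    intro i j
    have e : (R : ℂ) ^ 2 - w i * (starRingEnd ℂ) (w j) = (R : ℂ) ^ 2 * (1 - z i j) := by
      simp only [hz]; field_simp
    rw [gD, e, norm_mul, Real.log_mul (by simp [hR0.ne']) (by simpa using hne i j), Complex.log_re,
      norm_pow, Complex.norm_real, Real.norm_of_nonneg hR0.le, Real.log_pow]
    push_cast; ring
  have hs : ∀ i j, HasSum (fun n : ℕ => (z i j ^ n / n).re) (-(Complex.log (1 - z i j)).re) := by
    intro i j
    have := Complex.hasSum_re (Complex.hasSum_taylorSeries_neg_log (hz1 i j))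
    simpa using this
  have hss : HasSum (fun n : ℕ => ∑ i, ∑ j, b i * b j * (z i j ^ n / n).re)
      (∑ i, ∑ j, b i * b j * (-(Complex.log (1 - z i j)).re)) :=
    hasSum_sum fun i _ => hasSum_sum fun j _ => (hs i j).mul_left (b i * b j)
  have hterm : ∀ n : ℕ, ∑ i, ∑ j, b i * b j * (z i j ^ n / n).re =
      ‖∑ i, (b i : ℂ) * w i ^ n‖ ^ 2 / ((n : ℝ) * R ^ (2 * n)) := by
    intro n
    have e1 : ((∑ i, ∑ j, b i * b j * (z i j ^ n / n).re : ℝ)) =
        (∑ i, ∑ j, ((b i * b j : ℝ) : ℂ) * (z i j ^ n / n)).re := by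
      simp only [Complex.re_sum, Complex.re_ofReal_mul]
    have e2 : (∑ i, ∑ j, ((b i * b j : ℝ) : ℂ) * (z i j ^ n / n)) =
        ((∑ i, (b i : ℂ) * w i ^ n) * (starRingEnd ℂ) (∑ i, (b i : ℂ) * w i ^ n)) /
          ((n : ℂ) * (R : ℂ) ^ (2 * n)) := by
      rw [map_sum, Finset.sum_mul_sum, Finset.sum_div]
      refine Finset.sum_congr rfl fun i _ => ?_
      rw [Finset.sum_div]
      refine Finset.sum_congr rfl fun j _ => ?_
      simp only [hz, map_mul, map_pow, Complex.conj_ofReal, Complex.ofReal_mul, div_pow, mul_pow,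
        ← pow_mul]
      rcases Nat.eq_zero_or_pos n with h0 | h0
      · subst h0; simp
      · have : (n : ℂ) ≠ 0 := by exact_mod_cast h0.ne'
        field_simp
    rw [e1, e2, Complex.mul_conj']
    have e3 : ((‖∑ i, (b i : ℂ) * w i ^ n‖ : ℂ) ^ 2 / ((n : ℂ) * (R : ℂ) ^ (2 * n))) =
        ((‖∑ i, (b i : ℂ) * w i ^ n‖ ^ 2 / ((n : ℝ) * R ^ (2 * n)) : ℝ) : ℂ) := by push_cast; rfl
    rw [e3, Complex.ofReal_re]
  have hle := sum_le_hasSum (Finset.Icc 1 3 : Finset ℕ) (fun n _ => by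
    show 0 ≤ ∑ i, ∑ j, b i * b j * (z i j ^ n / n).re
    rw [hterm n]; positivity) hss
  have hsum : ∑ i, ∑ j, b i * b j * gD R (w i) (w j) =
      -(∑ i, ∑ j, b i * b j * (-(Complex.log (1 - z i j)).re)) := by
    have e1 : ∀ i j, b i * b j * gD R (w i) (w j) = b i * b j * Real.log R -
        b i * b j * (-(Complex.log (1 - z i j)).re) := by
      intro i j; rw [hg]; ring
    simp only [e1, Finset.sum_sub_distrib]
    have e2 : ∑ i, ∑ j, b i * b j * Real.log R = (∑ i, b i) * (∑ j, b j) * Real.log R := by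
      rw [Finset.sum_mul_sum, Finset.sum_mul]
      refine Finset.sum_congr rfl fun i _ => ?_
      rw [Finset.sum_mul]
    rw [e2, hb]; ring
  rw [hsum]
  have : ∑ n ∈ (Finset.Icc 1 3 : Finset ℕ), ‖∑ i, (b i : ℂ) * w i ^ n‖ ^ 2 / ((n : ℝ) * R ^ (2 * n)) =
      ∑ n ∈ (Finset.Icc 1 3 : Finset ℕ), ∑ i, ∑ j, b i * b j * (z i j ^ n / n).re :=
    Finset.sum_congr rfl fun n _ => (hterm n).symm
  rw [this]
  linarith

/-- second differences -/
theorem pf_diff {R : ℝ} (hR : 1 ≤ R) {Λ : Set ℂ} {g : ℂ → ℂ → ℝ} (hΛ : Λ ⊆ ball 0 R)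
    (hpsd : ∀ (n : ℕ) (w : Fin n → ℂ) (b : Fin n → ℝ), (∀ i, w i ∈ Λ) →
      0 ≤ ∑ i, ∑ j, b i * b j * (gD R (w i) (w j) - g (w i) (w j)))
    {κ : Type} [Fintype κ] (c : κ → ℝ) (u v : κ → ℂ) (hu : ∀ i, u i ∈ Λ) (hv : ∀ i, v i ∈ Λ) :
    ∑ i, ∑ j, c i * c j * (g (v i) (v j) - g (v i) (u j) - g (u i) (v j) + g (u i) (u j)) ≤
      - ∑ n ∈ (Finset.Icc 1 3 : Finset ℕ), ‖∑ i, (c i : ℂ) * (v i ^ n - u i ^ n)‖ ^ 2 / ((n : ℝ) * R ^ (2 * n)) := by
  let w : κ ⊕ κ → ℂ := Sum.elim v u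
  let b : κ ⊕ κ → ℝ := Sum.elim c (fun i => -(c i))
  have hw : ∀ i, w i ∈ Λ := by
    rintro (i | i)
    · exact hv i
    · exact hu i
  have hb : ∑ i, b i = 0 := by
    simp [b, Fintype.sum_sum_type]
  have hpsd' : 0 ≤ ∑ i, ∑ j, b i * b j * (gD R (w i) (w j) - g (w i) (w j)) := by
    let e := Fintype.equivFin (κ ⊕ κ)
    have := hpsd _ (fun i => w (e.symm i)) (fun i => b (e.symm i)) (fun i => hw _)
    rw [Equiv.sum_comp e.symm (fun i => ∑ j, b i * b (e.symm j) * (gD R (w i) (w (e.symm j)) -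
      g (w i) (w (e.symm j))))] at this
    have e2 : ∀ i, ∑ j, b i * b (e.symm j) * (gD R (w i) (w (e.symm j)) -
      g (w i) (w (e.symm j))) = ∑ j, b i * b j * (gD R (w i) (w j) - g (w i) (w j)) := by
      intro i
      exact Equiv.sum_comp e.symm (fun j => b i * b j * (gD R (w i) (w j) - g (w i) (w j)))
    simp only [e2] at this
    exact this
  have h1 := pf_gD hR w b (fun i => by simpa using hΛ (hw i)) hb
  have h2 : ∑ i, ∑ j, b i * b j * g (w i) (w j) ≤ ∑ i, ∑ j, b i * b j * gD R (w i) (w j) := by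
    simp only [mul_sub, Finset.sum_sub_distrib] at hpsd'
    linarith
  have h3 := h2.trans h1
  have e1 : ∑ i, ∑ j, b i * b j * g (w i) (w j) =
      ∑ i, ∑ j, c i * c j * (g (v i) (v j) - g (v i) (u j) - g (u i) (v j) + g (u i) (u j)) := by
    simp only [Fintype.sum_sum_type, w, b, Sum.elim_inl, Sum.elim_inr]
    simp only [← Finset.sum_add_distrib]
    refine Finset.sum_congr rfl fun i _ => Finset.sum_congr rfl fun j _ => ?_
    ring
  have e2 : ∀ n : ℕ, ∑ i, (b i : ℂ) * w i ^ n = ∑ i, (c i : ℂ) * (v i ^ n - u i ^ n) := by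
    intro n
    simp only [Fintype.sum_sum_type, w, b, Sum.elim_inl, Sum.elim_inr]
    simp only [← Finset.sum_add_distrib]
    refine Finset.sum_congr rfl fun i _ => ?_
    push_cast; ring
  rw [e1] at h3
  simp only [e2] at h3
  exact h3

/-- Lagrange interpolation -/
theorem pf_lagrange {R r : ℝ} (hR : 1 ≤ R) (hr : 0 < r) {A B C u v w : ℂ}
    (hv : ‖v‖ ≤ R) (hw : ‖w‖ ≤ R) (huv : r ≤ ‖u - v‖) (huw : r ≤ ‖u - w‖) :
    ‖A‖ ^ 2 * r ^ 4 ≤ 3 * (R ^ 4 * ‖A + B + C‖ ^ 2 + 4 * R ^ 2 * ‖A * u + B * v + C * w‖ ^ 2 +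
      ‖A * u ^ 2 + B * v ^ 2 + C * w ^ 2‖ ^ 2) := by
  set s0 := A + B + C
  set s1 := A * u + B * v + C * w
  set s2 := A * u ^ 2 + B * v ^ 2 + C * w ^ 2
  have key : A * ((u - v) * (u - w)) = s2 - (v + w) * s1 + v * w * s0 := by
    simp only [s0, s1, s2]; ring
  have h1 : ‖A * ((u - v) * (u - w))‖ ≤ ‖s2‖ + 2 * R * ‖s1‖ + R ^ 2 * ‖s0‖ := by
    rw [key]
    have e1 : ‖s2 - (v + w) * s1 + v * w * s0‖ ≤ ‖s2 - (v + w) * s1‖ + ‖v * w * s0‖ := norm_add_le _ _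
    have e2 : ‖s2 - (v + w) * s1‖ ≤ ‖s2‖ + ‖(v + w) * s1‖ := norm_sub_le _ _
    have e3 : ‖(v + w) * s1‖ ≤ 2 * R * ‖s1‖ := by
      rw [norm_mul]
      have : ‖v + w‖ ≤ 2 * R := (norm_add_le _ _).trans (by linarith)
      exact mul_le_mul_of_nonneg_right this (norm_nonneg _)
    have e4 : ‖v * w * s0‖ ≤ R ^ 2 * ‖s0‖ := by
      rw [norm_mul, norm_mul]
      have : ‖v‖ * ‖w‖ ≤ R ^ 2 := by
        rw [sq]; exact mul_le_mul hv hw (norm_nonneg _) (by linarith)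
      exact mul_le_mul_of_nonneg_right this (norm_nonneg _)
    linarith
  have h2 : ‖A‖ * r ^ 2 ≤ ‖A * ((u - v) * (u - w))‖ := by
    rw [norm_mul, norm_mul, sq]
    apply mul_le_mul_of_nonneg_left _ (norm_nonneg _)
    exact mul_le_mul huv huw hr.le (norm_nonneg _)
  have h3 := h2.trans h1
  have h4 : (‖A‖ * r ^ 2) ^ 2 ≤ (‖s2‖ + 2 * R * ‖s1‖ + R ^ 2 * ‖s0‖) ^ 2 :=
    pow_le_pow_left₀ (by positivity) h3 2
  linarith [sq_nonneg (‖s2‖ - 2 * R * ‖s1‖), sq_nonneg (‖s2‖ - R ^ 2 * ‖s0‖),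
    sq_nonneg (2 * R * ‖s1‖ - R ^ 2 * ‖s0‖)]

theorem pf_lower {R r : ℝ} (hR : 1 ≤ R) (hr : 0 < r) {κ : Type} [Fintype κ]
    (hκ : Fintype.card κ = 3) (c : κ → ℝ) (hc : ∀ i, |c i| = 1) (u : κ → ℂ) (hu : ∀ i, ‖u i‖ ≤ R)
    (hd : ∀ i j, i ≠ j → r ≤ ‖u i - u j‖) (a : κ → ℂ) :
    ‖a‖ ^ 2 * r ^ 4 ≤ 3 * (R ^ 4 * ‖∑ i, (c i : ℂ) * a i‖ ^ 2 +
      4 * R ^ 2 * ‖∑ i, (c i : ℂ) * a i * u i‖ ^ 2 + ‖∑ i, (c i : ℂ) * a i * u i ^ 2‖ ^ 2) := by
  classical
  obtain ⟨x, y, z, hxy, hxz, hyz, huniv⟩ := Finset.card_eq_three.mp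
    (show (Finset.univ : Finset κ).card = 3 from hκ)
  have hsum : ∀ f : κ → ℂ, ∑ i, f i = f x + f y + f z := by
    intro f
    rw [huniv, Finset.sum_insert (by simp [hxy, hxz]), Finset.sum_insert (by simp [hyz]),
      Finset.sum_singleton]
    ring
  set M : ℝ := 3 * (R ^ 4 * ‖∑ i, (c i : ℂ) * a i‖ ^ 2 +
      4 * R ^ 2 * ‖∑ i, (c i : ℂ) * a i * u i‖ ^ 2 + ‖∑ i, (c i : ℂ) * a i * u i ^ 2‖ ^ 2) with hM
  have hM0 : 0 ≤ M := by positivity
  have hca : ∀ i, ‖(c i : ℂ) * a i‖ = ‖a i‖ := by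
    intro i
    rw [norm_mul, Complex.norm_real, Real.norm_eq_abs, hc, one_mul]
  have hi : ∀ i, ‖a i‖ ^ 2 * r ^ 4 ≤ M := by
    intro i
    have hmem : i ∈ ({x, y, z} : Finset κ) := by rw [← huniv]; exact Finset.mem_univ i
    simp only [Finset.mem_insert, Finset.mem_singleton] at hmem
    rw [hM]
    simp only [hsum]
    rcases hmem with rfl | rfl | rfl
    · have := pf_lagrange (A := (c i : ℂ) * a i) (B := (c y : ℂ) * a y) (C := (c z : ℂ) * a z)
        hR hr (hu y) (hu z) (hd i y hxy) (hd i z hxz)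
      rwa [hca] at this
    · have := pf_lagrange (A := (c i : ℂ) * a i) (B := (c x : ℂ) * a x) (C := (c z : ℂ) * a z)
        hR hr (hu x) (hu z) (hd i x hxy.symm) (hd i z hyz)
      rw [hca] at this
      refine this.trans (le_of_eq ?_)
      congr 3
      · congr 3; ring
      · congr 3; ring
      · congr 1; ring
    · have := pf_lagrange (A := (c i : ℂ) * a i) (B := (c x : ℂ) * a x) (C := (c y : ℂ) * a y)
        hR hr (hu x) (hu y) (hd i x hxz.symm) (hd i y hyz.symm)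
      rw [hca] at this
      refine this.trans (le_of_eq ?_)
      congr 3
      · congr 3; ring
      · congr 3; ring
      · congr 1; ring
  have hn : ‖a‖ ≤ Real.sqrt M / r ^ 2 := by
    rw [pi_norm_le_iff_of_nonneg (by positivity)]
    intro i
    rw [le_div_iff₀ (by positivity)]
    apply Real.le_sqrt_of_sq_le
    calc (‖a i‖ * r ^ 2) ^ 2 = ‖a i‖ ^ 2 * r ^ 4 := by ring
      _ ≤ M := hi i
  rw [le_div_iff₀ (by positivity)] at hn
  calc ‖a‖ ^ 2 * r ^ 4 = (‖a‖ * r ^ 2) ^ 2 := by ring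
    _ ≤ (Real.sqrt M) ^ 2 := pow_le_pow_left₀ (by positivity) hn 2
    _ = M := Real.sq_sqrt hM0

theorem pf_mem {Λ : Set ℂ} (hopen : IsOpen Λ) {x : ℂ} (hx : x ∈ Λ) (b : ℂ) :
    ∀ᶠ t : ℝ in 𝓝 0, x + t • b ∈ Λ ∧ x + (-t) • b ∈ Λ := by
  have hc1 : Continuous (fun t : ℝ => x + t • b) := by fun_prop
  have hc2 : Continuous (fun t : ℝ => x + (-t) • b) := by fun_prop
  have h1 : (fun t : ℝ => x + t • b) ⁻¹' Λ ∈ 𝓝 (0 : ℝ) :=
    (hopen.preimage hc1).mem_nhds (show x + (0 : ℝ) • b ∈ Λ by rw [zero_smul, add_zero]; exact hx)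
  have h2 : (fun t : ℝ => x + (-t) • b) ⁻¹' Λ ∈ 𝓝 (0 : ℝ) :=
    (hopen.preimage hc2).mem_nhds
      (show x + (-(0 : ℝ)) • b ∈ Λ by rw [neg_zero, zero_smul, add_zero]; exact hx)
  exact Filter.inter_mem h1 h2

/-- the limit of the second differences -/
theorem pf_lim {R : ℝ} (hR : 1 ≤ R) {Λ : Set ℂ} {g : ℂ → ℂ → ℝ} (hopen : IsOpen Λ)
    (hΛ : Λ ⊆ ball 0 R)
    (hsm : ContDiffOn ℝ 3 (fun p : ℂ × ℂ => g p.1 p.2) (Λ ×ˢ Λ))
    (hpsd : ∀ (n : ℕ) (w : Fin n → ℂ) (b : Fin n → ℝ), (∀ i, w i ∈ Λ) →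
      0 ≤ ∑ i, ∑ j, b i * b j * (gD R (w i) (w j) - g (w i) (w j)))
    {κ : Type} [Fintype κ] (c : κ → ℝ) (u : κ → ℂ) (hu : ∀ i, u i ∈ Λ) (a : κ → ℂ) :
    ∑ i, ∑ j, c i * c j *
      (D2 (fun p : ℂ × ℂ => g p.1 p.2) (u i, u j) (a i, a j) (a i, a j)
        - D2 (fun p : ℂ × ℂ => g p.1 p.2) (u i, u j) (a i, 0) (a i, 0)
        - D2 (fun p : ℂ × ℂ => g p.1 p.2) (u i, u j) (0, a j) (0, a j)) ≤
      - ∑ n ∈ (Finset.Icc 1 3 : Finset ℕ),
        ‖∑ i, (c i : ℂ) * (n * u i ^ (n - 1) * a i)‖ ^ 2 / ((n : ℝ) * R ^ (2 * n)) := by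
  have hR0 : 0 < R := by linarith
  set f : ℂ × ℂ → ℝ := fun p => g p.1 p.2 with hf
  have hcd : ∀ i j, ContDiffAt ℝ 2 f (u i, u j) := by
    intro i j
    exact (hsm.contDiffAt ((hopen.prod hopen).mem_nhds ⟨hu i, hu j⟩)).of_le (by norm_num)
  -- the left hand side
  have hL : Tendsto (fun t : ℝ => ∑ i, ∑ j, c i * c j *
      ((f ((u i, u j) + t • (a i, a j)) + f ((u i, u j) + (-t) • (a i, a j)) - 2 * f (u i, u j)) / t ^ 2
      - (f ((u i, u j) + t • (a i, 0)) + f ((u i, u j) + (-t) • (a i, 0)) - 2 * f (u i, u j)) / t ^ 2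
      - (f ((u i, u j) + t • (0, a j)) + f ((u i, u j) + (-t) • (0, a j)) - 2 * f (u i, u j)) / t ^ 2))
      (𝓝[≠] 0) (𝓝 (∑ i, ∑ j, c i * c j *
      (D2 f (u i, u j) (a i, a j) (a i, a j)
        - D2 f (u i, u j) (a i, 0) (a i, 0)
        - D2 f (u i, u j) (0, a j) (0, a j)))) := by
    refine tendsto_finsetSum _ fun i _ => tendsto_finsetSum _ fun j _ => ?_
    exact (((pf_sd (hcd i j) _).sub (pf_sd (hcd i j) _)).sub (pf_sd (hcd i j) _)).const_mul _
  have hP : ∀ n : ℕ, Tendsto (fun t : ℝ => t⁻¹ • (∑ i, (c i : ℂ) * ((u i + t • a i) ^ n - u i ^ n)))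
      (𝓝[≠] 0) (𝓝 (∑ i, (c i : ℂ) * (n * u i ^ (n - 1) * a i))) := by
    intro n
    have h0 : HasDerivAt (fun t : ℝ => ∑ i, (c i : ℂ) * ((u i + t • a i) ^ n - u i ^ n))
        (∑ i, (c i : ℂ) * (n * u i ^ (n - 1) * a i)) 0 := by
      have : ∀ i ∈ (Finset.univ : Finset κ),
          HasDerivAt (fun t : ℝ => (c i : ℂ) * ((u i + t • a i) ^ n - u i ^ n))
          ((c i : ℂ) * (n * u i ^ (n - 1) * a i)) 0 := by
        intro i _
        have h1 : HasDerivAt (fun t : ℝ => u i + t • a i) (a i) 0 := by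
          have := ((hasDerivAt_id (0:ℝ)).smul_const (a i)).const_add (u i)
          simpa using this
        have h2 := ((h1.pow n).sub_const (u i ^ n)).const_mul (c i : ℂ)
        simpa using h2
      exact HasDerivAt.fun_sum this
    have h1 := h0.tendsto_slope_zero
    simpa using h1
  have hRr : Tendsto (fun t : ℝ => - ∑ n ∈ (Finset.Icc 1 3 : Finset ℕ),
        ‖t⁻¹ • (∑ i, (c i : ℂ) * ((u i + t • a i) ^ n - u i ^ n))‖ ^ 2 / ((n : ℝ) * R ^ (2 * n)))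
      (𝓝[≠] 0) (𝓝 (- ∑ n ∈ (Finset.Icc 1 3 : Finset ℕ),
        ‖∑ i, (c i : ℂ) * (n * u i ^ (n - 1) * a i)‖ ^ 2 / ((n : ℝ) * R ^ (2 * n)))) := by
    refine Tendsto.neg (tendsto_finsetSum _ fun n _ => ?_)
    exact (((hP n).norm).pow 2).div_const _
  refine le_of_tendsto_of_tendsto hL hRr ?_
  have hmem : ∀ᶠ t : ℝ in 𝓝 0, (∀ i, u i + t • a i ∈ Λ) ∧ (∀ i, u i + (-t) • a i ∈ Λ) := by
    filter_upwards [eventually_all.mpr fun i => pf_mem hopen (hu i) (a i)] with t h1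
    exact ⟨fun i => (h1 i).1, fun i => (h1 i).2⟩
  filter_upwards [self_mem_nhdsWithin, hmem.filter_mono nhdsWithin_le_nhds] with t ht hm
  have ht0 : t ≠ 0 := ht
  have htp : 0 < t ^ 2 := by positivity
  have d1 := pf_diff hR hΛ hpsd c u (fun i => u i + t • a i) hu hm.1
  have d2 := pf_diff hR hΛ hpsd c u (fun i => u i + (-t) • a i) hu hm.2
  have d3 : 0 ≤ ∑ n ∈ (Finset.Icc 1 3 : Finset ℕ),
      ‖∑ i, (c i : ℂ) * ((u i + (-t) • a i) ^ n - u i ^ n)‖ ^ 2 / ((n : ℝ) * R ^ (2 * n)) :=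
    Finset.sum_nonneg fun n _ => by positivity
  have e1 : (- ∑ n ∈ (Finset.Icc 1 3 : Finset ℕ),
        ‖t⁻¹ • (∑ i, (c i : ℂ) * ((u i + t • a i) ^ n - u i ^ n))‖ ^ 2 / ((n : ℝ) * R ^ (2 * n))) =
      (- ∑ n ∈ (Finset.Icc 1 3 : Finset ℕ),
        ‖∑ i, (c i : ℂ) * ((u i + t • a i) ^ n - u i ^ n)‖ ^ 2 / ((n : ℝ) * R ^ (2 * n))) / t ^ 2 := by
    rw [neg_div, Finset.sum_div]
    congr 1
    refine Finset.sum_congr rfl fun n _ => ?_
    rw [norm_smul, mul_pow, norm_inv, Real.norm_eq_abs, inv_pow, sq_abs]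
    field_simp
  have e2 : (∑ i, ∑ j, c i * c j *
      ((f ((u i, u j) + t • (a i, a j)) + f ((u i, u j) + (-t) • (a i, a j)) - 2 * f (u i, u j)) / t ^ 2
      - (f ((u i, u j) + t • (a i, 0)) + f ((u i, u j) + (-t) • (a i, 0)) - 2 * f (u i, u j)) / t ^ 2
      - (f ((u i, u j) + t • (0, a j)) + f ((u i, u j) + (-t) • (0, a j)) - 2 * f (u i, u j)) / t ^ 2)) =
      (∑ i, ∑ j, c i * c j * (g (u i + t • a i) (u j + t • a j) - g (u i + t • a i) (u j) -
        g (u i) (u j + t • a j) + g (u i) (u j)) +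
       ∑ i, ∑ j, c i * c j * (g (u i + (-t) • a i) (u j + (-t) • a j) - g (u i + (-t) • a i) (u j) -
        g (u i) (u j + (-t) • a j) + g (u i) (u j))) / t ^ 2 := by
    rw [← Finset.sum_add_distrib, Finset.sum_div]
    refine Finset.sum_congr rfl fun i _ => ?_
    rw [← Finset.sum_add_distrib, Finset.sum_div]
    refine Finset.sum_congr rfl fun j _ => ?_
    simp only [hf, Prod.fst_add, Prod.snd_add, Prod.smul_fst, Prod.smul_snd, smul_zero, add_zero]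
    field_simp
    ring
  show _ ≤ _
  rw [e1, e2]
  apply div_le_div_of_nonneg_right _ htp.le
  linarith

theorem taskPf : TaskPf := by
  intro R hR
  have hR0 : 0 < R := by linarith
  refine ⟨1 / (12 * R ^ 6), by positivity, ?_⟩
  intro Λ g hopen hΛ hsymm hharm hsm hpsd κ _ hκ c hc u hu r hr hr1 hd a
  set f : ℂ × ℂ → ℝ := fun p => g p.1 p.2 with hf
  have hcd : ∀ i j, ContDiffAt ℝ 2 f (u i, u j) := by
    intro i j
    exact (hsm.contDiffAt ((hopen.prod hopen).mem_nhds ⟨hu i, hu j⟩)).of_le (by norm_num)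
  -- pure parts
  have p1 : ∀ i j (b : ℂ), D2 f (u i, u j) (b, 0) (b, 0) = D2 (fun x => g x (u j)) (u i) b b := by
    intro i j b
    refine tendsto_nhds_unique (pf_sd (hcd i j) (b, 0)) ?_
    have := pf_sd (f := fun x => g x (u j)) (p := u i) (hharm (u j) (hu j) (u i) (hu i)).1 b
    refine this.congr fun t => ?_
    simp [hf]
  have p2 : ∀ i j (b : ℂ), D2 f (u i, u j) (0, b) (0, b) = D2 (fun x => g x (u i)) (u j) b b := by
    intro i j b
    refine tendsto_nhds_unique (pf_sd (hcd i j) (0, b)) ?_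
    have := pf_sd (f := fun x => g x (u i)) (p := u j) (hharm (u i) (hu i) (u j) (hu j)).1 b
    refine this.congr' ?_
    have hmem := pf_mem hopen (hu j) b
    refine (hmem.filter_mono nhdsWithin_le_nhds).mono fun t ht => ?_
    simp only [hf, Prod.fst_add, Prod.snd_add, Prod.smul_fst, Prod.smul_snd, smul_zero, add_zero]
    rw [hsymm _ ht.1 _ (hu i), hsymm _ ht.2 _ (hu i), hsymm _ (hu j) _ (hu i)]
  have q1 : ∀ i j (b : ℂ), D2 f (u i, u j) (b, 0) (b, 0) +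
      D2 f (u i, u j) (Complex.I * b, 0) (Complex.I * b, 0) = 0 := by
    intro i j b
    rw [p1, p1]
    exact pf_harm (hharm (u j) (hu j) (u i) (hu i)) b
  have q2 : ∀ i j (b : ℂ), D2 f (u i, u j) (0, b) (0, b) +
      D2 f (u i, u j) (0, Complex.I * b) (0, Complex.I * b) = 0 := by
    intro i j b
    rw [p2, p2]
    exact pf_harm (hharm (u i) (hu i) (u j) (hu j)) b
  have l1 := pf_lim hR hopen hΛ hsm hpsd c u hu a
  have l2 := pf_lim hR hopen hΛ hsm hpsd c u hu (fun i => Complex.I * a i)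
  have l3 : 0 ≤ ∑ n ∈ (Finset.Icc 1 3 : Finset ℕ),
      ‖∑ i, (c i : ℂ) * (n * u i ^ (n - 1) * (Complex.I * a i))‖ ^ 2 / ((n : ℝ) * R ^ (2 * n)) :=
    Finset.sum_nonneg fun n _ => by positivity
  have e1 : ∑ i, ∑ j, c i * c j * (D2 f (u i, u j) (a i, a j) (a i, a j) +
      D2 f (u i, u j) (Complex.I * a i, Complex.I * a j) (Complex.I * a i, Complex.I * a j)) =
      ∑ i, ∑ j, c i * c j *
      (D2 f (u i, u j) (a i, a j) (a i, a j)
        - D2 f (u i, u j) (a i, 0) (a i, 0)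
        - D2 f (u i, u j) (0, a j) (0, a j)) +
      ∑ i, ∑ j, c i * c j *
      (D2 f (u i, u j) (Complex.I * a i, Complex.I * a j) (Complex.I * a i, Complex.I * a j)
        - D2 f (u i, u j) (Complex.I * a i, 0) (Complex.I * a i, 0)
        - D2 f (u i, u j) (0, Complex.I * a j) (0, Complex.I * a j)) := by
    rw [← Finset.sum_add_distrib]
    refine Finset.sum_congr rfl fun i _ => ?_
    rw [← Finset.sum_add_distrib]
    refine Finset.sum_congr rfl fun j _ => ?_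
    linear_combination (c i * c j) * (q1 i j (a i)) + (c i * c j) * (q2 i j (a j))
  have low := pf_lower hR hr hκ c hc u (fun i => by
    have := hΛ (hu i); simp at this; exact this.le) hd a
  have e2 : ∑ n ∈ (Finset.Icc 1 3 : Finset ℕ),
      ‖∑ i, (c i : ℂ) * (n * u i ^ (n - 1) * a i)‖ ^ 2 / ((n : ℝ) * R ^ (2 * n)) =
      (R ^ 4 * ‖∑ i, (c i : ℂ) * a i‖ ^ 2 + 2 * R ^ 2 * ‖∑ i, (c i : ℂ) * a i * u i‖ ^ 2 +
        3 * ‖∑ i, (c i : ℂ) * a i * u i ^ 2‖ ^ 2) / R ^ 6 := by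
    have hIcc : (Finset.Icc 1 3 : Finset ℕ) = {1, 2, 3} := by decide
    rw [hIcc, Finset.sum_insert (by decide), Finset.sum_insert (by decide), Finset.sum_singleton]
    have s1 : ∑ i, (c i : ℂ) * (((1 : ℕ) : ℂ) * u i ^ (1 - 1) * a i) = ∑ i, (c i : ℂ) * a i := by
      refine Finset.sum_congr rfl fun i _ => ?_
      simp
    have s2 : ∑ i, (c i : ℂ) * (((2 : ℕ) : ℂ) * u i ^ (2 - 1) * a i) =
        2 * ∑ i, (c i : ℂ) * a i * u i := by
      rw [Finset.mul_sum]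
      refine Finset.sum_congr rfl fun i _ => ?_
      push_cast; ring
    have s3 : ∑ i, (c i : ℂ) * (((3 : ℕ) : ℂ) * u i ^ (3 - 1) * a i) =
        3 * ∑ i, (c i : ℂ) * a i * u i ^ 2 := by
      rw [Finset.mul_sum]
      refine Finset.sum_congr rfl fun i _ => ?_
      push_cast; ring
    rw [s1, s2, s3, norm_mul, norm_mul]
    simp only [Complex.norm_ofNat]
    push_cast
    field_simp
    ring
  rw [e2] at l1
  rw [e1]
  have hfin : 1 / (12 * R ^ 6) * r ^ 4 * ‖a‖ ^ 2 ≤ 1 / 2 *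
      ((R ^ 4 * ‖∑ i, (c i : ℂ) * a i‖ ^ 2 + 2 * R ^ 2 * ‖∑ i, (c i : ℂ) * a i * u i‖ ^ 2 +
        3 * ‖∑ i, (c i : ℂ) * a i * u i ^ 2‖ ^ 2) / R ^ 6) := by
    have h1 : 1 / (12 * R ^ 6) * r ^ 4 * ‖a‖ ^ 2 = (‖a‖ ^ 2 * r ^ 4 / 12) / R ^ 6 := by
      field_simp
    rw [h1, ← mul_div_assoc]
    apply div_le_div_of_nonneg_right _ (by positivity)
    linarith [sq_nonneg ‖∑ i, (c i : ℂ) * a i‖, sq_nonneg ‖∑ i, (c i : ℂ) * a i * u i‖,
      sq_nonneg ‖∑ i, (c i : ℂ) * a i * u i ^ 2‖,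
      mul_nonneg (pow_nonneg hR0.le 4) (sq_nonneg ‖∑ i, (c i : ℂ) * a i‖),
      mul_nonneg (pow_nonneg hR0.le 2) (sq_nonneg ‖∑ i, (c i : ℂ) * a i * u i‖)]
  linarith

end Pool.Agent.H836_PV
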