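import Pool.Agent.H836_PV.Stmts

/-!
# Statements of the tasks of module P (potential theory)
-/

open MeasureTheory Filter Topology Set Metric

namespace Pool.Agent.H836_PV

/-- `g` is the regular part of the Green's function `G` of `Λ` -/
structure RegPart (Λ : Set ℂ) (G g : ℂ → ℂ → ℝ) : Prop where
  harm : ∀ y ∈ Λ, InnerProductSpace.HarmonicOnNhd (fun x => g x y) Λ
  eq : ∀ x ∈ Λ, ∀ y ∈ Λ, x ≠ y → G x y = g x y - Real.log ‖x - y‖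

/-- TASK Pa : existence of the regular part, and the bounds that follow from the maximum principle.
(`log_r_le` here with the disc around the second point.) -/
def TaskPa : Prop := ∀ (Λ : Set ℂ) (G : ℂ → ℂ → ℝ), IsOpen Λ → Λ.Nonempty →
  Bornology.IsBounded Λ → IsGreen Λ G → ∀ D : ℝ, 1 ≤ D → (∀ x ∈ Λ, ∀ y ∈ Λ, ‖x - y‖ ≤ D) →
  ∃ g : ℂ → ℂ → ℝ, RegPart Λ G g ∧
    (∀ x ∈ Λ, ∀ y ∈ Λ, g x y ≤ Real.log D) ∧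
    (∀ x ∈ Λ, ∀ y ∈ Λ, x ≠ y → 0 ≤ G x y) ∧
    (∀ x ∈ Λ, ∀ y ∈ Λ, ∀ r, 0 < r → ball y r ⊆ Λ → Real.log r ≤ g x y)

/-- uniform probability measure on the disc of radius `d(x) / 2` around `x`, where `d(x)` is the
distance of `x` to the complement of `Λ` (Dirac mass outside `Λ`) -/
noncomputable def step (Λ : Set ℂ) (x : ℂ) : Measure ℂ := by
  classical
  exact if x ∈ Λ then (volume (ball x (infDist x Λᶜ / 2)))⁻¹ •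
    volume.restrict (ball x (infDist x Λᶜ / 2)) else Measure.dirac x

/-- the law of the walk after `n` steps -/
noncomputable def sweep (Λ : Set ℂ) (x : ℂ) : ℕ → Measure ℂ
  | 0 => Measure.dirac x
  | n + 1 => (sweep Λ x n).bind (step Λ)

/-- TASK Pb : the sweeping measures -/
def TaskPb : Prop := ∀ (Λ : Set ℂ), IsOpen Λ → Λ.Nonempty → Bornology.IsBounded Λ →
  Measurable (step Λ) ∧
  (∀ x ∈ Λ, ∀ n, IsProbabilityMeasure (sweep Λ x n) ∧ sweep Λ x n Λᶜ = 0) ∧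
  (∀ n, Measurable (fun x => sweep Λ x n)) ∧
  -- bounded harmonic functions
  (∀ u : ℂ → ℝ, InnerProductSpace.HarmonicOnNhd u Λ → (∃ C, ∀ x ∈ Λ, |u x| ≤ C) →
    ∀ x ∈ Λ, ∀ n, ∫ z, u z ∂(sweep Λ x n) = u x) ∧
  -- `ω^{(n+1)}_x` on the region `{d ≥ η}` has a small density
  (∀ x ∈ Λ, ∀ η : ℝ, 0 < η → ∃ θ : ℕ → ℝ, (∀ n, 0 ≤ θ n) ∧ Tendsto θ atTop (𝓝 0) ∧
    ∀ n, ∀ A : Set ℂ, MeasurableSet A → (∀ z ∈ A, z ∈ Λ ∧ η ≤ infDist z Λᶜ) →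
      sweep Λ x (n + 1) A ≤ ENNReal.ofReal (θ n) * volume A) ∧
  -- consequence : a nonnegative function vanishing at the boundary is swept out
  (∀ F : ℂ → ℝ, (∀ z ∈ Λ, 0 ≤ F z) → Measurable F →
    (∀ ξ ∈ frontier Λ, Tendsto F (𝓝[Λ] ξ) (𝓝 0)) →
    (∀ η : ℝ, 0 < η → IntegrableOn F {z ∈ Λ | η ≤ infDist z Λᶜ}) →
    ∀ x ∈ Λ, Tendsto (fun n => ∫ z, F z ∂(sweep Λ x (n + 1))) atTop (𝓝 0))

/-- TASK Pc : symmetry of the Green's function (uses Pa, Pb) -/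
def TaskPc : Prop := ∀ (Λ : Set ℂ) (G g : ℂ → ℂ → ℝ), IsOpen Λ → Λ.Nonempty →
  Bornology.IsBounded Λ → IsGreen Λ G → RegPart Λ G g → ∀ x ∈ Λ, ∀ y ∈ Λ, g x y = g y x

/-- regular part of the Green's function of the disc of radius `R` around `0` -/
noncomputable def gD (R : ℝ) (x y : ℂ) : ℝ :=
  Real.log ‖(R : ℂ) ^ 2 - x * (starRingEnd ℂ) y‖ - Real.log R

/-- TASK Pd : the difference of the regular parts is a positive semidefinite kernel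
(uses Pa, Pb, Pc) -/
def TaskPd : Prop := ∀ (Λ : Set ℂ) (G g : ℂ → ℂ → ℝ) (R R₁ : ℝ), IsOpen Λ → Λ.Nonempty →
  IsGreen Λ G → RegPart Λ G g → 0 < R₁ → R₁ < R → Λ ⊆ closedBall 0 R₁ →
  ∀ (n : ℕ) (w : Fin n → ℂ) (b : Fin n → ℝ), (∀ i, w i ∈ Λ) →
    0 ≤ ∑ i, ∑ j, b i * b j * (gD R (w i) (w j) - g (w i) (w j))

/-- TASK Pe : joint smoothness of separately harmonic functions, with bounds -/
def TaskPe : Prop := ∃ C : ℝ, 0 < C ∧ ∀ (Λ : Set ℂ) (w : ℂ → ℂ → ℝ), IsOpen Λ →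
  (∀ y ∈ Λ, InnerProductSpace.HarmonicOnNhd (fun x => w x y) Λ) →
  (∀ x ∈ Λ, InnerProductSpace.HarmonicOnNhd (fun y => w x y) Λ) →
  (∀ x₀ ∈ Λ, ∀ y₀ ∈ Λ, ∃ r > 0, ∃ K : ℝ, ∀ x ∈ ball x₀ r, ∀ y ∈ ball y₀ r, |w x y| ≤ K) →
  ContDiffOn ℝ 3 (fun p : ℂ × ℂ => w p.1 p.2) (Λ ×ˢ Λ) ∧
  ∀ x₀ y₀ r K, 0 < r → ball x₀ r ⊆ Λ → ball y₀ r ⊆ Λ →
    (∀ x ∈ ball x₀ r, ∀ y ∈ ball y₀ r, |w x y| ≤ K) →
    HessOn (ball x₀ (r / 2) ×ˢ ball y₀ (r / 2)) (fun p : ℂ × ℂ => w p.1 p.2)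
      (D1 (fun p : ℂ × ℂ => w p.1 p.2)) (D2 (fun p : ℂ × ℂ => w p.1 p.2)) (C * K / r ^ 3)

/-- TASK Pe1 : one variable version -/
def TaskPe1 : Prop := ∃ C : ℝ, 0 < C ∧ ∀ (u : ℂ → ℝ) (x₀ : ℂ) (r K : ℝ), 0 < r →
  InnerProductSpace.HarmonicOnNhd u (ball x₀ r) → (∀ x ∈ ball x₀ r, |u x| ≤ K) →
  HessOn (ball x₀ (r / 2)) u (D1 u) (D2 u) (C * K / r ^ 3)

/-- TASK Pf : the Levi form (uses only calculus) -/
def TaskPf : Prop := ∀ R : ℝ, 1 ≤ R → ∃ cL : ℝ, 0 < cL ∧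
  ∀ (Λ : Set ℂ) (g : ℂ → ℂ → ℝ), IsOpen Λ → Λ ⊆ ball 0 R →
  (∀ x ∈ Λ, ∀ y ∈ Λ, g x y = g y x) →
  (∀ y ∈ Λ, InnerProductSpace.HarmonicOnNhd (fun x => g x y) Λ) →
  ContDiffOn ℝ 3 (fun p : ℂ × ℂ => g p.1 p.2) (Λ ×ˢ Λ) →
  (∀ (n : ℕ) (w : Fin n → ℂ) (b : Fin n → ℝ), (∀ i, w i ∈ Λ) →
    0 ≤ ∑ i, ∑ j, b i * b j * (gD R (w i) (w j) - g (w i) (w j))) →
  ∀ (κ : Type) [Fintype κ], Fintype.card κ = 3 → ∀ c : κ → ℝ, (∀ i, |c i| = 1) →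
    ∀ u : κ → ℂ, (∀ i, u i ∈ Λ) → ∀ r, 0 < r → r ≤ 1 → (∀ i j, i ≠ j → r ≤ ‖u i - u j‖) →
    ∀ a : κ → ℂ,
      1 / 2 * ∑ i, ∑ j, c i * c j *
        (D2 (fun p : ℂ × ℂ => g p.1 p.2) (u i, u j) (a i, a j) (a i, a j) +
         D2 (fun p : ℂ × ℂ => g p.1 p.2) (u i, u j) (Complex.I * a i, Complex.I * a j)
          (Complex.I * a i, Complex.I * a j)) ≤ - (cL * r ^ 4 * ‖a‖ ^ 2)

/-- TASK Pg : the boundary layer -/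
def TaskPg : Prop := ∀ Λ : Set ℂ, IsOpen Λ → Λ.Nonempty → Bornology.IsBounded Λ → PwRegular Λ →
  ∃ CB : ℝ, 0 ≤ CB ∧ ∀ r, 0 < r → r ≤ 1 →
    volume {x ∈ Λ | ¬ ball x r ⊆ Λ} ≤ ENNReal.ofReal (CB * r)

/-- TASK Ph : assembly -/
def TaskPh : Prop := TaskPa → TaskPb → TaskPc → TaskPd → TaskPe → TaskPe1 → TaskPf → TaskPg → TaskP

end Pool.Agent.H836_PV
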