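-- job PV Pg by helper586, complete file
import Pool.Agent.H836_PV.StmtsP

/-!
# Task Pg: the boundary layer
-/

open MeasureTheory Filter Topology Set Metric

namespace Pool.Agent.H836_PV

theorem pg_cover {Λ : Set ℂ} {n : ℕ} {γ : Fin n → ℝ → ℂ} {K : Fin n → NNReal}
    (hK : ∀ i, LipschitzOnWith (K i) (γ i) (Icc 0 1)) (hfr : frontier Λ ⊆ ⋃ i, γ i '' Icc 0 1)
    {r : ℝ} (hr : 0 < r) :
    {x ∈ Λ | ¬ ball x r ⊆ Λ} ⊆ ⋃ i : Fin n, ⋃ k ∈ Finset.range (⌊1 / r⌋₊ + 1),
      closedBall (γ i ((k : ℝ) * r)) (((K i : ℝ) + 1) * r) := by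
  rintro x ⟨hx, hb⟩
  -- a frontier point in the ball
  obtain ⟨ξ, hξb, hξ⟩ : (ball x r ∩ frontier Λ).Nonempty := by
    obtain ⟨z, hz, hzΛ⟩ := not_subset.mp hb
    by_contra hcon
    rw [not_nonempty_iff_eq_empty] at hcon
    have hpre : IsPreconnected (ball x r) := (convex_ball x r).isPreconnected
    have hsub : ball x r ⊆ interior Λ ∪ interior Λᶜ := by
      intro w hw
      have hwf : w ∉ frontier Λ := fun h => by
        have : w ∈ ball x r ∩ frontier Λ := ⟨hw, h⟩
        rw [hcon] at this; exact this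
      rw [frontier_eq_closure_inter_closure, mem_inter_iff, not_and_or] at hwf
      rcases hwf with h | h
      · right
        rw [interior_compl]; exact h
      · left
        rw [← compl_compl Λ, interior_compl]; exact h
    have h1 : (ball x r ∩ interior Λ).Nonempty := by
      refine ⟨x, mem_ball_self hr, ?_⟩
      rcases hsub (mem_ball_self hr) with h | h
      · exact h
      · exact absurd hx (interior_subset h)
    have h2 : (ball x r ∩ interior Λᶜ).Nonempty := by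
      refine ⟨z, hz, ?_⟩
      rcases hsub hz with h | h
      · exact absurd (interior_subset h) hzΛ
      · exact h
    obtain ⟨w, _, hw1, hw2⟩ := hpre _ _ isOpen_interior isOpen_interior hsub h1 h2
    exact interior_subset hw2 (interior_subset hw1)
  obtain ⟨i, t, ht, rfl⟩ := mem_iUnion.mp (hfr hξ)
  rw [mem_iUnion]
  refine ⟨i, ?_⟩
  rw [mem_iUnion₂]
  refine ⟨⌊t / r⌋₊, ?_, ?_⟩
  · rw [Finset.mem_range, Nat.lt_succ_iff]
    apply Nat.floor_le_floor
    gcongr
    exact ht.2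
  · have htr : 0 ≤ t / r := div_nonneg ht.1 hr.le
    have a1 : (⌊t / r⌋₊ : ℝ) * r ≤ t := by
      have := Nat.floor_le htr
      calc (⌊t / r⌋₊ : ℝ) * r ≤ t / r * r := by gcongr
        _ = t := by field_simp
    have a2 : t ≤ (⌊t / r⌋₊ : ℝ) * r + r := by
      have := (Nat.lt_floor_add_one (t / r)).le
      calc t = t / r * r := by field_simp
        _ ≤ ((⌊t / r⌋₊ : ℝ) + 1) * r := by gcongr
        _ = _ := by ring
    have a0 : 0 ≤ (⌊t / r⌋₊ : ℝ) * r := by positivity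
    have hd := (hK i).dist_le_mul t ht ((⌊t / r⌋₊ : ℝ) * r) ⟨a0, a1.trans ht.2⟩
    have hd2 : dist t ((⌊t / r⌋₊ : ℝ) * r) ≤ r := by
      rw [Real.dist_eq, abs_of_nonneg (by linarith)]
      linarith
    have hd3 : dist (γ i t) (γ i ((⌊t / r⌋₊ : ℝ) * r)) ≤ (K i : ℝ) * r :=
      hd.trans (by gcongr)
    rw [mem_closedBall]
    rw [mem_ball, dist_comm] at hξb
    calc dist x (γ i ((⌊t / r⌋₊ : ℝ) * r)) ≤ dist x (γ i t) + dist (γ i t) (γ i ((⌊t / r⌋₊ : ℝ) * r)) :=
          dist_triangle _ _ _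
      _ ≤ r + (K i : ℝ) * r := by linarith
      _ = _ := by ring

theorem taskPg : TaskPg := by
  intro Λ _ _ _ hreg
  obtain ⟨n, γ, hγ, hfr⟩ := hreg
  choose K hK using hγ
  refine ⟨∑ i, 2 * Real.pi * ((K i : ℝ) + 1) ^ 2, ?_, fun r hr hr1 => ?_⟩
  · exact Finset.sum_nonneg fun i _ => by positivity
  · have hball : ∀ (i : Fin n) (c : ℂ), volume (closedBall c (((K i : ℝ) + 1) * r)) =
        ENNReal.ofReal (Real.pi * (((K i : ℝ) + 1) * r) ^ 2) := by
      intro i c
      rw [Complex.volume_closedBall, ENNReal.ofReal_mul Real.pi_pos.le, ENNReal.ofReal_pow (by positivity),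
        mul_comm]
      congr 1
      rw [← NNReal.coe_real_pi, ENNReal.ofReal_coe_nnreal]
    calc volume {x ∈ Λ | ¬ ball x r ⊆ Λ}
        ≤ volume (⋃ i : Fin n, ⋃ k ∈ Finset.range (⌊1 / r⌋₊ + 1),
          closedBall (γ i ((k : ℝ) * r)) (((K i : ℝ) + 1) * r)) := measure_mono (pg_cover hK hfr hr)
      _ ≤ ∑ i : Fin n, volume (⋃ k ∈ Finset.range (⌊1 / r⌋₊ + 1),
          closedBall (γ i ((k : ℝ) * r)) (((K i : ℝ) + 1) * r)) := measure_iUnion_fintype_le _ _
      _ ≤ ∑ i : Fin n, ∑ k ∈ Finset.range (⌊1 / r⌋₊ + 1),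
          volume (closedBall (γ i ((k : ℝ) * r)) (((K i : ℝ) + 1) * r)) := by
          gcongr with i
          exact measure_biUnion_finset_le _ _
      _ = ∑ i : Fin n, ∑ k ∈ Finset.range (⌊1 / r⌋₊ + 1),
          ENNReal.ofReal (Real.pi * (((K i : ℝ) + 1) * r) ^ 2) := by simp_rw [hball]
      _ = ENNReal.ofReal (∑ i : Fin n, ∑ k ∈ Finset.range (⌊1 / r⌋₊ + 1),
          (Real.pi * (((K i : ℝ) + 1) * r) ^ 2)) := by
          rw [ENNReal.ofReal_sum_of_nonneg (fun i _ => Finset.sum_nonneg fun k _ => by positivity)]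
          congr 1
          funext i
          rw [ENNReal.ofReal_sum_of_nonneg (fun k _ => by positivity)]
      _ ≤ _ := by
          apply ENNReal.ofReal_le_ofReal
          rw [Finset.sum_mul]
          apply Finset.sum_le_sum
          intro i _
          rw [Finset.sum_const, Finset.card_range, nsmul_eq_mul]
          have h1 : ((⌊1 / r⌋₊ + 1 : ℕ) : ℝ) ≤ 1 / r + 1 := by
            push_cast
            have := Nat.floor_le (by positivity : 0 ≤ 1 / r)
            linarith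
          have h2 : (1 / r + 1) * r ^ 2 ≤ 2 * r := by
            have : (1 / r + 1) * r ^ 2 = r + r ^ 2 := by field_simp
            rw [this]; nlinarith
          have h3 : ((⌊1 / r⌋₊ + 1 : ℕ) : ℝ) * r ^ 2 ≤ 2 * r :=
            (by gcongr : ((⌊1 / r⌋₊ + 1 : ℕ) : ℝ) * r ^ 2 ≤ (1 / r + 1) * r ^ 2).trans h2
          calc ((⌊1 / r⌋₊ + 1 : ℕ) : ℝ) * (Real.pi * (((K i : ℝ) + 1) * r) ^ 2)
              = Real.pi * ((K i : ℝ) + 1) ^ 2 * (((⌊1 / r⌋₊ + 1 : ℕ) : ℝ) * r ^ 2) := by ring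
            _ ≤ Real.pi * ((K i : ℝ) + 1) ^ 2 * (2 * r) := by gcongr
            _ = _ := by ring

end Pool.Agent.H836_PV
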