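import Pool.Agent.H836_PV.StmtsP

/-!
# Task Ph : assembly of module P
-/

open MeasureTheory Filter Topology Set Metric InnerProductSpace

namespace Pool.Agent.H836_PV

lemma HessOn.mono_const {V : Type*} [NormedAddCommGroup V] [NormedSpace ℝ V]
    {U : Set V} {h : V → ℝ} {h1 : V → V → ℝ} {B : V → V → V → ℝ} {L L' : ℝ}
    (H : HessOn U h h1 B L) (hL : L ≤ L') : HessOn U h h1 B L' where
  d1 := H.d1
  d2 := H.d2
  add_left := H.add_left
  smul_left := H.smul_left
  symm := H.symm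
  lip := by
    intro u hu v hv a
    refine (H.lip u hu v hv a).trans ?_
    gcongr

lemma abs_log_half_le {r : ℝ} (hr : 0 < r) (_hr1 : r ≤ 1) : -Real.log (r / 2) ≤ 2 / r := by
  have h : -Real.log (r / 2) = Real.log (2 / r) := by
    rw [← Real.log_inv]
    congr 1
    field_simp
  rw [h]
  have := Real.log_le_sub_one_of_pos (show (0 : ℝ) < 2 / r by positivity)
  linarith

theorem taskPh : TaskPh := by
  intro hPa _hPb hPc hPd hPe hPe1 hPf hPg Λ G hDom hG
  obtain ⟨hO, hconn, hbdd, hreg⟩ := hDom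
  have hne : Λ.Nonempty := hconn.nonempty
  obtain ⟨R₀, hR₀⟩ := hbdd.subset_closedBall 0
  set R₁ : ℝ := max R₀ 1 with hR₁
  have hR₁1 : 1 ≤ R₁ := le_max_right _ _
  have hsub₁ : Λ ⊆ closedBall 0 R₁ := hR₀.trans (closedBall_subset_closedBall (le_max_left _ _))
  set R : ℝ := R₁ + 1 with hR
  have hR1 : 1 ≤ R := by linarith
  set D : ℝ := 2 * R with hDdef
  have hD1 : 1 ≤ D := by linarith
  have hnorm : ∀ x ∈ Λ, ‖x‖ ≤ R₁ := fun x hx => by simpa using hsub₁ hx
  have hdiam : ∀ x ∈ Λ, ∀ y ∈ Λ, ‖x - y‖ ≤ D := fun x hx y hy => by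
    have := norm_sub_le x y
    have h1 := hnorm x hx
    have h2 := hnorm y hy
    linarith
  obtain ⟨g, hg, hgle, hGnn, hglog⟩ := hPa Λ G hO hne hbdd hG D hD1 hdiam
  have hsymm : ∀ x ∈ Λ, ∀ y ∈ Λ, g x y = g y x := hPc Λ G g hO hne hbdd hG hg
  have hlogr : ∀ x ∈ Λ, ∀ y ∈ Λ, ∀ r, 0 < r → ball x r ⊆ Λ → Real.log r ≤ g x y := by
    intro x hx y hy r hr hb
    rw [hsymm x hx y hy]
    exact hglog y hy x hx r hr hb
  have hpsd := hPd Λ G g R R₁ hO hne hG hg (by linarith) (by linarith) hsub₁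
  have hharm2 : ∀ x ∈ Λ, HarmonicOnNhd (fun y => g x y) Λ := by
    intro x hx y hy
    have h1 := hg.harm x hx y hy
    refine (harmonicAt_congr_nhds ?_).1 h1
    filter_upwards [hO.mem_nhds hy] with z hz
    exact hsymm z hz x hx
  -- bound on half balls
  have hbd : ∀ x₀ r, 0 < r → r ≤ 1 → ball x₀ r ⊆ Λ → ∀ z ∈ ball x₀ (r / 2), ∀ v ∈ Λ,
      |g z v| ≤ (Real.log D + 2) / r := by
    intro x₀ r hr hr1 hb z hz v hv
    have hlogD : 0 ≤ Real.log D := Real.log_nonneg hD1
    have hzΛ : z ∈ Λ := hb (ball_subset_ball (by linarith) hz)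
    have hzb : ball z (r / 2) ⊆ Λ := by
      refine Subset.trans (fun w hw => ?_) hb
      rw [mem_ball] at *
      have := dist_triangle w z x₀
      linarith
    have h1 := hgle z hzΛ v hv
    have h2 := hlogr z hzΛ v hv (r / 2) (by positivity) hzb
    have h3 := abs_log_half_le hr hr1
    have h4 : Real.log D ≤ Real.log D / r := by
      rw [le_div_iff₀ hr]
      nlinarith
    have h5 : 0 ≤ 2 / r := by positivity
    rw [add_div, abs_le]
    constructor <;> linarith
  obtain ⟨Ce, hCe, hPe'⟩ := hPe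
  obtain ⟨Ce1, hCe1, hPe1'⟩ := hPe1
  have hloc : ∀ x₀ ∈ Λ, ∀ y₀ ∈ Λ, ∃ r > 0, ∃ K : ℝ, ∀ x ∈ ball x₀ r, ∀ y ∈ ball y₀ r,
      |g x y| ≤ K := by
    intro x₀ hx₀ y₀ hy₀
    obtain ⟨r₁, hr₁, hb₁⟩ := Metric.isOpen_iff.1 hO x₀ hx₀
    obtain ⟨r₂, hr₂, hb₂⟩ := Metric.isOpen_iff.1 hO y₀ hy₀
    set r := min (min r₁ r₂) 1 with hr
    have hr0 : 0 < r := lt_min (lt_min hr₁ hr₂) one_pos
    have hr1 : r ≤ 1 := min_le_right _ _
    have hrr1 : r ≤ r₁ := (min_le_left _ _).trans (min_le_left _ _)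
    have hrr2 : r ≤ r₂ := (min_le_left _ _).trans (min_le_right _ _)
    refine ⟨r / 2, by positivity, (Real.log D + 2) / r, fun x hx y hy => ?_⟩
    exact hbd x₀ r hr0 hr1 ((ball_subset_ball hrr1).trans hb₁) x hx y
      (hb₂ (ball_subset_ball (by linarith) hy))
  obtain ⟨hsmooth, hhess⟩ := hPe' Λ g hO hg.harm hharm2 hloc
  obtain ⟨cL, hcL, hPf'⟩ := hPf R hR1
  have hΛR : Λ ⊆ ball 0 R := fun x hx => by
    have := hnorm x hx
    rw [mem_ball_zero_iff]
    linarith
  have hlevi := hPf' Λ g hO hΛR hsymm hg.harm hsmooth hpsd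
  obtain ⟨CB, hCB, hlayer⟩ := hPg Λ hO hne hbdd hreg
  have hlogD : 0 ≤ Real.log D := Real.log_nonneg hD1
  set C₃ : ℝ := 8 * max Ce Ce1 * (Real.log D + 2) with hC₃
  have hC₃0 : 0 ≤ C₃ := by positivity
  have hconst : ∀ C' : ℝ, C' ≤ max Ce Ce1 → ∀ r : ℝ, 0 < r →
      C' * ((Real.log D + 2) / r) / (r / 2) ^ 3 ≤ C₃ / r ^ 4 := by
    intro C' hC' r hr
    have h1 : C' * ((Real.log D + 2) / r) / (r / 2) ^ 3 = 8 * C' * (Real.log D + 2) / r ^ 4 := by
      field_simp
      norm_num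
    rw [h1, hC₃]
    gcongr
  refine ⟨g, D, C₃, cL, CB, ?_, ?_⟩
  · refine
      { isOpen := hO
        nonempty := hne
        one_le := hD1
        diam := hdiam
        norm_le := fun x hx => (hnorm x hx).trans (by linarith)
        symm := hsymm
        le_log := hgle
        log_le := ?_
        log_r_le := hlogr
        smooth := hsmooth
        harm := hg.harm
        C₃_nonneg := hC₃0
        cL_pos := hcL
        CB_nonneg := hCB
        hess := ?_
        levi := hlevi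
        hessv := ?_
        layer := hlayer }
    · intro x hx y hy hxy
      have h1 := hGnn x hx y hy hxy
      rw [hg.eq x hx y hy hxy] at h1
      linarith
    · intro x₀ y₀ r hr hr1 hbx hby
      have hbx' : ball x₀ (r / 2) ⊆ Λ := (ball_subset_ball (by linarith)).trans hbx
      have hby' : ball y₀ (r / 2) ⊆ Λ := (ball_subset_ball (by linarith)).trans hby
      have h := hhess x₀ y₀ (r / 2) ((Real.log D + 2) / r) (by positivity) hbx' hby'
        (fun x hx y hy => hbd x₀ r hr hr1 hbx x hx y (hby' hy))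
      have hr4 : r / 2 / 2 = r / 4 := by ring
      rw [hr4] at h
      exact h.mono_const (hconst Ce (le_max_left _ _) r hr)
    · intro v hv x₀ r hr hr1 hbx
      have hbx' : ball x₀ (r / 2) ⊆ Λ := (ball_subset_ball (by linarith)).trans hbx
      have h := hPe1' (fun z => g z v) x₀ (r / 2) ((Real.log D + 2) / r) (by positivity)
        ((hg.harm v hv).mono hbx') (fun x hx => hbd x₀ r hr hr1 hbx x hx v hv)
      have hr4 : r / 2 / 2 = r / 4 := by ring
      rw [hr4] at h
      exact h.mono_const (hconst Ce1 (le_max_right _ _) r hr)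
  · intro x hx y hy
    unfold Gstar K
    by_cases hxy : x = y
    · subst hxy
      rw [if_pos rfl]
      have hcont : ContinuousAt (fun z => g x z) x := (hharm2 x hx x hx).1.continuousAt
      have hlim : Tendsto (fun z => G x z + Real.log ‖x - z‖) (𝓝[≠] x) (𝓝 (g x x)) := by
        have h1 : Tendsto (fun z => g x z) (𝓝[≠] x) (𝓝 (g x x)) :=
          hcont.tendsto.mono_left nhdsWithin_le_nhds
        refine h1.congr' ?_
        filter_upwards [self_mem_nhdsWithin, nhdsWithin_le_nhds (hO.mem_nhds hx)] with z hz hzΛ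
        have hzx : x ≠ z := fun h => hz h.symm
        rw [hg.eq x hx z hzΛ hzx]
        ring
      rw [hlim.limUnder_eq]
      simp
    · rw [if_neg hxy]
      exact hg.eq x hx y hy hxy

end Pool.Agent.H836_PV
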