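import Pool.Agent.H836_PV.Stmts

/-!
# Task S0
-/

open MeasureTheory Filter Topology Set Metric

namespace Pool.Agent.H836_PV

namespace S0

noncomputable def m (D r : ℝ) : ℝ := max 0 (Real.log (D / r))

theorem m_nonneg (D r : ℝ) : 0 ≤ m D r := le_max_left _ _

theorem measurable_m (D : ℝ) : Measurable (m D) :=
  measurable_const.max (Real.measurable_log.comp (measurable_const.div measurable_id))

theorem int_m {D : ℝ} (hD : 1 ≤ D) : Integrable (fun z : ℂ => m D ‖z‖) := by
  rw [integrable_fun_norm_addHaar (E := ℂ) volume (f := m D)]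
  have h1 : IntegrableOn (fun y : ℝ => (Ioc 0 D).indicator (fun _ => D) y) (Ioi 0) := by
    refine Integrable.integrableOn ?_
    rw [integrable_indicator_iff measurableSet_Ioc]
    exact integrableOn_const (by simp)
  refine Integrable.mono' h1 ?_ ?_
  · exact ((measurable_id.pow_const _).smul (measurable_m D)).aestronglyMeasurable
  · refine (ae_restrict_iff' measurableSet_Ioi).2 (Eventually.of_forall fun y hy => ?_)
    have hy : 0 < y := hy
    rw [Complex.finrank_real_complex]
    simp only [Nat.add_one_sub_one, pow_one, smul_eq_mul]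
    rw [Real.norm_of_nonneg (mul_nonneg hy.le (m_nonneg _ _))]
    rcases le_or_gt y D with h | h
    · rw [indicator_of_mem (show y ∈ Ioc 0 D from ⟨hy, h⟩)]
      have h2 : m D y ≤ D / y := by
        unfold m
        apply max_le (by positivity)
        have := Real.log_le_sub_one_of_pos (show 0 < D / y by positivity)
        linarith
      calc y * m D y ≤ y * (D / y) := mul_le_mul_of_nonneg_left h2 hy.le
        _ = D := by field_simp
    · have h2 : m D y = 0 := by
        unfold m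
        apply max_eq_left
        apply Real.log_nonpos (by positivity)
        rw [div_le_one hy]; exact h.le
      rw [h2, mul_zero]
      exact indicator_nonneg (fun _ _ => by linarith) _

theorem int_m_sub {D : ℝ} (hD : 1 ≤ D) (x : ℂ) : Integrable (fun y : ℂ => m D ‖x - y‖) :=
  (int_m hD).comp_sub_left x

theorem integral_m_sub (D : ℝ) (x : ℂ) : ∫ y : ℂ, m D ‖x - y‖ = ∫ y : ℂ, m D ‖y‖ :=
  integral_sub_left_eq_self (fun y : ℂ => m D ‖y‖) volume x

theorem K_nonneg {Λ : Set ℂ} {g : ℂ → ℂ → ℝ} {D C₃ cL CB : ℝ} (h : Ker Λ g D C₃ cL CB) {x y : ℂ}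
    (hx : x ∈ Λ) (hy : y ∈ Λ) (hxy : x ≠ y) : 0 ≤ K g x y := by
  unfold K; linarith [h.log_le x hx y hy hxy]

theorem K_le {Λ : Set ℂ} {g : ℂ → ℂ → ℝ} {D C₃ cL CB : ℝ} (h : Ker Λ g D C₃ cL CB) {x y : ℂ}
    (hx : x ∈ Λ) (hy : y ∈ Λ) (hxy : x ≠ y) : K g x y ≤ m D ‖x - y‖ := by
  unfold K m
  have h1 : 0 < ‖x - y‖ := norm_pos_iff.2 (sub_ne_zero.2 hxy)
  rw [Real.log_div (by linarith [h.one_le]) h1.ne']
  exact le_max_of_le_right (by linarith [h.le_log x hx y hy])

theorem vol_ne_top {Λ : Set ℂ} {g : ℂ → ℂ → ℝ} {D C₃ cL CB : ℝ} (h : Ker Λ g D C₃ cL CB) :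
    volume Λ ≠ ⊤ := by
  refine ((measure_mono (t := closedBall (0:ℂ) D) fun x hx => ?_).trans_lt
    measure_closedBall_lt_top).ne
  simpa using h.norm_le x hx

theorem vol_ne_zero {Λ : Set ℂ} {g : ℂ → ℂ → ℝ} {D C₃ cL CB : ℝ} (h : Ker Λ g D C₃ cL CB) :
    volume Λ ≠ 0 := (h.isOpen.measure_pos volume h.nonempty).ne'

/-- almost every pair in `Λ × Λ` is in `Λ × Λ` and off the diagonal -/
theorem ae_off {Λ : Set ℂ} (hΛ : MeasurableSet Λ) :
    ∀ᵐ p : ℂ × ℂ ∂((volume.restrict Λ).prod (volume.restrict Λ)), p.1 ∈ Λ ∧ p.2 ∈ Λ ∧ p.1 ≠ p.2 := by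
  have h1 : ∀ᵐ p : ℂ × ℂ ∂((volume.restrict Λ).prod (volume.restrict Λ)), p.1 ∈ Λ ∧ p.2 ∈ Λ := by
    rw [Measure.prod_restrict]
    exact ae_restrict_mem (hΛ.prod hΛ)
  have h2 : ∀ᵐ p : ℂ × ℂ ∂((volume.restrict Λ).prod (volume.restrict Λ)), p.1 ≠ p.2 := by
    rw [ae_iff]
    have hm : MeasurableSet {p : ℂ × ℂ | ¬ p.1 ≠ p.2} := by
      have : {p : ℂ × ℂ | ¬ p.1 ≠ p.2} = {p : ℂ × ℂ | p.1 = p.2} := by ext; simp
      rw [this]
      exact measurableSet_eq_fun measurable_fst measurable_snd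
    rw [Measure.measure_prod_null hm]
    refine Eventually.of_forall fun x => ?_
    have : (Prod.mk x ⁻¹' {p : ℂ × ℂ | ¬ p.1 ≠ p.2}) = {x} := by
      ext y; simp [eq_comm]
    change (volume.restrict Λ) (Prod.mk x ⁻¹' {p : ℂ × ℂ | ¬ p.1 ≠ p.2}) = 0
    rw [this]
    simp
  filter_upwards [h1, h2] with p hp hq
  exact ⟨hp.1, hp.2, hq⟩

theorem int_m_prod {D : ℝ} (hD : 1 ≤ D) {Λ : Set ℂ} (hfin : volume Λ ≠ ⊤) :
    Integrable (fun p : ℂ × ℂ => m D ‖p.1 - p.2‖)
      ((volume.restrict Λ).prod (volume.restrict Λ)) := by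
  have : IsFiniteMeasure (volume.restrict Λ) := ⟨by rw [Measure.restrict_apply_univ]; exact hfin.lt_top⟩
  have hm : Measurable (fun p : ℂ × ℂ => m D ‖p.1 - p.2‖) :=
    (measurable_m D).comp (measurable_fst.sub measurable_snd).norm
  rw [integrable_prod_iff hm.aestronglyMeasurable]
  refine ⟨Eventually.of_forall fun x => (int_m_sub hD x).restrict, ?_⟩
  refine Integrable.mono' (integrable_const (∫ y : ℂ, m D ‖y‖)) ?_ ?_
  · exact (hm.norm.aestronglyMeasurable (μ :=
      (volume.restrict Λ).prod (volume.restrict Λ))).integral_prod_right'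
  · refine Eventually.of_forall fun x => ?_
    simp only [Real.norm_eq_abs, abs_of_nonneg (m_nonneg _ _)]
    rw [abs_of_nonneg (integral_nonneg fun y => m_nonneg _ _), ← integral_m_sub D x]
    exact integral_mono_measure Measure.restrict_le_self (Eventually.of_forall fun y => m_nonneg _ _)
      (int_m_sub hD x)

theorem aesm_K {Λ : Set ℂ} {g : ℂ → ℂ → ℝ} {D C₃ cL CB : ℝ} (h : Ker Λ g D C₃ cL CB) :
    AEStronglyMeasurable (fun p : ℂ × ℂ => K g p.1 p.2)
      ((volume.restrict Λ).prod (volume.restrict Λ)) := by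
  rw [Measure.prod_restrict]
  have h1 : AEStronglyMeasurable (fun p : ℂ × ℂ => g p.1 p.2)
      ((volume.prod volume).restrict (Λ ×ˢ Λ)) :=
    h.smooth.continuousOn.aestronglyMeasurable (h.isOpen.prod h.isOpen).measurableSet
  have h2 : Measurable (fun p : ℂ × ℂ => Real.log ‖p.1 - p.2‖) :=
    Real.measurable_log.comp (measurable_fst.sub measurable_snd).norm
  exact h1.sub h2.aestronglyMeasurable

theorem int_K {Λ : Set ℂ} {g : ℂ → ℂ → ℝ} {D C₃ cL CB : ℝ} (h : Ker Λ g D C₃ cL CB)
    {w : ℂ × ℂ → ℝ} (hw : Measurable w) {C : ℝ} (hC : ∀ p, |w p| ≤ C) :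
    Integrable (fun p : ℂ × ℂ => K g p.1 p.2 * w p)
      ((volume.restrict Λ).prod (volume.restrict Λ)) := by
  refine Integrable.mono' ((int_m_prod h.one_le (vol_ne_top h)).mul_const C) ?_ ?_
  · exact (aesm_K h).mul hw.aestronglyMeasurable
  · filter_upwards [ae_off h.isOpen.measurableSet] with p hp
    rw [norm_mul, Real.norm_of_nonneg (K_nonneg h hp.1 hp.2.1 hp.2.2)]
    exact mul_le_mul (K_le h hp.1 hp.2.1 hp.2.2) (hC p) (abs_nonneg _) (m_nonneg _ _)

/-- Jensen -/
theorem entr_le {Λ : Set ℂ} {g : ℂ → ℂ → ℝ} {D C₃ cL CB : ℝ} (h : Ker Λ g D C₃ cL CB)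
    (ρ : ℂ → ℝ) (hρ : IsDens Λ ρ) : entr Λ ρ ≤ 0 := by
  have hV : 0 < (volume Λ).toReal := ENNReal.toReal_pos (vol_ne_zero h) (vol_ne_top h)
  set V := (volume Λ).toReal with hVdef
  have hΛm := h.isOpen.measurableSet
  have key : ∀ t : ℝ, 0 ≤ t → t * Real.log (1 / V) + t - 1 / V ≤ t * Real.log t := by
    intro t ht
    rcases ht.eq_or_lt with h0 | h0
    · rw [← h0]; simp; positivity
    · have h1 := Real.one_sub_inv_le_log_of_pos (show 0 < t * V by positivity)
      have h2 : Real.log (t * V) = Real.log t - Real.log (1 / V) := by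
        rw [Real.log_mul h0.ne' hV.ne', one_div, Real.log_inv]; ring
      rw [h2] at h1
      have h3 := mul_le_mul_of_nonneg_left h1 h0.le
      have h4 : t * (1 - (t * V)⁻¹) = t - 1 / V := by field_simp
      rw [h4] at h3
      linarith
  have hconst : IntegrableOn (fun _ : ℂ => 1 / V) Λ := integrableOn_const (vol_ne_top h)
  have h1 : ∫ x in Λ, (ρ x * Real.log (1 / V) + ρ x - 1 / V) ≤ ∫ x in Λ, ρ x * Real.log (ρ x) := by
    apply setIntegral_mono_on _ hρ.entropy hΛm
    · intro x hx; exact key _ (hρ.nonneg x hx)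
    · exact ((hρ.integrable.mul_const _).add hρ.integrable).sub hconst
  rw [integral_sub, integral_add, integral_mul_const, hρ.integral, setIntegral_const] at h1
  · have h2 : volume.real Λ • (1 / V) = 1 := by
      rw [Measure.real, ← hVdef, smul_eq_mul]; field_simp
    rw [h2, one_div, Real.log_inv] at h1
    unfold entr
    linarith
  · exact hρ.integrable.mul_const _
  · exact hρ.integrable
  · exact (hρ.integrable.mul_const _).add hρ.integrable
  · exact hconst

theorem int_mu {D : ℝ} (hD : 1 ≤ D) {Λ : Set ℂ} (hfin : volume Λ ≠ ⊤) {u : ℂ → ℝ}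
    (hu : Measurable u) (hu0 : ∀ x, 0 ≤ u x) {C : ℝ} (hC : ∀ x, |u x| ≤ C) :
    Integrable (fun p : ℂ × ℂ => m D ‖p.1 - p.2‖ * u p.1)
      ((volume.restrict Λ).prod (volume.restrict Λ)) ∧
    ∫ p : ℂ × ℂ, m D ‖p.1 - p.2‖ * u p.1 ∂((volume.restrict Λ).prod (volume.restrict Λ)) ≤
      (∫ y : ℂ, m D ‖y‖) * ∫ x in Λ, u x := by
  have : IsFiniteMeasure (volume.restrict Λ) := ⟨by rw [Measure.restrict_apply_univ]; exact hfin.lt_top⟩
  have hI : Integrable (fun p : ℂ × ℂ => m D ‖p.1 - p.2‖ * u p.1)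
      ((volume.restrict Λ).prod (volume.restrict Λ)) := by
    refine Integrable.mono' ((int_m_prod hD hfin).mul_const C) ?_ ?_
    · exact (((measurable_m D).comp (measurable_fst.sub measurable_snd).norm).mul
        (hu.comp measurable_fst)).aestronglyMeasurable
    · refine Eventually.of_forall fun p => ?_
      rw [norm_mul, Real.norm_of_nonneg (m_nonneg _ _)]
      exact mul_le_mul_of_nonneg_left (hC _) (m_nonneg _ _)
  refine ⟨hI, ?_⟩
  rw [integral_prod _ hI, ← integral_const_mul]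
  have hui : Integrable u (volume.restrict Λ) := by
    refine Integrable.mono' (integrable_const C) hu.aestronglyMeasurable ?_
    exact Eventually.of_forall fun x => by rw [Real.norm_eq_abs]; exact hC x
  refine integral_mono_of_nonneg ?_ (hui.const_mul _) ?_
  · exact Eventually.of_forall fun x => integral_nonneg fun y => mul_nonneg (m_nonneg _ _) (hu0 x)
  · refine Eventually.of_forall fun x => ?_
    change ∫ y in Λ, m D ‖x - y‖ * u x ≤ (∫ y : ℂ, m D ‖y‖) * u x
    rw [integral_mul_const, ← integral_m_sub D x]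
    refine mul_le_mul_of_nonneg_right ?_ (hu0 x)
    exact integral_mono_measure Measure.restrict_le_self (Eventually.of_forall fun y => m_nonneg _ _)
      (int_m_sub hD x)

theorem int_mu' {D : ℝ} (hD : 1 ≤ D) {Λ : Set ℂ} (hfin : volume Λ ≠ ⊤) {u : ℂ → ℝ}
    (hu : Measurable u) (hu0 : ∀ x, 0 ≤ u x) {C : ℝ} (hC : ∀ x, |u x| ≤ C) :
    Integrable (fun p : ℂ × ℂ => m D ‖p.1 - p.2‖ * u p.2)
      ((volume.restrict Λ).prod (volume.restrict Λ)) ∧
    ∫ p : ℂ × ℂ, m D ‖p.1 - p.2‖ * u p.2 ∂((volume.restrict Λ).prod (volume.restrict Λ)) ≤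
      (∫ y : ℂ, m D ‖y‖) * ∫ x in Λ, u x := by
  have e : (fun p : ℂ × ℂ => m D ‖p.1 - p.2‖ * u p.2) =
      (fun p : ℂ × ℂ => m D ‖p.1 - p.2‖ * u p.1) ∘ Prod.swap := by
    ext p; simp [norm_sub_rev]
  obtain ⟨h1, h2⟩ := int_mu hD hfin hu hu0 hC
  have : IsFiniteMeasure (volume.restrict Λ) := ⟨by rw [Measure.restrict_apply_univ]; exact hfin.lt_top⟩
  refine ⟨by rw [e]; exact h1.swap, ?_⟩
  refine le_trans (le_of_eq ?_) h2
  have := integral_prod_swap (μ := volume.restrict Λ) (ν := volume.restrict Λ)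
    (fun p : ℂ × ℂ => m D ‖p.1 - p.2‖ * u p.1)
  rw [← this]
  simp [norm_sub_rev]

theorem exists_adm {Λ : Set ℂ} {g : ℂ → ℂ → ℝ} {D C₃ cL CB : ℝ} (h : Ker Λ g D C₃ cL CB)
    {ε : ℝ} (hε : 0 < ε) : ∃ ρ₁ ρ₂, Adm Λ (K g) ε ρ₁ ρ₂ := by
  have hD := h.one_le
  have hΛm := h.isOpen.measurableSet
  have hfin := vol_ne_top h
  have : IsFiniteMeasure (volume.restrict Λ) := ⟨by rw [Measure.restrict_apply_univ]; exact hfin.lt_top⟩
  have hV : 0 < (volume Λ).toReal := ENNReal.toReal_pos (vol_ne_zero h) hfin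
  set V := (volume Λ).toReal with hVdef
  obtain ⟨c, hc⟩ := h.nonempty
  obtain ⟨r₁, hr₁, hball⟩ := Metric.isOpen_iff.1 h.isOpen c hc
  obtain ⟨r, hr, hrr⟩ : ∃ r : ℝ, 0 < r ∧ 2 * r = r₁ := ⟨r₁ / 2, by positivity, by ring⟩
  have hsub : ∀ x ∈ ball c r, ball x r ⊆ Λ := by
    intro x hx
    refine Subset.trans (ball_subset_ball' ?_) hball
    have := mem_ball.1 hx
    linarith
  set C1 := ∫ y : ℂ, m D ‖y‖ with hC1
  have hC10 : 0 ≤ C1 := integral_nonneg fun y => m_nonneg _ _
  set b := 1 / V with hb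
  have hb0 : 0 < b := by positivity
  set ℓ := 8 * ε + 2 * b * C1 with hℓ
  have hℓ0 : 0 ≤ ℓ := by positivity
  set s := r / 2 * Real.exp (-ℓ) with hs
  have hs0 : 0 < s := by positivity
  have hsr : s ≤ r / 2 := by
    have : Real.exp (-ℓ) ≤ 1 := Real.exp_le_one_iff.2 (by linarith)
    nlinarith
  have hlog : Real.log (2 * s) = Real.log r - ℓ := by
    rw [hs, show 2 * (r / 2 * Real.exp (-ℓ)) = r * Real.exp (-ℓ) by ring,
      Real.log_mul hr.ne' (Real.exp_pos _).ne', Real.log_exp]
    ring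
  set B := ball c s with hB
  have hBm : MeasurableSet B := measurableSet_ball
  have hBΛ : B ⊆ Λ := (ball_subset_ball (by linarith)).trans hball
  have hA : 0 < (volume B).toReal :=
    ENNReal.toReal_pos (measure_ball_pos volume c hs0).ne' measure_ball_lt_top.ne
  set A := (volume B).toReal with hAdef
  set a := 1 / A with ha
  have ha0 : 0 < a := by positivity
  set u : ℂ → ℝ := B.indicator (fun _ => a) with hu
  have hum : Measurable u := measurable_const.indicator hBm
  have hu0 : ∀ x, 0 ≤ u x := fun x => indicator_nonneg (fun _ _ => ha0.le) x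
  have hua : ∀ x, u x ≤ a := fun x => indicator_le_self' (fun _ _ => ha0.le) x
  have huabs : ∀ x, |u x| ≤ a := fun x => by rw [abs_of_nonneg (hu0 x)]; exact hua x
  have hui : Integrable u (volume.restrict Λ) := by
    refine Integrable.mono' (integrable_const a) hum.aestronglyMeasurable ?_
    exact Eventually.of_forall fun x => by rw [Real.norm_eq_abs]; exact huabs x
  have hint : ∫ x in Λ, u x = 1 := by
    rw [hu, setIntegral_indicator hBm, inter_eq_self_of_subset_right hBΛ, setIntegral_const,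
      Measure.real, ← hAdef, ha, smul_eq_mul]
    field_simp
  set f : ℂ → ℝ := fun x => u x - b with hf
  have hfm : Measurable f := hum.sub_const _
  have hfabs : ∀ x, |f x| ≤ a + b := fun x => by
    rw [abs_le]; constructor <;> simp only [hf] <;> linarith [hu0 x, hua x]
  -- the energy of `f`
  have hKf : Integrable (fun p : ℂ × ℂ => K g p.1 p.2 * (f p.1 * f p.2))
      ((volume.restrict Λ).prod (volume.restrict Λ)) := by
    refine int_K h ((hfm.comp measurable_fst).mul (hfm.comp measurable_snd))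
      (C := (a + b) * (a + b)) fun p => ?_
    rw [abs_mul]
    exact mul_le_mul (hfabs _) (hfabs _) (abs_nonneg _) (by positivity)
  set e := 1 / 2 * ∫ x in Λ, ∫ y in Λ, K g x y * (f x * f y) with he
  have hKint : ∫ x in Λ, ∫ y in Λ, K g x y * (f x * f y) =
      ∫ p : ℂ × ℂ, K g p.1 p.2 * (f p.1 * f p.2) ∂((volume.restrict Λ).prod (volume.restrict Λ)) :=
    (integral_prod _ hKf).symm
  obtain ⟨i1, i2⟩ := int_mu hD hfin hum hu0 huabs
  obtain ⟨j1, j2⟩ := int_mu' hD hfin hum hu0 huabs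
  have huu : Integrable (fun p : ℂ × ℂ => u p.1 * u p.2)
      ((volume.restrict Λ).prod (volume.restrict Λ)) := hui.mul_prod hui
  have huuint : ∫ p : ℂ × ℂ, u p.1 * u p.2 ∂((volume.restrict Λ).prod (volume.restrict Λ)) = 1 := by
    rw [integral_prod_mul, hint]; ring
  have hlow : ∫ p : ℂ × ℂ, (ℓ * (u p.1 * u p.2) - b * (m D ‖p.1 - p.2‖ * u p.1) -
      b * (m D ‖p.1 - p.2‖ * u p.2)) ∂((volume.restrict Λ).prod (volume.restrict Λ)) ≤
      ∫ p : ℂ × ℂ, K g p.1 p.2 * (f p.1 * f p.2)
        ∂((volume.restrict Λ).prod (volume.restrict Λ)) := by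
    apply integral_mono_ae _ hKf
    · filter_upwards [ae_off hΛm] with p hp
      obtain ⟨hp1, hp2, hne⟩ := hp
      have k0 := K_nonneg h hp1 hp2 hne
      have k1 := K_le h hp1 hp2 hne
      have k2 : ℓ * (u p.1 * u p.2) ≤ K g p.1 p.2 * (u p.1 * u p.2) := by
        by_cases hm1 : p.1 ∈ B
        · by_cases hm2 : p.2 ∈ B
          · refine mul_le_mul_of_nonneg_right ?_ (mul_nonneg (hu0 _) (hu0 _))
            have n0 : 0 < ‖p.1 - p.2‖ := norm_pos_iff.2 (sub_ne_zero.2 hne)
            have n1 : ‖p.1 - p.2‖ ≤ 2 * s := by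
              have e1 := mem_ball.1 hm1
              have e2 := mem_ball'.1 hm2
              rw [← dist_eq_norm]
              linarith [dist_triangle p.1 c p.2]
            have n2 : Real.log ‖p.1 - p.2‖ ≤ Real.log (2 * s) := Real.log_le_log n0 n1
            have n3 := h.log_r_le p.1 hp1 p.2 hp2 r hr
              (hsub _ (ball_subset_ball (by linarith) hm1))
            unfold K
            linarith
          · have : u p.2 = 0 := indicator_of_notMem hm2 _
            rw [this]; simp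
        · have : u p.1 = 0 := indicator_of_notMem hm1 _
          rw [this]; simp
      have k3 : b * (K g p.1 p.2 * u p.1) ≤ b * (m D ‖p.1 - p.2‖ * u p.1) :=
        mul_le_mul_of_nonneg_left (mul_le_mul_of_nonneg_right k1 (hu0 _)) hb0.le
      have k4 : b * (K g p.1 p.2 * u p.2) ≤ b * (m D ‖p.1 - p.2‖ * u p.2) :=
        mul_le_mul_of_nonneg_left (mul_le_mul_of_nonneg_right k1 (hu0 _)) hb0.le
      have k5 : 0 ≤ b ^ 2 * K g p.1 p.2 := by positivity
      have k6 : K g p.1 p.2 * (f p.1 * f p.2) = K g p.1 p.2 * (u p.1 * u p.2) -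
        b * (K g p.1 p.2 * u p.1) - b * (K g p.1 p.2 * u p.2) + b ^ 2 * K g p.1 p.2 := by
        simp only [hf]; ring
      rw [k6]
      linarith
    · exact ((huu.const_mul _).sub (i1.const_mul _)).sub (j1.const_mul _)
  have hs1 : Integrable (fun p : ℂ × ℂ => ℓ * (u p.1 * u p.2) - b * (m D ‖p.1 - p.2‖ * u p.1))
      ((volume.restrict Λ).prod (volume.restrict Λ)) :=
    (huu.const_mul _).sub (i1.const_mul _)
  rw [integral_sub hs1 (j1.const_mul _),
    integral_sub (huu.const_mul _) (i1.const_mul _), integral_const_mul, integral_const_mul,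
    integral_const_mul, huuint] at hlow
  rw [hint, mul_one] at i2 j2
  have he4 : 4 * ε ≤ e := by
    rw [he, hKint]
    have q1 := mul_le_mul_of_nonneg_left i2 hb0.le
    have q2 := mul_le_mul_of_nonneg_left j2 hb0.le
    have : ℓ = 8 * ε + 2 * b * C1 := hℓ
    linarith
  have he0 : 0 < e := by linarith
  -- the mixing parameter
  set t := Real.sqrt (4 * ε / e) with ht
  have ht0 : 0 ≤ t := Real.sqrt_nonneg _
  have ht2 : t ^ 2 = 4 * ε / e := Real.sq_sqrt (by positivity)
  have ht1 : t ≤ 1 := by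
    rw [ht, Real.sqrt_le_left (by norm_num), one_pow, div_le_one he0]
    exact he4
  have hconst : IntegrableOn (fun _ : ℂ => b) Λ := integrableOn_const hfin
  have hVb : ∫ x in Λ, b = 1 := by
    rw [setIntegral_const, Measure.real, ← hVdef, smul_eq_mul, hb]
    field_simp
  have hfi : Integrable f (volume.restrict Λ) := hui.sub hconst
  have dens : ∀ θ : ℝ, 0 ≤ θ → θ ≤ 1 → IsDens Λ (fun x => b + θ * f x) := by
    intro θ hθ0 hθ1
    refine ⟨fun x _ => ?_, ?_, ?_, ?_⟩
    · have := hu0 x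
      have h2 : 0 ≤ θ * u x := mul_nonneg hθ0 this
      simp only [hf]
      nlinarith
    · exact hconst.add (hfi.const_mul _)
    · rw [integral_add hconst (hfi.const_mul _), integral_const_mul, hVb]
      have : ∫ x in Λ, f x = 0 := by
        simp only [hf]
        rw [integral_sub hui hconst, hint, hVb]; ring
      rw [this]; ring
    · set v₁ := b + θ * (a - b)
      set v₂ := b + θ * (0 - b)
      have e1 : (fun x => (b + θ * f x) * Real.log (b + θ * f x)) =
          fun x => B.indicator (fun _ => v₁ * Real.log v₁ - v₂ * Real.log v₂) x +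
            v₂ * Real.log v₂ := by
        ext x
        by_cases hx : x ∈ B
        · simp only [hf, hu, indicator_of_mem hx]
          ring
        · simp only [hf, hu, indicator_of_notMem hx]
          ring
      rw [e1]
      refine Integrable.add ?_ (integrableOn_const hfin)
      exact (integrableOn_const hfin).indicator hBm
  refine ⟨fun x => b + t * f x, fun x => b + 0 * f x, dens t ht0 ht1, dens 0 le_rfl zero_le_one, ?_⟩
  unfold en
  have e2 : ∀ x y : ℂ, K g x y * ((b + t * f x) - (b + 0 * f x)) * ((b + t * f y) - (b + 0 * f y)) =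
      t ^ 2 * (K g x y * (f x * f y)) := by
    intro x y; ring
  simp only [e2, integral_const_mul]
  have : (1:ℝ) / 2 * (t ^ 2 * ∫ x in Λ, ∫ y in Λ, K g x y * (f x * f y)) = t ^ 2 * e := by
    rw [he]; ring
  rw [this, ht2]
  field_simp

end S0

open S0

theorem taskS0 : TaskS0 := by
  intro Λ g D C₃ cL CB h
  exact ⟨entr_le h, fun ε hε => exists_adm h hε⟩

end Pool.Agent.H836_PV
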