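import Pool.Agent.H836_PV.S2e

/-!
# Task S2 : compactness, existence of maximizers, left continuity
-/

open MeasureTheory Filter Topology Set Metric

namespace Pool.Agent.H836_PV

section

variable {Λ : Set ℂ} {g : ℂ → ℂ → ℝ} {D C₃ cL CB : ℝ}

lemma compact_seq (h0 : TaskS0) (h3 : TaskV3) (hK : Ker Λ g D C₃ cL CB) {ε s : ℝ}
    {ρ₁ ρ₂ : ℕ → ℂ → ℝ}
    (d₁ : ∀ n, IsDens Λ (ρ₁ n)) (d₂ : ∀ n, IsDens Λ (ρ₂ n))
    (he : ∀ e < ε, ∀ᶠ n in atTop, 4 * e ≤ en Λ (K g) (ρ₁ n) (ρ₂ n))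
    (hs : ∀ t < s, ∀ᶠ n in atTop, t ≤ 1 / 2 * (entr Λ (ρ₁ n) + entr Λ (ρ₂ n)))
    (hub : ∀ t, s < t → ∃ e < ε, ∀ τ₁ τ₂, IsDens Λ τ₁ → IsDens Λ τ₂ →
      4 * e ≤ en Λ (K g) τ₁ τ₂ → 1 / 2 * (entr Λ τ₁ + entr Λ τ₂) ≤ t) :
    ∃ φ : ℕ → ℕ, StrictMono φ ∧ ∃ σ₁ σ₂, IsDens Λ σ₁ ∧ IsDens Λ σ₂ ∧
      4 * ε ≤ en Λ (K g) σ₁ σ₂ ∧ s ≤ 1 / 2 * (entr Λ σ₁ + entr Λ σ₂) ∧
      Tendsto (fun n => ∫ x in Λ, |ρ₁ (φ n) x - σ₁ x|) atTop (𝓝 0) ∧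
      Tendsto (fun n => ∫ x in Λ, |ρ₂ (φ n) x - σ₂ x|) atTop (𝓝 0) := by
  have hJ := (h0 Λ g D C₃ cL CB hK).1
  obtain ⟨N, hN⟩ := eventually_atTop.1 (hs (s - 1) (by linarith))
  have hshift : Tendsto (fun n => n + N) atTop atTop := tendsto_add_atTop_nat N
  obtain ⟨φ, hφ, σ₁, σ₂, c1, c2, c3, c4, c5, c6⟩ := compact_aux h3 hK
    (ρ₁ := fun n => ρ₁ (n + N)) (ρ₂ := fun n => ρ₂ (n + N)) (ε := ε) (s := s)
    (Kb := -Real.log (volume Λ).toReal - 2 * (s - 1))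
    (fun n => d₁ _) (fun n => d₂ _)
    (fun n => by
      have h1 := hN (n + N) (by omega)
      have h2 := hJ _ (d₂ (n + N))
      have e1 : entr Λ (ρ₁ (n + N)) ≥ 2 * (s - 1) := by linarith
      unfold entr at e1
      linarith)
    (fun n => by
      have h1 := hN (n + N) (by omega)
      have h2 := hJ _ (d₁ (n + N))
      have e1 : entr Λ (ρ₂ (n + N)) ≥ 2 * (s - 1) := by linarith
      unfold entr at e1
      linarith)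
    (fun e hee => hshift.eventually (he e hee)) (fun t ht => hshift.eventually (hs t ht)) hub
  exact ⟨fun n => φ n + N, fun a b hab => by
    have := hφ hab
    simp only
    omega, σ₁, σ₂, c1, c2, c3, c4, c5, c6⟩

/-- left continuity of `sL` -/
lemma sL_left (h0 : TaskS0) (h3 : TaskV3) (hK : Ker Λ g D C₃ cL CB) {ε : ℝ} (hε : 0 < ε)
    {η : ℝ} (hη : 0 < η) : ∃ e, 0 < e ∧ e < ε ∧ sL Λ (K g) e < sL Λ (K g) ε + η := by
  set S : Set ℝ := (fun e => sL Λ (K g) e) '' Ioo 0 ε with hS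
  have hne : S.Nonempty := ⟨_, ε / 2, ⟨by linarith, by linarith⟩, rfl⟩
  have hbd : BddBelow S := by
    refine ⟨sL Λ (K g) ε, ?_⟩
    rintro _ ⟨e, ⟨he0, he1⟩, rfl⟩
    exact sL_anti h0 hK he0 he1.le
  set s := sInf S with hs
  have hsle : ∀ e, 0 < e → e < ε → s ≤ sL Λ (K g) e := fun e he0 he1 =>
    csInf_le hbd ⟨e, ⟨he0, he1⟩, rfl⟩
  -- an almost maximizing sequence
  have hseq : ∀ n : ℕ, ∃ ρ₁ ρ₂, Adm Λ (K g) (ε * (1 - 1 / ((n : ℝ) + 2))) ρ₁ ρ₂ ∧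
      s - 1 / ((n : ℝ) + 1) < 1 / 2 * (entr Λ ρ₁ + entr Λ ρ₂) := by
    intro n
    have hn : (0 : ℝ) ≤ n := Nat.cast_nonneg n
    have h2 : 1 / ((n : ℝ) + 2) < 1 := by
      rw [div_lt_one (by linarith)]
      linarith
    have h2' : 0 < 1 / ((n : ℝ) + 2) := by positivity
    have he0 : 0 < ε * (1 - 1 / ((n : ℝ) + 2)) := mul_pos hε (by linarith)
    have he1 : ε * (1 - 1 / ((n : ℝ) + 2)) < ε := by nlinarith
    obtain ⟨τ₁, τ₂, hA⟩ := (h0 Λ g D C₃ cL CB hK).2 _ he0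
    have h1 := hsle _ he0 he1
    have h1' : 0 < 1 / ((n : ℝ) + 1) := by positivity
    obtain ⟨t, ⟨ρ₁, ρ₂, hA', rfl⟩, ht⟩ := exists_lt_of_lt_csSup
      (s := {s | ∃ ρ₁ ρ₂, Adm Λ (K g) (ε * (1 - 1 / ((n : ℝ) + 2))) ρ₁ ρ₂ ∧
        s = 1 / 2 * (entr Λ ρ₁ + entr Λ ρ₂)}) ⟨_, τ₁, τ₂, hA, rfl⟩
      (show s - 1 / ((n : ℝ) + 1) < sL Λ (K g) (ε * (1 - 1 / ((n : ℝ) + 2))) by linarith)
    exact ⟨ρ₁, ρ₂, hA', ht⟩
  choose ρ₁ ρ₂ hA hρ using hseq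
  have ht1 : Tendsto (fun n : ℕ => 1 / ((n : ℝ) + 1)) atTop (𝓝 0) :=
    tendsto_one_div_add_atTop_nhds_zero_nat
  have ht2 : Tendsto (fun n : ℕ => 1 / ((n : ℝ) + 2)) atTop (𝓝 0) := by
    have h := ht1.comp (tendsto_add_atTop_nat 1)
    refine h.congr fun n => ?_
    simp only [Function.comp]
    push_cast
    ring
  obtain ⟨φ, -, σ₁, σ₂, c1, c2, c3, c4, -, -⟩ := compact_seq h0 h3 hK (ε := ε) (s := s)
    (ρ₁ := ρ₁) (ρ₂ := ρ₂) (fun n => (hA n).1) (fun n => (hA n).2.1)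
    (fun e hee => by
      have h1 : Tendsto (fun n : ℕ => 4 * (ε * (1 - 1 / ((n : ℝ) + 2)))) atTop
          (𝓝 (4 * (ε * (1 - 0)))) := ((ht2.const_sub 1).const_mul ε).const_mul 4
      filter_upwards [h1.eventually (Ioi_mem_nhds (show 4 * e < 4 * (ε * (1 - 0)) by linarith))]
        with n hn
      rw [(hA n).2.2]
      exact le_of_lt hn)
    (fun t ht => by
      have h1 : Tendsto (fun n : ℕ => s - 1 / ((n : ℝ) + 1)) atTop (𝓝 (s - 0)) :=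
        ht1.const_sub s
      filter_upwards [h1.eventually (Ioi_mem_nhds (show t < s - 0 by linarith))] with n hn
      have hn' : t < s - 1 / ((n : ℝ) + 1) := hn
      linarith [hρ n])
    (fun t ht => by
      obtain ⟨_, ⟨e, ⟨he0, he1⟩, rfl⟩, hlt⟩ := (csInf_lt_iff hbd hne).1 ht
      refine ⟨e, he1, fun τ₁ τ₂ k1 k2 k3 => (le_sL h0 hK he0 k1 k2 k3).trans ?_⟩
      exact le_of_lt hlt)
  have hfin : s ≤ sL Λ (K g) ε := c4.trans (le_sL h0 hK hε c1 c2 c3)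
  have : s < sL Λ (K g) ε + η := by linarith
  obtain ⟨_, ⟨e, ⟨he0, he1⟩, rfl⟩, hlt⟩ := (csInf_lt_iff hbd hne).1 this
  exact ⟨e, he0, he1, hlt⟩

end

theorem taskS2 (h0 : TaskS0) (h3 : TaskV3) : TaskS2 := by
  intro Λ g D C₃ cL CB hK ε hε
  constructor
  · intro ρ₁ ρ₂ d₁ d₂ he hs
    obtain ⟨φ, hφ, σ₁, σ₂, c1, c2, c3, c4, c5, c6⟩ := compact_seq h0 h3 hK d₁ d₂ he hs
      (fun t ht => by
        obtain ⟨e, he0, he1, hlt⟩ := sL_left h0 h3 hK hε (η := t - sL Λ (K g) ε) (by linarith)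
        refine ⟨e, he1, fun τ₁ τ₂ k1 k2 k3 => (le_sL h0 hK he0 k1 k2 k3).trans ?_⟩
        linarith)
    have heq : en Λ (K g) σ₁ σ₂ = 4 * ε := by
      rcases c3.eq_or_lt with h | h
      · exact h.symm
      · have := lt_sL h0 hK hε c1 c2 h
        linarith
    refine ⟨φ, hφ, σ₁, σ₂, ⟨⟨c1, c2, heq⟩, fun τ₁ τ₂ hA => ?_⟩, c5, c6⟩
    exact (hA.le_sL h0 hK).trans c4
  · intro η hη
    obtain ⟨e, he0, he1, hlt⟩ := sL_left h0 h3 hK hε hη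
    refine ⟨ε - e, by linarith, by linarith, fun ρ₁ ρ₂ k1 k2 k3 => ?_⟩
    have := le_sL h0 hK he0 k1 k2 (by linarith)
    linarith

end Pool.Agent.H836_PV
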