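import Pool.Agent.H836_PV.StmtsB

open MeasureTheory Filter Topology Set Metric

namespace Pool.Agent.H836_PV

theorem TS_vol {Λ : Set ℂ} {g : ℂ → ℂ → ℝ} {D C₃ cL CB : ℝ} (hK : Ker Λ g D C₃ cL CB) :
    ∃ V : ℝ, 0 < V ∧ volume Λ = ENNReal.ofReal V := by
  have h1 : volume Λ ≠ 0 := (hK.isOpen.measure_pos volume hK.nonempty).ne'
  have h2 : volume Λ ≠ ⊤ := by
    have : Λ ⊆ closedBall 0 D := fun x hx => by
      rw [mem_closedBall_zero_iff]; exact hK.norm_le x hx
    exact ((measure_mono this).trans_lt measure_closedBall_lt_top).ne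
  exact ⟨(volume Λ).toReal, ENNReal.toReal_pos h1 h2, (ENNReal.ofReal_toReal h2).symm⟩

theorem taskTS (hU : TaskU) (hV4 : TaskV4) (hS2 : TaskS2) (hS3 : TaskS3) (hW : TaskW) : TaskTS := by
  intro Λ g D C₃ cL CB hK ε hε η hη
  obtain ⟨V, hV, hVol⟩ := TS_vol hK
  -- lower bound data
  obtain ⟨ρ₁, ρ₂, Q, c, r, L, hN, hen, hent⟩ := hS3 Λ g D C₃ cL CB hK ε (η / 2) hε (by positivity)
  obtain ⟨M₁, hM₁⟩ := hW Λ g D C₃ cL CB hK ρ₁ ρ₂ Q c r L ε hε hN hen (η / 2) (by positivity)
  -- upper bound data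
  obtain ⟨ε₁, hε₁, hε₁ε, hsup⟩ := (hS2 Λ g D C₃ cL CB hK ε hε).2 (η / 4) (by positivity)
  obtain ⟨ε₂, hε₂, M₂, hM₂⟩ := hV4 Λ g D C₃ cL CB hK 1 (fun _ => 0) measurable_const univ ε ε₁
    (sL Λ (K g) ε + η / 4) hε₁ hε₁ε (fun σ₁ σ₂ h1 h2 h3 _ => hsup σ₁ σ₂ h1 h2 h3) (η / 8)
    (by positivity)
  obtain ⟨C, hC, hU1⟩ := hU Λ g D C₃ cL CB hK
  set η' : ℝ := min (1 / 2) (min (ε₂ / (2 * C)) (η / (8 * C))) with hη'
  have hη'0 : 0 < η' := by positivity
  have hη'1 : η' < 1 := lt_of_le_of_lt (min_le_left _ _) (by norm_num)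
  have hη'2 : C * η' ≤ ε₂ / 2 := by
    have : η' ≤ ε₂ / (2 * C) := (min_le_right _ _).trans (min_le_left _ _)
    calc C * η' ≤ C * (ε₂ / (2 * C)) := by gcongr
      _ = ε₂ / 2 := by field_simp
  have hη'3 : C * η' ≤ η / 8 := by
    have : η' ≤ η / (8 * C) := (min_le_right _ _).trans (min_le_right _ _)
    calc C * η' ≤ C * (η / (8 * C)) := by gcongr
      _ = η / 8 := by field_simp
  obtain ⟨N₀, hN₀⟩ := hU1 η' hη'0 hη'1
  set a : ℝ := sL Λ (K g) ε + η + Real.log V with ha
  obtain ⟨M₃, hM₃⟩ := exists_nat_gt (1 / ε₂ + 1 / η + 16 / η' * (1 + |a|) + 1)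
  refine ⟨M₁ + M₂ + N₀ + M₃, ?_⟩
  intro M hM E hE δ hδ hδ1
  constructor
  · refine le_trans ?_ (hM₁ M (by omega) E hE δ hδ hδ1)
    have hle : sL Λ (K g) ε - η ≤ 1 / 2 * (entr Λ ρ₁ + entr Λ ρ₂) - η / 2 := by linarith
    have hle2 : Real.exp (2 * M * (sL Λ (K g) ε - η)) ≤
        Real.exp (2 * M * (1 / 2 * (entr Λ ρ₁ + entr Λ ρ₂) - η / 2)) :=
      Real.exp_le_exp.mpr (mul_le_mul_of_nonneg_left hle (by positivity))
    exact mul_le_mul' (ENNReal.ofReal_le_ofReal (mul_le_mul_of_nonneg_left hle2 hδ.le)) le_rfl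
  · -- largeness of `M`
    have hMR : 1 / ε₂ + 1 / η + 16 / η' * (1 + |a|) + 1 ≤ (M : ℝ) := by
      have : (M₃ : ℝ) ≤ M := by exact_mod_cast (by omega : M₃ ≤ M)
      linarith
    have p1 : 0 < 1 / ε₂ := by positivity
    have p2 : 0 < 1 / η := by positivity
    have p3 : 0 < 16 / η' * (1 + |a|) := by positivity
    have hM1 : (1 : ℝ) ≤ M := by linarith
    have hMe : 1 ≤ M * ε₂ := by
      have : 1 / ε₂ ≤ M := by linarith
      rwa [div_le_iff₀ hε₂] at this
    have hMη : 1 ≤ M * η := by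
      have : 1 / η ≤ M := by linarith
      rwa [div_le_iff₀ hη] at this
    have hMη' : 16 * (1 + |a|) ≤ M * η' := by
      have h1 : 16 / η' * (1 + |a|) ≤ M := by linarith
      rw [div_mul_eq_mul_div, div_le_iff₀ hη'0] at h1
      exact h1
    have hcard : Fintype.card (Fin M ⊕ Fin M) = 2 * M := by
      simp [Fintype.card_sum]; ring
    have hcirc : ∀ i, |circ M i| = 1 := by
      intro i
      cases i <;> simp [circ]
    have hup := hN₀ (Fin M ⊕ Fin M) (by rw [hcard]; omega) (circ M) hcirc univ univ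
      MeasurableSet.univ MeasurableSet.univ (fun _ _ _ _ => mem_univ _) E δ hδ
    have hv4 := hM₂ M (by omega)
    have hsh : shell Λ g M E δ = cf Λ (Fin M ⊕ Fin M) ∩ univ ∩
        {x | E ≤ Ham g (circ M) x ∧ Ham g (circ M) x < E + δ} := by
      ext x
      constructor
      · rintro ⟨h1, h2, h3⟩
        exact ⟨⟨h1, mem_univ _⟩, h2, h3⟩
      · rintro ⟨⟨h1, -⟩, h2, h3⟩
        exact ⟨h1, h2, h3⟩
    have hcardR : ((Fintype.card (Fin M ⊕ Fin M) : ℕ) : ℝ) = 2 * M := by
      rw [hcard]; push_cast; ring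
    rw [hcardR] at hup
    have hE1 := abs_le.mp hE
    have hmono : volume (cf Λ (Fin M ⊕ Fin M) ∩ univ ∩
        {x | E - C * η' * (2 * (M : ℝ)) ^ 2 ≤ Ham g (circ M) x}) ≤
        ENNReal.ofReal (Real.exp (2 * M * (sL Λ (K g) ε + η / 4 + η / 8))) *
          (volume Λ) ^ (2 * M) := by
      refine le_trans (measure_mono ?_) hv4
      rintro x ⟨⟨hx1, -⟩, hx2⟩
      refine ⟨hx1, ?_, mem_univ _⟩
      refine le_trans ?_ hx2
      have q1 : C * η' * (2 * (M : ℝ)) ^ 2 ≤ ε₂ / 2 * (2 * (M : ℝ)) ^ 2 := by gcongr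
      have q2 : 1 ≤ ε₂ / 2 * (2 * (M : ℝ)) ^ 2 := by nlinarith
      linarith [hE1.1]
    rw [hsh]
    refine hup.trans ?_
    have hVM : (volume Λ) ^ (2 * M) = ENNReal.ofReal (V ^ (2 * M)) := by
      rw [hVol, ENNReal.ofReal_pow hV.le]
    rw [hVM] at hmono ⊢
    have hVp : 0 < V ^ (2 * M) := by positivity
    calc _ ≤ ENNReal.ofReal (δ * Real.exp (C * η' * (2 * M))) *
          (ENNReal.ofReal (Real.exp (2 * M * (sL Λ (K g) ε + η / 4 + η / 8))) *
          ENNReal.ofReal (V ^ (2 * M))) +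
          ENNReal.ofReal (δ * Real.exp (-(η' * (2 * (M : ℝ)) ^ 2 / 16))) := by gcongr
      _ = ENNReal.ofReal (δ * Real.exp (C * η' * (2 * M)) *
          (Real.exp (2 * M * (sL Λ (K g) ε + η / 4 + η / 8)) * V ^ (2 * M)) +
          δ * Real.exp (-(η' * (2 * (M : ℝ)) ^ 2 / 16))) := by
        rw [← ENNReal.ofReal_mul (by positivity), ← ENNReal.ofReal_mul (by positivity),
          ← ENNReal.ofReal_add (by positivity) (by positivity)]
      _ ≤ ENNReal.ofReal (δ * Real.exp (2 * M * (sL Λ (K g) ε + η)) * V ^ (2 * M)) := by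
        apply ENNReal.ofReal_le_ofReal
        set s := sL Λ (K g) ε with hs
        have htwo : (2 : ℝ) ≤ Real.exp 1 := by
          have := Real.add_one_le_exp (1 : ℝ); linarith
        -- first term
        have t1 : 2 * (Real.exp (C * η' * (2 * M)) * Real.exp (2 * M * (s + η / 4 + η / 8))) ≤
            Real.exp (2 * M * (s + η)) := by
          rw [← Real.exp_add]
          calc 2 * Real.exp (C * η' * (2 * M) + 2 * M * (s + η / 4 + η / 8))
              ≤ Real.exp 1 * Real.exp (C * η' * (2 * M) + 2 * M * (s + η / 4 + η / 8)) := by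
                gcongr
            _ = Real.exp (1 + (C * η' * (2 * M) + 2 * M * (s + η / 4 + η / 8))) := by
                rw [← Real.exp_add]
            _ ≤ Real.exp (2 * M * (s + η)) := by
                apply Real.exp_le_exp.mpr
                have : C * η' * (2 * M) ≤ η / 8 * (2 * M) := by gcongr
                nlinarith
        -- second term
        have t2 : 2 * Real.exp (-(η' * (2 * (M : ℝ)) ^ 2 / 16)) ≤
            Real.exp (2 * M * (s + η)) * V ^ (2 * M) := by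
          have e1 : V ^ (2 * M) = Real.exp (2 * M * Real.log V) := by
            have : (2 * M * Real.log V : ℝ) = ((2 * M : ℕ) : ℝ) * Real.log V := by push_cast; ring
            rw [this, Real.exp_nat_mul, Real.exp_log hV]
          rw [e1, ← Real.exp_add]
          calc 2 * Real.exp (-(η' * (2 * (M : ℝ)) ^ 2 / 16))
              ≤ Real.exp 1 * Real.exp (-(η' * (2 * (M : ℝ)) ^ 2 / 16)) := by gcongr
            _ = Real.exp (1 + -(η' * (2 * (M : ℝ)) ^ 2 / 16)) := by rw [← Real.exp_add]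
            _ ≤ _ := by
                apply Real.exp_le_exp.mpr
                have e2 : 2 * M * (s + η) + 2 * M * Real.log V = 2 * M * a := by rw [ha]; ring
                rw [e2]
                have e3 : -|a| ≤ a := neg_abs_le a
                have e4 : 16 * (1 + |a|) * M ≤ M * η' * M := by gcongr
                nlinarith
        have hδ0 := hδ.le
        have u1 : 2 * (δ * Real.exp (C * η' * (2 * M)) *
            (Real.exp (2 * M * (s + η / 4 + η / 8)) * V ^ (2 * M))) ≤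
            δ * Real.exp (2 * M * (s + η)) * V ^ (2 * M) := by
          have : 2 * (δ * Real.exp (C * η' * (2 * M)) *
            (Real.exp (2 * M * (s + η / 4 + η / 8)) * V ^ (2 * M))) =
            δ * (2 * (Real.exp (C * η' * (2 * M)) * Real.exp (2 * M * (s + η / 4 + η / 8)))) *
              V ^ (2 * M) := by ring
          rw [this]
          gcongr
        have u2 : 2 * (δ * Real.exp (-(η' * (2 * (M : ℝ)) ^ 2 / 16))) ≤
            δ * Real.exp (2 * M * (s + η)) * V ^ (2 * M) := by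
          have : 2 * (δ * Real.exp (-(η' * (2 * (M : ℝ)) ^ 2 / 16))) =
            δ * (2 * Real.exp (-(η' * (2 * (M : ℝ)) ^ 2 / 16))) := by ring
          rw [this, mul_assoc]
          gcongr
        linarith
      _ = _ := by rw [ENNReal.ofReal_mul (by positivity)]

end Pool.Agent.H836_PV
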