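import Pool.Agent.H836_PV.Stmts

/-!
# Statements of the tasks of modules U (volume of bad configurations), Df, TS and B
-/

open MeasureTheory Filter Topology Set Metric

namespace Pool.Agent.H836_PV

/-- TASK U2: volume of the configurations with many bad vortices -/
def TaskU2 : Prop := ∀ (Λ : Set ℂ) (V CB : ℝ), IsOpen Λ → 1 ≤ V → volume Λ ≤ ENNReal.ofReal V →
  0 ≤ CB → (∀ r, 0 < r → r ≤ 1 → volume {x ∈ Λ | ¬ ball x r ⊆ Λ} ≤ ENNReal.ofReal (CB * r)) →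
  ∀ (ι : Type) [Fintype ι] [DecidableEq ι] (n : ℕ) (r : ℝ), 0 < r → r ≤ 1 →
    volume {x : ι → ℂ | x ∈ cf Λ ι ∧ n ≤ Set.ncard {i | ¬ Gd Λ Finset.univ r x i}} ≤
      ENNReal.ofReal (2 * 2 ^ Fintype.card ι * V ^ Fintype.card ι *
        ((CB + 4 * Fintype.card ι) * r) ^ ((n + 1) / 2))

/-- the squared length of the gradient -/
noncomputable def gr2 {ι : Type} [Fintype ι] [DecidableEq ι] (H : (ι → ℂ) → ℝ) (x : ι → ℂ) : ℝ :=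
  ∑ i, ((D1 H x (Pi.single i 1)) ^ 2 + (D1 H x (Pi.single i Complex.I)) ^ 2)

/-- TASK Df1: divergence theorem (pure calculus) -/
def TaskDf1 : Prop := ∀ (ι : Type) [Fintype ι] [DecidableEq ι] (R : Set (ι → ℂ))
  (H χ F : (ι → ℂ) → ℝ), IsOpen R → ContDiffOn ℝ 2 H R → Measurable H →
  (∀ E, volume {x | x ∈ R ∧ H x = E} = 0) → ContDiff ℝ 1 χ → HasCompactSupport χ →
  tsupport χ ⊆ R → ContDiff ℝ 1 F → ∀ τ : ℝ, 0 < τ → ∀ E : ℝ,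
    DifferentiableAt ℝ (fun t => ∫ x in {x | x ∈ R ∧ H x < t},
      χ x * F x * (gr2 H x / (gr2 H x + τ ^ 2))) E

/-- TASK Df2: abstract differentiability theorem (uses Df1) -/
def TaskDf2 : Prop := ∀ (ι : Type) [Fintype ι] [DecidableEq ι] (R : Set (ι → ℂ))
  (H : (ι → ℂ) → ℝ), IsOpen R → volume R ≠ ⊤ → ContDiffOn ℝ 2 H R → Measurable H →
  (∃ C : ℝ, ∀ E δ : ℝ, 0 < δ →
    volume {x | x ∈ R ∧ E ≤ H x ∧ H x < E + δ} ≤ ENNReal.ofReal (C * δ)) →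
  (∀ κ : ℝ, 0 < κ → ∃ Q : Set (ι → ℂ), IsCompact Q ∧ Q ⊆ R ∧ ∀ E δ : ℝ, 0 < δ →
    volume {x | x ∈ R ∧ x ∉ Q ∧ E ≤ H x ∧ H x < E + δ} ≤ ENNReal.ofReal (κ * δ)) →
  (∀ Q : Set (ι → ℂ), IsCompact Q → Q ⊆ R → ∀ κ : ℝ, 0 < κ → ∃ τ : ℝ, 0 < τ ∧
    ∀ E δ : ℝ, 0 < δ → volume {x | x ∈ Q ∧ gr2 H x ≤ τ ^ 2 ∧ E ≤ H x ∧ H x < E + δ} ≤
      ENNReal.ofReal (κ * δ)) →
  ∀ F : (ι → ℂ) → ℝ, ContinuousOn F R → (∃ C, ∀ x ∈ R, |F x| ≤ C) → ∀ E : ℝ,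
    DifferentiableAt ℝ (fun t => ∫ x in {x | x ∈ R ∧ H x < t}, F x) E

/-- glue the coordinates in `s` and the others -/
def glue {ι : Type} [DecidableEq ι] (s : Finset ι) (u : {i // i ∈ s} → ℂ) (y : {i // i ∉ s} → ℂ) :
    ι → ℂ :=
  fun i => if h : i ∈ s then u ⟨i, h⟩ else y ⟨i, h⟩

/-- the configuration of the coordinates in `s` is good at scale `r` (others fixed) -/
structure GoodAt {ι : Type} (Λ : Set ℂ) (s : Finset ι) (y : {i // i ∉ s} → ℂ) (r : ℝ)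
    (u : {i // i ∈ s} → ℂ) : Prop where
  bdry : ∀ i, ball (u i) r ⊆ Λ
  pair : ∀ i j, i ≠ j → r ≤ ‖u i - u j‖
  other : ∀ i j, r ≤ ‖u i - y j‖

/-- TASK U1: the bound for one triple of vortices (uses L) -/
def TaskU1 : Prop := ∀ (Λ : Set ℂ) (g : ℂ → ℂ → ℝ) (D C₃ cL CB : ℝ), Ker Λ g D C₃ cL CB →
  ∃ C : ℝ, 0 < C ∧ ∀ (ι : Type) [Fintype ι] [DecidableEq ι] (c : ι → ℝ), (∀ i, |c i| = 1) →
    ∀ s : Finset ι, s.card = 3 → ∀ y : {i // i ∉ s} → ℂ, (∀ i, y i ∈ Λ) → ∀ r : ℝ, 0 < r → r ≤ 1 →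
    ∀ E δ : ℝ, 0 < δ →
      volume {u : {i // i ∈ s} → ℂ | GoodAt Λ s y r u ∧ E ≤ Ham g c (glue s u y) ∧
        Ham g c (glue s u y) < E + δ} ≤ ENNReal.ofReal (C * δ * Fintype.card ι ^ 2 / r ^ 20)

/-- TASK Um: the master bound (uses U1) -/
def TaskUm : Prop := ∀ (Λ : Set ℂ) (g : ℂ → ℂ → ℝ) (D C₃ cL CB : ℝ), Ker Λ g D C₃ cL CB →
  ∃ C : ℝ, 0 < C ∧ ∀ (ι : Type) [Fintype ι] [DecidableEq ι], 3 ≤ Fintype.card ι →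
    ∀ c : ι → ℝ, (∀ i, |c i| = 1) → ∀ A : Set (ι → ℂ), MeasurableSet A → ∀ (m₀ : ℕ) (E δ : ℝ),
    0 < δ →
      volume (cf Λ ι ∩ A ∩ {x | E ≤ Ham g c x ∧ Ham g c x < E + δ}) ≤
      ∑ s ∈ Finset.univ.powersetCard 3,
        (ENNReal.ofReal (C * δ * Fintype.card ι ^ 2 * Real.exp (20 * m₀)) *
          volume {y : {i // i ∉ s} → ℂ | (∀ i, y i ∈ Λ) ∧
            ∃ u, GoodAt Λ s y (Real.exp (-m₀)) u ∧ glue s u y ∈ A ∧ E ≤ Ham g c (glue s u y)} +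
        ∑' m : ℕ, ENNReal.ofReal (C * δ * Fintype.card ι ^ 2 * Real.exp (20 * (m₀ + 1 + m))) *
          volume {y : {i // i ∉ s} → ℂ | (∀ i, y i ∈ Λ) ∧
            (∃ u, GoodAt Λ s y (Real.exp (-(m₀ + 1 + m))) u ∧ glue s u y ∈ A) ∧
            Fintype.card ι ≤ 8 + Set.ncard {i | ¬ Gd Λ Finset.univ (2 * Real.exp (-(m₀ + m))) y i}})

/-- distinct configurations in `Λ` -/
def RR (Λ : Set ℂ) (ι : Type) : Set (ι → ℂ) := {x | x ∈ cf Λ ι ∧ Function.Injective x}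

/-- TASK Df3: exhaustion (uses Um, U2) -/
def TaskDf3 : Prop := ∀ (Λ : Set ℂ) (g : ℂ → ℂ → ℝ) (D C₃ cL CB : ℝ), Ker Λ g D C₃ cL CB →
  ∃ N₀ : ℕ, ∀ (ι : Type) [Fintype ι] [DecidableEq ι], N₀ ≤ Fintype.card ι →
    ∀ c : ι → ℝ, (∀ i, |c i| = 1) → ∀ κ : ℝ, 0 < κ → ∃ Q : Set (ι → ℂ), IsCompact Q ∧
    Q ⊆ RR Λ ι ∧ ∀ E δ : ℝ, 0 < δ →
      volume {x | x ∈ RR Λ ι ∧ x ∉ Q ∧ E ≤ Ham g c x ∧ Ham g c x < E + δ} ≤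
        ENNReal.ofReal (κ * δ)

/-- TASK Df4: near critical configurations (uses L) -/
def TaskDf4 : Prop := ∀ (Λ : Set ℂ) (g : ℂ → ℂ → ℝ) (D C₃ cL CB : ℝ), Ker Λ g D C₃ cL CB →
  ∀ (ι : Type) [Fintype ι] [DecidableEq ι], 3 ≤ Fintype.card ι →
    ∀ c : ι → ℝ, (∀ i, |c i| = 1) → ∀ Q : Set (ι → ℂ), IsCompact Q → Q ⊆ RR Λ ι →
    ∀ κ : ℝ, 0 < κ → ∃ τ : ℝ, 0 < τ ∧ ∀ E δ : ℝ, 0 < δ →
      volume {x | x ∈ Q ∧ gr2 (Ham g c) x ≤ τ ^ 2 ∧ E ≤ Ham g c x ∧ Ham g c x < E + δ} ≤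
        ENNReal.ofReal (κ * δ)

/-- the shell -/
def shell (Λ : Set ℂ) (g : ℂ → ℂ → ℝ) (M : ℕ) (E δ : ℝ) : Set (Conf M) :=
  {x : Conf M | x ∈ cf Λ _ ∧ E ≤ Ham g (circ M) x ∧ Ham g (circ M) x < E + δ}

/-- TASK TS: thin shells (uses U, V4, S2, W, S3) -/
def TaskTS : Prop := ∀ (Λ : Set ℂ) (g : ℂ → ℂ → ℝ) (D C₃ cL CB : ℝ), Ker Λ g D C₃ cL CB →
  ∀ ε : ℝ, 0 < ε → ∀ η : ℝ, 0 < η → ∃ M₀ : ℕ, ∀ M : ℕ, M₀ ≤ M →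
    ∀ E : ℝ, |E - (2 * (M : ℝ)) ^ 2 * ε| ≤ 1 → ∀ δ : ℝ, 0 < δ → δ ≤ 1 →
      ENNReal.ofReal (δ * Real.exp (2 * M * (sL Λ (K g) ε - η))) * (volume Λ) ^ (2 * M) ≤
        volume (shell Λ g M E δ) ∧
      volume (shell Λ g M E δ) ≤
        ENNReal.ofReal (δ * Real.exp (2 * M * (sL Λ (K g) ε + η))) * (volume Λ) ^ (2 * M)

/-- the cell masses `m₁, m₂` are close to those of a maximizing pair -/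
def NearMax (Λ : Set ℂ) (g : ℂ → ℂ → ℝ) (ε : ℝ) {n : ℕ} (q : ℂ → Fin n) (τ : ℝ)
    (m₁ m₂ : Fin n → ℝ) : Prop :=
  ∃ ρ₁ ρ₂, IsMaxPair Λ (K g) ε ρ₁ ρ₂ ∧ (∀ α, |m₁ α - mass Λ q ρ₁ α| < τ) ∧
    (∀ α, |m₂ α - mass Λ q ρ₂ α| < τ)

/-- TASK B1: concentration (uses U, V4, S2, TS) -/
def TaskB1 : Prop := ∀ (Λ : Set ℂ) (g : ℂ → ℂ → ℝ) (D C₃ cL CB : ℝ), Ker Λ g D C₃ cL CB →
  ∀ ε : ℝ, 0 < ε → ∀ (n : ℕ) (q : ℂ → Fin n), Measurable q → ∀ τ : ℝ, 0 < τ →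
  ∃ c : ℝ, 0 < c ∧ ∃ M₀ : ℕ, ∀ M : ℕ, M₀ ≤ M → ∀ E : ℝ, |E - (2 * (M : ℝ)) ^ 2 * ε| ≤ 1 →
    ∀ δ : ℝ, 0 < δ → δ ≤ 1 →
      volume {x : Conf M | x ∈ shell Λ g M E δ ∧
        ¬ NearMax Λ g ε q τ (emp q (x ∘ Sum.inl)) (emp q (x ∘ Sum.inr))} ≤
      ENNReal.ofReal (Real.exp (-(c * M))) * volume (shell Λ g M E δ)

/-- TASK B2: the marginals on the shell are close to finite mixtures (uses B1 as hypothesis) -/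
def TaskB2 : Prop := ∀ (Λ : Set ℂ) (g : ℂ → ℂ → ℝ) (D C₃ cL CB : ℝ), Ker Λ g D C₃ cL CB →
  ∀ ε : ℝ, 0 < ε → (∃ ρ₁ ρ₂, IsMaxPair Λ (K g) ε ρ₁ ρ₂) →
  ∀ (L : ℕ) (p r : Fin L → ℕ) (f : ∀ l, (Fin (p l) ⊕ Fin (r l) → ℂ) → ℝ),
  (∀ l, Continuous (f l)) → ∀ κ : ℝ, 0 < κ → ∃ M₀ : ℕ, ∀ M : ℕ, M₀ ≤ M →
  ∀ E : ℝ, |E - (2 * (M : ℝ)) ^ 2 * ε| ≤ 1 → ∀ δ : ℝ, 0 < δ → δ ≤ 1 →
    ∃ (n : ℕ) (w : Fin n → ℝ) (ρ₁ ρ₂ : Fin n → ℂ → ℝ), (∀ i, 0 ≤ w i) ∧ ∑ i, w i = 1 ∧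
      (∀ i, IsMaxPair Λ (K g) ε (ρ₁ i) (ρ₂ i)) ∧
      ∀ l, ∀ (a : Fin (p l) → Fin M) (b : Fin (r l) → Fin M), Function.Injective a →
        Function.Injective b →
        |(∫ x in shell Λ g M E δ, f l (pick a b x)) -
          (volume (shell Λ g M E δ)).toReal * ∑ i, w i * prodInt Λ (f l) (ρ₁ i) (ρ₂ i)| ≤
        κ * (volume (shell Λ g M E δ)).toReal

/-- the assertion that the functionals `m k p r f` (for `k → ∞` along a subsequence) converge to a mixture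
of product measures of maximizing pairs, for every number of vortices and every bounded continuous
function on `Λ^(p + r)` -/
def MixLimit (Λ : Set ℂ) (G : ℂ → ℂ → ℝ) (ε : ℝ)
    (m : ℕ → ∀ p r : ℕ, ((Fin p ⊕ Fin r → ℂ) → ℝ) → ℝ) : Prop :=
  ∃ (Z : Type) (_ : MeasurableSpace Z) (Θ : Measure Z) (ρ₁ ρ₂ : Z → ℂ → ℝ),
    IsProbabilityMeasure Θ ∧ (∀ z, IsMaxPair Λ G ε (ρ₁ z) (ρ₂ z)) ∧
    ∀ (p r : ℕ) (f : (Fin p ⊕ Fin r → ℂ) → ℝ), ContinuousOn f (cf Λ _) →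
      (∃ C, ∀ y ∈ cf Λ _, |f y| ≤ C) →
      Measurable (fun z => prodInt Λ f (ρ₁ z) (ρ₂ z)) ∧
      Tendsto (fun k => m k p r f) atTop (𝓝 (∫ z, prodInt Λ f (ρ₁ z) (ρ₂ z) ∂Θ))

/-- TASK B3: compactness (Prokhorov). `m k` are the marginals; positivity, normalisation, additivity and
homogeneity hold eventually (for fixed `p, r`), consistency: `f(y) = φ(y₁)` for the estimate at
the boundary. Uses the compactness part of S2. -/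
def TaskB3 : Prop := ∀ (Λ : Set ℂ) (g : ℂ → ℂ → ℝ) (D C₃ cL CB : ℝ), Ker Λ g D C₃ cL CB →
  ∀ ε : ℝ, 0 < ε → (∃ ρ₁ ρ₂, IsMaxPair Λ (K g) ε ρ₁ ρ₂) →
  -- compactness of the set of maximizing pairs
  (∀ (ρ₁ ρ₂ : ℕ → ℂ → ℝ), (∀ n, IsMaxPair Λ (K g) ε (ρ₁ n) (ρ₂ n)) →
    ∃ φ : ℕ → ℕ, StrictMono φ ∧ ∃ σ₁ σ₂, IsMaxPair Λ (K g) ε σ₁ σ₂ ∧
      Tendsto (fun n => ∫ x in Λ, |ρ₁ (φ n) x - σ₁ x|) atTop (𝓝 0) ∧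
      Tendsto (fun n => ∫ x in Λ, |ρ₂ (φ n) x - σ₂ x|) atTop (𝓝 0)) →
  ∀ m : ℕ → ∀ p r : ℕ, ((Fin p ⊕ Fin r → ℂ) → ℝ) → ℝ,
  -- linearity, positivity and normalisation on bounded continuous functions, for large `k`
  (∀ p r, ∀ᶠ k in atTop, ∀ f₁ f₂ : (Fin p ⊕ Fin r → ℂ) → ℝ, ContinuousOn f₁ (cf Λ _) →
    ContinuousOn f₂ (cf Λ _) → (∃ C, ∀ y ∈ cf Λ _, |f₁ y| ≤ C) → (∃ C, ∀ y ∈ cf Λ _, |f₂ y| ≤ C) →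
    m k p r (f₁ + f₂) = m k p r f₁ + m k p r f₂ ∧ (∀ c : ℝ, m k p r (c • f₁) = c * m k p r f₁) ∧
    ((∀ y ∈ cf Λ _, f₁ y ≤ f₂ y) → m k p r f₁ ≤ m k p r f₂)) →
  (∀ p r, ∀ᶠ k in atTop, m k p r (fun _ => 1) = 1) →
  -- approximation by finite mixtures
  (∀ (L : ℕ) (p r : Fin L → ℕ) (f : ∀ l, (Fin (p l) ⊕ Fin (r l) → ℂ) → ℝ),
    (∀ l, Continuous (f l)) → ∀ κ : ℝ, 0 < κ → ∀ᶠ k in atTop,
    ∃ (n : ℕ) (w : Fin n → ℝ) (ρ₁ ρ₂ : Fin n → ℂ → ℝ), (∀ i, 0 ≤ w i) ∧ ∑ i, w i = 1 ∧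
      (∀ i, IsMaxPair Λ (K g) ε (ρ₁ i) (ρ₂ i)) ∧
      ∀ l, |m k (p l) (r l) (f l) - ∑ i, w i * prodInt Λ (f l) (ρ₁ i) (ρ₂ i)| ≤ κ) →
  ∃ φ : ℕ → ℕ, StrictMono φ ∧ MixLimit Λ (K g) ε (fun k => m (φ k))

end Pool.Agent.H836_PV
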