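/-
TASK U of project PV (MP_fa244c_mp, owner helper836), by helper777.
-/
import Pool.Agent.H836_PV.StmtsB

open MeasureTheory Filter Topology Set Metric

namespace Pool.Agent.H836_PV

namespace U3

variable {Λ : Set ℂ} {g : ℂ → ℂ → ℝ} {D C₃ cL CB : ℝ}

/-! ### Measurability of the energy on `Λ^N` -/

/-- the kernel cut off outside `Λ × Λ` -/
noncomputable def Ki (Λ : Set ℂ) (g : ℂ → ℂ → ℝ) : ℂ × ℂ → ℝ :=
  (Λ ×ˢ Λ).indicator (fun p => K g p.1 p.2)

lemma measΛ (h : Ker Λ g D C₃ cL CB) : MeasurableSet Λ := h.isOpen.measurableSet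

lemma Ki_meas (h : Ker Λ g D C₃ cL CB) : Measurable (Ki Λ g) := by
  classical
  have hΛ : MeasurableSet (Λ ×ˢ Λ) := (measΛ h).prod (measΛ h)
  have h1 : Measurable ((Λ ×ˢ Λ).indicator (fun p : ℂ × ℂ => g p.1 p.2)) := by
    rw [← Set.piecewise_eq_indicator]
    exact ContinuousOn.measurable_piecewise h.smooth.continuousOn continuousOn_const hΛ
  have h2 : Measurable ((Λ ×ˢ Λ).indicator (fun p : ℂ × ℂ => Real.log ‖p.1 - p.2‖)) := by
    apply Measurable.indicator _ hΛ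
    fun_prop
  have h3 : Ki Λ g = fun p => (Λ ×ˢ Λ).indicator (fun p : ℂ × ℂ => g p.1 p.2) p -
      (Λ ×ˢ Λ).indicator (fun p : ℂ × ℂ => Real.log ‖p.1 - p.2‖) p := by
    funext p
    by_cases hp : p ∈ Λ ×ˢ Λ
    · simp only [Ki, Set.indicator_of_mem hp, K]
    · simp only [Ki, Set.indicator_of_notMem hp, sub_zero]
  rw [h3]; exact h1.sub h2

/-- the energy with the cut off kernel -/
noncomputable def Hi {ι : Type} [Fintype ι] (Λ : Set ℂ) (g : ℂ → ℂ → ℝ) (c : ι → ℝ) (x : ι → ℂ) : ℝ :=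
  1 / 2 * ∑ i, ∑ j, c i * c j * Ki Λ g (x i, x j)

lemma Hi_meas {ι : Type} [Fintype ι] (h : Ker Λ g D C₃ cL CB) (c : ι → ℝ) :
    Measurable (Hi Λ g c) := by
  unfold Hi
  apply Measurable.const_mul
  apply Finset.measurable_fun_sum
  intro i _
  apply Finset.measurable_fun_sum
  intro j _
  apply Measurable.const_mul
  exact (Ki_meas h).comp ((measurable_pi_apply i).prodMk (measurable_pi_apply j))

lemma Hi_eq {ι : Type} [Fintype ι] (c : ι → ℝ) {x : ι → ℂ} (hx : x ∈ cf Λ ι) :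
    Hi Λ g c x = Ham g c x := by
  unfold Hi Ham
  congr 1
  apply Finset.sum_congr rfl
  intro i _
  apply Finset.sum_congr rfl
  intro j _
  have : Ki Λ g (x i, x j) = K g (x i) (x j) := by
    simp only [Ki]
    rw [Set.indicator_of_mem (show (x i, x j) ∈ Λ ×ˢ Λ from ⟨hx i, hx j⟩)]
  rw [this]

lemma cf_eq {ι : Type} : cf Λ ι = Set.pi Set.univ (fun _ => Λ) := by
  ext x; simp [cf]

lemma cf_meas {ι : Type} [Fintype ι] (h : Ker Λ g D C₃ cL CB) : MeasurableSet (cf Λ ι) := by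
  rw [cf_eq]
  exact MeasurableSet.univ_pi fun _ => measΛ h

lemma T_meas {ι : Type} [Fintype ι] (h : Ker Λ g D C₃ cL CB) (c : ι → ℝ) {A : Set (ι → ℂ)}
    (hA : MeasurableSet A) (t : ℝ) : MeasurableSet (cf Λ ι ∩ A ∩ {x | t ≤ Ham g c x}) := by
  have : cf Λ ι ∩ A ∩ {x | t ≤ Ham g c x} = cf Λ ι ∩ A ∩ {x | t ≤ Hi Λ g c x} := by
    ext x
    constructor
    · rintro ⟨⟨h1, h2⟩, h3⟩
      refine ⟨⟨h1, h2⟩, ?_⟩
      show t ≤ Hi Λ g c x
      rw [Hi_eq c h1]; exact h3
    · rintro ⟨⟨h1, h2⟩, h3⟩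
      refine ⟨⟨h1, h2⟩, ?_⟩
      show t ≤ Ham g c x
      rw [← Hi_eq c h1]; exact h3
  rw [this]
  exact ((cf_meas h).inter hA).inter (measurableSet_le measurable_const (Hi_meas h c))

/-! ### Fubini for the gluing -/

lemma vol_eq_lint {ι : Type} [Fintype ι] [DecidableEq ι] (s : Finset ι) {T : Set (ι → ℂ)}
    (hT : MeasurableSet T) :
    Measurable (fun y : {i // i ∉ s} → ℂ => volume {u : {i // i ∈ s} → ℂ | glue s u y ∈ T}) ∧
    volume T = ∫⁻ y : {i // i ∉ s} → ℂ, volume {u : {i // i ∈ s} → ℂ | glue s u y ∈ T} := by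
  set e := MeasurableEquiv.piEquivPiSubtypeProd (fun _ : ι => ℂ) (fun i => i ∈ s) with he
  have hmp : MeasurePreserving (e : (ι → ℂ) → ({i // i ∈ s} → ℂ) × ({i // i ∉ s} → ℂ))
      volume volume := by
    have h := volume_preserving_piEquivPiSubtypeProd (fun _ : ι => ℂ) (fun i => i ∈ s)
    have hI : (Subtype.fintype fun i => i ∈ s) = Finset.Subtype.fintype s := Subsingleton.elim _ _
    rw [hI] at h
    exact h
  have hT' : MeasurableSet (e.symm ⁻¹' T) := e.symm.measurable hT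
  have h1 : volume T = volume (e.symm ⁻¹' T) := (hmp.symm.measure_preimage hT.nullMeasurableSet).symm
  have h2 : ∀ y : {i // i ∉ s} → ℂ, {u : {i // i ∈ s} → ℂ | glue s u y ∈ T} =
      (fun u => (u, y)) ⁻¹' (e.symm ⁻¹' T) := by
    intro y; rfl
  constructor
  · simp_rw [h2]
    exact measurable_measure_prodMk_right hT'
  · rw [h1]
    simp_rw [h2]
    exact Measure.prod_apply_symm hT'

/-- lower bound: `a * vol Y ≤ vol T` if each fibre over `Y` has volume at least `a` -/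
lemma fib_bound {ι : Type} [Fintype ι] [DecidableEq ι] (s : Finset ι) {T : Set (ι → ℂ)}
    (hT : MeasurableSet T) (Y : Set ({i // i ∉ s} → ℂ)) (a : ENNReal)
    (hY : ∀ y ∈ Y, a ≤ volume {u : {i // i ∈ s} → ℂ | glue s u y ∈ T}) :
    a * volume Y ≤ volume T := by
  obtain ⟨h1, h2⟩ := vol_eq_lint s hT
  rw [h2]
  refine le_trans ?_ (mul_meas_ge_le_lintegral h1 a)
  gcongr
  intro y hy
  exact hY y hy

/-! ### Energy comparison -/

lemma K_bound (h : Ker Λ g D C₃ cL CB) {b : ℝ} (hb : 0 ≤ b) {x y : ℂ} (hx : x ∈ Λ) (hy : y ∈ Λ)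
    (h1 : x = y → ball x (Real.exp (-b)) ⊆ Λ) (h2 : x ≠ y → Real.exp (-b) ≤ ‖x - y‖) :
    |K g x y| ≤ Real.log D + b := by
  have hD : 0 ≤ Real.log D := Real.log_nonneg h.one_le
  have hle := h.le_log x hx y hy
  by_cases hxy : x = y
  · have h3 := h.log_r_le x hx y hy _ (Real.exp_pos _) (h1 hxy)
    rw [Real.log_exp] at h3
    unfold K
    rw [← hxy] at h3 hle ⊢
    rw [sub_self, norm_zero, Real.log_zero, sub_zero, abs_le]
    constructor <;> linarith
  · have h3 := h.log_le x hx y hy hxy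
    have h4 : -b ≤ Real.log ‖x - y‖ := by
      have := Real.log_le_log (Real.exp_pos _) (h2 hxy)
      rwa [Real.log_exp] at this
    unfold K
    rw [abs_le]
    constructor <;> linarith

lemma glue_in {ι : Type} [DecidableEq ι] {s : Finset ι} (u : {i // i ∈ s} → ℂ)
    (y : {i // i ∉ s} → ℂ) {i : ι} (hi : i ∈ s) : glue s u y i = u ⟨i, hi⟩ := by
  simp [glue, hi]

lemma glue_out {ι : Type} [DecidableEq ι] {s : Finset ι} (u : {i // i ∈ s} → ℂ)
    (y : {i // i ∉ s} → ℂ) {i : ι} (hi : i ∉ s) : glue s u y i = y ⟨i, hi⟩ := by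
  simp [glue, hi]

lemma glue_cf {ι : Type} [DecidableEq ι] {s : Finset ι} {u : {i // i ∈ s} → ℂ}
    {y : {i // i ∉ s} → ℂ} {r : ℝ} (hr : 0 < r) (hy : ∀ i, y i ∈ Λ) (hu : GoodAt Λ s y r u) :
    glue s u y ∈ cf Λ ι := by
  intro i
  by_cases hi : i ∈ s
  · rw [glue_in u y hi]
    exact hu.bdry _ (mem_ball_self hr)
  · rw [glue_out u y hi]; exact hy _

lemma K_glue {ι : Type} [DecidableEq ι] (h : Ker Λ g D C₃ cL CB) {s : Finset ι}
    {u : {i // i ∈ s} → ℂ} {y : {i // i ∉ s} → ℂ} {b : ℝ} (hb : 0 ≤ b) (hy : ∀ i, y i ∈ Λ)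
    (hu : GoodAt Λ s y (Real.exp (-b)) u) {i j : ι} (hij : i ∈ s ∨ j ∈ s) :
    |K g (glue s u y i) (glue s u y j)| ≤ Real.log D + b := by
  have hcf := glue_cf (Real.exp_pos (-b)) hy hu
  have key : i ≠ j → Real.exp (-b) ≤ ‖glue s u y i - glue s u y j‖ := by
    intro hne
    by_cases hi : i ∈ s
    · by_cases hj : j ∈ s
      · rw [glue_in u y hi, glue_in u y hj]
        exact hu.pair _ _ (fun hh => hne (congrArg Subtype.val hh))
      · rw [glue_in u y hi, glue_out u y hj]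
        exact hu.other _ _
    · have hj : j ∈ s := hij.resolve_left hi
      rw [glue_out u y hi, glue_in u y hj, norm_sub_rev]
      exact hu.other _ _
  apply K_bound h hb (hcf i) (hcf j)
  · intro hxy
    have hij' : i = j := by
      by_contra hne
      have h1 := key hne
      rw [hxy, sub_self, norm_zero] at h1
      exact absurd h1 (not_le.mpr (Real.exp_pos _))
    have hi : i ∈ s := by
      rcases hij with h1 | h1
      · exact h1
      · rw [hij']; exact h1
    rw [glue_in u y hi]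
    exact hu.bdry _
  · intro hxy
    apply key
    intro hij'
    exact hxy (by rw [hij'])

lemma Ham_diff {ι : Type} [Fintype ι] [DecidableEq ι] (h : Ker Λ g D C₃ cL CB) {s : Finset ι}
    (hs : s.card = 3) {c : ι → ℝ} (hc : ∀ i, |c i| = 1)
    {u u' : {i // i ∈ s} → ℂ} {y : {i // i ∉ s} → ℂ} {b : ℝ} (hb : 0 ≤ b) (hy : ∀ i, y i ∈ Λ)
    (hu : GoodAt Λ s y (Real.exp (-b)) u) (hu' : GoodAt Λ s y (Real.exp (-b)) u') :
    |Ham g c (glue s u y) - Ham g c (glue s u' y)| ≤ 6 * Fintype.card ι * (Real.log D + b) := by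
  have hD : 0 ≤ Real.log D := Real.log_nonneg h.one_le
  have hDb : 0 ≤ Real.log D + b := by linarith
  have e1 : Ham g c (glue s u y) - Ham g c (glue s u' y) =
      1 / 2 * ∑ i, ∑ j, c i * c j * (K g (glue s u y i) (glue s u y j) -
        K g (glue s u' y i) (glue s u' y j)) := by
    unfold Ham
    rw [← mul_sub, ← Finset.sum_sub_distrib]
    congr 1
    apply Finset.sum_congr rfl
    intro i _
    rw [← Finset.sum_sub_distrib]
    apply Finset.sum_congr rfl
    intro j _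
    ring
  have e2 : ∀ i j, |c i * c j * (K g (glue s u y i) (glue s u y j) -
        K g (glue s u' y i) (glue s u' y j))| ≤
      (if i ∈ s then 2 * (Real.log D + b) else 0) + (if j ∈ s then 2 * (Real.log D + b) else 0) := by
    intro i j
    rw [abs_mul, abs_mul, hc, hc, one_mul, one_mul]
    by_cases hij : i ∈ s ∨ j ∈ s
    · have h1 := K_glue h hb hy hu hij
      have h2 := K_glue h hb hy hu' hij
      have h3 : |K g (glue s u y i) (glue s u y j) - K g (glue s u' y i) (glue s u' y j)| ≤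
          2 * (Real.log D + b) := by
        refine (abs_sub _ _).trans ?_
        linarith
      rcases hij with h4 | h4
      · rw [if_pos h4]
        split_ifs <;> linarith
      · rw [if_pos h4]
        split_ifs <;> linarith
    · push Not at hij
      rw [glue_out u y hij.1, glue_out u y hij.2, glue_out u' y hij.1, glue_out u' y hij.2,
        sub_self, abs_zero, if_neg hij.1, if_neg hij.2]
      simp
  rw [e1, abs_mul]
  have e3 : |∑ i, ∑ j, c i * c j * (K g (glue s u y i) (glue s u y j) -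
        K g (glue s u' y i) (glue s u' y j))| ≤ 12 * Fintype.card ι * (Real.log D + b) := by
    calc |∑ i, ∑ j, c i * c j * (K g (glue s u y i) (glue s u y j) -
            K g (glue s u' y i) (glue s u' y j))|
        ≤ ∑ i, ∑ j, |c i * c j * (K g (glue s u y i) (glue s u y j) -
            K g (glue s u' y i) (glue s u' y j))| := by
          refine (Finset.abs_sum_le_sum_abs _ _).trans ?_
          apply Finset.sum_le_sum
          intro i _
          exact Finset.abs_sum_le_sum_abs _ _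
      _ ≤ ∑ i : ι, ∑ j : ι, ((if i ∈ s then 2 * (Real.log D + b) else 0) +
            (if j ∈ s then 2 * (Real.log D + b) else 0)) := by
          apply Finset.sum_le_sum
          intro i _
          apply Finset.sum_le_sum
          intro j _
          exact e2 i j
      _ = 12 * Fintype.card ι * (Real.log D + b) := by
          have q1 : ∑ i : ι, (if i ∈ s then 2 * (Real.log D + b) else 0) =
              3 * (2 * (Real.log D + b)) := by
            rw [Finset.sum_ite_mem, Finset.univ_inter, Finset.sum_const, hs]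
            simp
          simp_rw [Finset.sum_add_distrib]
          rw [q1]
          simp_rw [Finset.sum_const]
          rw [← Finset.smul_sum, q1]
          simp only [Finset.card_univ, nsmul_eq_mul]
          ring
  rw [abs_of_pos (by norm_num : (0 : ℝ) < 1 / 2)]
  linarith

/-! ### Volume of the good triples -/

lemma bad2_vol {κ : Type} [Fintype κ] [DecidableEq κ] (hκ : Fintype.card κ = 3) {V : ℝ}
    (hV1 : 1 ≤ V) (hV : volume Λ ≤ ENNReal.ofReal V) (i : κ) (z : ℂ) {ρ : ℝ} (hρ : 0 < ρ) :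
    volume {u : κ → ℂ | u ∈ cf Λ κ ∧ ‖u i - z‖ < ρ} ≤ ENNReal.ofReal (V ^ 3 * (4 * ρ ^ 2)) := by
  have hsub : {u : κ → ℂ | u ∈ cf Λ κ ∧ ‖u i - z‖ < ρ} ⊆
      Set.pi Set.univ (fun k => if k = i then ball z ρ else Λ) := by
    rintro u ⟨h1, h2⟩ k _
    by_cases hk : k = i
    · simp only [hk, if_true]
      rw [mem_ball, dist_eq_norm]; exact h2
    · simp only [hk, if_false]
      exact h1 k
  have hball : volume (ball z ρ) ≤ ENNReal.ofReal (4 * ρ ^ 2) := by
    rw [Complex.volume_ball, ← ENNReal.ofReal_pow hρ.le, mul_comm (4 : ℝ),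
      ENNReal.ofReal_mul (by positivity)]
    have hpi : (NNReal.pi : ENNReal) ≤ ENNReal.ofReal 4 := by
      rw [← ENNReal.ofReal_coe_nnreal]
      apply ENNReal.ofReal_le_ofReal
      rw [NNReal.coe_real_pi]
      exact Real.pi_le_four
    gcongr
  calc volume {u : κ → ℂ | u ∈ cf Λ κ ∧ ‖u i - z‖ < ρ}
      ≤ volume (Set.pi Set.univ (fun k => if k = i then ball z ρ else Λ)) := measure_mono hsub
    _ = ∏ k, volume (if k = i then ball z ρ else Λ) := volume_pi_pi _
    _ ≤ ∏ k : κ, (ENNReal.ofReal V * (if k = i then ENNReal.ofReal (4 * ρ ^ 2) else 1)) := by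
        apply Finset.prod_le_prod'
        intro k _
        by_cases hk : k = i
        · simp only [hk, if_true]
          calc volume (ball z ρ) ≤ 1 * ENNReal.ofReal (4 * ρ ^ 2) := by rw [one_mul]; exact hball
            _ ≤ ENNReal.ofReal V * ENNReal.ofReal (4 * ρ ^ 2) := by
              gcongr
              rw [← ENNReal.ofReal_one]
              exact ENNReal.ofReal_le_ofReal hV1
        · simp only [hk, if_false, mul_one]
          exact hV
    _ = ENNReal.ofReal (V ^ 3 * (4 * ρ ^ 2)) := by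
        have e1 : ENNReal.ofReal (V ^ 3 * (4 * ρ ^ 2)) =
            ENNReal.ofReal V ^ 3 * ENNReal.ofReal (4 * ρ ^ 2) := by
          rw [ENNReal.ofReal_mul (by positivity), ENNReal.ofReal_pow (by linarith)]
        rw [e1, Finset.prod_mul_distrib, Finset.prod_const, Finset.card_univ, hκ,
          Finset.prod_ite_eq' Finset.univ i, if_pos (Finset.mem_univ i)]

lemma good_vol (h : Ker Λ g D C₃ cL CB) (hU2 : TaskU2) {V : ℝ} (hV1 : 1 ≤ V)
    (hV : volume Λ ≤ ENNReal.ofReal V) {ι : Type} [Fintype ι] [DecidableEq ι] {s : Finset ι}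
    (hs : s.card = 3) {y : {i // i ∉ s} → ℂ} {ρ : ℝ} (hρ : 0 < ρ) (hρ1 : ρ ≤ 1)
    (hsmall : 16 * V ^ 3 * ((CB + 12) * ρ) + 3 * Fintype.card ι * (V ^ 3 * (4 * ρ ^ 2)) ≤
      (volume Λ).toReal ^ 3 / 2) :
    ENNReal.ofReal ((volume Λ).toReal ^ 3 / 2) ≤
      volume {u : {i // i ∈ s} → ℂ | GoodAt Λ s y ρ u} := by
  have hfin : volume Λ ≠ ⊤ := ne_top_of_le_ne_top ENNReal.ofReal_ne_top hV
  set v := (volume Λ).toReal ^ 3 with hv
  have hcard : Fintype.card {i // i ∈ s} = 3 := by rw [Fintype.card_coe, hs]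
  set G := {u : {i // i ∈ s} → ℂ | GoodAt Λ s y ρ u} with hG
  set B1 := {u : {i // i ∈ s} → ℂ | u ∈ cf Λ _ ∧ 1 ≤ Set.ncard {i | ¬ Gd Λ Finset.univ ρ u i}} with hB1
  set B2 := ⋃ i : {i // i ∈ s}, ⋃ j : {i // i ∉ s},
    {u : {i // i ∈ s} → ℂ | u ∈ cf Λ _ ∧ ‖u i - y j‖ < ρ} with hB2
  have hcov : cf Λ {i // i ∈ s} ⊆ G ∪ (B1 ∪ B2) := by
    intro u hu
    by_contra hcon
    simp only [Set.mem_union, not_or] at hcon
    obtain ⟨h1, h2, h3⟩ := hcon
    apply h1
    have h4 : ∀ i, Gd Λ Finset.univ ρ u i := by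
      intro i
      by_contra hi
      apply h2
      refine ⟨hu, ?_⟩
      have : 0 < Set.ncard {i | ¬ Gd Λ Finset.univ ρ u i} :=
        (Set.ncard_pos (Set.toFinite _)).mpr ⟨i, hi⟩
      exact this
    refine ⟨fun i => (h4 i).1, fun i j hij => (h4 i).2 j (Finset.mem_univ _) (Ne.symm hij), ?_⟩
    intro i j
    by_contra hij
    push Not at hij
    apply h3
    simp only [hB2, Set.mem_iUnion]
    exact ⟨i, j, hu, hij⟩
  have e0 : volume (cf Λ {i // i ∈ s}) = ENNReal.ofReal v := by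
    rw [cf_eq, volume_pi_pi, Finset.prod_const, Finset.card_univ, hcard, hv,
      ENNReal.ofReal_pow ENNReal.toReal_nonneg, ENNReal.ofReal_toReal hfin]
  have e1 : volume B1 ≤ ENNReal.ofReal (16 * V ^ 3 * ((CB + 12) * ρ)) := by
    have := hU2 Λ V CB h.isOpen hV1 hV h.CB_nonneg h.layer {i // i ∈ s} 1 ρ hρ hρ1
    rw [hcard] at this
    refine this.trans (ENNReal.ofReal_le_ofReal (le_of_eq ?_))
    norm_num
  have e2 : volume B2 ≤ ENNReal.ofReal (3 * Fintype.card ι * (V ^ 3 * (4 * ρ ^ 2))) := by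
    calc volume B2 ≤ ∑ i : {i // i ∈ s}, ∑ j : {i // i ∉ s},
          volume {u : {i // i ∈ s} → ℂ | u ∈ cf Λ _ ∧ ‖u i - y j‖ < ρ} := by
          refine (measure_iUnion_fintype_le _ _).trans ?_
          apply Finset.sum_le_sum
          intro i _
          exact measure_iUnion_fintype_le _ _
      _ ≤ ∑ i : {i // i ∈ s}, ∑ j : {i // i ∉ s}, ENNReal.ofReal (V ^ 3 * (4 * ρ ^ 2)) := by
          apply Finset.sum_le_sum
          intro i _
          apply Finset.sum_le_sum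
          intro j _
          exact bad2_vol hcard hV1 hV i (y j) hρ
      _ = ENNReal.ofReal (3 * Fintype.card {i // i ∉ s} * (V ^ 3 * (4 * ρ ^ 2))) := by
          simp only [Finset.sum_const, Finset.card_univ, hcard, nsmul_eq_mul]
          generalize V ^ 3 * (4 * ρ ^ 2) = w
          rw [ENNReal.ofReal_mul (by positivity), ENNReal.ofReal_mul (by positivity),
            ENNReal.ofReal_natCast]
          simp only [ENNReal.ofReal_ofNat, Nat.cast_ofNat]
          ring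
      _ ≤ ENNReal.ofReal (3 * Fintype.card ι * (V ^ 3 * (4 * ρ ^ 2))) := by
          apply ENNReal.ofReal_le_ofReal
          have : (Fintype.card {i // i ∉ s} : ℝ) ≤ Fintype.card ι := by
            exact_mod_cast Fintype.card_subtype_le _
          gcongr
  have hv0 : 0 ≤ v := by positivity
  have e3 : ENNReal.ofReal v ≤ volume G + ENNReal.ofReal (v / 2) := by
    rw [← e0]
    calc volume (cf Λ {i // i ∈ s}) ≤ volume (G ∪ (B1 ∪ B2)) := measure_mono hcov
      _ ≤ volume G + (volume B1 + volume B2) :=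
        (measure_union_le _ _).trans (by gcongr; exact measure_union_le _ _)
      _ ≤ volume G + ENNReal.ofReal (v / 2) := by
        gcongr
        have hCB := h.CB_nonneg
        calc volume B1 + volume B2 ≤ ENNReal.ofReal (16 * V ^ 3 * ((CB + 12) * ρ)) +
              ENNReal.ofReal (3 * Fintype.card ι * (V ^ 3 * (4 * ρ ^ 2))) := add_le_add e1 e2
          _ = ENNReal.ofReal (16 * V ^ 3 * ((CB + 12) * ρ) +
              3 * Fintype.card ι * (V ^ 3 * (4 * ρ ^ 2))) :=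
              (ENNReal.ofReal_add (by positivity) (by positivity)).symm
          _ ≤ ENNReal.ofReal (v / 2) := ENNReal.ofReal_le_ofReal hsmall
  have e4 : ENNReal.ofReal v = ENNReal.ofReal (v / 2) + ENNReal.ofReal (v / 2) := by
    rw [← ENNReal.ofReal_add (by positivity) (by positivity)]; congr 1; ring
  rw [e4] at e3
  exact (ENNReal.add_le_add_iff_right ENNReal.ofReal_ne_top).mp e3

/-! ### Elementary estimates for large `N` -/

set_option maxHeartbeats 2000000 in
lemma numeric {η C₁ V v CB lD : ℝ} (hη : 0 < η) (hC₁ : 0 < C₁) (hV : 1 ≤ V) (hv : 0 < v)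
    (hCB : 0 ≤ CB) :
    ∃ N₀ : ℕ, ∀ N : ℕ, N₀ ≤ N → 192 ≤ N ∧ 1 ≤ ⌊η * N⌋₊ ∧
      6 * (N : ℝ) * (lD + (⌊η * N⌋₊ : ℝ)) ≤ 21 * η * (N : ℝ) ^ 2 ∧
      (N : ℝ) ^ 3 * (C₁ * (N : ℝ) ^ 2 * Real.exp (20 * (⌊η * N⌋₊ : ℝ)) * (2 / v)) ≤
        Real.exp (21 * η * N) ∧
      16 * V ^ 3 * ((CB + 12) * Real.exp (-(⌊η * N⌋₊ : ℝ))) +
        3 * N * (V ^ 3 * (4 * Real.exp (-(⌊η * N⌋₊ : ℝ)) ^ 2)) ≤ v / 2 ∧
      (N : ℝ) ^ 3 * (2 * (C₁ * (N : ℝ) ^ 2 * Real.exp (20 * ((⌊η * N⌋₊ : ℝ) + 1)) *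
        (2 * 2 ^ N * V ^ N * ((CB + 4 * N) * (2 * Real.exp (-(⌊η * N⌋₊ : ℝ)))) ^ ((N - 8 + 1) / 2)))) ≤
        Real.exp (-(η * (N : ℝ) ^ 2 / 16)) := by
  set a := 4 * C₁ + 2 * C₁ / v + 2 * (CB + 4) + 2 * (48 * V ^ 3 * (CB + 12) + 36 * V ^ 3) / v with ha
  have t1 : 0 < 4 * C₁ := by positivity
  have t2 : 0 < 2 * C₁ / v := by positivity
  have t3 : 0 < 2 * (CB + 4) := by positivity
  have t4 : 0 < 2 * (48 * V ^ 3 * (CB + 12) + 36 * V ^ 3) / v := by positivity
  have ha0 : 0 < a := by linarith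
  have hb : 0 < η / 8 := by positivity
  have ev1 : ∀ᶠ x : ℝ in atTop, a * x ^ 5 ≤ Real.exp (η / 8 * x) := by
    have := (isLittleO_pow_exp_pos_mul_atTop 5 hb).bound (c := 1 / a) (by positivity)
    filter_upwards [this, eventually_ge_atTop 0] with x hx hx0
    rw [Real.norm_eq_abs, Real.norm_eq_abs, abs_of_nonneg (by positivity),
      abs_of_pos (Real.exp_pos _)] at hx
    calc a * x ^ 5 ≤ a * (1 / a * Real.exp (η / 8 * x)) := mul_le_mul_of_nonneg_left hx ha0.le
      _ = Real.exp (η / 8 * x) := by field_simp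
  have ev2 : ∀ᶠ x : ℝ in atTop, a * x ^ 5 ≤ Real.exp (η / 8 * x) ∧ 192 ≤ x ∧
      (3 + |6 * lD| + 8 * (η / 8 + 20 + Real.log (2 * V))) / η ≤ x := by
    filter_upwards [ev1, eventually_ge_atTop 192, eventually_ge_atTop
      ((3 + |6 * lD| + 8 * (η / 8 + 20 + Real.log (2 * V))) / η)] with x h1 h2 h3
    exact ⟨h1, h2, h3⟩
  obtain ⟨N₀, hN₀⟩ := eventually_atTop.mp (tendsto_natCast_atTop_atTop (R := ℝ) |>.eventually ev2)
  refine ⟨N₀, fun N hN => ?_⟩
  obtain ⟨h1, h2, h3⟩ := hN₀ N hN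
  rw [div_le_iff₀ hη, mul_comm (N : ℝ) η] at h3
  have hlog : 0 ≤ Real.log (2 * V) := Real.log_nonneg (by linarith)
  have hηN3 : 3 ≤ η * N := by
    have := abs_nonneg (6 * lD)
    linarith
  have hηlD : 6 * lD ≤ η * N := by
    have := le_abs_self (6 * lD)
    linarith
  have hηV : 8 * (η / 8 + 20 + Real.log (2 * V)) ≤ η * N := by
    have := abs_nonneg (6 * lD)
    linarith
  have hN192 : 192 ≤ N := by exact_mod_cast h2
  set m := (⌊η * N⌋₊ : ℝ) with hm
  have hm1 : m ≤ η * N := Nat.floor_le (by linarith)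
  have hm2 : η * N - 1 ≤ m := by
    have := Nat.lt_floor_add_one (η * N)
    rw [hm]; linarith
  have hmN : 1 ≤ ⌊η * N⌋₊ := Nat.le_floor (by norm_num; linarith)
  have hm0 : 0 ≤ m := by positivity
  clear_value m
  have hN1 : (1 : ℝ) ≤ N := by linarith
  have hN0 : (0 : ℝ) ≤ N := by linarith
  have hpow : ∀ k : ℕ, k ≤ 5 → (N : ℝ) ^ k ≤ (N : ℝ) ^ 5 := fun k hk => pow_le_pow_right₀ hN1 hk
  have hN5 : (0 : ℝ) ≤ (N : ℝ) ^ 5 := by positivity
  have p1 : 4 * C₁ * (N : ℝ) ^ 5 ≤ Real.exp (η / 8 * N) := by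
    refine le_trans ?_ h1
    apply mul_le_mul_of_nonneg_right _ hN5
    linarith
  have p2 : 2 * C₁ / v * (N : ℝ) ^ 5 ≤ Real.exp (η / 8 * N) := by
    refine le_trans ?_ h1
    apply mul_le_mul_of_nonneg_right _ hN5
    linarith
  have p3 : 2 * (CB + 4) * (N : ℝ) ^ 5 ≤ Real.exp (η / 8 * N) := by
    refine le_trans ?_ h1
    apply mul_le_mul_of_nonneg_right _ hN5
    linarith
  have p4 : 2 * (48 * V ^ 3 * (CB + 12) + 36 * V ^ 3) / v * (N : ℝ) ^ 5 ≤ Real.exp (η / 8 * N) := by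
    refine le_trans ?_ h1
    apply mul_le_mul_of_nonneg_right _ hN5
    linarith
  have hηN0 : 0 ≤ η * N := by linarith
  refine ⟨hN192, hmN, ?_, ?_, ?_, ?_⟩
  · have u1 := mul_le_mul_of_nonneg_left hηlD hN0
    have u2 := mul_le_mul_of_nonneg_left hm1 hN0
    have u3 := mul_nonneg hN0 hηN0
    calc 6 * (N : ℝ) * (lD + m) = N * (6 * lD) + 6 * (N * m) := by ring
      _ ≤ N * (η * N) + 6 * (N * (η * N)) := by linarith
      _ ≤ 21 * (N * (η * N)) := by linarith
      _ = 21 * η * (N : ℝ) ^ 2 := by ring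
  · calc (N : ℝ) ^ 3 * (C₁ * (N : ℝ) ^ 2 * Real.exp (20 * m) * (2 / v))
        = 2 * C₁ / v * (N : ℝ) ^ 5 * Real.exp (20 * m) := by ring
      _ ≤ Real.exp (η / 8 * N) * Real.exp (20 * (η * N)) := by
          apply mul_le_mul p2 _ (Real.exp_pos _).le (Real.exp_pos _).le
          apply Real.exp_le_exp.mpr; linarith
      _ = Real.exp (η / 8 * N + 20 * (η * N)) := by rw [Real.exp_add]
      _ ≤ Real.exp (21 * η * N) := by
          apply Real.exp_le_exp.mpr; linarith
  · have q1 : Real.exp (-m) ≤ 3 * Real.exp (-(η * N)) := by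
      calc Real.exp (-m) ≤ Real.exp (1 + -(η * N)) := Real.exp_le_exp.mpr (by linarith)
        _ = Real.exp 1 * Real.exp (-(η * N)) := Real.exp_add _ _
        _ ≤ 3 * Real.exp (-(η * N)) := by
            apply mul_le_mul_of_nonneg_right _ (Real.exp_pos _).le
            linarith [Real.exp_one_lt_d9]
    have q2 : Real.exp (-m) ≤ 1 := Real.exp_le_one_iff.mpr (by linarith)
    have q0 : 0 < Real.exp (-m) := Real.exp_pos _
    have q3 : Real.exp (-m) ^ 2 ≤ Real.exp (-m) := by nlinarith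
    have hV3 : 0 < V ^ 3 := by positivity
    have q4 : N * (2 * (48 * V ^ 3 * (CB + 12) + 36 * V ^ 3) / v) ≤ Real.exp (η * N) := by
      calc N * (2 * (48 * V ^ 3 * (CB + 12) + 36 * V ^ 3) / v)
          ≤ (N : ℝ) ^ 5 * (2 * (48 * V ^ 3 * (CB + 12) + 36 * V ^ 3) / v) := by
            apply mul_le_mul_of_nonneg_right _ t4.le
            have := hpow 1 (by norm_num)
            rwa [pow_one] at this
        _ = 2 * (48 * V ^ 3 * (CB + 12) + 36 * V ^ 3) / v * (N : ℝ) ^ 5 := by ring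
        _ ≤ Real.exp (η / 8 * N) := p4
        _ ≤ Real.exp (η * N) := Real.exp_le_exp.mpr (by linarith)
    have q5 : N * (48 * V ^ 3 * (CB + 12) + 36 * V ^ 3) * Real.exp (-(η * N)) ≤ v / 2 := by
      have q6 : N * (48 * V ^ 3 * (CB + 12) + 36 * V ^ 3) =
          (N * (2 * (48 * V ^ 3 * (CB + 12) + 36 * V ^ 3) / v)) * (v / 2) := by
        field_simp
      rw [q6]
      calc (N * (2 * (48 * V ^ 3 * (CB + 12) + 36 * V ^ 3) / v)) * (v / 2) * Real.exp (-(η * N))
          ≤ Real.exp (η * N) * (v / 2) * Real.exp (-(η * N)) := by gcongr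
        _ = v / 2 * (Real.exp (η * N) * Real.exp (-(η * N))) := by ring
        _ = v / 2 := by rw [← Real.exp_add, add_neg_cancel, Real.exp_zero, mul_one]
    calc 16 * V ^ 3 * ((CB + 12) * Real.exp (-m)) + 3 * N * (V ^ 3 * (4 * Real.exp (-m) ^ 2))
        ≤ 16 * V ^ 3 * ((CB + 12) * Real.exp (-m)) + 3 * N * (V ^ 3 * (4 * Real.exp (-m))) := by
          gcongr
      _ = (16 * V ^ 3 * (CB + 12) + 12 * N * V ^ 3) * Real.exp (-m) := by ring
      _ ≤ (16 * V ^ 3 * (CB + 12) + 12 * N * V ^ 3) * (3 * Real.exp (-(η * N))) := by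
          gcongr
      _ = (48 * V ^ 3 * (CB + 12) + 36 * N * V ^ 3) * Real.exp (-(η * N)) := by ring
      _ ≤ N * (48 * V ^ 3 * (CB + 12) + 36 * V ^ 3) * Real.exp (-(η * N)) := by
          apply mul_le_mul_of_nonneg_right _ (Real.exp_pos _).le
          have hX : 0 ≤ 48 * V ^ 3 * (CB + 12) := by positivity
          have hX2 : 48 * V ^ 3 * (CB + 12) ≤ N * (48 * V ^ 3 * (CB + 12)) :=
            le_mul_of_one_le_left hX hN1
          have hX3 : N * (48 * V ^ 3 * (CB + 12) + 36 * V ^ 3) =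
            N * (48 * V ^ 3 * (CB + 12)) + 36 * N * V ^ 3 := by ring
          rw [hX3]
          exact add_le_add_left hX2 _
      _ ≤ v / 2 := q5
  · set k := (N - 8 + 1) / 2 with hk
    have hk1 : 2 * k ≤ N := by omega
    have hk2 : N ≤ 2 * k + 8 := by omega
    clear_value k
    have hk1' : (2 : ℝ) * k ≤ N := by exact_mod_cast hk1
    have hk2' : (N : ℝ) ≤ 2 * k + 8 := by exact_mod_cast hk2
    have r1 : (2 : ℝ) * 2 ^ N * V ^ N = 2 * Real.exp (N * Real.log (2 * V)) := by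
      rw [← Real.log_pow, Real.exp_log (by positivity), mul_pow]; ring
    have r2 : ((CB + 4 * N) * (2 * Real.exp (-m))) ^ k ≤
        Real.exp (k * (η / 8 * N)) * Real.exp (-(k * m)) := by
      have : (CB + 4 * N) * (2 * Real.exp (-m)) ≤ Real.exp (η / 8 * N) * Real.exp (-m) := by
        have : 2 * (CB + 4 * N) ≤ Real.exp (η / 8 * N) := by
          refine le_trans ?_ p3
          have h5 : (N : ℝ) ≤ (N : ℝ) ^ 5 := by simpa using hpow 1 (by norm_num)
          have h0 : (1 : ℝ) ≤ (N : ℝ) ^ 5 := by simpa using hpow 0 (by norm_num)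
          have h6 := mul_le_mul_of_nonneg_left h0 hCB
          calc 2 * (CB + 4 * (N : ℝ)) = 2 * (CB * 1) + 8 * N := by ring
            _ ≤ 2 * (CB * (N : ℝ) ^ 5) + 8 * (N : ℝ) ^ 5 := by linarith
            _ = 2 * (CB + 4) * (N : ℝ) ^ 5 := by ring
        calc (CB + 4 * N) * (2 * Real.exp (-m)) = 2 * (CB + 4 * N) * Real.exp (-m) := by ring
          _ ≤ Real.exp (η / 8 * N) * Real.exp (-m) := by gcongr
      calc ((CB + 4 * N) * (2 * Real.exp (-m))) ^ k ≤
            (Real.exp (η / 8 * N) * Real.exp (-m)) ^ k := by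
              apply pow_le_pow_left₀ (by positivity) this
        _ = Real.exp (k * (η / 8 * N)) * Real.exp (-(k * m)) := by
              rw [mul_pow, ← Real.exp_nat_mul, ← Real.exp_nat_mul]
              congr 2; ring
    calc (N : ℝ) ^ 3 * (2 * (C₁ * (N : ℝ) ^ 2 * Real.exp (20 * (m + 1)) *
          (2 * 2 ^ N * V ^ N * ((CB + 4 * N) * (2 * Real.exp (-m))) ^ k)))
        ≤ (N : ℝ) ^ 3 * (2 * (C₁ * (N : ℝ) ^ 2 * Real.exp (20 * (m + 1)) *
          (2 * Real.exp (N * Real.log (2 * V)) *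
            (Real.exp (k * (η / 8 * N)) * Real.exp (-(k * m)))))) := by
          rw [← r1]; gcongr
      _ = (4 * C₁ * (N : ℝ) ^ 5) * (Real.exp (20 * (m + 1)) * (Real.exp (N * Real.log (2 * V)) *
            (Real.exp (k * (η / 8 * N)) * Real.exp (-(k * m))))) := by ring
      _ ≤ Real.exp (η / 8 * N) * (Real.exp (20 * (m + 1)) * (Real.exp (N * Real.log (2 * V)) *
            (Real.exp (k * (η / 8 * N)) * Real.exp (-(k * m))))) := by gcongr
      _ = Real.exp (η / 8 * N + (20 * (m + 1) + (N * Real.log (2 * V) +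
            (k * (η / 8 * N) + -(k * m))))) := by
          rw [Real.exp_add, Real.exp_add, Real.exp_add, Real.exp_add]
      _ ≤ Real.exp (-(η * (N : ℝ) ^ 2 / 16)) := by
          apply Real.exp_le_exp.mpr
          have s1 : (N / 2 - 24) * (η * N - 1) ≤ (k - 20) * m := by
            apply mul_le_mul (by linarith) hm2 (by linarith) (by linarith)
          have s2 : η * (N : ℝ) ^ 2 / 4 ≤ (N / 2 - 24) * (η * N - 1) := by
            have s3 : 3 * (N : ℝ) / 8 ≤ N / 2 - 24 := by linarith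
            have s4 : 2 / 3 * (η * N) ≤ η * N - 1 := by linarith
            calc η * (N : ℝ) ^ 2 / 4 = (3 * (N : ℝ) / 8) * (2 / 3 * (η * N)) := by ring
              _ ≤ (N / 2 - 24) * (η * N - 1) := by
                apply mul_le_mul s3 s4 (by positivity) (by linarith)
          have s5 : (k : ℝ) * (η / 8 * N) ≤ η * (N : ℝ) ^ 2 / 16 := by
            have h7 : 0 ≤ η / 8 * N := by positivity
            have h8 := mul_le_mul_of_nonneg_right hk1' h7
            calc (k : ℝ) * (η / 8 * N) = (2 * k * (η / 8 * N)) / 2 := by ring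
              _ ≤ (N * (η / 8 * N)) / 2 := by linarith
              _ = η * (N : ℝ) ^ 2 / 16 := by ring
          have s6 : N * (8 * (η / 8 + 20 + Real.log (2 * V))) ≤ N * (η * N) :=
            mul_le_mul_of_nonneg_left hηV hN0
          have e1 : N * (8 * (η / 8 + 20 + Real.log (2 * V))) =
            8 * (η / 8 * N) + 160 * N + 8 * (N * Real.log (2 * V)) := by ring
          have e2 : N * (η * N) = η * (N : ℝ) ^ 2 := by ring
          have e3 : ((k : ℝ) - 20) * m = k * m - 20 * m := by ring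
          rw [e1, e2] at s6
          rw [e3] at s1
          linarith

lemma geo {k : ℕ} (hk : 21 ≤ k) {X : ℝ} (hX : 0 ≤ X) (m : ℝ) (j : ℕ) :
    Real.exp (20 * (m + 1 + j)) * (X * (2 * Real.exp (-(m + j)))) ^ k ≤
      Real.exp (20 * (m + 1)) * (X * (2 * Real.exp (-m))) ^ k * (1 / 2) ^ j := by
  have e1 : Real.exp (20 * (m + 1 + j)) = Real.exp (20 * (m + 1)) * Real.exp (20 * j) := by
    rw [← Real.exp_add]; ring_nf
  have e2 : (X * (2 * Real.exp (-(m + j)))) ^ k =
      (X * (2 * Real.exp (-m))) ^ k * Real.exp (-(k * j)) := by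
    have : Real.exp (-(m + j)) = Real.exp (-m) * Real.exp (-(j : ℝ)) := by
      rw [← Real.exp_add]; ring_nf
    rw [this, show X * (2 * (Real.exp (-m) * Real.exp (-(j : ℝ)))) =
      (X * (2 * Real.exp (-m))) * Real.exp (-(j : ℝ)) by ring, mul_pow, ← Real.exp_nat_mul]
    congr 2; ring
  rw [e1, e2]
  have e3 : Real.exp (20 * j) * Real.exp (-(k * j)) ≤ (1 / 2 : ℝ) ^ j := by
    rw [← Real.exp_add]
    have hk' : (21 : ℝ) ≤ k := by exact_mod_cast hk
    have hj : (0 : ℝ) ≤ j := Nat.cast_nonneg j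
    calc Real.exp (20 * j + -(k * j)) ≤ Real.exp (j * (-1)) := by
          apply Real.exp_le_exp.mpr; nlinarith
      _ = (Real.exp (-1)) ^ j := by rw [← Real.exp_nat_mul]
      _ ≤ (1 / 2 : ℝ) ^ j := by
          apply pow_le_pow_left₀ (Real.exp_pos _).le
          rw [Real.exp_neg, one_div]
          apply inv_anti₀ (by norm_num)
          linarith [Real.exp_one_gt_d9]
  have h0 : 0 ≤ Real.exp (20 * (m + 1)) * (X * (2 * Real.exp (-m))) ^ k := by positivity
  calc Real.exp (20 * (m + 1)) * Real.exp (20 * j) *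
        ((X * (2 * Real.exp (-m))) ^ k * Real.exp (-(k * j)))
      = (Real.exp (20 * (m + 1)) * (X * (2 * Real.exp (-m))) ^ k) *
        (Real.exp (20 * j) * Real.exp (-(k * j))) := by ring
    _ ≤ (Real.exp (20 * (m + 1)) * (X * (2 * Real.exp (-m))) ^ k) * (1 / 2) ^ j :=
        mul_le_mul_of_nonneg_left e3 h0

lemma tsum_half {a : ℝ} (ha : 0 ≤ a) :
    ∑' j : ℕ, ENNReal.ofReal (a * (1 / 2) ^ j) = ENNReal.ofReal (a * 2) := by
  rw [← ENNReal.ofReal_tsum_of_nonneg (fun n => by positivity)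
    (summable_geometric_two.mul_left a), tsum_mul_left, tsum_geometric_two]

end U3

theorem taskU (hUm : TaskUm) (hU2 : TaskU2) : TaskU := by
  intro Λ g D C₃ cL CB h
  obtain ⟨C₁, hC₁, hUm⟩ := hUm Λ g D C₃ cL CB h
  refine ⟨21, by norm_num, ?_⟩
  intro η hη hη1
  have hsub : Λ ⊆ closedBall 0 D := fun x hx => by simpa using h.norm_le x hx
  have hfin : volume Λ < ⊤ := lt_of_le_of_lt (measure_mono hsub) measure_closedBall_lt_top
  have hpos : 0 < volume Λ := h.isOpen.measure_pos volume h.nonempty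
  have hvpos : 0 < (volume Λ).toReal := ENNReal.toReal_pos hpos.ne' hfin.ne
  obtain ⟨V, hVdef⟩ : ∃ V, V = max 1 (volume Λ).toReal := ⟨_, rfl⟩
  have hV1 : 1 ≤ V := by rw [hVdef]; exact le_max_left _ _
  have hV : volume Λ ≤ ENNReal.ofReal V := by
    rw [← ENNReal.ofReal_toReal hfin.ne, hVdef]
    exact ENNReal.ofReal_le_ofReal (le_max_right _ _)
  have hv0 : 0 < (volume Λ).toReal ^ 3 := by positivity
  obtain ⟨N₀, hN₀⟩ := U3.numeric (lD := Real.log D) hη hC₁ hV1 hv0 h.CB_nonneg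
  refine ⟨N₀, ?_⟩
  intro ι _ _ hN c hc A A' hA hA' hAA' E δ hδ
  obtain ⟨n1, n2, n3, n4, n5, n6⟩ := hN₀ _ hN
  obtain ⟨v, hv⟩ : ∃ v, v = (volume Λ).toReal ^ 3 := ⟨_, rfl⟩
  rw [← hv] at n4 n5 hv0
  obtain ⟨N, hNdef⟩ : ∃ N, N = Fintype.card ι := ⟨_, rfl⟩
  obtain ⟨m, hm⟩ : ∃ m, m = ⌊η * (N : ℝ)⌋₊ := ⟨_, rfl⟩
  rw [← hNdef] at n1 n2 n3 n4 n5 n6
  rw [← hm] at n2 n3 n4 n5 n6
  have hCB := h.CB_nonneg
  have hle := hUm ι (by omega) c hc A hA m E δ hδ
  rw [← hNdef] at hle ⊢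
  refine hle.trans ?_
  set T := cf Λ ι ∩ A' ∩ {x | E - 21 * η * (N : ℝ) ^ 2 ≤ Ham g c x} with hT
  have mT : MeasurableSet T := U3.T_meas h c hA' _
  have hm1 : (1 : ℝ) ≤ m := by exact_mod_cast n2
  have hexp1 : Real.exp (-(m : ℝ)) ≤ 1 := Real.exp_le_one_iff.mpr (by linarith)
  -- first terms
  have first : ∀ s : Finset ι, s.card = 3 →
      ENNReal.ofReal (C₁ * δ * N ^ 2 * Real.exp (20 * m)) *
        volume {y : {i // i ∉ s} → ℂ | (∀ i, y i ∈ Λ) ∧
          ∃ u, GoodAt Λ s y (Real.exp (-m)) u ∧ glue s u y ∈ A ∧ E ≤ Ham g c (glue s u y)} ≤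
      ENNReal.ofReal (C₁ * δ * N ^ 2 * Real.exp (20 * m) * (2 / v)) * volume T := by
    intro s hs
    set Y := {y : {i // i ∉ s} → ℂ | (∀ i, y i ∈ Λ) ∧
          ∃ u, GoodAt Λ s y (Real.exp (-m)) u ∧ glue s u y ∈ A ∧ E ≤ Ham g c (glue s u y)} with hYdef
    have hY : ∀ y ∈ Y, ENNReal.ofReal (v / 2) ≤
        volume {u : {i // i ∈ s} → ℂ | glue s u y ∈ T} := by
      rintro y ⟨hy, u, hu, huA, huE⟩
      have n5' : 16 * V ^ 3 * ((CB + 12) * Real.exp (-(m : ℝ))) +
          3 * Fintype.card ι * (V ^ 3 * (4 * Real.exp (-(m : ℝ)) ^ 2)) ≤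
          (volume Λ).toReal ^ 3 / 2 := by rw [← hNdef, ← hv]; exact n5
      have hgv := U3.good_vol h hU2 hV1 hV hs (y := y) (Real.exp_pos (-(m : ℝ))) hexp1 n5'
      rw [← hv] at hgv
      refine hgv.trans (measure_mono ?_)
      intro u' hu'
      refine ⟨⟨U3.glue_cf (Real.exp_pos _) hy hu', ?_⟩, ?_⟩
      · apply hAA' _ huA
        refine ⟨s, hs, fun i hi => ?_⟩
        rw [U3.glue_out u' y hi, U3.glue_out u y hi]
      · have hdiff := U3.Ham_diff h hs hc (b := m) (Nat.cast_nonneg _) hy hu hu'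
        rw [abs_le, ← hNdef] at hdiff
        show E - 21 * η * (N : ℝ) ^ 2 ≤ Ham g c (glue s u' y)
        linarith [hdiff.2]
    have hb := U3.fib_bound s mT Y _ hY
    have e1 : ENNReal.ofReal (2 / v) * ENNReal.ofReal (v / 2) = 1 := by
      rw [← ENNReal.ofReal_mul (by positivity), ← ENNReal.ofReal_one]
      congr 1
      field_simp
    calc ENNReal.ofReal (C₁ * δ * N ^ 2 * Real.exp (20 * m)) * volume Y
        = ENNReal.ofReal (C₁ * δ * N ^ 2 * Real.exp (20 * m)) *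
          ((ENNReal.ofReal (2 / v) * ENNReal.ofReal (v / 2)) * volume Y) := by
          rw [e1, one_mul]
      _ = ENNReal.ofReal (C₁ * δ * N ^ 2 * Real.exp (20 * m)) * ENNReal.ofReal (2 / v) *
          (ENNReal.ofReal (v / 2) * volume Y) := by ring
      _ ≤ ENNReal.ofReal (C₁ * δ * N ^ 2 * Real.exp (20 * m)) * ENNReal.ofReal (2 / v) *
          volume T := by gcongr
      _ = ENNReal.ofReal (C₁ * δ * N ^ 2 * Real.exp (20 * m) * (2 / v)) * volume T := by
          rw [← ENNReal.ofReal_mul (by positivity)]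
  -- second terms
  obtain ⟨k, hk⟩ : ∃ k, k = (N - 8 + 1) / 2 := ⟨_, rfl⟩
  rw [← hk] at n6
  have hk21 : 21 ≤ k := by omega
  obtain ⟨W, hW⟩ : ∃ W : ℝ, W = C₁ * (N : ℝ) ^ 2 * Real.exp (20 * ((m : ℝ) + 1)) *
    (2 * 2 ^ N * V ^ N * ((CB + 4 * N) * (2 * Real.exp (-(m : ℝ)))) ^ k) := ⟨_, rfl⟩
  rw [← hW] at n6
  have hV0 : 0 < V := by linarith
  have hW0 : 0 ≤ W := by rw [hW]; positivity
  have second : ∀ s : Finset ι, s.card = 3 →
      ∑' j : ℕ, ENNReal.ofReal (C₁ * δ * N ^ 2 * Real.exp (20 * (m + 1 + j))) *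
          volume {y : {i // i ∉ s} → ℂ | (∀ i, y i ∈ Λ) ∧
            (∃ u, GoodAt Λ s y (Real.exp (-(m + 1 + j))) u ∧ glue s u y ∈ A) ∧
            N ≤ 8 + Set.ncard {i | ¬ Gd Λ Finset.univ (2 * Real.exp (-(m + j))) y i}} ≤
      ENNReal.ofReal (δ * (2 * W)) := by
    intro s hs
    have e0 : ENNReal.ofReal (δ * (2 * W)) =
        ∑' j : ℕ, ENNReal.ofReal ((δ * W) * (1 / 2) ^ j) := by
      rw [U3.tsum_half (by positivity)]; congr 1; ring
    rw [e0]
    apply ENNReal.tsum_le_tsum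
    intro j
    have hr0 : 0 < 2 * Real.exp (-((m : ℝ) + j)) := by positivity
    have hr1 : 2 * Real.exp (-((m : ℝ) + j)) ≤ 1 := by
      have : Real.exp (-((m : ℝ) + j)) ≤ Real.exp (-1) := by
        apply Real.exp_le_exp.mpr
        have : (0 : ℝ) ≤ j := Nat.cast_nonneg j
        linarith
      have h2 : Real.exp (-1) ≤ 1 / 2 := by
        rw [Real.exp_neg, one_div]
        apply inv_anti₀ (by norm_num)
        linarith [Real.exp_one_gt_d9]
      linarith
    have hvol := hU2 Λ V CB h.isOpen hV1 hV h.CB_nonneg h.layer {i // i ∉ s} (N - 8)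
      (2 * Real.exp (-((m : ℝ) + j))) hr0 hr1
    have hcardle : Fintype.card {i // i ∉ s} ≤ N := by
      rw [hNdef]; exact Fintype.card_subtype_le _
    have hcardle' : (Fintype.card {i // i ∉ s} : ℝ) ≤ N := by exact_mod_cast hcardle
    have hvol2 : volume {y : {i // i ∉ s} → ℂ | (∀ i, y i ∈ Λ) ∧
            (∃ u, GoodAt Λ s y (Real.exp (-(m + 1 + j))) u ∧ glue s u y ∈ A) ∧
            N ≤ 8 + Set.ncard {i | ¬ Gd Λ Finset.univ (2 * Real.exp (-(m + j))) y i}} ≤
        ENNReal.ofReal (2 * 2 ^ N * V ^ N *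
          ((CB + 4 * N) * (2 * Real.exp (-((m : ℝ) + j)))) ^ k) := by
      refine (measure_mono ?_).trans (hvol.trans (ENNReal.ofReal_le_ofReal ?_))
      · rintro y ⟨h1, _, h3⟩
        refine ⟨h1, ?_⟩
        omega
      · rw [← hk]
        have q1 : (2 : ℝ) ^ Fintype.card {i // i ∉ s} ≤ 2 ^ N :=
          pow_le_pow_right₀ (by norm_num) hcardle
        have q2 : V ^ Fintype.card {i // i ∉ s} ≤ V ^ N := pow_le_pow_right₀ hV1 hcardle
        gcongr
    calc ENNReal.ofReal (C₁ * δ * N ^ 2 * Real.exp (20 * (m + 1 + j))) *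
          volume {y : {i // i ∉ s} → ℂ | (∀ i, y i ∈ Λ) ∧
            (∃ u, GoodAt Λ s y (Real.exp (-(m + 1 + j))) u ∧ glue s u y ∈ A) ∧
            N ≤ 8 + Set.ncard {i | ¬ Gd Λ Finset.univ (2 * Real.exp (-(m + j))) y i}}
        ≤ ENNReal.ofReal (C₁ * δ * N ^ 2 * Real.exp (20 * (m + 1 + j))) *
          ENNReal.ofReal (2 * 2 ^ N * V ^ N *
          ((CB + 4 * N) * (2 * Real.exp (-((m : ℝ) + j)))) ^ k) := by gcongr
      _ = ENNReal.ofReal (C₁ * δ * N ^ 2 * Real.exp (20 * (m + 1 + j)) *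
          (2 * 2 ^ N * V ^ N * ((CB + 4 * N) * (2 * Real.exp (-((m : ℝ) + j)))) ^ k)) :=
          (ENNReal.ofReal_mul (by positivity)).symm
      _ ≤ ENNReal.ofReal ((δ * W) * (1 / 2) ^ j) := by
          apply ENNReal.ofReal_le_ofReal
          have hg := U3.geo hk21 (X := CB + 4 * N) (by positivity) m j
          have h0 : 0 ≤ C₁ * δ * (N : ℝ) ^ 2 * (2 * 2 ^ N * V ^ N) := by positivity
          calc C₁ * δ * N ^ 2 * Real.exp (20 * (m + 1 + j)) *
              (2 * 2 ^ N * V ^ N * ((CB + 4 * N) * (2 * Real.exp (-((m : ℝ) + j)))) ^ k)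
              = (C₁ * δ * (N : ℝ) ^ 2 * (2 * 2 ^ N * V ^ N)) * (Real.exp (20 * (m + 1 + j)) *
                ((CB + 4 * N) * (2 * Real.exp (-((m : ℝ) + j)))) ^ k) := by ring
            _ ≤ (C₁ * δ * (N : ℝ) ^ 2 * (2 * 2 ^ N * V ^ N)) * (Real.exp (20 * (m + 1)) *
                ((CB + 4 * N) * (2 * Real.exp (-m))) ^ k * (1 / 2) ^ j) :=
                mul_le_mul_of_nonneg_left hg h0
            _ = (δ * W) * (1 / 2) ^ j := by rw [hW]; ring
  -- sum over the triples
  have hcardP : ((Finset.univ.powersetCard 3 : Finset (Finset ι)).card : ENNReal) ≤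
      ENNReal.ofReal ((N : ℝ) ^ 3) := by
    rw [Finset.card_powersetCard, Finset.card_univ, ← hNdef, ENNReal.ofReal_pow (by positivity),
      ENNReal.ofReal_natCast]
    exact_mod_cast Nat.choose_le_pow N 3
  calc ∑ s ∈ Finset.univ.powersetCard 3,
        (ENNReal.ofReal (C₁ * δ * N ^ 2 * Real.exp (20 * m)) *
          volume {y : {i // i ∉ s} → ℂ | (∀ i, y i ∈ Λ) ∧
            ∃ u, GoodAt Λ s y (Real.exp (-m)) u ∧ glue s u y ∈ A ∧ E ≤ Ham g c (glue s u y)} +
        ∑' j : ℕ, ENNReal.ofReal (C₁ * δ * N ^ 2 * Real.exp (20 * (m + 1 + j))) *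
          volume {y : {i // i ∉ s} → ℂ | (∀ i, y i ∈ Λ) ∧
            (∃ u, GoodAt Λ s y (Real.exp (-(m + 1 + j))) u ∧ glue s u y ∈ A) ∧
            N ≤ 8 + Set.ncard {i | ¬ Gd Λ Finset.univ (2 * Real.exp (-(m + j))) y i}})
      ≤ ∑ s ∈ (Finset.univ.powersetCard 3 : Finset (Finset ι)),
        (ENNReal.ofReal (C₁ * δ * N ^ 2 * Real.exp (20 * m) * (2 / v)) * volume T +
          ENNReal.ofReal (δ * (2 * W))) := by
        apply Finset.sum_le_sum
        intro s hs
        have hs3 := (Finset.mem_powersetCard.mp hs).2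
        exact add_le_add (first s hs3) (second s hs3)
    _ = ((Finset.univ.powersetCard 3 : Finset (Finset ι)).card : ENNReal) *
        (ENNReal.ofReal (C₁ * δ * N ^ 2 * Real.exp (20 * m) * (2 / v)) * volume T +
          ENNReal.ofReal (δ * (2 * W))) := by
        rw [Finset.sum_const, nsmul_eq_mul]
    _ ≤ ENNReal.ofReal ((N : ℝ) ^ 3) *
        (ENNReal.ofReal (C₁ * δ * N ^ 2 * Real.exp (20 * m) * (2 / v)) * volume T +
          ENNReal.ofReal (δ * (2 * W))) := by gcongr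
    _ = ENNReal.ofReal ((N : ℝ) ^ 3 * (C₁ * δ * N ^ 2 * Real.exp (20 * m) * (2 / v))) * volume T +
          ENNReal.ofReal ((N : ℝ) ^ 3 * (δ * (2 * W))) := by
        rw [mul_add, ENNReal.ofReal_mul (p := (N : ℝ) ^ 3) (by positivity),
          ENNReal.ofReal_mul (p := (N : ℝ) ^ 3) (by positivity),
          ← mul_assoc (ENNReal.ofReal ((N : ℝ) ^ 3))]
    _ ≤ ENNReal.ofReal (δ * Real.exp (21 * η * N)) * volume T +
          ENNReal.ofReal (δ * Real.exp (-(η * (N : ℝ) ^ 2 / 16))) := by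
        have k1 : (N : ℝ) ^ 3 * (C₁ * δ * N ^ 2 * Real.exp (20 * m) * (2 / v)) ≤
            δ * Real.exp (21 * η * N) := by
          calc (N : ℝ) ^ 3 * (C₁ * δ * N ^ 2 * Real.exp (20 * m) * (2 / v))
              = δ * ((N : ℝ) ^ 3 * (C₁ * (N : ℝ) ^ 2 * Real.exp (20 * m) * (2 / v))) := by ring
            _ ≤ δ * Real.exp (21 * η * N) := mul_le_mul_of_nonneg_left n4 hδ.le
        have k2 : (N : ℝ) ^ 3 * (δ * (2 * W)) ≤ δ * Real.exp (-(η * (N : ℝ) ^ 2 / 16)) := by
          calc (N : ℝ) ^ 3 * (δ * (2 * W)) = δ * ((N : ℝ) ^ 3 * (2 * W)) := by ring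
            _ ≤ δ * Real.exp (-(η * (N : ℝ) ^ 2 / 16)) := mul_le_mul_of_nonneg_left n6 hδ.le
        gcongr

end Pool.Agent.H836_PV
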