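import Pool.Agent.H836_PV.U1b
import Pool.Agent.H836_PV.L

/-!
# Task U1
-/

open MeasureTheory Filter Topology Set Metric

namespace Pool.Agent.H836_PV

theorem isClosed_ballIn (Λ : Set ℂ) (r : ℝ) : IsClosed {z : ℂ | ball z r ⊆ Λ} := by
  have : {z : ℂ | ball z r ⊆ Λ}ᶜ = ⋃ w ∈ Λᶜ, ball w r := by
    ext z
    simp only [mem_compl_iff, mem_ofPred_eq, mem_iUnion, mem_ball, exists_prop]
    constructor
    · intro h
      rw [not_subset] at h
      obtain ⟨w, hw, hw2⟩ := h
      exact ⟨w, hw2, by rw [dist_comm]; exact hw⟩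
    · rintro ⟨w, hw, hw2⟩ h
      exact hw (h (by rw [mem_ball, dist_comm]; exact hw2))
  rw [← isOpen_compl_iff, this]
  exact isOpen_biUnion fun _ _ => isOpen_ball

variable {ι : Type} [Fintype ι] [DecidableEq ι]

theorem isClosed_GoodAt (Λ : Set ℂ) (s : Finset ι) (y : {i // i ∉ s} → ℂ) (r : ℝ) :
    IsClosed {u : {i // i ∈ s} → ℂ | GoodAt Λ s y r u} := by
  have : {u : {i // i ∈ s} → ℂ | GoodAt Λ s y r u} =
      (⋂ i, {u : {i // i ∈ s} → ℂ | ball (u i) r ⊆ Λ}) ∩
      ((⋂ i, ⋂ j, ⋂ _ : i ≠ j, {u : {i // i ∈ s} → ℂ | r ≤ ‖u i - u j‖}) ∩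
      (⋂ i, ⋂ j, {u : {i // i ∈ s} → ℂ | r ≤ ‖u i - y j‖})) := by
    ext u
    simp only [mem_ofPred_eq, mem_inter_iff, mem_iInter]
    constructor
    · rintro ⟨a, b, c⟩; exact ⟨a, b, c⟩
    · rintro ⟨a, b, c⟩; exact ⟨a, b, c⟩
  rw [this]
  refine IsClosed.inter (isClosed_iInter fun i => ?_) (IsClosed.inter
    (isClosed_iInter fun i => isClosed_iInter fun j => isClosed_iInter fun _ => ?_)
    (isClosed_iInter fun i => isClosed_iInter fun j => ?_))
  · exact (isClosed_ballIn Λ r).preimage (f := fun u : {i // i ∈ s} → ℂ => u i) (continuous_apply i)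
  · exact isClosed_le continuous_const (by fun_prop)
  · exact isClosed_le continuous_const (by fun_prop)

/-- `g` cut off outside `Λ × Λ` -/
theorem meas_cut {Λ : Set ℂ} {g : ℂ → ℂ → ℝ} {D C₃ cL CB : ℝ} (hK : Ker Λ g D C₃ cL CB) :
    Measurable (indicator (Λ ×ˢ Λ) (fun p : ℂ × ℂ => g p.1 p.2)) := by
  have hm : MeasurableSet (Λ ×ˢ Λ) := hK.isOpen.measurableSet.prod hK.isOpen.measurableSet
  have hc : ContinuousOn (fun p : ℂ × ℂ => g p.1 p.2) (Λ ×ˢ Λ) := hK.smooth.continuousOn
  classical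
  have := hc.measurable_piecewise (g := fun _ => (0:ℝ)) continuousOn_const hm
  convert! this using 1
  ext p
  by_cases hp : p ∈ Λ ×ˢ Λ
  · rw [indicator_of_mem hp, piecewise_eq_of_mem _ _ _ hp]
  · rw [indicator_of_notMem hp, piecewise_eq_of_notMem _ _ _ hp]

/-- the Hamiltonian cut off outside the configurations in `Λ` is measurable -/
theorem meas_Ham_cut {Λ : Set ℂ} {g : ℂ → ℂ → ℝ} {D C₃ cL CB : ℝ} (hK : Ker Λ g D C₃ cL CB)
    (c : ι → ℝ) : Measurable (indicator (cf Λ ι) (Ham g c)) := by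
  have hm : MeasurableSet (cf Λ ι) := by
    have : cf Λ ι = ⋂ i, {x : ι → ℂ | x i ∈ Λ} := by ext x; simp [cf]
    rw [this]
    exact MeasurableSet.iInter fun i => (measurable_pi_apply i) hK.isOpen.measurableSet
  have e : indicator (cf Λ ι) (Ham g c) = indicator (cf Λ ι) (fun x => 1 / 2 * ∑ i, ∑ j, c i * c j *
      (indicator (Λ ×ˢ Λ) (fun p : ℂ × ℂ => g p.1 p.2) (x i, x j) - Real.log ‖x i - x j‖)) := by
    ext x
    by_cases hx : x ∈ cf Λ ι
    · rw [indicator_of_mem hx, indicator_of_mem hx]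
      unfold Ham K
      congr 1
      apply Finset.sum_congr rfl; intro i _
      apply Finset.sum_congr rfl; intro j _
      rw [indicator_of_mem (show (x i, x j) ∈ Λ ×ˢ Λ from ⟨hx i, hx j⟩)]
    · rw [indicator_of_notMem hx, indicator_of_notMem hx]
  rw [e]
  apply Measurable.indicator _ hm
  refine Measurable.const_mul ?_ _
  refine Finset.measurable_sum _ fun i _ => Finset.measurable_sum _ fun j _ => ?_
  refine Measurable.const_mul (Measurable.sub ?_ ?_) _
  · exact (meas_cut hK).comp ((measurable_pi_apply i).prodMk (measurable_pi_apply j))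
  · exact Real.measurable_log.comp ((measurable_pi_apply i).sub (measurable_pi_apply j)).norm

theorem meas_glue (s : Finset ι) (y : {i // i ∉ s} → ℂ) :
    Measurable fun u : {i // i ∈ s} → ℂ => glue s u y := by
  rw [measurable_pi_iff]
  intro i
  by_cases hi : i ∈ s
  · simp only [glue, hi, dif_pos]; exact measurable_pi_apply _
  · simp only [glue, hi, dif_neg, not_false_eq_true]; exact measurable_const

theorem taskU1 : TaskU1 := by
  obtain ⟨C, hC, hL⟩ := taskL
  intro Λ g D C₃ cL CB hK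
  have hC3 := hK.C₃_nonneg
  have hcL := hK.cL_pos
  have hD := hK.one_le
  set l : ℝ := min 1 cL with hl
  have hl0 : 0 < l := lt_min one_pos hcL
  have hl1 : l ≤ 1 := min_le_left _ _
  set X : ℝ := 4 + 3 * (C₃ + 1024) / l with hX
  have hX0 : 0 < X := by positivity
  refine ⟨C * D ^ 6 / l * X ^ 2, by positivity, ?_⟩
  intro ι _ _ c hc s hs y hy r hr hr1 E δ hδ
  have hN : 1 ≤ (Fintype.card ι : ℝ) := by
    have h1 : s.card ≤ Fintype.card ι := Finset.card_le_univ s
    rw [hs] at h1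
    have : (3 : ℝ) ≤ Fintype.card ι := by exact_mod_cast h1
    linarith
  set N : ℝ := (Fintype.card ι : ℝ) with hNdef
  set R : Set ({i // i ∈ s} → ℂ) := {u | GoodAt Λ s y r u} with hR
  have hcard : Fintype.card {i // i ∈ s} = 3 := by simpa using hs
  set h : ({i // i ∈ s} → ℂ) → ℝ := fun u => indicator (cf Λ ι) (Ham g c) (glue s u y) with hh
  have hhm : Measurable h := (meas_Ham_cut hK c).comp (meas_glue s y)
  have hglue : ∀ u : {i // i ∈ s} → ℂ, (∀ i, u i ∈ Λ) → glue s u y ∈ cf Λ ι := by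
    intro u hu i
    by_cases hi : i ∈ s
    · simp only [glue, hi, dif_pos]; exact hu _
    · simp only [glue, hi, dif_neg, not_false_eq_true]; exact hy _
  have hr4 : 0 < r / 4 := by positivity
  have hlam0 : 0 < l * r ^ 4 := by positivity
  have hr41 : r ^ 4 ≤ 1 := pow_le_one₀ hr.le hr1
  have hLL : 1 ≤ 3 * (C₃ + 1024) * N / r ^ 4 := by
    rw [le_div_iff₀ (by positivity)]
    nlinarith
  have key := (hL {i // i ∈ s} hcard R D (r / 4) (3 * (C₃ + 1024) * N / r ^ 4) (l * r ^ 4) 1 h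
    (HH1 g c s y) (HH2 g c s y) (isClosed_GoodAt Λ s y r).measurableSet hhm hD
    (by
      intro u hu
      rw [mem_closedBall, dist_eq_norm, sub_zero, pi_norm_le_iff_of_nonneg (by linarith)]
      intro i
      exact hK.norm_le _ (hu.bdry i (mem_ball_self hr)))
    hr4 (by linarith) hlam0 (by nlinarith) hLL one_pos
    (by
      intro u hu
      apply (hess_Ham hK hc hs hy hr hr1 hu).congr isOpen_ball
      intro v hv
      simp only [hh]
      rw [indicator_of_mem]
      apply hglue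
      intro i
      apply hu.bdry i
      have := ball_coord hv i
      rw [mem_ball, dist_eq_norm]; linarith)
    (by
      intro u hu a
      refine (levi_Ham hK hc hs hy hr hr1 hu a).trans ?_
      have : l ≤ cL := min_le_right _ _
      have h1 : l * r ^ 4 * ‖a‖ ^ 2 ≤ cL * r ^ 4 * ‖a‖ ^ 2 := by gcongr
      linarith)
    E δ hδ).1
  refine le_trans (measure_mono ?_) (key.trans (ENNReal.ofReal_le_ofReal ?_))
  · rintro u ⟨hu, hE1, hE2⟩
    refine ⟨hu, ?_⟩
    have : h u = Ham g c (glue s u y) := by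
      simp only [hh]
      rw [indicator_of_mem]
      exact hglue u fun i => hu.bdry i (mem_ball_self hr)
    simp only [mem_ofPred_eq, this]
    exact ⟨hE1, hE2⟩
  · have h1 : 1 / (r / 4) + 3 * (C₃ + 1024) * N / r ^ 4 / (l * r ^ 4) ≤ X * N / r ^ 8 := by
      rw [hX]
      have e1 : 1 / (r / 4) = 4 / r := by field_simp
      have e2 : 3 * (C₃ + 1024) * N / r ^ 4 / (l * r ^ 4) = 3 * (C₃ + 1024) / l * N / r ^ 8 := by
        field_simp
      rw [e1, e2, add_mul, add_div]
      have : 4 / r ≤ 4 * N / r ^ 8 := by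
        rw [div_le_div_iff₀ hr (by positivity)]
        have : r ^ 8 ≤ r := by
          calc r ^ 8 ≤ r ^ 1 := pow_le_pow_of_le_one hr.le hr1 (by norm_num)
            _ = r := pow_one r
        nlinarith
      linarith
    have h2 : 0 ≤ 1 / (r / 4) + 3 * (C₃ + 1024) * N / r ^ 4 / (l * r ^ 4) := by positivity
    calc C * δ * D ^ 6 / (l * r ^ 4) * (1 / (r / 4) + 3 * (C₃ + 1024) * N / r ^ 4 / (l * r ^ 4)) ^ 2
        ≤ C * δ * D ^ 6 / (l * r ^ 4) * (X * N / r ^ 8) ^ 2 := by gcongr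
      _ = C * D ^ 6 / l * X ^ 2 * δ * N ^ 2 / r ^ 20 := by field_simp

end Pool.Agent.H836_PV
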