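/-
PROJECT PV (MP_fa244c_mp, owner helper836). Spec files are on origin/main under Pool/Agent/H836_PV/:
  git -C /workdir/pool/outputs/live pull -q; mkdir -p /workdir/pool/Pool/Agent/H836_PV
  cp /workdir/pool/outputs/live/Pool/Agent/H836_PV/*.lean /workdir/pool/Pool/Agent/H836_PV/
  cd /workdir/pool; lake build Pool.Agent.H836_PV.StmtsB Pool.Agent.H836_PV.StmtsP
Full blueprint: SELECT blueprint FROM projects WHERE pid='MP_fa244c_mp'.
Helper lemmas in the same file are fine. Keep the statement of the target unchanged; if you think it is false, say so.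
Paste the whole file back as result (or also push it on your branch and say where).

PROOF (blueprint U2). N = card ι; transfer to ι = Fin N by an equivalence (volume preserving: volume_measurePreserving_piCongrLeft / MeasurableEquiv.piCongrLeft) or fix
a linear order on ι. If i is bad (¬ Gd: ¬ ball (x i) r ⊆ Λ, or |x_i - x_j| < r for some j ≠ i), then i is bad with respect to the boundary and the EARLIER indices or
bad with respect to the LATER indices. So if ≥ n indices are bad, then ≥ k := ⌈n/2⌉ = (n+1)/2 indices are (bdry or earlier)-bad, or ≥ k are later-bad. For a fixed set J of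
exactly k indices: vol{x∈Λ^N: every i∈J is bad w.r.t. boundary or some earlier index} ≤ V^{N-k}(CB r + Nπr²)^k by sequential integration (last
coordinate first: for fixed earlier coordinates the set of z∈Λ that are bad has area ≤ CB r + (N-1)πr² ≤ (CB+4N)r as r ≤ 1; if i∉J use area ≤ V). Union over J
(≤ 2^N sets) and the reversed order: factor 2. V^{N-k} ≤ V^N as V ≥ 1.
-/
import Pool.Agent.H836_PV.StmtsB

open MeasureTheory Filter Topology Set Metric

namespace Pool.Agent.H836_PV

namespace U2

/-- the index `i` is bad with respect to the boundary and the indices that are earlier in the order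
given by `e` -/
def bad (Λ : Set ℂ) (r : ℝ) {ι : Type} {N : ℕ} (e : ι ≃ Fin N) (x : ι → ℂ) (i : ι) : Prop :=
  ¬ ball (x i) r ⊆ Λ ∨ ∃ j, e j < e i ∧ ‖x i - x j‖ < r

theorem isOpen_bd (Λ : Set ℂ) (r : ℝ) : IsOpen {z : ℂ | ¬ ball z r ⊆ Λ} := by
  have : {z : ℂ | ¬ ball z r ⊆ Λ} = ⋃ y ∈ Λᶜ, ball y r := by
    ext z
    simp only [Set.mem_iUnion, Set.mem_compl_iff, exists_prop]
    constructor
    · intro h
      obtain ⟨y, hy, hy'⟩ := Set.not_subset.1 h
      exact ⟨y, hy', mem_ball_comm.1 hy⟩
    · rintro ⟨y, hy, hy'⟩ h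
      exact hy (h (mem_ball_comm.1 hy'))
  rw [this]
  exact isOpen_biUnion fun y _ => isOpen_ball

theorem isOpen_set (Λ : Set ℂ) (hΛ : IsOpen Λ) (r : ℝ) {N : ℕ} (J : Finset (Fin N)) :
    IsOpen {x : Fin N → ℂ | (∀ i, x i ∈ Λ) ∧ ∀ i ∈ J, bad Λ r (Equiv.refl _) x i} := by
  have h1 : IsOpen {x : Fin N → ℂ | ∀ i, x i ∈ Λ} := by
    have : {x : Fin N → ℂ | ∀ i, x i ∈ Λ} = ⋂ i, (fun x : Fin N → ℂ => x i) ⁻¹' Λ := by
      ext x; simp
    rw [this]
    exact isOpen_iInter_of_finite fun i => hΛ.preimage (continuous_apply i)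
  have h2 : IsOpen {x : Fin N → ℂ | ∀ i ∈ J, bad Λ r (Equiv.refl _) x i} := by
    have : {x : Fin N → ℂ | ∀ i ∈ J, bad Λ r (Equiv.refl _) x i} =
        ⋂ i ∈ J, {x : Fin N → ℂ | bad Λ r (Equiv.refl _) x i} := by
      ext x; simp
    rw [this]
    refine isOpen_biInter_finset fun i _ => ?_
    have h3 : {x : Fin N → ℂ | bad Λ r (Equiv.refl _) x i} =
        ((fun x : Fin N → ℂ => x i) ⁻¹' {z : ℂ | ¬ ball z r ⊆ Λ}) ∪
          ⋃ j : Fin N, ⋃ _ : j < i, {x : Fin N → ℂ | ‖x i - x j‖ < r} := by
      ext x; simp [bad]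
    rw [h3]
    refine ((isOpen_bd Λ r).preimage (continuous_apply i)).union ?_
    refine isOpen_iUnion fun j => isOpen_iUnion fun _ => ?_
    exact isOpen_lt (by fun_prop) continuous_const
  exact h1.inter h2

/-- the area of the bad positions for one point, given `N` others -/
theorem area (Λ : Set ℂ) (CB r : ℝ) (hr : 0 < r) (hr1 : r ≤ 1) (hCB : 0 ≤ CB)
    (h : volume {x ∈ Λ | ¬ ball x r ⊆ Λ} ≤ ENNReal.ofReal (CB * r)) {N : ℕ} (y : Fin N → ℂ) :
    volume {z : ℂ | z ∈ Λ ∧ (¬ ball z r ⊆ Λ ∨ ∃ j, ‖z - y j‖ < r)} ≤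
      ENNReal.ofReal ((CB + 4 * N) * r) := by
  have hsub : {z : ℂ | z ∈ Λ ∧ (¬ ball z r ⊆ Λ ∨ ∃ j, ‖z - y j‖ < r)} ⊆
      {x ∈ Λ | ¬ ball x r ⊆ Λ} ∪ ⋃ j, ball (y j) r := by
    rintro z ⟨hz, h1 | ⟨j, hj⟩⟩
    · exact Or.inl ⟨hz, h1⟩
    · refine Or.inr (Set.mem_iUnion.2 ⟨j, ?_⟩)
      rw [mem_ball, dist_eq_norm]; exact hj
  refine (measure_mono hsub).trans ((measure_union_le _ _).trans ?_)
  have h2 : volume (⋃ j, ball (y j) r) ≤ ENNReal.ofReal (4 * N * r) := by
    refine (measure_iUnion_le _).trans ?_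
    rw [tsum_fintype]
    have hb : ∀ j ∈ (Finset.univ : Finset (Fin N)), volume (ball (y j) r) ≤
        ENNReal.ofReal (4 * r) := by
      intro j _
      rw [Complex.volume_ball]
      have h4 : ((NNReal.pi : NNReal) : ENNReal) ≤ ENNReal.ofReal 4 := by
        rw [ENNReal.le_ofReal_iff_toReal_le ENNReal.coe_ne_top (by norm_num)]
        rw [ENNReal.coe_toReal, NNReal.coe_real_pi]
        exact Real.pi_le_four
      calc ENNReal.ofReal r ^ 2 * (NNReal.pi : ENNReal)
          ≤ ENNReal.ofReal r * ENNReal.ofReal 4 := by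
            refine mul_le_mul' ?_ h4
            rw [pow_two]
            calc ENNReal.ofReal r * ENNReal.ofReal r ≤ ENNReal.ofReal r * 1 := by
                  refine mul_le_mul' le_rfl ?_
                  exact ENNReal.ofReal_le_one.2 hr1
              _ = ENNReal.ofReal r := mul_one _
        _ = ENNReal.ofReal (4 * r) := by
            rw [← ENNReal.ofReal_mul hr.le, mul_comm]
    refine (Finset.sum_le_sum hb).trans ?_
    rw [Finset.sum_const, Finset.card_univ, Fintype.card_fin, nsmul_eq_mul,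
      show (4 * (N : ℝ) * r) = N * (4 * r) by ring,
      ENNReal.ofReal_mul (p := (N : ℝ)) (by positivity), ENNReal.ofReal_natCast]
  calc volume {x | x ∈ Λ ∧ ¬ ball x r ⊆ Λ} + volume (⋃ j, ball (y j) r)
      ≤ ENNReal.ofReal (CB * r) + ENNReal.ofReal (4 * N * r) := add_le_add h h2
    _ = ENNReal.ofReal ((CB + 4 * N) * r) := by
        rw [← ENNReal.ofReal_add (by positivity) (by positivity)]
        congr 1; ring

/-- sequential integration -/
theorem seq (Λ : Set ℂ) (hΛ : IsOpen Λ) (V CB r : ℝ) (hV : 1 ≤ V)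
    (hvol : volume Λ ≤ ENNReal.ofReal V) (hr : 0 < r) (hr1 : r ≤ 1) (hCB : 0 ≤ CB)
    (h : volume {x ∈ Λ | ¬ ball x r ⊆ Λ} ≤ ENNReal.ofReal (CB * r)) (M : ℕ) :
    ∀ N : ℕ, N ≤ M → ∀ J : Finset (Fin N),
      volume {x : Fin N → ℂ | (∀ i, x i ∈ Λ) ∧ ∀ i ∈ J, bad Λ r (Equiv.refl _) x i} ≤
        ENNReal.ofReal V ^ N * ENNReal.ofReal ((CB + 4 * M) * r) ^ J.card := by
  intro N
  induction N with
  | zero =>
    intro _ J
    have hJ : J = ∅ := by
      ext i; exact i.elim0
    subst hJ
    rw [pow_zero, Finset.card_empty, pow_zero, mul_one]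
    refine (measure_mono (Set.subset_univ _)).trans ?_
    rw [show (volume : Measure (Fin 0 → ℂ)) = Measure.pi fun _ => volume from rfl, Measure.pi_univ]
    simp
  | succ N ih =>
    intro hN J
    classical
    set J' : Finset (Fin N) := Finset.univ.filter fun i => i.castSucc ∈ J with hJ'
    set c : ENNReal := ENNReal.ofReal ((CB + 4 * M) * r) with hc
    set W : ENNReal := ENNReal.ofReal V with hW
    set S : Set (Fin (N + 1) → ℂ) :=
      {x | (∀ i, x i ∈ Λ) ∧ ∀ i ∈ J, bad Λ r (Equiv.refl _) x i} with hS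
    set S' : Set (Fin N → ℂ) :=
      {x | (∀ i, x i ∈ Λ) ∧ ∀ i ∈ J', bad Λ r (Equiv.refl _) x i} with hS'
    set f := MeasurableEquiv.piFinSuccAbove (fun _ : Fin (N + 1) => ℂ) (Fin.last N) with hf
    have hmp : MeasurePreserving f volume volume :=
      volume_preserving_piFinSuccAbove (fun _ : Fin (N + 1) => ℂ) (Fin.last N)
    have hSm : MeasurableSet S := (isOpen_set Λ hΛ r J).measurableSet
    have hS'm : MeasurableSet S' := (isOpen_set Λ hΛ r J').measurableSet
    have e1 : volume S = volume (f.symm ⁻¹' S) :=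
      (hmp.symm.measure_preimage_equiv S).symm
    have hTm : MeasurableSet (f.symm ⁻¹' S) := f.symm.measurable hSm
    rw [e1]
    rw [show (volume : Measure (ℂ × (Fin N → ℂ))) = (volume : Measure ℂ).prod volume from rfl,
      Measure.prod_apply_symm hTm]
    set b : ENNReal := if Fin.last N ∈ J then c else W with hb
    have hpt : ∀ y : Fin N → ℂ, volume ((fun z : ℂ => (z, y)) ⁻¹' (f.symm ⁻¹' S)) ≤
        S'.indicator (fun _ => b) y := by
      intro y
      have hfs : ∀ z : ℂ, (∀ i : Fin N, f.symm (z, y) i.castSucc = y i) ∧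
          f.symm (z, y) (Fin.last N) = z := by
        intro z
        refine ⟨fun i => ?_, ?_⟩
        · rw [hf]
          show Fin.insertNth (α := fun _ => ℂ) (Fin.last N) z y i.castSucc = y i
          rw [← Fin.succAbove_last_apply, Fin.insertNth_apply_succAbove]
        · rw [hf]
          show Fin.insertNth (α := fun _ => ℂ) (Fin.last N) z y (Fin.last N) = z
          rw [Fin.insertNth_apply_same]
      by_cases hy : y ∈ S'
      · rw [Set.indicator_of_mem hy]
        by_cases hl : Fin.last N ∈ J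
        · rw [hb, if_pos hl]
          refine (measure_mono ?_).trans ((area Λ CB r hr hr1 hCB h y).trans ?_)
          · intro z hz
            obtain ⟨hz1, hz2⟩ := hz
            have h1 := hz1 (Fin.last N)
            rw [(hfs z).2] at h1
            refine ⟨h1, ?_⟩
            rcases hz2 _ hl with h3 | ⟨j, hj, hj'⟩
            · rw [(hfs z).2] at h3; exact Or.inl h3
            · right
              have hjl : j ≠ Fin.last N := by
                rintro rfl; exact absurd hj (lt_irrefl _)
              obtain ⟨i, rfl⟩ := Fin.exists_castSucc_eq.2 hjl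
              rw [(hfs z).2, (hfs z).1 i] at hj'
              exact ⟨i, hj'⟩
          · rw [hc]
            apply ENNReal.ofReal_le_ofReal
            have : (N : ℝ) ≤ M := by exact_mod_cast (by omega : N ≤ M)
            gcongr
        · rw [hb, if_neg hl]
          refine (measure_mono ?_).trans hvol
          intro z hz
          have h1 := hz.1 (Fin.last N)
          rw [(hfs z).2] at h1
          exact h1
      · rw [Set.indicator_of_notMem hy]
        have : (fun z : ℂ => (z, y)) ⁻¹' (f.symm ⁻¹' S) = ∅ := by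
          rw [Set.eq_empty_iff_forall_notMem]
          intro z hz
          obtain ⟨hz1, hz2⟩ := hz
          apply hy
          refine ⟨fun i => ?_, fun i hi => ?_⟩
          · have := hz1 i.castSucc
            rwa [(hfs z).1] at this
          · rw [hJ', Finset.mem_filter] at hi
            rcases hz2 _ hi.2 with h3 | ⟨j, hj, hj'⟩
            · rw [(hfs z).1] at h3; exact Or.inl h3
            · right
              have hjl : j ≠ Fin.last N := by
                rintro rfl
                exact absurd (lt_trans hj (Fin.castSucc_lt_last i)) (lt_irrefl _)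
              obtain ⟨j', rfl⟩ := Fin.exists_castSucc_eq.2 hjl
              rw [(hfs z).1, (hfs z).1] at hj'
              exact ⟨j', Fin.castSucc_lt_castSucc_iff.1 hj, hj'⟩
        rw [this, measure_empty]
    refine (lintegral_mono hpt).trans ?_
    rw [lintegral_indicator_const hS'm]
    refine (mul_le_mul' le_rfl (ih (by omega) J')).trans ?_
    have hW1 : 1 ≤ W := by
      rw [hW, ENNReal.one_le_ofReal]; exact hV
    have hcard : J.card = J'.card + (if Fin.last N ∈ J then 1 else 0) := by
      have h1 : J = (J'.map Fin.castSuccEmb) ∪ (if Fin.last N ∈ J then {Fin.last N} else ∅) := by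
        ext i
        rw [Finset.mem_union, Finset.mem_map]
        constructor
        · intro hi
          by_cases hil : i = Fin.last N
          · subst hil; right; rw [if_pos hi]; exact Finset.mem_singleton_self _
          · left
            obtain ⟨i', rfl⟩ := Fin.exists_castSucc_eq.2 hil
            exact ⟨i', by rw [hJ', Finset.mem_filter]; exact ⟨Finset.mem_univ _, hi⟩, rfl⟩
        · rintro (⟨i', hi', rfl⟩ | hi)
          · rw [hJ', Finset.mem_filter] at hi'; exact hi'.2
          · split_ifs at hi with hl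
            · rw [Finset.mem_singleton] at hi; rw [hi]; exact hl
            · simp at hi
      have h2 : Disjoint (J'.map Fin.castSuccEmb) (if Fin.last N ∈ J then {Fin.last N} else ∅) := by
        rw [Finset.disjoint_left]
        intro i hi hi2
        rw [Finset.mem_map] at hi
        obtain ⟨i', _, rfl⟩ := hi
        split_ifs at hi2 with hl
        · rw [Finset.mem_singleton] at hi2
          exact absurd hi2 (Fin.castSucc_lt_last i').ne
        · simp at hi2
      conv_lhs => rw [h1]
      rw [Finset.card_union_of_disjoint h2, Finset.card_map]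
      congr 1
      split_ifs <;> simp
    rw [hcard, hb]
    split_ifs with hl
    · calc c * (W ^ N * c ^ J'.card) = W ^ N * c ^ (J'.card + 1) := by rw [pow_succ]; ring
        _ ≤ W ^ (N + 1) * c ^ (J'.card + 1) := by
          refine mul_le_mul' ?_ le_rfl
          exact pow_le_pow_right₀ hW1 (Nat.le_succ N)
    · rw [add_zero, pow_succ]
      apply le_of_eq; ring

/-- the same for an arbitrary order on a finite index type -/
theorem seq' (Λ : Set ℂ) (hΛ : IsOpen Λ) (V CB r : ℝ) (hV : 1 ≤ V)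
    (hvol : volume Λ ≤ ENNReal.ofReal V) (hr : 0 < r) (hr1 : r ≤ 1) (hCB : 0 ≤ CB)
    (h : volume {x ∈ Λ | ¬ ball x r ⊆ Λ} ≤ ENNReal.ofReal (CB * r)) (ι : Type) [Fintype ι]
    [DecidableEq ι] (N : ℕ) (e : ι ≃ Fin N) (J : Finset ι) :
    volume {x : ι → ℂ | (∀ i, x i ∈ Λ) ∧ ∀ i ∈ J, bad Λ r e x i} ≤
      ENNReal.ofReal V ^ N * ENNReal.ofReal ((CB + 4 * N) * r) ^ J.card := by
  set f := MeasurableEquiv.piCongrLeft (fun _ : Fin N => ℂ) e with hf
  have hmp : MeasurePreserving f volume volume :=
    volume_measurePreserving_piCongrLeft (fun _ : Fin N => ℂ) e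
  have hfx : ∀ (x : ι → ℂ) (i : Fin N), f x i = x (e.symm i) := by
    intro x i
    obtain ⟨i', rfl⟩ := e.surjective i
    rw [Equiv.symm_apply_apply]
    exact Equiv.piCongrLeft_apply_apply (fun _ : Fin N => ℂ) e x i'
  have hset : {x : ι → ℂ | (∀ i, x i ∈ Λ) ∧ ∀ i ∈ J, bad Λ r e x i} =
      f ⁻¹' {x : Fin N → ℂ | (∀ i, x i ∈ Λ) ∧ ∀ i ∈ J.map e.toEmbedding,
        bad Λ r (Equiv.refl _) x i} := by
    ext x
    rw [Set.mem_preimage]
    constructor
    · rintro ⟨h1, h2⟩
      refine ⟨fun i => by rw [hfx]; exact h1 _, fun i hi => ?_⟩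
      rw [Finset.mem_map] at hi
      obtain ⟨i', hi', rfl⟩ := hi
      rcases h2 i' hi' with h3 | ⟨j, hj, hj'⟩
      · left; rw [hfx]; simpa using h3
      · refine Or.inr ⟨e j, hj, ?_⟩
        rw [hfx, hfx]; simpa using hj'
    · rintro ⟨h1, h2⟩
      refine ⟨fun i => by have := h1 (e i); rwa [hfx, Equiv.symm_apply_apply] at this,
        fun i hi => ?_⟩
      rcases h2 (e i) (Finset.mem_map_of_mem _ hi) with h3 | ⟨j, hj, hj'⟩
      · left; rw [hfx, Equiv.symm_apply_apply] at h3; exact h3
      · refine Or.inr ⟨e.symm j, ?_, ?_⟩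
        · rw [Equiv.apply_symm_apply]; exact hj
        · rw [hfx, hfx, Equiv.symm_apply_apply] at hj'; exact hj'
  rw [hset, hmp.measure_preimage_equiv]
  have := seq Λ hΛ V CB r hV hvol hr hr1 hCB h N N le_rfl (J.map e.toEmbedding)
  rwa [Finset.card_map] at this

end U2

theorem taskU2 : TaskU2 := by
  intro Λ V CB hΛ hV hvol hCB hbd ι _ _ n r hr hr1
  classical
  set N := Fintype.card ι with hN
  set e : ι ≃ Fin N := Fintype.equivFin ι with he
  set e' : ι ≃ Fin N := e.trans Fin.revPerm with he'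
  set k := (n + 1) / 2 with hk
  set c : ENNReal := ENNReal.ofReal ((CB + 4 * N) * r) with hc
  set W : ENNReal := ENNReal.ofReal V with hW
  have key : {x : ι → ℂ | x ∈ cf Λ ι ∧ n ≤ Set.ncard {i | ¬ Gd Λ Finset.univ r x i}} ⊆
      ⋃ J ∈ Finset.powersetCard k (Finset.univ : Finset ι),
        ({x : ι → ℂ | (∀ i, x i ∈ Λ) ∧ ∀ i ∈ J, U2.bad Λ r e x i} ∪
          {x : ι → ℂ | (∀ i, x i ∈ Λ) ∧ ∀ i ∈ J, U2.bad Λ r e' x i}) := by
    rintro x ⟨hx, hn⟩
    have hcov : {i | ¬ Gd Λ Finset.univ r x i} ⊆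
        ((Finset.univ.filter fun i => U2.bad Λ r e x i) ∪
          (Finset.univ.filter fun i => U2.bad Λ r e' x i) : Finset ι) := by
      intro i hi
      rw [Finset.coe_union, Finset.coe_filter, Finset.coe_filter]
      have hi' : ¬ (ball (x i) r ⊆ Λ ∧ ∀ j ∈ (Finset.univ : Finset ι), j ≠ i → r ≤ ‖x i - x j‖) := hi
      by_cases hb : ball (x i) r ⊆ Λ
      · have : ∃ j, j ≠ i ∧ ‖x i - x j‖ < r := by
          by_contra hcon
          push Not at hcon
          exact hi' ⟨hb, fun j _ hj => hcon j hj⟩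
        obtain ⟨j, hj, hj'⟩ := this
        have hne : e j ≠ e i := fun h => hj (e.injective h)
        rcases lt_or_gt_of_ne hne with hlt | hlt
        · exact Or.inl ⟨Finset.mem_univ _, Or.inr ⟨j, hlt, hj'⟩⟩
        · refine Or.inr ⟨Finset.mem_univ _, Or.inr ⟨j, ?_, hj'⟩⟩
          rw [he']
          show Fin.rev (e j) < Fin.rev (e i)
          exact Fin.rev_lt_rev.2 hlt
      · exact Or.inl ⟨Finset.mem_univ _, Or.inl hb⟩
    have h1 : Set.ncard {i | ¬ Gd Λ Finset.univ r x i} ≤
        (Finset.univ.filter fun i => U2.bad Λ r e x i).card +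
          (Finset.univ.filter fun i => U2.bad Λ r e' x i).card := by
      refine (Set.ncard_le_ncard hcov (Finset.finite_toSet _)).trans ?_
      rw [Set.ncard_coe_finset]
      exact Finset.card_union_le _ _
    have h2 : k ≤ (Finset.univ.filter fun i => U2.bad Λ r e x i).card ∨
        k ≤ (Finset.univ.filter fun i => U2.bad Λ r e' x i).card := by
      omega
    rw [Set.mem_iUnion₂]
    rcases h2 with h2 | h2
    · obtain ⟨J, hJ, hJc⟩ := Finset.exists_subset_card_eq h2
      refine ⟨J, Finset.mem_powersetCard.2 ⟨Finset.subset_univ _, hJc⟩, Or.inl ⟨hx, fun i hi => ?_⟩⟩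
      exact (Finset.mem_filter.1 (hJ hi)).2
    · obtain ⟨J, hJ, hJc⟩ := Finset.exists_subset_card_eq h2
      refine ⟨J, Finset.mem_powersetCard.2 ⟨Finset.subset_univ _, hJc⟩, Or.inr ⟨hx, fun i hi => ?_⟩⟩
      exact (Finset.mem_filter.1 (hJ hi)).2
  have hJb : ∀ J ∈ Finset.powersetCard k (Finset.univ : Finset ι),
      volume ({x : ι → ℂ | (∀ i, x i ∈ Λ) ∧ ∀ i ∈ J, U2.bad Λ r e x i} ∪
          {x : ι → ℂ | (∀ i, x i ∈ Λ) ∧ ∀ i ∈ J, U2.bad Λ r e' x i}) ≤
        2 * (W ^ N * c ^ k) := by
    intro J hJ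
    have hJc := (Finset.mem_powersetCard.1 hJ).2
    refine (measure_union_le _ _).trans ?_
    rw [two_mul]
    have h1 := U2.seq' Λ hΛ V CB r hV hvol hr hr1 hCB (hbd r hr hr1) ι N e J
    have h2 := U2.seq' Λ hΛ V CB r hV hvol hr hr1 hCB (hbd r hr hr1) ι N e' J
    rw [hJc] at h1 h2
    exact add_le_add h1 h2
  calc volume {x : ι → ℂ | x ∈ cf Λ ι ∧ n ≤ Set.ncard {i | ¬ Gd Λ Finset.univ r x i}}
      ≤ ∑ J ∈ Finset.powersetCard k (Finset.univ : Finset ι), 2 * (W ^ N * c ^ k) :=
        (measure_mono key).trans ((measure_biUnion_finset_le _ _).trans (Finset.sum_le_sum hJb))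
    _ = (N.choose k : ENNReal) * (2 * (W ^ N * c ^ k)) := by
        rw [Finset.sum_const, Finset.card_powersetCard, Finset.card_univ, nsmul_eq_mul]
    _ ≤ (2 ^ N : ENNReal) * (2 * (W ^ N * c ^ k)) := by
        refine mul_le_mul' ?_ le_rfl
        exact_mod_cast Nat.choose_le_two_pow N k
    _ = ENNReal.ofReal (2 * 2 ^ N * V ^ N * ((CB + 4 * N) * r) ^ k) := by
        have h0 : 0 ≤ (CB + 4 * N) * r := by positivity
        have hV0 : 0 ≤ V := by linarith
        rw [ENNReal.ofReal_mul (by positivity), ENNReal.ofReal_mul (by positivity),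
          ENNReal.ofReal_mul (by positivity), ENNReal.ofReal_pow h0, ENNReal.ofReal_pow hV0,
          ENNReal.ofReal_pow (by norm_num), ENNReal.ofReal_ofNat]
        ring

end Pool.Agent.H836_PV
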