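import Pool.Agent.H836_PV.Stmts

open MeasureTheory Filter Topology Set Metric ENNReal

namespace Pool.Agent.H836_PV

namespace V1

lemma lint_inv (y : ℂ) {δ : ℝ} (hδ : 0 < δ) :
    ∫⁻ z in ball y δ, ENNReal.ofReal (δ / ‖z - y‖) ≤ ENNReal.ofReal (2 * Real.pi * δ ^ 2) := by
  have h1 : ∫⁻ z in ball y δ, ENNReal.ofReal (δ / ‖z - y‖) =
      ∫⁻ z : ℂ, (ball (0:ℂ) δ).indicator (fun z => ENNReal.ofReal (δ / ‖z‖)) z := by
    rw [← lintegral_indicator measurableSet_ball]
    rw [← lintegral_sub_right_eq_self (fun z => (ball (0:ℂ) δ).indicator (fun z => ENNReal.ofReal (δ / ‖z‖)) z) y]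
    refine lintegral_congr fun z => ?_
    simp only [indicator, mem_ball, dist_eq_norm, sub_zero]
  rw [h1, ← Complex.lintegral_comp_polarCoord_symm]
  have h2 : ∀ p ∈ polarCoord.target, ENNReal.ofReal p.1 • (ball (0:ℂ) δ).indicator
      (fun z => ENNReal.ofReal (δ / ‖z‖)) (Complex.polarCoord.symm p) =
      (Ioo (0:ℝ) δ ×ˢ Ioo (-Real.pi) Real.pi).indicator (fun _ => ENNReal.ofReal δ) p := by
    intro p hp
    rw [polarCoord_target] at hp
    obtain ⟨hp1, hp2⟩ := hp
    simp only [mem_Ioi] at hp1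
    by_cases h : p.1 < δ
    · rw [indicator_of_mem, indicator_of_mem, Complex.norm_polarCoord_symm, abs_of_pos hp1,
        smul_eq_mul, ← ENNReal.ofReal_mul hp1.le, mul_div_cancel₀ _ hp1.ne']
      · exact ⟨⟨hp1, h⟩, hp2⟩
      · rw [mem_ball, dist_zero_right, Complex.norm_polarCoord_symm, abs_of_pos hp1]
        exact h
    · rw [indicator_of_notMem, indicator_of_notMem, smul_zero]
      · exact fun hh => h hh.1.2
      · rw [mem_ball, dist_zero_right, Complex.norm_polarCoord_symm, abs_of_pos hp1]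
        exact h
  rw [setLIntegral_congr_fun polarCoord.open_target.measurableSet h2]
  refine (setLIntegral_le_lintegral _ _).trans ?_
  rw [lintegral_indicator (measurableSet_Ioo.prod measurableSet_Ioo), setLIntegral_const,
    Measure.volume_eq_prod, Measure.prod_prod, Real.volume_Ioo, Real.volume_Ioo,
    ← ENNReal.ofReal_mul (by linarith), ← ENNReal.ofReal_mul hδ.le]
  apply ENNReal.ofReal_le_ofReal
  nlinarith [Real.pi_pos]

lemma exp_fd (δ : ℝ) (hδ : 0 < δ) (x y : ℂ) : Real.exp (fd δ x y) = max 1 (δ / ‖x - y‖) := by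
  unfold fd
  rcases (norm_nonneg (x - y)).eq_or_lt with h | h
  · rw [← h]; simp
  · have : 0 < δ / ‖x - y‖ := div_pos hδ h
    rw [Real.exp_monotone.map_max, Real.exp_zero, Real.exp_log this]

lemma vol_ball_le (w : ℂ) {δ : ℝ} (hδ : 0 < δ) :
    volume (ball w δ) = ENNReal.ofReal (Real.pi * δ ^ 2) := by
  rw [Complex.volume_ball, ← ENNReal.ofReal_pow hδ.le, mul_comm Real.pi,
    ENNReal.ofReal_mul (by positivity)]
  congr 1
  rw [← NNReal.coe_real_pi, ENNReal.ofReal_coe_nnreal]

lemma lint_T (w y : ℂ) {δ : ℝ} (hδ : 0 < δ) :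
    ∫⁻ z in ball w δ, ENNReal.ofReal (Real.exp (fd δ z y)) ≤
      ENNReal.ofReal (3 * Real.pi * δ ^ 2) := by
  have h1 : ∀ z : ℂ, ENNReal.ofReal (Real.exp (fd δ z y)) ≤
      1 + (ball y δ).indicator (fun z => ENNReal.ofReal (δ / ‖z - y‖)) z := by
    intro z
    rw [exp_fd δ hδ]
    by_cases h : z ∈ ball y δ
    · rw [indicator_of_mem h, ← ENNReal.ofReal_one, ← ENNReal.ofReal_add zero_le_one (by positivity)]
      apply ENNReal.ofReal_le_ofReal
      have : 0 ≤ δ / ‖z - y‖ := by positivity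
      rw [max_le_iff]; constructor <;> linarith
    · rw [indicator_of_notMem h, add_zero, max_eq_left, ENNReal.ofReal_one]
      rw [mem_ball, dist_eq_norm, not_lt] at h
      exact (div_le_one (lt_of_lt_of_le hδ h)).2 h
  calc ∫⁻ z in ball w δ, ENNReal.ofReal (Real.exp (fd δ z y))
      ≤ ∫⁻ z in ball w δ, (1 + (ball y δ).indicator (fun z => ENNReal.ofReal (δ / ‖z - y‖)) z) :=
        lintegral_mono h1
    _ = (∫⁻ _ in ball w δ, (1 : ℝ≥0∞)) + ∫⁻ z in ball w δ, (ball y δ).indicator (fun z => ENNReal.ofReal (δ / ‖z - y‖)) z :=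
        lintegral_add_left measurable_const _
    _ ≤ ENNReal.ofReal (Real.pi * δ ^ 2) + ENNReal.ofReal (2 * Real.pi * δ ^ 2) := by
        gcongr
        · rw [setLIntegral_const, one_mul, vol_ball_le w hδ]
        · refine (setLIntegral_le_lintegral _ _).trans ?_
          rw [lintegral_indicator measurableSet_ball]
          exact lint_inv y hδ
    _ = ENNReal.ofReal (3 * Real.pi * δ ^ 2) := by
        rw [← ENNReal.ofReal_add (by positivity) (by positivity)]; congr 1; ring

lemma measurable_fd (δ : ℝ) : Measurable (fun p : ℂ × ℂ => fd δ p.1 p.2) := by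
  unfold fd
  fun_prop

lemma fd_nonneg (δ : ℝ) (x y : ℂ) : 0 ≤ fd δ x y := le_max_left _ _

lemma fd_symm (δ : ℝ) (x y : ℂ) : fd δ x y = fd δ y x := by
  unfold fd; rw [norm_sub_rev]

lemma fd_self (δ : ℝ) (x : ℂ) : fd δ x x = 0 := by
  unfold fd; simp

lemma fd_eq_zero {δ : ℝ} (hδ : 0 < δ) {x y : ℂ} (h : δ ≤ ‖x - y‖) : fd δ x y = 0 := by
  unfold fd
  apply max_eq_left
  apply Real.log_nonpos (by positivity)
  exact (div_le_one (lt_of_lt_of_le hδ h)).2 h

/-- Jensen -/
lemma exp_sum_le {α : Type*} (J : Finset α) (hJ : J.Nonempty) (b : ℝ) (f : α → ℝ) (hf : ∀ j, 0 ≤ f j)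
    (hb : b * J.card ≤ 1) : Real.exp (b * ∑ j ∈ J, f j) ≤
      (1 / (J.card : ℝ)) * ∑ j ∈ J, Real.exp (f j) := by
  have hc : (0:ℝ) < J.card := by exact_mod_cast hJ.card_pos
  have h0 : 0 ≤ ∑ j ∈ J, f j := Finset.sum_nonneg fun j _ => hf j
  have h1 : b * ∑ j ∈ J, f j ≤ ∑ j ∈ J, (1 / (J.card : ℝ)) • f j := by
    rw [← Finset.smul_sum, smul_eq_mul]
    apply mul_le_mul_of_nonneg_right _ h0
    rw [le_div_iff₀ hc]; exact hb
  refine (Real.exp_le_exp.2 h1).trans ?_
  have := convexOn_exp.map_sum_le (t := J) (w := fun _ => 1 / (J.card : ℝ)) (p := f)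
    (fun _ _ => by positivity) (by rw [Finset.sum_const, nsmul_eq_mul]; field_simp) (fun _ _ => mem_univ _)
  refine this.trans ?_
  rw [← Finset.smul_sum, smul_eq_mul]


lemma measurable_F (δ b : ℝ) {α : Type*} [Fintype α] (y : α → ℂ) :
    Measurable (fun z => ENNReal.ofReal (Real.exp (b * ∑ j, fd δ z (y j)))) := by
  have : ∀ j, Measurable (fun z => fd δ z (y j)) := fun j =>
    (measurable_fd δ).comp (measurable_id.prodMk measurable_const)
  fun_prop

lemma local_bound {δ : ℝ} (hδ : 0 < δ) {α : Type*} [Fintype α] (y : α → ℂ) (b m : ℝ)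
    (hb : 0 ≤ b) (hbm : b * m ≤ 1) (w z₀ : ℂ) (hz₀ : z₀ ∈ ball w δ)
    (hc : ((Finset.univ.filter fun j => ‖y j - z₀‖ < 3 * δ).card : ℝ) ≤ m) :
    ∫⁻ z in ball w δ, ENNReal.ofReal (Real.exp (b * ∑ j, fd δ z (y j))) ≤
      ENNReal.ofReal (3 * Real.pi * δ ^ 2) := by
  classical
  set J : Finset α := Finset.univ.filter fun j => ‖y j - w‖ < 2 * δ with hJ
  rw [mem_ball, dist_eq_norm] at hz₀
  have hJc : (J.card : ℝ) ≤ m := by
    refine le_trans ?_ hc
    exact_mod_cast Finset.card_le_card fun j hj => by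
      simp only [hJ, Finset.mem_filter, Finset.mem_univ, true_and] at hj ⊢
      calc ‖y j - z₀‖ = ‖(y j - w) - (z₀ - w)‖ := by congr 1; ring
        _ ≤ ‖y j - w‖ + ‖z₀ - w‖ := norm_sub_le _ _
        _ < 3 * δ := by linarith
  have hsum : ∀ z ∈ ball w δ, ∑ j, fd δ z (y j) = ∑ j ∈ J, fd δ z (y j) := by
    intro z hz
    rw [mem_ball, dist_eq_norm] at hz
    symm
    apply Finset.sum_subset (Finset.subset_univ _)
    intro j _ hj
    simp only [hJ, Finset.mem_filter, Finset.mem_univ, true_and, not_lt] at hj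
    apply fd_eq_zero hδ
    have : ‖y j - w‖ ≤ ‖z - y j‖ + ‖z - w‖ := by
      calc ‖y j - w‖ = ‖(z - w) - (z - y j)‖ := by congr 1; ring
        _ ≤ ‖z - w‖ + ‖z - y j‖ := norm_sub_le _ _
        _ = _ := by ring
    linarith
  rcases J.eq_empty_or_nonempty with hE | hN
  · calc ∫⁻ z in ball w δ, ENNReal.ofReal (Real.exp (b * ∑ j, fd δ z (y j)))
        = ∫⁻ _ in ball w δ, (1 : ℝ≥0∞) := by
          apply setLIntegral_congr_fun measurableSet_ball
          intro z hz
          simp only
          rw [hsum z hz, hE]; simp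
      _ ≤ _ := by
          rw [setLIntegral_const, one_mul, vol_ball_le w hδ]
          apply ENNReal.ofReal_le_ofReal
          have := Real.pi_pos
          nlinarith [sq_nonneg δ]
  · have hcp : (0:ℝ) < J.card := by exact_mod_cast hN.card_pos
    have hb' : b * J.card ≤ 1 := (mul_le_mul_of_nonneg_left hJc hb).trans hbm
    calc ∫⁻ z in ball w δ, ENNReal.ofReal (Real.exp (b * ∑ j, fd δ z (y j)))
        ≤ ∫⁻ z in ball w δ, ∑ j ∈ J, ENNReal.ofReal (1 / (J.card : ℝ)) * ENNReal.ofReal (Real.exp (fd δ z (y j))) := by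
          apply setLIntegral_mono'  measurableSet_ball
          intro z hz
          rw [hsum z hz, ← Finset.mul_sum, ← ENNReal.ofReal_sum_of_nonneg (fun _ _ => (Real.exp_pos _).le),
            ← ENNReal.ofReal_mul (by positivity)]
          apply ENNReal.ofReal_le_ofReal
          exact exp_sum_le J hN b _ (fun j => fd_nonneg _ _ _) hb'
      _ = ∑ j ∈ J, ENNReal.ofReal (1 / (J.card : ℝ)) * ∫⁻ z in ball w δ, ENNReal.ofReal (Real.exp (fd δ z (y j))) := by
          have hme : ∀ j, Measurable (fun z => ENNReal.ofReal (Real.exp (fd δ z (y j)))) := fun j => by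
            have : Measurable (fun z => fd δ z (y j)) := 
              (measurable_fd δ).comp (measurable_id.prodMk measurable_const)
            fun_prop
          rw [lintegral_finsetSum]
          · apply Finset.sum_congr rfl
            intro j _
            rw [lintegral_const_mul _ (hme j)]
          · intro j _
            exact (hme j).const_mul _
      _ ≤ ∑ j ∈ J, ENNReal.ofReal (1 / (J.card : ℝ)) * ENNReal.ofReal (3 * Real.pi * δ ^ 2) := by
          gcongr with j _
          exact lint_T w (y j) hδ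
      _ = ENNReal.ofReal (3 * Real.pi * δ ^ 2) := by
          rw [Finset.sum_const, nsmul_eq_mul, ← ENNReal.ofReal_natCast, ← mul_assoc,
            ← ENNReal.ofReal_mul (by positivity), mul_one_div_cancel hcp.ne', ENNReal.ofReal_one, one_mul]

lemma one_point (D : ℝ) (hD : 1 ≤ D) {δ : ℝ} (hδ : 0 < δ) (hδ1 : δ < 1) {α : Type*} [Fintype α]
    (y : α → ℂ) (Λ : Set ℂ) (hm : MeasurableSet Λ) (hΛ : Λ ⊆ closedBall 0 D)
    (b m : ℝ) (hb : 0 ≤ b) (hbm : b * m ≤ 1) :
    ∫⁻ z in {z | z ∈ Λ ∧ ((Finset.univ.filter fun j => ‖y j - z‖ < 3 * δ).card : ℝ) ≤ m},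
      ENNReal.ofReal (Real.exp (b * ∑ j, fd δ z (y j))) ≤
      ENNReal.ofReal (3 * Real.pi * (D + 1) ^ 2) := by
  classical
  set S : Set ℂ := {z | z ∈ Λ ∧ ((Finset.univ.filter fun j => ‖y j - z‖ < 3 * δ).card : ℝ) ≤ m} with hS
  have hSm : MeasurableSet S := by
    have : Measurable (fun z => ((Finset.univ.filter fun j => ‖y j - z‖ < 3 * δ).card : ℝ)) := by
      have : (fun z => ((Finset.univ.filter fun j => ‖y j - z‖ < 3 * δ).card : ℝ)) =
          fun z => ∑ j, (ball (y j) (3 * δ)).indicator (fun _ => (1:ℝ)) z := by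
        funext z
        rw [Finset.card_filter]
        push_cast
        apply Finset.sum_congr rfl
        intro j _
        rw [indicator_apply, mem_ball, dist_eq_norm, norm_sub_rev]
      rw [this]
      exact Finset.measurable_sum _ fun j _ => measurable_const.indicator measurableSet_ball
    exact hm.inter (measurableSet_le this measurable_const)
  set F : ℂ → ℝ≥0∞ := fun z => ENNReal.ofReal (Real.exp (b * ∑ j, fd δ z (y j))) with hF
  have hFm : Measurable F := measurable_F δ b y
  have key : ∀ w, ∫⁻ z in ball w δ, S.indicator F z ≤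
      (ball (0:ℂ) (D + 1)).indicator (fun _ => ENNReal.ofReal (3 * Real.pi * δ ^ 2)) w := by
    intro w
    by_cases h : (S ∩ ball w δ).Nonempty
    · obtain ⟨z₀, hz₀, hz₀w⟩ := h
      have hw : w ∈ ball (0:ℂ) (D + 1) := by
        have h1 := hΛ hz₀.1
        rw [mem_closedBall, dist_zero_right] at h1
        rw [mem_ball, dist_comm, dist_eq_norm] at hz₀w
        rw [mem_ball, dist_zero_right]
        calc ‖w‖ = ‖(w - z₀) + z₀‖ := by congr 1; ring
          _ ≤ ‖w - z₀‖ + ‖z₀‖ := norm_add_le _ _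
          _ < _ := by linarith
      rw [indicator_of_mem hw]
      refine le_trans (lintegral_mono fun z => ?_) (local_bound hδ y b m hb hbm w z₀ hz₀w hz₀.2)
      exact indicator_le_self _ _ _
    · rw [not_nonempty_iff_eq_empty] at h
      have : ∫⁻ z in ball w δ, S.indicator F z = 0 := by
        rw [setLIntegral_congr_fun (g := fun _ => 0) measurableSet_ball, lintegral_zero]
        intro z hz
        simp only
        rw [indicator_of_notMem]
        intro hzS
        have : z ∈ S ∩ ball w δ := ⟨hzS, hz⟩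
        rw [h] at this
        exact this
      rw [this]; exact zero_le
  have swap : (∫⁻ z in S, F z) * ENNReal.ofReal (Real.pi * δ ^ 2) =
      ∫⁻ w, ∫⁻ z in ball w δ, S.indicator F z := by
    rw [← lintegral_indicator hSm, ← lintegral_mul_const _ (hFm.indicator hSm)]
    calc ∫⁻ z, S.indicator F z * ENNReal.ofReal (Real.pi * δ ^ 2)
        = ∫⁻ z, ∫⁻ w, S.indicator F z * {p : ℂ × ℂ | dist p.1 p.2 < δ}.indicator (fun _ => 1) (z, w) := by
          refine lintegral_congr fun z => ?_
          rw [lintegral_const_mul]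
          · congr 1
            have : (fun w => {p : ℂ × ℂ | dist p.1 p.2 < δ}.indicator (fun _ => (1:ℝ≥0∞)) (z, w)) =
                (ball z δ).indicator (fun _ => 1) := by
              funext w
              simp only [indicator, mem_ball, mem_ofPred_eq, dist_comm]
            rw [this, lintegral_indicator measurableSet_ball, setLIntegral_const, one_mul,
              vol_ball_le z hδ]
          · exact (measurable_const.indicator (measurableSet_lt (by fun_prop) measurable_const)).comp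
              (measurable_const.prodMk measurable_id)
      _ = ∫⁻ w, ∫⁻ z, S.indicator F z * {p : ℂ × ℂ | dist p.1 p.2 < δ}.indicator (fun _ => 1) (z, w) := by
          apply lintegral_lintegral_swap
          apply Measurable.aemeasurable
          apply Measurable.mul
          · exact (hFm.indicator hSm).comp measurable_fst
          · exact measurable_const.indicator (measurableSet_lt (by fun_prop) measurable_const)
      _ = ∫⁻ w, ∫⁻ z in ball w δ, S.indicator F z := by
          refine lintegral_congr fun w => ?_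
          rw [← lintegral_indicator measurableSet_ball]
          refine lintegral_congr fun z => ?_
          by_cases h : dist z w < δ
          · rw [indicator_of_mem (show (z, w) ∈ {p : ℂ × ℂ | dist p.1 p.2 < δ} from h),
              indicator_of_mem (show z ∈ ball w δ from h), mul_one]
          · rw [indicator_of_notMem (show (z, w) ∉ {p : ℂ × ℂ | dist p.1 p.2 < δ} from h),
              indicator_of_notMem (show z ∉ ball w δ from h), mul_zero]
  have hfin : (∫⁻ z in S, F z) * ENNReal.ofReal (Real.pi * δ ^ 2) ≤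
      ENNReal.ofReal (3 * Real.pi * (D + 1) ^ 2) * ENNReal.ofReal (Real.pi * δ ^ 2) := by
    rw [swap]
    refine (lintegral_mono key).trans ?_
    rw [lintegral_indicator measurableSet_ball, setLIntegral_const, vol_ball_le _ (by linarith),
      ← ENNReal.ofReal_mul (by positivity), ← ENNReal.ofReal_mul (by positivity)]
    apply le_of_eq; congr 1; ring
  have hp : 0 < Real.pi * δ ^ 2 := by positivity
  exact (ENNReal.mul_le_mul_iff_left (ENNReal.ofReal_pos.2 hp).ne' ENNReal.ofReal_ne_top).1 hfin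


/-- the good set -/
def Ag (δ m : ℝ) (ι : Type) [Fintype ι] : Set (ι → ℂ) :=
  {x | ∀ i, ((Finset.univ.filter fun j => ‖x j - x i‖ < 3 * δ).card : ℝ) ≤ m}

lemma measurable_count {X : Type*} [MeasurableSpace X] {α : Type*} [Fintype α] (δ : ℝ)
    (u : α → X → ℂ) (v : X → ℂ) (hu : ∀ j, Measurable (u j)) (hv : Measurable v) :
    Measurable (fun x => ((Finset.univ.filter fun j => ‖u j x - v x‖ < 3 * δ).card : ℝ)) := by
  have : (fun x => ((Finset.univ.filter fun j => ‖u j x - v x‖ < 3 * δ).card : ℝ)) =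
      fun x => ∑ j, {x | ‖u j x - v x‖ < 3 * δ}.indicator (fun _ => (1:ℝ)) x := by
    funext z
    rw [Finset.card_filter]
    push_cast
    apply Finset.sum_congr rfl
    intro j _
    simp only [indicator, mem_ofPred_eq]
  rw [this]
  refine Finset.measurable_sum _ fun j _ => measurable_const.indicator ?_
  exact measurableSet_lt ((hu j).sub hv).norm measurable_const

lemma measurableSet_Ag (δ m : ℝ) (ι : Type) [Fintype ι] : MeasurableSet (Ag δ m ι) := by
  have : Ag δ m ι = ⋂ i, {x | ((Finset.univ.filter fun j => ‖x j - x i‖ < 3 * δ).card : ℝ) ≤ m} := by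
    ext x; simp only [Ag, mem_iInter, mem_ofPred_eq]
  rw [this]
  have hmi : ∀ j, Measurable (fun x : ι → ℂ => x j) := fun j => measurable_pi_apply j
  refine MeasurableSet.iInter fun i => ?_
  have := measurable_count δ (fun j (x : ι → ℂ) => x j) (fun x => x i) hmi (hmi i)
  exact measurableSet_le this measurable_const

lemma measurableSet_cf {Λ : Set ℂ} (hm : MeasurableSet Λ) (ι : Type) [Fintype ι] :
    MeasurableSet (cf Λ ι) := by
  have : cf Λ ι = Set.univ.pi fun _ => Λ := by ext x; simp [cf]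
  rw [this]
  exact MeasurableSet.univ_pi fun _ => hm

lemma measurable_sum2 (δ b : ℝ) (ι : Type) [Fintype ι] :
    Measurable (fun x : ι → ℂ => ENNReal.ofReal (Real.exp (b * ∑ i, ∑ j, fd δ (x i) (x j)))) := by
  have hmi : ∀ j, Measurable (fun x : ι → ℂ => x j) := fun j => measurable_pi_apply j
  have h2 : ∀ i j, Measurable (fun x : ι → ℂ => fd δ (x i) (x j)) := fun i j =>
    (measurable_fd δ).comp ((hmi i).prodMk (hmi j))
  have h3 : Measurable (fun x : ι → ℂ => ∑ i, ∑ j, fd δ (x i) (x j)) :=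
    Finset.measurable_sum _ fun i _ => Finset.measurable_sum _ fun j _ => h2 i j
  exact (Real.measurable_exp.comp (h3.const_mul b)).ennreal_ofReal

lemma multi (D : ℝ) (hD : 1 ≤ D) {δ : ℝ} (hδ : 0 < δ) (hδ1 : δ < 1)
    (Λ : Set ℂ) (hm : MeasurableSet Λ) (hΛ : Λ ⊆ closedBall 0 D)
    (b m : ℝ) (hb : 0 ≤ b) (hbm : b * m ≤ 1) (n : ℕ) :
    ∫⁻ x in cf Λ (Fin n) ∩ Ag δ m (Fin n),
      ENNReal.ofReal (Real.exp (b / 2 * ∑ i, ∑ j, fd δ (x i) (x j))) ≤
      ENNReal.ofReal (3 * Real.pi * (D + 1) ^ 2) ^ n := by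
  induction n with
  | zero =>
    simp only [Finset.univ_eq_empty, Finset.sum_empty, mul_zero, Real.exp_zero, ENNReal.ofReal_one,
      pow_zero]
    rw [setLIntegral_const, one_mul]
    refine (measure_mono (subset_univ _)).trans ?_
    rw [volume_pi, Measure.pi_univ]; simp
  | succ n ih =>
    set f : (Fin (n+1) → ℂ) → ℝ≥0∞ := fun x => ENNReal.ofReal (Real.exp (b / 2 * ∑ i, ∑ j, fd δ (x i) (x j))) with hf
    set f' : (Fin n → ℂ) → ℝ≥0∞ := fun x => ENNReal.ofReal (Real.exp (b / 2 * ∑ i, ∑ j, fd δ (x i) (x j))) with hf'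
    set Fp : ℂ × (Fin n → ℂ) → ℝ≥0∞ := fun p =>
      ({p : ℂ × (Fin n → ℂ) | p.1 ∈ Λ ∧
        ((Finset.univ.filter fun j => ‖p.2 j - p.1‖ < 3 * δ).card : ℝ) ≤ m}.indicator
      (fun p => ENNReal.ofReal (Real.exp (b * ∑ j, fd δ p.1 (p.2 j)))) p) *
      (cf Λ (Fin n) ∩ Ag δ m (Fin n)).indicator f' p.2 with hFp
    have hf'm : Measurable f' := measurable_sum2 δ (b/2) (Fin n)
    have hTm : MeasurableSet (cf Λ (Fin n) ∩ Ag δ m (Fin n)) :=
      (measurableSet_cf hm _).inter (measurableSet_Ag _ _ _)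
    have hSm : MeasurableSet {p : ℂ × (Fin n → ℂ) | p.1 ∈ Λ ∧
        ((Finset.univ.filter fun j => ‖p.2 j - p.1‖ < 3 * δ).card : ℝ) ≤ m} := by
      have hmc := measurable_count δ (fun j (p : ℂ × (Fin n → ℂ)) => p.2 j) (fun p => p.1)
        (fun j => (measurable_pi_apply j).comp measurable_snd) measurable_fst
      exact (measurable_fst hm).inter (measurableSet_le hmc measurable_const)
    have hFpm : Measurable Fp := by
      refine Measurable.mul (Measurable.indicator ?_ hSm) ((hf'm.indicator hTm).comp measurable_snd)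
      have : ∀ j, Measurable (fun p : ℂ × (Fin n → ℂ) => fd δ p.1 (p.2 j)) := fun j =>
        (measurable_fd δ).comp (measurable_fst.prodMk ((measurable_pi_apply j).comp measurable_snd))
      exact (Real.measurable_exp.comp ((Finset.measurable_sum _ fun j _ => this j).const_mul b)).ennreal_ofReal
    rw [← lintegral_indicator ((measurableSet_cf hm _).inter (measurableSet_Ag _ _ _)),
      ← ((volume_preserving_piFinSuccAbove (fun _ : Fin (n+1) => ℂ) 0).symm _).lintegral_comp_emb
        (MeasurableEquiv.measurableEmbedding _)]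
    have hle : ∀ p : ℂ × (Fin n → ℂ), (cf Λ (Fin (n+1)) ∩ Ag δ m (Fin (n+1))).indicator f
        ((MeasurableEquiv.piFinSuccAbove (fun _ : Fin (n+1) => ℂ) 0).symm p) ≤ Fp p := by
      rintro ⟨z, y⟩
      by_cases h : (MeasurableEquiv.piFinSuccAbove (fun _ : Fin (n+1) => ℂ) 0).symm (z, y) ∈
          cf Λ (Fin (n+1)) ∩ Ag δ m (Fin (n+1))
      · have h0 : (MeasurableEquiv.piFinSuccAbove (fun _ : Fin (n+1) => ℂ) 0).symm (z, y) =
          (Fin.cons z y : Fin (n+1) → ℂ) := by
            simp [MeasurableEquiv.piFinSuccAbove, Fin.insertNthEquiv]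
        rw [indicator_of_mem h]
        rw [h0] at h ⊢
        obtain ⟨h1, h2⟩ := h
        have hy : y ∈ cf Λ (Fin n) ∩ Ag δ m (Fin n) := by
          refine ⟨fun i => by simpa using h1 i.succ, fun i => ?_⟩
          refine le_trans ?_ (h2 i.succ)
          have : (Finset.univ.filter fun j => ‖y j - y i‖ < 3 * δ).map (Fin.succEmb n) ⊆
            (Finset.univ.filter fun j => ‖(Fin.cons z y : Fin (n+1) → ℂ) j - (Fin.cons z y : Fin (n+1) → ℂ) i.succ‖ < 3 * δ) := by
            intro j hj
            rw [Finset.mem_map] at hj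
            obtain ⟨k, hk, rfl⟩ := hj
            simpa using hk
          have := Finset.card_le_card this
          rw [Finset.card_map] at this
          exact_mod_cast this
        have hz : (z, y) ∈ {p : ℂ × (Fin n → ℂ) | p.1 ∈ Λ ∧
            ((Finset.univ.filter fun j => ‖p.2 j - p.1‖ < 3 * δ).card : ℝ) ≤ m} := by
          refine ⟨by simpa using h1 0, ?_⟩
          refine le_trans ?_ (h2 0)
          have : (Finset.univ.filter fun j => ‖y j - z‖ < 3 * δ).map (Fin.succEmb n) ⊆
            (Finset.univ.filter fun j => ‖(Fin.cons z y : Fin (n+1) → ℂ) j - (Fin.cons z y : Fin (n+1) → ℂ) 0‖ < 3 * δ) := by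
            intro j hj
            rw [Finset.mem_map] at hj
            obtain ⟨k, hk, rfl⟩ := hj
            simpa using hk
          have := Finset.card_le_card this
          rw [Finset.card_map] at this
          exact_mod_cast this
        simp only [hFp]
        rw [indicator_of_mem hz, indicator_of_mem hy, hf, hf', ← ENNReal.ofReal_mul (Real.exp_pos _).le,
          ← Real.exp_add]
        apply le_of_eq
        simp only [Fin.sum_univ_succ, Fin.cons_zero, Fin.cons_succ, fd_self, Finset.sum_add_distrib]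
        have : ∑ j, fd δ (y j) z = ∑ j, fd δ z (y j) := Finset.sum_congr rfl fun j _ => fd_symm _ _ _
        rw [this]
        ring_nf
      · rw [indicator_of_notMem h]; exact zero_le
    calc ∫⁻ p : ℂ × (Fin n → ℂ), (cf Λ (Fin (n+1)) ∩ Ag δ m (Fin (n+1))).indicator f
            ((MeasurableEquiv.piFinSuccAbove (fun _ : Fin (n+1) => ℂ) 0).symm p)
        ≤ ∫⁻ p : ℂ × (Fin n → ℂ), Fp p := lintegral_mono hle
      _ = ∫⁻ y : Fin n → ℂ, ∫⁻ z : ℂ, Fp (z, y) := lintegral_prod_symm' _ hFpm
      _ ≤ ∫⁻ y : Fin n → ℂ, ENNReal.ofReal (3 * Real.pi * (D + 1) ^ 2) *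
            (cf Λ (Fin n) ∩ Ag δ m (Fin n)).indicator f' y := by
          refine lintegral_mono fun y => ?_
          simp only [hFp]
          have hmF := measurable_F δ b y
          have hSy : MeasurableSet {z : ℂ | z ∈ Λ ∧
              ((Finset.univ.filter fun j => ‖y j - z‖ < 3 * δ).card : ℝ) ≤ m} := by
            have hmc := measurable_count δ (fun j (z : ℂ) => y j) (fun z => z)
              (fun j => measurable_const) measurable_id
            exact hm.inter (measurableSet_le hmc measurable_const)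
          have heq : (fun z : ℂ => ({p : ℂ × (Fin n → ℂ) | p.1 ∈ Λ ∧
              ((Finset.univ.filter fun j => ‖p.2 j - p.1‖ < 3 * δ).card : ℝ) ≤ m}.indicator
              (fun p => ENNReal.ofReal (Real.exp (b * ∑ j, fd δ p.1 (p.2 j)))) (z, y))) =
              {z : ℂ | z ∈ Λ ∧ ((Finset.univ.filter fun j => ‖y j - z‖ < 3 * δ).card : ℝ) ≤ m}.indicator
              (fun z => ENNReal.ofReal (Real.exp (b * ∑ j, fd δ z (y j)))) := by
            funext z
            simp only [indicator, mem_ofPred_eq]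
          rw [lintegral_mul_const]
          · gcongr
            rw [heq, lintegral_indicator hSy]
            exact one_point D hD hδ hδ1 y Λ hm hΛ b m hb hbm
          · rw [heq]; exact hmF.indicator hSy
      _ ≤ ENNReal.ofReal (3 * Real.pi * (D + 1) ^ 2) ^ (n + 1) := by
          rw [lintegral_const_mul _ (hf'm.indicator hTm), lintegral_indicator hTm,
            pow_succ' (ENNReal.ofReal (3 * Real.pi * (D + 1) ^ 2)) n]
          exact mul_le_mul' le_rfl ih


lemma compl_bound (D : ℝ) (hD : 1 ≤ D) {δ : ℝ} (hδ : 0 < δ) (T : ℝ) (hT : 16 * Real.pi * δ ^ 2 ≤ Real.exp (-(2 * T)))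
    (hT0 : 0 ≤ T)
    (Λ : Set ℂ) (hΛ : Λ ⊆ closedBall 0 D) (t : Finset ℂ)
    (ht : closedBall (0:ℂ) D ⊆ ⋃ x ∈ t, ball x δ) (m : ℝ) (ι : Type) [Fintype ι] :
    volume (cf Λ ι \ Ag δ m ι) ≤ ENNReal.ofReal (t.card * (2 ^ Fintype.card ι *
      (Real.exp (-(2 * T * m)) * (Real.pi * D ^ 2) ^ Fintype.card ι))) := by
  classical
  have hpi := Real.pi_pos
  have hpi3 := Real.pi_gt_three
  have hV1 : 1 ≤ Real.pi * D ^ 2 := by nlinarith
  have hsub : cf Λ ι \ Ag δ m ι ⊆ ⋃ w ∈ t, ⋃ S ∈ (Finset.univ : Finset (Finset ι)).filter (fun S => m < S.card),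
      Set.univ.pi (fun j => if j ∈ S then ball w (4 * δ) else Λ) := by
    rintro x ⟨hx, hxA⟩
    simp only [Ag, mem_ofPred_eq, not_forall, not_le] at hxA
    obtain ⟨i, hi⟩ := hxA
    obtain ⟨w, hw⟩ := mem_iUnion.1 (ht (hΛ (hx i)))
    obtain ⟨hwt, hw⟩ := mem_iUnion.1 hw
    refine mem_iUnion₂.2 ⟨w, hwt, mem_iUnion₂.2 ⟨Finset.univ.filter fun j => ‖x j - x i‖ < 3 * δ, ?_, ?_⟩⟩
    · simp only [Finset.mem_filter, Finset.mem_univ, true_and]
      exact hi
    · intro j _
      simp only [Finset.mem_filter, Finset.mem_univ, true_and]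
      split_ifs with h
      · rw [mem_ball, dist_eq_norm] at hw ⊢
        calc ‖x j - w‖ = ‖(x j - x i) + (x i - w)‖ := by congr 1; ring
          _ ≤ ‖x j - x i‖ + ‖x i - w‖ := norm_add_le _ _
          _ < 4 * δ := by linarith
      · exact hx j
  have hone : ∀ w ∈ t, ∀ S ∈ (Finset.univ : Finset (Finset ι)).filter (fun S => m < S.card),
      volume (Set.univ.pi (fun j => if j ∈ S then ball w (4 * δ) else Λ)) ≤
      ENNReal.ofReal (Real.exp (-(2 * T * m)) * (Real.pi * D ^ 2) ^ Fintype.card ι) := by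
    intro w _ S hS
    simp only [Finset.mem_filter, Finset.mem_univ, true_and] at hS
    rw [volume_pi_pi]
    calc ∏ j, volume (if j ∈ S then ball w (4 * δ) else Λ)
        ≤ ∏ j, ENNReal.ofReal ((if j ∈ S then Real.exp (-(2 * T)) else 1) * (Real.pi * D ^ 2)) := by
          apply Finset.prod_le_prod'
          intro j _
          split_ifs with h
          · rw [vol_ball_le w (by positivity)]
            apply ENNReal.ofReal_le_ofReal
            calc Real.pi * (4 * δ) ^ 2 = 16 * Real.pi * δ ^ 2 := by ring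
              _ ≤ Real.exp (-(2 * T)) := hT
              _ ≤ Real.exp (-(2 * T)) * (Real.pi * D ^ 2) := le_mul_of_one_le_right (Real.exp_pos _).le hV1
          · rw [one_mul]
            refine (measure_mono hΛ).trans ?_
            rw [Complex.volume_closedBall, ← Complex.volume_ball 0 D, vol_ball_le _ (by linarith)]
      _ = ENNReal.ofReal (∏ j, ((if j ∈ S then Real.exp (-(2 * T)) else 1) * (Real.pi * D ^ 2))) := by
          rw [ENNReal.ofReal_prod_of_nonneg]
          intro j _
          split_ifs <;> positivity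
      _ ≤ _ := by
          apply ENNReal.ofReal_le_ofReal
          rw [Finset.prod_mul_distrib, Finset.prod_const, Finset.card_univ]
          gcongr
          rw [Finset.prod_ite_mem, Finset.univ_inter, Finset.prod_const, ← Real.exp_nat_mul]
          apply Real.exp_le_exp.2
          nlinarith
  calc volume (cf Λ ι \ Ag δ m ι)
      ≤ volume (⋃ w ∈ t, ⋃ S ∈ (Finset.univ : Finset (Finset ι)).filter (fun S => m < S.card),
          Set.univ.pi (fun j => if j ∈ S then ball w (4 * δ) else Λ)) := measure_mono hsub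
    _ ≤ ∑ w ∈ t, ∑ S ∈ (Finset.univ : Finset (Finset ι)).filter (fun S => m < S.card),
          volume (Set.univ.pi (fun j => if j ∈ S then ball w (4 * δ) else Λ)) :=
        (measure_biUnion_finset_le _ _).trans (Finset.sum_le_sum fun w _ => measure_biUnion_finset_le _ _)
    _ ≤ ∑ w ∈ t, ∑ S ∈ (Finset.univ : Finset (Finset ι)).filter (fun S => m < S.card),
          ENNReal.ofReal (Real.exp (-(2 * T * m)) * (Real.pi * D ^ 2) ^ Fintype.card ι) :=
        Finset.sum_le_sum fun w hw => Finset.sum_le_sum fun S hS => hone w hw S hS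
    _ ≤ ∑ w ∈ t, ∑ S : Finset ι,
          ENNReal.ofReal (Real.exp (-(2 * T * m)) * (Real.pi * D ^ 2) ^ Fintype.card ι) :=
        Finset.sum_le_sum fun w hw => Finset.sum_le_sum_of_subset (Finset.filter_subset _ _)
    _ = _ := by
        have h2 : ENNReal.ofReal ((2:ℝ) ^ Fintype.card ι) = 2 ^ Fintype.card ι := by
          rw [ENNReal.ofReal_pow (by norm_num)]; norm_num
        rw [Finset.sum_const, Finset.sum_const, nsmul_eq_mul, nsmul_eq_mul, Finset.card_univ,
          Fintype.card_finset, ENNReal.ofReal_mul (p := (t.card : ℝ)) (by positivity),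
          ENNReal.ofReal_mul (p := (2:ℝ) ^ Fintype.card ι) (by positivity),
          ENNReal.ofReal_natCast, h2]
        push_cast
        rfl

/-- the statement for `Fin N` -/
lemma main_fin : ∀ D : ℝ, 1 ≤ D → ∀ η : ℝ, 0 < η → ∀ A : ℝ, 0 < A →
  ∃ δ : ℝ, 0 < δ ∧ δ < 1 ∧ ∃ N₀ : ℕ, ∀ N : ℕ, N₀ ≤ N →
    ∀ Λ : Set ℂ, MeasurableSet Λ → Λ ⊆ closedBall 0 D →
      volume {x : Fin N → ℂ | x ∈ cf Λ (Fin N) ∧
        η * (N : ℝ) ^ 2 < ∑ i, ∑ j, fd δ (x i) (x j)} ≤
      ENNReal.ofReal (Real.exp (-(A * N))) := by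
  intro D hD η hη A hA
  have hpi := Real.pi_pos
  have hpi3 := Real.pi_gt_three
  have hV1 : 1 ≤ Real.pi * D ^ 2 := by nlinarith
  set C : ℝ := 3 * Real.pi * (D + 1) ^ 2 with hC
  have hC1 : 1 ≤ C := by nlinarith
  have hlC : 0 ≤ Real.log C := Real.log_nonneg hC1
  have hlV : 0 ≤ Real.log (Real.pi * D ^ 2) := Real.log_nonneg hV1
  have hl2 : 0 < Real.log 2 := Real.log_pos (by norm_num)
  set β : ℝ := (A + 1 + Real.log C) / η with hβ
  have hβ0 : 0 < β := by positivity
  set κ : ℝ := 1 / (2 * β) with hκ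
  have hκ0 : 0 < κ := by positivity
  set T : ℝ := (A + 2 + Real.log 2 + Real.log (Real.pi * D ^ 2)) / (2 * κ) with hT
  have hT0 : 0 < T := by positivity
  set δ : ℝ := Real.exp (-T) / 8 with hδ
  have hδ0 : 0 < δ := by positivity
  have he1 : Real.exp (-T) < 1 := by rw [Real.exp_lt_one_iff]; linarith
  have hδ1 : δ < 1 := by rw [hδ]; linarith
  have hTδ : 16 * Real.pi * δ ^ 2 ≤ Real.exp (-(2 * T)) := by
    have h1 : Real.exp (-(2 * T)) = Real.exp (-T) ^ 2 := by
      rw [← Real.exp_nat_mul]; congr 1; push_cast; ring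
    rw [h1, hδ]
    have := Real.pi_lt_four
    nlinarith [sq_nonneg (Real.exp (-T))]
  obtain ⟨t', _, ht'f, ht'⟩ := (isCompact_closedBall (0:ℂ) D).finite_cover_balls hδ0
  set t : Finset ℂ := ht'f.toFinset with htdef
  have ht : closedBall (0:ℂ) D ⊆ ⋃ x ∈ t, ball x δ := by
    intro x hx
    have := ht' hx
    simpa [htdef] using this
  refine ⟨δ, hδ0, hδ1, t.card + 1, ?_⟩
  intro N hN Λ hm hΛ
  have hN1 : (1:ℝ) ≤ N := by exact_mod_cast (Nat.le_add_left 1 _).trans hN
  have hNt : (t.card : ℝ) + 1 ≤ N := by exact_mod_cast hN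
  set b : ℝ := 2 * β / N with hb
  have hb0 : 0 < b := by positivity
  set m : ℝ := κ * N with hmdef
  have hbm : b * m ≤ 1 := by
    rw [hb, hmdef, hκ]; apply le_of_eq; field_simp
  have hpart1 : volume (cf Λ (Fin N) \ Ag δ m (Fin N)) ≤
      ENNReal.ofReal (t.card * Real.exp (-((A + 2) * N))) := by
    refine (compl_bound D hD hδ0 T hTδ hT0.le Λ hΛ t ht m (Fin N)).trans ?_
    apply ENNReal.ofReal_le_ofReal
    apply mul_le_mul_of_nonneg_left _ (by positivity)
    rw [Fintype.card_fin]
    have h2 : (2:ℝ) ^ N = Real.exp (N * Real.log 2) := by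
      rw [Real.exp_nat_mul, Real.exp_log (by norm_num)]
    have h3 : (Real.pi * D ^ 2) ^ N = Real.exp (N * Real.log (Real.pi * D ^ 2)) := by
      rw [Real.exp_nat_mul, Real.exp_log (by linarith)]
    rw [h2, h3, ← Real.exp_add, ← Real.exp_add]
    apply Real.exp_le_exp.2
    have h4 : 2 * T * m = (A + 2 + Real.log 2 + Real.log (Real.pi * D ^ 2)) * N := by
      rw [hT, hmdef]; field_simp
    rw [h4]
    apply le_of_eq; ring
  have hpart2 : volume {x | x ∈ cf Λ (Fin N) ∩ Ag δ m (Fin N) ∧
      η * (N : ℝ) ^ 2 < ∑ i, ∑ j, fd δ (x i) (x j)} ≤ ENNReal.ofReal (Real.exp (-((A + 1) * N))) := by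
    have hmul := multi D hD hδ0 hδ1 Λ hm hΛ b m hb0.le hbm N
    set f : (Fin N → ℂ) → ℝ≥0∞ := fun x => ENNReal.ofReal (Real.exp (b / 2 * ∑ i, ∑ j, fd δ (x i) (x j))) with hf
    have hfm : Measurable f := measurable_sum2 δ (b / 2) (Fin N)
    have hTm : MeasurableSet (cf Λ (Fin N) ∩ Ag δ m (Fin N)) :=
      (measurableSet_cf hm _).inter (measurableSet_Ag _ _ _)
    have hmk := mul_meas_ge_le_lintegral (μ := volume.restrict (cf Λ (Fin N) ∩ Ag δ m (Fin N))) hfm
      (ENNReal.ofReal (Real.exp (β * η * N)))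
    have hsub : {x | x ∈ cf Λ (Fin N) ∩ Ag δ m (Fin N) ∧
        η * (N : ℝ) ^ 2 < ∑ i, ∑ j, fd δ (x i) (x j)} ⊆
        {x | ENNReal.ofReal (Real.exp (β * η * N)) ≤ f x} ∩ (cf Λ (Fin N) ∩ Ag δ m (Fin N)) := by
      rintro x ⟨hx1, hx2⟩
      refine ⟨?_, hx1⟩
      rw [mem_ofPred_eq, hf]
      apply ENNReal.ofReal_le_ofReal
      apply Real.exp_le_exp.2
      calc β * η * N = b / 2 * (η * (N:ℝ) ^ 2) := by rw [hb]; field_simp
        _ ≤ _ := mul_le_mul_of_nonneg_left hx2.le (by positivity)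
    have h5 : ENNReal.ofReal (Real.exp (β * η * N)) * volume {x | x ∈ cf Λ (Fin N) ∩ Ag δ m (Fin N) ∧
        η * (N : ℝ) ^ 2 < ∑ i, ∑ j, fd δ (x i) (x j)} ≤ ENNReal.ofReal C ^ N := by
      refine le_trans (mul_le_mul' le_rfl ?_) (hmk.trans hmul)
      rw [Measure.restrict_apply (measurableSet_le measurable_const hfm)]
      exact measure_mono hsub
    have h6 : ENNReal.ofReal C ^ N = ENNReal.ofReal (Real.exp (β * η * N)) *
        ENNReal.ofReal (Real.exp (-((A + 1) * N))) := by
      rw [← ENNReal.ofReal_mul (Real.exp_pos _).le, ← Real.exp_add, ← ENNReal.ofReal_pow (by linarith)]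
      congr 1
      have : β * η = A + 1 + Real.log C := by rw [hβ]; field_simp
      rw [this]
      have h7 : C ^ N = Real.exp (N * Real.log C) := by
        rw [Real.exp_nat_mul, Real.exp_log (by linarith)]
      rw [h7]; congr 1; ring
    rw [h6] at h5
    exact (ENNReal.mul_le_mul_iff_right (ENNReal.ofReal_pos.2 (Real.exp_pos _)).ne' ENNReal.ofReal_ne_top).1 h5
  calc volume {x : Fin N → ℂ | x ∈ cf Λ (Fin N) ∧ η * (N : ℝ) ^ 2 < ∑ i, ∑ j, fd δ (x i) (x j)}
      ≤ volume ((cf Λ (Fin N) \ Ag δ m (Fin N)) ∪ {x | x ∈ cf Λ (Fin N) ∩ Ag δ m (Fin N) ∧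
          η * (N : ℝ) ^ 2 < ∑ i, ∑ j, fd δ (x i) (x j)}) := by
        apply measure_mono
        rintro x ⟨hx1, hx2⟩
        by_cases h : x ∈ Ag δ m (Fin N)
        · exact Or.inr ⟨⟨hx1, h⟩, hx2⟩
        · exact Or.inl ⟨hx1, h⟩
    _ ≤ ENNReal.ofReal (t.card * Real.exp (-((A + 2) * N))) + ENNReal.ofReal (Real.exp (-((A + 1) * N))) :=
        (measure_union_le _ _).trans (add_le_add hpart1 hpart2)
    _ ≤ ENNReal.ofReal (Real.exp (-(A * N))) := by
        rw [← ENNReal.ofReal_add (by positivity) (by positivity)]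
        apply ENNReal.ofReal_le_ofReal
        have e1 : Real.exp (-((A + 2) * N)) = Real.exp (-(A * N)) * Real.exp (-(2 * N)) := by
          rw [← Real.exp_add]; congr 1; ring
        have e2 : Real.exp (-((A + 1) * N)) = Real.exp (-(A * N)) * Real.exp (-N) := by
          rw [← Real.exp_add]; congr 1; ring
        rw [e1, e2]
        have e3 : Real.exp (-(2 * N : ℝ)) * (2 * t.card) ≤ 1 := by
          have : 2 * (t.card:ℝ) ≤ Real.exp (2 * N) := by
            have := Real.add_one_le_exp (2 * (N:ℝ))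
            linarith
          calc Real.exp (-(2 * N : ℝ)) * (2 * t.card) ≤ Real.exp (-(2 * N : ℝ)) * Real.exp (2 * N) := by gcongr
            _ = 1 := by rw [← Real.exp_add]; simp
        have e4 : Real.exp (-(N : ℝ)) * 2 ≤ 1 := by
          have : (2:ℝ) ≤ Real.exp N := by
            have := Real.add_one_le_exp (N:ℝ)
            linarith
          calc Real.exp (-(N : ℝ)) * 2 ≤ Real.exp (-(N : ℝ)) * Real.exp N := by gcongr
            _ = 1 := by rw [← Real.exp_add]; simp
        have e5 := Real.exp_pos (-(A * N))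
        nlinarith

end V1

theorem taskV1 : TaskV1 := by
  intro D hD η hη A hA
  obtain ⟨δ, h1, h2, N₀, h⟩ := V1.main_fin D hD η hη A hA
  refine ⟨δ, h1, h2, N₀, ?_⟩
  intro ι _ hN Λ hm hΛ
  have hmain := h (Fintype.card ι) hN Λ hm hΛ
  set e : ι ≃ Fin (Fintype.card ι) := Fintype.equivFin ι
  refine le_trans (le_of_eq ?_) hmain
  have hmp := volume_measurePreserving_piCongrLeft (fun _ : Fin (Fintype.card ι) => ℂ) e
  rw [← hmp.measure_preimage_equiv]
  congr 1
  ext x
  have hx : (MeasurableEquiv.piCongrLeft (fun _ : Fin (Fintype.card ι) => ℂ) e) x = fun i => x (e.symm i) := by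
    funext i
    obtain ⟨j, rfl⟩ := e.surjective i
    rw [Equiv.symm_apply_apply]
    exact Equiv.piCongrLeft_apply_apply (fun _ : Fin (Fintype.card ι) => ℂ) e x j
  rw [mem_preimage, hx]
  simp only [mem_ofPred_eq, cf]
  have hs : ∑ i, ∑ j, fd δ (x (e.symm i)) (x (e.symm j)) = ∑ i, ∑ j, fd δ (x i) (x j) := by
    rw [Equiv.sum_comp e.symm (fun i => ∑ j, fd δ (x i) (x (e.symm j)))]
    refine Finset.sum_congr rfl fun i _ => ?_
    exact Equiv.sum_comp e.symm (fun j => fd δ (x i) (x j))
  rw [hs]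
  constructor
  · rintro ⟨ha, hb⟩
    exact ⟨fun i => ha _, hb⟩
  · rintro ⟨ha, hb⟩
    exact ⟨fun i => by simpa using ha (e i), hb⟩

end Pool.Agent.H836_PV
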