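import Pool.Agent.H836_PV.Stmts

open MeasureTheory Filter Topology Set Metric

namespace Pool.Agent.H836_PV

section V2

variable {Λ : Set ℂ} {n : ℕ} {q : ℂ → Fin n}

/-- the volumes of the cells -/
noncomputable def V2v (Λ : Set ℂ) {n : ℕ} (q : ℂ → Fin n) (α : Fin n) : ℝ :=
  (volume (Λ ∩ q ⁻¹' {α})).toReal

/-- the step density of type `T` -/
noncomputable def V2rho (Λ : Set ℂ) (M : ℕ) {n : ℕ} (q : ℂ → Fin n) (T : Fin n → ℕ) (x : ℂ) : ℝ :=
  (T (q x) : ℝ) / M / V2v Λ q (q x)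

theorem V2v_nonneg (α : Fin n) : 0 ≤ V2v Λ q α := ENNReal.toReal_nonneg

/-- integrals of functions of the cell -/
theorem V2_int (hΛ : volume Λ ≠ ⊤) (hq : Measurable q) (h : Fin n → ℝ) :
    IntegrableOn (fun x => h (q x)) Λ ∧ ∫ x in Λ, h (q x) = ∑ α, V2v Λ q α * h α := by
  have : IsFiniteMeasure (volume.restrict Λ) := ⟨by simpa using hΛ.lt_top⟩
  have hm : AEMeasurable q (volume.restrict Λ) := hq.aemeasurable
  have hi : Integrable h (Measure.map q (volume.restrict Λ)) := Integrable.of_finite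
  refine ⟨hi.comp_measurable hq, ?_⟩
  rw [← integral_map hm hi.aestronglyMeasurable, integral_fintype hi]
  refine Finset.sum_congr rfl fun α _ => ?_
  rw [measureReal_def, Measure.map_apply hq (measurableSet_singleton α),
    Measure.restrict_apply (hq (measurableSet_singleton α)), inter_comm]
  rfl

/-- products over a word of type `T` -/
theorem V2_prod {M : ℕ} {T : Fin n → ℕ} {σ : Fin M → Fin n}
    (hσ : ∀ α, (Finset.univ.filter fun i => σ i = α).card = T α) {β : Type*} [CommMonoid β]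
    (g : Fin n → β) : ∏ i, g (σ i) = ∏ α, g α ^ T α := by
  rw [← Finset.prod_fiberwise_of_maps_to (s := Finset.univ) (t := Finset.univ) (g := σ)
    (fun i _ => Finset.mem_univ (σ i)) (fun i => g (σ i))]
  refine Finset.prod_congr rfl fun α _ => ?_
  rw [← hσ α, ← Finset.prod_const]
  refine Finset.prod_congr rfl fun i hi => ?_
  rw [(Finset.mem_filter.1 hi).2]

theorem V2_sum {M : ℕ} {T : Fin n → ℕ} {σ : Fin M → Fin n}
    (hσ : ∀ α, (Finset.univ.filter fun i => σ i = α).card = T α) : ∑ α, T α = M := by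
  have h := Finset.card_eq_sum_card_fiberwise (s := (Finset.univ : Finset (Fin M)))
    (t := Finset.univ) (f := σ) (fun i _ => Finset.mem_univ (σ i))
  rw [Finset.card_univ, Fintype.card_fin] at h
  rw [h]
  exact Finset.sum_congr rfl fun α _ => (hσ α).symm

theorem V2_dens {M : ℕ} (hM : 0 < M) (hΛm : MeasurableSet Λ) (hΛ : volume Λ ≠ ⊤)
    (hq : Measurable q) {T : Fin n → ℕ}
    (hT : ∀ α, 0 < T α → 0 < V2v Λ q α) (hsum : ∑ α, T α = M) :
    IsDens Λ (V2rho Λ M q T) ∧ (∀ α, mass Λ q (V2rho Λ M q T) α = (T α : ℝ) / M) ∧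
    Real.exp (-(M * ∫ x in Λ, V2rho Λ M q T x * Real.log (V2rho Λ M q T x))) *
      ∏ α, ((T α : ℝ) / M) ^ T α = ∏ α, V2v Λ q α ^ T α := by
  have hM' : (0 : ℝ) < M := by exact_mod_cast hM
  have hv : ∀ α, V2v Λ q α * ((T α : ℝ) / M / V2v Λ q α) = (T α : ℝ) / M := by
    intro α
    rcases Nat.eq_zero_or_pos (T α) with h | h
    · simp [h]
    · have := hT α h
      field_simp
  obtain ⟨i1, e1⟩ := V2_int hΛ hq (fun α => (T α : ℝ) / M / V2v Λ q α)
  obtain ⟨i2, e2⟩ := V2_int hΛ hq (fun α => (T α : ℝ) / M / V2v Λ q α *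
    Real.log ((T α : ℝ) / M / V2v Λ q α))
  refine ⟨⟨?_, i1, ?_, i2⟩, ?_, ?_⟩
  · intro x _
    unfold V2rho
    have := V2v_nonneg (Λ := Λ) (q := q) (q x)
    positivity
  · refine e1.trans ?_
    rw [Finset.sum_congr rfl fun α _ => hv α, ← Finset.sum_div, ← Nat.cast_sum, hsum]
    exact div_self hM'.ne'
  · intro α
    have hms : MeasurableSet (Λ ∩ q ⁻¹' {α}) := hΛm.inter (hq (measurableSet_singleton α))
    unfold mass
    rw [setIntegral_congr_fun (g := fun _ => (T α : ℝ) / M / V2v Λ q α) hms ?_, setIntegral_const,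
      smul_eq_mul]
    · exact hv α
    · intro x hx
      have : q x = α := hx.2
      simp only [V2rho, this]
  · have e3 : ∫ x in Λ, V2rho Λ M q T x * Real.log (V2rho Λ M q T x) =
        ∑ α, (T α : ℝ) / M * Real.log ((T α : ℝ) / M / V2v Λ q α) := by
      refine e2.trans (Finset.sum_congr rfl fun α _ => ?_)
      rw [← mul_assoc, hv α]
    rw [e3, Finset.mul_sum, ← Finset.sum_neg_distrib, Real.exp_sum, ← Finset.prod_mul_distrib]
    refine Finset.prod_congr rfl fun α _ => ?_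
    rcases Nat.eq_zero_or_pos (T α) with h | h
    · simp [h]
    · have hvp := hT α h
      have hTp : (0 : ℝ) < T α := by exact_mod_cast h
      have e4 : (M : ℝ) * ((T α : ℝ) / M * Real.log ((T α : ℝ) / M / V2v Λ q α)) =
          T α * Real.log ((T α : ℝ) / M / V2v Λ q α) := by
        field_simp
      have hy : 0 < (T α : ℝ) / M / V2v Λ q α := by positivity
      rw [e4, Real.exp_neg, Real.exp_nat_mul, Real.exp_log hy, ← inv_pow, ← mul_pow]
      congr 1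
      field_simp

theorem V2_count {M : ℕ} (hM : 0 < M) {T₁ T₂ : Fin n → ℕ} (h₁ : ∑ α, T₁ α = M)
    (h₂ : ∑ α, T₂ α = M) (S : Finset (Fin M ⊕ Fin M → Fin n))
    (hS : ∀ σ ∈ S, (∀ α, (Finset.univ.filter fun i => σ (Sum.inl i) = α).card = T₁ α) ∧
      ∀ α, (Finset.univ.filter fun i => σ (Sum.inr i) = α).card = T₂ α) :
    (S.card : ℝ) * ((∏ α, ((T₁ α : ℝ) / M) ^ T₁ α) * ∏ α, ((T₂ α : ℝ) / M) ^ T₂ α) ≤ 1 := by
  have hM' : (M : ℝ) ≠ 0 := by exact_mod_cast hM.ne'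
  let p : Fin M ⊕ Fin M → Fin n → ℝ :=
    Sum.elim (fun _ α => (T₁ α : ℝ) / M) (fun _ α => (T₂ α : ℝ) / M)
  have hp : ∀ i α, 0 ≤ p i α := by
    rintro (i | i) α
    · show 0 ≤ (T₁ α : ℝ) / M
      positivity
    · show 0 ≤ (T₂ α : ℝ) / M
      positivity
  have hp1 : ∀ i, ∑ α, p i α = 1 := by
    rintro (i | i)
    · show ∑ α, (T₁ α : ℝ) / M = 1
      rw [← Finset.sum_div, ← Nat.cast_sum, h₁, div_self hM']
    · show ∑ α, (T₂ α : ℝ) / M = 1
      rw [← Finset.sum_div, ← Nat.cast_sum, h₂, div_self hM']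
  have e1 : ∑ σ : Fin M ⊕ Fin M → Fin n, ∏ i, p i (σ i) = 1 := by
    have := Finset.prod_univ_sum (fun _ : Fin M ⊕ Fin M => (Finset.univ : Finset (Fin n))) p
    rw [Fintype.piFinset_univ] at this
    rw [← this]
    exact Finset.prod_eq_one fun i _ => hp1 i
  have e2 : ∀ σ ∈ S, ∏ i, p i (σ i) =
      (∏ α, ((T₁ α : ℝ) / M) ^ T₁ α) * ∏ α, ((T₂ α : ℝ) / M) ^ T₂ α := by
    intro σ hσ
    obtain ⟨a1, a2⟩ := hS σ hσ
    rw [Fintype.prod_sum_type]
    congr 1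
    · exact V2_prod (σ := fun i => σ (Sum.inl i)) a1 (fun α => (T₁ α : ℝ) / M)
    · exact V2_prod (σ := fun i => σ (Sum.inr i)) a2 (fun α => (T₂ α : ℝ) / M)
  calc (S.card : ℝ) * ((∏ α, ((T₁ α : ℝ) / M) ^ T₁ α) * ∏ α, ((T₂ α : ℝ) / M) ^ T₂ α)
      = ∑ σ ∈ S, ∏ i, p i (σ i) := by
        rw [Finset.sum_congr rfl e2, Finset.sum_const, nsmul_eq_mul]
    _ ≤ ∑ σ : Fin M ⊕ Fin M → Fin n, ∏ i, p i (σ i) :=
        Finset.sum_le_sum_of_subset_of_nonneg (Finset.subset_univ S)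
          fun σ _ _ => Finset.prod_nonneg fun i _ => hp i _
    _ = 1 := e1

theorem V2_cover (Λ : Set ℂ) (hΛ : volume Λ ≠ ⊤) {M n : ℕ} (hM : 0 < M) (q : ℂ → Fin n)
    (T₁ T₂ : Fin n → ℕ) :
    ∃ S : Finset (Fin M ⊕ Fin M → Fin n),
      (∀ σ ∈ S, (∀ α, (Finset.univ.filter fun i => σ (Sum.inl i) = α).card = T₁ α) ∧
        ∀ α, (Finset.univ.filter fun i => σ (Sum.inr i) = α).card = T₂ α) ∧
      volume {x : Conf M | x ∈ cf Λ _ ∧ emp q (x ∘ Sum.inl) = (fun α => (T₁ α : ℝ) / M) ∧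
        emp q (x ∘ Sum.inr) = (fun α => (T₂ α : ℝ) / M)} ≤
      ENNReal.ofReal (S.card * ((∏ α, V2v Λ q α ^ T₁ α) * ∏ α, V2v Λ q α ^ T₂ α)) := by
  classical
  have hM' : (M : ℝ) ≠ 0 := by exact_mod_cast hM.ne'
  let S : Finset (Fin M ⊕ Fin M → Fin n) := Finset.univ.filter fun σ =>
    (∀ α, (Finset.univ.filter fun i => σ (Sum.inl i) = α).card = T₁ α) ∧
      ∀ α, (Finset.univ.filter fun i => σ (Sum.inr i) = α).card = T₂ α
  have hS : ∀ σ ∈ S, (∀ α, (Finset.univ.filter fun i => σ (Sum.inl i) = α).card = T₁ α) ∧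
        ∀ α, (Finset.univ.filter fun i => σ (Sum.inr i) = α).card = T₂ α :=
    fun σ hσ => (Finset.mem_filter.1 hσ).2
  refine ⟨S, hS, ?_⟩
  have hsub : {x : Conf M | x ∈ cf Λ _ ∧ emp q (x ∘ Sum.inl) = (fun α => (T₁ α : ℝ) / M) ∧
      emp q (x ∘ Sum.inr) = (fun α => (T₂ α : ℝ) / M)} ⊆
      ⋃ σ ∈ S, Set.pi univ fun i => Λ ∩ q ⁻¹' {σ i} := by
    rintro x ⟨hx, h1, h2⟩
    refine mem_biUnion (x := fun i => q (x i)) ?_ fun i _ => ⟨hx i, rfl⟩
    refine Finset.mem_coe.2 (Finset.mem_filter.2 ⟨Finset.mem_univ _, fun α => ?_, fun α => ?_⟩)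
    · have h3 := congrFun h1 α
      simp only [emp, Function.comp_apply] at h3
      rw [div_left_inj' hM'] at h3
      exact_mod_cast h3
    · have h3 := congrFun h2 α
      simp only [emp, Function.comp_apply] at h3
      rw [div_left_inj' hM'] at h3
      exact_mod_cast h3
  have hterm : ∀ σ ∈ S, volume (Set.pi univ fun i : Fin M ⊕ Fin M => Λ ∩ q ⁻¹' {σ i}) =
      ENNReal.ofReal ((∏ α, V2v Λ q α ^ T₁ α) * ∏ α, V2v Λ q α ^ T₂ α) := by
    intro σ hσ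
    obtain ⟨a1, a2⟩ := hS σ hσ
    rw [volume_pi_pi]
    have e1 : ∀ i, volume (Λ ∩ q ⁻¹' {σ i}) = ENNReal.ofReal (V2v Λ q (σ i)) := fun i =>
      (ENNReal.ofReal_toReal (ne_top_of_le_ne_top hΛ (measure_mono inter_subset_left))).symm
    rw [Finset.prod_congr rfl fun i _ => e1 i,
      ← ENNReal.ofReal_prod_of_nonneg fun i _ => V2v_nonneg _, Fintype.prod_sum_type]
    congr 2
    · exact V2_prod (σ := fun i => σ (Sum.inl i)) a1 (V2v Λ q)
    · exact V2_prod (σ := fun i => σ (Sum.inr i)) a2 (V2v Λ q)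
  refine (measure_mono hsub).trans ((measure_biUnion_finset_le S _).trans ?_)
  rw [Finset.sum_congr rfl hterm, Finset.sum_const, nsmul_eq_mul,
    ENNReal.ofReal_mul (Nat.cast_nonneg _), ENNReal.ofReal_natCast]

end V2

theorem taskV2 : TaskV2 := by
  intro Λ hΛm _ hΛ M n hM q hq T₁ T₂
  obtain ⟨S, hS, hvol⟩ := V2_cover Λ hΛ hM q T₁ T₂
  by_cases h0 : volume {x : Conf M | x ∈ cf Λ _ ∧
      emp q (x ∘ Sum.inl) = (fun α => (T₁ α : ℝ) / M) ∧
      emp q (x ∘ Sum.inr) = (fun α => (T₂ α : ℝ) / M)} = 0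
  · exact Or.inl h0
  right
  have hpos : 0 < (S.card : ℝ) * ((∏ α, V2v Λ q α ^ T₁ α) * ∏ α, V2v Λ q α ^ T₂ α) := by
    by_contra h
    rw [ENNReal.ofReal_of_nonpos (not_lt.1 h)] at hvol
    exact h0 (le_antisymm hvol bot_le)
  have hne : (S.card : ℝ) ≠ 0 := left_ne_zero_of_mul hpos.ne'
  have hne2 := right_ne_zero_of_mul hpos.ne'
  have hV₁ : ∏ α, V2v Λ q α ^ T₁ α ≠ 0 := left_ne_zero_of_mul hne2
  have hV₂ : ∏ α, V2v Λ q α ^ T₂ α ≠ 0 := right_ne_zero_of_mul hne2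
  have key : ∀ T : Fin n → ℕ, ∏ α, V2v Λ q α ^ T α ≠ 0 → ∀ α, 0 < T α → 0 < V2v Λ q α := by
    intro T hT α hα
    refine lt_of_le_of_ne (V2v_nonneg α) fun hc => hT ?_
    refine Finset.prod_eq_zero (Finset.mem_univ α) ?_
    rw [← hc, zero_pow hα.ne']
  obtain ⟨σ, hσ⟩ : S.Nonempty := by
    rw [← Finset.card_pos]
    exact Nat.pos_of_ne_zero fun h => hne (by exact_mod_cast h)
  obtain ⟨a1, a2⟩ := hS σ hσ
  have hs₁ : ∑ α, T₁ α = M := V2_sum (σ := fun i => σ (Sum.inl i)) a1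
  have hs₂ : ∑ α, T₂ α = M := V2_sum (σ := fun i => σ (Sum.inr i)) a2
  obtain ⟨d₁, m₁, x₁⟩ := V2_dens hM hΛm hΛ hq (key T₁ hV₁) hs₁
  obtain ⟨d₂, m₂, x₂⟩ := V2_dens hM hΛm hΛ hq (key T₂ hV₂) hs₂
  refine ⟨V2rho Λ M q T₁, V2rho Λ M q T₂, d₁, d₂, fun _ _ => rfl, fun _ _ => rfl, m₁, m₂,
    hvol.trans (ENNReal.ofReal_le_ofReal ?_)⟩
  have hcount := V2_count hM hs₁ hs₂ S hS
  rw [mul_add, neg_add, Real.exp_add, ← x₁, ← x₂]
  set e₁ := Real.exp (-(M * ∫ x in Λ, V2rho Λ M q T₁ x * Real.log (V2rho Λ M q T₁ x)))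
  set e₂ := Real.exp (-(M * ∫ x in Λ, V2rho Λ M q T₂ x * Real.log (V2rho Λ M q T₂ x)))
  have he : 0 ≤ e₁ * e₂ := mul_nonneg (Real.exp_nonneg _) (Real.exp_nonneg _)
  have := mul_le_mul_of_nonneg_left hcount he
  nlinarith

end Pool.Agent.H836_PV
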