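import Pool.Agent.H836_PV.Stmts

/-!
# Task V3: step approximation of the truncated kernel
-/

open MeasureTheory Filter Topology Set Metric

namespace Pool.Agent.H836_PV

theorem V3_closed {Λ : Set ℂ} {r : ℝ} (hr : 0 < r) : IsClosed {x : ℂ | ball x r ⊆ Λ} := by
  rw [← isOpen_compl_iff, Metric.isOpen_iff]
  intro x hx
  simp only [mem_compl_iff, mem_setOf_eq, not_subset] at hx
  obtain ⟨z, hz, hzΛ⟩ := hx
  rw [mem_ball] at hz
  refine ⟨r - dist z x, by linarith, ?_⟩
  intro y hy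
  rw [mem_ball] at hy
  simp only [mem_compl_iff, mem_setOf_eq, not_subset]
  refine ⟨z, ?_, hzΛ⟩
  rw [mem_ball]
  have := dist_triangle z x y
  rw [dist_comm x y] at this
  linarith

theorem V3_net {Q : Set ℂ} (hQ : IsCompact Q) (hne : Q.Nonempty) {δ : ℝ} (hδ : 0 < δ) :
    ∃ (N : ℕ) (e : ℕ → ℂ), (∀ k, e k ∈ Q) ∧ ∀ x ∈ Q, ∃ k ≤ N, dist (e k) x < δ := by
  obtain ⟨t, htQ, htf, hcov⟩ := hQ.finite_cover_balls hδ
  have htne : t.Nonempty := by
    obtain ⟨x, hx⟩ := hne
    have := hcov hx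
    simp only [mem_iUnion] at this
    obtain ⟨y, hy, _⟩ := this
    exact ⟨y, hy⟩
  obtain ⟨f, hf⟩ := htf.countable.exists_eq_range htne
  have hk : ∀ y : ℂ, ∃ k : ℕ, y ∈ t → f k = y := by
    intro y
    by_cases hy : y ∈ t
    · rw [hf] at hy
      obtain ⟨k, hk⟩ := hy
      exact ⟨k, fun _ => hk⟩
    · exact ⟨0, fun h => absurd h hy⟩
  choose k hk using hk
  obtain ⟨N, hN⟩ := (htf.image k).bddAbove
  refine ⟨N, f, ?_, ?_⟩
  · intro j
    apply htQ
    rw [hf]
    exact ⟨j, rfl⟩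
  · intro x hx
    have := hcov hx
    simp only [mem_iUnion, mem_ball] at this
    obtain ⟨y, hy, hxy⟩ := this
    refine ⟨k y, hN ⟨y, hy, rfl⟩, ?_⟩
    rw [hk y hy, dist_comm]
    exact hxy

theorem taskV3 : TaskV3 := by
  intro Λ g D C₃ cL CB hK ε₁ L hε₁ hL
  classical
  obtain ⟨r, hr0, hr1, hrε⟩ : ∃ r : ℝ, 0 < r ∧ r ≤ 1 ∧ CB * r ≤ ε₁ := by
    have h1 : 0 < CB + 1 := by linarith [hK.CB_nonneg]
    refine ⟨min 1 (ε₁ / (CB + 1)), lt_min one_pos (by positivity), min_le_left _ _, ?_⟩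
    calc CB * min 1 (ε₁ / (CB + 1)) ≤ CB * (ε₁ / (CB + 1)) :=
          mul_le_mul_of_nonneg_left (min_le_right _ _) hK.CB_nonneg
      _ ≤ (CB + 1) * (ε₁ / (CB + 1)) :=
          mul_le_mul_of_nonneg_right (by linarith) (by positivity)
      _ = ε₁ := by field_simp
  set Q : Set ℂ := {x : ℂ | ball x r ⊆ Λ} with hQdef
  have hQΛ : Q ⊆ Λ := fun x hx => hx (mem_ball_self hr0)
  have hQcl : IsClosed Q := V3_closed hr0
  have hQb : Q ⊆ closedBall 0 D := fun x hx => by
    rw [mem_closedBall_zero_iff]; exact hK.norm_le x (hQΛ hx)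
  have hQc : IsCompact Q := (isCompact_closedBall (0 : ℂ) D).of_isClosed_subset hQcl hQb
  have hvol : volume (Λ ∩ Qᶜ) ≤ ENNReal.ofReal ε₁ := by
    calc volume (Λ ∩ Qᶜ) ≤ volume {x ∈ Λ | ¬ ball x r ⊆ Λ} :=
          measure_mono (fun x hx => ⟨hx.1, hx.2⟩)
      _ ≤ ENNReal.ofReal (CB * r) := hK.layer r hr0 hr1
      _ ≤ ENNReal.ofReal ε₁ := ENNReal.ofReal_le_ofReal hrε
  by_cases hne : Q.Nonempty
  swap
  · rw [not_nonempty_iff_eq_empty] at hne
    refine ⟨0, fun _ => 0, fun _ _ => 0, measurable_const, fun _ _ => rfl,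
      fun _ _ => ⟨le_refl _, hL.le⟩, fun x _ y _ _ h => absurd rfl h, ?_⟩
    rw [hne, compl_empty, inter_univ] at hvol
    exact (measure_mono inter_subset_left).trans hvol
  set ρ : ℝ := r * Real.exp (-L) with hρ
  have hρ0 : 0 < ρ := by positivity
  set T : ℂ × ℂ → ℝ :=
    fun p => max 0 (min (g p.1 p.2 - Real.log (max ‖p.1 - p.2‖ ρ)) L) with hT
  have hTc : ContinuousOn T (Q ×ˢ Q) := by
    have hg : ContinuousOn (fun p : ℂ × ℂ => g p.1 p.2) (Q ×ˢ Q) :=
      hK.smooth.continuousOn.mono (prod_mono hQΛ hQΛ)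
    have hlog : Continuous (fun p : ℂ × ℂ => Real.log (max ‖p.1 - p.2‖ ρ)) := by
      apply Continuous.log
      · fun_prop
      · intro p
        have : 0 < max ‖p.1 - p.2‖ ρ := lt_max_of_lt_right hρ0
        exact this.ne'
    apply ContinuousOn.sup continuousOn_const
    apply ContinuousOn.inf _ continuousOn_const
    exact hg.sub hlog.continuousOn
  have hTeq : ∀ x ∈ Q, ∀ y ∈ Q, x ≠ y → T (x, y) = min (K g x y) L := by
    intro x hx y hy hxy
    have hpos : 0 < ‖x - y‖ := norm_pos_iff.mpr (sub_ne_zero.mpr hxy)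
    have hK0 : 0 ≤ K g x y := by
      have := hK.log_le x (hQΛ hx) y (hQΛ hy) hxy
      unfold K; linarith
    have hgr : Real.log r ≤ g x y := hK.log_r_le x (hQΛ hx) y (hQΛ hy) r hr0 hx
    have hlogρ : Real.log ρ = Real.log r - L := by
      rw [hρ, Real.log_mul hr0.ne' (Real.exp_pos _).ne', Real.log_exp]; ring
    have hmin : min (g x y - Real.log (max ‖x - y‖ ρ)) L = min (K g x y) L := by
      rcases le_total ρ ‖x - y‖ with h | h
      · rw [max_eq_left h]; rfl
      · rw [max_eq_right h]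
        have h1 : Real.log ‖x - y‖ ≤ Real.log ρ := Real.log_le_log hpos h
        rw [min_eq_right, min_eq_right]
        · unfold K; linarith
        · linarith
    show max 0 (min (g x y - Real.log (max ‖x - y‖ ρ)) L) = _
    rw [hmin, max_eq_right (le_min hK0 hL.le)]
  have hTs : ∀ x ∈ Q, ∀ y ∈ Q, T (x, y) = T (y, x) := by
    intro x hx y hy
    simp only [hT]
    rw [hK.symm x (hQΛ hx) y (hQΛ hy), norm_sub_rev]
  have hT01 : ∀ p, 0 ≤ T p ∧ T p ≤ L := fun p =>
    ⟨le_max_left _ _, max_le hL.le (min_le_right _ _)⟩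
  have huc := (hQc.prod hQc).uniformContinuousOn_of_continuous hTc
  rw [Metric.uniformContinuousOn_iff] at huc
  obtain ⟨δ, hδ, huc⟩ := huc ε₁ hε₁
  obtain ⟨N, e, heQ, hcov⟩ := V3_net hQc hne hδ
  have hind : ∀ x ∈ Q, dist (e (SimpleFunc.nearestPtInd e N x)) x < δ := by
    intro x hx
    obtain ⟨k, hk, hkx⟩ := hcov x hx
    have h1 := SimpleFunc.edist_nearestPt_le e x hk
    have h2 : SimpleFunc.nearestPt e N x = e (SimpleFunc.nearestPtInd e N x) := rfl
    rw [h2, edist_dist, edist_dist] at h1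
    rw [ENNReal.ofReal_le_ofReal_iff dist_nonneg] at h1
    exact lt_of_le_of_lt h1 hkx
  set q : ℂ → Fin (N + 1 + 1) := fun x =>
    if x ∈ Q then ⟨SimpleFunc.nearestPtInd e N x + 1,
      by have := SimpleFunc.nearestPtInd_le e N x; omega⟩ else 0 with hq
  have hq0 : ∀ x, q x = 0 ↔ x ∉ Q := by
    intro x
    by_cases hx : x ∈ Q
    · simp only [hq, hx, if_true, not_true, iff_false]
      intro h
      have := congrArg Fin.val h
      simp at this
    · simp [hq, hx]
  set c : Fin (N + 1 + 1) → ℂ := fun α => e ((α : ℕ) - 1) with hc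
  have hcq : ∀ x ∈ Q, c (q x) = e (SimpleFunc.nearestPtInd e N x) := by
    intro x hx
    simp only [hc, hq, hx, if_true, Nat.add_sub_cancel]
  refine ⟨N + 1, q, fun α β => T (c α, c β), ?_, ?_, fun α β => hT01 _, ?_, ?_⟩
  · apply Measurable.ite hQcl.measurableSet _ measurable_const
    have h1 : Measurable (fun x => SimpleFunc.nearestPtInd e N x) :=
      (SimpleFunc.nearestPtInd e N).measurable
    apply measurable_to_countable'
    intro α
    have : (fun x : ℂ => (⟨SimpleFunc.nearestPtInd e N x + 1,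
        by have := SimpleFunc.nearestPtInd_le e N x; omega⟩ : Fin (N + 1 + 1))) ⁻¹' {α} =
        (fun x => SimpleFunc.nearestPtInd e N x) ⁻¹' {k | k + 1 = (α : ℕ)} := by
      ext x
      simp only [mem_preimage, mem_singleton_iff, mem_setOf_eq]
      rw [Fin.ext_iff]
    rw [this]
    exact h1 trivial
  · intro α β
    exact hTs _ (heQ _) _ (heQ _)
  · intro x hx y hy hxy hqx hqy
    have hxQ : x ∈ Q := by
      by_contra h
      exact hqx ((hq0 x).mpr h)
    have hyQ : y ∈ Q := by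
      by_contra h
      exact hqy ((hq0 y).mpr h)
    rw [← hTeq x hxQ y hyQ hxy]
    have h := huc (x, y) ⟨hxQ, hyQ⟩ (c (q x), c (q y)) ⟨heQ _, heQ _⟩ ?_
    · rw [Real.dist_eq] at h
      exact h.le
    · rw [Prod.dist_eq, max_lt_iff]
      simp only
      rw [hcq x hxQ, hcq y hyQ, dist_comm x, dist_comm y]
      exact ⟨hind x hxQ, hind y hyQ⟩
  · refine le_trans (measure_mono ?_) hvol
    intro x hx
    exact ⟨hx.1, (hq0 x).mp hx.2⟩

end Pool.Agent.H836_PV
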