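import Pool.Agent.H836_PV.V4b

/-!
# Task V4: large deviation upper bound for the volume
-/

open MeasureTheory Filter Topology Set Metric

namespace Pool.Agent.H836_PV

theorem V4_ent_lb {Λ : Set ℂ} (hΛ : MeasurableSet Λ) (hV : volume Λ ≠ ⊤) {ρ : ℂ → ℝ}
    (h : IsDens Λ ρ) : 1 - (volume Λ).toReal ≤ ∫ x in Λ, ρ x * Real.log (ρ x) := by
  have h1 : IntegrableOn (fun _ : ℂ => (1 : ℝ)) Λ := by
    rw [integrableOn_const_iff]
    right
    exact lt_top_iff_ne_top.mpr hV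
  have h2 : ∫ x in Λ, (ρ x - 1) ≤ ∫ x in Λ, ρ x * Real.log (ρ x) := by
    apply setIntegral_mono_on (h.integrable.sub h1) h.entropy hΛ
    intro x hx
    rcases eq_or_lt_of_le (h.nonneg x hx) with h0 | h0
    · show ρ x - 1 ≤ ρ x * Real.log (ρ x)
      rw [← h0]; norm_num
    · have := Real.one_sub_inv_le_log_of_pos h0
      have h3 : ρ x * (1 - (ρ x)⁻¹) ≤ ρ x * Real.log (ρ x) :=
        mul_le_mul_of_nonneg_left this h0.le
      rw [mul_sub, mul_one, mul_inv_cancel₀ h0.ne'] at h3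
      exact h3
  rw [integral_sub h.integrable h1, h.integral] at h2
  simp only [integral_const, smul_eq_mul, mul_one] at h2
  have h4 : (volume.restrict Λ).real univ = (volume Λ).toReal := by
    simp [Measure.real]
  rw [h4] at h2
  exact h2

theorem V4_transfer {Λ : Set ℂ} {M n : ℕ} {Q : ℂ → Fin n} (hQ : Measurable Q) {ρ : ℂ → ℝ}
    (hρ : IntegrableOn ρ Λ) (x : Fin M → ℂ) (h : ∀ α, mass Λ Q ρ α = emp Q x α)
    (φ : Fin n → ℝ) : ∫ z in Λ, φ (Q z) * ρ z = (∑ i, φ (Q (x i))) / M := by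
  rw [V4_mass_sum hQ hρ, ← V4_emp_sum]
  simp only [h]

theorem V4_mass_eq {Λ : Set ℂ} {M n : ℕ} {q : ℂ → Fin n} (hq : Measurable q) {ρ : ℂ → ℝ}
    (x : Fin M → ℂ)
    (h : ∀ φ : Fin n → ℝ, ∫ z in Λ, φ (q z) * ρ z = (∑ i, φ (q (x i))) / M) :
    mass Λ q ρ = emp q x := by
  classical
  funext α
  have h1 := h (fun β => if β = α then 1 else 0)
  unfold mass emp
  have h2 : ∀ z, (if q z = α then (1 : ℝ) else 0) * ρ z = (q ⁻¹' {α}).indicator ρ z := by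
    intro z
    by_cases hz : q z = α
    · rw [indicator_of_mem (show z ∈ q ⁻¹' {α} from hz), if_pos hz, one_mul]
    · rw [indicator_of_notMem (show z ∉ q ⁻¹' {α} from hz), if_neg hz, zero_mul]
  simp only [h2] at h1
  rw [setIntegral_indicator (hq (measurableSet_singleton α))] at h1
  rw [h1, Finset.sum_boole]

/-- polynomial versus exponential -/
theorem V4_poly (k : ℕ) {η : ℝ} (hη : 0 < η) :
    ∀ᶠ M : ℕ in atTop, 2 + ((M : ℝ) + 1) ^ k ≤ Real.exp (2 * M * η) := by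
  have h1 := Real.tendsto_mul_exp_add_div_pow_atTop (Real.exp (-(2 * η)) * (2 * η) ^ k / 3) 0 k
    (by positivity)
  have h2 : Tendsto (fun M : ℕ => 2 * η * ((M : ℝ) + 1)) atTop atTop := by
    apply Tendsto.const_mul_atTop (by positivity)
    exact tendsto_atTop_add_const_right _ _ tendsto_natCast_atTop_atTop
  have h3 := (h1.comp h2).eventually_ge_atTop 1
  filter_upwards [h3] with M hM
  simp only [Function.comp, add_zero] at hM
  have hM1 : (1 : ℝ) ≤ ((M : ℝ) + 1) ^ k := one_le_pow₀ (by linarith [Nat.cast_nonneg (α := ℝ) M])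
  have hpos : 0 < (2 * η * ((M : ℝ) + 1)) ^ k := by positivity
  rw [le_div_iff₀ hpos, one_mul, mul_pow] at hM
  have e1 : Real.exp (-(2 * η)) * (2 * η) ^ k / 3 * Real.exp (2 * η * ((M : ℝ) + 1)) =
      (2 * η) ^ k / 3 * Real.exp (2 * M * η) := by
    have : Real.exp (2 * M * η) = Real.exp (-(2 * η)) * Real.exp (2 * η * ((M : ℝ) + 1)) := by
      rw [← Real.exp_add]; congr 1; ring
    rw [this]
    ring
  rw [e1] at hM
  have hpos2 : 0 < (2 * η) ^ k := by positivity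
  have h5 : ((M : ℝ) + 1) ^ k ≤ 1 / 3 * Real.exp (2 * M * η) := by
    have : (2 * η) ^ k * ((M : ℝ) + 1) ^ k ≤ (2 * η) ^ k * (1 / 3 * Real.exp (2 * M * η)) := by
      calc (2 * η) ^ k * ((M : ℝ) + 1) ^ k ≤ (2 * η) ^ k / 3 * Real.exp (2 * M * η) := hM
        _ = _ := by ring
    exact le_of_mul_le_mul_left this hpos2
  linarith

/-- one type -/
theorem V4_type (hS : TaskS1) (h2 : TaskV2) {Λ : Set ℂ} {g : ℂ → ℂ → ℝ} {D C₃ cL CB : ℝ}
    (hK : Ker Λ g D C₃ cL CB) {n : ℕ} {q : ℂ → Fin n} (hq : Measurable q)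
    {F : Set ((Fin n → ℝ) × (Fin n → ℝ))} {ε ε₁ v : ℝ} (hε₁ : 0 < ε₁)
    (hF : ∀ ρ₁ ρ₂, IsDens Λ ρ₁ → IsDens Λ ρ₂ → 4 * (ε - ε₁) ≤ en Λ (K g) ρ₁ ρ₂ →
      (mass Λ q ρ₁, mass Λ q ρ₂) ∈ F → 1 / 2 * (entr Λ ρ₁ + entr Λ ρ₂) ≤ v)
    {M : ℕ} (hM : 0 < M) (hMD : Real.log D / M ≤ ε₁ / 2)
    {δ ε₃ κ : ℝ} (hδ : 0 < δ) (hδ1 : δ < 1) (hε₃ : 0 ≤ ε₃) (hε₃' : ε₃ ≤ ε₁ / 8)
    (hκ : 8 * Real.log (D / δ) * κ ≤ ε₁ / 2)
    {m : ℕ} (q₃ : ℂ → Fin (m + 1)) (hq₃ : Measurable q₃)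
    (Gt : Fin (m + 1) → Fin (m + 1) → ℝ)
    (hG0 : ∀ α β, 0 ≤ Gt α β ∧ Gt α β ≤ Real.log (D / δ))
    (hGt : ∀ x ∈ Λ, ∀ y ∈ Λ, x ≠ y → q₃ x ≠ 0 → q₃ y ≠ 0 →
      |min (K g x y) (Real.log (D / δ)) - Gt (q₃ x) (q₃ y)| ≤ ε₃)
    (hfd : ∀ ρ₁ ρ₂, IsDens Λ ρ₁ → IsDens Λ ρ₂ →
      ∫ x in Λ, ρ₁ x * Real.log (ρ₁ x) ≤ (volume Λ).toReal - 1 - 2 * v -
        2 * Real.log (volume Λ).toReal →
      ∫ x in Λ, ρ₂ x * Real.log (ρ₂ x) ≤ (volume Λ).toReal - 1 - 2 * v -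
        2 * Real.log (volume Λ).toReal →
      IntegrableOn (fun p : ℂ × ℂ => fd δ p.1 p.2 * ρ₁ p.1 * ρ₂ p.2) (Λ ×ˢ Λ) ∧
      ∫ p in Λ ×ˢ Λ, fd δ p.1 p.2 * ρ₁ p.1 * ρ₂ p.2 ≤ ε₁ / 8)
    (x : Conf M) (hx : x ∈ cf Λ _) (hinj : Function.Injective x)
    (hxH : (2 * (M : ℝ)) ^ 2 * (ε - ε₁ / 4) ≤ Ham g (circ M) x)
    (hxF : (emp q (x ∘ Sum.inl), emp q (x ∘ Sum.inr)) ∈ F)
    (hxf : ∑ i, ∑ j, fd δ (x i) (x j) ≤ ε₁ / 8 * (2 * (M : ℝ)) ^ 2)
    (hx0 : ((Finset.univ.filter fun i => q₃ (x i) = 0).card : ℝ) ≤ κ * (2 * M))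
    (T₁ T₂ : Fin (n * (m + 1)) → ℕ)
    (hT₁ : emp (fun z => finProdFinEquiv (q z, q₃ z)) (x ∘ Sum.inl) = fun α => (T₁ α : ℝ) / M)
    (hT₂ : emp (fun z => finProdFinEquiv (q z, q₃ z)) (x ∘ Sum.inr) = fun α => (T₂ α : ℝ) / M) :
    volume {y : Conf M | y ∈ cf Λ _ ∧
      emp (fun z => finProdFinEquiv (q z, q₃ z)) (y ∘ Sum.inl) = (fun α => (T₁ α : ℝ) / M) ∧
      emp (fun z => finProdFinEquiv (q z, q₃ z)) (y ∘ Sum.inr) = (fun α => (T₂ α : ℝ) / M)} ≤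
    ENNReal.ofReal (Real.exp (2 * M * v)) * (volume Λ) ^ (2 * M) := by
  classical
  have hΛm : MeasurableSet Λ := hK.isOpen.measurableSet
  have hsub : Λ ⊆ closedBall 0 D := fun z hz => by
    rw [mem_closedBall_zero_iff]; exact hK.norm_le z hz
  have hVtop : volume Λ ≠ ⊤ := ((measure_mono hsub).trans_lt measure_closedBall_lt_top).ne
  have hV0 : volume Λ ≠ 0 := (hK.isOpen.measure_pos volume hK.nonempty).ne'
  set V := (volume Λ).toReal with hVdef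
  have hVpos : 0 < V := ENNReal.toReal_pos hV0 hVtop
  have hMR : (0 : ℝ) < M := by exact_mod_cast hM
  have hVpow : ENNReal.ofReal (Real.exp (2 * M * v)) * (volume Λ) ^ (2 * M) =
      ENNReal.ofReal (Real.exp (2 * M * v + 2 * M * Real.log V)) := by
    rw [Real.exp_add, ENNReal.ofReal_mul (Real.exp_pos _).le]
    congr 1
    have e : Real.exp (2 * M * Real.log V) = V ^ (2 * M) := by
      rw [← Real.exp_log (pow_pos hVpos (2 * M)), Real.log_pow]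
      push_cast
      rfl
    rw [e, ENNReal.ofReal_pow hVpos.le, hVdef, ENNReal.ofReal_toReal hVtop]
  rw [hVpow]
  set Q : ℂ → Fin (n * (m + 1)) := fun z => finProdFinEquiv (q z, q₃ z) with hQ
  have hQm : Measurable Q :=
    (measurable_of_countable (finProdFinEquiv : Fin n × Fin (m + 1) → Fin (n * (m + 1)))).comp
      (hq.prodMk hq₃)
  rcases h2 Λ hΛm hV0 hVtop M (n * (m + 1)) hM Q hQm T₁ T₂ with h | h
  · rw [h]; exact zero_le
  obtain ⟨ρ₁, ρ₂, hρ₁, hρ₂, -, -, hm₁, hm₂, hvol⟩ := h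
  refine hvol.trans (ENNReal.ofReal_le_ofReal (Real.exp_le_exp.mpr ?_))
  set E₁ := ∫ x in Λ, ρ₁ x * Real.log (ρ₁ x) with hE₁
  set E₂ := ∫ x in Λ, ρ₂ x * Real.log (ρ₂ x) with hE₂
  have hb₁ : 1 - V ≤ E₁ := V4_ent_lb hΛm hVtop hρ₁
  have hb₂ : 1 - V ≤ E₂ := V4_ent_lb hΛm hVtop hρ₂
  by_cases hE : E₁ ≤ V - 1 - 2 * v - 2 * Real.log V ∧ E₂ ≤ V - 1 - 2 * v - 2 * Real.log V
  swap
  · have : V - 1 - 2 * v - 2 * Real.log V + (1 - V) ≤ E₁ + E₂ := by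
      rw [not_and_or, not_le, not_le] at hE
      rcases hE with h | h <;> linarith
    nlinarith
  -- the density of the type is a competitor
  have hemp₁ : ∀ α, mass Λ Q ρ₁ α = emp Q (x ∘ Sum.inl) α := fun α => by rw [hm₁ α, hT₁]
  have hemp₂ : ∀ α, mass Λ Q ρ₂ α = emp Q (x ∘ Sum.inr) α := fun α => by rw [hm₂ α, hT₂]
  have tr₁ := V4_transfer hQm hρ₁.integrable _ hemp₁
  have tr₂ := V4_transfer hQm hρ₂.integrable _ hemp₂
  have H₁ : ∀ φ : Fin (m + 1) → ℝ,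
      ∫ z in Λ, φ (q₃ z) * ρ₁ z = (∑ i, φ (q₃ (x (Sum.inl i)))) / M := by
    intro φ
    have := tr₁ (fun α => φ (finProdFinEquiv.symm α).2)
    simpa [hQ] using this
  have H₂ : ∀ φ : Fin (m + 1) → ℝ,
      ∫ z in Λ, φ (q₃ z) * ρ₂ z = (∑ i, φ (q₃ (x (Sum.inr i)))) / M := by
    intro φ
    have := tr₂ (fun α => φ (finProdFinEquiv.symm α).2)
    simpa [hQ] using this
  have G₁ : mass Λ q ρ₁ = emp q (x ∘ Sum.inl) := by
    apply V4_mass_eq hq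
    intro φ
    have := tr₁ (fun α => φ (finProdFinEquiv.symm α).1)
    simpa [hQ] using this
  have G₂ : mass Λ q ρ₂ = emp q (x ∘ Sum.inr) := by
    apply V4_mass_eq hq
    intro φ
    have := tr₂ (fun α => φ (finProdFinEquiv.symm α).1)
    simpa [hQ] using this
  have hcirc : ∀ i, circ M i = 1 ∨ circ M i = -1 := by
    intro i
    rcases i with i | i
    · left; rfl
    · right; rfl
  have henergy := V4_energy hK (circ M) hcirc hδ hδ1 hε₃ q₃ Gt hG0 hGt x hx hinj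
  have hent := V4_en hK hM hδ hδ1 hε₃ (η₂ := ε₁ / 8) q₃ hq₃ Gt hG0 hGt hρ₁ hρ₂
    (fun ρ ρ' h h' => (hS Λ g D C₃ cL CB hK).1 ρ ρ' h h')
    (by
      intro ρ ρ' h h'
      rcases h with h | h <;> rcases h' with h' | h' <;> subst h <;> subst h'
      · exact hfd _ _ hρ₁ hρ₁ hE.1 hE.1
      · exact hfd _ _ hρ₁ hρ₂ hE.1 hE.2
      · exact hfd _ _ hρ₂ hρ₁ hE.2 hE.1
      · exact hfd _ _ hρ₂ hρ₂ hE.2 hE.2) x H₁ H₂
  have hcard : (Fintype.card (Fin M ⊕ Fin M) : ℝ) = 2 * M := by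
    rw [Fintype.card_sum, Fintype.card_fin]; push_cast; ring
  rw [hcard] at henergy
  set n₀ : ℝ := ((Finset.univ.filter fun i => q₃ (x i) = 0).card : ℝ) with hn₀
  set S : ℝ := ∑ i, ∑ j, circ M i * circ M j * Gt (q₃ (x i)) (q₃ (x j)) with hSdef
  set L := Real.log (D / δ) with hL
  have hL0 : 0 ≤ L := by
    apply Real.log_nonneg
    rw [le_div_iff₀ hδ]
    linarith [hK.one_le]
  have hMM : (0 : ℝ) < (M : ℝ) ^ 2 := by positivity
  have hn₀M : n₀ / M ≤ 2 * κ := by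
    rw [div_le_iff₀ hMR]; linarith
  have hLn : L * (n₀ / M) ≤ L * (2 * κ) := mul_le_mul_of_nonneg_left hn₀M hL0
  -- divide the energy inequality by `M ^ 2`
  have hdiv : 4 * (ε - ε₁ / 4) ≤ 1 / 2 * (S / (M : ℝ) ^ 2) + (Real.log D / M +
      2 * (ε₁ / 8) + 2 * ε₃ + 2 * L * (n₀ / M)) := by
    have h5 : (2 * (M : ℝ)) ^ 2 * (ε - ε₁ / 4) ≤ 1 / 2 * S + 1 / 2 * (2 * M * Real.log D +
        ε₁ / 8 * (2 * (M : ℝ)) ^ 2 + ε₃ * (2 * M) ^ 2 + 2 * L * (2 * M) * n₀) := by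
      linarith
    have h6 : 1 / 2 * (S / (M : ℝ) ^ 2) + (Real.log D / M +
      2 * (ε₁ / 8) + 2 * ε₃ + 2 * L * (n₀ / M)) = (1 / 2 * S + 1 / 2 * (2 * M * Real.log D +
        ε₁ / 8 * (2 * (M : ℝ)) ^ 2 + ε₃ * (2 * M) ^ 2 + 2 * L * (2 * M) * n₀)) / (M : ℝ) ^ 2 := by
      field_simp
    rw [h6, le_div_iff₀ hMM]
    linarith
  have henle : 4 * (ε - ε₁) ≤ en Λ (K g) ρ₁ ρ₂ := by
    linarith
  have hvv := hF ρ₁ ρ₂ hρ₁ hρ₂ henle (by rw [G₁, G₂]; exact hxF)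
  unfold entr at hvv
  rw [← hE₁, ← hE₂, ← hVdef] at hvv
  nlinarith

theorem taskV4 (h1 : TaskV1) (h2 : TaskV2) (h3 : TaskV3) (hS : TaskS1) : TaskV4 := by
  intro Λ g D C₃ cL CB hK n q hq F ε ε₁ v hε₁ hε₁ε hF η hη
  classical
  have hΛm : MeasurableSet Λ := hK.isOpen.measurableSet
  have hsub : Λ ⊆ closedBall 0 D := fun z hz => by
    rw [mem_closedBall_zero_iff]; exact hK.norm_le z hz
  have hVtop : volume Λ ≠ ⊤ := ((measure_mono hsub).trans_lt measure_closedBall_lt_top).ne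
  have hV0 : volume Λ ≠ 0 := (hK.isOpen.measure_pos volume hK.nonempty).ne'
  set V := (volume Λ).toReal with hVdef
  have hVpos : 0 < V := ENNReal.toReal_pos hV0 hVtop
  have hVeq : volume Λ = ENNReal.ofReal V := (ENNReal.ofReal_toReal hVtop).symm
  have hD0 : 0 < D := by linarith [hK.one_le]
  set A : ℝ := |v| + |Real.log V| + 1 with hA
  have hA0 : 0 < A := by positivity
  set Kb : ℝ := V - 1 - 2 * v - 2 * Real.log V with hKb
  obtain ⟨δ₁, hδ₁0, hδ₁1, N₀, hV1⟩ := h1 D hK.one_le (ε₁ / 8) (by positivity) A hA0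
  obtain ⟨δ₀, hδ₀0, hδ₀1, hS2⟩ := (hS Λ g D C₃ cL CB hK).2.1 Kb (ε₁ / 8) (by positivity)
  set δ := min δ₁ δ₀ with hδdef
  have hδ : 0 < δ := lt_min hδ₁0 hδ₀0
  have hδ1 : δ < 1 := (min_le_left _ _).trans_lt hδ₁1
  set L := Real.log (D / δ) with hL
  have hL0 : 0 < L := by
    apply Real.log_pos
    rw [lt_div_iff₀ hδ]
    linarith [hK.one_le]
  set κ : ℝ := ε₁ / (16 * L) with hκdef
  have hκ0 : 0 < κ := by positivity
  have hκL : 8 * L * κ ≤ ε₁ / 2 := by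
    rw [hκdef]
    have : 8 * L * (ε₁ / (16 * L)) = ε₁ / 2 := by field_simp; norm_num
    rw [this]
  set θ : ℝ := Real.exp (-((|v| + 1) / κ)) with hθdef
  have hθ0 : 0 < θ := Real.exp_pos _
  have hθ1 : θ ≤ 1 := by
    rw [hθdef, Real.exp_le_one_iff]
    have : 0 ≤ (|v| + 1) / κ := by positivity
    linarith
  have hθκ : 2 * θ ^ κ ≤ Real.exp v := by
    have e1 : θ ^ κ = Real.exp (-(|v| + 1)) := by
      rw [hθdef, ← Real.exp_mul]
      congr 1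
      field_simp
    rw [e1, neg_add, Real.exp_add]
    have e2 : Real.exp (-|v|) ≤ Real.exp v := Real.exp_le_exp.mpr (neg_abs_le v)
    have e3 : 2 * Real.exp (-1) ≤ 1 := by
      have := Real.exp_one_gt_d9
      rw [Real.exp_neg]
      rw [← div_eq_mul_inv, div_le_one (Real.exp_pos _)]
      linarith
    calc 2 * (Real.exp (-|v|) * Real.exp (-1)) = (2 * Real.exp (-1)) * Real.exp (-|v|) := by ring
      _ ≤ 1 * Real.exp (-|v|) := mul_le_mul_of_nonneg_right e3 (Real.exp_pos _).le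
      _ ≤ Real.exp v := by rw [one_mul]; exact e2
  set ε₃ : ℝ := min (ε₁ / 8) (θ * V) with hε₃def
  have hε₃0 : 0 < ε₃ := lt_min (by positivity) (by positivity)
  obtain ⟨m, q₃, Gt, hq₃, -, hG0, hGt, hvol0⟩ := h3 Λ g D C₃ cL CB hK ε₃ L hε₃0 hL0
  have hvol0' : volume (Λ ∩ q₃ ⁻¹' {0}) ≤ ENNReal.ofReal θ * volume Λ := by
    refine hvol0.trans ?_
    rw [hVeq, ← ENNReal.ofReal_mul hθ0.le]
    exact ENNReal.ofReal_le_ofReal (min_le_right _ _)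
  have hD8 : ∀ᶠ M : ℕ in atTop, Real.log D / (M : ℝ) ≤ ε₁ / 2 := by
    have := tendsto_const_div_atTop_nhds_zero_nat (Real.log D)
    exact (this.eventually_lt_const (show (0 : ℝ) < ε₁ / 2 by positivity)).mono fun _ h => h.le
  obtain ⟨M₀, hM₀⟩ := eventually_atTop.mp
    ((hD8.and (V4_poly (2 * (n * (m + 1))) hη)).and (eventually_ge_atTop (N₀ + 1)))
  refine ⟨ε₁ / 4, by positivity, M₀, fun M hM => ?_⟩
  obtain ⟨⟨hMD, hpoly⟩, hMN⟩ := hM₀ M hM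
  have hM0 : 0 < M := by omega
  have hMR : (0 : ℝ) < M := by exact_mod_cast hM0
  have hcard : Fintype.card (Fin M ⊕ Fin M) = 2 * M := by
    rw [Fintype.card_sum, Fintype.card_fin]; ring
  have hcardR : (Fintype.card (Fin M ⊕ Fin M) : ℝ) = 2 * M := by
    rw [hcard]; push_cast; ring
  set X : ENNReal := ENNReal.ofReal (Real.exp (2 * M * v)) * (volume Λ) ^ (2 * M) with hX
  set 𝒮 : Set (Conf M) := {x : Conf M | x ∈ cf Λ _ ∧
    (2 * (M : ℝ)) ^ 2 * (ε - ε₁ / 4) ≤ Ham g (circ M) x ∧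
        (emp q (x ∘ Sum.inl), emp q (x ∘ Sum.inr)) ∈ F} with h𝒮
  set B0 : Set (Conf M) := {x | ¬ Function.Injective x} with hB0
  set B1 : Set (Conf M) := {x | x ∈ cf Λ _ ∧
    ε₁ / 8 * (Fintype.card (Fin M ⊕ Fin M) : ℝ) ^ 2 < ∑ i, ∑ j, fd δ₁ (x i) (x j)} with hB1
  set B2 : Set (Conf M) := {x | x ∈ cf Λ _ ∧ κ * (Fintype.card (Fin M ⊕ Fin M) : ℝ) ≤
    (Nat.card {i // x i ∈ Λ ∩ q₃ ⁻¹' {0}} : ℝ)} with hB2
  set Q : ℂ → Fin (n * (m + 1)) := fun z => finProdFinEquiv (q z, q₃ z) with hQ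
  set Ty : ((Fin (n * (m + 1)) → Fin (M + 1)) × (Fin (n * (m + 1)) → Fin (M + 1))) →
      Set (Conf M) := fun τ => {y : Conf M | y ∈ cf Λ _ ∧
      emp Q (y ∘ Sum.inl) = (fun α => (((τ.1 α : ℕ)) : ℝ) / M) ∧
      emp Q (y ∘ Sum.inr) = (fun α => (((τ.2 α : ℕ)) : ℝ) / M)} with hTy
  -- the covering
  have hcov : 𝒮 ⊆ B0 ∪ B1 ∪ B2 ∪ ⋃ τ, (Ty τ ∩ 𝒮 ∩ (B0 ∪ B1 ∪ B2)ᶜ) := by
    intro x hx
    by_cases hb : x ∈ B0 ∪ B1 ∪ B2
    · exact Or.inl hb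
    · right
      rw [mem_iUnion]
      have hle : ∀ (w : Fin M → ℂ) α, (Finset.univ.filter fun i => Q (w i) = α).card < M + 1 := by
        intro w α
        have := Finset.card_filter_le (Finset.univ : Finset (Fin M)) (fun i => Q (w i) = α)
        rw [Finset.card_univ, Fintype.card_fin] at this
        omega
      refine ⟨(fun α => ⟨_, hle (x ∘ Sum.inl) α⟩, fun α => ⟨_, hle (x ∘ Sum.inr) α⟩),
        ⟨⟨hx.1, rfl, rfl⟩, hx⟩, hb⟩
  have hPτ : ∀ τ, volume (Ty τ ∩ 𝒮 ∩ (B0 ∪ B1 ∪ B2)ᶜ) ≤ X := by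
    intro τ
    rcases (Ty τ ∩ 𝒮 ∩ (B0 ∪ B1 ∪ B2)ᶜ).eq_empty_or_nonempty with h | ⟨x, ⟨hxT, hx𝒮⟩, hxB⟩
    · rw [h, measure_empty]; exact zero_le
    refine (measure_mono (fun y hy => hy.1.1 : (Ty τ ∩ 𝒮 ∩ (B0 ∪ B1 ∪ B2)ᶜ) ⊆ Ty τ)).trans ?_
    rw [mem_compl_iff, mem_union, mem_union, not_or, not_or] at hxB
    obtain ⟨⟨hxB0, hxB1⟩, hxB2⟩ := hxB
    obtain ⟨hxΛ, hxH, hxF⟩ := hx𝒮
    obtain ⟨-, hxT1, hxT2⟩ := hxT
    have hinj : Function.Injective x := by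
      by_contra h
      exact hxB0 h
    have hxf : ∑ i, ∑ j, fd δ (x i) (x j) ≤ ε₁ / 8 * (2 * (M : ℝ)) ^ 2 := by
      have h5 : ∑ i, ∑ j, fd δ₁ (x i) (x j) ≤ ε₁ / 8 * (2 * (M : ℝ)) ^ 2 := by
        by_contra h
        apply hxB1
        rw [hB1]
        refine ⟨hxΛ, ?_⟩
        rw [hcardR]
        exact not_le.mp h
      refine le_trans ?_ h5
      exact Finset.sum_le_sum fun i _ => Finset.sum_le_sum fun j _ =>
        V4_fd_mono hδ (min_le_left _ _) _ _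
    have hx0 : ((Finset.univ.filter fun i => q₃ (x i) = 0).card : ℝ) ≤ κ * (2 * M) := by
      by_contra h
      apply hxB2
      rw [hB2]
      refine ⟨hxΛ, ?_⟩
      rw [hcardR, Nat.card_eq_fintype_card, Fintype.card_subtype]
      have : (Finset.univ.filter fun i => x i ∈ Λ ∩ q₃ ⁻¹' {0}) =
          (Finset.univ.filter fun i => q₃ (x i) = 0) := by
        ext i
        simp only [Finset.mem_filter, Finset.mem_univ, true_and]
        exact ⟨fun h => h.2, fun h => ⟨hxΛ i, h⟩⟩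
      rw [this]
      exact (not_le.mp h).le
    exact V4_type hS h2 hK hq hε₁ hF hM0 hMD hδ hδ1 hε₃0.le (min_le_left _ _) hκL q₃ hq₃ Gt hG0 hGt
      (fun ρ₁ ρ₂ h₁ h₂ e₁ e₂ => hS2 δ hδ (min_le_right _ _) ρ₁ ρ₂ h₁ h₂ e₁ e₂)
      x hxΛ hinj hxH hxF hxf hx0 (fun α => (τ.1 α : ℕ)) (fun α => (τ.2 α : ℕ)) hxT1 hxT2
  -- the bad sets
  have hB0v : volume B0 = 0 := V4_inj
  have hexpV : ENNReal.ofReal (Real.exp (2 * M * v + 2 * M * Real.log V)) = X := by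
    rw [hX, Real.exp_add, ENNReal.ofReal_mul (Real.exp_pos _).le]
    congr 1
    have e : Real.exp (2 * M * Real.log V) = V ^ (2 * M) := by
      rw [← Real.exp_log (pow_pos hVpos (2 * M)), Real.log_pow]
      push_cast
      rfl
    rw [e, ENNReal.ofReal_pow hVpos.le, ← hVeq]
  have hB1v : volume B1 ≤ X := by
    have h5 := hV1 (Fin M ⊕ Fin M) (by rw [hcard]; omega) Λ hΛm hsub
    refine h5.trans ?_
    rw [← hexpV, hcardR]
    apply ENNReal.ofReal_le_ofReal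
    apply Real.exp_le_exp.mpr
    have h6 : -A ≤ v + Real.log V := by
      have := neg_abs_le v
      have := neg_abs_le (Real.log V)
      rw [hA]; linarith
    nlinarith
  have hB2v : volume B2 ≤ X := by
    have h5 := V4_bad (ι := Fin M ⊕ Fin M) (S := Λ ∩ q₃ ⁻¹' {0}) inter_subset_left hVtop (κ := κ)
      hθ0 hθ1 hvol0'
    refine h5.trans ?_
    rw [hX, hcard]
    gcongr
    have e : Real.exp (2 * M * v) = Real.exp v ^ (2 * M) := by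
      rw [← Real.exp_nat_mul]; push_cast; rfl
    rw [e]
    exact pow_le_pow_left₀ (by positivity) hθκ _
  have hcardτ : (Fintype.card ((Fin (n * (m + 1)) → Fin (M + 1)) ×
      (Fin (n * (m + 1)) → Fin (M + 1))) : ENNReal) =
      ENNReal.ofReal (((M : ℝ) + 1) ^ (2 * (n * (m + 1)))) := by
    rw [Fintype.card_prod, Fintype.card_fun, Fintype.card_fin, Fintype.card_fin, ← pow_add,
      ← two_mul]
    rw [ENNReal.ofReal_pow (by positivity)]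
    push_cast
    congr 1
    rw [ENNReal.ofReal_add (by positivity) (by norm_num)]
    simp
  calc volume 𝒮 ≤ volume (B0 ∪ B1 ∪ B2 ∪ ⋃ τ, (Ty τ ∩ 𝒮 ∩ (B0 ∪ B1 ∪ B2)ᶜ)) :=
        measure_mono hcov
    _ ≤ volume (B0 ∪ B1 ∪ B2) + volume (⋃ τ, (Ty τ ∩ 𝒮 ∩ (B0 ∪ B1 ∪ B2)ᶜ)) :=
        measure_union_le _ _
    _ ≤ (volume B0 + volume B1 + volume B2) +
        ∑ τ, volume (Ty τ ∩ 𝒮 ∩ (B0 ∪ B1 ∪ B2)ᶜ) := by
        gcongr
        · exact (measure_union_le _ _).trans (add_le_add (measure_union_le _ _) le_rfl)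
        · exact measure_iUnion_fintype_le _ _
    _ ≤ (0 + X + X) + ∑ _τ : ((Fin (n * (m + 1)) → Fin (M + 1)) ×
          (Fin (n * (m + 1)) → Fin (M + 1))), X := by
        gcongr with τ
        · exact hB0v.le
        · exact hPτ τ
    _ = (ENNReal.ofReal 2 + ENNReal.ofReal (((M : ℝ) + 1) ^ (2 * (n * (m + 1))))) * X := by
        rw [Finset.sum_const, Finset.card_univ, nsmul_eq_mul, hcardτ, zero_add, ← two_mul, add_mul]
        simp
    _ = ENNReal.ofReal (2 + ((M : ℝ) + 1) ^ (2 * (n * (m + 1)))) * X := by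
        rw [ENNReal.ofReal_add (by norm_num) (by positivity)]
    _ ≤ ENNReal.ofReal (Real.exp (2 * M * η)) * X := by
        gcongr
    _ = ENNReal.ofReal (Real.exp (2 * M * (v + η))) * (volume Λ) ^ (2 * M) := by
        rw [hX, ← mul_assoc, ← ENNReal.ofReal_mul (Real.exp_pos _).le, ← Real.exp_add]
        congr 3
        ring

end Pool.Agent.H836_PV
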