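import Pool.Agent.H836_PV.W10

/-!
# Module W: the lower bound for thin shells, final assembly
-/

open MeasureTheory Filter Topology Set Metric ProbabilityTheory

namespace Pool.Agent.H836_PV

/-- the choice of the size `κ` of the cluster -/
theorem w_choose {a b b' c₁ c₂ G η : ℝ} (hG : 0 < G) (hb' : 0 < b') (hη : 0 < η) :
    ∃ κ : ℝ, 0 < κ ∧ κ < 1 ∧ κ * a < G ∧ κ * b < b' ∧
      -(2 * (κ * Real.log κ)) - κ * c₁ + κ * c₂ ≤ η := by
  have hlog : Continuous fun κ : ℝ => κ * Real.log κ := Real.continuous_mul_log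
  have e1 : ∀ᶠ κ in 𝓝[>] (0 : ℝ), κ < 1 :=
    mem_nhdsWithin_of_mem_nhds (Iio_mem_nhds zero_lt_one)
  have e2 : ∀ᶠ κ in 𝓝[>] (0 : ℝ), κ * a < G := by
    have : Continuous fun κ : ℝ => κ * a := by fun_prop
    exact mem_nhdsWithin_of_mem_nhds (this.continuousAt.eventually_lt continuousAt_const (by simpa))
  have e3 : ∀ᶠ κ in 𝓝[>] (0 : ℝ), κ * b < b' := by
    have : Continuous fun κ : ℝ => κ * b := by fun_prop
    exact mem_nhdsWithin_of_mem_nhds (this.continuousAt.eventually_lt continuousAt_const (by simpa))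
  have e4 : ∀ᶠ κ in 𝓝[>] (0 : ℝ), -(2 * (κ * Real.log κ)) - κ * c₁ + κ * c₂ < η := by
    have : Continuous fun κ : ℝ => -(2 * (κ * Real.log κ)) - κ * c₁ + κ * c₂ := by fun_prop
    exact mem_nhdsWithin_of_mem_nhds (this.continuousAt.eventually_lt continuousAt_const (by simpa))
  have e5 : ∀ᶠ κ in 𝓝[>] (0 : ℝ), 0 < κ := self_mem_nhdsWithin
  obtain ⟨κ, h1, h2, h3, h4, h5⟩ := (e1.and (e2.and (e3.and (e4.and e5)))).exists
  exact ⟨κ, h5, h1, h2, h3, h4.le⟩

theorem entr_eq {Λ : Set ℂ} {S : Set ℂ} (hSΛ : S ⊆ Λ) {L : ℝ} {q : ℂ → ℝ} (h : Pd S L q) :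
    entr Λ q = - Real.log (volume Λ).toReal - Ent q := by
  rw [entr, Ent, setIntegral_eq_integral_of_forall_compl_eq_zero]
  intro x hx
  rw [h.zero x fun h' => hx (hSΛ h')]
  simp

theorem taskW : TaskW := by
  intro Λ g D C₃ cL CB hK ρ₁ ρ₂ Q c r L ε hε hN hen η hη
  have hD := hK.one_le
  have hΛm : MeasurableSet Λ := hK.isOpen.measurableSet
  have hQm : MeasurableSet Q := hN.compact.measurableSet
  have hQf : volume Q ≠ ⊤ := hN.compact.measure_lt_top.ne
  have hr := hN.rpos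
  have hball : closedBall c r ⊆ Λ := (closedBall_subset_closedBall (by linarith)).trans hN.inside
  have p1 : Pd Q L ρ₁ := ⟨hN.m₁, hN.nonneg₁, hN.le₁, hN.zero₁, by
    rw [← hN.one₁]
    exact (setIntegral_eq_integral_of_forall_compl_eq_zero fun x hx =>
      hN.zero₁ x fun h' => hx (hN.subset h')).symm⟩
  have p2 : Pd Q L ρ₂ := ⟨hN.m₂, hN.nonneg₂, hN.le₂, hN.zero₂, by
    rw [← hN.one₂]
    exact (setIntegral_eq_integral_of_forall_compl_eq_zero fun x hx =>
      hN.zero₂ x fun h' => hx (hN.subset h')).symm⟩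
  have hVQ := pd_vol_pos hQm hQf p1
  have pμ := unif_pd hQm hVQ
  obtain ⟨l, hl⟩ := lip_exists hK hN.compact hN.subset hr hN.inside hN.disj
  have hl0 := hl.pos
  set r₀ : ℝ := min r (1 / (32 * l)) with hr₀
  have hr₀0 : 0 < r₀ := lt_min hr (by positivity)
  have hr₀r : r₀ ≤ r := min_le_left _ _
  have hr₀l : l * r₀ ≤ 1 / 32 := by
    have : r₀ ≤ 1 / (32 * l) := min_le_right _ _
    calc l * r₀ ≤ l * (1 / (32 * l)) := by gcongr
      _ = 1 / 32 := by field_simp
  -- distances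
  have hfar : ∀ x ∈ closedBall c r, ∀ y ∈ Q, r ≤ ‖x - y‖ := by
    intro x hx y hy
    have h3 : 2 * r ≤ dist y c := by
      by_contra hlt
      exact (Set.disjoint_left.1 hN.disj hy) (by simpa using hlt)
    have h4 : dist x c ≤ r := hx
    have h5 := dist_triangle_left y c x
    rw [dist_eq_norm x y] at h5
    linarith
  set A11 := Bf Λ g ρ₁ ρ₁ with hA11
  set A12 := Bf Λ g ρ₁ ρ₂ with hA12
  set A22 := Bf Λ g ρ₂ ρ₂ with hA22
  set A33 := Bf Λ g (unifW Q) (unifW Q) with hA33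
  have n11 : 0 ≤ A11 := Bf_nonneg hK p1.nonneg p1.nonneg
  have n12 : 0 ≤ A12 := Bf_nonneg hK p1.nonneg p2.nonneg
  have n33 : 0 ≤ A33 := Bf_nonneg hK pμ.nonneg pμ.nonneg
  -- the energy in terms of the form
  have hen' : 4 * ε < 1 / 2 * (A11 - 2 * A12 + A22) := by
    rw [en_eq_Bf hK p1.meas p2.meas p1.abs_le p2.abs_le] at hen
    have h1 := Bf_bilin hK ![ρ₁, ρ₂] (L := L) (by
        intro a; fin_cases a
        · exact p1.meas
        · exact p2.meas) (by
        intro a; fin_cases a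
        · exact p1.abs_le
        · exact p2.abs_le) ![1, -1] ![1, -1]
    simp only [Fin.sum_univ_two, Matrix.cons_val_zero, Matrix.cons_val_one, one_mul, neg_mul,
      ← sub_eq_add_neg, mul_neg, mul_one] at h1
    rw [h1, Bf_symm hK ρ₂ ρ₁] at hen
    have h2 : A11 - A12 + (- A12 + A22) = A11 - 2 * A12 + A22 := by ring
    simp only [hA11, hA12, hA22] at *
    linarith
  obtain ⟨κ, hκ0, hκ1, k1, k2, k3⟩ := w_choose (a := D / r + A11)
    (b := 3 * D / r₀ + A33 / 2 + 1 / 4) (b' := 4 * ε) (c₁ := Real.log (Real.pi * r₀ ^ 2) + Ent ρ₁)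
    (c₂ := 2) (G := 1 / 2 * (A11 - 2 * A12 + A22) - 4 * ε) (η := η) (by linarith) (by linarith) hη
  set r' : ℝ := κ * r₀ with hr'
  have hr'0 : 0 < r' := by positivity
  have hr'r : r' ≤ r := by nlinarith
  have hlr : l * r' ≤ κ / 32 := by
    have : l * r' = κ * (l * r₀) := by rw [hr']; ring
    rw [this]
    calc κ * (l * r₀) ≤ κ * (1 / 32) := by gcongr
      _ = κ / 32 := by ring
  have hballr : closedBall c r' ⊆ Λ := (closedBall_subset_closedBall hr'r).trans hball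
  have hvol : volume.real (closedBall c r') = Real.pi * r' ^ 2 := by
    simp [Measure.real, Complex.volume_closedBall, hr'0.le]; ring
  have hVB : 0 < volume.real (closedBall c r') := by rw [hvol]; positivity
  have pu := unif_pd (isClosed_closedBall (x := c) (ε := r')).measurableSet hVB
  set u := unifW (closedBall c r') with hu
  -- a common bound
  set L' : ℝ := L + (volume.real Q)⁻¹ + (volume.real (closedBall c r'))⁻¹ with hL'
  have L0 := p1.L_nonneg
  have i1 : 0 < (volume.real Q)⁻¹ := by positivity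
  have i2 : 0 < (volume.real (closedBall c r'))⁻¹ := by positivity
  have P1 : Pd Q L' ρ₁ := p1.mono subset_rfl (by linarith)
  have P2 : Pd Q L' ρ₂ := p2.mono subset_rfl (by linarith)
  have Pμ : Pd Q L' (unifW Q) := pμ.mono subset_rfl (by linarith)
  have Pu : Pd (closedBall c r') L' u := pu.mono subset_rfl (by linarith)
  set A00 := Bf Λ g u u with hA00
  set A01 := Bf Λ g u ρ₁ with hA01
  set A02 := Bf Λ g u ρ₂ with hA02
  set A03 := Bf Λ g u (unifW Q) with hA03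
  set A13 := Bf Λ g ρ₁ (unifW Q) with hA13
  set A23 := Bf Λ g ρ₂ (unifW Q) with hA23
  have n00 : 0 ≤ A00 := Bf_nonneg hK Pu.nonneg Pu.nonneg
  have n01 : 0 ≤ A01 := Bf_nonneg hK Pu.nonneg P1.nonneg
  have n03 : 0 ≤ A03 := Bf_nonneg hK Pu.nonneg Pμ.nonneg
  have b02 : A02 ≤ D / r := Bf_far hK hr (fun x hx y hy =>
    hfar x (closedBall_subset_closedBall hr'r hx) y hy) Pu P2 hballr hN.subset
  have b00 : A00 ≤ 6 * D / r' := Bf_self hK hr'0 hballr
  -- the base functions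
  set f : Fin 4 → ℂ → ℝ := ![u, ρ₁, ρ₂, unifW Q] with hf
  have fm : ∀ a, Measurable (f a) := by
    intro a; fin_cases a
    · exact Pu.meas
    · exact P1.meas
    · exact P2.meas
    · exact Pμ.meas
  have fL : ∀ a x, |f a x| ≤ L' := by
    intro a; fin_cases a
    · exact Pu.abs_le
    · exact P1.abs_le
    · exact P2.abs_le
    · exact Pμ.abs_le
  -- densities
  set q : ℝ → Fin 3 → ℂ → ℝ := fun s => ![u, mixW s ρ₁ (unifW Q), mixW s ρ₂ (unifW Q)] with hq
  set X : ℝ → Fin 4 → ℝ := fun s => ![κ, (1 - κ) * (1 - s), -(1 - s), -(κ * s)] with hX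
  set ψ : ℝ → ℝ := fun s => ∑ a, ∑ b, X s a * X s b * Bf Λ g (f a) (f b) with hψ
  have hψq : ∀ s ∈ Icc (0 : ℝ) 1,
      Qf (fun a b => Bf Λ g (q s a) (q s b)) ![κ, 1 - κ, -1] = ψ s := by
    intro s hs
    have M1 := mix_pd P1 Pμ hs
    have M2 := mix_pd P2 Pμ hs
    have h1 := Bf_bilin hK (q s) (L := L') (by
        intro a; fin_cases a
        · exact Pu.meas
        · exact M1.meas
        · exact M2.meas) (by
        intro a; fin_cases a
        · exact Pu.abs_le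
        · exact M1.abs_le
        · exact M2.abs_le) ![κ, 1 - κ, -1] ![κ, 1 - κ, -1]
    have h2 := Bf_bilin hK f (L := L') fm fL (X s) (X s)
    rw [Qf, ← h1, hψ]
    simp only
    rw [← h2]
    have e : (fun z => ∑ a, (![κ, 1 - κ, -1] : Fin 3 → ℝ) a * q s a z) =
        fun z => ∑ b, X s b * f b z := by
      funext z
      simp only [Fin.sum_univ_three, Fin.sum_univ_four, hq, hX, hf, mixW, Matrix.cons_val_zero,
        Matrix.cons_val_one, Matrix.cons_val]
      ring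
    rw [e]
  have hψc : Continuous ψ := by
    have hXc : ∀ a, Continuous fun s => X s a := by
      intro a; fin_cases a
      · exact continuous_const
      · show Continuous fun s : ℝ => (1 - κ) * (1 - s)
        fun_prop
      · show Continuous fun s : ℝ => -(1 - s)
        fun_prop
      · show Continuous fun s : ℝ => -(κ * s)
        fun_prop
    exact continuous_finsetSum _ fun a _ => continuous_finsetSum _ fun b _ =>
      ((hXc a).mul (hXc b)).mul continuous_const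
  have hψ0 : 4 * ε - κ ^ 2 / 4 ≤ 1 / 2 * ψ 0 := by
    have e : ψ 0 = κ ^ 2 * A00 + 2 * (κ * (1 - κ)) * A01 - 2 * κ * A02 + (1 - κ) ^ 2 * A11 -
        2 * (1 - κ) * A12 + A22 := by
      simp only [hψ, Fin.sum_univ_four, hX, hf, Matrix.cons_val_zero,
        Matrix.cons_val_one, Matrix.cons_val]
      rw [Bf_symm hK ρ₁ u, Bf_symm hK ρ₂ u, Bf_symm hK ρ₂ ρ₁]
      simp only [hA00, hA01, hA02, hA11, hA12, hA22]
      ring
    rw [e]
    have h1 : 0 ≤ κ ^ 2 * A00 := by positivity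
    have h2 : 0 ≤ κ * (1 - κ) * A01 := mul_nonneg (mul_nonneg hκ0.le (by linarith)) n01
    have h3 : 0 ≤ κ * A12 := by positivity
    have h4 : 0 ≤ κ ^ 2 * A11 := by positivity
    have h5 : κ * A02 ≤ κ * (D / r) := by gcongr
    have h6 : 0 ≤ κ ^ 2 / 4 := by positivity
    linarith
  have hψ1 : 1 / 2 * ψ 1 ≤ 4 * ε - κ ^ 2 / 4 := by
    have e : ψ 1 = κ ^ 2 * (A00 - 2 * A03 + A33) := by
      simp only [hψ, Fin.sum_univ_four, hX, hf, Matrix.cons_val_zero,
        Matrix.cons_val_one, Matrix.cons_val]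
      rw [Bf_symm hK (unifW Q) u]
      simp only [hA00, hA03, hA33]
      ring
    rw [e]
    have h1 : κ ^ 2 * A00 ≤ κ * (6 * D / r₀) := by
      calc κ ^ 2 * A00 ≤ κ ^ 2 * (6 * D / r') := by gcongr
        _ = κ * (6 * D / r₀) := by rw [hr']; field_simp
    have h2 : κ ^ 2 * A33 ≤ κ * A33 := by
      have : κ ^ 2 ≤ κ := by nlinarith
      gcongr
    have h3 : 0 ≤ κ ^ 2 * A03 := by positivity
    have h4 : κ ^ 2 / 4 ≤ κ / 4 := by nlinarith
    have h5 : κ * (3 * D / r₀ + A33 / 2 + 1 / 4) = 1 / 2 * (κ * (6 * D / r₀)) + κ * A33 / 2 + κ / 4 := by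
      ring
    linarith
  obtain ⟨s, hs, hsψ⟩ := intermediate_value_Icc' (zero_le_one (α := ℝ))
    ((hψc.const_mul (1 / 2)).continuousOn) (show 4 * ε - κ ^ 2 / 4 ∈ Icc ((1 / 2 : ℝ) * ψ 1)
      (1 / 2 * ψ 0) from ⟨hψ1, hψ0⟩)
  have M1 := mix_pd P1 Pμ hs
  have M2 := mix_pd P2 Pμ hs
  have hmean : 1 / 2 * Qf (fun a b => Bf Λ g (q s a) (q s b)) ![κ, 1 - κ, -1] =
      4 * ε - κ ^ 2 / 4 := by
    rw [hψq s hs]; exact hsψ
  obtain ⟨M₀, hM₀⟩ := w_core hK hN.compact hN.subset hball hl hκ0 hκ1 hr'0 hr'r hlr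
    (q := q s) Pu M1 M2 hmean hη
  refine ⟨M₀, ?_⟩
  intro M hM E hE δ hδ0 hδ1
  refine le_trans ?_ (hM₀ M hM E hE δ hδ0 hδ1)
  -- the volume of Λ
  have hΛ0 : 0 < (volume Λ).toReal :=
    ENNReal.toReal_pos (hK.isOpen.measure_pos volume hK.nonempty).ne' (ker_vol_lt_top hK).ne
  have hΛpow : (volume Λ) ^ (2 * M) =
      ENNReal.ofReal (Real.exp (2 * M * Real.log (volume Λ).toReal)) := by
    have h1 : Real.exp (2 * M * Real.log (volume Λ).toReal) = (volume Λ).toReal ^ (2 * M) := by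
      rw [show (2 * (M : ℝ)) * Real.log (volume Λ).toReal =
        ((2 * M : ℕ) : ℝ) * Real.log (volume Λ).toReal by push_cast; ring, Real.exp_nat_mul,
        Real.exp_log hΛ0]
    rw [h1, ENNReal.ofReal_pow hΛ0.le, ENNReal.ofReal_toReal (ker_vol_lt_top hK).ne]
  rw [hΛpow, ← ENNReal.ofReal_mul (by positivity)]
  refine ENNReal.ofReal_le_ofReal ?_
  rw [mul_assoc, ← Real.exp_add]
  refine mul_le_mul_of_nonneg_left ?_ hδ0.le
  rw [Real.exp_le_exp, entr_eq hN.subset p1, entr_eq hN.subset p2]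
  have e0 : Ent (q s 0) = - (2 * Real.log κ + Real.log (Real.pi * r₀ ^ 2)) := by
    show Ent u = _
    rw [hu, unif_ent isClosed_closedBall.measurableSet hVB, hvol]
    congr 1
    rw [hr', show Real.pi * (κ * r₀) ^ 2 = κ ^ 2 * (Real.pi * r₀ ^ 2) by ring,
      Real.log_mul (by positivity) (by positivity), Real.log_pow]
    push_cast; ring
  have e1 : Ent (q s 1) ≤ Ent ρ₁ := ent_mix_le hQm hQf P1 Pμ hs
  have e2 : Ent (q s 2) ≤ Ent ρ₂ := ent_mix_le hQm hQf P2 Pμ hs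
  have h1 : (1 - κ) * Ent (q s 1) ≤ (1 - κ) * Ent ρ₁ :=
    mul_le_mul_of_nonneg_left e1 (by linarith)
  have h2 : κ * Ent (q s 0) + (1 - κ) * Ent (q s 1) + Ent (q s 2) + 2 * κ + η ≤
      Ent ρ₁ + Ent ρ₂ + 2 * η := by
    rw [e0]
    linarith
  have hM0 : (0 : ℝ) ≤ M := Nat.cast_nonneg M
  have h3 := mul_le_mul_of_nonneg_left h2 hM0
  linarith

end Pool.Agent.H836_PV
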