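import Pool.Agent.H836_PV.Pa
import Pool.Agent.H836_PV.Pb
import Pool.Agent.H836_PV.Pc
import Pool.Agent.H836_PV.Pd
import Pool.Agent.H836_PV.Pe
import Pool.Agent.H836_PV.Pe1
import Pool.Agent.H836_PV.Pf
import Pool.Agent.H836_PV.Pg
import Pool.Agent.H836_PV.Ph
import Pool.Agent.H836_PV.V1
import Pool.Agent.H836_PV.V2
import Pool.Agent.H836_PV.V3
import Pool.Agent.H836_PV.V4
import Pool.Agent.H836_PV.S0
import Pool.Agent.H836_PV.S1
import Pool.Agent.H836_PV.S2
import Pool.Agent.H836_PV.S3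
import Pool.Agent.H836_PV.W
import Pool.Agent.H836_PV.U1c
import Pool.Agent.H836_PV.U2
import Pool.Agent.H836_PV.Um
import Pool.Agent.H836_PV.U
import Pool.Agent.H836_PV.TS
import Pool.Agent.H836_PV.Df1
import Pool.Agent.H836_PV.Df2
import Pool.Agent.H836_PV.Df3
import Pool.Agent.H836_PV.Df4
import Pool.Agent.H836_PV.Df
import Pool.Agent.H836_PV.B1
import Pool.Agent.H836_PV.B2
import Pool.Agent.H836_PV.B3
import Pool.Agent.H836_PV.Mu
import Pool.Agent.H836_PV.Fa
import Pool.Agent.H836_PV.Fb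
import Pool.Agent.H836_PV.Fe
import Pool.Agent.H836_PV.Fd
import Pool.Agent.H836_PV.Fg

/-!
# Assembly of all tasks
-/

namespace Pool.Agent.H836_PV

theorem allP : TaskP :=
  taskPh taskPa taskPb taskPc (taskPd taskPa taskPb taskPc) taskPe taskPe1 taskPf taskPg

theorem allU : TaskU := taskU (taskUm taskU1) taskU2

theorem allV4 : TaskV4 := taskV4 taskV1 taskV2 taskV3 taskS1

theorem allS2 : TaskS2 := taskS2 taskS0 taskV3

theorem allTS : TaskTS := taskTS allU allV4 allS2 (taskS3 taskS1 taskS0) taskW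

theorem allDf2 : TaskDf2 := taskDf2 taskDf1

theorem allDf3 : TaskDf3 := taskDf3 (taskUm taskU1) taskU2

theorem allDf : TaskDf := taskDf allU allDf2 allDf3 taskDf4

theorem allB1 : TaskB1 := taskB1 allU allV4 allS2 allTS

theorem allB2 : TaskB2 := taskB2 allB1

theorem allFa : TaskFa := taskFa allTS allDf allDf2 allDf3 taskDf4 allU taskMu

theorem allFb : TaskFb := taskFb allB2 allB1 taskB3 allS2

theorem allFd : TaskFd := taskFd allB1 taskS1

end Pool.Agent.H836_PV
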