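import Mathlib

/-!
# Point vortices: the strict microcanonical ensemble (MP_fa244c_mp). Definitions.
-/

open MeasureTheory Filter Topology Set Metric

namespace Pool.Agent.H836_PV

/-! ### Public definitions (used in the final statement) -/

/-- The boundary of `Λ` is covered by finitely many Lipschitz arcs (so in particular every piecewise
`C¹` boundary is allowed). -/
def PwRegular (Λ : Set ℂ) : Prop :=
  ∃ (n : ℕ) (γ : Fin n → ℝ → ℂ),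
    (∀ i, ∃ K : NNReal, LipschitzOnWith K (γ i) (Icc 0 1)) ∧
    frontier Λ ⊆ ⋃ i, γ i '' Icc 0 1

/-- The vortex domain: open, connected (and nonempty), bounded, piecewise regular boundary. -/
structure Dom (Λ : Set ℂ) : Prop where
  isOpen : IsOpen Λ
  connected : IsConnected Λ
  bounded : Bornology.IsBounded Λ
  regular : PwRegular Λ

/-- `G` is the Green's function of `Λ`: `-Δ G(·, y) = 2π δ_y` in `Λ` and `G(·, y) = 0` on the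
boundary. That is: `G(x, y) + log |x - y|` extends to a harmonic function of `x ∈ Λ`, and
`G(x, y) → 0` when `x` tends to a boundary point. -/
structure IsGreen (Λ : Set ℂ) (G : ℂ → ℂ → ℝ) : Prop where
  harmonic : ∀ y ∈ Λ, ∃ u : ℂ → ℝ, InnerProductSpace.HarmonicOnNhd u Λ ∧
    ∀ x ∈ Λ, x ≠ y → G x y = u x - Real.log ‖x - y‖
  boundary : ∀ y ∈ Λ, ∀ ξ ∈ frontier Λ, Tendsto (fun x => G x y) (𝓝[Λ] ξ) (𝓝 0)

/-- `G^*`: the Green's function off the diagonal, the Robin function on the diagonal. -/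
noncomputable def Gstar (G : ℂ → ℂ → ℝ) (x y : ℂ) : ℝ := by
  classical
  exact if x = y then limUnder (𝓝[≠] x) (fun z => G x z + Real.log ‖x - z‖) else G x y

/-- Configurations of `M` positive (`inl`) and `M` negative (`inr`) vortices. -/
abbrev Conf (M : ℕ) := Fin M ⊕ Fin M → ℂ

/-- Circulations. -/
def circ (M : ℕ) : Fin M ⊕ Fin M → ℝ := Sum.elim (fun _ => 1) (fun _ => -1)

/-- The Hamiltonian. -/
noncomputable def energy (G : ℂ → ℂ → ℝ) {M : ℕ} (x : Conf M) : ℝ :=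
  1 / 2 * ∑ i, ∑ j, circ M i * circ M j * Gstar G (x i) (x j)

/-- The phase volume `Φ_Λ(E, N)` with `N = 2M`. -/
noncomputable def Phi (Λ : Set ℂ) (G : ℂ → ℂ → ℝ) (M : ℕ) (E : ℝ) : ℝ :=
  (volume {x : Conf M | (∀ i, x i ∈ Λ) ∧ energy G x < E}).toReal

/-- Probability densities on `Λ` with finite entropy. -/
structure IsDens (Λ : Set ℂ) (ρ : ℂ → ℝ) : Prop where
  nonneg : ∀ x ∈ Λ, 0 ≤ ρ x
  integrable : IntegrableOn ρ Λ
  integral : ∫ x in Λ, ρ x = 1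
  entropy : IntegrableOn (fun x => ρ x * Real.log (ρ x)) Λ

/-- `𝒮(ρ) = - log |Λ| - ∫_Λ ρ log ρ`. -/
noncomputable def entr (Λ : Set ℂ) (ρ : ℂ → ℝ) : ℝ :=
  - Real.log (volume Λ).toReal - ∫ x in Λ, ρ x * Real.log (ρ x)

/-- `½ ∬ G ω ω`, `ω = ρ₁ - ρ₂`. -/
noncomputable def en (Λ : Set ℂ) (G : ℂ → ℂ → ℝ) (ρ₁ ρ₂ : ℂ → ℝ) : ℝ :=
  1 / 2 * ∫ x in Λ, ∫ y in Λ, G x y * (ρ₁ x - ρ₂ x) * (ρ₁ y - ρ₂ y)

/-- admissible pairs for the variational problem -/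
def Adm (Λ : Set ℂ) (G : ℂ → ℂ → ℝ) (ε : ℝ) (ρ₁ ρ₂ : ℂ → ℝ) : Prop :=
  IsDens Λ ρ₁ ∧ IsDens Λ ρ₂ ∧ en Λ G ρ₁ ρ₂ = 4 * ε

/-- `s_Λ(ε)` -/
noncomputable def sL (Λ : Set ℂ) (G : ℂ → ℂ → ℝ) (ε : ℝ) : ℝ :=
  sSup {s | ∃ ρ₁ ρ₂, Adm Λ G ε ρ₁ ρ₂ ∧ s = 1 / 2 * (entr Λ ρ₁ + entr Λ ρ₂)}

/-- maximizing pairs -/
def IsMaxPair (Λ : Set ℂ) (G : ℂ → ℂ → ℝ) (ε : ℝ) (ρ₁ ρ₂ : ℂ → ℝ) : Prop :=
  Adm Λ G ε ρ₁ ρ₂ ∧ ∀ σ₁ σ₂, Adm Λ G ε σ₁ σ₂ →
    1 / 2 * (entr Λ σ₁ + entr Λ σ₂) ≤ 1 / 2 * (entr Λ ρ₁ + entr Λ ρ₂)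

/-- configurations in `Λ` -/
def cf (Λ : Set ℂ) (ι : Type) : Set (ι → ℂ) := {x | ∀ i, x i ∈ Λ}

/-- the vortices with labels `a` (positive) and `b` (negative) -/
def pick {M p r : ℕ} (a : Fin p → Fin M) (b : Fin r → Fin M) (x : Conf M) : Fin p ⊕ Fin r → ℂ :=
  Sum.elim (fun i => x (Sum.inl (a i))) (fun j => x (Sum.inr (b j)))

/-- the integral of `f` against the product of `p` copies of `ρ₁` and `r` copies of `ρ₂` -/
noncomputable def prodInt (Λ : Set ℂ) {p r : ℕ} (f : (Fin p ⊕ Fin r → ℂ) → ℝ) (ρ₁ ρ₂ : ℂ → ℝ) : ℝ :=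
  ∫ y in cf Λ (Fin p ⊕ Fin r), f y * (∏ i, ρ₁ (y (Sum.inl i))) * ∏ j, ρ₂ (y (Sum.inr j))

/-- `μ` is the microcanonical measure `μ^(N,E) = Φ'(E)⁻¹ δ(E - H) dx₁ … dx_N` on `Λ^N`, `N = 2 M`: a
probability measure carried by `Λ^N` such that for every bounded continuous function `F` on `Λ^N`
`d/dt ∫_{H < t} F dx = Φ'(E) ∫ F dμ` at `t = E`, where `Φ'(E) > 0`. -/
structure IsMicro (Λ : Set ℂ) (G : ℂ → ℂ → ℝ) (M : ℕ) (E : ℝ) (μ : Measure (Conf M)) : Prop where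
  prob : IsProbabilityMeasure μ
  supp : μ {x | ∃ i, x i ∉ Λ} = 0
  pos : 0 < deriv (Phi Λ G M) E
  hasDerivAt : ∀ F : Conf M → ℝ, ContinuousOn F {x | ∀ i, x i ∈ Λ} →
    (∃ C, ∀ x, (∀ i, x i ∈ Λ) → |F x| ≤ C) →
    HasDerivAt (fun t => ∫ x in {x : Conf M | (∀ i, x i ∈ Λ) ∧ energy G x < t}, F x)
      (deriv (Phi Λ G M) E * ∫ x, F x ∂μ) E

/-- The marginals of `μ k` (a measure on the configurations of `M k` positive and `M k` negative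
vortices) converge weakly, for every number `p` of positive and `r` of negative vortices (whatever
their labels), to those of one mixture (law `Θ`) of infinite product measures of maximizing
pairs. -/
def MixConv (Λ : Set ℂ) (G : ℂ → ℂ → ℝ) (ε : ℝ) (M : ℕ → ℕ) (μ : ∀ k, Measure (Conf (M k))) :
    Prop :=
  ∃ (Z : Type) (_ : MeasurableSpace Z) (Θ : Measure Z) (ρ₁ ρ₂ : Z → ℂ → ℝ),
    IsProbabilityMeasure Θ ∧ (∀ z, IsMaxPair Λ G ε (ρ₁ z) (ρ₂ z)) ∧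
    ∀ (p r : ℕ) (f : (Fin p ⊕ Fin r → ℂ) → ℝ), ContinuousOn f {y | ∀ i, y i ∈ Λ} →
      (∃ C, ∀ y, (∀ i, y i ∈ Λ) → |f y| ≤ C) →
      Measurable (fun z => prodInt Λ f (ρ₁ z) (ρ₂ z)) ∧
      ∀ (a : ∀ k, Fin p → Fin (M k)) (b : ∀ k, Fin r → Fin (M k)),
        (∀ᶠ k in atTop, Function.Injective (a k)) → (∀ᶠ k in atTop, Function.Injective (b k)) →
        Tendsto (fun k => ∫ x, f (pick (a k) (b k) x) ∂(μ k)) atTop
          (𝓝 (∫ z, prodInt Λ f (ρ₁ z) (ρ₂ z) ∂Θ))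

end Pool.Agent.H836_PV
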