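import Pool.Agent.H836_PV.StmtsB

/-!
# The microcanonical measure, and the statements of the final tasks
-/

open MeasureTheory Filter Topology Set Metric

namespace Pool.Agent.H836_PV

/-! ### Tasks -/

/-- TASK Mu: existence of the microcanonical measure, abstract form. -/
def TaskMu : Prop := ∀ (ι : Type) [Fintype ι] [DecidableEq ι] (R : Set (ι → ℂ))
  (H : (ι → ℂ) → ℝ), IsOpen R → volume R ≠ ⊤ → Measurable H → ∀ E : ℝ,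
  (∀ κ : ℝ, 0 < κ → ∃ Q : Set (ι → ℂ), IsCompact Q ∧ Q ⊆ R ∧ ∀ δ : ℝ, 0 < δ →
    volume {x | x ∈ R ∧ x ∉ Q ∧ E ≤ H x ∧ H x < E + δ} ≤ ENNReal.ofReal (κ * δ)) →
  (∀ F : (ι → ℂ) → ℝ, ContinuousOn F R → (∃ C, ∀ x ∈ R, |F x| ≤ C) →
    DifferentiableAt ℝ (fun t => ∫ x in {x | x ∈ R ∧ H x < t}, F x) E) →
  0 < deriv (fun t => (volume {x | x ∈ R ∧ H x < t}).toReal) E →
  ∃ μ : Measure (ι → ℂ), IsProbabilityMeasure μ ∧ μ Rᶜ = 0 ∧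
    ∀ F : (ι → ℂ) → ℝ, ContinuousOn F R → (∃ C, ∀ x ∈ R, |F x| ≤ C) →
      HasDerivAt (fun t => ∫ x in {x | x ∈ R ∧ H x < t}, F x)
        (deriv (fun t => (volume {x | x ∈ R ∧ H x < t}).toReal) E * ∫ x, F x ∂μ) E

/-- TASK Fc: from subsequences to the case of a unique maximizing pair (pure measure theory).
`ρ₁, ρ₂` are bounded-mass densities: only integrability is used. -/
def TaskFc : Prop := ∀ (Λ : Set ℂ) (ρ₁ ρ₂ : ℂ → ℝ), IsOpen Λ → IsDens Λ ρ₁ → IsDens Λ ρ₂ →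
  ∀ μ : ∀ M : ℕ, Measure (Conf M), (∀ᶠ M in atTop, IsProbabilityMeasure (μ M)) →
  (∀ᶠ M in atTop, μ M {x | ∃ i, x i ∉ Λ} = 0) →
  (∀ (p r : ℕ) (f : (Fin p ⊕ Fin r → ℂ) → ℝ), ContinuousOn f {y | ∀ i, y i ∈ Λ} →
      (∃ C, ∀ y, (∀ i, y i ∈ Λ) → |f y| ≤ C) →
      ∀ κ : ℝ, 0 < κ → ∀ᶠ M in atTop, ∀ (a : Fin p → Fin M) (b : Fin r → Fin M),
        Function.Injective a → Function.Injective b →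
        |(∫ x, f (pick a b x) ∂(μ M)) - prodInt Λ f ρ₁ ρ₂| ≤ κ) →
  ∀ f : ℂ → ℝ, ContinuousOn f Λ → (∃ C, ∀ z ∈ Λ, |f z| ≤ C) → ∀ κ : ℝ, 0 < κ →
    Tendsto (fun M => μ M {x | κ ≤ |1 / (M : ℝ) * ∑ j, f (x (Sum.inl j)) -
      ∫ z in Λ, f z * ρ₁ z|}) atTop (𝓝 0) ∧
    Tendsto (fun M => μ M {x | κ ≤ |1 / (M : ℝ) * ∑ j, f (x (Sum.inr j)) -
      ∫ z in Λ, f z * ρ₂ z|}) atTop (𝓝 0)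

/-- TASK Fa: the microcanonical measure exists and (a) (uses TS, Df, Df3, Mu). -/
def TaskFa : Prop := ∀ (Λ : Set ℂ) (G g : ℂ → ℂ → ℝ) (D C₃ cL CB : ℝ), Ker Λ g D C₃ cL CB →
  (∀ x ∈ Λ, ∀ y ∈ Λ, Gstar G x y = K g x y) → ∀ ε : ℝ, 0 < ε →
  (∀ᶠ M : ℕ in atTop, (∀ E, DifferentiableAt ℝ (Phi Λ G M) E) ∧
    ∃! μ : Measure (Conf M), IsMicro Λ G M ((2 * (M : ℝ)) ^ 2 * ε) μ) ∧
  Tendsto (fun M : ℕ => 1 / (2 * (M : ℝ)) *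
    Real.log (deriv (Phi Λ G M) ((2 * (M : ℝ)) ^ 2 * ε) / (volume Λ).toReal ^ (2 * M)))
    atTop (𝓝 (sL Λ (K g) ε))

/-- TASK Fb: (b) (uses B2, B3, S2; existence of a maximizing pair is given) -/
def TaskFb : Prop := ∀ (Λ : Set ℂ) (G g : ℂ → ℂ → ℝ) (D C₃ cL CB : ℝ), Ker Λ g D C₃ cL CB →
  (∀ x ∈ Λ, ∀ y ∈ Λ, Gstar G x y = K g x y) → ∀ ε : ℝ, 0 < ε →
  (∃ ρ₁ ρ₂, IsMaxPair Λ (K g) ε ρ₁ ρ₂) →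
  ∀ μ : ∀ M : ℕ, Measure (Conf M),
  (∀ᶠ M : ℕ in atTop, IsMicro Λ G M ((2 * (M : ℝ)) ^ 2 * ε) (μ M)) →
  ∀ N : ℕ → ℕ, (∀ k, 0 < N k) → Tendsto N atTop atTop →
    ∃ φ : ℕ → ℕ, StrictMono φ ∧ MixConv Λ (K g) ε (N ∘ φ) (fun k => μ (N (φ k)))

/-- TASK Fd: exponential concentration of the empirical densities at the set of maximizing pairs
(uses B1, S1) -/
def TaskFd : Prop := ∀ (Λ : Set ℂ) (G g : ℂ → ℂ → ℝ) (D C₃ cL CB : ℝ), Ker Λ g D C₃ cL CB →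
  (∀ x ∈ Λ, ∀ y ∈ Λ, Gstar G x y = K g x y) → ∀ ε : ℝ, 0 < ε →
  (∃ ρ₁ ρ₂, IsMaxPair Λ (K g) ε ρ₁ ρ₂) →
  ∀ μ : ∀ M : ℕ, Measure (Conf M),
  (∀ᶠ M : ℕ in atTop, IsMicro Λ G M ((2 * (M : ℝ)) ^ 2 * ε) (μ M)) →
  ∀ (L : ℕ) (f : Fin L → ℂ → ℝ), (∀ l, ContinuousOn (f l) Λ) →
  (∀ l, ∃ C, ∀ z ∈ Λ, |f l z| ≤ C) → ∀ κ : ℝ, 0 < κ → ∃ c : ℝ, 0 < c ∧
    ∀ᶠ M : ℕ in atTop, μ M {x | ¬ ∃ ρ₁ ρ₂, IsMaxPair Λ (K g) ε ρ₁ ρ₂ ∧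
      ∀ l, |1 / (M : ℝ) * ∑ j, f l (x (Sum.inl j)) - ∫ z in Λ, f l z * ρ₁ z| < κ ∧
        |1 / (M : ℝ) * ∑ j, f l (x (Sum.inr j)) - ∫ z in Λ, f l z * ρ₂ z| < κ} ≤
      ENNReal.ofReal (Real.exp (-(c * M)))

/-- TASK Fe: the maximizing pair is unique up to exchanging the two densities -/
def TaskFe : Prop := ∀ (Λ : Set ℂ) (G g : ℂ → ℂ → ℝ) (D C₃ cL CB : ℝ), Ker Λ g D C₃ cL CB →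
  (∀ x ∈ Λ, ∀ y ∈ Λ, Gstar G x y = K g x y) → ∀ ε : ℝ, 0 < ε →
  ∀ μ : ∀ M : ℕ, Measure (Conf M),
  (∀ᶠ M : ℕ in atTop, IsMicro Λ G M ((2 * (M : ℝ)) ^ 2 * ε) (μ M)) →
  (∀ N : ℕ → ℕ, (∀ k, 0 < N k) → Tendsto N atTop atTop →
    ∃ φ : ℕ → ℕ, StrictMono φ ∧ MixConv Λ (K g) ε (N ∘ φ) (fun k => μ (N (φ k)))) →
  ∀ ρ₁ ρ₂, IsMaxPair Λ (K g) ε ρ₁ ρ₂ →
  (∀ σ₁ σ₂, IsMaxPair Λ (K g) ε σ₁ σ₂ →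
    ((∀ᵐ z ∂volume.restrict Λ, σ₁ z = ρ₁ z) ∧ (∀ᵐ z ∂volume.restrict Λ, σ₂ z = ρ₂ z)) ∨
    ((∀ᵐ z ∂volume.restrict Λ, σ₁ z = ρ₂ z) ∧ (∀ᵐ z ∂volume.restrict Λ, σ₂ z = ρ₁ z))) →
  ∀ (p r : ℕ) (f : (Fin p ⊕ Fin r → ℂ) → ℝ), ContinuousOn f {y | ∀ i, y i ∈ Λ} →
    (∃ C, ∀ y, (∀ i, y i ∈ Λ) → |f y| ≤ C) → ∀ κ : ℝ, 0 < κ →
    ∀ᶠ M : ℕ in atTop, ∀ (a : Fin p → Fin M) (b : Fin r → Fin M),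
      Function.Injective a → Function.Injective b →
      |(∫ x, f (pick a b x) ∂(μ M)) -
        1 / 2 * (prodInt Λ f ρ₁ ρ₂ + prodInt Λ f ρ₂ ρ₁)| ≤ κ

/-- TASK Fg: the whole sequence of marginals is close to finite convex combinations -/
def TaskFg : Prop := ∀ (Λ : Set ℂ) (G : ℂ → ℂ → ℝ) (ε : ℝ), IsOpen Λ →
  ∀ μ : ∀ M : ℕ, Measure (Conf M),
  (∀ N : ℕ → ℕ, (∀ k, 0 < N k) → Tendsto N atTop atTop →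
    ∃ φ : ℕ → ℕ, StrictMono φ ∧ MixConv Λ G ε (N ∘ φ) (fun k => μ (N (φ k)))) →
  ∀ (L : ℕ) (p r : Fin L → ℕ) (f : ∀ l, (Fin (p l) ⊕ Fin (r l) → ℂ) → ℝ),
  (∀ l, ContinuousOn (f l) {y | ∀ i, y i ∈ Λ}) →
  (∀ l, ∃ C, ∀ y, (∀ i, y i ∈ Λ) → |f l y| ≤ C) → ∀ κ : ℝ, 0 < κ →
  ∀ᶠ M : ℕ in atTop, ∃ (n : ℕ) (w : Fin n → ℝ) (ρ₁ ρ₂ : Fin n → ℂ → ℝ), (∀ i, 0 ≤ w i) ∧
    ∑ i, w i = 1 ∧ (∀ i, IsMaxPair Λ G ε (ρ₁ i) (ρ₂ i)) ∧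
    ∀ l, ∀ (a : Fin (p l) → Fin M) (b : Fin (r l) → Fin M), Function.Injective a →
      Function.Injective b →
      |(∫ x, f l (pick a b x) ∂(μ M)) - ∑ i, w i * prodInt Λ (f l) (ρ₁ i) (ρ₂ i)| ≤ κ

end Pool.Agent.H836_PV
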