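/-
TASK Fb of project PV (MP_fa244c_mp, owner helper836), by helper293.
-/
import Pool.Agent.H836_PV.StmtsF

open MeasureTheory Filter Topology Set Metric

namespace Pool.Agent.H836_PV

section Fb

variable {Λ : Set ℂ} {g : ℂ → ℂ → ℝ} {D C₃ cL CB : ℝ}

theorem Fb_cf_eq (Λ : Set ℂ) (ι : Type) : cf Λ ι = Set.pi univ (fun _ => Λ) := by
  ext x
  exact ⟨fun h i _ => h i, fun h i => h i trivial⟩

theorem Fb_cf_open (h : IsOpen Λ) (ι : Type) [Fintype ι] : IsOpen (cf Λ ι) := by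
  rw [Fb_cf_eq]
  exact isOpen_set_pi finite_univ fun _ _ => h

theorem Fb_cf_vol (hK : Ker Λ g D C₃ cL CB) (ι : Type) [Fintype ι] :
    volume (cf Λ ι) ≠ ⊤ := by
  have hlt : volume Λ < ⊤ :=
    lt_of_le_of_lt (measure_mono (fun x hx => by simpa using hK.norm_le x hx : Λ ⊆ closedBall 0 D))
      measure_closedBall_lt_top
  rw [Fb_cf_eq, volume_pi_pi, Finset.prod_const]
  exact ENNReal.pow_ne_top hlt.ne

/-- a measurable extension of the Hamiltonian -/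
theorem Fb_Ham (hK : Ker Λ g D C₃ cL CB) (M : ℕ) : ∃ H : Conf M → ℝ, Measurable H ∧
    ∀ x ∈ cf Λ (Fin M ⊕ Fin M), Ham g (circ M) x = H x := by
  classical
  have hΛ0 : MeasurableSet Λ := hK.isOpen.measurableSet
  have hΛ : MeasurableSet (Λ ×ˢ Λ) := hΛ0.prod hΛ0
  have h1 : Measurable ((Λ ×ˢ Λ).indicator (fun p : ℂ × ℂ => g p.1 p.2)) := by
    rw [← Set.piecewise_eq_indicator]
    exact ContinuousOn.measurable_piecewise hK.smooth.continuousOn continuousOn_const hΛ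
  have h2 : Measurable (fun p : ℂ × ℂ => Real.log ‖p.1 - p.2‖) := by fun_prop
  refine ⟨fun x => 1 / 2 * ∑ i, ∑ j, circ M i * circ M j *
    ((Λ ×ˢ Λ).indicator (fun p : ℂ × ℂ => g p.1 p.2) (x i, x j) - Real.log ‖x i - x j‖), ?_, ?_⟩
  · refine Measurable.const_mul (Finset.measurable_fun_sum _ fun i _ =>
      Finset.measurable_fun_sum _ fun j _ => Measurable.const_mul ?_ _) _
    have hp : Measurable fun x : Conf M => (x i, x j) :=
      (measurable_pi_apply i).prodMk (measurable_pi_apply j)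
    exact (h1.comp hp).sub (h2.comp hp)
  · intro x hx
    unfold Ham K
    congr 1
    refine Finset.sum_congr rfl fun i _ => Finset.sum_congr rfl fun j _ => ?_
    rw [Set.indicator_of_mem (show (x i, x j) ∈ Λ ×ˢ Λ from ⟨hx i, hx j⟩)]

/-- the sublevel sets -/
def FbS (Λ : Set ℂ) (g : ℂ → ℂ → ℝ) (M : ℕ) (t : ℝ) : Set (Conf M) :=
  {x : Conf M | x ∈ cf Λ _ ∧ Ham g (circ M) x < t}

theorem Fb_meas (hK : Ker Λ g D C₃ cL CB) (M : ℕ) (t : ℝ) : MeasurableSet (FbS Λ g M t) := by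
  obtain ⟨H, hH, e⟩ := Fb_Ham hK M
  have : FbS Λ g M t = cf Λ (Fin M ⊕ Fin M) ∩ {x | H x < t} := by
    ext x
    constructor
    · rintro ⟨h1, h2⟩
      exact ⟨h1, by rw [e x h1] at h2; exact h2⟩
    · rintro ⟨h1, h2⟩
      exact ⟨h1, by rw [e x h1]; exact h2⟩
  rw [this]
  exact (Fb_cf_open hK.isOpen _).measurableSet.inter (measurableSet_lt hH measurable_const)

theorem Fb_shell (M : ℕ) (E δ : ℝ) (hδ : 0 < δ) :
    shell Λ g M E δ = FbS Λ g M (E + δ) \ FbS Λ g M E := by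
  ext x
  constructor
  · rintro ⟨h1, h2, h3⟩
    exact ⟨⟨h1, h3⟩, fun h => not_lt.2 h2 h.2⟩
  · rintro ⟨⟨h1, h2⟩, h3⟩
    exact ⟨h1, not_lt.1 fun h => h3 ⟨h1, h⟩, h2⟩

theorem Fb_int (hK : Ker Λ g D C₃ cL CB) {ι : Type} [Fintype ι] {F : (ι → ℂ) → ℝ}
    (hF : ContinuousOn F (cf Λ ι)) (hb : ∃ C, ∀ x ∈ cf Λ ι, |F x| ≤ C) :
    IntegrableOn F (cf Λ ι) := by
  obtain ⟨C, hC⟩ := hb
  have hm := (Fb_cf_open hK.isOpen ι).measurableSet
  refine ⟨hF.aestronglyMeasurable hm, HasFiniteIntegral.restrict_of_bounded (C := C)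
    (Fb_cf_vol hK ι).lt_top ?_⟩
  filter_upwards [ae_restrict_mem hm] with x hx
  exact hC x hx

theorem Fb_int_mu (hK : Ker Λ g D C₃ cL CB) {ι : Type} [Fintype ι] {μ : Measure (ι → ℂ)}
    [IsProbabilityMeasure μ] (hμ : μ {x | ∃ i, x i ∉ Λ} = 0) {F : (ι → ℂ) → ℝ}
    (hF : ContinuousOn F (cf Λ ι)) (hb : ∃ C, ∀ x ∈ cf Λ ι, |F x| ≤ C) : Integrable F μ := by
  obtain ⟨C, hC⟩ := hb
  have hm := (Fb_cf_open hK.isOpen ι).measurableSet
  have hae : ∀ᵐ x ∂μ, x ∈ cf Λ ι := by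
    rw [ae_iff]
    refine measure_mono_null (fun x hx => ?_) hμ
    by_contra h
    apply hx
    intro i
    by_contra hi
    exact h ⟨i, hi⟩
  have hr : μ.restrict (cf Λ ι) = μ := Measure.restrict_eq_self_of_ae_mem hae
  have h1 : AEStronglyMeasurable F μ := by
    have := hF.aestronglyMeasurable (μ := μ) hm
    rwa [hr] at this
  refine Integrable.of_bound h1 C ?_
  filter_upwards [hae] with x hx
  exact hC x hx

theorem Fb_ae {ι : Type} {μ : Measure (ι → ℂ)} (hμ : μ {x | ∃ i, x i ∉ Λ} = 0) :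
    ∀ᵐ x ∂μ, x ∈ cf Λ ι := by
  rw [ae_iff]
  refine measure_mono_null (fun x hx => ?_) hμ
  by_contra h
  apply hx
  intro i
  by_contra hi
  exact h ⟨i, hi⟩

/-- the derivative in terms of the sets `FbS` -/
theorem Fb_deriv {G : ℂ → ℂ → ℝ} (hG : ∀ x ∈ Λ, ∀ y ∈ Λ, Gstar G x y = K g x y) {M : ℕ} {E : ℝ}
    {μ : Measure (Conf M)} (hμ : IsMicro Λ G M E μ) {F : Conf M → ℝ}
    (hF : ContinuousOn F (cf Λ _)) (hb : ∃ C, ∀ x ∈ cf Λ _, |F x| ≤ C) :
    HasDerivAt (fun t => ∫ x in FbS Λ g M t, F x) (deriv (Phi Λ G M) E * ∫ x, F x ∂μ) E := by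
  have h := hμ.hasDerivAt F hF hb
  have e : ∀ t, {x : Conf M | (∀ i, x i ∈ Λ) ∧ energy G x < t} = FbS Λ g M t := by
    intro t
    ext x
    have : ∀ hx : (∀ i, x i ∈ Λ), energy G x = Ham g (circ M) x := by
      intro hx
      unfold energy Ham
      congr 1
      refine Finset.sum_congr rfl fun i _ => Finset.sum_congr rfl fun j _ => ?_
      rw [hG _ (hx i) _ (hx j)]
    constructor
    · rintro ⟨h1, h2⟩
      exact ⟨h1, by rw [this h1] at h2; exact h2⟩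
    · rintro ⟨h1, h2⟩
      exact ⟨h1, by rw [this h1]; exact h2⟩
  simp only [e] at h
  exact h

theorem Fb_one (ι : Type) : ∃ C, ∀ x ∈ cf Λ ι, |(fun _ : ι → ℂ => (1 : ℝ)) x| ≤ C :=
  ⟨1, fun _ _ => by simp⟩

/-- means over thin shells converge to the integral against the microcanonical measure -/
theorem Fb_ratio (hK : Ker Λ g D C₃ cL CB) {G : ℂ → ℂ → ℝ}
    (hG : ∀ x ∈ Λ, ∀ y ∈ Λ, Gstar G x y = K g x y) {M : ℕ} {E : ℝ}
    {μ : Measure (Conf M)} (hμ : IsMicro Λ G M E μ) {F : Conf M → ℝ}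
    (hF : ContinuousOn F (cf Λ _)) (hb : ∃ C, ∀ x ∈ cf Λ _, |F x| ≤ C) {κ : ℝ} (hκ : 0 < κ) :
    ∀ᶠ δ in 𝓝[>] (0 : ℝ), 0 < (volume (shell Λ g M E δ)).toReal ∧
      |(∫ x in shell Λ g M E δ, F x) - (volume (shell Λ g M E δ)).toReal * ∫ x, F x ∂μ| ≤
        κ * (volume (shell Λ g M E δ)).toReal := by
  have hprob := hμ.prob
  set A := ∫ x, F x ∂μ with hA
  set c := deriv (Phi Λ G M) E with hc
  have hc0 : 0 < c := hμ.pos
  have h1 := Fb_deriv hG hμ hF hb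
  have h2 := Fb_deriv hG hμ (F := fun _ => (1 : ℝ)) continuousOn_const (Fb_one _)
  rw [← hc, ← hA] at h1
  rw [← hc, integral_const, probReal_univ, one_smul, mul_one] at h2
  have h3 : HasDerivAt (fun t => (∫ x in FbS Λ g M t, F x) - A * ∫ x in FbS Λ g M t, (1 : ℝ)) 0 E := by
    have := h1.sub (h2.const_mul A)
    rwa [show c * A - A * c = 0 by ring] at this
  have l2 := h2.tendsto_slope_zero_right
  have l3 := h3.tendsto_slope_zero_right
  have ev2 : ∀ᶠ δ in 𝓝[>] (0 : ℝ), c / 2 < δ⁻¹ • ((∫ x in FbS Λ g M (E + δ), (1 : ℝ)) -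
      ∫ x in FbS Λ g M E, (1 : ℝ)) := l2.eventually_const_lt (by linarith)
  have ev3 := (Metric.tendsto_nhds.1 l3) (κ * (c / 2)) (by positivity)
  filter_upwards [ev2, ev3, self_mem_nhdsWithin] with δ e2 e3 hδ
  have hδ0 : 0 < δ := hδ
  rw [Real.dist_eq, sub_zero, smul_eq_mul, abs_mul, abs_of_pos (inv_pos.2 hδ0),
    inv_mul_lt_iff₀ hδ0] at e3
  rw [smul_eq_mul, lt_inv_mul_iff₀ hδ0] at e2
  have hsub : FbS Λ g M E ⊆ FbS Λ g M (E + δ) := fun x hx => ⟨hx.1, by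
    have := hx.2
    show Ham g (circ M) x < E + δ
    linarith⟩
  have hi : ∀ F' : Conf M → ℝ, ContinuousOn F' (cf Λ _) → (∃ C, ∀ x ∈ cf Λ _, |F' x| ≤ C) →
      ∫ x in shell Λ g M E δ, F' x = (∫ x in FbS Λ g M (E + δ), F' x) - ∫ x in FbS Λ g M E, F' x := by
    intro F' hF' hb'
    rw [Fb_shell M E δ hδ0]
    exact setIntegral_sdiff (Fb_meas hK M E) ((Fb_int hK hF' hb').mono_set fun x hx => hx.1) hsub
  have hV : (volume (shell Λ g M E δ)).toReal =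
      (∫ x in FbS Λ g M (E + δ), (1 : ℝ)) - ∫ x in FbS Λ g M E, (1 : ℝ) := by
    rw [← hi (fun _ => 1) continuousOn_const (Fb_one _)]
    simp [Measure.real]
  rw [hi F hF hb, hV]
  constructor
  · have : 0 < δ * (c / 2) := by positivity
    linarith
  · have h5 : (∫ x in FbS Λ g M (E + δ), F x) - (∫ x in FbS Λ g M E, F x) -
        ((∫ x in FbS Λ g M (E + δ), (1 : ℝ)) - ∫ x in FbS Λ g M E, (1 : ℝ)) * A =
        (∫ x in FbS Λ g M (E + δ), F x) - A * (∫ x in FbS Λ g M (E + δ), (1 : ℝ)) -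
        ((∫ x in FbS Λ g M E, F x) - A * ∫ x in FbS Λ g M E, (1 : ℝ)) := by ring
    rw [h5]
    refine e3.le.trans ?_
    nlinarith

/-- the permutation of the coordinates -/
noncomputable def FbT {ι : Type} (e : ι ≃ ι) : (ι → ℂ) ≃ᵐ (ι → ℂ) :=
  MeasurableEquiv.arrowCongr' e.symm (MeasurableEquiv.refl ℂ)

theorem FbT_apply {ι : Type} (e : ι ≃ ι) (x : ι → ℂ) : FbT e x = x ∘ e := by
  funext i
  rfl

theorem FbT_mp {ι : Type} [Fintype ι] (e : ι ≃ ι) :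
    MeasurePreserving (FbT e) (volume : Measure (ι → ℂ)) volume :=
  volume_preserving_arrowCongr' e.symm (MeasurableEquiv.refl ℂ) (MeasurePreserving.id _)

theorem Fb_cf_comp {ι κ : Type} (e : κ → ι) {x : ι → ℂ} (hx : x ∈ cf Λ ι) :
    (fun k => x (e k)) ∈ cf Λ κ := fun k => hx (e k)

/-- invariance under permutations of the labels of the vortices of the same sign -/
theorem Fb_inv {G : ℂ → ℂ → ℝ}
    (hG : ∀ x ∈ Λ, ∀ y ∈ Λ, Gstar G x y = K g x y) {M : ℕ} {E : ℝ}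
    {μ : Measure (Conf M)} (hμ : IsMicro Λ G M E μ) {F : Conf M → ℝ}
    (hF : ContinuousOn F (cf Λ _)) (hb : ∃ C, ∀ x ∈ cf Λ _, |F x| ≤ C)
    (e : Fin M ⊕ Fin M ≃ Fin M ⊕ Fin M) (he : ∀ i, circ M (e i) = circ M i) :
    ∫ x, F (x ∘ e) ∂μ = ∫ x, F x ∂μ := by
  have hc : Continuous fun x : Conf M => x ∘ e :=
    continuous_pi fun i => continuous_apply (e i)
  have hmap : MapsTo (fun x : Conf M => x ∘ e) (cf Λ _) (cf Λ _) := fun x hx i => hx (e i)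
  have hF' : ContinuousOn (fun x : Conf M => F (x ∘ e)) (cf Λ _) := hF.comp hc.continuousOn hmap
  have hb' : ∃ C, ∀ x ∈ cf Λ _, |F (x ∘ e)| ≤ C := by
    obtain ⟨C, hC⟩ := hb
    exact ⟨C, fun x hx => hC _ (hmap hx)⟩
  have h1 := Fb_deriv hG hμ hF hb
  have h2 := Fb_deriv hG hμ hF' hb'
  have hHam : ∀ x : Conf M, Ham g (circ M) (x ∘ e) = Ham g (circ M) x := by
    intro x
    unfold Ham
    congr 1
    rw [← Equiv.sum_comp e (fun i => ∑ j, circ M i * circ M j * K g (x i) (x j))]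
    refine Finset.sum_congr rfl fun i _ => ?_
    rw [← Equiv.sum_comp e (fun j => circ M (e i) * circ M j * K g (x (e i)) (x j))]
    refine Finset.sum_congr rfl fun j _ => ?_
    rw [he, he]
    rfl
  have hpre : ∀ t, FbT e ⁻¹' FbS Λ g M t = FbS Λ g M t := by
    intro t
    ext x
    rw [mem_preimage, FbT_apply]
    constructor
    · rintro ⟨h1, h2⟩
      rw [hHam] at h2
      refine ⟨fun i => ?_, h2⟩
      have := h1 (e.symm i)
      simpa using this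
    · rintro ⟨h1, h2⟩
      exact ⟨hmap h1, by rw [hHam]; exact h2⟩
  have h3 : (fun t => ∫ x in FbS Λ g M t, F (x ∘ e)) = fun t => ∫ x in FbS Λ g M t, F x := by
    funext t
    have := (FbT_mp e).setIntegral_preimage_emb (FbT e).measurableEmbedding F (FbS Λ g M t)
    rw [hpre] at this
    simpa only [FbT_apply] using this
  rw [h3] at h2
  exact mul_left_cancel₀ hμ.pos.ne' (h2.unique h1)

theorem Fb_pick_cont {M p r : ℕ} (a : Fin p → Fin M) (b : Fin r → Fin M) :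
    Continuous fun x : Conf M => pick a b x := by
  refine continuous_pi fun i => ?_
  rcases i with i | i
  · exact continuous_apply (Sum.inl (a i))
  · exact continuous_apply (Sum.inr (b i))

theorem Fb_pick_mem {M p r : ℕ} (a : Fin p → Fin M) (b : Fin r → Fin M) {x : Conf M}
    (hx : x ∈ cf Λ _) : pick a b x ∈ cf Λ (Fin p ⊕ Fin r) := by
  rintro (i | i)
  · exact hx _
  · exact hx _

theorem Fb_perm {M p : ℕ} (a a₀ : Fin p → Fin M) (ha : Function.Injective a)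
    (ha₀ : Function.Injective a₀) : ∃ σ : Equiv.Perm (Fin M), ∀ i, σ (a₀ i) = a i := by
  have h := Equiv.Perm.isMultiplyPretransitive (Fin M) p
  obtain ⟨σ, hσ⟩ := h.exists_smul_eq (⟨a₀, ha₀⟩ : Fin p ↪ Fin M) ⟨a, ha⟩
  refine ⟨σ, fun i => ?_⟩
  have := congrArg (fun f : Fin p ↪ Fin M => f i) hσ
  exact this

/-- the marginals do not depend on the labels -/
theorem Fb_labels {G : ℂ → ℂ → ℝ}
    (hG : ∀ x ∈ Λ, ∀ y ∈ Λ, Gstar G x y = K g x y) {M : ℕ} {E : ℝ}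
    {μ : Measure (Conf M)} (hμ : IsMicro Λ G M E μ) {p r : ℕ} {f : (Fin p ⊕ Fin r → ℂ) → ℝ}
    (hF : ContinuousOn f (cf Λ _)) (hb : ∃ C, ∀ x ∈ cf Λ _, |f x| ≤ C)
    (a a₀ : Fin p → Fin M) (b b₀ : Fin r → Fin M) (ha : Function.Injective a)
    (ha₀ : Function.Injective a₀) (hbi : Function.Injective b) (hb₀ : Function.Injective b₀) :
    ∫ x, f (pick a b x) ∂μ = ∫ x, f (pick a₀ b₀ x) ∂μ := by
  obtain ⟨σ, hσ⟩ := Fb_perm a a₀ ha ha₀
  obtain ⟨τ, hτ⟩ := Fb_perm b b₀ hbi hb₀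
  have hF' : ContinuousOn (fun x : Conf M => f (pick a₀ b₀ x)) (cf Λ _) :=
    hF.comp (Fb_pick_cont a₀ b₀).continuousOn fun x hx => Fb_pick_mem a₀ b₀ hx
  have hb' : ∃ C, ∀ x ∈ cf Λ (Fin M ⊕ Fin M), |f (pick a₀ b₀ x)| ≤ C := by
    obtain ⟨C, hC⟩ := hb
    exact ⟨C, fun x hx => hC _ (Fb_pick_mem a₀ b₀ hx)⟩
  have h := Fb_inv hG hμ hF' hb' (Equiv.sumCongr σ τ) (by rintro (i | i) <;> rfl)
  rw [← h]
  congr 1
  funext x
  congr 1
  funext i
  rcases i with i | i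
  · show x (Sum.inl (a i)) = x (Sum.inl (σ (a₀ i)))
    rw [hσ]
  · show x (Sum.inr (b i)) = x (Sum.inr (τ (b₀ i)))
    rw [hτ]

theorem Fb_max_sL {G : ℂ → ℂ → ℝ} {ε : ℝ} {ρ₁ ρ₂ : ℂ → ℝ} (h : IsMaxPair Λ G ε ρ₁ ρ₂) :
    sL Λ G ε ≤ 1 / 2 * (entr Λ ρ₁ + entr Λ ρ₂) := by
  unfold sL
  refine csSup_le ⟨_, ρ₁, ρ₂, h.1, rfl⟩ ?_
  rintro s ⟨σ₁, σ₂, hσ, rfl⟩
  exact h.2 σ₁ σ₂ hσ

theorem Fb_bdd (hK : Ker Λ g D C₃ cL CB) {ι : Type} [Fintype ι] {f : (ι → ℂ) → ℝ}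
    (hf : Continuous f) : ∃ C, ∀ x ∈ cf Λ ι, |f x| ≤ C := by
  have hD : 0 ≤ D := le_trans zero_le_one hK.one_le
  obtain ⟨C, hC⟩ := (isCompact_closedBall (0 : ι → ℂ) D).exists_bound_of_continuousOn
    hf.continuousOn
  refine ⟨C, fun x hx => hC x ?_⟩
  rw [mem_closedBall_zero_iff, pi_norm_le_iff_of_nonneg hD]
  exact fun i => hK.norm_le _ (hx i)

/-- the marginals for the first labels -/
noncomputable def FbM (μ : ∀ M : ℕ, Measure (Conf M)) (N : ℕ → ℕ) (k p r : ℕ)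
    (f : (Fin p ⊕ Fin r → ℂ) → ℝ) : ℝ :=
  if h : p ≤ N k ∧ r ≤ N k then ∫ x, f (pick (Fin.castLE h.1) (Fin.castLE h.2) x) ∂(μ (N k)) else 0

theorem FbM_eq (μ : ∀ M : ℕ, Measure (Conf M)) (N : ℕ → ℕ) {k p r : ℕ}
    (f : (Fin p ⊕ Fin r → ℂ) → ℝ) (h1 : p ≤ N k) (h2 : r ≤ N k) :
    FbM μ N k p r f = ∫ x, f (pick (Fin.castLE h1) (Fin.castLE h2) x) ∂(μ (N k)) := by
  unfold FbM
  rw [dif_pos ⟨h1, h2⟩]

end Fb

theorem taskFb (hB2 : TaskB2) (hB1 : TaskB1) (hB3 : TaskB3) (hS2 : TaskS2) : TaskFb := by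
  intro Λ G g D C₃ cL CB hK hG ε hε hmax μ hμ N hN0 hN
  have hμN : ∀ᶠ k in atTop, IsMicro Λ G (N k) ((2 * (N k : ℝ)) ^ 2 * ε) (μ (N k)) :=
    hN.eventually hμ
  have hle : ∀ p : ℕ, ∀ᶠ k in atTop, p ≤ N k := fun p => hN.eventually_ge_atTop p
  -- integrability
  have hint : ∀ {M p r : ℕ} {E : ℝ} (h : IsMicro Λ G M E (μ M)) (a : Fin p → Fin M)
      (b : Fin r → Fin M) (f : (Fin p ⊕ Fin r → ℂ) → ℝ), ContinuousOn f (cf Λ _) →
      (∃ C, ∀ y ∈ cf Λ _, |f y| ≤ C) → Integrable (fun x => f (pick a b x)) (μ M) := by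
    intro M p r E h a b f hf hb
    have := h.prob
    refine Fb_int_mu hK h.supp
      (hf.comp (Fb_pick_cont a b).continuousOn fun x hx => Fb_pick_mem a b hx) ?_
    obtain ⟨C, hC⟩ := hb
    exact ⟨C, fun x hx => hC _ (Fb_pick_mem a b hx)⟩
  obtain ⟨φ, hφ, Z, mZ, Θ, ρ₁, ρ₂, hΘ, hρ, hlim⟩ := hB3 Λ g D C₃ cL CB hK ε hε hmax
    (by
      intro ρ₁ ρ₂ h
      refine (hS2 Λ g D C₃ cL CB hK ε hε).1 ρ₁ ρ₂ (fun n => (h n).1.1) (fun n => (h n).1.2.1) ?_ ?_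
      · intro e he
        refine Eventually.of_forall fun n => ?_
        rw [(h n).1.2.2]
        linarith
      · intro t ht
        exact Eventually.of_forall fun n => ht.le.trans (Fb_max_sL (h n)))
    (FbM μ N)
    (by
      intro p r
      filter_upwards [hμN, hle p, hle r] with k hk hp hr
      intro f₁ f₂ c₁ c₂ b₁ b₂
      have i₁ := hint hk (Fin.castLE hp) (Fin.castLE hr) f₁ c₁ b₁
      have i₂ := hint hk (Fin.castLE hp) (Fin.castLE hr) f₂ c₂ b₂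
      have hprob := hk.prob
      refine ⟨?_, ?_, ?_⟩
      · rw [FbM_eq μ N _ hp hr, FbM_eq μ N _ hp hr, FbM_eq μ N _ hp hr]
        exact integral_add i₁ i₂
      · intro c
        rw [FbM_eq μ N _ hp hr, FbM_eq μ N _ hp hr]
        exact integral_const_mul c _
      · intro hle'
        rw [FbM_eq μ N _ hp hr, FbM_eq μ N _ hp hr]
        refine integral_mono_ae i₁ i₂ ?_
        filter_upwards [Fb_ae hk.supp] with x hx
        exact hle' _ (Fb_pick_mem _ _ hx))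
    (by
      intro p r
      filter_upwards [hμN, hle p, hle r] with k hk hp hr
      have hprob := hk.prob
      rw [FbM_eq μ N _ hp hr]
      simp)
    (by
      intro L p r f hf κ hκ
      obtain ⟨M₀, hM₀⟩ := hB2 Λ g D C₃ cL CB hK ε hε hmax L p r f hf (κ / 2) (by positivity)
      have h1 : ∀ᶠ k in atTop, ∀ l, p l ≤ N k := eventually_all.2 fun l => hle (p l)
      have h2 : ∀ᶠ k in atTop, ∀ l, r l ≤ N k := eventually_all.2 fun l => hle (r l)
      filter_upwards [hμN, h1, h2, hle M₀] with k hk hp hr hM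
      have hev : ∀ᶠ δ in 𝓝[>] (0 : ℝ), ∀ l, 0 < (volume (shell Λ g (N k)
          ((2 * (N k : ℝ)) ^ 2 * ε) δ)).toReal ∧
          |(∫ x in shell Λ g (N k) ((2 * (N k : ℝ)) ^ 2 * ε) δ,
            f l (pick (Fin.castLE (hp l)) (Fin.castLE (hr l)) x)) -
            (volume (shell Λ g (N k) ((2 * (N k : ℝ)) ^ 2 * ε) δ)).toReal *
              ∫ x, f l (pick (Fin.castLE (hp l)) (Fin.castLE (hr l)) x) ∂(μ (N k))| ≤
            κ / 2 * (volume (shell Λ g (N k) ((2 * (N k : ℝ)) ^ 2 * ε) δ)).toReal := by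
        refine eventually_all.2 fun l => ?_
        refine Fb_ratio hK hG hk ((hf l).comp (Fb_pick_cont _ _)).continuousOn ?_ (by positivity)
        obtain ⟨C, hC⟩ := Fb_bdd hK (hf l)
        exact ⟨C, fun x hx => hC _ (Fb_pick_mem _ _ hx)⟩
      have hev2 : ∀ᶠ δ in 𝓝[>] (0 : ℝ), δ ≤ 1 :=
        mem_nhdsWithin_of_mem_nhds (Iic_mem_nhds zero_lt_one)
      obtain ⟨δ, hδ, hδ1, hδ0⟩ := (hev.and (hev2.and self_mem_nhdsWithin)).exists
      obtain ⟨n, w, ρ₁, ρ₂, w1, w2, w3, w4⟩ := hM₀ (N k) hM ((2 * (N k : ℝ)) ^ 2 * ε)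
        (by rw [sub_self, abs_zero]; exact zero_le_one) δ hδ0 hδ1
      refine ⟨n, w, ρ₁, ρ₂, w1, w2, w3, fun l => ?_⟩
      obtain ⟨v1, v2⟩ := hδ l
      have v3 := w4 l (Fin.castLE (hp l)) (Fin.castLE (hr l)) (Fin.castLE_injective _)
        (Fin.castLE_injective _)
      rw [FbM_eq μ N _ (hp l) (hr l)]
      set V := (volume (shell Λ g (N k) ((2 * (N k : ℝ)) ^ 2 * ε) δ)).toReal with hV
      set I := ∫ x in shell Λ g (N k) ((2 * (N k : ℝ)) ^ 2 * ε) δ,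
            f l (pick (Fin.castLE (hp l)) (Fin.castLE (hr l)) x) with hI
      set A := ∫ x, f l (pick (Fin.castLE (hp l)) (Fin.castLE (hr l)) x) ∂(μ (N k)) with hA
      set S := ∑ i, w i * prodInt Λ (f l) (ρ₁ i) (ρ₂ i) with hS
      have h5 : V * |A - S| ≤ V * κ := by
        rw [← abs_of_pos v1, ← abs_mul, abs_of_pos v1]
        have : V * (A - S) = (I - V * S) - (I - V * A) := by ring
        rw [this]
        refine (abs_sub _ _).trans ?_
        calc |I - V * S| + |I - V * A| ≤ κ / 2 * V + κ / 2 * V := add_le_add v3 v2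
          _ = V * κ := by ring
      exact le_of_mul_le_mul_left h5 v1)
  refine ⟨φ, hφ, Z, mZ, Θ, ρ₁, ρ₂, hΘ, hρ, ?_⟩
  intro p r f hf hb
  obtain ⟨hm, ht⟩ := hlim p r f hf hb
  refine ⟨hm, fun a b ha hbi => ?_⟩
  refine ht.congr' ?_
  have hμφ : ∀ᶠ k in atTop, IsMicro Λ G (N (φ k)) ((2 * (N (φ k) : ℝ)) ^ 2 * ε) (μ (N (φ k))) :=
    hφ.tendsto_atTop.eventually hμN
  filter_upwards [ha, hbi, hμφ] with k hak hbk hk
  have hp : p ≤ N (φ k) := by
    have := Fintype.card_le_of_injective _ hak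
    simpa using this
  have hr : r ≤ N (φ k) := by
    have := Fintype.card_le_of_injective _ hbk
    simpa using this
  show FbM μ N (φ k) p r f = _
  rw [FbM_eq μ N _ hp hr]
  exact Fb_labels hG hk hf hb _ _ _ _ (Fin.castLE_injective _) hak (Fin.castLE_injective _) hbk

end Pool.Agent.H836_PV
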