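import Pool.Agent.H836_PV.StmtsF

open MeasureTheory Filter Topology Set Metric

namespace Pool.Agent.H836_PV

/-- product integrals -/
theorem fc_prod {ι : Type} [Fintype ι] (Λ : Set ℂ) (hΛ : MeasurableSet Λ) (h : ι → ℂ → ℝ) :
    ∫ y in cf Λ ι, ∏ i, h i (y i) = ∏ i, ∫ x in Λ, h i x := by
  classical
  have hcf : MeasurableSet (cf Λ ι) := by
    have : cf Λ ι = ⋂ i, (fun y : ι → ℂ => y i) ⁻¹' Λ := by
      ext y
      simp [cf]
    rw [this]
    exact MeasurableSet.iInter fun i => (measurable_pi_apply i) hΛ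
  rw [← integral_indicator hcf]
  have : (cf Λ ι).indicator (fun y => ∏ i, h i (y i)) = fun y => ∏ i, Λ.indicator (h i) (y i) := by
    funext y
    by_cases hy : y ∈ cf Λ ι
    · rw [indicator_of_mem hy]
      exact Finset.prod_congr rfl fun i _ => (indicator_of_mem (hy i) _).symm
    · rw [indicator_of_notMem hy]
      have hne : ∃ i, y i ∉ Λ := by
        by_contra hh
        push Not at hh
        exact hy hh
      obtain ⟨i, hi⟩ := hne
      exact (Finset.prod_eq_zero (Finset.mem_univ i) (indicator_of_notMem hi _)).symm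
  rw [this, integral_fintype_prod_volume_eq_prod]
  exact Finset.prod_congr rfl fun i _ => integral_indicator hΛ

theorem fc_prodInt {p r : ℕ} (Λ : Set ℂ) (hΛ : MeasurableSet Λ) (F : (Fin p ⊕ Fin r → ℂ) → ℝ)
    (f : ℂ → ℝ) (ρ₁ ρ₂ : ℂ → ℝ) (hF : ∀ y, F y = (∏ i, f (y (Sum.inl i))) * ∏ j, f (y (Sum.inr j))) :
    prodInt Λ F ρ₁ ρ₂ = (∫ x in Λ, f x * ρ₁ x) ^ p * (∫ x in Λ, f x * ρ₂ x) ^ r := by
  have h := fc_prod (ι := Fin p ⊕ Fin r) Λ hΛ
    (Sum.elim (fun _ x => f x * ρ₁ x) (fun _ x => f x * ρ₂ x))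
  rw [Fintype.prod_sum_type] at h
  simp only [Sum.elim_inl, Sum.elim_inr, Finset.prod_const, Finset.card_univ, Fintype.card_fin] at h
  rw [← h]
  unfold prodInt
  congr 1
  funext y
  rw [Fintype.prod_sum_type, hF]
  simp only [Sum.elim_inl, Sum.elim_inr, Finset.prod_mul_distrib]
  ring

/-- second moment bound -/
theorem fc_lln {Ω : Type*} [MeasurableSpace Ω] (μ : Measure Ω) [IsProbabilityMeasure μ] (M : ℕ)
    (hM : 0 < M) (X : Fin M → Ω → ℝ) (hX : ∀ j, Measurable (X j)) (C : ℝ)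
    (hC : ∀ j x, |X j x| ≤ C) (m δ : ℝ) (h1 : ∀ j, |(∫ x, X j x ∂μ) - m| ≤ δ)
    (h2 : ∀ j k, j ≠ k → |(∫ x, X j x * X k x ∂μ) - m ^ 2| ≤ δ) (κ : ℝ) (hκ : 0 < κ) :
    κ ^ 2 * μ.real {x | κ ≤ |1 / (M : ℝ) * ∑ j, X j x - m|} ≤ δ + C ^ 2 / M + 2 * |m| * δ := by
  have hM' : (0 : ℝ) < M := by exact_mod_cast hM
  have hδ : 0 ≤ δ := (abs_nonneg _).trans (h1 ⟨0, hM⟩)
  have hi1 : ∀ j, Integrable (X j) μ := fun j =>
    Integrable.of_bound (hX j).aestronglyMeasurable C (Eventually.of_forall fun x => hC j x)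
  have hi2 : ∀ j k, Integrable (fun x => X j x * X k x) μ := fun j k =>
    Integrable.of_bound ((hX j).mul (hX k)).aestronglyMeasurable (C * C)
      (Eventually.of_forall fun x => by
        rw [Real.norm_eq_abs, abs_mul]
        exact mul_le_mul (hC j x) (hC k x) (abs_nonneg _) ((abs_nonneg _).trans (hC j x)))
  have e1 : ∀ x, (1 / (M : ℝ) * ∑ j, X j x - m) ^ 2 =
      (1 / (M : ℝ) ^ 2) * (∑ j, ∑ k, X j x * X k x) + ((-(2 * m / M)) * (∑ j, X j x) + m ^ 2) := by
    intro x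
    rw [← Finset.sum_mul_sum]
    field_simp
    ring
  have hs1 : Integrable (fun x => ∑ j, X j x) μ := integrable_finsetSum _ fun j _ => hi1 j
  have hs2 : Integrable (fun x => ∑ j, ∑ k, X j x * X k x) μ :=
    integrable_finsetSum _ fun j _ => integrable_finsetSum _ fun k _ => hi2 j k
  have hr : Integrable (fun x => (-(2 * m / M)) * (∑ j, X j x) + m ^ 2) μ :=
    (hs1.const_mul _).add (integrable_const _)
  have hsq : Integrable (fun x => (1 / (M : ℝ) * ∑ j, X j x - m) ^ 2) μ := by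
    simp only [e1]
    exact (hs2.const_mul _).add hr
  have e2 : ∫ x, (1 / (M : ℝ) * ∑ j, X j x - m) ^ 2 ∂μ =
      (1 / (M : ℝ) ^ 2) * (∑ j, ∑ k, ∫ x, X j x * X k x ∂μ) +
        ((-(2 * m / M)) * (∑ j, ∫ x, X j x ∂μ) + m ^ 2) := by
    simp only [e1]
    rw [integral_add (hs2.const_mul _) hr, integral_add (hs1.const_mul _) (integrable_const _),
      integral_const_mul, integral_const_mul, integral_finsetSum _ fun j _ => hi1 j,
      integral_finsetSum _ fun j _ => integrable_finsetSum _ fun k _ => hi2 j k]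
    simp only [integral_const, probReal_univ, smul_eq_mul, one_mul]
    congr 2
    exact Finset.sum_congr rfl fun j _ => integral_finsetSum _ fun k _ => hi2 j k
  have b2 : (∑ j, ∑ k, ∫ x, X j x * X k x ∂μ) ≤ (M : ℝ) ^ 2 * (m ^ 2 + δ) + M * C ^ 2 := by
    calc (∑ j, ∑ k, ∫ x, X j x * X k x ∂μ)
        ≤ ∑ j : Fin M, ∑ k : Fin M, ((m ^ 2 + δ) + if j = k then C ^ 2 else 0) := by
          refine Finset.sum_le_sum fun j _ => Finset.sum_le_sum fun k _ => ?_
          by_cases hjk : j = k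
          · subst hjk
            rw [if_pos rfl]
            have h3 : ∫ x, X j x * X j x ∂μ ≤ ∫ _, C ^ 2 ∂μ := by
              refine integral_mono (hi2 j j) (integrable_const _) fun x => ?_
              show X j x * X j x ≤ C ^ 2
              have h5 := abs_le.1 (hC j x)
              nlinarith
            rw [integral_const, probReal_univ, one_smul] at h3
            have := sq_nonneg m
            linarith
          · rw [if_neg hjk, add_zero]
            have := (abs_le.1 (h2 j k hjk)).2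
            linarith
      _ = (M : ℝ) ^ 2 * (m ^ 2 + δ) + M * C ^ 2 := by
          simp only [Finset.sum_add_distrib, Finset.sum_const, Finset.card_univ, Fintype.card_fin,
            nsmul_eq_mul, Finset.sum_ite_eq, Finset.mem_univ, if_true]
          ring
  have b1 : |(∑ j, ∫ x, X j x ∂μ) - M * m| ≤ M * δ := by
    have e3 : (∑ j, ∫ x, X j x ∂μ) - M * m = ∑ j : Fin M, ((∫ x, X j x ∂μ) - m) := by
      rw [Finset.sum_sub_distrib]
      simp
    rw [e3]
    refine (Finset.abs_sum_le_sum_abs _ _).trans ?_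
    refine (Finset.sum_le_sum fun j _ => h1 j).trans (le_of_eq ?_)
    simp
  have hmain : ∫ x, (1 / (M : ℝ) * ∑ j, X j x - m) ^ 2 ∂μ ≤ δ + C ^ 2 / M + 2 * |m| * δ := by
    rw [e2]
    have c1 : (1 / (M : ℝ) ^ 2) * (∑ j, ∑ k, ∫ x, X j x * X k x ∂μ) ≤ (m ^ 2 + δ) + C ^ 2 / M := by
      calc (1 / (M : ℝ) ^ 2) * (∑ j, ∑ k, ∫ x, X j x * X k x ∂μ)
          ≤ (1 / (M : ℝ) ^ 2) * ((M : ℝ) ^ 2 * (m ^ 2 + δ) + M * C ^ 2) :=
            mul_le_mul_of_nonneg_left b2 (by positivity)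
        _ = (m ^ 2 + δ) + C ^ 2 / M := by field_simp
    have c2 : (-(2 * m / M)) * (∑ j, ∫ x, X j x ∂μ) ≤ -(2 * m ^ 2) + 2 * |m| * δ := by
      have e4 : (-(2 * m / M)) * (∑ j, ∫ x, X j x ∂μ) =
          -(2 * m ^ 2) + (-(2 * m / M)) * ((∑ j, ∫ x, X j x ∂μ) - M * m) := by
        field_simp
        ring
      rw [e4]
      have h3 : (-(2 * m / M)) * ((∑ j, ∫ x, X j x ∂μ) - M * m) ≤
          |(-(2 * m / M)) * ((∑ j, ∫ x, X j x ∂μ) - M * m)| := le_abs_self _
      rw [abs_mul, abs_neg, abs_div, abs_mul, abs_of_pos hM', abs_of_pos (by norm_num : (0:ℝ) < 2)] at h3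
      have h4 : 2 * |m| / M * |(∑ j, ∫ x, X j x ∂μ) - M * m| ≤ 2 * |m| / M * (M * δ) :=
        mul_le_mul_of_nonneg_left b1 (by positivity)
      have h5 : 2 * |m| / (M : ℝ) * (M * δ) = 2 * |m| * δ := by field_simp
      linarith
    linarith
  have hcheb := mul_meas_ge_le_integral_of_nonneg (μ := μ)
    (Eventually.of_forall fun x => sq_nonneg (1 / (M : ℝ) * ∑ j, X j x - m)) hsq (κ ^ 2)
  have hset : {x | κ ^ 2 ≤ (1 / (M : ℝ) * ∑ j, X j x - m) ^ 2} =
      {x | κ ≤ |1 / (M : ℝ) * ∑ j, X j x - m|} := by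
    ext x
    simp only [mem_ofPred_eq]
    rw [← sq_abs (1 / (M : ℝ) * ∑ j, X j x - m)]
    exact pow_le_pow_iff_left₀ hκ.le (abs_nonneg _) (by norm_num)
  rw [hset] at hcheb
  exact hcheb.trans hmain

/-- from the second moment bound to the limit -/
theorem fc_tendsto {Ω : ℕ → Type} [∀ M, MeasurableSpace (Ω M)] (μ : ∀ M, Measure (Ω M))
    (S : ∀ M, Set (Ω M)) (C m κ : ℝ) (hκ : 0 < κ)
    (hfin : ∀ᶠ M in atTop, IsProbabilityMeasure (μ M))
    (h : ∀ δ : ℝ, 0 < δ → ∀ᶠ M : ℕ in atTop,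
      κ ^ 2 * (μ M).real (S M) ≤ δ + C ^ 2 / M + 2 * |m| * δ) :
    Tendsto (fun M => μ M (S M)) atTop (𝓝 0) := by
  rw [ENNReal.tendsto_nhds_zero]
  intro ε hε
  by_cases htop : ε = ⊤
  · rw [htop]
    exact Eventually.of_forall fun M => le_top
  have hε' : 0 < ε.toReal := ENNReal.toReal_pos hε.ne' htop
  set δ : ℝ := κ ^ 2 * ε.toReal / (2 * (1 + 2 * |m|)) with hδ
  have hδ0 : 0 < δ := by positivity
  have h3 : Tendsto (fun M : ℕ => C ^ 2 / (M : ℝ)) atTop (𝓝 0) := by
    exact tendsto_const_nhds.div_atTop tendsto_natCast_atTop_atTop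
  have h4 : ∀ᶠ M : ℕ in atTop, C ^ 2 / (M : ℝ) < κ ^ 2 * ε.toReal / 2 :=
    h3.eventually_lt_const (by positivity)
  filter_upwards [hfin, h δ hδ0, h4] with M h5 h6 h7
  have h8 : (μ M).real (S M) ≤ ε.toReal := by
    have e : δ + 2 * |m| * δ = κ ^ 2 * ε.toReal / 2 := by
      rw [hδ]
      field_simp
    have h9 : κ ^ 2 * (μ M).real (S M) ≤ κ ^ 2 * ε.toReal := by linarith
    exact le_of_mul_le_mul_left h9 (by positivity)
  rw [← ENNReal.ofReal_toReal htop, ← ENNReal.ofReal_toReal (measure_ne_top (μ M) (S M))]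
  exact ENNReal.ofReal_le_ofReal h8

theorem fc_side {Λ : Set ℂ} (hΛm : MeasurableSet Λ) (f : ℂ → ℝ)
    (hf'm : Measurable (Λ.indicator f)) (C : ℝ) (hC : ∀ z ∈ Λ, |f z| ≤ C)
    (μ : ∀ M : ℕ, Measure (Conf M)) (hprob : ∀ᶠ M in atTop, IsProbabilityMeasure (μ M))
    (hsupp : ∀ᶠ M in atTop, μ M {x | ∃ i, x i ∉ Λ} = 0) (m κ : ℝ) (hκ : 0 < κ)
    (sd : ∀ M, Fin M → Fin M ⊕ Fin M)
    (h1 : ∀ δ : ℝ, 0 < δ → ∀ᶠ M in atTop, ∀ j : Fin M,
      |(∫ x, Λ.indicator f (x (sd M j)) ∂(μ M)) - m| ≤ δ)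
    (h2 : ∀ δ : ℝ, 0 < δ → ∀ᶠ M in atTop, ∀ j k : Fin M, j ≠ k →
      |(∫ x, Λ.indicator f (x (sd M j)) * Λ.indicator f (x (sd M k)) ∂(μ M)) - m ^ 2| ≤ δ) :
    Tendsto (fun M => μ M {x | κ ≤ |1 / (M : ℝ) * ∑ j, f (x (sd M j)) - m|}) atTop (𝓝 0) := by
  refine fc_tendsto μ (fun M => {x | κ ≤ |1 / (M : ℝ) * ∑ j, f (x (sd M j)) - m|}) |C| m κ hκ hprob ?_
  intro δ hδ
  filter_upwards [hprob, hsupp, h1 δ hδ, h2 δ hδ, eventually_gt_atTop 0] with M a1 a2 a3 a4 a5
  have hb : ∀ z, |Λ.indicator f z| ≤ |C| := by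
    intro z
    by_cases hz : z ∈ Λ
    · rw [indicator_of_mem hz]
      exact (hC z hz).trans (le_abs_self C)
    · rw [indicator_of_notMem hz, abs_zero]
      exact abs_nonneg C
  have hl := fc_lln (μ M) M a5 (fun j x => Λ.indicator f (x (sd M j)))
    (fun j => hf'm.comp (measurable_pi_apply _)) |C| (fun j x => hb _) m δ a3 a4 κ hκ
  have hset : (μ M).real {x | κ ≤ |1 / (M : ℝ) * ∑ j, f (x (sd M j)) - m|} =
      (μ M).real {x | κ ≤ |1 / (M : ℝ) * ∑ j, Λ.indicator f (x (sd M j)) - m|} := by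
    refine measureReal_congr ?_
    have hae : ∀ᵐ x ∂(μ M), ∀ i, x i ∈ Λ := by
      rw [ae_iff]
      refine (measure_congr (Eventually.of_forall fun x => ?_)).trans a2
      simp only [eq_iff_iff]
      show (¬ ∀ i, x i ∈ Λ) ↔ ∃ i, x i ∉ Λ
      exact not_forall
    filter_upwards [hae] with x hx
    simp only [eq_iff_iff]
    show κ ≤ |1 / (M : ℝ) * ∑ j, f (x (sd M j)) - m| ↔
      κ ≤ |1 / (M : ℝ) * ∑ j, Λ.indicator f (x (sd M j)) - m|
    have : ∀ j, Λ.indicator f (x (sd M j)) = f (x (sd M j)) := fun j =>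
      indicator_of_mem (hx _) _
    simp only [this]
  rw [hset]
  exact hl

theorem taskFc : TaskFc := by
  intro Λ ρ₁ ρ₂ hΛ _ _ μ hprob hsupp hconv f hf hfb κ hκ
  obtain ⟨C, hC⟩ := hfb
  have hΛm : MeasurableSet Λ := hΛ.measurableSet
  have hf'm : Measurable (Λ.indicator f) := by
    classical
    rw [← Set.piecewise_eq_indicator]
    exact hf.measurable_piecewise continuousOn_const hΛm
  have hf'c : ContinuousOn (Λ.indicator f) Λ := hf.congr fun z hz => indicator_of_mem hz _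
  have hb : ∀ z, |Λ.indicator f z| ≤ |C| := by
    intro z
    by_cases hz : z ∈ Λ
    · rw [indicator_of_mem hz]
      exact (hC z hz).trans (le_abs_self C)
    · rw [indicator_of_notMem hz, abs_zero]
      exact abs_nonneg C
  have hm : ∀ ρ : ℂ → ℝ, ∫ x in Λ, Λ.indicator f x * ρ x = ∫ x in Λ, f x * ρ x := fun ρ =>
    setIntegral_congr_fun hΛm fun x hx => by
      show Λ.indicator f x * ρ x = f x * ρ x
      rw [indicator_of_mem hx]
  -- the marginals
  have key : ∀ (p r : ℕ) (δ : ℝ), 0 < δ → ∀ᶠ M in atTop, ∀ (a : Fin p → Fin M) (b : Fin r → Fin M),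
      Function.Injective a → Function.Injective b →
      |(∫ x, (∏ i, Λ.indicator f (x (Sum.inl (a i)))) * (∏ j, Λ.indicator f (x (Sum.inr (b j))))
        ∂(μ M)) - (∫ x in Λ, f x * ρ₁ x) ^ p * (∫ x in Λ, f x * ρ₂ x) ^ r| ≤ δ := by
    intro p r δ hδ
    have h1 := hconv p r (fun y => (∏ i, Λ.indicator f (y (Sum.inl i))) *
      ∏ j, Λ.indicator f (y (Sum.inr j))) ?_ ?_ δ hδ
    · rw [fc_prodInt Λ hΛm _ (Λ.indicator f) ρ₁ ρ₂ (fun y => rfl), hm, hm] at h1
      exact h1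
    · refine ContinuousOn.mul (continuousOn_finsetProd _ fun i _ => ?_)
        (continuousOn_finsetProd _ fun i _ => ?_)
      · exact hf'c.comp (continuous_apply (Sum.inl i)).continuousOn fun y hy => hy _
      · exact hf'c.comp (continuous_apply (Sum.inr i)).continuousOn fun y hy => hy _
    · refine ⟨|C| ^ p * |C| ^ r, fun y _ => ?_⟩
      rw [abs_mul, Finset.abs_prod, Finset.abs_prod]
      refine mul_le_mul ?_ ?_ (Finset.prod_nonneg fun _ _ => abs_nonneg _) (by positivity)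
      · refine (Finset.prod_le_prod (fun _ _ => abs_nonneg _) fun i _ => hb _).trans (le_of_eq ?_)
        simp
      · refine (Finset.prod_le_prod (fun _ _ => abs_nonneg _) fun i _ => hb _).trans (le_of_eq ?_)
        simp
  have inj2 : ∀ {M : ℕ} {j k : Fin M}, j ≠ k → Function.Injective (![j, k] : Fin 2 → Fin M) := by
    intro M j k hjk a b hab
    fin_cases a <;> fin_cases b <;> simp_all
  constructor
  · refine fc_side hΛm f hf'm C hC μ hprob hsupp _ κ hκ (fun M => Sum.inl) ?_ ?_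
    · intro δ hδ
      filter_upwards [key 1 0 δ hδ] with M h j
      have := h (fun _ => j) Fin.elim0 (Function.injective_of_subsingleton _)
        (Function.injective_of_subsingleton _)
      simpa using this
    · intro δ hδ
      filter_upwards [key 2 0 δ hδ] with M h j k hjk
      have := h ![j, k] Fin.elim0 (inj2 hjk) (Function.injective_of_subsingleton _)
      simpa [Fin.prod_univ_two] using this
  · refine fc_side hΛm f hf'm C hC μ hprob hsupp _ κ hκ (fun M => Sum.inr) ?_ ?_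
    · intro δ hδ
      filter_upwards [key 0 1 δ hδ] with M h j
      have := h Fin.elim0 (fun _ => j) (Function.injective_of_subsingleton _)
        (Function.injective_of_subsingleton _)
      simpa using this
    · intro δ hδ
      filter_upwards [key 0 2 δ hδ] with M h j k hjk
      have := h Fin.elim0 ![j, k] (Function.injective_of_subsingleton _) (inj2 hjk)
      simpa [Fin.prod_univ_two] using this

end Pool.Agent.H836_PV
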