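import Pool.Agent.H836_PV.All

/-!
# Passing from the Green's function `G` to the kernel `K g`, and small facts for the final statement
-/

open MeasureTheory Filter Topology Set Metric

namespace Pool.Agent.H836_PV

theorem fin_en_congr {Λ : Set ℂ} {G g : ℂ → ℂ → ℝ} (hΛ : MeasurableSet Λ)
    (hG : ∀ x ∈ Λ, ∀ y ∈ Λ, Gstar G x y = K g x y) (ρ₁ ρ₂ : ℂ → ℝ) :
    en Λ G ρ₁ ρ₂ = en Λ (K g) ρ₁ ρ₂ := by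
  unfold en
  congr 1
  apply setIntegral_congr_fun hΛ
  intro x hx
  simp only
  apply setIntegral_congr_ae hΛ
  have h0 : ∀ᵐ y : ℂ, y ≠ x := by
    rw [ae_iff]
    simp
  filter_upwards [h0] with y hy hyΛ
  have h1 := hG x hx y hyΛ
  have h2 : Gstar G x y = G x y := by
    unfold Gstar
    rw [if_neg (Ne.symm hy)]
  rw [← h1, h2]

theorem fin_adm_congr {Λ : Set ℂ} {G g : ℂ → ℂ → ℝ} (hΛ : MeasurableSet Λ)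
    (hG : ∀ x ∈ Λ, ∀ y ∈ Λ, Gstar G x y = K g x y) (ε : ℝ) : Adm Λ G ε = Adm Λ (K g) ε := by
  ext ρ₁ ρ₂
  unfold Adm
  rw [fin_en_congr hΛ hG]

theorem fin_max_congr {Λ : Set ℂ} {G g : ℂ → ℂ → ℝ} (hΛ : MeasurableSet Λ)
    (hG : ∀ x ∈ Λ, ∀ y ∈ Λ, Gstar G x y = K g x y) (ε : ℝ) :
    IsMaxPair Λ G ε = IsMaxPair Λ (K g) ε := by
  ext ρ₁ ρ₂
  unfold IsMaxPair
  rw [fin_adm_congr hΛ hG]

theorem fin_mix_congr {Λ : Set ℂ} {G g : ℂ → ℂ → ℝ} (hΛ : MeasurableSet Λ)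
    (hG : ∀ x ∈ Λ, ∀ y ∈ Λ, Gstar G x y = K g x y) (ε : ℝ) (M : ℕ → ℕ)
    (μ : ∀ k, Measure (Conf (M k))) : MixConv Λ G ε M μ ↔ MixConv Λ (K g) ε M μ := by
  unfold MixConv
  rw [fin_max_congr hΛ hG]

theorem fin_exists_max {Λ : Set ℂ} {g : ℂ → ℂ → ℝ} {D C₃ cL CB : ℝ} (hK : Ker Λ g D C₃ cL CB)
    {ε : ℝ} (hε : 0 < ε) : ∃ ρ₁ ρ₂, IsMaxPair Λ (K g) ε ρ₁ ρ₂ := by
  obtain ⟨ρ₁, ρ₂, h⟩ := (taskS0 Λ g D C₃ cL CB hK).2 ε hε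
  have hne : {s | ∃ ρ₁ ρ₂, Adm Λ (K g) ε ρ₁ ρ₂ ∧ s = 1 / 2 * (entr Λ ρ₁ + entr Λ ρ₂)}.Nonempty :=
    ⟨_, ρ₁, ρ₂, h, rfl⟩
  have hseq : ∀ n : ℕ, ∃ σ₁ σ₂, Adm Λ (K g) ε σ₁ σ₂ ∧
      sL Λ (K g) ε - 1 / ((n : ℝ) + 1) < 1 / 2 * (entr Λ σ₁ + entr Λ σ₂) := by
    intro n
    have hlt : sL Λ (K g) ε - 1 / ((n : ℝ) + 1) < sL Λ (K g) ε := by
      have : 0 < 1 / ((n : ℝ) + 1) := by positivity
      linarith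
    obtain ⟨s, ⟨σ₁, σ₂, h1, rfl⟩, hs⟩ := exists_lt_of_lt_csSup hne hlt
    exact ⟨σ₁, σ₂, h1, hs⟩
  choose σ₁ σ₂ h1 h2 using hseq
  obtain ⟨φ, _, τ₁, τ₂, hτ, _, _⟩ := (allS2 Λ g D C₃ cL CB hK ε hε).1 σ₁ σ₂
    (fun n => (h1 n).1) (fun n => (h1 n).2.1)
    (fun e he => Eventually.of_forall fun n => by rw [(h1 n).2.2]; linarith)
    (fun t ht => by
      have hl : Tendsto (fun n : ℕ => sL Λ (K g) ε - 1 / ((n : ℝ) + 1)) atTop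
          (𝓝 (sL Λ (K g) ε - 0)) := tendsto_const_nhds.sub tendsto_one_div_add_atTop_nhds_zero_nat
      rw [sub_zero] at hl
      filter_upwards [hl.eventually (lt_mem_nhds ht)] with n hn
      exact (hn.trans (h2 n)).le)
  exact ⟨τ₁, τ₂, hτ⟩

/-- exchanging the two densities -/
theorem fin_swap {Λ : Set ℂ} {G : ℂ → ℂ → ℝ} {ε : ℝ} {ρ₁ ρ₂ : ℂ → ℝ}
    (h : IsMaxPair Λ G ε ρ₁ ρ₂) : IsMaxPair Λ G ε ρ₂ ρ₁ := by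
  have hen : ∀ σ₁ σ₂ : ℂ → ℝ, en Λ G σ₂ σ₁ = en Λ G σ₁ σ₂ := by
    intro σ₁ σ₂
    unfold en
    congr 1
    congr 1
    ext x
    congr 1
    ext y
    ring
  obtain ⟨⟨h1, h2, h3⟩, h4⟩ := h
  refine ⟨⟨h2, h1, by rw [hen]; exact h3⟩, ?_⟩
  intro σ₁ σ₂ hσ
  have := h4 σ₁ σ₂ hσ
  linarith

/-- the two densities of a maximizing pair differ -/
theorem fin_ne {Λ : Set ℂ} {G : ℂ → ℂ → ℝ} {ε : ℝ} (hε : 0 < ε) {ρ₁ ρ₂ : ℂ → ℝ}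
    (h : IsMaxPair Λ G ε ρ₁ ρ₂) : ¬ (∀ᵐ z ∂volume.restrict Λ, ρ₁ z = ρ₂ z) := by
  intro hae
  have : en Λ G ρ₁ ρ₂ = 0 := by
    unfold en
    have h1 : ∫ x in Λ, ∫ y in Λ, G x y * (ρ₁ x - ρ₂ x) * (ρ₁ y - ρ₂ y) = ∫ x in Λ, (0:ℝ) := by
      apply integral_congr_ae
      filter_upwards [hae] with x hx
      simp [hx]
    rw [h1]; simp
  have h3 := h.1.2.2
  rw [this] at h3
  linarith

end Pool.Agent.H836_PV
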