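import Mathlib

/-!
# Sublevel sets of strongly concave functions on a convex compact subset of `ℝ³`
-/

open MeasureTheory Filter Topology Set Metric

namespace Pool.Agent.H836_PV

abbrev R3 := Fin 3 → ℝ

/-- strong concavity along segments (sup norm) -/
def SC (I : Set R3) (φ : R3 → ℝ) (lam : ℝ) : Prop :=
  ∀ s ∈ I, ∀ s' ∈ I, ∀ t ∈ Icc (0:ℝ) 1,
    (1 - t) * φ s + t * φ s' + lam / 2 * (t * (1 - t)) * ‖s - s'‖ ^ 2 ≤ φ ((1 - t) • s + t • s')

theorem SC.le_max {I : Set R3} {φ : R3 → ℝ} {lam m : ℝ} (h : SC I φ lam) (hI : Convex ℝ I)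
    (hmax : ∀ s ∈ I, φ s ≤ m) {p : R3} (hp : p ∈ I) (hpm : φ p = m) {s : R3} (hs : s ∈ I) :
    φ s ≤ m - lam / 2 * ‖s - p‖ ^ 2 := by
  -- for all t in (0,1] : t * m ≥ t φ s + lam/2 t (1-t) ‖p - s‖²
  have key : ∀ t ∈ Ioo (0:ℝ) 1, φ s + lam / 2 * (1 - t) * ‖s - p‖ ^ 2 ≤ m := by
    intro t ht
    have h1 := h p hp s hs t ⟨ht.1.le, ht.2.le⟩
    have h2 : φ ((1 - t) • p + t • s) ≤ m := by
      apply hmax
      apply hI hp hs (by linarith [ht.2]) ht.1.le (by ring)
    rw [hpm, norm_sub_rev] at h1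
    have h3 : t * (φ s + lam / 2 * (1 - t) * ‖s - p‖ ^ 2) ≤ t * m := by nlinarith
    exact le_of_mul_le_mul_left h3 ht.1
  have hlim : Tendsto (fun t : ℝ => φ s + lam / 2 * (1 - t) * ‖s - p‖ ^ 2) (𝓝[>] 0)
      (𝓝 (φ s + lam / 2 * (1 - 0) * ‖s - p‖ ^ 2)) := by
    apply Tendsto.mono_left _ nhdsWithin_le_nhds
    apply Continuous.tendsto
    fun_prop
  have h4 : φ s + lam / 2 * (1 - 0) * ‖s - p‖ ^ 2 ≤ m := by
    apply le_of_tendsto hlim
    filter_upwards [Ioo_mem_nhdsGT (zero_lt_one' ℝ)] with t ht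
    exact key t ht
  linarith

/-- the measure of a sublevel band in terms of the superlevel set -/
theorem band_le {I : Set R3} {φ : R3 → ℝ} {lam m : ℝ} (hlam : 0 ≤ lam) (h : SC I φ lam)
    (hI : Convex ℝ I) (hIc : IsCompact I) (hφ : ContinuousOn φ I)
    {p : R3} (hp : p ∈ I) (hpm : φ p = m) {E δ : ℝ} (hE : E < m) (hδ : 0 < δ) :
    volume {s | s ∈ I ∧ E ≤ φ s ∧ φ s < E + δ} ≤
      ENNReal.ofReal (3 * δ / (m - E)) * volume {s | s ∈ I ∧ E ≤ φ s} := by
  have hmE : 0 < m - E := by linarith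
  have hcomp : ∀ a : ℝ, IsCompact {s | s ∈ I ∧ a ≤ φ s} := by
    intro a
    have : {s | s ∈ I ∧ a ≤ φ s} = I ∩ φ ⁻¹' (Ici a) := by ext; simp
    rw [this]
    exact hIc.of_isClosed_subset (hφ.preimage_isClosed_of_isClosed hIc.isClosed isClosed_Ici)
      inter_subset_left
  have hfin : ∀ a : ℝ, volume {s | s ∈ I ∧ a ≤ φ s} ≠ ⊤ := fun a => (hcomp a).measure_lt_top.ne
  rcases le_or_gt (m - E) δ with hd | hd
  · -- trivial case
    have h1 : (1 : ENNReal) ≤ ENNReal.ofReal (3 * δ / (m - E)) := by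
      rw [← ENNReal.ofReal_one]
      apply ENNReal.ofReal_le_ofReal
      rw [le_div_iff₀ hmE]; linarith
    calc volume {s | s ∈ I ∧ E ≤ φ s ∧ φ s < E + δ} ≤ volume {s | s ∈ I ∧ E ≤ φ s} := by
          apply measure_mono; rintro s ⟨h1, h2, _⟩; exact ⟨h1, h2⟩
      _ = 1 * volume {s | s ∈ I ∧ E ≤ φ s} := (one_mul _).symm
      _ ≤ _ := by gcongr
  · set t : ℝ := 1 - δ / (m - E) with ht
    have hq : δ / (m - E) < 1 := by rw [div_lt_one hmE]; exact hd
    have hq0 : 0 < δ / (m - E) := by positivity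
    have ht0 : 0 < t := by rw [ht]; linarith
    have ht1 : t < 1 := by rw [ht]; linarith
    have himg : AffineMap.homothety p t '' {s | s ∈ I ∧ E ≤ φ s} ⊆ {s | s ∈ I ∧ E + δ ≤ φ s} := by
      rintro _ ⟨s, ⟨hs, hsE⟩, rfl⟩
      have e1 : AffineMap.homothety p t s = (1 - t) • p + t • s := by
        simp only [AffineMap.homothety_apply, vsub_eq_sub, vadd_eq_add]
        module
      rw [e1]
      refine ⟨hI hp hs (by linarith) ht0.le (by ring), ?_⟩
      have h1 := h p hp s hs t ⟨ht0.le, ht1.le⟩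
      rw [hpm] at h1
      have h2 : 0 ≤ lam / 2 * (t * (1 - t)) * ‖p - s‖ ^ 2 := by
        have : 0 ≤ 1 - t := by linarith
        positivity
      have h3 : (1 - t) * m + t * E = E + δ := by
        rw [ht]; field_simp; ring
      nlinarith
    have hvol := Measure.addHaar_image_homothety (volume : Measure R3) p t {s | s ∈ I ∧ E ≤ φ s}
    have hrank : Module.finrank ℝ R3 = 3 := by simp
    rw [hrank] at hvol
    have habs : |t ^ 3| = t ^ 3 := abs_of_pos (by positivity)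
    rw [habs] at hvol
    have h5 : ENNReal.ofReal (t ^ 3) * volume {s | s ∈ I ∧ E ≤ φ s} ≤
        volume {s | s ∈ I ∧ E + δ ≤ φ s} := by
      rw [← hvol]; exact measure_mono himg
    have hset : {s | s ∈ I ∧ E ≤ φ s ∧ φ s < E + δ} =
        {s | s ∈ I ∧ E ≤ φ s} \ {s | s ∈ I ∧ E + δ ≤ φ s} := by
      ext s; simp only [mem_ofPred_eq, Set.mem_sdiff, not_and, not_le]
      constructor
      · rintro ⟨h1, h2, h3⟩; exact ⟨⟨h1, h2⟩, fun _ => h3⟩
      · rintro ⟨⟨h1, h2⟩, h3⟩; exact ⟨h1, h2, h3 h1⟩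
    rw [hset, measure_sdiff (by rintro s ⟨h1, h2⟩; exact ⟨h1, by linarith⟩)
      (hcomp _).measurableSet.nullMeasurableSet (hfin _)]
    calc volume {s | s ∈ I ∧ E ≤ φ s} - volume {s | s ∈ I ∧ E + δ ≤ φ s}
        ≤ volume {s | s ∈ I ∧ E ≤ φ s} - ENNReal.ofReal (t ^ 3) * volume {s | s ∈ I ∧ E ≤ φ s} :=
          tsub_le_tsub_left h5 _
      _ ≤ ENNReal.ofReal (3 * δ / (m - E)) * volume {s | s ∈ I ∧ E ≤ φ s} := by
          rw [tsub_le_iff_right, ← add_mul, ← ENNReal.ofReal_add (by positivity) (by positivity)]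
          have h6 : 1 ≤ 3 * δ / (m - E) + t ^ 3 := by
            have e : 3 * δ / (m - E) = 3 * (1 - t) := by rw [ht]; ring
            rw [e]
            nlinarith [sq_nonneg (t - 1), sq_nonneg (t + 2), ht0, ht1,
              mul_nonneg (sub_nonneg.2 ht1.le) (sq_nonneg (t - 1)), sq_nonneg t]
          have h7 : (1 : ENNReal) ≤ ENNReal.ofReal (3 * δ / (m - E) + t ^ 3) := by
            rw [← ENNReal.ofReal_one]; exact ENNReal.ofReal_le_ofReal h6
          calc volume {s | s ∈ I ∧ E ≤ φ s} = 1 * volume {s | s ∈ I ∧ E ≤ φ s} := (one_mul _).symm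
            _ ≤ _ := by gcongr

/-- L1: the two bounds -/
theorem L1 {φ : R3 → ℝ} {lam ρ E δ : ℝ} (hlam : 0 < lam) (hρ : 0 < ρ)
    (h : SC (closedBall 0 ρ) φ lam) (hφ : ContinuousOn φ (closedBall 0 ρ)) (hδ : 0 < δ) :
    volume {s | s ∈ closedBall (0 : R3) ρ ∧ E ≤ φ s ∧ φ s < E + δ} ≤
      ENNReal.ofReal (72 * δ * ρ / lam) ∧
    (∀ β : ℝ, 0 ≤ β → (∀ s ∈ closedBall (0 : R3) ρ, φ s ≤ E + β ^ 2) →
      volume {s | s ∈ closedBall (0 : R3) ρ ∧ E ≤ φ s ∧ φ s < E + δ} ≤
        ENNReal.ofReal (72 * δ * β / (lam * Real.sqrt lam))) := by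
  have hI : Convex ℝ (closedBall (0 : R3) ρ) := convex_closedBall _ _
  have hIc : IsCompact (closedBall (0 : R3) ρ) := isCompact_closedBall _ _
  obtain ⟨p, hp, hpmax⟩ := hIc.exists_isMaxOn (nonempty_closedBall.2 hρ.le) hφ
  set m := φ p with hm
  have hmax : ∀ s ∈ closedBall (0 : R3) ρ, φ s ≤ m := fun s hs => hpmax hs
  rcases lt_or_ge E m with hE | hE
  · have hband := band_le hlam.le h hI hIc hφ hp rfl hE hδ
    set x := m - E with hx
    have hx0 : 0 < x := by rw [hx]; linarith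
    have hsub : {s | s ∈ closedBall (0 : R3) ρ ∧ E ≤ φ s} ⊆ closedBall p (Real.sqrt (2 * x / lam)) := by
      rintro s ⟨hs, hsE⟩
      have h1 := h.le_max hI hmax hp rfl hs
      rw [mem_closedBall, dist_eq_norm]
      apply Real.le_sqrt_of_sq_le
      rw [le_div_iff₀ hlam]
      nlinarith
    have hsub2 : {s | s ∈ closedBall (0 : R3) ρ ∧ E ≤ φ s} ⊆ closedBall 0 ρ := fun s hs => hs.1
    have hs0 : 0 ≤ Real.sqrt (2 * x / lam) := Real.sqrt_nonneg _
    have hv1 : volume {s | s ∈ closedBall (0 : R3) ρ ∧ E ≤ φ s} ≤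
        ENNReal.ofReal ((2 * Real.sqrt (2 * x / lam)) ^ 3) := by
      refine (measure_mono hsub).trans ?_
      rw [Real.volume_pi_closedBall _ hs0]; simp
    have hv2 : volume {s | s ∈ closedBall (0 : R3) ρ ∧ E ≤ φ s} ≤
        ENNReal.ofReal ((2 * ρ) ^ 3) := by
      refine (measure_mono hsub2).trans ?_
      rw [Real.volume_pi_closedBall _ hρ.le]; simp
    have hsq : Real.sqrt (2 * x / lam) ^ 2 = 2 * x / lam := Real.sq_sqrt (by positivity)
    -- bound with y = sqrt (2x/lam)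
    set y := Real.sqrt (2 * x / lam) with hy
    have hy0 : 0 < y := Real.sqrt_pos.2 (by positivity)
    have hxy : x = lam * y ^ 2 / 2 := by rw [hsq]; field_simp
    have hb1 : volume {s | s ∈ closedBall (0 : R3) ρ ∧ E ≤ φ s ∧ φ s < E + δ} ≤
        ENNReal.ofReal (3 * δ / x * (2 * y) ^ 3) := by
      rw [ENNReal.ofReal_mul (by positivity)]
      exact hband.trans (by gcongr)
    have hb2 : volume {s | s ∈ closedBall (0 : R3) ρ ∧ E ≤ φ s ∧ φ s < E + δ} ≤
        ENNReal.ofReal (3 * δ / x * (2 * ρ) ^ 3) := by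
      rw [ENNReal.ofReal_mul (by positivity)]
      exact hband.trans (by gcongr)
    have e1 : 3 * δ / x * (2 * y) ^ 3 = 48 * δ * y / lam := by
      rw [hxy]; field_simp; ring
    constructor
    · rcases le_or_gt y ρ with hyρ | hyρ
      · refine hb1.trans (ENNReal.ofReal_le_ofReal ?_)
        rw [e1]
        gcongr
        norm_num
      · refine hb2.trans (ENNReal.ofReal_le_ofReal ?_)
        have e2 : 3 * δ / x * (2 * ρ) ^ 3 = 48 * δ * ρ ^ 3 / (lam * y ^ 2) := by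
          rw [hxy]; field_simp; ring
        rw [e2, div_le_div_iff₀ (by positivity) hlam]
        have : ρ ^ 2 ≤ y ^ 2 := by nlinarith
        have h1 : 48 * δ * ρ ^ 3 * lam = (48 * δ * ρ * lam) * ρ ^ 2 := by ring
        have h2 : 72 * δ * ρ * (lam * y ^ 2) = (72 * δ * ρ * lam) * y ^ 2 := by ring
        rw [h1, h2]
        have h3 : 0 ≤ δ * ρ * lam := by positivity
        nlinarith [mul_le_mul_of_nonneg_left this h3, mul_nonneg h3 (sq_nonneg y)]
    · intro β hβ hle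
      refine hb1.trans (ENNReal.ofReal_le_ofReal ?_)
      rw [e1]
      have hxβ : x ≤ β ^ 2 := by rw [hx]; have := hle p hp; linarith
      have hsl : 0 < Real.sqrt lam := Real.sqrt_pos.2 hlam
      -- y * sqrt lam ≤ sqrt 2 * β ≤ 3/2 β
      have hyb : y * Real.sqrt lam ≤ 3 / 2 * β := by
        apply le_of_sq_le_sq _ (by positivity) |>.trans le_rfl
        rw [mul_pow, Real.sq_sqrt hlam.le]
        nlinarith
      rw [div_le_div_iff₀ hlam (by positivity)]
      have h1 : 48 * δ * y * (lam * Real.sqrt lam) = 48 * δ * lam * (y * Real.sqrt lam) := by ring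
      have h2 : 72 * δ * β * lam = 48 * δ * lam * (3 / 2 * β) := by ring
      rw [h1, h2]
      gcongr
  · -- E ≥ m : the set is contained in {p}
    have hnull : volume {s | s ∈ closedBall (0 : R3) ρ ∧ E ≤ φ s ∧ φ s < E + δ} = 0 := by
      apply measure_mono_null (t := {p})
      · rintro s ⟨hs, hsE, _⟩
        have h1 := h.le_max hI hmax hp rfl hs
        have h2 : ‖s - p‖ ^ 2 ≤ 0 := by
          have : lam / 2 * ‖s - p‖ ^ 2 ≤ 0 := by linarith
          nlinarith [sq_nonneg ‖s - p‖]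
        have h3 : ‖s - p‖ = 0 := by
          have := sq_nonneg ‖s - p‖
          exact pow_eq_zero_iff (n := 2) (by norm_num) |>.1 (le_antisymm h2 this)
        exact sub_eq_zero.1 (norm_eq_zero.1 h3)
      · exact measure_singleton p
    rw [hnull]
    exact ⟨by simp, fun _ _ _ => by simp⟩

end Pool.Agent.H836_PV
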