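import Mathlib

/-!
# Directions of uniform concavity from a Levi type condition
-/

open MeasureTheory Filter Topology Set Metric

namespace Pool.Agent.H836_PV

section
variable {κ : Type} [Fintype κ]

/-- one more direction -/
theorem L2_step (hκ : Fintype.card κ = 3) (B : (κ → ℂ) → (κ → ℂ) → ℝ)
    (hadd : ∀ a b c, B (a + b) c = B a c + B b c) (hsmul : ∀ (t : ℝ) a b, B (t • a) b = t * B a b)
    (hsymm : ∀ a b, B a b = B b a) {lam : ℝ}
    (hlevi : ∀ a, B a a + B (Complex.I • a) (Complex.I • a) ≤ -(lam * ‖a‖ ^ 2))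
    {m : ℕ} (hm : m < 3) (w : Fin m → κ → ℂ) :
    ∃ b : κ → ℂ, ‖b‖ = 1 ∧ (∀ j, B (w j) b = 0) ∧ B b b ≤ -(lam / 2) := by
  have hadd' : ∀ a b c, B a (b + c) = B a b + B a c := by
    intro a b c; rw [hsymm, hadd, hsymm b, hsymm c]
  have hsmul' : ∀ (t : ℝ) a b, B a (t • b) = t * B a b := by
    intro t a b; rw [hsymm, hsmul, hsymm b]
  have hneg' : ∀ a b, B a (-b) = - B a b := by
    intro a b
    have := hsmul' (-1) a b
    rw [neg_one_smul] at this; rw [this]; ring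
  -- complex linear functionals
  let F : (κ → ℂ) →ₗ[ℂ] (Fin m → ℂ) :=
    { toFun := fun b j => (B (w j) b : ℂ) - Complex.I * (B (w j) (Complex.I • b) : ℂ)
      map_add' := by
        intro b c; ext j
        simp only [smul_add, hadd', Pi.add_apply]
        push_cast; ring
      map_smul' := by
        intro z b
        ext j
        have e1 : z • b = z.re • b + z.im • (Complex.I • b) := by
          ext i
          simp only [Pi.smul_apply, Pi.add_apply, smul_eq_mul, Complex.real_smul]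
          rw [← mul_assoc, ← add_mul, Complex.re_add_im]
        have e2 : Complex.I • (z • b) = z.re • (Complex.I • b) + z.im • (-b) := by
          rw [e1, smul_add]
          congr 1
          · rw [smul_comm]
          · rw [smul_comm, smul_smul, Complex.I_mul_I, neg_one_smul]
        simp only [RingHom.id_apply, Pi.smul_apply, smul_eq_mul]
        rw [e2, e1, hadd', hadd', hsmul', hsmul', hsmul', hsmul', hneg']
        push_cast
        have hz := Complex.re_add_im z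
        calc _ = ((z.re : ℂ) + z.im * Complex.I) *
            ((B (w j) b : ℂ) - Complex.I * (B (w j) (Complex.I • b) : ℂ)) := by
              ring_nf; rw [Complex.I_sq]; ring
          _ = _ := by rw [hz] }
  have hker : LinearMap.ker F ≠ ⊥ := by
    apply LinearMap.ker_ne_bot_of_finrank_lt
    simp [hκ, hm]
  obtain ⟨b, hb, hb0⟩ := (Submodule.ne_bot_iff _).1 hker
  have hFb : ∀ j, B (w j) b = 0 ∧ B (w j) (Complex.I • b) = 0 := by
    intro j
    have h1 : F b j = 0 := by rw [LinearMap.mem_ker.1 hb]; rfl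
    have h2 : (B (w j) b : ℂ) - Complex.I * (B (w j) (Complex.I • b) : ℂ) = 0 := h1
    have hre := congrArg Complex.re h2
    have him := congrArg Complex.im h2
    simp at hre him
    exact ⟨hre, him⟩
  have hnb : 0 < ‖b‖ := norm_pos_iff.2 hb0
  -- choose b or I b
  have hex : ∃ b' : κ → ℂ, ‖b'‖ = ‖b‖ ∧ (∀ j, B (w j) b' = 0) ∧ B b' b' ≤ -(lam / 2) * ‖b‖ ^ 2 := by
    have hl := hlevi b
    rcases le_or_gt (B b b) (-(lam / 2) * ‖b‖ ^ 2) with h | h
    · exact ⟨b, rfl, fun j => (hFb j).1, h⟩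
    · refine ⟨Complex.I • b, by rw [norm_smul]; simp, fun j => (hFb j).2, by nlinarith⟩
  obtain ⟨b', hn, h0, hB⟩ := hex
  refine ⟨(‖b‖⁻¹ : ℝ) • b', ?_, ?_, ?_⟩
  · rw [norm_smul, hn, norm_inv, norm_norm, inv_mul_cancel₀ hnb.ne']
  · intro j; rw [hsmul', h0]; ring
  · rw [hsmul, hsmul']
    have : ‖b‖⁻¹ * (‖b‖⁻¹ * B b' b') ≤ ‖b‖⁻¹ * (‖b‖⁻¹ * (-(lam / 2) * ‖b‖ ^ 2)) := by gcongr
    refine this.trans (le_of_eq ?_)
    field_simp

theorem L2 (hκ : Fintype.card κ = 3) (B : (κ → ℂ) → (κ → ℂ) → ℝ)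
    (hadd : ∀ a b c, B (a + b) c = B a c + B b c) (hsmul : ∀ (t : ℝ) a b, B (t • a) b = t * B a b)
    (hsymm : ∀ a b, B a b = B b a) {lam : ℝ}
    (hlevi : ∀ a, B a a + B (Complex.I • a) (Complex.I • a) ≤ -(lam * ‖a‖ ^ 2)) :
    ∃ w₀ w₁ w₂ : κ → ℂ, ‖w₀‖ = 1 ∧ ‖w₁‖ = 1 ∧ ‖w₂‖ = 1 ∧
      ∀ s : Fin 3 → ℝ, B (s 0 • w₀ + s 1 • w₁ + s 2 • w₂) (s 0 • w₀ + s 1 • w₁ + s 2 • w₂) ≤
        -(lam / 2) * (s 0 ^ 2 + s 1 ^ 2 + s 2 ^ 2) := by
  have hadd' : ∀ a b c, B a (b + c) = B a b + B a c := by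
    intro a b c; rw [hsymm, hadd, hsymm b, hsymm c]
  have hsmul' : ∀ (t : ℝ) a b, B a (t • b) = t * B a b := by
    intro t a b; rw [hsymm, hsmul, hsymm b]
  obtain ⟨w₀, hw0, -, hB0⟩ := L2_step hκ B hadd hsmul hsymm hlevi (m := 0) (by norm_num) Fin.elim0
  obtain ⟨w₁, hw1, h01, hB1⟩ := L2_step hκ B hadd hsmul hsymm hlevi (m := 1) (by norm_num)
    (fun _ => w₀)
  obtain ⟨w₂, hw2, h2, hB2⟩ := L2_step hκ B hadd hsmul hsymm hlevi (m := 2) (by norm_num) ![w₀, w₁]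
  refine ⟨w₀, w₁, w₂, hw0, hw1, hw2, ?_⟩
  intro s
  have e01 : B w₀ w₁ = 0 := h01 0
  have e02 : B w₀ w₂ = 0 := h2 0
  have e12 : B w₁ w₂ = 0 := h2 1
  have e10 : B w₁ w₀ = 0 := by rw [hsymm]; exact e01
  have e20 : B w₂ w₀ = 0 := by rw [hsymm]; exact e02
  have e21 : B w₂ w₁ = 0 := by rw [hsymm]; exact e12
  simp only [hadd, hadd', hsmul, hsmul', e01, e02, e12, e10, e20, e21]
  nlinarith [mul_le_mul_of_nonneg_left hB0 (sq_nonneg (s 0)),
    mul_le_mul_of_nonneg_left hB1 (sq_nonneg (s 1)), mul_le_mul_of_nonneg_left hB2 (sq_nonneg (s 2))]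

end

end Pool.Agent.H836_PV
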