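import Pool.Agent.H836_PV.Stmts
import Pool.Agent.H836_PV.L1
import Pool.Agent.H836_PV.L2

/-!
# The local density lemma
-/

open MeasureTheory Filter Topology Set Metric

namespace Pool.Agent.H836_PV

section avg
variable {κ : Type} [Fintype κ]

theorem avg_trans (A : Set (κ → ℂ)) (hA : MeasurableSet A) (W : R3 → (κ → ℂ)) (hW : Continuous W)
    (I : Set R3) :
    ∫⁻ u : κ → ℂ, volume {s | s ∈ I ∧ u + W s ∈ A} = volume I * volume A := by
  have h1 : ∀ u : κ → ℂ, volume {s | s ∈ I ∧ u + W s ∈ A} =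
      ∫⁻ s in I, A.indicator (fun _ => (1 : ENNReal)) (u + W s) := by
    intro u
    have hm : MeasurableSet {s | u + W s ∈ A} := (measurable_const.add hW.measurable) hA
    have e : {s | s ∈ I ∧ u + W s ∈ A} = {s | u + W s ∈ A} ∩ I := by
      ext s; simp [and_comm]
    rw [e, ← Measure.restrict_apply hm, ← lintegral_indicator_one hm]
    rfl
  simp_rw [h1]
  rw [lintegral_lintegral_swap]
  · have h2 : ∀ s : R3, ∫⁻ u : κ → ℂ, A.indicator (fun _ => (1 : ENNReal)) (u + W s) = volume A := by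
      intro s
      rw [lintegral_add_right_eq_self (fun v => A.indicator (fun _ => (1 : ENNReal)) v) (W s)]
      rw [lintegral_indicator hA]; simp
    simp_rw [h2]
    rw [lintegral_const, mul_comm]; simp
  · apply Measurable.aemeasurable
    apply Measurable.indicator measurable_const
    exact (measurable_fst.add (hW.measurable.comp measurable_snd)) hA

theorem avg_ball (A : Set (κ → ℂ)) (ρ : ℝ) :
    ∫⁻ u : κ → ℂ, volume (A ∩ closedBall u ρ) = volume A * volume (closedBall (0 : κ → ℂ) ρ) := by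
  have h1 : ∀ u : κ → ℂ, volume (A ∩ closedBall u ρ) =
      ∫⁻ v in A, (closedBall (0 : κ → ℂ) ρ).indicator (fun _ => (1 : ENNReal)) (v - u) := by
    intro u
    have hm : MeasurableSet (closedBall u ρ) := measurableSet_closedBall
    rw [inter_comm, ← Measure.restrict_apply hm, ← lintegral_indicator_one hm]
    apply lintegral_congr
    intro v
    simp only [indicator, mem_closedBall, dist_eq_norm, sub_zero, Pi.one_apply]
  simp_rw [h1]
  rw [lintegral_lintegral_swap]
  · have h2 : ∀ v : κ → ℂ, ∫⁻ u : κ → ℂ,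
        (closedBall (0 : κ → ℂ) ρ).indicator (fun _ => (1 : ENNReal)) (v - u) =
        volume (closedBall (0 : κ → ℂ) ρ) := by
      intro v
      rw [lintegral_sub_left_eq_self (fun w => (closedBall (0 : κ → ℂ) ρ).indicator
        (fun _ => (1 : ENNReal)) w) v]
      rw [lintegral_indicator measurableSet_closedBall]; simp
    simp_rw [h2]
    rw [lintegral_const, mul_comm]; simp
  · apply Measurable.aemeasurable
    apply Measurable.indicator measurable_const
    exact (measurable_snd.sub measurable_fst) measurableSet_closedBall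

theorem vol_cb (hκ : Fintype.card κ = 3) (u : κ → ℂ) {ρ : ℝ} (hρ : 0 ≤ ρ) :
    volume (closedBall u ρ) = ENNReal.ofReal (ρ ^ 6 * Real.pi ^ 3) := by
  rw [volume_pi_closedBall u hρ]
  simp only [Complex.volume_closedBall]
  rw [Finset.prod_const, Finset.card_univ, hκ, mul_pow, ← pow_mul]
  rw [ENNReal.ofReal_mul (by positivity), ENNReal.ofReal_pow hρ, ENNReal.ofReal_pow Real.pi_pos.le]
  congr 2
  rw [← ENNReal.ofReal_coe_nnreal]; rfl

end avg

/-- strong concavity from the second derivative on an interval -/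
theorem concave_1d {f f' f'' : ℝ → ℝ} {c : ℝ}
    (h1 : ∀ t ∈ Icc (0:ℝ) 1, HasDerivAt f (f' t) t) (h2 : ∀ t ∈ Icc (0:ℝ) 1, HasDerivAt f' (f'' t) t)
    (h3 : ∀ t ∈ Icc (0:ℝ) 1, f'' t ≤ -c) {t : ℝ} (ht : t ∈ Icc (0:ℝ) 1) :
    (1 - t) * f 0 + t * f 1 + c / 2 * (t * (1 - t)) ≤ f t := by
  have hconc : ConcaveOn ℝ (Icc (0:ℝ) 1) (fun t => f t + c / 2 * t ^ 2) := by
    apply concaveOn_of_hasDerivWithinAt2_nonpos (convex_Icc 0 1) (f' := fun t => f' t + c * t)
      (f'' := fun t => f'' t + c)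
    · intro t ht
      exact ((h1 t ht).continuousAt.add (by fun_prop)).continuousWithinAt
    · intro t ht
      have ht' := interior_subset ht
      have : HasDerivAt (fun t => f t + c / 2 * t ^ 2) (f' t + c * t) t := by
        convert! (h1 t ht').add ((hasDerivAt_pow 2 t).const_mul (c / 2)) using 1
        simp; ring
      exact this.hasDerivWithinAt
    · intro t ht
      have ht' := interior_subset ht
      have : HasDerivAt (fun t => f' t + c * t) (f'' t + c) t := by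
        convert! (h2 t ht').add ((hasDerivAt_id t).const_mul c) using 1
        simp
      exact this.hasDerivWithinAt
    · intro t ht
      have := h3 t (interior_subset ht)
      linarith
  have h := hconc.2 (left_mem_Icc.2 zero_le_one) (right_mem_Icc.2 zero_le_one)
    (sub_nonneg.2 ht.2) ht.1 (by ring)
  simp only [smul_eq_mul, mul_zero, mul_one, zero_add] at h
  linarith

/-- tangent line bound -/
theorem tangent_1d {f f' f'' : ℝ → ℝ} {c : ℝ}
    (h1 : ∀ t ∈ Icc (0:ℝ) 1, HasDerivAt f (f' t) t) (h2 : ∀ t ∈ Icc (0:ℝ) 1, HasDerivAt f' (f'' t) t)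
    (h3 : ∀ t ∈ Icc (0:ℝ) 1, f'' t ≤ -c) : f 1 ≤ f 0 + f' 0 - c / 2 := by
  have hd := (h1 0 (left_mem_Icc.2 zero_le_one)).tendsto_slope_zero_right
  have hl : Tendsto (fun t : ℝ => f 1 - f 0 + c / 2 * (1 - t)) (𝓝[>] 0)
      (𝓝 (f 1 - f 0 + c / 2 * (1 - 0))) := by
    apply Tendsto.mono_left _ nhdsWithin_le_nhds
    apply Continuous.tendsto
    fun_prop
  have := le_of_tendsto_of_tendsto hl hd (by
    filter_upwards [Ioo_mem_nhdsGT (zero_lt_one' ℝ)] with t ht
    have k := concave_1d h1 h2 h3 ⟨ht.1.le, ht.2.le⟩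
    rw [smul_eq_mul, zero_add, inv_mul_eq_div, le_div_iff₀ ht.1]
    linarith)
  linarith

section
variable {V : Type*} [NormedAddCommGroup V] [NormedSpace ℝ V]

theorem HessOn.hasDerivAt {U : Set V} {h : V → ℝ} {h1 : V → V → ℝ} {B : V → V → V → ℝ} {L : ℝ}
    (H : HessOn U h h1 B L) {u a : V} {t : ℝ} (ht : u + t • a ∈ U) :
    HasDerivAt (fun t : ℝ => h (u + t • a)) (h1 (u + t • a) a) t := by
  have h0 := H.d1 _ ht a
  have hh : HasDerivAt (fun s : ℝ => h (u + t • a + s • a)) (h1 (u + t • a) a) (t - t) := by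
    rw [sub_self]; exact h0
  have := hh.comp_sub_const t t
  convert! this using 1
  ext x
  congr 1
  module

theorem HessOn.hasDerivAt2 {U : Set V} {h : V → ℝ} {h1 : V → V → ℝ} {B : V → V → V → ℝ} {L : ℝ}
    (H : HessOn U h h1 B L) {u a : V} {t : ℝ} (ht : u + t • a ∈ U) :
    HasDerivAt (fun t : ℝ => h1 (u + t • a) a) (B (u + t • a) a a) t := by
  have h0 := H.d2 _ ht a
  have hh : HasDerivAt (fun s : ℝ => h1 (u + t • a + s • a) a) (B (u + t • a) a a) (t - t) := by
    rw [sub_self]; exact h0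
  have := hh.comp_sub_const t t
  convert! this using 1
  ext x
  congr 1
  module

end

/-- the linear map `s ↦ Σ s_j w_j` -/
noncomputable def WW {V : Type*} [AddCommGroup V] [Module ℝ V] (w₀ w₁ w₂ : V) (s : R3) : V :=
  s 0 • w₀ + s 1 • w₁ + s 2 • w₂

theorem WW_norm {V : Type*} [NormedAddCommGroup V] [NormedSpace ℝ V] {w₀ w₁ w₂ : V}
    (h0 : ‖w₀‖ = 1) (h1 : ‖w₁‖ = 1) (h2 : ‖w₂‖ = 1) (s : R3) : ‖WW w₀ w₁ w₂ s‖ ≤ 3 * ‖s‖ := by
  unfold WW
  refine (norm_add₃_le).trans ?_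
  rw [norm_smul, norm_smul, norm_smul, h0, h1, h2]
  have := norm_le_pi_norm s 0
  have := norm_le_pi_norm s 1
  have := norm_le_pi_norm s 2
  linarith

/-- the local estimates on a slice -/
theorem slice {κ : Type} [Fintype κ] (hκ : Fintype.card κ = 3) {r L lam : ℝ}
    {h : (κ → ℂ) → ℝ} {h1 : (κ → ℂ) → (κ → ℂ) → ℝ} {B : (κ → ℂ) → (κ → ℂ) → (κ → ℂ) → ℝ}
    (hlam : 0 < lam) (hL : 0 < L) {u₀ : κ → ℂ} (H : HessOn (ball u₀ r) h h1 B L)
    (hlevi : ∀ a, B u₀ a a + B u₀ (Complex.I • a) (Complex.I • a) ≤ -(lam * ‖a‖ ^ 2))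
    {ρ : ℝ} (hρ : 0 < ρ) (hρr : 12 * ρ < r) (hρL : 432 * L * ρ ≤ lam) :
    ∃ W : R3 → (κ → ℂ), Continuous W ∧ (∀ s, ‖W s‖ ≤ 3 * ‖s‖) ∧
      ∀ u ∈ closedBall u₀ (5 * ρ),
        SC (closedBall 0 ρ) (fun s => h (u + W s)) (lam / 4) ∧
        ContinuousOn (fun s => h (u + W s)) (closedBall 0 ρ) ∧
        (∀ s ∈ closedBall (0 : R3) ρ, ∀ τ : ℝ, 0 ≤ τ → (∀ a, |h1 (u + W s) a| ≤ τ * ‖a‖) →
          ∀ s' ∈ closedBall (0 : R3) ρ, h (u + W s') ≤ h (u + W s) + 18 * τ ^ 2 / lam) := by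
  have hr0 : 0 < r := by linarith
  have hu0 : u₀ ∈ ball u₀ r := mem_ball_self hr0
  obtain ⟨w₀, w₁, w₂, hw0, hw1, hw2, hB⟩ := L2 hκ (B u₀) (H.add_left u₀ hu0) (H.smul_left u₀ hu0)
    (H.symm u₀ hu0) hlevi
  set W := WW w₀ w₁ w₂ with hW
  have hWn : ∀ s, ‖W s‖ ≤ 3 * ‖s‖ := WW_norm hw0 hw1 hw2
  have hWc : Continuous W := by
    simp only [hW]; unfold WW; fun_prop
  refine ⟨W, hWc, hWn, ?_⟩
  intro u hu
  have hWadd : ∀ s s', W (s + s') = W s + W s' := by
    intro s s'; simp only [hW, WW, Pi.add_apply]; module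
  have hWsmul : ∀ (t : ℝ) s, W (t • s) = t • W s := by
    intro t s; simp only [hW, WW, Pi.smul_apply, smul_eq_mul]; module
  have hmem : ∀ s ∈ closedBall (0 : R3) (2 * ρ), u + W s ∈ closedBall u₀ (12 * ρ) := by
    intro s hs
    rw [mem_closedBall, dist_eq_norm] at hu ⊢
    rw [mem_closedBall, dist_eq_norm, sub_zero] at hs
    have : u + W s - u₀ = (u - u₀) + W s := by abel
    rw [this]
    refine (norm_add_le _ _).trans ?_
    have := hWn s
    linarith
  have hsub : closedBall u₀ (12 * ρ) ⊆ ball u₀ r := closedBall_subset_ball hρr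
  -- second derivative bound
  have hsec : ∀ v ∈ closedBall u₀ (12 * ρ), ∀ s : R3, B v (W s) (W s) ≤ -(lam / 4) * ‖s‖ ^ 2 := by
    intro v hv s
    have h1 := H.lip v (hsub hv) u₀ hu0 (W s)
    have h2 := hB s
    have h2' : B u₀ (W s) (W s) ≤ -(lam / 2) * (s 0 ^ 2 + s 1 ^ 2 + s 2 ^ 2) := h2
    have h3 : ‖v - u₀‖ ≤ 12 * ρ := by rwa [← dist_eq_norm]
    have h4 : ‖W s‖ ^ 2 ≤ 9 * ‖s‖ ^ 2 := by
      have := hWn s
      have h0 := norm_nonneg (W s)
      nlinarith
    have h5 : L * ‖v - u₀‖ * ‖W s‖ ^ 2 ≤ L * (12 * ρ) * (9 * ‖s‖ ^ 2) := by gcongr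
    have h6 : ‖s‖ ^ 2 ≤ s 0 ^ 2 + s 1 ^ 2 + s 2 ^ 2 := by
      have : ‖s‖ ≤ Real.sqrt (s 0 ^ 2 + s 1 ^ 2 + s 2 ^ 2) := by
        rw [pi_norm_le_iff_of_nonneg (Real.sqrt_nonneg _)]
        intro i
        apply Real.le_sqrt_of_sq_le
        rw [Real.norm_eq_abs, sq_abs]
        fin_cases i
        · simp; linarith [sq_nonneg (s 1), sq_nonneg (s 2)]
        · simp; linarith [sq_nonneg (s 0), sq_nonneg (s 2)]
        · simp; linarith [sq_nonneg (s 0), sq_nonneg (s 1)]
      calc ‖s‖ ^ 2 ≤ Real.sqrt (s 0 ^ 2 + s 1 ^ 2 + s 2 ^ 2) ^ 2 := by gcongr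
        _ = _ := Real.sq_sqrt (by positivity)
    have h7 := (abs_le.1 h1).2
    have h8 : L * (12 * ρ) * (9 * ‖s‖ ^ 2) ≤ lam / 4 * ‖s‖ ^ 2 := by
      have : L * (12 * ρ) * (9 * ‖s‖ ^ 2) = (432 * L * ρ) * (‖s‖ ^ 2 / 4) := by ring
      rw [this]
      have : 432 * L * ρ * (‖s‖ ^ 2 / 4) ≤ lam * (‖s‖ ^ 2 / 4) := by gcongr
      linarith
    nlinarith
  -- along a segment
  have hseg : ∀ s ∈ closedBall (0 : R3) (2 * ρ), ∀ s' ∈ closedBall (0 : R3) (2 * ρ),
      ∀ t ∈ Icc (0:ℝ) 1, u + W s + t • (W (s' - s)) ∈ closedBall u₀ (12 * ρ) := by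
    intro s hs s' hs' t ht
    have : u + W s + t • (W (s' - s)) = u + W ((1 - t) • s + t • s') := by
      rw [← hWsmul, add_assoc, ← hWadd]; congr 2; module
    rw [this]
    exact hmem _ (convex_closedBall _ _ hs hs' (sub_nonneg.2 ht.2) ht.1 (by ring))
  have hSC : SC (closedBall 0 (2 * ρ)) (fun s => h (u + W s)) (lam / 4) := by
    intro s hs s' hs' t ht
    have key := concave_1d (f := fun t => h (u + W s + t • (W (s' - s))))
      (f' := fun t => h1 (u + W s + t • (W (s' - s))) (W (s' - s)))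
      (f'' := fun t => B (u + W s + t • (W (s' - s))) (W (s' - s)) (W (s' - s)))
      (c := lam / 4 * ‖s - s'‖ ^ 2)
      (fun t ht => H.hasDerivAt (hsub (hseg s hs s' hs' t ht)))
      (fun t ht => H.hasDerivAt2 (hsub (hseg s hs s' hs' t ht)))
      (fun t ht => by
        have := hsec _ (hseg s hs s' hs' t ht) (s' - s)
        rw [norm_sub_rev s s']; linarith) ht
    have e0 : u + W s + (0:ℝ) • (W (s' - s)) = u + W s := by simp
    have e1 : u + W s + (1:ℝ) • (W (s' - s)) = u + W s' := by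
      rw [one_smul, add_assoc, ← hWadd]; congr 2; abel
    have e2 : u + W s + t • (W (s' - s)) = u + W ((1 - t) • s + t • s') := by
      rw [← hWsmul, add_assoc, ← hWadd]; congr 2; module
    simp only [e0, e1, e2] at key
    simp only
    linarith
  have hss : closedBall (0 : R3) ρ ⊆ closedBall 0 (2 * ρ) := closedBall_subset_closedBall (by linarith)
  refine ⟨fun s hs s' hs' => hSC s (hss hs) s' (hss hs'), ?_, ?_⟩
  · have hconc : ConcaveOn ℝ (ball (0 : R3) (2 * ρ)) (fun s => h (u + W s)) := by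
      refine ⟨convex_ball _ _, ?_⟩
      intro s hs s' hs' a b ha hb hab
      have k := hSC s (ball_subset_closedBall hs) s' (ball_subset_closedBall hs') b
        ⟨hb, by linarith⟩
      have ea : 1 - b = a := by linarith
      rw [ea] at k
      have : 0 ≤ lam / 4 / 2 * (b * a) * ‖s - s'‖ ^ 2 := by positivity
      simp only [smul_eq_mul] at k ⊢
      linarith
    exact (hconc.continuousOn isOpen_ball).mono (closedBall_subset_ball (by linarith))
  · intro s hs τ hτ hgr s' hs'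
    have key := tangent_1d (f := fun t => h (u + W s + t • (W (s' - s))))
      (f' := fun t => h1 (u + W s + t • (W (s' - s))) (W (s' - s)))
      (f'' := fun t => B (u + W s + t • (W (s' - s))) (W (s' - s)) (W (s' - s)))
      (c := lam / 4 * ‖s - s'‖ ^ 2)
      (fun t ht => H.hasDerivAt (hsub (hseg s (hss hs) s' (hss hs') t ht)))
      (fun t ht => H.hasDerivAt2 (hsub (hseg s (hss hs) s' (hss hs') t ht)))
      (fun t ht => by
        have := hsec _ (hseg s (hss hs) s' (hss hs') t ht) (s' - s)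
        rw [norm_sub_rev s s']; linarith)
    have e0 : u + W s + (0:ℝ) • (W (s' - s)) = u + W s := by simp
    have e1 : u + W s + (1:ℝ) • (W (s' - s)) = u + W s' := by
      rw [one_smul, add_assoc, ← hWadd]; congr 2; abel
    simp only [e0, e1] at key
    have k1 := (abs_le.1 (hgr (W (s' - s)))).2
    have k2 : τ * ‖W (s' - s)‖ ≤ τ * (3 * ‖s - s'‖) := by
      rw [norm_sub_rev s s']; gcongr; exact hWn _
    have : 3 * τ * ‖s - s'‖ - lam / 8 * ‖s - s'‖ ^ 2 ≤ 18 * τ ^ 2 / lam := by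
      rw [le_div_iff₀ hlam]
      linarith [sq_nonneg (lam * ‖s - s'‖ - 12 * τ)]
    linarith

/-- from slices to volumes -/
theorem assemble {κ : Type} [Fintype κ] (hκ : Fintype.card κ = 3) {A : Set (κ → ℂ)}
    (hA : MeasurableSet A) {D ρ Q : ℝ} (hAD : A ⊆ closedBall 0 D) (hρ : 0 < ρ) (hρD : ρ ≤ D)
    (hQ : 0 ≤ Q)
    (hloc : ∀ u₀ ∈ A, ∃ W : R3 → (κ → ℂ), Continuous W ∧ (∀ s, ‖W s‖ ≤ 3 * ‖s‖) ∧
      ∀ u ∈ closedBall u₀ (5 * ρ),
        volume {s | s ∈ closedBall (0 : R3) ρ ∧ u + W s ∈ A} ≤ ENNReal.ofReal Q) :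
    volume A ≤ ENNReal.ofReal (125000 * Real.pi ^ 3 * (Q * D ^ 6 / ρ ^ 3)) := by
  have hD : 0 < D := by linarith
  have hπ := Real.pi_pos
  -- local bound
  have h1 : ∀ u₀ ∈ A, volume (A ∩ closedBall u₀ (2 * ρ)) ≤
      ENNReal.ofReal (15625 / 8 * Real.pi ^ 3 * Q * ρ ^ 3) := by
    intro u₀ hu₀
    obtain ⟨W, hWc, hWn, hW⟩ := hloc u₀ hu₀
    have hm : MeasurableSet (A ∩ closedBall u₀ (2 * ρ)) := hA.inter measurableSet_closedBall
    have e := avg_trans (A ∩ closedBall u₀ (2 * ρ)) hm W hWc (closedBall (0 : R3) ρ)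
    have hle : ∫⁻ u : κ → ℂ, volume {s | s ∈ closedBall (0 : R3) ρ ∧ u + W s ∈
        A ∩ closedBall u₀ (2 * ρ)} ≤ ∫⁻ u in closedBall u₀ (5 * ρ), ENNReal.ofReal Q := by
      rw [← lintegral_indicator measurableSet_closedBall]
      apply lintegral_mono
      intro u
      by_cases hu : u ∈ closedBall u₀ (5 * ρ)
      · rw [indicator_of_mem hu]
        refine (measure_mono ?_).trans (hW u hu)
        rintro s ⟨hs, hs2⟩
        exact ⟨hs, hs2.1⟩
      · rw [indicator_of_notMem hu]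
        have : {s | s ∈ closedBall (0 : R3) ρ ∧ u + W s ∈ A ∩ closedBall u₀ (2 * ρ)} = ∅ := by
          ext s
          simp only [mem_ofPred_eq, mem_empty_iff_false, iff_false]
          rintro ⟨hs, hs2⟩
          apply hu
          have h3 := hs2.2
          rw [mem_closedBall, dist_eq_norm] at h3 ⊢
          rw [mem_closedBall, dist_eq_norm, sub_zero] at hs
          have e2 : u - u₀ = (u + W s - u₀) - W s := by abel
          rw [e2]
          refine (norm_sub_le _ _).trans ?_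
          have := hWn s
          linarith
        simp only [this, measure_empty, le_refl]
    rw [e, setLIntegral_const, vol_cb hκ u₀ (by positivity)] at hle
    have hv : volume (closedBall (0 : R3) ρ) = ENNReal.ofReal ((2 * ρ) ^ 3) := by
      rw [Real.volume_pi_closedBall _ hρ.le]; simp
    rw [hv, ← ENNReal.ofReal_mul hQ] at hle
    have hpos : 0 < (2 * ρ) ^ 3 := by positivity
    have e3 : Q * ((5 * ρ) ^ 6 * Real.pi ^ 3) =
        (2 * ρ) ^ 3 * (15625 / 8 * Real.pi ^ 3 * Q * ρ ^ 3) := by ring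
    rw [e3, ENNReal.ofReal_mul hpos.le] at hle
    exact (ENNReal.mul_le_mul_iff_right (by simpa using hpos) ENNReal.ofReal_ne_top).1 hle
  -- averaging over balls
  have h2 := avg_ball A ρ
  have h3 : ∫⁻ u : κ → ℂ, volume (A ∩ closedBall u ρ) ≤
      ∫⁻ u in closedBall (0 : κ → ℂ) (2 * D), ENNReal.ofReal (15625 / 8 * Real.pi ^ 3 * Q * ρ ^ 3) := by
    rw [← lintegral_indicator measurableSet_closedBall]
    apply lintegral_mono
    intro u
    rcases (A ∩ closedBall u ρ).eq_empty_or_nonempty with he | ⟨v, hvA, hvu⟩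
    · simp only [he, measure_empty]; exact zero_le
    · have hu : u ∈ closedBall (0 : κ → ℂ) (2 * D) := by
        have h4 := hAD hvA
        rw [mem_closedBall, dist_eq_norm] at h4 hvu ⊢
        have e2 : u - 0 = (v - 0) - (v - u) := by abel
        rw [e2]
        refine (norm_sub_le _ _).trans ?_
        linarith
      rw [indicator_of_mem hu]
      refine (measure_mono ?_).trans (h1 v hvA)
      rintro w ⟨hw, hw2⟩
      refine ⟨hw, ?_⟩
      rw [mem_closedBall] at *
      calc dist w v ≤ dist w u + dist u v := dist_triangle _ _ _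
        _ ≤ ρ + ρ := add_le_add hw2 (by rwa [dist_comm])
        _ = 2 * ρ := by ring
  rw [h2, setLIntegral_const, vol_cb hκ 0 hρ.le, vol_cb hκ 0 (by positivity),
    ← ENNReal.ofReal_mul (by positivity), mul_comm] at h3
  have hpos : 0 < ρ ^ 6 * Real.pi ^ 3 := by positivity
  have e4 : 15625 / 8 * Real.pi ^ 3 * Q * ρ ^ 3 * ((2 * D) ^ 6 * Real.pi ^ 3) =
      ρ ^ 6 * Real.pi ^ 3 * (125000 * Real.pi ^ 3 * (Q * D ^ 6 / ρ ^ 3)) := by
    field_simp; ring
  rw [e4, ENNReal.ofReal_mul hpos.le] at h3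
  exact (ENNReal.mul_le_mul_iff_right (by simpa using hpos) ENNReal.ofReal_ne_top).1 h3

end Pool.Agent.H836_PV
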