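import Pool.Agent.H836_PV.StmtsP

/-!
# Task Pa : the regular part of the Green's function and the maximum principle
-/

open MeasureTheory Filter Topology Set Metric InnerProductSpace

namespace Pool.Agent.H836_PV

/-- local maximum of a harmonic function: it is locally constant -/
lemma harm_eventually_eq_of_isLocalMax {u : ℂ → ℝ} {p : ℂ} (hu : HarmonicAt u p)
    (hmax : IsLocalMax u p) : ∀ᶠ z in 𝓝 p, u z = u p := by
  obtain ⟨ε, hε, hball⟩ := Metric.isOpen_iff.1 (isOpen_setOfPred_harmonicAt u) p hu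
  obtain ⟨F, hF, hre⟩ := InnerProductSpace.HarmonicOnNhd.exists_analyticOnNhd_ball_re_eq
    (f := u) (z := p) (R := ε) (fun x hx => hball hx)
  have hb : ball p ε ∈ 𝓝 p := ball_mem_nhds p hε
  have hd : ∀ᶠ z in 𝓝 p, DifferentiableAt ℂ (fun z => Complex.exp (F z)) z := by
    filter_upwards [hb] with z hz
    exact (hF z hz).differentiableAt.cexp
  have hloc : IsLocalMax (norm ∘ fun z => Complex.exp (F z)) p := by
    filter_upwards [hb, hmax] with z hz hz'
    simp only [Function.comp_apply, Complex.norm_exp]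
    have h1 : (F z).re = u z := hre hz
    have h2 : (F p).re = u p := hre (mem_ball_self hε)
    rw [h1, h2]
    exact Real.exp_le_exp.2 hz'
  have hev := Complex.norm_eventually_eq_of_isLocalMax hd hloc
  filter_upwards [hb, hev] with z hz hz'
  simp only [Complex.norm_exp] at hz'
  have h1 : (F z).re = u z := hre hz
  have h2 : (F p).re = u p := hre (mem_ball_self hε)
  rw [h1, h2] at hz'
  exact Real.exp_injective hz'

/-- weak maximum principle -/
lemma harm_max_principle {U : Set ℂ} (hU : IsOpen U) (hb : Bornology.IsBounded U) {u : ℂ → ℝ}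
    (hu : HarmonicOnNhd u U) {m : ℝ}
    (hbd : ∀ ξ ∈ frontier U, ∀ e : ℝ, 0 < e → ∀ᶠ x in 𝓝[U] ξ, u x ≤ m + e) :
    ∀ x ∈ U, u x ≤ m := by
  intro x₀ hx₀
  by_contra hlt
  push Not at hlt
  -- superlevel sets above m are compact
  have hcont : ContinuousOn u U := hu.continuousOn
  have hcomp : ∀ t : ℝ, m < t → IsCompact {x | x ∈ U ∧ t ≤ u x} := by
    intro t ht
    refine Metric.isCompact_of_isClosed_isBounded ?_ (hb.subset fun x hx => hx.1)
    rw [isClosed_iff_clusterPt]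
    intro a ha
    have hacl : a ∈ closure {x | x ∈ U ∧ t ≤ u x} := mem_closure_iff_clusterPt.2 ha
    have hfr : Filter.NeBot (𝓝[{x | x ∈ U ∧ t ≤ u x}] a) := mem_closure_iff_nhdsWithin_neBot.1 hacl
    by_cases haU : a ∈ U
    · refine ⟨haU, ?_⟩
      have hca : ContinuousWithinAt u {x | x ∈ U ∧ t ≤ u x} a :=
        ((hcont a haU).mono fun x hx => hx.1)
      refine ge_of_tendsto hca ?_
      filter_upwards [self_mem_nhdsWithin] with x hx using hx.2
    · exfalso
      have haF : a ∈ frontier U := by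
        rw [hU.frontier_eq]
        exact ⟨closure_mono (fun x hx => hx.1) hacl, haU⟩
      have h1 := hbd a haF ((t - m) / 2) (by linarith)
      have h2 : ∀ᶠ x in 𝓝[{x | x ∈ U ∧ t ≤ u x}] a, u x ≤ m + (t - m) / 2 :=
        nhdsWithin_mono a (fun x hx => hx.1) h1
      have h3 : ∀ᶠ x in 𝓝[{x | x ∈ U ∧ t ≤ u x}] a, t ≤ u x := by
        filter_upwards [self_mem_nhdsWithin] with x hx using hx.2
      obtain ⟨x, hx1, hx2⟩ := (h2.and h3).exists
      linarith
  have hK := hcomp (u x₀) hlt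
  obtain ⟨p, hpK, hpmax⟩ := hK.exists_isMaxOn ⟨x₀, hx₀, le_rfl⟩
    (hcont.mono fun x hx => hx.1)
  have hglob : ∀ x ∈ U, u x ≤ u p := by
    intro x hx
    by_cases h : u x₀ ≤ u x
    · exact hpmax ⟨hx, h⟩
    · push Not at h
      exact h.le.trans hpK.2
  have hK' := hcomp (u p) (lt_of_lt_of_le hlt hpK.2)
  obtain ⟨q, hqK, hqmax⟩ := hK'.exists_isMaxOn (f := fun z : ℂ => z.re) ⟨p, hpK.1, le_rfl⟩
    Complex.continuous_re.continuousOn
  have hq : u q = u p := le_antisymm (hglob q hqK.1) hqK.2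
  have hlm : IsLocalMax u q := by
    filter_upwards [hU.mem_nhds hqK.1] with x hx
    rw [hq]
    exact hglob x hx
  have hev := harm_eventually_eq_of_isLocalMax (hu q hqK.1) hlm
  have hev2 : ∀ᶠ z in 𝓝 q, z ∈ U ∧ u z = u q := (hU.eventually_mem hqK.1).and hev
  obtain ⟨ε, hε, hball⟩ := Metric.eventually_nhds_iff_ball.1 hev2
  have hz : q + ((ε / 2 : ℝ) : ℂ) ∈ ball q ε := by
    rw [mem_ball, dist_eq_norm]
    simp only [add_sub_cancel_left, Complex.norm_real, Real.norm_eq_abs]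
    rw [abs_of_pos (by linarith)]
    linarith
  obtain ⟨hz1, hz2⟩ := hball _ hz
  have := hqmax (show q + ((ε / 2 : ℝ) : ℂ) ∈ {x | x ∈ U ∧ u p ≤ u x} from
    ⟨hz1, by rw [hz2, hq]⟩)
  simp only [mem_ofPred_eq, Complex.add_re, Complex.ofReal_re] at this
  linarith

/-- weak minimum principle -/
lemma harm_min_principle {U : Set ℂ} (hU : IsOpen U) (hb : Bornology.IsBounded U) {u : ℂ → ℝ}
    (hu : HarmonicOnNhd u U) {m : ℝ}
    (hbd : ∀ ξ ∈ frontier U, ∀ e : ℝ, 0 < e → ∀ᶠ x in 𝓝[U] ξ, m - e ≤ u x) :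
    ∀ x ∈ U, m ≤ u x := by
  intro x hx
  have h := harm_max_principle hU hb hu.neg (m := -m) (fun ξ hξ e he => by
    filter_upwards [hbd ξ hξ e he] with z hz
    simp only [Pi.neg_apply]
    linarith) x hx
  simp only [Pi.neg_apply] at h
  linarith

lemma log_norm_harmonicAt {x y : ℂ} (h : x ≠ y) : HarmonicAt (fun z => Real.log ‖z - y‖) x := by
  have h1 : AnalyticAt ℂ (fun z : ℂ => z - y) x := by fun_prop
  exact h1.harmonicAt_log_norm (sub_ne_zero.2 h)

/-- the boundary values of the regular part -/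
lemma regPart_boundary {Λ : Set ℂ} {G g : ℂ → ℂ → ℝ} (hO : IsOpen Λ)
    (hG : IsGreen Λ G) (hg : RegPart Λ G g) {y ξ : ℂ} (hy : y ∈ Λ) (hξ : ξ ∈ frontier Λ) :
    Tendsto (fun x => g x y) (𝓝[Λ] ξ) (𝓝 (Real.log ‖ξ - y‖)) := by
  have hξΛ : ξ ∉ Λ := by
    rw [hO.frontier_eq] at hξ
    exact hξ.2
  have hne : ξ ≠ y := fun h => hξΛ (h ▸ hy)
  have h1 := hG.boundary y hy ξ hξ
  have h2 : Tendsto (fun x : ℂ => Real.log ‖x - y‖) (𝓝[Λ] ξ) (𝓝 (Real.log ‖ξ - y‖)) := by
    have : ContinuousAt (fun x : ℂ => Real.log ‖x - y‖) ξ := by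
      refine ContinuousAt.log (by fun_prop) ?_
      exact norm_ne_zero_iff.2 (sub_ne_zero.2 hne)
    exact this.tendsto.mono_left nhdsWithin_le_nhds
  have h3 := h1.add h2
  rw [zero_add] at h3
  refine h3.congr' ?_
  have hev : ∀ᶠ x in 𝓝[Λ] ξ, x ≠ y := nhdsWithin_le_nhds (isOpen_ne.eventually_mem hne)
  filter_upwards [hev, self_mem_nhdsWithin] with x hx hxΛ
  rw [hg.eq x hxΛ y hy hx]
  ring

lemma regPart_le_log {Λ : Set ℂ} {G g : ℂ → ℂ → ℝ} (hO : IsOpen Λ) (hb : Bornology.IsBounded Λ)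
    (hG : IsGreen Λ G) (hg : RegPart Λ G g) {D : ℝ}
    (hdiam : ∀ x ∈ Λ, ∀ y ∈ Λ, ‖x - y‖ ≤ D) : ∀ x ∈ Λ, ∀ y ∈ Λ, g x y ≤ Real.log D := by
  intro x hx y hy
  refine harm_max_principle hO hb (hg.harm y hy) (m := Real.log D) ?_ x hx
  intro ξ hξ e he
  have h1 := regPart_boundary hO hG hg hy hξ
  have hξΛ : ξ ∉ Λ := by
    rw [hO.frontier_eq] at hξ
    exact hξ.2
  have hne : ξ ≠ y := fun h => hξΛ (h ▸ hy)
  have h2 : ‖ξ - y‖ ≤ D := by
    have hcl : ξ ∈ closure Λ := frontier_subset_closure hξ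
    have hsub : closure Λ ⊆ {z : ℂ | ‖z - y‖ ≤ D} :=
      closure_minimal (fun z hz => hdiam z hz y hy)
        (isClosed_le (by fun_prop) continuous_const)
    exact hsub hcl
  have h3 : Real.log ‖ξ - y‖ ≤ Real.log D :=
    Real.log_le_log (norm_pos_iff.2 (sub_ne_zero.2 hne)) h2
  have h4 : ∀ᶠ x in 𝓝[Λ] ξ, g x y < Real.log D + e :=
    h1.eventually_lt_const (by linarith)
  filter_upwards [h4] with z hz using hz.le

lemma regPart_log_le {Λ : Set ℂ} {G g : ℂ → ℂ → ℝ} (hO : IsOpen Λ) (hb : Bornology.IsBounded Λ)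
    (hG : IsGreen Λ G) (hg : RegPart Λ G g) :
    ∀ x ∈ Λ, ∀ y ∈ Λ, ∀ r, 0 < r → ball y r ⊆ Λ → Real.log r ≤ g x y := by
  intro x hx y hy r hr hball
  refine harm_min_principle hO hb (hg.harm y hy) (m := Real.log r) ?_ x hx
  intro ξ hξ e he
  have h1 := regPart_boundary hO hG hg hy hξ
  have hξΛ : ξ ∉ Λ := by
    rw [hO.frontier_eq] at hξ
    exact hξ.2
  have h2 : r ≤ ‖ξ - y‖ := by
    by_contra h
    push Not at h
    exact hξΛ (hball (by rwa [mem_ball, dist_eq_norm]))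
  have h3 : Real.log r ≤ Real.log ‖ξ - y‖ := Real.log_le_log hr h2
  have h4 : ∀ᶠ x in 𝓝[Λ] ξ, Real.log r - e < g x y :=
    h1.eventually_const_lt (by linarith)
  filter_upwards [h4] with z hz using hz.le

lemma green_nonneg {Λ : Set ℂ} {G g : ℂ → ℂ → ℝ} (hO : IsOpen Λ) (hb : Bornology.IsBounded Λ)
    (hG : IsGreen Λ G) (hg : RegPart Λ G g) :
    ∀ x ∈ Λ, ∀ y ∈ Λ, x ≠ y → 0 ≤ G x y := by
  intro x hx y hy hxy
  obtain ⟨r, hr, hball⟩ := Metric.isOpen_iff.1 hO y hy
  have hd : 0 < ‖x - y‖ := norm_pos_iff.2 (sub_ne_zero.2 hxy)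
  obtain ⟨s, hs0, hs⟩ : ∃ s : ℝ, 0 < s ∧ s < min r ‖x - y‖ := exists_between (lt_min hr hd)
  have hsr : s < r := lt_of_lt_of_le hs (min_le_left _ _)
  have hsx : s < ‖x - y‖ := lt_of_lt_of_le hs (min_le_right _ _)
  set U : Set ℂ := Λ \ closedBall y s with hUdef
  have hUo : IsOpen U := hO.sdiff isClosed_closedBall
  have hyU : ∀ z ∈ U, z ≠ y := by
    rintro z hz rfl
    exact hz.2 (mem_closedBall_self hs0.le)
  have hxU : x ∈ U := by
    refine ⟨hx, ?_⟩
    rw [mem_closedBall, dist_eq_norm]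
    exact not_le.2 hsx
  have hharm : HarmonicOnNhd (fun z => g z y - Real.log ‖z - y‖) U := by
    intro z hz
    exact (hg.harm y hy z hz.1).sub (log_norm_harmonicAt (hyU z hz))
  have hmain := harm_min_principle hUo (hb.subset sdiff_subset) hharm (m := 0) ?_ x hxU
  · rw [hg.eq x hx y hy hxy]
    exact hmain
  intro ξ hξ e he
  have hξU : ξ ∉ U := by
    rw [hUo.frontier_eq] at hξ
    exact hξ.2
  have hξcl : ξ ∈ closure U := frontier_subset_closure hξ
  by_cases hξΛ : ξ ∈ Λ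
  · -- ξ is in the closed ball
    have hξb : ξ ∈ closedBall y s := by
      by_contra h
      exact hξU ⟨hξΛ, h⟩
    have hge : s ≤ ‖ξ - y‖ := by
      have hsub : closure U ⊆ {z : ℂ | s ≤ ‖z - y‖} := by
        refine closure_minimal (fun z hz => ?_) (isClosed_le continuous_const (by fun_prop))
        have := hz.2
        rw [mem_closedBall, dist_eq_norm] at this
        exact (not_le.1 this).le
      exact hsub hξcl
    have heq : ‖ξ - y‖ = s := le_antisymm (by rwa [mem_closedBall, dist_eq_norm] at hξb) hge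
    have hneξ : ξ ≠ y := by
      rintro rfl
      simp at heq
      linarith
    have hca : ContinuousAt (fun z => g z y - Real.log ‖z - y‖) ξ := by
      refine ContinuousAt.sub ?_ ?_
      · exact (hg.harm y hy ξ hξΛ).1.continuousAt
      · refine ContinuousAt.log (by fun_prop) ?_
        exact norm_ne_zero_iff.2 (sub_ne_zero.2 hneξ)
    have hval : 0 ≤ g ξ y - Real.log ‖ξ - y‖ := by
      rw [heq]
      have h1 := regPart_log_le hO hb hG hg ξ hξΛ y hy r hr hball
      have h2 := Real.log_le_log hs0 hsr.le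
      linarith
    have h4 : ∀ᶠ z in 𝓝 ξ, 0 - e < g z y - Real.log ‖z - y‖ :=
      hca.eventually_const_lt (by linarith)
    filter_upwards [nhdsWithin_le_nhds h4] with z hz using hz.le
  · have hξF : ξ ∈ frontier Λ := by
      rw [hO.frontier_eq]
      exact ⟨closure_mono sdiff_subset hξcl, hξΛ⟩
    have h1 := hG.boundary y hy ξ hξF
    have h2 : ∀ᶠ z in 𝓝[Λ] ξ, 0 - e < G z y := h1.eventually_const_lt (by linarith)
    have h3 : ∀ᶠ z in 𝓝[U] ξ, 0 - e < G z y := nhdsWithin_mono ξ sdiff_subset h2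
    filter_upwards [h3, self_mem_nhdsWithin] with z hz hzU
    rw [hg.eq z hzU.1 y hy (hyU z hzU)] at hz
    exact hz.le

theorem taskPa : TaskPa := by
  intro Λ G hO hne hbdd hG D hD hdiam
  classical
  choose! u hu using hG.harmonic
  have hg : RegPart Λ G (fun x y => u y x) :=
    ⟨fun y hy => (hu y hy).1, fun x hx y hy hxy => (hu y hy).2 x hx hxy⟩
  exact ⟨fun x y => u y x, hg, regPart_le_log hO hbdd hG hg hdiam,
    green_nonneg hO hbdd hG hg, regPart_log_le hO hbdd hG hg⟩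

end Pool.Agent.H836_PV
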