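import Pool.Agent.H836_PV.StmtsP

/-!
# Averages over discs from averages over circles
-/

open MeasureTheory Filter Topology Set Metric

namespace Pool.Agent.H836_PV

open Real (circleAverage)

/-- the circle average as an integral over `(-π, π)` -/
theorem circleAverage_Ioo (f : ℂ → ℝ) (c : ℂ) (r : ℝ) :
    ∫ θ in Ioo (-Real.pi) Real.pi, f (circleMap c r θ) = 2 * Real.pi * circleAverage f c r := by
  rw [Real.circleAverage_eq_integral_add (-Real.pi),
    intervalIntegral.integral_comp_add_right (fun θ => f (circleMap c r θ)) (-Real.pi)]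
  rw [← MeasureTheory.integral_Ioc_eq_integral_Ioo, ← intervalIntegral.integral_of_le
    (by linarith [Real.pi_pos])]
  have h1 : (0 : ℝ) + -Real.pi = -Real.pi := by ring
  have h2 : 2 * Real.pi + -Real.pi = Real.pi := by ring
  rw [h1, h2, smul_eq_mul, ← mul_assoc, mul_inv_cancel₀ (by positivity), one_mul]

theorem polar_ball {f : ℂ → ℝ} (hfm : Measurable f) {c : ℂ} {R : ℝ} (hR : 0 < R)
    (hf : IntegrableOn f (ball c R)) :
    IntegrableOn (fun s => 2 * Real.pi * s * circleAverage f c s) (Ioo 0 R) ∧
    ∫ z in ball c R, f z = ∫ s in Ioo 0 R, 2 * Real.pi * s * circleAverage f c s := by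
  set h : ℂ → ℝ := fun w => (ball (0 : ℂ) R).indicator (fun w => f (c + w)) w with hh
  have hhm : Measurable h := by
    apply Measurable.indicator _ measurableSet_ball
    exact hfm.comp (measurable_const.add measurable_id)
  have hh2 : ∀ w, h w = (ball c R).indicator f (c + w) := by
    intro w
    simp only [hh, indicator, mem_ball, dist_eq_norm]
    simp
  have hind : Integrable ((ball c R).indicator f) := (integrable_indicator_iff measurableSet_ball).2 hf
  have hint : Integrable h := by
    have : h = fun w => (ball c R).indicator f (c + w) := funext hh2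
    rw [this]
    exact hind.comp_add_left c
  have H1 : ∫ z in ball c R, f z = ∫ w, h w := by
    rw [← integral_indicator measurableSet_ball, ← integral_add_left_eq_self _ c]
    exact integral_congr_ae (Eventually.of_forall fun w => (hh2 w).symm)
  have H2 := Complex.integral_comp_polarCoord_symm h
  have htar : polarCoord.target = Ioi (0 : ℝ) ×ˢ Ioo (-Real.pi) Real.pi := rfl
  have H3 : IntegrableOn (fun p : ℝ × ℝ => p.1 • h (Complex.polarCoord.symm p))
      (Ioi (0 : ℝ) ×ˢ Ioo (-Real.pi) Real.pi) := by
    have hpm : Measurable fun p : ℝ × ℝ => Complex.polarCoord.symm p := by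
      simp only [Complex.polarCoord_symm_apply]
      fun_prop
    refine ⟨?_, ?_⟩
    · exact (measurable_fst.smul (hhm.comp hpm)).aestronglyMeasurable
    · unfold HasFiniteIntegral
      have h1 := Complex.lintegral_comp_polarCoord_symm (fun w => ‖h w‖ₑ)
      rw [htar] at h1
      have h2 : ∫⁻ (a : ℝ × ℝ) in Ioi (0 : ℝ) ×ˢ Ioo (-Real.pi) Real.pi,
          ‖a.1 • h (Complex.polarCoord.symm a)‖ₑ = ∫⁻ w, ‖h w‖ₑ := by
        rw [← h1]
        apply setLIntegral_congr_fun (measurableSet_Ioi.prod measurableSet_Ioo)
        intro p hp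
        simp only [smul_eq_mul, enorm_mul]
        congr 1
        rw [Real.enorm_eq_ofReal (le_of_lt hp.1)]
      rw [h2]
      exact hint.2
  have key : ∀ r ∈ Ioi (0 : ℝ), ∫ θ in Ioo (-Real.pi) Real.pi,
      r • h (Complex.polarCoord.symm (r, θ)) =
        (Iio R).indicator (fun s => 2 * Real.pi * s * circleAverage f c s) r := by
    intro r hr
    have hr0 : (0 : ℝ) < r := hr
    have e1 : ∀ θ : ℝ, c + Complex.polarCoord.symm (r, θ) = circleMap c r θ := by
      intro θ
      simp only [Complex.polarCoord_symm_apply, circleMap]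
      rw [Complex.exp_mul_I]
      push_cast
      ring
    have e2 : ∀ θ : ℝ, ‖Complex.polarCoord.symm (r, θ)‖ = r := by
      intro θ
      rw [Complex.norm_polarCoord_symm, abs_of_pos hr0]
    by_cases hrR : r < R
    · rw [indicator_of_mem (show r ∈ Iio R from hrR)]
      have : ∀ θ : ℝ, r • h (Complex.polarCoord.symm (r, θ)) = r * f (circleMap c r θ) := by
        intro θ
        simp only [hh]
        rw [indicator_of_mem (by simp only [mem_ball, dist_zero_right]; rw [e2]; exact hrR), e1]
        rfl
      simp only [this]
      rw [integral_const_mul, circleAverage_Ioo]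
      ring
    · rw [indicator_of_notMem (show r ∉ Iio R from hrR)]
      have : ∀ θ : ℝ, r • h (Complex.polarCoord.symm (r, θ)) = 0 := by
        intro θ
        simp only [hh]
        rw [indicator_of_notMem (by simp only [mem_ball, dist_zero_right]; rw [e2]; exact hrR)]
        simp
      simp only [this]
      simp
  have hset : Ioi (0 : ℝ) ∩ Iio R = Ioo 0 R := rfl
  have H4 : IntegrableOn (fun r => (Iio R).indicator
      (fun s => 2 * Real.pi * s * circleAverage f c s) r) (Ioi (0 : ℝ)) := by
    have h5 := H3
    rw [IntegrableOn, Measure.volume_eq_prod, ← Measure.prod_restrict] at h5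
    have h6 := h5.integral_prod_left
    refine (integrable_congr ?_).1 h6
    filter_upwards [ae_restrict_mem measurableSet_Ioi] with r hr
    exact key r hr
  constructor
  · rw [IntegrableOn, integrable_indicator_iff measurableSet_Iio, IntegrableOn,
      Measure.restrict_restrict measurableSet_Iio, inter_comm] at H4
    exact H4
  · rw [H1, ← H2, htar, Measure.volume_eq_prod, setIntegral_prod _ H3,
      setIntegral_congr_fun measurableSet_Ioi key, setIntegral_indicator measurableSet_Iio]
    rfl

theorem integral_two_pi (M R : ℝ) (hR : 0 < R) :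
    ∫ s in Ioo 0 R, 2 * Real.pi * s * M = Real.pi * R ^ 2 * M := by
  rw [← integral_Ioc_eq_integral_Ioo, ← intervalIntegral.integral_of_le hR.le]
  have : ∀ s : ℝ, 2 * Real.pi * s * M = (2 * Real.pi * M) * s := fun s => by ring
  simp only [this]
  rw [intervalIntegral.integral_const_mul, integral_id]
  ring

theorem ball_le_of_circle {f : ℂ → ℝ} (hfm : Measurable f) {c : ℂ} {R M : ℝ} (hR : 0 < R)
    (hf : IntegrableOn f (ball c R)) (h : ∀ s ∈ Ioo 0 R, circleAverage f c s ≤ M) :
    ∫ z in ball c R, f z ≤ Real.pi * R ^ 2 * M := by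
  obtain ⟨h1, h2⟩ := polar_ball hfm hR hf
  rw [h2, ← integral_two_pi M R hR]
  apply setIntegral_mono_on h1
  · have : IntegrableOn (fun s : ℝ => 2 * Real.pi * s * M) (Icc 0 R) :=
      Continuous.integrableOn_Icc (by fun_prop)
    exact this.mono_set Ioo_subset_Icc_self
  · exact measurableSet_Ioo
  · intro s hs
    apply mul_le_mul_of_nonneg_left (h s hs)
    have := hs.1
    positivity

theorem le_ball_of_circle {f : ℂ → ℝ} (hfm : Measurable f) {c : ℂ} {R m : ℝ} (hR : 0 < R)
    (hf : IntegrableOn f (ball c R)) (h : ∀ s ∈ Ioo 0 R, m ≤ circleAverage f c s) :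
    Real.pi * R ^ 2 * m ≤ ∫ z in ball c R, f z := by
  obtain ⟨h1, h2⟩ := polar_ball hfm hR hf
  rw [h2, ← integral_two_pi m R hR]
  apply setIntegral_mono_on _ h1
  · exact measurableSet_Ioo
  · intro s hs
    apply mul_le_mul_of_nonneg_left (h s hs)
    have := hs.1
    positivity
  · have : IntegrableOn (fun s : ℝ => 2 * Real.pi * s * m) (Icc 0 R) :=
      Continuous.integrableOn_Icc (by fun_prop)
    exact this.mono_set Ioo_subset_Icc_self

/-- mean value property over a disc -/
theorem harmonic_ball {u : ℂ → ℝ} {c : ℂ} {R : ℝ} (hR : 0 < R)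
    (hu : InnerProductSpace.HarmonicOnNhd u (closedBall c R)) :
    ∫ z in ball c R, u z = Real.pi * R ^ 2 * u c := by
  have hc : ContinuousOn u (closedBall c R) := hu.continuousOn
  have hint : IntegrableOn u (ball c R) :=
    (hc.integrableOn_compact (isCompact_closedBall c R)).mono_set ball_subset_closedBall
  set f : ℂ → ℝ := (ball c R).indicator u with hf
  have hfm : Measurable f := by
    classical
    rw [hf, ← Set.piecewise_eq_indicator]
    exact ContinuousOn.measurable_piecewise (hc.mono ball_subset_closedBall) continuousOn_const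
      measurableSet_ball
  have hfi : IntegrableOn f (ball c R) :=
    (integrableOn_congr_fun (fun z hz => by rw [hf, indicator_of_mem hz]) measurableSet_ball).2 hint
  have hav : ∀ s ∈ Ioo 0 R, circleAverage f c s = u c := by
    intro s hs
    have : circleAverage f c s = circleAverage u c s := by
      apply Real.circleAverage_congr_sphere
      intro z hz
      rw [hf, indicator_of_mem]
      rw [mem_ball]
      rw [mem_sphere] at hz
      rw [hz, abs_of_pos hs.1]
      exact hs.2
    rw [this]
    apply InnerProductSpace.HarmonicOnNhd.circleAverage_eq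
    apply hu.mono
    apply closedBall_subset_closedBall
    rw [abs_of_pos hs.1]
    exact hs.2.le
  have e : ∫ z in ball c R, u z = ∫ z in ball c R, f z :=
    setIntegral_congr_fun measurableSet_ball fun z hz => by rw [hf, indicator_of_mem hz]
  rw [e]
  apply le_antisymm
  · exact ball_le_of_circle hfm hR hfi fun s hs => (hav s hs).le
  · exact le_ball_of_circle hfm hR hfi fun s hs => (hav s hs).ge

end Pool.Agent.H836_PV
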