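import Pool.Agent.H836_PV.Pb0

/-!
# The walk: steps
-/

open MeasureTheory Filter Topology Set Metric ProbabilityTheory

namespace Pool.Agent.H836_PV

/-- distance to the complement -/
noncomputable def dc (Λ : Set ℂ) (z : ℂ) : ℝ := infDist z Λᶜ

theorem dc_continuous (Λ : Set ℂ) : Continuous (dc Λ) := continuous_infDist_pt _

theorem dc_nonneg (Λ : Set ℂ) (z : ℂ) : 0 ≤ dc Λ z := infDist_nonneg

theorem compl_nonempty_of_bdd {Λ : Set ℂ} (hb : Bornology.IsBounded Λ) : (Λᶜ).Nonempty := by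
  rw [nonempty_compl]
  rintro rfl
  exact NormedSpace.unbounded_univ ℝ ℂ hb

theorem dc_pos {Λ : Set ℂ} (ho : IsOpen Λ) (hb : Bornology.IsBounded Λ) {x : ℂ} (hx : x ∈ Λ) :
    0 < dc Λ x :=
  (ho.isClosed_compl.notMem_iff_infDist_pos (compl_nonempty_of_bdd hb)).1 (by simpa using hx)

theorem ball_dc_subset (Λ : Set ℂ) (x : ℂ) : ball x (dc Λ x) ⊆ Λ := ball_infDist_compl_subset

theorem closedBall_dc_subset {Λ : Set ℂ} (ho : IsOpen Λ) (hb : Bornology.IsBounded Λ) {x : ℂ}
    (hx : x ∈ Λ) : closedBall x (dc Λ x / 2) ⊆ Λ :=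
  (closedBall_subset_ball (by linarith [dc_pos ho hb hx])).trans (ball_dc_subset Λ x)

theorem dc_le_of_ball {Λ : Set ℂ} (hb : Bornology.IsBounded Λ) {x : ℂ} {r : ℝ}
    (h : ball x r ⊆ Λ) : r ≤ dc Λ x := by
  unfold dc
  rw [le_infDist (compl_nonempty_of_bdd hb)]
  intro y hy
  by_contra hlt
  rw [not_le] at hlt
  exact hy (h (by rwa [mem_ball, dist_comm]))

theorem dc_sub_le (Λ : Set ℂ) (z w : ℂ) : dc Λ z ≤ dc Λ w + dist z w :=
  infDist_le_infDist_add_dist

theorem vol_ball_ne_zero {x : ℂ} {r : ℝ} (hr : 0 < r) : volume (ball x r) ≠ 0 :=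
  (measure_ball_pos volume x hr).ne'

theorem vol_ball_ne_top {x : ℂ} {r : ℝ} : volume (ball x r) ≠ ⊤ := measure_ball_lt_top.ne

theorem vol_ball_real (x : ℂ) {r : ℝ} (hr : 0 ≤ r) :
    (volume (ball x r)) = ENNReal.ofReal (Real.pi * r ^ 2) := by
  rw [Complex.volume_ball, ← ENNReal.ofReal_pow hr, mul_comm (Real.pi),
    ENNReal.ofReal_mul (by positivity)]
  congr 1
  rw [ENNReal.ofReal, Real.toNNReal_of_nonneg Real.pi_pos.le]
  rfl

theorem step_of_mem {Λ : Set ℂ} {x : ℂ} (hx : x ∈ Λ) :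
    step Λ x = (volume (ball x (dc Λ x / 2)))⁻¹ • volume.restrict (ball x (dc Λ x / 2)) := by
  unfold step dc
  rw [if_pos hx]

theorem step_of_not_mem {Λ : Set ℂ} {x : ℂ} (hx : x ∉ Λ) :
    step Λ x = Measure.dirac x := by
  unfold step
  rw [if_neg hx]

theorem step_prob {Λ : Set ℂ} (ho : IsOpen Λ) (hb : Bornology.IsBounded Λ) (x : ℂ) :
    IsProbabilityMeasure (step Λ x) := by
  by_cases hx : x ∈ Λ
  · rw [step_of_mem hx]
    constructor
    rw [Measure.smul_apply, Measure.restrict_apply_univ, smul_eq_mul,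
      ENNReal.inv_mul_cancel (vol_ball_ne_zero (by linarith [dc_pos ho hb hx])) vol_ball_ne_top]
  · rw [step_of_not_mem hx]
    infer_instance

theorem step_measurable {Λ : Set ℂ} (ho : IsOpen Λ) : Measurable (step Λ) := by
  classical
  apply Measure.measurable_of_measurable_coe
  intro A hA
  have e : (fun x => step Λ x A) = fun x => if x ∈ Λ then
      (volume (ball x (dc Λ x / 2)))⁻¹ * volume (A ∩ ball x (dc Λ x / 2)) else
      Measure.dirac x A := by
    funext x
    by_cases hx : x ∈ Λ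
    · rw [if_pos hx, step_of_mem hx, Measure.smul_apply, Measure.restrict_apply hA, smul_eq_mul]
    · rw [if_neg hx, step_of_not_mem hx]
  rw [e]
  apply Measurable.ite ho.measurableSet
  · have hS : ∀ B : Set ℂ, MeasurableSet B →
        Measurable fun x => volume (B ∩ ball x (dc Λ x / 2)) := by
      intro B hB
      have hm1 : MeasurableSet {p : ℂ × ℂ | dist p.2 p.1 < dc Λ p.1 / 2} :=
        measurableSet_lt (measurable_snd.dist measurable_fst)
          (((dc_continuous Λ).measurable.comp measurable_fst).div_const 2)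
      have hm : MeasurableSet ({p : ℂ × ℂ | p.2 ∈ B} ∩ {p : ℂ × ℂ | dist p.2 p.1 < dc Λ p.1 / 2}) :=
        (measurable_snd hB).inter hm1
      exact measurable_measure_prodMk_left hm
    have h1 := hS univ MeasurableSet.univ
    simp only [univ_inter] at h1
    exact h1.inv.mul (hS A hA)
  · exact (Measure.measurable_coe hA).comp Measure.measurable_dirac

/-- the walk as a kernel -/
noncomputable def kstep (Λ : Set ℂ) (ho : IsOpen Λ) : Kernel ℂ ℂ := ⟨step Λ, step_measurable ho⟩

theorem kstep_apply (Λ : Set ℂ) (ho : IsOpen Λ) (x : ℂ) : kstep Λ ho x = step Λ x := rfl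

theorem kstep_markov {Λ : Set ℂ} (ho : IsOpen Λ) (hb : Bornology.IsBounded Λ) :
    IsMarkovKernel (kstep Λ ho) := ⟨fun x => step_prob ho hb x⟩

theorem step_compl {Λ : Set ℂ} (ho : IsOpen Λ) {x : ℂ} (hx : x ∈ Λ) : step Λ x Λᶜ = 0 := by
  rw [step_of_mem hx, Measure.smul_apply, Measure.restrict_apply ho.isClosed_compl.measurableSet]
  have : Λᶜ ∩ ball x (dc Λ x / 2) = ∅ := by
    rw [← disjoint_iff_inter_eq_empty, disjoint_compl_left_iff_subset]
    refine (ball_subset_ball ?_).trans (ball_dc_subset Λ x)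
    linarith [dc_nonneg Λ x]
  rw [this]
  simp

theorem integral_step {Λ : Set ℂ} (ho : IsOpen Λ) (hb : Bornology.IsBounded Λ) {x : ℂ}
    (hx : x ∈ Λ) (f : ℂ → ℝ) :
    ∫ z, f z ∂(step Λ x) = (Real.pi * (dc Λ x / 2) ^ 2)⁻¹ * ∫ z in ball x (dc Λ x / 2), f z := by
  have hd := dc_pos ho hb hx
  rw [step_of_mem hx, integral_smul_measure, smul_eq_mul, vol_ball_real x (by linarith),
    ENNReal.toReal_inv, ENNReal.toReal_ofReal (by positivity)]

theorem integrable_step {Λ : Set ℂ} (ho : IsOpen Λ) (hb : Bornology.IsBounded Λ) {x : ℂ}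
    (hx : x ∈ Λ) {f : ℂ → ℝ} (hf : IntegrableOn f (ball x (dc Λ x / 2))) :
    Integrable f (step Λ x) := by
  rw [step_of_mem hx]
  exact Integrable.smul_measure hf (ENNReal.inv_ne_top.2 (vol_ball_ne_zero
    (by linarith [dc_pos ho hb hx])))

theorem harmonic_step {Λ : Set ℂ} (ho : IsOpen Λ) (hb : Bornology.IsBounded Λ) {x : ℂ}
    (hx : x ∈ Λ) {u : ℂ → ℝ} (hu : InnerProductSpace.HarmonicOnNhd u Λ) :
    ∫ z, u z ∂(step Λ x) = u x := by
  have hd := dc_pos ho hb hx
  rw [integral_step ho hb hx, harmonic_ball (by linarith) (hu.mono (closedBall_dc_subset ho hb hx)),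
    ← mul_assoc, inv_mul_cancel₀ (by positivity), one_mul]

/-- density bound for one step -/
theorem step_le {Λ : Set ℂ} (ho : IsOpen Λ) (hb : Bornology.IsBounded Λ) {x : ℂ}
    (hx : x ∈ Λ) (A : Set ℂ) (hA : MeasurableSet A) :
    step Λ x A ≤ ENNReal.ofReal (4 / (Real.pi * dc Λ x ^ 2)) * volume A := by
  have hd := dc_pos ho hb hx
  rw [step_of_mem hx, Measure.smul_apply, smul_eq_mul, Measure.restrict_apply hA]
  apply mul_le_mul' _ (measure_mono inter_subset_left)
  rw [vol_ball_real x (by linarith), ← ENNReal.ofReal_inv_of_pos (by positivity)]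
  apply ENNReal.ofReal_le_ofReal
  apply le_of_eq
  field_simp
  norm_num

/-- density bound for one step, on the region at distance `≥ η` from the complement -/
theorem step_le' {Λ : Set ℂ} (ho : IsOpen Λ) (hb : Bornology.IsBounded Λ) {x : ℂ}
    (hx : x ∈ Λ) {η : ℝ} (hη : 0 < η) (A : Set ℂ) (hA : MeasurableSet A)
    (hAη : ∀ z ∈ A, η ≤ dc Λ z) :
    step Λ x A ≤ ENNReal.ofReal (81 / (4 * Real.pi * η ^ 4) * dc Λ x ^ 2) * volume A := by
  have hd := dc_pos ho hb hx
  by_cases hem : (A ∩ ball x (dc Λ x / 2)).Nonempty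
  · refine (step_le ho hb hx A hA).trans ?_
    apply mul_le_mul' _ le_rfl
    apply ENNReal.ofReal_le_ofReal
    obtain ⟨w, hw, hwx⟩ := hem
    have h1 := hAη w hw
    have h2 := dc_sub_le Λ w x
    rw [mem_ball] at hwx
    have h3 : 2 * η ≤ 3 * dc Λ x := by linarith
    have h4 : (2 * η) ^ 4 ≤ (3 * dc Λ x) ^ 4 := pow_le_pow_left₀ (by positivity) h3 4
    rw [div_mul_eq_mul_div, div_le_div_iff₀ (by positivity) (by positivity)]
    have hpi := Real.pi_pos
    have h5 : 16 * η ^ 4 ≤ 81 * dc Λ x ^ 4 := by nlinarith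
    calc 4 * (4 * Real.pi * η ^ 4) = Real.pi * (16 * η ^ 4) := by ring
      _ ≤ Real.pi * (81 * dc Λ x ^ 4) := by gcongr
      _ = 81 * dc Λ x ^ 2 * (Real.pi * dc Λ x ^ 2) := by ring
  · rw [not_nonempty_iff_eq_empty] at hem
    rw [step_of_mem hx, Measure.smul_apply, Measure.restrict_apply hA, hem]
    simp

theorem normSq_expand (c z : ℂ) :
    ‖z‖ ^ 2 = ‖c‖ ^ 2 + 2 * ((starRingEnd ℂ) c * (z - c)).re + ‖z - c‖ ^ 2 := by
  rw [← Complex.normSq_eq_norm_sq, ← Complex.normSq_eq_norm_sq, ← Complex.normSq_eq_norm_sq]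
  simp [Complex.normSq_apply]
  ring

/-- the second moment grows -/
theorem second_moment_step {Λ : Set ℂ} (ho : IsOpen Λ) (hb : Bornology.IsBounded Λ) {x : ℂ}
    (hx : x ∈ Λ) : ‖x‖ ^ 2 + 3 / 64 * dc Λ x ^ 2 ≤ ∫ z, ‖z‖ ^ 2 ∂(step Λ x) := by
  have hd := dc_pos ho hb hx
  set R := dc Λ x / 2 with hR
  have hRpos : 0 < R := by positivity
  have hcont : ∀ f : ℂ → ℝ, Continuous f → IntegrableOn f (ball x R) := fun f hf =>
    (hf.continuousOn.integrableOn_compact (isCompact_closedBall x R)).mono_set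
      ball_subset_closedBall
  set v : ℂ → ℝ := fun z => ‖x‖ ^ 2 + 2 * ((starRingEnd ℂ) x * (z - x)).re with hv
  have hvc : Continuous v := by fun_prop
  have hvh : InnerProductSpace.HarmonicOnNhd v (closedBall x R) := by
    intro z _
    have : v = fun z => (((‖x‖ ^ 2 : ℝ) : ℂ) + 2 * ((starRingEnd ℂ) x * (z - x))).re := by
      funext z
      rw [Complex.add_re, Complex.ofReal_re]
      simp [hv]
    rw [this]
    apply AnalyticAt.harmonicAt_re
    fun_prop
  have e1 : ∫ z in ball x R, ‖z‖ ^ 2 = (∫ z in ball x R, v z) + ∫ z in ball x R, ‖z - x‖ ^ 2 := by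
    rw [← integral_add (hcont v hvc) (hcont _ (by fun_prop))]
    apply integral_congr_ae
    exact Eventually.of_forall fun z => normSq_expand x z
  have e2 := harmonic_ball hRpos hvh
  have e3 : 3 / 16 * Real.pi * R ^ 4 ≤ ∫ z in ball x R, ‖z - x‖ ^ 2 := by
    have h1 : ∫ z in ball x R \ ball x (R / 2), (R / 2) ^ 2 ≤
        ∫ z in ball x R \ ball x (R / 2), ‖z - x‖ ^ 2 := by
      apply setIntegral_mono_on
      · exact (hcont _ continuous_const).mono_set sdiff_subset
      · exact (hcont _ (by fun_prop)).mono_set sdiff_subset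
      · exact measurableSet_ball.diff measurableSet_ball
      · intro z hz
        have hz2 : R / 2 ≤ ‖z - x‖ := by
          have := hz.2
          rw [mem_ball, not_lt, dist_eq_norm] at this
          exact this
        exact pow_le_pow_left₀ (by positivity) hz2 2
    have h2 : ∫ z in ball x R \ ball x (R / 2), ‖z - x‖ ^ 2 ≤ ∫ z in ball x R, ‖z - x‖ ^ 2 := by
      apply setIntegral_mono_set (hcont _ (by fun_prop))
      · exact Eventually.of_forall fun z => by positivity
      · exact sdiff_subset.eventuallyLE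
    refine le_trans (le_of_eq ?_) (h1.trans h2)
    rw [setIntegral_const, smul_eq_mul, measureReal_def,
      measure_sdiff (ball_subset_ball (by linarith)) measurableSet_ball.nullMeasurableSet
        vol_ball_ne_top, vol_ball_real x hRpos.le, vol_ball_real x (by positivity),
      ← ENNReal.ofReal_sub _ (by positivity), ENNReal.toReal_ofReal]
    · ring
    · have := Real.pi_pos
      have h3 : 0 ≤ 3 / 4 * (Real.pi * R ^ 2) := by positivity
      linarith [show Real.pi * R ^ 2 - Real.pi * (R / 2) ^ 2 = 3 / 4 * (Real.pi * R ^ 2) by ring]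
  rw [integral_step ho hb hx, e1, e2]
  have hpi := Real.pi_pos
  rw [← hR, le_inv_mul_iff₀ (by positivity)]
  have e4 : v x = ‖x‖ ^ 2 := by simp [hv]
  rw [e4]
  have e5 : dc Λ x = 2 * R := by rw [hR]; ring
  rw [e5]
  nlinarith

end Pool.Agent.H836_PV
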