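import Pool.Agent.H836_PV.StmtsP

/-!
# Task Pd, part A: disc averages of the logarithm
-/

open MeasureTheory Filter Topology Set Metric
open scoped ENNReal

namespace Pool.Agent.H836_PV.PdAux

theorem polar_aux (g : ℂ → ℝ≥0∞) (hg : Measurable g) :
    ∫⁻ z, g z = ∫⁻ r in Ioi (0:ℝ), (∫⁻ θ in Ioo (-Real.pi) Real.pi, g (circleMap 0 r θ)) *
      ENNReal.ofReal r := by
  rw [← Complex.lintegral_comp_polarCoord_symm]
  rw [polarCoord_target]
  have hvol : (volume : Measure (ℝ × ℝ)).restrict (Ioi (0:ℝ) ×ˢ Ioo (-Real.pi) Real.pi)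
      = ((volume : Measure ℝ).restrict (Ioi 0)).prod
        ((volume : Measure ℝ).restrict (Ioo (-Real.pi) Real.pi)) := by
    rw [Measure.prod_restrict]; rfl
  rw [hvol]
  have hpc : ∀ p : ℝ × ℝ, Complex.polarCoord.symm p = circleMap 0 p.1 p.2 := by
    intro p
    rw [Complex.polarCoord_symm_apply, circleMap, zero_add, Complex.exp_mul_I]
    push_cast
    rfl
  simp only [hpc, smul_eq_mul]
  have hm : Measurable (fun p : ℝ × ℝ => circleMap 0 p.1 p.2) := by
    unfold circleMap
    fun_prop
  rw [lintegral_prod]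
  · refine lintegral_congr fun r => ?_
    dsimp only
    rw [lintegral_const_mul, mul_comm]
    exact hg.comp (by unfold circleMap; fun_prop)
  · apply Measurable.aemeasurable
    exact (ENNReal.measurable_ofReal.comp measurable_fst).mul (hg.comp hm)

/-- polar coordinates on a disc -/
theorem ball_polar (g : ℂ → ℝ≥0∞) (hg : Measurable g) (z : ℂ) (ρ : ℝ) :
    ∫⁻ ξ in ball z ρ, g ξ = ∫⁻ r in Ioo (0:ℝ) ρ,
      (∫⁻ θ in Ioo (-Real.pi) Real.pi, g (circleMap z r θ)) * ENNReal.ofReal r := by
  have h1 : ∫⁻ ξ in ball z ρ, g ξ = ∫⁻ ξ, (ball (0:ℂ) ρ).indicator (fun ξ => g (z + ξ)) ξ := by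
    rw [← lintegral_indicator measurableSet_ball]
    rw [← lintegral_add_left_eq_self _ z]
    congr 1
    funext ξ
    simp only [Set.indicator, mem_ball, dist_self_add_left, dist_zero_right]
  have hg' : Measurable (fun ξ => g (z + ξ)) := hg.comp (measurable_const_add z)
  rw [h1, polar_aux _ (hg'.indicator measurableSet_ball)]
  rw [← lintegral_indicator measurableSet_Ioi, ← lintegral_indicator measurableSet_Ioo]
  refine lintegral_congr fun r => ?_
  by_cases hr : r ∈ Ioi (0:ℝ)
  · rw [indicator_of_mem hr]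
    have hn : ∀ θ, ‖circleMap 0 r θ‖ = r := by
      intro θ
      rw [norm_circleMap_zero, abs_of_pos hr]
    by_cases hr2 : r < ρ
    · rw [indicator_of_mem (show r ∈ Ioo (0:ℝ) ρ from ⟨hr, hr2⟩)]
      congr 1
      refine lintegral_congr fun θ => ?_
      rw [indicator_of_mem (by rw [mem_ball_zero_iff, hn]; exact hr2)]
      simp [circleMap]
    · rw [indicator_of_notMem (fun h => hr2 h.2)]
      have : ∀ θ, (ball (0:ℂ) ρ).indicator (fun ξ => g (z + ξ)) (circleMap 0 r θ) = 0 := by
        intro θ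
        apply indicator_of_notMem
        rw [mem_ball_zero_iff, hn]
        exact hr2
      simp [this]
  · rw [indicator_of_notMem hr, indicator_of_notMem (fun h => hr h.1)]

/-- bound for the integral over a disc by the integrals over circles -/
theorem disc_le (g : ℂ → ℝ≥0∞) (hg : Measurable g) (z : ℂ) (ρ : ℝ) (c : ℝ≥0∞)
    (h : ∀ r ∈ Ioo (0:ℝ) ρ, ∫⁻ θ in Ioo (-Real.pi) Real.pi, g (circleMap z r θ) ≤
      c * ENNReal.ofReal (2 * Real.pi)) :
    ∫⁻ ξ in ball z ρ, g ξ ≤ c * volume (ball z ρ) := by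
  have h1 : c * volume (ball z ρ) = ∫⁻ _ in ball z ρ, c := by
    rw [setLIntegral_const]
  rw [h1, ball_polar g hg, ball_polar (fun _ => c) measurable_const]
  refine setLIntegral_mono' measurableSet_Ioo fun r hr => ?_
  refine mul_le_mul' ?_ le_rfl
  refine (h r hr).trans (le_of_eq ?_)
  rw [setLIntegral_const, Real.volume_Ioo]
  congr 2
  ring

theorem circ_log (C : ℝ) (z η : ℂ) (r : ℝ) (hr : 0 < r) (hz : z ≠ η)
    (hC : ∀ ξ ∈ sphere z r, Real.log ‖ξ - η‖ ≤ C) :
    ∫⁻ θ in Ioo (-Real.pi) Real.pi, ENNReal.ofReal (C - Real.log ‖circleMap z r θ - η‖) ≤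
      ENNReal.ofReal (C - Real.log ‖z - η‖) * ENNReal.ofReal (2 * Real.pi) := by
  have hpi := Real.pi_pos
  have hci : CircleIntegrable (fun ξ => Real.log ‖ξ - η‖) z r := circleIntegrable_log_norm_sub_const r
  have havg : Real.log ‖z - η‖ ≤ Real.circleAverage (fun ξ => Real.log ‖ξ - η‖) z r := by
    rw [circleAverage_log_norm_sub_const_eq_log_radius_add_posLog hr.ne']
    have h1 : Real.log (r⁻¹ * ‖z - η‖) ≤ Real.posLog (r⁻¹ * ‖z - η‖) := by
      exact le_max_right _ _
    have h2 : Real.log (r⁻¹ * ‖z - η‖) = - Real.log r + Real.log ‖z - η‖ := by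
      rw [Real.log_mul (inv_ne_zero hr.ne') (norm_ne_zero_iff.2 (sub_ne_zero.2 hz)), Real.log_inv]
    linarith
  have hper : Function.Periodic (fun θ => Real.log ‖circleMap z r θ - η‖) (2 * Real.pi) := by
    intro θ
    simp only
    rw [periodic_circleMap z r θ]
  have hii : IntervalIntegrable (fun θ => Real.log ‖circleMap z r θ - η‖) volume
      (-Real.pi) Real.pi := by
    have h0 : IntervalIntegrable (fun θ => Real.log ‖circleMap z r θ - η‖) volume
      0 (2 * Real.pi) := hci
    exact hper.intervalIntegrable₀ (by positivity) h0 _ _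
  have hint : IntegrableOn (fun θ => C - Real.log ‖circleMap z r θ - η‖)
      (Ioo (-Real.pi) Real.pi) := by
    rw [← integrableOn_Ioc_iff_integrableOn_Ioo]
    rw [intervalIntegrable_iff_integrableOn_Ioc_of_le (by linarith)] at hii
    exact (integrableOn_const (by simp)).sub hii
  rw [← ofReal_integral_eq_lintegral_ofReal hint]
  · rw [← ENNReal.ofReal_mul' (by positivity)]
    apply ENNReal.ofReal_le_ofReal
    rw [← integral_Ioc_eq_integral_Ioo, ← intervalIntegral.integral_of_le (by linarith)]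
    rw [intervalIntegral.integral_sub (by simp) hii]
    rw [intervalIntegral.integral_const]
    have h3 : ∫ θ in (-Real.pi)..Real.pi, Real.log ‖circleMap z r θ - η‖ =
        2 * Real.pi * Real.circleAverage (fun ξ => Real.log ‖ξ - η‖) z r := by
      rw [Real.circleAverage_def]
      have := hper.intervalIntegral_add_eq (-Real.pi) 0
      rw [show -Real.pi + 2 * Real.pi = Real.pi by ring, zero_add] at this
      rw [this, smul_eq_mul]
      field_simp
    rw [h3, smul_eq_mul]
    nlinarith
  · refine (ae_restrict_iff' measurableSet_Ioo).2 (Eventually.of_forall fun θ _ => ?_)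
    have := hC (circleMap z r θ) (circleMap_mem_sphere z hr.le θ)
    simp only [Pi.zero_apply]
    linarith

/-- the average of the logarithm over a disc -/
theorem disc_log (C : ℝ) (z η : ℂ) (ρ : ℝ) (hz : z ≠ η)
    (hC : ∀ ξ ∈ ball z ρ, Real.log ‖ξ - η‖ ≤ C) :
    ∫⁻ ξ in ball z ρ, ENNReal.ofReal (C - Real.log ‖ξ - η‖) ≤
      ENNReal.ofReal (C - Real.log ‖z - η‖) * volume (ball z ρ) := by
  apply disc_le
  · fun_prop
  · intro r hr
    refine circ_log C z η r hr.1 hz fun ξ hξ => hC ξ ?_
    rw [mem_sphere] at hξ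
    rw [mem_ball, hξ]
    exact hr.2

/-- local integrability of the logarithm -/
theorem ball_log_ne_top (C : ℝ) (η : ℂ) (s : ℝ) (hs : 0 < s) :
    ∫⁻ ξ in ball η s, ENNReal.ofReal (C - Real.log ‖ξ - η‖) ≠ ⊤ := by
  set z : ℂ := η + (s : ℂ) with hz
  have hzη : z - η = s := by simp [hz]
  have hne : z ≠ η := by
    intro h
    have : z - η = 0 := by simp [h]
    rw [hzη] at this
    exact hs.ne' (by exact_mod_cast this)
  set C' : ℝ := max C (Real.log (3 * s)) with hC'
  have hC'' : ∀ ξ ∈ ball z (2 * s), Real.log ‖ξ - η‖ ≤ max C' 0 := by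
    intro ξ hξ
    by_cases h0 : ξ = η
    · rw [h0]; simp
    · refine le_trans ?_ (le_max_left _ _)
      refine le_trans ?_ (le_max_right _ _)
      apply Real.log_le_log (norm_pos_iff.2 (sub_ne_zero.2 h0))
      have h1 : ξ - η = (ξ - z) + (z - η) := by ring
      rw [h1]
      refine (norm_add_le _ _).trans ?_
      rw [hzη, Complex.norm_real, Real.norm_eq_abs, abs_of_pos hs]
      rw [mem_ball, dist_eq_norm] at hξ
      linarith
  have h1 := disc_log (max C' 0) z η (2 * s) hne hC''
  have h2 : ∫⁻ ξ in ball η s, ENNReal.ofReal (C - Real.log ‖ξ - η‖) ≤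
      ∫⁻ ξ in ball z (2 * s), ENNReal.ofReal (max C' 0 - Real.log ‖ξ - η‖) := by
    refine (lintegral_mono_set (t := ball z (2 * s)) ?_).trans (lintegral_mono fun ξ => ?_)
    · apply ball_subset_ball'
      rw [dist_comm, dist_eq_norm, hzη, Complex.norm_real, Real.norm_eq_abs, abs_of_pos hs]
      linarith
    · apply ENNReal.ofReal_le_ofReal
      have : C ≤ max C' 0 := (le_max_left _ _).trans (le_max_left _ _)
      linarith
  refine ((h2.trans h1).trans_lt ?_).ne
  exact ENNReal.mul_lt_top ENNReal.ofReal_lt_top measure_ball_lt_top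

end Pool.Agent.H836_PV.PdAux
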