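import Pool.Agent.H836_PV.StmtsP

/-!
# Tasks Pe, Pe1: mollification (general part)
-/

open MeasureTheory Filter Topology Set Metric

namespace Pool.Agent.H836_PV

section hess

variable {E : Type*} [NormedAddCommGroup E] [NormedSpace ℝ E]

/-- everything in `HessOn` except the Lipschitz bound is automatic for `C²` functions -/
lemma hessOn_of_contDiffAt {U : Set E} {h : E → ℝ} {L : ℝ} (hh : ∀ u ∈ U, ContDiffAt ℝ 2 h u)
    (hlip : ∀ u ∈ U, ∀ v ∈ U, ∀ a, |D2 h u a a - D2 h v a a| ≤ L * ‖u - v‖ * ‖a‖ ^ 2) :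
    HessOn U h (D1 h) (D2 h) L where
  d1 u hu a := by
    have h1 : DifferentiableAt ℝ h u := (hh u hu).differentiableAt (by norm_num)
    exact h1.hasFDerivAt.hasLineDerivAt a
  d2 u hu a := by
    have h1 : ContDiffAt ℝ 1 (fderiv ℝ h) u := (hh u hu).fderiv_right (by norm_num)
    have h2 : DifferentiableAt ℝ (fderiv ℝ h) u := h1.differentiableAt (by norm_num)
    have h3 := (h2.hasFDerivAt.hasLineDerivAt a)
    have h4 : HasDerivAt (fun t : ℝ => fderiv ℝ h (u + t • a)) (fderiv ℝ (fderiv ℝ h) u a) 0 := h3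
    exact h4.clm_apply (hasDerivAt_const (0 : ℝ) a) |>.congr_deriv (by simp [D2])
  add_left u _ a b c := by simp [D2]
  smul_left u _ t a b := by simp [D2]
  symm u hu a b := by
    have h1 : IsSymmSndFDerivAt ℝ h u := (hh u hu).isSymmSndFDerivAt (by simp)
    exact h1 a b
  lip := hlip

end hess

section conv

variable {E : Type*} [NormedAddCommGroup E] [NormedSpace ℝ E] [FiniteDimensional ℝ E]
  [MeasurableSpace E] [BorelSpace E] (μ : Measure E) [μ.IsAddHaarMeasure]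

/-- convolution -/
noncomputable def cv (W Φ : E → ℝ) (x : E) : ℝ := ∫ t, W t * Φ (x - t) ∂μ

omit [NormedSpace ℝ E] [FiniteDimensional ℝ E] [BorelSpace E] [μ.IsAddHaarMeasure] in
lemma cv_eq (W Φ : E → ℝ) : cv μ W Φ = convolution W Φ (ContinuousLinearMap.mul ℝ ℝ) μ := by
  ext x
  simp [cv, convolution_def]

lemma cv_fderiv {W Φ : E → ℝ} (hW : LocallyIntegrable W μ) (hΦ : ContDiff ℝ 1 Φ)
    (hc : HasCompactSupport Φ) (q a : E) :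
    fderiv ℝ (cv μ W Φ) q a = cv μ W (fun x => fderiv ℝ Φ x a) q := by
  rw [cv_eq, (hc.hasFDerivAt_convolution_right (ContinuousLinearMap.mul ℝ ℝ) hW hΦ q).fderiv,
    convolution_precompR_apply _ hW (hc.fderiv ℝ) (hΦ.continuous_fderiv one_ne_zero), cv_eq]

omit [FiniteDimensional ℝ E] [μ.IsAddHaarMeasure] in
lemma cv_contDiff {W Φ : E → ℝ} (hW : LocallyIntegrable W μ) (hΦ : ContDiff ℝ (⊤ : ℕ∞) Φ)
    (hc : HasCompactSupport Φ) : ContDiff ℝ (⊤ : ℕ∞) (cv μ W Φ) := by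
  rw [cv_eq]
  exact hc.contDiff_convolution_right (ContinuousLinearMap.mul ℝ ℝ) hW hΦ

omit [FiniteDimensional ℝ E] [MeasurableSpace E] [BorelSpace E] in
lemma fderiv_apply_contDiff {Φ : E → ℝ} (hΦ : ContDiff ℝ (⊤ : ℕ∞) Φ) (a : E) :
    ContDiff ℝ (⊤ : ℕ∞) (fun x => fderiv ℝ Φ x a) :=
  (hΦ.fderiv_right (m := ((⊤ : ℕ∞) : WithTop ℕ∞)) (by simp)).clm_apply contDiff_const

omit [FiniteDimensional ℝ E] [MeasurableSpace E] [BorelSpace E] in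
lemma D2_eq {Φ : E → ℝ} (hΦ : ContDiff ℝ (⊤ : ℕ∞) Φ) (q a b : E) :
    fderiv ℝ (fun x => fderiv ℝ Φ x b) q a = D2 Φ q a b := by
  have h1 : ContDiff ℝ (⊤ : ℕ∞) (fderiv ℝ Φ) :=
    hΦ.fderiv_right (m := ((⊤ : ℕ∞) : WithTop ℕ∞)) (by simp)
  have h2 : DifferentiableAt ℝ (fderiv ℝ Φ) q := h1.contDiffAt.differentiableAt (by simp)
  have h3 := h2.hasFDerivAt.clm_apply (hasFDerivAt_const b q)
  rw [h3.fderiv]
  simp [D2]

lemma cv_D2 {W Φ : E → ℝ} (hW : LocallyIntegrable W μ) (hΦ : ContDiff ℝ (⊤ : ℕ∞) Φ)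
    (hc : HasCompactSupport Φ) (q a b : E) :
    D2 (cv μ W Φ) q a b = cv μ W (fun x => D2 Φ x a b) q := by
  rw [← D2_eq (cv_contDiff μ hW hΦ hc)]
  have h1 : (fun x => fderiv ℝ (cv μ W Φ) x b) = cv μ W (fun x => fderiv ℝ Φ x b) := by
    ext x
    exact cv_fderiv μ hW (hΦ.of_le (by simp)) hc x b
  rw [h1, cv_fderiv μ hW ((fderiv_apply_contDiff hΦ b).of_le (by simp)) (hc.fderiv_apply ℝ b)]
  congr 1
  ext x
  exact D2_eq hΦ x a b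

lemma cv_lip {W Ψ : E → ℝ} {K M : ℝ} (hW : ∀ x, |W x| ≤ K) (hW0 : ∀ x, x ∉ ball (0 : E) 1 → W x = 0)
    (hWi : Integrable W μ) (hΨ : Continuous Ψ) (hc : HasCompactSupport Ψ)
    (hL : ∀ x y, |Ψ x - Ψ y| ≤ M * ‖x - y‖) (p q : E) :
    |cv μ W Ψ p - cv μ W Ψ q| ≤ K * M * (μ (ball 0 1)).toReal * ‖p - q‖ := by
  obtain ⟨B, hB⟩ := hc.exists_bound_of_continuous hΨ
  have hi : ∀ p, Integrable (fun t => W t * Ψ (p - t)) μ := by
    intro p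
    refine hWi.mul_bdd (c := B) ?_ (ae_of_all _ fun t => hB _)
    exact (hΨ.comp (continuous_const.sub continuous_id)).aestronglyMeasurable
  have h1 : cv μ W Ψ p - cv μ W Ψ q = ∫ t in ball 0 1, W t * (Ψ (p - t) - Ψ (q - t)) ∂μ := by
    rw [cv, cv, ← integral_sub (hi p) (hi q), setIntegral_eq_integral_of_forall_compl_eq_zero]
    · congr 1
      ext t
      ring
    · intro t ht
      rw [hW0 t ht]
      ring
  rw [h1]
  have h2 : ∀ t ∈ ball (0 : E) 1, ‖W t * (Ψ (p - t) - Ψ (q - t))‖ ≤ K * (M * ‖p - q‖) := by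
    intro t _
    rw [norm_mul]
    have hK := hW t
    have h3 := hL (p - t) (q - t)
    rw [sub_sub_sub_cancel_right] at h3
    exact mul_le_mul hK h3 (norm_nonneg _) (le_trans (abs_nonneg _) hK)
  have h3 := norm_setIntegral_le_of_norm_le_const (μ := μ) (s := ball (0 : E) 1)
    (f := fun t => W t * (Ψ (p - t) - Ψ (q - t))) measure_ball_lt_top h2
  rw [Real.norm_eq_abs] at h3
  refine h3.trans (le_of_eq ?_)
  rw [Measure.real]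
  ring

omit [FiniteDimensional ℝ E] [MeasurableSpace E] [BorelSpace E] in
lemma transfer {h F : E → ℝ} (hF : ContDiff ℝ (⊤ : ℕ∞) F) {p₀ : E} {r : ℝ} {U : Set E}
    (hU : IsOpen U) (hh : ∀ p ∈ U, h p = F (r⁻¹ • (p - p₀))) :
    (∀ p ∈ U, ContDiffAt ℝ (⊤ : ℕ∞) h p) ∧
    (∀ p ∈ U, ∀ a b, D2 h p a b = r⁻¹ ^ 2 * D2 F (r⁻¹ • (p - p₀)) a b) := by
  set G : E → ℝ := fun p => F (r⁻¹ • (p - p₀)) with hG
  have hGc : ContDiff ℝ (⊤ : ℕ∞) G :=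
    hF.comp ((contDiff_id.sub contDiff_const).const_smul r⁻¹)
  have heq : ∀ p ∈ U, h =ᶠ[𝓝 p] G := by
    intro p hp
    filter_upwards [hU.mem_nhds hp] with x hx using hh x hx
  refine ⟨fun p hp => hGc.contDiffAt.congr_of_eventuallyEq (heq p hp), fun p hp a b => ?_⟩
  have h1 : fderiv ℝ h =ᶠ[𝓝 p] fderiv ℝ G := (heq p hp).fderiv
  have h2 : D2 h p a b = D2 G p a b := by
    rw [D2, D2, h1.fderiv_eq]
  have hB : ∀ x : E, HasFDerivAt (fun x : E => r⁻¹ • (x - p₀)) (r⁻¹ • ContinuousLinearMap.id ℝ E) x :=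
    fun x => ((hasFDerivAt_id x).sub_const p₀).const_smul r⁻¹
  have h3 : fderiv ℝ G = fun x => r⁻¹ • fderiv ℝ F (r⁻¹ • (x - p₀)) := by
    ext x v
    have h4 : HasFDerivAt F (fderiv ℝ F (r⁻¹ • (x - p₀))) (r⁻¹ • (x - p₀)) :=
      (hF.contDiffAt.differentiableAt (by simp)).hasFDerivAt
    have h5 := h4.comp x (hB x)
    rw [show G = F ∘ (fun x : E => r⁻¹ • (x - p₀)) from rfl, h5.fderiv]
    simp
  have hF1 : ContDiff ℝ (⊤ : ℕ∞) (fderiv ℝ F) :=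
    hF.fderiv_right (m := ((⊤ : ℕ∞) : WithTop ℕ∞)) (by simp)
  have h6 : HasFDerivAt (fderiv ℝ F) (fderiv ℝ (fderiv ℝ F) (r⁻¹ • (p - p₀))) (r⁻¹ • (p - p₀)) :=
    (hF1.contDiffAt.differentiableAt (by simp)).hasFDerivAt
  have h7 := (h6.comp p (hB p)).const_smul r⁻¹
  rw [h2, D2, h3]
  have h8 : fderiv ℝ (fun x => r⁻¹ • fderiv ℝ F (r⁻¹ • (x - p₀))) p = _ := h7.fderiv
  rw [h8]
  simp [D2]
  ring

/-- mollification lemma, with constants -/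
theorem moll' {Φ : E → ℝ} (hΦ : ContDiff ℝ (⊤ : ℕ∞) Φ) (hc : HasCompactSupport Φ)
    (hs : ∀ z, 1 / 2 < ‖z‖ → Φ z = 0) {M V : ℝ} (_hM : 0 ≤ M) (hV : V = (μ (ball (0 : E) 1)).toReal)
    (hL0 : ∀ x y, |Φ x - Φ y| ≤ M * ‖x - y‖)
    (hL2 : ∀ a x y, |D2 Φ x a a - D2 Φ y a a| ≤ (M * ‖a‖ ^ 2) * ‖x - y‖)
    {h : E → ℝ} {p₀ : E} {r K : ℝ} (hr : 0 < r) (hcont : ContinuousOn h (ball p₀ r))
    (hK : ∀ p ∈ ball p₀ r, |h p| ≤ K)
    (hrep : ∀ p ∈ ball p₀ (r / 2), ∫ z, h (p - r • z) * Φ z ∂μ = h p) :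
      (∀ p ∈ ball p₀ (r / 2), ContDiffAt ℝ (⊤ : ℕ∞) h p) ∧
      (∀ u ∈ ball p₀ (r / 2), ∀ v ∈ ball p₀ (r / 2), ∀ a, |D2 h u a a - D2 h v a a| ≤
        (M * V * K / r ^ 3) * ‖u - v‖ * ‖a‖ ^ 2) ∧
      ∀ p ∈ ball p₀ (r / 2), ∀ q ∈ ball p₀ (r / 2), |h p - h q| ≤ M * V * K / r * ‖p - q‖ := by
  have hK0 : 0 ≤ K := le_trans (abs_nonneg _) (hK p₀ (mem_ball_self hr))
  have hΦ1 : ContDiff ℝ (⊤ : ℕ∞) (fderiv ℝ Φ) :=
    hΦ.fderiv_right (m := ((⊤ : ℕ∞) : WithTop ℕ∞)) (by simp)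
  have hΦ2 : ContDiff ℝ (⊤ : ℕ∞) (fderiv ℝ (fderiv ℝ Φ)) :=
    hΦ1.fderiv_right (m := ((⊤ : ℕ∞) : WithTop ℕ∞)) (by simp)
  obtain ⟨W, hWdef⟩ : ∃ W : E → ℝ, W = indicator (ball 0 1) (fun t => h (p₀ + r • t)) := ⟨_, rfl⟩
  have hmem : ∀ t ∈ ball (0 : E) 1, p₀ + r • t ∈ ball p₀ r := by
    intro t ht
    rw [mem_ball_zero_iff] at ht
    rw [mem_ball_iff_norm, add_sub_cancel_left, norm_smul, Real.norm_of_nonneg hr.le]
    nlinarith
  have hWK : ∀ x, |W x| ≤ K := by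
    intro x
    by_cases hx : x ∈ ball (0 : E) 1
    · rw [hWdef, indicator_of_mem hx]
      exact hK _ (hmem x hx)
    · rw [hWdef, indicator_of_notMem hx, abs_zero]
      exact hK0
  have hW0 : ∀ x, x ∉ ball (0 : E) 1 → W x = 0 := by
    intro x hx
    rw [hWdef, indicator_of_notMem hx]
  have hWi : Integrable W μ := by
    rw [hWdef, integrable_indicator_iff measurableSet_ball]
    refine IntegrableOn.of_bound (C := K) measure_ball_lt_top ?_ ?_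
    · refine ContinuousOn.aestronglyMeasurable ?_ measurableSet_ball
      exact hcont.comp (by fun_prop) hmem
    · refine (ae_restrict_iff' measurableSet_ball).2 (ae_of_all _ fun t ht => ?_)
      exact hK _ (hmem t ht)
  have hWl : LocallyIntegrable W μ := hWi.locallyIntegrable
  obtain ⟨F, hF⟩ : ∃ F, F = cv μ W Φ := ⟨_, rfl⟩
  have hFc : ContDiff ℝ (⊤ : ℕ∞) F := hF ▸ cv_contDiff μ hWl hΦ hc
  have hB : ∀ p ∈ ball p₀ (r / 2), r⁻¹ • (p - p₀) ∈ ball (0 : E) (1 / 2) := by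
    intro p hp
    rw [mem_ball_iff_norm] at hp
    rw [mem_ball_zero_iff, norm_smul, norm_inv, Real.norm_of_nonneg hr.le, inv_mul_lt_iff₀ hr]
    linarith
  have hhF : ∀ p ∈ ball p₀ (r / 2), h p = F (r⁻¹ • (p - p₀)) := by
    intro p hp
    rw [← hrep p hp, hF, cv, ← integral_sub_left_eq_self
      (fun t => W t * Φ (r⁻¹ • (p - p₀) - t)) μ (r⁻¹ • (p - p₀))]
    congr 1
    ext z
    rw [sub_sub_cancel]
    by_cases hz : 1 / 2 < ‖z‖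
    · rw [hs z hz]
      simp
    · push Not at hz
      have h1 : r⁻¹ • (p - p₀) - z ∈ ball (0 : E) 1 := by
        have h2 := hB p hp
        rw [mem_ball_zero_iff] at h2 ⊢
        calc ‖r⁻¹ • (p - p₀) - z‖ ≤ ‖r⁻¹ • (p - p₀)‖ + ‖z‖ := norm_sub_le _ _
          _ < 1 := by linarith
      rw [hWdef, indicator_of_mem h1]
      congr 2
      rw [smul_sub, smul_smul, mul_inv_cancel₀ hr.ne', one_smul]
      abel
  obtain ⟨hd1, hd2⟩ := transfer hFc isOpen_ball hhF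
  refine ⟨hd1, ?_, ?_⟩
  · intro u hu v hv a
    rw [hd2 u hu, hd2 v hv, hF, cv_D2 μ hWl hΦ hc, cv_D2 μ hWl hΦ hc, ← mul_sub, abs_mul]
    have hcc : HasCompactSupport (fun x => D2 Φ x a a) := by
      refine ((hc.fderiv ℝ).fderiv ℝ).comp_left (g := fun T : E →L[ℝ] E →L[ℝ] ℝ => T a a) ?_
      simp
    have hcont2 : Continuous (fun x => D2 Φ x a a) :=
      (hΦ2.continuous.clm_apply continuous_const).clm_apply continuous_const
    have h3 := cv_lip μ hWK hW0 hWi hcont2 hcc (hL2 a) (r⁻¹ • (u - p₀)) (r⁻¹ • (v - p₀))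
    have h4 : r⁻¹ • (u - p₀) - r⁻¹ • (v - p₀) = r⁻¹ • (u - v) := by
      rw [← smul_sub, sub_sub_sub_cancel_right]
    rw [h4, norm_smul, norm_inv, Real.norm_of_nonneg hr.le, ← hV] at h3
    rw [abs_of_nonneg (by positivity)]
    calc _ ≤ r⁻¹ ^ 2 * (K * (M * ‖a‖ ^ 2) * V * (r⁻¹ * ‖u - v‖)) := by gcongr
      _ = _ := by field_simp
  · intro p hp q hq
    rw [hhF p hp, hhF q hq, hF]
    have h3 := cv_lip μ hWK hW0 hWi hΦ.continuous hc hL0 (r⁻¹ • (p - p₀)) (r⁻¹ • (q - p₀))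
    have h4 : r⁻¹ • (p - p₀) - r⁻¹ • (q - p₀) = r⁻¹ • (p - q) := by
      rw [← smul_sub, sub_sub_sub_cancel_right]
    rw [h4, norm_smul, norm_inv, Real.norm_of_nonneg hr.le, ← hV] at h3
    refine h3.trans (le_of_eq ?_)
    field_simp

/-- mollification lemma -/
theorem moll {Φ : E → ℝ} (hΦ : ContDiff ℝ (⊤ : ℕ∞) Φ) (hc : HasCompactSupport Φ)
    (hs : ∀ z, 1 / 2 < ‖z‖ → Φ z = 0) :
    ∃ C : ℝ, 0 < C ∧ ∀ (h : E → ℝ) (p₀ : E) (r K : ℝ), 0 < r → ContinuousOn h (ball p₀ r) →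
      (∀ p ∈ ball p₀ r, |h p| ≤ K) →
      (∀ p ∈ ball p₀ (r / 2), ∫ z, h (p - r • z) * Φ z ∂μ = h p) →
      (∀ p ∈ ball p₀ (r / 2), ContDiffAt ℝ (⊤ : ℕ∞) h p) ∧
      HessOn (ball p₀ (r / 2)) h (D1 h) (D2 h) (C * K / r ^ 3) ∧
      ∀ p ∈ ball p₀ (r / 2), ∀ q ∈ ball p₀ (r / 2), |h p - h q| ≤ C * K / r * ‖p - q‖ := by
  -- Lipschitz constants
  have hΦ1 : ContDiff ℝ (⊤ : ℕ∞) (fderiv ℝ Φ) :=
    hΦ.fderiv_right (m := ((⊤ : ℕ∞) : WithTop ℕ∞)) (by simp)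
  have hΦ2 : ContDiff ℝ (⊤ : ℕ∞) (fderiv ℝ (fderiv ℝ Φ)) :=
    hΦ1.fderiv_right (m := ((⊤ : ℕ∞) : WithTop ℕ∞)) (by simp)
  have h0 : ∃ C, LipschitzWith C Φ :=
    ContDiff.lipschitzWith_of_hasCompactSupport hc (hΦ.of_le (m := 1) (by simp)) one_ne_zero
  have h0' : ∃ C, LipschitzWith C (fderiv ℝ (fderiv ℝ Φ)) :=
    ContDiff.lipschitzWith_of_hasCompactSupport ((hc.fderiv ℝ).fderiv ℝ)
      (hΦ2.of_le (m := 1) (by simp)) one_ne_zero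
  obtain ⟨M₀, hM₀⟩ := h0
  obtain ⟨M₂, hM₂⟩ := h0'
  have hvol : 0 < (μ (ball (0 : E) 1)).toReal :=
    ENNReal.toReal_pos (measure_ball_pos μ _ one_pos).ne' measure_ball_lt_top.ne
  obtain ⟨M, hM⟩ : ∃ M : ℝ, M = max (max (M₀ : ℝ) M₂) 1 := ⟨_, rfl⟩
  have hM1 : 1 ≤ M := hM ▸ le_max_right _ _
  have hMM0 : (M₀ : ℝ) ≤ M := hM ▸ le_trans (le_max_left _ _) (le_max_left _ _)
  have hMM2 : (M₂ : ℝ) ≤ M := hM ▸ le_trans (le_max_right _ _) (le_max_left _ _)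
  have hL : ∀ x y, |Φ x - Φ y| ≤ M * ‖x - y‖ := by
    intro x y
    refine (hM₀.norm_sub_le x y).trans ?_
    exact mul_le_mul_of_nonneg_right hMM0 (norm_nonneg _)
  have hL2 : ∀ a x y, |D2 Φ x a a - D2 Φ y a a| ≤ (M * ‖a‖ ^ 2) * ‖x - y‖ := by
    intro a x y
    have h1 : ‖fderiv ℝ (fderiv ℝ Φ) x - fderiv ℝ (fderiv ℝ Φ) y‖ ≤ M * ‖x - y‖ := by
      refine (hM₂.norm_sub_le x y).trans ?_
      exact mul_le_mul_of_nonneg_right hMM2 (norm_nonneg _)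
    have h2 : D2 Φ x a a - D2 Φ y a a =
      (fderiv ℝ (fderiv ℝ Φ) x - fderiv ℝ (fderiv ℝ Φ) y) a a := by simp [D2]
    rw [h2, ← Real.norm_eq_abs]
    calc _ ≤ ‖(fderiv ℝ (fderiv ℝ Φ) x - fderiv ℝ (fderiv ℝ Φ) y)‖ * ‖a‖ * ‖a‖ :=
          ContinuousLinearMap.le_opNorm₂ _ _ _
      _ ≤ (M * ‖x - y‖) * ‖a‖ * ‖a‖ := by gcongr
      _ = _ := by ring
  refine ⟨M * (μ (ball (0 : E) 1)).toReal, by positivity, fun h p₀ r K hr hcont hK hrep => ?_⟩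
  obtain ⟨h1, h2, h3⟩ := moll' μ hΦ hc hs (by linarith) rfl hL hL2 hr hcont hK hrep
  exact ⟨h1, hessOn_of_contDiffAt (fun u hu => (h1 u hu).of_le ENat.LEInfty.out) h2, h3⟩

end conv

end Pool.Agent.H836_PV
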