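import Pool.Agent.H836_PV.S1

/-!
# Task S2, part a : convexity of the entropy
-/

open MeasureTheory Filter Topology Set Metric

namespace Pool.Agent.H836_PV

/-- mixture of two densities -/
noncomputable def mix (t : ℝ) (ρ σ : ℂ → ℝ) (x : ℂ) : ℝ := (1 - t) * ρ x + t * σ x

lemma mix_log_le {t a b : ℝ} (ht : 0 ≤ t) (ht1 : t ≤ 1) (ha : 0 ≤ a) (hb : 0 ≤ b) :
    ((1 - t) * a + t * b) * Real.log ((1 - t) * a + t * b) ≤
      (1 - t) * (a * Real.log a) + t * (b * Real.log b) := by
  have := Real.convexOn_mul_log.2 (show a ∈ Ici (0 : ℝ) from ha) (show b ∈ Ici (0 : ℝ) from hb)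
    (by linarith : 0 ≤ 1 - t) ht (by ring)
  simpa using this

lemma xlogx_ge {x : ℝ} (hx : 0 ≤ x) : 2 * x - 2 * √x ≤ x * Real.log x := by
  rcases hx.eq_or_lt with rfl | hx
  · simp
  · have h := Real.one_sub_inv_le_log_of_pos (Real.sqrt_pos.2 hx)
    rw [Real.log_sqrt hx.le] at h
    have h1 : √x * √x = x := Real.mul_self_sqrt hx.le
    have h2 : x * (√x)⁻¹ = √x := by
      field_simp
      linarith
    have h3 := mul_le_mul_of_nonneg_left h hx.le
    linarith

lemma gap_ineq {a b l : ℝ} (ha : 0 ≤ a) (hb : 0 ≤ b) (hl : 0 < l) :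
    |a - b| ≤ 6 / l * (1 / 2 * (a * Real.log a) + 1 / 2 * (b * Real.log b) -
      ((1 - 1 / 2) * a + 1 / 2 * b) * Real.log ((1 - 1 / 2) * a + 1 / 2 * b)) +
      l / 2 * (a + b) := by
  rcases (add_nonneg ha hb).eq_or_lt with h0 | h0
  · have ha0 : a = 0 := by linarith
    have hb0 : b = 0 := by linarith
    subst ha0 hb0
    simp
  · set m := (1 - 1 / 2) * a + 1 / 2 * b with hm
    have hmp : 0 < m := by rw [hm]; linarith
    set x := a / m with hx
    set y := b / m with hy
    have hx0 : 0 ≤ x := by positivity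
    have hy0 : 0 ≤ y := by positivity
    have ea : a = m * x := by rw [hx]; field_simp
    have eb : b = m * y := by rw [hy]; field_simp
    have hxy : x + y = 2 := by
      rw [hx, hy, ← add_div, div_eq_iff hmp.ne', hm]
      ring
    have key : ∀ z : ℝ, 0 ≤ z → (m * z) * Real.log (m * z) =
        m * z * Real.log m + m * (z * Real.log z) := by
      intro z hz
      rcases hz.eq_or_lt with rfl | hz
      · simp
      · rw [Real.log_mul hmp.ne' hz.ne']
        ring
    have hq : ∀ z : ℝ, 0 ≤ z → z ≤ 2 → (z - 1) + (z - 1) ^ 2 / 6 ≤ z * Real.log z := by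
      intro z hz hz2
      have h1 := xlogx_ge hz
      have h2 : √z * √z = z := Real.mul_self_sqrt hz
      have h3 : 0 ≤ √z := Real.sqrt_nonneg z
      have h4 : √z ≤ 1.42 := by
        rw [show (1.42 : ℝ) = √(1.42 ^ 2) by rw [Real.sqrt_sq (by norm_num)]]
        apply Real.sqrt_le_sqrt
        norm_num
        linarith
      have h5 : (√z + 1) ^ 2 ≤ 6 := by linarith
      have h6 : (z - 1) ^ 2 = (√z - 1) ^ 2 * (√z + 1) ^ 2 := by
        rw [← mul_pow]
        congr 1
        linarith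
      have h7 : (z - 1) ^ 2 / 6 ≤ (√z - 1) ^ 2 := by
        rw [h6]
        have := sq_nonneg (√z - 1)
        nlinarith
      linarith
    have q1 := hq x hx0 (by linarith)
    have q2 := hq y hy0 (by linarith)
    have ey : (y - 1) ^ 2 = (x - 1) ^ 2 := by
      have : y = 2 - x := by linarith
      rw [this]; ring
    have hg : m * ((x - 1) ^ 2 / 6) ≤ 1 / 2 * (a * Real.log a) + 1 / 2 * (b * Real.log b) -
        m * Real.log m := by
      have e1 : 1 / 2 * (a * Real.log a) + 1 / 2 * (b * Real.log b) -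
        m * Real.log m = m / 2 * (x * Real.log x + y * Real.log y) := by
        rw [ea, eb, key x hx0, key y hy0]
        have : m * Real.log m = (m * x * Real.log m + m * y * Real.log m) / 2 := by
          have : m * x * Real.log m + m * y * Real.log m = m * (x + y) * Real.log m := by ring
          rw [this, hxy]; ring
        linarith
      rw [e1]
      have : (x - 1) ^ 2 / 3 ≤ x * Real.log x + y * Real.log y := by
        rw [ey] at q2
        linarith
      nlinarith
    have hab : |a - b| = 2 * m * |x - 1| := by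
      have : a - b = 2 * m * (x - 1) := by
        rw [ea, eb]
        have : y = 2 - x := by linarith
        rw [this]; ring
      rw [this, abs_mul, abs_of_pos (by positivity)]
    have hsum : a + b = 2 * m := by rw [hm]; ring
    rw [hab, hsum]
    have h1 : 6 / l * (m * ((x - 1) ^ 2 / 6)) ≤ 6 / l * (1 / 2 * (a * Real.log a) +
        1 / 2 * (b * Real.log b) - m * Real.log m) := mul_le_mul_of_nonneg_left hg (by positivity)
    refine le_trans ?_ (add_le_add_left h1 _)
    have h2 : 2 * |x - 1| ≤ (x - 1) ^ 2 / l + l := by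
      rw [← sq_abs (x - 1)]
      rw [← sub_nonneg]
      have : |x - 1| ^ 2 / l + l - 2 * |x - 1| = (|x - 1| - l) ^ 2 / l := by
        field_simp
        ring
      rw [this]
      positivity
    calc 2 * m * |x - 1| = m * (2 * |x - 1|) := by ring
      _ ≤ m * ((x - 1) ^ 2 / l + l) := mul_le_mul_of_nonneg_left h2 hmp.le
      _ = 6 / l * (m * ((x - 1) ^ 2 / 6)) + l / 2 * (2 * m) := by
        field_simp

lemma IsDens.mix {Λ : Set ℂ} (hΛ : MeasurableSet Λ) (hV : volume Λ ≠ ⊤) {ρ σ : ℂ → ℝ} {t : ℝ}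
    (h₁ : IsDens Λ ρ) (h₂ : IsDens Λ σ) (ht : 0 ≤ t) (ht1 : t ≤ 1) : IsDens Λ (mix t ρ σ) := by
  have hi : IntegrableOn (fun x => (1 - t) * ρ x) Λ := h₁.integrable.const_mul _
  have hi' : IntegrableOn (fun x => t * σ x) Λ := h₂.integrable.const_mul _
  have h1t : 0 ≤ 1 - t := by linarith
  have hnn : ∀ x ∈ Λ, 0 ≤ H836_PV.mix t ρ σ x := fun x hx => by
    have e1 := h₁.nonneg x hx
    have e2 := h₂.nonneg x hx
    unfold H836_PV.mix
    positivity
  have hint : IntegrableOn (H836_PV.mix t ρ σ) Λ := hi.add hi'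
  refine ⟨hnn, hint, ?_, ?_⟩
  · unfold H836_PV.mix
    rw [integral_add hi hi', integral_const_mul, integral_const_mul, h₁.integral, h₂.integral]
    ring
  · have : IsFiniteMeasure (volume.restrict Λ) := ⟨by simpa using hV.lt_top⟩
    have hb : IntegrableOn (fun x => |ρ x * Real.log (ρ x)| + |σ x * Real.log (σ x)| + 1) Λ :=
      (h₁.entropy.abs.add h₂.entropy.abs).add (integrable_const (1 : ℝ))
    refine Integrable.mono' hb ?_ ?_
    · have := hint.aestronglyMeasurable.aemeasurable
      exact (this.mul this.log).aestronglyMeasurable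
    · filter_upwards [ae_restrict_mem hΛ] with x hx
      have e1 := h₁.nonneg x hx
      have e2 := h₂.nonneg x hx
      have e3 := mix_log_le ht ht1 e1 e2
      have e4 := mul_log_ge (hnn x hx)
      have e5 : (1 - t) * (ρ x * Real.log (ρ x)) ≤ |ρ x * Real.log (ρ x)| := by
        calc (1 - t) * (ρ x * Real.log (ρ x)) ≤ (1 - t) * |ρ x * Real.log (ρ x)| :=
              mul_le_mul_of_nonneg_left (le_abs_self _) h1t
          _ ≤ 1 * |ρ x * Real.log (ρ x)| := by gcongr; linarith
          _ = _ := one_mul _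
      have e6 : t * (σ x * Real.log (σ x)) ≤ |σ x * Real.log (σ x)| := by
        calc t * (σ x * Real.log (σ x)) ≤ t * |σ x * Real.log (σ x)| :=
              mul_le_mul_of_nonneg_left (le_abs_self _) ht
          _ ≤ 1 * |σ x * Real.log (σ x)| := by gcongr
          _ = _ := one_mul _
      rw [Real.norm_eq_abs, abs_le]
      unfold H836_PV.mix at *
      have e7 := abs_nonneg (ρ x * Real.log (ρ x))
      have e8 := abs_nonneg (σ x * Real.log (σ x))
      constructor <;> linarith

lemma entr_mix {Λ : Set ℂ} (hΛ : MeasurableSet Λ) (hV : volume Λ ≠ ⊤) {ρ σ : ℂ → ℝ} {t : ℝ}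
    (h₁ : IsDens Λ ρ) (h₂ : IsDens Λ σ) (ht : 0 ≤ t) (ht1 : t ≤ 1) :
    (1 - t) * entr Λ ρ + t * entr Λ σ ≤ entr Λ (mix t ρ σ) := by
  have h := h₁.mix hΛ hV h₂ ht ht1
  have hi : IntegrableOn (fun x => (1 - t) * (ρ x * Real.log (ρ x))) Λ := h₁.entropy.const_mul _
  have hi' : IntegrableOn (fun x => t * (σ x * Real.log (σ x))) Λ := h₂.entropy.const_mul _
  have h2 : ∫ x in Λ, mix t ρ σ x * Real.log (mix t ρ σ x) ≤
      ∫ x in Λ, ((1 - t) * (ρ x * Real.log (ρ x)) + t * (σ x * Real.log (σ x))) :=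
    setIntegral_mono_on h.entropy (hi.add hi') hΛ
      (fun x hx => mix_log_le ht ht1 (h₁.nonneg x hx) (h₂.nonneg x hx))
  rw [integral_add hi hi', integral_const_mul, integral_const_mul] at h2
  unfold entr
  linarith

/-- the gap in the concavity of the entropy controls the distance in `L¹` -/
lemma l1_gap {Λ : Set ℂ} (hΛ : MeasurableSet Λ) (hV : volume Λ ≠ ⊤) {ρ σ : ℂ → ℝ} {l : ℝ}
    (h₁ : IsDens Λ ρ) (h₂ : IsDens Λ σ) (hl : 0 < l) :
    ∫ x in Λ, |ρ x - σ x| ≤
      6 / l * (entr Λ (mix (1 / 2) ρ σ) - 1 / 2 * entr Λ ρ - 1 / 2 * entr Λ σ) + l := by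
  have h := h₁.mix hΛ hV h₂ (by norm_num : (0 : ℝ) ≤ 1 / 2) (by norm_num)
  have i1 : IntegrableOn (fun x => 1 / 2 * (ρ x * Real.log (ρ x))) Λ := h₁.entropy.const_mul _
  have i2 : IntegrableOn (fun x => 1 / 2 * (σ x * Real.log (σ x))) Λ := h₂.entropy.const_mul _
  have i12 : IntegrableOn (fun x => 1 / 2 * (ρ x * Real.log (ρ x)) +
    1 / 2 * (σ x * Real.log (σ x))) Λ := i1.add i2
  have i3 : IntegrableOn (fun x => 1 / 2 * (ρ x * Real.log (ρ x)) +
    1 / 2 * (σ x * Real.log (σ x)) - mix (1 / 2) ρ σ x * Real.log (mix (1 / 2) ρ σ x)) Λ :=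
    i12.sub h.entropy
  have i4 : IntegrableOn (fun x => 6 / l * (1 / 2 * (ρ x * Real.log (ρ x)) +
    1 / 2 * (σ x * Real.log (σ x)) - mix (1 / 2) ρ σ x * Real.log (mix (1 / 2) ρ σ x))) Λ :=
    i3.const_mul _
  have i5 : IntegrableOn (fun x => ρ x + σ x) Λ := h₁.integrable.add h₂.integrable
  have i6 : IntegrableOn (fun x => l / 2 * (ρ x + σ x)) Λ := i5.const_mul _
  have key : ∫ x in Λ, |ρ x - σ x| ≤ ∫ x in Λ, (6 / l * (1 / 2 * (ρ x * Real.log (ρ x)) +
    1 / 2 * (σ x * Real.log (σ x)) - mix (1 / 2) ρ σ x * Real.log (mix (1 / 2) ρ σ x)) +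
    l / 2 * (ρ x + σ x)) :=
    setIntegral_mono_on (h₁.integrable.sub h₂.integrable).abs (i4.add i6) hΛ
      (fun x hx => gap_ineq (h₁.nonneg x hx) (h₂.nonneg x hx) hl)
  rw [integral_add i4 i6, integral_const_mul, integral_const_mul, integral_sub i12 h.entropy,
    integral_add i1 i2, integral_const_mul, integral_const_mul,
    integral_add h₁.integrable h₂.integrable, h₁.integral, h₂.integral] at key
  unfold entr
  linarith

end Pool.Agent.H836_PV
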