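import Pool.Agent.H836_PV.S2a

/-!
# Task S2, part b : mixtures with the uniform density
-/

open MeasureTheory Filter Topology Set Metric

namespace Pool.Agent.H836_PV

/-- the uniform density -/
noncomputable def unif (Λ : Set ℂ) (_ : ℂ) : ℝ := ((volume Λ).toReal)⁻¹

lemma isDens_unif {Λ : Set ℂ} (hV : volume Λ ≠ ⊤) (h0 : volume Λ ≠ 0) : IsDens Λ (unif Λ) := by
  have hp : 0 < (volume Λ).toReal := ENNReal.toReal_pos h0 hV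
  have : IsFiniteMeasure (volume.restrict Λ) := ⟨by simpa using hV.lt_top⟩
  refine ⟨fun x _ => by unfold unif; positivity, integrable_const _, ?_,
    integrable_const (((volume Λ).toReal)⁻¹ * Real.log ((volume Λ).toReal)⁻¹)⟩
  unfold unif
  simp [Measure.real, hp.ne']

lemma entr_unif {Λ : Set ℂ} (hV : volume Λ ≠ ⊤) (h0 : volume Λ ≠ 0) : entr Λ (unif Λ) = 0 := by
  have hp : 0 < (volume Λ).toReal := ENNReal.toReal_pos h0 hV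
  unfold entr unif
  simp [Measure.real]
  field_simp
  ring

lemma en_mix (Λ : Set ℂ) (G : ℂ → ℂ → ℝ) (t : ℝ) (ρ₁ ρ₂ σ : ℂ → ℝ) :
    en Λ G (mix t ρ₁ σ) (mix t ρ₂ σ) = (1 - t) ^ 2 * en Λ G ρ₁ ρ₂ := by
  unfold en mix
  have : ∀ x y, G x y * ((1 - t) * ρ₁ x + t * σ x - ((1 - t) * ρ₂ x + t * σ x)) *
      ((1 - t) * ρ₁ y + t * σ y - ((1 - t) * ρ₂ y + t * σ y)) =
      (1 - t) ^ 2 * (G x y * (ρ₁ x - ρ₂ x) * (ρ₁ y - ρ₂ y)) := by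
    intro x y
    ring
  simp_rw [this, integral_const_mul]
  ring

lemma ae_eq_of_l1 {Λ : Set ℂ} {ρ σ : ℂ → ℝ} (h₁ : IntegrableOn ρ Λ) (h₂ : IntegrableOn σ Λ)
    (h : ∫ x in Λ, |ρ x - σ x| ≤ 0) : ∀ᵐ x ∂(volume.restrict Λ), ρ x = σ x := by
  have h0 : ∫ x in Λ, |ρ x - σ x| = 0 :=
    le_antisymm h (integral_nonneg fun x => abs_nonneg _)
  have hi : IntegrableOn (fun x => |ρ x - σ x|) Λ := (h₁.sub h₂).abs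
  rw [integral_eq_zero_iff_of_nonneg (fun x => abs_nonneg _) hi] at h0
  filter_upwards [h0] with x hx
  have : |ρ x - σ x| = 0 := hx
  rw [abs_eq_zero] at this
  linarith

lemma ae_eq_unif {Λ : Set ℂ} (hΛ : MeasurableSet Λ) (hV : volume Λ ≠ ⊤) (h0 : volume Λ ≠ 0)
    (hJ : ∀ ρ, IsDens Λ ρ → entr Λ ρ ≤ 0) {ρ : ℂ → ℝ} (h : IsDens Λ ρ) (he : entr Λ ρ = 0) :
    ∀ᵐ x ∂(volume.restrict Λ), ρ x = unif Λ x := by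
  have hu := isDens_unif hV h0
  apply ae_eq_of_l1 h.integrable hu.integrable
  apply le_of_forall_pos_le_add
  intro l hl
  have h1 := l1_gap hΛ hV h hu hl
  have h2 := hJ _ (h.mix hΛ hV hu (by norm_num : (0 : ℝ) ≤ 1 / 2) (by norm_num))
  rw [he, entr_unif hV h0] at h1
  have h3 : 6 / l * (entr Λ (mix (1 / 2) ρ (unif Λ)) - 1 / 2 * 0 - 1 / 2 * 0) ≤ 0 :=
    mul_nonpos_of_nonneg_of_nonpos (by positivity) (by linarith)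
  linarith

lemma en_eq_zero {Λ : Set ℂ} {G : ℂ → ℂ → ℝ} {ρ₁ ρ₂ : ℂ → ℝ}
    (h : ∀ᵐ x ∂(volume.restrict Λ), ρ₁ x = ρ₂ x) : en Λ G ρ₁ ρ₂ = 0 := by
  unfold en
  have : ∫ x in Λ, ∫ y in Λ, G x y * (ρ₁ x - ρ₂ x) * (ρ₁ y - ρ₂ y) = ∫ x in Λ, (0 : ℝ) := by
    apply integral_congr_ae
    filter_upwards [h] with x hx
    simp [hx]
  rw [this]
  simp

section

variable {Λ : Set ℂ} {g : ℂ → ℂ → ℝ} {D C₃ cL CB : ℝ}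

lemma entr_neg_of_en_pos (h0 : TaskS0) (hK : Ker Λ g D C₃ cL CB) {ρ₁ ρ₂ : ℂ → ℝ}
    (h₁ : IsDens Λ ρ₁) (h₂ : IsDens Λ ρ₂) (he : 0 < en Λ (K g) ρ₁ ρ₂) :
    1 / 2 * (entr Λ ρ₁ + entr Λ ρ₂) < 0 := by
  have hJ := (h0 Λ g D C₃ cL CB hK).1
  by_contra hc
  push Not at hc
  have e1 := hJ ρ₁ h₁
  have e2 := hJ ρ₂ h₂
  have z1 : entr Λ ρ₁ = 0 := by linarith
  have z2 : entr Λ ρ₂ = 0 := by linarith
  have a1 := ae_eq_unif hK.measurableSet hK.volume_ne_top hK.volume_pos.ne' hJ h₁ z1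
  have a2 := ae_eq_unif hK.measurableSet hK.volume_ne_top hK.volume_pos.ne' hJ h₂ z2
  have : en Λ (K g) ρ₁ ρ₂ = 0 := by
    apply en_eq_zero
    filter_upwards [a1, a2] with x hx hy
    rw [hx, hy]
  linarith

lemma bddAbove_sL (h0 : TaskS0) (hK : Ker Λ g D C₃ cL CB) (ε : ℝ) :
    BddAbove {s | ∃ ρ₁ ρ₂, Adm Λ (K g) ε ρ₁ ρ₂ ∧ s = 1 / 2 * (entr Λ ρ₁ + entr Λ ρ₂)} := by
  have hJ := (h0 Λ g D C₃ cL CB hK).1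
  refine ⟨0, ?_⟩
  rintro s ⟨ρ₁, ρ₂, h, rfl⟩
  have := hJ _ h.1
  have := hJ _ h.2.1
  linarith

lemma Adm.le_sL (h0 : TaskS0) (hK : Ker Λ g D C₃ cL CB) {ε : ℝ} {ρ₁ ρ₂ : ℂ → ℝ}
    (h : Adm Λ (K g) ε ρ₁ ρ₂) : 1 / 2 * (entr Λ ρ₁ + entr Λ ρ₂) ≤ sL Λ (K g) ε :=
  le_csSup (bddAbove_sL h0 hK ε) ⟨ρ₁, ρ₂, h, rfl⟩

/-- densities whose energy is at least `4 ε` (mix with the uniform density) -/
lemma mix_sL (h0 : TaskS0) (hK : Ker Λ g D C₃ cL CB) {ε : ℝ} (hε : 0 < ε) {ρ₁ ρ₂ : ℂ → ℝ}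
    (h₁ : IsDens Λ ρ₁) (h₂ : IsDens Λ ρ₂) (he : 4 * ε ≤ en Λ (K g) ρ₁ ρ₂) :
    √(4 * ε / en Λ (K g) ρ₁ ρ₂) * (1 / 2 * (entr Λ ρ₁ + entr Λ ρ₂)) ≤ sL Λ (K g) ε := by
  have hΛ := hK.measurableSet
  have hV := hK.volume_ne_top
  have hV0 := hK.volume_pos.ne'
  have hu := isDens_unif hV hV0
  have hen : 0 < en Λ (K g) ρ₁ ρ₂ := by linarith
  set θ := √(4 * ε / en Λ (K g) ρ₁ ρ₂) with hθ
  have hθ0 : 0 ≤ θ := Real.sqrt_nonneg _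
  have hθ1 : θ ≤ 1 := by
    rw [hθ, Real.sqrt_le_one, div_le_one hen]
    exact he
  have hθ2 : θ ^ 2 * en Λ (K g) ρ₁ ρ₂ = 4 * ε := by
    rw [hθ, Real.sq_sqrt (by positivity)]
    field_simp
  have hA : Adm Λ (K g) ε (mix (1 - θ) ρ₁ (unif Λ)) (mix (1 - θ) ρ₂ (unif Λ)) := by
    refine ⟨h₁.mix hΛ hV hu (by linarith) (by linarith),
      h₂.mix hΛ hV hu (by linarith) (by linarith), ?_⟩
    rw [en_mix, ← hθ2]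
    ring
  have h1 := hA.le_sL h0 hK
  have e1 := entr_mix hΛ hV h₁ hu (t := 1 - θ) (by linarith) (by linarith)
  have e2 := entr_mix hΛ hV h₂ hu (t := 1 - θ) (by linarith) (by linarith)
  rw [entr_unif hV hV0] at e1 e2
  nlinarith

lemma le_sL (h0 : TaskS0) (hK : Ker Λ g D C₃ cL CB) {ε : ℝ} (hε : 0 < ε) {ρ₁ ρ₂ : ℂ → ℝ}
    (h₁ : IsDens Λ ρ₁) (h₂ : IsDens Λ ρ₂) (he : 4 * ε ≤ en Λ (K g) ρ₁ ρ₂) :
    1 / 2 * (entr Λ ρ₁ + entr Λ ρ₂) ≤ sL Λ (K g) ε := by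
  have h1 := mix_sL h0 hK hε h₁ h₂ he
  have hen : 0 < en Λ (K g) ρ₁ ρ₂ := by linarith
  have h2 := entr_neg_of_en_pos h0 hK h₁ h₂ hen
  have hθ1 : √(4 * ε / en Λ (K g) ρ₁ ρ₂) ≤ 1 := by
    rw [Real.sqrt_le_one, div_le_one hen]
    exact he
  nlinarith

lemma lt_sL (h0 : TaskS0) (hK : Ker Λ g D C₃ cL CB) {ε : ℝ} (hε : 0 < ε) {ρ₁ ρ₂ : ℂ → ℝ}
    (h₁ : IsDens Λ ρ₁) (h₂ : IsDens Λ ρ₂) (he : 4 * ε < en Λ (K g) ρ₁ ρ₂) :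
    1 / 2 * (entr Λ ρ₁ + entr Λ ρ₂) < sL Λ (K g) ε := by
  have h1 := mix_sL h0 hK hε h₁ h₂ he.le
  have hen : 0 < en Λ (K g) ρ₁ ρ₂ := by linarith
  have h2 := entr_neg_of_en_pos h0 hK h₁ h₂ hen
  have hθ1 : √(4 * ε / en Λ (K g) ρ₁ ρ₂) < 1 := by
    rw [Real.sqrt_lt' one_pos, one_pow, div_lt_one hen]
    exact he
  nlinarith

/-- monotonicity -/
lemma sL_anti (h0 : TaskS0) (hK : Ker Λ g D C₃ cL CB) {e e' : ℝ} (he : 0 < e) (hee : e ≤ e') :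
    sL Λ (K g) e' ≤ sL Λ (K g) e := by
  obtain ⟨ρ₁, ρ₂, hA⟩ := (h0 Λ g D C₃ cL CB hK).2 e' (by linarith)
  refine csSup_le ⟨_, ρ₁, ρ₂, hA, rfl⟩ ?_
  rintro s ⟨σ₁, σ₂, h, rfl⟩
  exact le_sL h0 hK he h.1 h.2.1 (by rw [h.2.2]; linarith)

end

end Pool.Agent.H836_PV
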