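import Pool.Agent.H836_PV.S2b

/-!
# Task S2, part c : uniform approximation of the energy by functions of the cell masses
-/

open MeasureTheory Filter Topology Set Metric

namespace Pool.Agent.H836_PV

/-- energy of a step kernel -/
noncomputable def stepEn {n : ℕ} (Gt : Fin n → Fin n → ℝ) (m₁ m₂ : Fin n → ℝ) : ℝ :=
  1 / 2 * ∑ α, ∑ β, Gt α β * (m₁ α - m₂ α) * (m₁ β - m₂ β)

lemma mass_nonneg {Λ : Set ℂ} (hΛ : MeasurableSet Λ) {n : ℕ} {q : ℂ → Fin n} (hq : Measurable q)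
    {ρ : ℂ → ℝ} (h : IsDens Λ ρ) (α : Fin n) : 0 ≤ mass Λ q ρ α :=
  setIntegral_nonneg (hΛ.inter (hq (measurableSet_singleton α))) fun x hx => h.nonneg x hx.1

lemma mass_le_one {Λ : Set ℂ} (hΛ : MeasurableSet Λ) {n : ℕ} {q : ℂ → Fin n}
    {ρ : ℂ → ℝ} (h : IsDens Λ ρ) (α : Fin n) : mass Λ q ρ α ≤ 1 := by
  unfold mass
  rw [← h.integral]
  apply setIntegral_mono_set h.integrable
  · filter_upwards [ae_restrict_mem hΛ] with x hx using h.nonneg x hx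
  · exact ae_of_all _ inter_subset_left

lemma abs_mass_sub_le {Λ : Set ℂ} {n : ℕ} {q : ℂ → Fin n}
    {ρ σ : ℂ → ℝ} (h₁ : IntegrableOn ρ Λ) (h₂ : IntegrableOn σ Λ) (α : Fin n) :
    |mass Λ q ρ α - mass Λ q σ α| ≤ ∫ x in Λ, |ρ x - σ x| := by
  unfold mass
  rw [← integral_sub (h₁.mono_set inter_subset_left) (h₂.mono_set inter_subset_left)]
  refine (abs_integral_le_integral_abs).trans ?_
  have hi : IntegrableOn (fun x => |ρ x - σ x|) Λ := (h₁.sub h₂).abs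
  apply setIntegral_mono_set hi
  · exact ae_of_all _ fun x => abs_nonneg _
  · exact ae_of_all _ inter_subset_left

lemma mass_mix {Λ : Set ℂ} {n : ℕ} {q : ℂ → Fin n}
    {ρ σ : ℂ → ℝ} (h₁ : IntegrableOn ρ Λ) (h₂ : IntegrableOn σ Λ) (t : ℝ) (α : Fin n) :
    mass Λ q (mix t ρ σ) α = (1 - t) * mass Λ q ρ α + t * mass Λ q σ α := by
  unfold mass mix
  rw [integral_add ((h₁.mono_set inter_subset_left).const_mul _)
    ((h₂.mono_set inter_subset_left).const_mul _), integral_const_mul, integral_const_mul]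

lemma step_integral {Λ : Set ℂ} {n : ℕ} {q : ℂ → Fin n} (hq : Measurable q)
    (Gt : Fin n → Fin n → ℝ) {ρ₁ ρ₂ : ℂ → ℝ} (h₁ : IntegrableOn ρ₁ Λ) (h₂ : IntegrableOn ρ₂ Λ) :
    IntegrableOn (fun p : ℂ × ℂ => Gt (q p.1) (q p.2) * (ρ₁ p.1 - ρ₂ p.1) * (ρ₁ p.2 - ρ₂ p.2))
      (Λ ×ˢ Λ) ∧
    1 / 2 * ∫ p in Λ ×ˢ Λ, Gt (q p.1) (q p.2) * (ρ₁ p.1 - ρ₂ p.1) * (ρ₁ p.2 - ρ₂ p.2) =
      stepEn Gt (mass Λ q ρ₁) (mass Λ q ρ₂) := by
  classical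
  set w : ℂ → ℝ := fun x => ρ₁ x - ρ₂ x with hw
  have hwi : IntegrableOn w Λ := h₁.sub h₂
  have hms : ∀ α, MeasurableSet (q ⁻¹' {α}) := fun α => hq (measurableSet_singleton α)
  have hwa : ∀ α, IntegrableOn ((q ⁻¹' {α}).indicator w) Λ := fun α => hwi.indicator (hms α)
  have hia : ∀ α, ∫ x in Λ, (q ⁻¹' {α}).indicator w x = mass Λ q ρ₁ α - mass Λ q ρ₂ α := by
    intro α
    rw [setIntegral_indicator (hms α)]
    unfold mass
    rw [hw, integral_sub (h₁.mono_set inter_subset_left) (h₂.mono_set inter_subset_left)]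
  have e : (fun p : ℂ × ℂ => Gt (q p.1) (q p.2) * (ρ₁ p.1 - ρ₂ p.1) * (ρ₁ p.2 - ρ₂ p.2)) =
      fun p : ℂ × ℂ => ∑ α, ∑ β, Gt α β * ((q ⁻¹' {α}).indicator w p.1 *
        (q ⁻¹' {β}).indicator w p.2) := by
    ext p
    rw [Finset.sum_eq_single (q p.1), Finset.sum_eq_single (q p.2)]
    · rw [indicator_of_mem (show p.1 ∈ q ⁻¹' {q p.1} from rfl),
        indicator_of_mem (show p.2 ∈ q ⁻¹' {q p.2} from rfl)]
      ring
    · intro β _ hβ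
      rw [indicator_of_notMem (s := q ⁻¹' {β}) (a := p.2) (fun h => hβ (by
        have : q p.2 = β := h
        exact this.symm))]
      ring
    · intro h
      exact absurd (Finset.mem_univ _) h
    · intro α _ hα
      apply Finset.sum_eq_zero
      intro β _
      rw [indicator_of_notMem (s := q ⁻¹' {α}) (a := p.1) (fun h => hα (by
        have : q p.1 = α := h
        exact this.symm))]
      ring
    · intro h
      exact absurd (Finset.mem_univ _) h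
  have hi2 : ∀ α β, IntegrableOn (fun p : ℂ × ℂ => Gt α β * ((q ⁻¹' {α}).indicator w p.1 *
        (q ⁻¹' {β}).indicator w p.2)) (Λ ×ˢ Λ) := by
    intro α β
    rw [IntegrableOn, vol_prod_restrict]
    exact ((hwa α).mul_prod (hwa β)).const_mul _
  constructor
  · rw [e]
    exact integrable_finsetSum _ fun α _ => integrable_finsetSum _ fun β _ => hi2 α β
  · rw [e, integral_finsetSum _ fun α _ => integrable_finsetSum _ fun β _ => hi2 α β]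
    unfold stepEn
    congr 1
    apply Finset.sum_congr rfl
    intro α _
    rw [integral_finsetSum _ fun β _ => hi2 α β]
    apply Finset.sum_congr rfl
    intro β _
    rw [integral_const_mul, mul_assoc]
    congr 1
    rw [vol_prod_restrict, integral_prod_mul ((q ⁻¹' {α}).indicator w)
      ((q ⁻¹' {β}).indicator w), hia, hia]

section

variable {Λ : Set ℂ} {g : ℂ → ℂ → ℝ} {D C₃ cL CB : ℝ}

lemma en_eq (hK : Ker Λ g D C₃ cL CB) {ρ₁ ρ₂ : ℂ → ℝ} (h₁ : IsDens Λ ρ₁) (h₂ : IsDens Λ ρ₂) :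
    IntegrableOn (fun p : ℂ × ℂ => K g p.1 p.2 * (ρ₁ p.1 - ρ₂ p.1) * (ρ₁ p.2 - ρ₂ p.2))
      (Λ ×ˢ Λ) ∧
    en Λ (K g) ρ₁ ρ₂ =
      1 / 2 * ∫ p in Λ ×ˢ Λ, K g p.1 p.2 * (ρ₁ p.1 - ρ₂ p.1) * (ρ₁ p.2 - ρ₂ p.2) := by
  have hS := (taskS1 Λ g D C₃ cL CB hK).1
  have hi : IntegrableOn (fun p : ℂ × ℂ => K g p.1 p.2 * (ρ₁ p.1 - ρ₂ p.1) *
      (ρ₁ p.2 - ρ₂ p.2)) (Λ ×ˢ Λ) := by
    have := ((hS ρ₁ ρ₁ h₁ h₁).sub (hS ρ₁ ρ₂ h₁ h₂)).sub ((hS ρ₂ ρ₁ h₂ h₁).sub (hS ρ₂ ρ₂ h₂ h₂))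
    refine this.congr (Eventually.of_forall fun p => ?_)
    simp only [Pi.sub_apply]
    ring
  refine ⟨hi, ?_⟩
  unfold en
  congr 1
  exact (setIntegral_prod _ hi).symm

lemma en_approx_pt (hK : Ker Λ g D C₃ cL CB) {L ε₁ : ℝ} (hL : 0 < L) (hε₁ : 0 < ε₁)
    {n : ℕ} {q : ℂ → Fin (n + 1)} {Gt : Fin (n + 1) → Fin (n + 1) → ℝ}
    (hG : ∀ α β, 0 ≤ Gt α β ∧ Gt α β ≤ L)
    (hG2 : ∀ x ∈ Λ, ∀ y ∈ Λ, x ≠ y → q x ≠ 0 → q y ≠ 0 →
      |min (K g x y) L - Gt (q x) (q y)| ≤ ε₁) {x y : ℂ} (hx : x ∈ Λ) (hy : y ∈ Λ) (hxy : x ≠ y) :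
    |K g x y - Gt (q x) (q y)| ≤ fd (D * Real.exp (-L)) x y + ε₁ +
      L * ((q ⁻¹' {0}).indicator 1 x + (q ⁻¹' {0}).indicator 1 y) := by
  have hD : 0 < D := by linarith [hK.one_le]
  have k0 := hK.K_nonneg hx hy hxy
  have k1 := hK.K_le_fd hx hy hxy
  have hn : 0 < ‖x - y‖ := norm_pos_iff.2 (sub_ne_zero.2 hxy)
  have h1 : K g x y - min (K g x y) L ≤ fd (D * Real.exp (-L)) x y := by
    have hf := fd_nonneg (D * Real.exp (-L)) x y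
    rcases le_total (K g x y) L with h | h
    · rw [min_eq_left h]; linarith
    · rw [min_eq_right h]
      have e : Real.log (D * Real.exp (-L) / ‖x - y‖) = Real.log (D / ‖x - y‖) - L := by
        rw [mul_div_right_comm, Real.log_mul (by positivity) (Real.exp_ne_zero _), Real.log_exp]
        ring
      have : K g x y ≤ max 0 (Real.log (D / ‖x - y‖)) := k1
      rcases le_total (Real.log (D / ‖x - y‖)) 0 with h2 | h2
      · rw [max_eq_left h2] at this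
        linarith
      · rw [max_eq_right h2] at this
        unfold fd
        rw [e]
        exact le_max_of_le_right (by linarith)
  have h1' : 0 ≤ K g x y - min (K g x y) L := sub_nonneg.2 (min_le_left _ _)
  have i0 : ∀ z : ℂ, 0 ≤ (q ⁻¹' {0}).indicator (1 : ℂ → ℝ) z := fun z =>
    indicator_nonneg (fun _ _ => zero_le_one) z
  have h2 : |min (K g x y) L - Gt (q x) (q y)| ≤ ε₁ +
      L * ((q ⁻¹' {0}).indicator 1 x + (q ⁻¹' {0}).indicator 1 y) := by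
    have hb : |min (K g x y) L - Gt (q x) (q y)| ≤ L := by
      have a1 := hG (q x) (q y)
      have a2 : min (K g x y) L ≤ L := min_le_right _ _
      have a3 : 0 ≤ min (K g x y) L := le_min k0 hL.le
      rw [abs_le]
      constructor <;> linarith
    by_cases hqx : q x = 0
    · have : (q ⁻¹' {0}).indicator (1 : ℂ → ℝ) x = 1 := by
        rw [indicator_of_mem (show x ∈ q ⁻¹' {0} from hqx)]; rfl
      have := i0 y
      nlinarith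
    by_cases hqy : q y = 0
    · have : (q ⁻¹' {0}).indicator (1 : ℂ → ℝ) y = 1 := by
        rw [indicator_of_mem (show y ∈ q ⁻¹' {0} from hqy)]; rfl
      have := i0 x
      nlinarith
    have := hG2 x hx y hy hxy hqx hqy
    have e1 := i0 x
    have e2 := i0 y
    have : 0 ≤ L * ((q ⁻¹' {0}).indicator (1 : ℂ → ℝ) x + (q ⁻¹' {0}).indicator (1 : ℂ → ℝ) y) := by
      positivity
    linarith
  calc |K g x y - Gt (q x) (q y)| = |(K g x y - min (K g x y) L) +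
        (min (K g x y) L - Gt (q x) (q y))| := by congr 1; ring
    _ ≤ |K g x y - min (K g x y) L| + |min (K g x y) L - Gt (q x) (q y)| := abs_add_le _ _
    _ ≤ _ := by
      rw [abs_of_nonneg h1']
      linarith

/-- uniform approximation of the energy on densities with bounded entropy -/
lemma en_approx (h3 : TaskV3) (hK : Ker Λ g D C₃ cL CB) (Kb : ℝ) {κ : ℝ} (hκ : 0 < κ) :
    ∃ (n : ℕ) (q : ℂ → Fin (n + 1)) (Gt : Fin (n + 1) → Fin (n + 1) → ℝ), Measurable q ∧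
      ∀ ρ₁ ρ₂, IsDens Λ ρ₁ → IsDens Λ ρ₂ → ∫ x in Λ, ρ₁ x * Real.log (ρ₁ x) ≤ Kb →
        ∫ x in Λ, ρ₂ x * Real.log (ρ₂ x) ≤ Kb →
        |en Λ (K g) ρ₁ ρ₂ - stepEn Gt (mass Λ q ρ₁) (mass Λ q ρ₂)| ≤ κ := by
  have hD : 0 < D := by linarith [hK.one_le]
  have hΛ := hK.measurableSet
  obtain ⟨-, hS2, hS3⟩ := taskS1 Λ g D C₃ cL CB hK
  obtain ⟨δ₀, hδ₀, hδ₁, hfd⟩ := hS2 Kb (κ / 8) (by positivity)
  set L := Real.log (D / δ₀) with hLdef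
  have hL : 0 < L := by
    apply Real.log_pos
    rw [one_lt_div hδ₀]
    linarith [hK.one_le]
  have hDL : D * Real.exp (-L) = δ₀ := by
    rw [Real.exp_neg, hLdef, Real.exp_log (by positivity)]
    field_simp
  obtain ⟨δ₂, hδ₂, hsm⟩ := hS3 Kb (κ / (16 * L)) (by positivity)
  set ε₁ := min (κ / 8) δ₂ with hε
  have hε₁ : 0 < ε₁ := by positivity
  obtain ⟨n, q, Gt, hq, -, hG, hG2, hvol⟩ := h3 Λ g D C₃ cL CB hK ε₁ L hε₁ hL
  refine ⟨n, q, Gt, hq, ?_⟩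
  intro ρ₁ ρ₂ h₁ h₂ hb₁ hb₂
  obtain ⟨hi, he⟩ := en_eq hK h₁ h₂
  obtain ⟨hi', he'⟩ := step_integral hq Gt h₁.integrable h₂.integrable
  rw [he, ← he', ← mul_sub, ← integral_sub hi hi', abs_mul, abs_of_pos (by norm_num : (0:ℝ) < 1 / 2)]
  set s : ℂ → ℝ := fun x => ρ₁ x + ρ₂ x with hs
  have hsi : IntegrableOn s Λ := h₁.integrable.add h₂.integrable
  have hs2 : ∫ x in Λ, s x = 2 := by
    rw [hs, integral_add h₁.integrable h₂.integrable, h₁.integral, h₂.integral]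
    norm_num
  set χ : ℂ → ℝ := (q ⁻¹' {0}).indicator 1 with hχ
  have hms : MeasurableSet (q ⁻¹' {0}) := hq (measurableSet_singleton 0)
  have hcs : (fun x => χ x * s x) = (q ⁻¹' {0}).indicator s := by
    ext x
    rw [hχ]
    by_cases hx : x ∈ q ⁻¹' {0}
    · rw [indicator_of_mem hx, indicator_of_mem hx]; simp
    · rw [indicator_of_notMem hx, indicator_of_notMem hx]; simp
  have hcsi : IntegrableOn (fun x => χ x * s x) Λ := by
    rw [hcs]; exact hsi.indicator hms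
  have hcs2 : ∫ x in Λ, χ x * s x ≤ 2 * (κ / (16 * L)) := by
    have e1 : ∫ x in Λ, χ x * s x = ∫ x in Λ, (q ⁻¹' {0}).indicator s x := by rw [← hcs]
    have hv : volume (Λ ∩ q ⁻¹' {0}) ≤ ENNReal.ofReal δ₂ :=
      hvol.trans (ENNReal.ofReal_le_ofReal (min_le_right _ _))
    rw [e1, setIntegral_indicator hms, hs,
      integral_add (h₁.integrable.mono_set inter_subset_left)
        (h₂.integrable.mono_set inter_subset_left)]
    have a1 := hsm ρ₁ h₁ hb₁ _ (hΛ.inter hms) inter_subset_left hv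
    have a2 := hsm ρ₂ h₂ hb₂ _ (hΛ.inter hms) inter_subset_left hv
    linarith
  obtain ⟨f11, g11⟩ := hfd δ₀ hδ₀ le_rfl ρ₁ ρ₁ h₁ h₁ hb₁ hb₁
  obtain ⟨f12, g12⟩ := hfd δ₀ hδ₀ le_rfl ρ₁ ρ₂ h₁ h₂ hb₁ hb₂
  obtain ⟨f21, g21⟩ := hfd δ₀ hδ₀ le_rfl ρ₂ ρ₁ h₂ h₁ hb₂ hb₁
  obtain ⟨f22, g22⟩ := hfd δ₀ hδ₀ le_rfl ρ₂ ρ₂ h₂ h₂ hb₂ hb₂
  have jf1 : IntegrableOn (fun p : ℂ × ℂ => fd δ₀ p.1 p.2 * ρ₁ p.1 * ρ₁ p.2 +
    fd δ₀ p.1 p.2 * ρ₁ p.1 * ρ₂ p.2) (Λ ×ˢ Λ) := f11.add f12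
  have jf2 : IntegrableOn (fun p : ℂ × ℂ => fd δ₀ p.1 p.2 * ρ₂ p.1 * ρ₁ p.2 +
    fd δ₀ p.1 p.2 * ρ₂ p.1 * ρ₂ p.2) (Λ ×ˢ Λ) := f21.add f22
  have jf : IntegrableOn (fun p : ℂ × ℂ => (fd δ₀ p.1 p.2 * ρ₁ p.1 * ρ₁ p.2 +
    fd δ₀ p.1 p.2 * ρ₁ p.1 * ρ₂ p.2) + (fd δ₀ p.1 p.2 * ρ₂ p.1 * ρ₁ p.2 +
    fd δ₀ p.1 p.2 * ρ₂ p.1 * ρ₂ p.2)) (Λ ×ˢ Λ) := jf1.add jf2
  have js : IntegrableOn (fun p : ℂ × ℂ => s p.1 * s p.2) (Λ ×ˢ Λ) := by
    rw [IntegrableOn, vol_prod_restrict]; exact hsi.mul_prod hsi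
  have jc1 : IntegrableOn (fun p : ℂ × ℂ => (χ p.1 * s p.1) * s p.2) (Λ ×ˢ Λ) := by
    rw [IntegrableOn, vol_prod_restrict]; exact hcsi.mul_prod hsi
  have jc2 : IntegrableOn (fun p : ℂ × ℂ => s p.1 * (χ p.2 * s p.2)) (Λ ×ˢ Λ) := by
    rw [IntegrableOn, vol_prod_restrict]; exact hsi.mul_prod hcsi
  have jc12 : IntegrableOn (fun p : ℂ × ℂ => (χ p.1 * s p.1) * s p.2 + s p.1 * (χ p.2 * s p.2))
    (Λ ×ˢ Λ) := jc1.add jc2
  have jcL : IntegrableOn (fun p : ℂ × ℂ => L * ((χ p.1 * s p.1) * s p.2 +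
    s p.1 * (χ p.2 * s p.2))) (Λ ×ˢ Λ) := jc12.const_mul L
  have jse : IntegrableOn (fun p : ℂ × ℂ => ε₁ * (s p.1 * s p.2)) (Λ ×ˢ Λ) := js.const_mul ε₁
  have jfs : IntegrableOn (fun p : ℂ × ℂ => ((fd δ₀ p.1 p.2 * ρ₁ p.1 * ρ₁ p.2 +
    fd δ₀ p.1 p.2 * ρ₁ p.1 * ρ₂ p.2) + (fd δ₀ p.1 p.2 * ρ₂ p.1 * ρ₁ p.2 +
    fd δ₀ p.1 p.2 * ρ₂ p.1 * ρ₂ p.2)) + ε₁ * (s p.1 * s p.2)) (Λ ×ˢ Λ) := jf.add jse
  have jF := jfs.add jcL
  have hbound := norm_integral_le_of_norm_le (μ := (volume : Measure (ℂ × ℂ)).restrict (Λ ×ˢ Λ))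
    (f := fun p : ℂ × ℂ => K g p.1 p.2 * (ρ₁ p.1 - ρ₂ p.1) * (ρ₁ p.2 - ρ₂ p.2) -
      Gt (q p.1) (q p.2) * (ρ₁ p.1 - ρ₂ p.1) * (ρ₁ p.2 - ρ₂ p.2)) jF (by
      filter_upwards [ae_restrict_mem (hΛ.prod hΛ), ae_restrict_of_ae ae_ne] with p hp hne
      have hpt := en_approx_pt hK hL hε₁ hG hG2 hp.1 hp.2 hne
      rw [hDL] at hpt
      have n1 := h₁.nonneg p.1 hp.1
      have n2 := h₂.nonneg p.1 hp.1
      have n3 := h₁.nonneg p.2 hp.2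
      have n4 := h₂.nonneg p.2 hp.2
      have w1 : |ρ₁ p.1 - ρ₂ p.1| ≤ s p.1 := by
        rw [hs, abs_le]; constructor <;> simp only <;> linarith
      have w2 : |ρ₁ p.2 - ρ₂ p.2| ≤ s p.2 := by
        rw [hs, abs_le]; constructor <;> simp only <;> linarith
      rw [Real.norm_eq_abs]
      have e1 : K g p.1 p.2 * (ρ₁ p.1 - ρ₂ p.1) * (ρ₁ p.2 - ρ₂ p.2) -
        Gt (q p.1) (q p.2) * (ρ₁ p.1 - ρ₂ p.1) * (ρ₁ p.2 - ρ₂ p.2) =
        (K g p.1 p.2 - Gt (q p.1) (q p.2)) * (ρ₁ p.1 - ρ₂ p.1) * (ρ₁ p.2 - ρ₂ p.2) := by ring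
      rw [e1, abs_mul, abs_mul]
      have hx : 0 ≤ s p.1 := (abs_nonneg _).trans w1
      calc |K g p.1 p.2 - Gt (q p.1) (q p.2)| * |ρ₁ p.1 - ρ₂ p.1| * |ρ₁ p.2 - ρ₂ p.2| ≤
            (fd δ₀ p.1 p.2 + ε₁ + L * (χ p.1 + χ p.2)) * s p.1 * s p.2 := by
            have := (abs_nonneg _).trans hpt
            apply mul_le_mul _ w2 (abs_nonneg _) (by positivity)
            exact mul_le_mul hpt w1 (abs_nonneg _) (by positivity)
        _ = _ := by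
            simp only [Pi.add_apply]
            rw [hs]
            ring)
  rw [Real.norm_eq_abs] at hbound
  have hFint : ∫ p in Λ ×ˢ Λ, ((fun p : ℂ × ℂ => ((fd δ₀ p.1 p.2 * ρ₁ p.1 * ρ₁ p.2 +
    fd δ₀ p.1 p.2 * ρ₁ p.1 * ρ₂ p.2) + (fd δ₀ p.1 p.2 * ρ₂ p.1 * ρ₁ p.2 +
    fd δ₀ p.1 p.2 * ρ₂ p.1 * ρ₂ p.2)) + ε₁ * (s p.1 * s p.2)) +
    (fun p : ℂ × ℂ => L * ((χ p.1 * s p.1) * s p.2 +
    s p.1 * (χ p.2 * s p.2)))) p ≤ κ / 2 + κ / 2 + κ / 2 := by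
    simp only [Pi.add_apply]
    rw [integral_add jfs jcL, integral_add jf jse, integral_add jf1 jf2, integral_add f11 f12,
      integral_add f21 f22, integral_const_mul, integral_const_mul, integral_add jc1 jc2]
    have t1 : ∫ p in Λ ×ˢ Λ, s p.1 * s p.2 = 4 := by
      rw [vol_prod_restrict, integral_prod_mul s s, hs2]; norm_num
    have t2 : ∫ p in Λ ×ˢ Λ, (χ p.1 * s p.1) * s p.2 = (∫ x in Λ, χ x * s x) * 2 := by
      rw [vol_prod_restrict, integral_prod_mul (fun x => χ x * s x) s, hs2]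
    have t3 : ∫ p in Λ ×ˢ Λ, s p.1 * (χ p.2 * s p.2) = 2 * (∫ x in Λ, χ x * s x) := by
      rw [vol_prod_restrict, integral_prod_mul s (fun x => χ x * s x), hs2]
    rw [t1, t2, t3]
    have u1 : ε₁ * 4 ≤ κ / 2 := by
      have : ε₁ ≤ κ / 8 := min_le_left _ _
      linarith
    have u2 : L * ((∫ x in Λ, χ x * s x) * 2 + 2 * (∫ x in Λ, χ x * s x)) ≤ κ / 2 := by
      calc L * ((∫ x in Λ, χ x * s x) * 2 + 2 * (∫ x in Λ, χ x * s x)) =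
            4 * L * (∫ x in Λ, χ x * s x) := by ring
        _ ≤ 4 * L * (2 * (κ / (16 * L))) := by gcongr
        _ = κ / 2 := by field_simp; norm_num
    linarith
  have := hbound.trans hFint
  linarith

end

end Pool.Agent.H836_PV
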