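import Pool.Agent.H836_PV.S2c

/-!
# Task S2, part d : completeness of `L¹`, Fatou
-/

open MeasureTheory Filter Topology Set Metric

namespace Pool.Agent.H836_PV

lemma dist_toL1 {μ : Measure ℂ} {f h : ℂ → ℝ} (hf : Integrable f μ) (hh : Integrable h μ) :
    dist (hf.toL1 f) (hh.toL1 h) = ∫ x, |f x - h x| ∂μ := by
  rw [dist_eq_norm, ← Integrable.toL1_sub, L1.norm_of_fun_eq_integral_norm]
  rfl

/-- completeness -/
lemma exists_l1_limit {Λ : Set ℂ} (hΛ : MeasurableSet Λ) {f : ℕ → ℂ → ℝ}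
    (hf : ∀ n, IntegrableOn (f n) Λ) (h0 : ∀ n, ∀ x ∈ Λ, 0 ≤ f n x)
    (hc : ∀ κ : ℝ, 0 < κ → ∃ N, ∀ n, N ≤ n → ∀ m, N ≤ m → ∫ x in Λ, |f n x - f m x| < κ) :
    ∃ σ : ℂ → ℝ, (∀ x, 0 ≤ σ x) ∧ IntegrableOn σ Λ ∧
      Tendsto (fun n => ∫ x in Λ, |f n x - σ x|) atTop (𝓝 0) := by
  have hf' : ∀ n, Integrable (f n) (volume.restrict Λ) := hf
  let F : ℕ → (ℂ →₁[volume.restrict Λ] ℝ) := fun n => (hf' n).toL1 (f n)
  have hFd : ∀ n m, dist (F n) (F m) = ∫ x in Λ, |f n x - f m x| := fun n m =>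
    dist_toL1 (hf' n) (hf' m)
  have hcs : CauchySeq F := by
    rw [Metric.cauchySeq_iff]
    intro κ hκ
    obtain ⟨N, hN⟩ := hc κ hκ
    refine ⟨N, fun n hn m hm => ?_⟩
    rw [hFd]
    exact hN n hn m hm
  obtain ⟨G, hG⟩ := cauchySeq_tendsto_of_complete hcs
  have hGi : Integrable G (volume.restrict Λ) := L1.integrable_coeFn G
  have hd : ∀ n, dist (F n) G = ∫ x in Λ, |f n x - G x| := by
    intro n
    rw [← dist_toL1 (hf' n) hGi, Integrable.toL1_coeFn]
  refine ⟨fun x => |G x|, fun x => abs_nonneg _, hGi.abs, ?_⟩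
  have h1 : Tendsto (fun n => dist (F n) G) atTop (𝓝 0) := tendsto_iff_dist_tendsto_zero.1 hG
  refine squeeze_zero (fun n => integral_nonneg fun x => abs_nonneg _) (fun n => ?_) h1
  rw [hd]
  apply setIntegral_mono_on ((hf n).sub hGi.abs).abs ((hf n).sub hGi).abs hΛ
  intro x hx
  have := abs_abs_sub_abs_le (f n x) (G x)
  rwa [abs_of_nonneg (h0 n x hx)] at this

/-- a subsequence converges almost everywhere -/
lemma exists_ae_subseq {Λ : Set ℂ} {f : ℕ → ℂ → ℝ} {σ : ℂ → ℝ}
    (hf : ∀ n, IntegrableOn (f n) Λ) (hσ : IntegrableOn σ Λ)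
    (h : Tendsto (fun n => ∫ x in Λ, |f n x - σ x|) atTop (𝓝 0)) :
    ∃ ns : ℕ → ℕ, StrictMono ns ∧
      ∀ᵐ x ∂(volume.restrict Λ), Tendsto (fun i => f (ns i) x) atTop (𝓝 (σ x)) := by
  have hf' : ∀ n, Integrable (f n) (volume.restrict Λ) := hf
  have hσ' : Integrable σ (volume.restrict Λ) := hσ
  have h1 : Tendsto (fun n => (hf' n).toL1 (f n)) atTop (𝓝 (hσ'.toL1 σ)) := by
    rw [tendsto_iff_dist_tendsto_zero]
    simpa only [dist_toL1] using h
  have h2 := tendstoInMeasure_of_tendsto_Lp h1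
  have h3 : TendstoInMeasure (volume.restrict Λ) f atTop σ :=
    h2.congr (fun n => (hf' n).coeFn_toL1) hσ'.coeFn_toL1
  exact h3.exists_seq_tendsto_ae

/-- Fatou -/
lemma fatou_real {μ : Measure ℂ} {f : ℕ → ℂ → ℝ} {F : ℂ → ℝ} {C : ℝ}
    (hf : ∀ n, Integrable (f n) μ) (h0 : ∀ n, 0 ≤ᵐ[μ] f n) (hF : AEStronglyMeasurable F μ)
    (hlim : ∀ᵐ x ∂μ, Tendsto (fun n => f n x) atTop (𝓝 (F x)))
    (hC : ∃ᶠ n in atTop, ∫ x, f n x ∂μ ≤ C) : Integrable F μ ∧ ∫ x, F x ∂μ ≤ C := by
  have hF0 : 0 ≤ᵐ[μ] F := by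
    have := ae_all_iff.2 h0
    filter_upwards [hlim, this] with x hx h0x
    exact ge_of_tendsto' hx h0x
  have hC0 : 0 ≤ C := by
    obtain ⟨n, hn⟩ := hC.exists
    exact (integral_nonneg_of_ae (h0 n)).trans hn
  have h1 : ∫⁻ x, ENNReal.ofReal (F x) ∂μ ≤ ENNReal.ofReal C := by
    calc ∫⁻ x, ENNReal.ofReal (F x) ∂μ =
          ∫⁻ x, liminf (fun n => ENNReal.ofReal (f n x)) atTop ∂μ := by
          apply lintegral_congr_ae
          filter_upwards [hlim] with x hx
          exact ((ENNReal.continuous_ofReal.tendsto _).comp hx).liminf_eq.symm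
      _ ≤ liminf (fun n => ∫⁻ x, ENNReal.ofReal (f n x) ∂μ) atTop :=
          lintegral_liminf_le' fun n => (hf n).aestronglyMeasurable.aemeasurable.ennreal_ofReal
      _ ≤ ENNReal.ofReal C := by
          apply liminf_le_of_frequently_le'
          refine hC.mono fun n hn => ?_
          rw [← ofReal_integral_eq_lintegral_ofReal (hf n) (h0 n)]
          exact ENNReal.ofReal_le_ofReal hn
  have hi : Integrable F μ := by
    refine ⟨hF, ?_⟩
    rw [hasFiniteIntegral_iff_ofReal hF0]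
    exact h1.trans_lt ENNReal.ofReal_lt_top
  refine ⟨hi, ?_⟩
  rw [← ofReal_integral_eq_lintegral_ofReal hi hF0] at h1
  exact (ENNReal.ofReal_le_ofReal_iff hC0).1 h1

/-- lower semicontinuity of the entropy under convergence in `L¹` -/
lemma entropy_lsc {Λ : Set ℂ} (hΛ : MeasurableSet Λ) (hV : volume Λ ≠ ⊤) {f h : ℕ → ℂ → ℝ}
    {σ τ : ℂ → ℝ} (hf : ∀ n, IsDens Λ (f n)) (hh : ∀ n, IsDens Λ (h n))
    (hσ : IntegrableOn σ Λ) (hτ : IntegrableOn τ Λ)
    (h1 : Tendsto (fun n => ∫ x in Λ, |f n x - σ x|) atTop (𝓝 0))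
    (h2 : Tendsto (fun n => ∫ x in Λ, |h n x - τ x|) atTop (𝓝 0)) {C : ℝ}
    (hC : ∀ᶠ n in atTop, (∫ x in Λ, f n x * Real.log (f n x)) +
      ∫ x in Λ, h n x * Real.log (h n x) ≤ C) :
    IntegrableOn (fun x => σ x * Real.log (σ x) + τ x * Real.log (τ x)) Λ ∧
      ∫ x in Λ, (σ x * Real.log (σ x) + τ x * Real.log (τ x)) ≤ C := by
  have : IsFiniteMeasure (volume.restrict Λ) := ⟨by simpa using hV.lt_top⟩
  obtain ⟨ns, hns, ha⟩ := exists_ae_subseq (fun n => (hf n).integrable) hσ h1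
  have h2' : Tendsto (fun n => ∫ x in Λ, |h (ns n) x - τ x|) atTop (𝓝 0) :=
    h2.comp hns.tendsto_atTop
  obtain ⟨ms, hms, hb⟩ := exists_ae_subseq (fun n => (hh (ns n)).integrable) hτ h2'
  have hcomp : Tendsto (fun n => ns (ms n)) atTop atTop :=
    hns.tendsto_atTop.comp hms.tendsto_atTop
  have hi : ∀ n, Integrable (fun x => f (ns (ms n)) x * Real.log (f (ns (ms n)) x) +
      h (ns (ms n)) x * Real.log (h (ns (ms n)) x)) (volume.restrict Λ) := fun n =>
    (hf _).entropy.add (hh _).entropy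
  have hi2 : ∀ n, Integrable (fun x => (f (ns (ms n)) x * Real.log (f (ns (ms n)) x) +
      h (ns (ms n)) x * Real.log (h (ns (ms n)) x)) + 2) (volume.restrict Λ) := fun n =>
    (hi n).add (integrable_const 2)
  have hm : AEStronglyMeasurable (fun x => (σ x * Real.log (σ x) + τ x * Real.log (τ x)) + 2)
      (volume.restrict Λ) := by
    have e1 := hσ.aestronglyMeasurable.aemeasurable
    have e2 := hτ.aestronglyMeasurable.aemeasurable
    exact (((e1.mul e1.log).add (e2.mul e2.log)).add_const 2).aestronglyMeasurable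
  have key := fatou_real (μ := volume.restrict Λ)
    (f := fun n x => (f (ns (ms n)) x * Real.log (f (ns (ms n)) x) +
      h (ns (ms n)) x * Real.log (h (ns (ms n)) x)) + 2)
    (F := fun x => (σ x * Real.log (σ x) + τ x * Real.log (τ x)) + 2)
    (C := C + 2 * (volume Λ).toReal) hi2 (by
      intro n
      filter_upwards [ae_restrict_mem hΛ] with x hx
      have e1 := mul_log_ge ((hf (ns (ms n))).nonneg x hx)
      have e2 := mul_log_ge ((hh (ns (ms n))).nonneg x hx)
      simp only [Pi.zero_apply]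
      linarith) hm (by
      filter_upwards [ha, hb] with x hx hy
      have e1 : Tendsto (fun n => f (ns (ms n)) x) atTop (𝓝 (σ x)) := hx.comp hms.tendsto_atTop
      have e3 := (Real.continuous_mul_log.tendsto (σ x)).comp e1
      have e4 := (Real.continuous_mul_log.tendsto (τ x)).comp hy
      exact (e3.add e4).add_const 2) (by
      apply Eventually.frequently
      filter_upwards [hcomp.eventually hC] with n hn
      rw [integral_add (hi n) (integrable_const 2),
        integral_add (hf (ns (ms n))).entropy (hh (ns (ms n))).entropy]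
      simp only [integral_const, Measure.real, MeasurableSet.univ, Measure.restrict_apply,
        univ_inter, smul_eq_mul]
      linarith)
  obtain ⟨k1, k2⟩ := key
  have k3 : Integrable (fun x => σ x * Real.log (σ x) + τ x * Real.log (τ x))
      (volume.restrict Λ) := by
    have := k1.sub (integrable_const (2 : ℝ))
    refine this.congr (Eventually.of_forall fun x => ?_)
    simp
  refine ⟨k3, ?_⟩
  rw [integral_add k3 (integrable_const 2)] at k2
  simp only [integral_const, Measure.real, MeasurableSet.univ, Measure.restrict_apply,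
        univ_inter, smul_eq_mul] at k2
  linarith

end Pool.Agent.H836_PV
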