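import Pool.Agent.H836_PV.S2d

/-!
# Task S2, part e : compactness of almost maximizing sequences
-/

open MeasureTheory Filter Topology Set Metric

namespace Pool.Agent.H836_PV

lemma continuous_stepEn {n : ℕ} (Gt : Fin n → Fin n → ℝ) :
    Continuous (fun m : (Fin n → ℝ) × (Fin n → ℝ) => stepEn Gt m.1 m.2) := by
  unfold stepEn
  fun_prop

lemma tendsto_stepEn {n : ℕ} (Gt : Fin n → Fin n → ℝ) {ι : Type} {l : Filter ι}
    {u v : ι → Fin n → ℝ} {a b : Fin n → ℝ} (hu : Tendsto u l (𝓝 a)) (hv : Tendsto v l (𝓝 b)) :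
    Tendsto (fun i => stepEn Gt (u i) (v i)) l (𝓝 (stepEn Gt a b)) := by
  have h := ((continuous_stepEn Gt).tendsto (a, b)).comp (hu.prodMk_nhds hv)
  exact h

lemma tendsto_mass {Λ : Set ℂ} {n : ℕ} {q : ℂ → Fin n} {f : ℕ → ℂ → ℝ} {σ : ℂ → ℝ}
    (hf : ∀ n, IntegrableOn (f n) Λ) (hσ : IntegrableOn σ Λ)
    (h : Tendsto (fun n => ∫ x in Λ, |f n x - σ x|) atTop (𝓝 0)) :
    Tendsto (fun n => mass Λ q (f n)) atTop (𝓝 (mass Λ q σ)) := by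
  rw [tendsto_pi_nhds]
  intro α
  rw [tendsto_iff_dist_tendsto_zero]
  refine squeeze_zero (fun n => dist_nonneg) (fun n => ?_) h
  rw [Real.dist_eq]
  exact abs_mass_sub_le (hf n) hσ α

section

variable {Λ : Set ℂ} {g : ℂ → ℂ → ℝ} {D C₃ cL CB : ℝ}

lemma compact_aux (h3 : TaskV3) (hK : Ker Λ g D C₃ cL CB) {ε s Kb : ℝ} {ρ₁ ρ₂ : ℕ → ℂ → ℝ}
    (d₁ : ∀ n, IsDens Λ (ρ₁ n)) (d₂ : ∀ n, IsDens Λ (ρ₂ n))
    (b₁ : ∀ n, ∫ x in Λ, ρ₁ n x * Real.log (ρ₁ n x) ≤ Kb)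
    (b₂ : ∀ n, ∫ x in Λ, ρ₂ n x * Real.log (ρ₂ n x) ≤ Kb)
    (he : ∀ e < ε, ∀ᶠ n in atTop, 4 * e ≤ en Λ (K g) (ρ₁ n) (ρ₂ n))
    (hs : ∀ t < s, ∀ᶠ n in atTop, t ≤ 1 / 2 * (entr Λ (ρ₁ n) + entr Λ (ρ₂ n)))
    (hub : ∀ t, s < t → ∃ e < ε, ∀ τ₁ τ₂, IsDens Λ τ₁ → IsDens Λ τ₂ →
      4 * e ≤ en Λ (K g) τ₁ τ₂ → 1 / 2 * (entr Λ τ₁ + entr Λ τ₂) ≤ t) :
    ∃ φ : ℕ → ℕ, StrictMono φ ∧ ∃ σ₁ σ₂, IsDens Λ σ₁ ∧ IsDens Λ σ₂ ∧
      4 * ε ≤ en Λ (K g) σ₁ σ₂ ∧ s ≤ 1 / 2 * (entr Λ σ₁ + entr Λ σ₂) ∧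
      Tendsto (fun n => ∫ x in Λ, |ρ₁ (φ n) x - σ₁ x|) atTop (𝓝 0) ∧
      Tendsto (fun n => ∫ x in Λ, |ρ₂ (φ n) x - σ₂ x|) atTop (𝓝 0) := by
  have hΛ := hK.measurableSet
  have hV := hK.volume_ne_top
  -- step approximations of the energy
  choose N q Gt hq hG using fun j : ℕ => en_approx h3 hK Kb
    (κ := 1 / ((j : ℝ) + 1)) (by positivity)
  -- the vector of all cell masses
  let X : ℕ → (Σ j : ℕ, Fin (N j + 1)) → ℝ × ℝ := fun n i =>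
    (mass Λ (q i.1) (ρ₁ n) i.2, mass Λ (q i.1) (ρ₂ n) i.2)
  have hX : ∀ n, X n ∈ Set.pi univ (fun _ => Icc (0 : ℝ) 1 ×ˢ Icc (0 : ℝ) 1) := by
    intro n i _
    exact ⟨⟨mass_nonneg hΛ (hq i.1) (d₁ n) i.2, mass_le_one hΛ (d₁ n) i.2⟩,
      ⟨mass_nonneg hΛ (hq i.1) (d₂ n) i.2, mass_le_one hΛ (d₂ n) i.2⟩⟩
  obtain ⟨a, -, ψ, hψ, hlim⟩ := (isCompact_univ_pi fun _ : (Σ j : ℕ, Fin (N j + 1)) =>
    (isCompact_Icc (a := (0 : ℝ)) (b := 1)).prod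
      (isCompact_Icc (a := (0 : ℝ)) (b := 1))).tendsto_subseq hX
  have hl1 : ∀ j, Tendsto (fun n => mass Λ (q j) (ρ₁ (ψ n))) atTop
      (𝓝 fun α => (a ⟨j, α⟩).1) := by
    intro j
    rw [tendsto_pi_nhds]
    intro α
    exact (continuous_fst.tendsto _).comp ((tendsto_pi_nhds.1 hlim) ⟨j, α⟩)
  have hl2 : ∀ j, Tendsto (fun n => mass Λ (q j) (ρ₂ (ψ n))) atTop
      (𝓝 fun α => (a ⟨j, α⟩).2) := by
    intro j
    rw [tendsto_pi_nhds]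
    intro α
    exact (continuous_snd.tendsto _).comp ((tendsto_pi_nhds.1 hlim) ⟨j, α⟩)
  -- the midpoints
  let m₁ : ℕ × ℕ → ℂ → ℝ := fun p => mix (1 / 2) (ρ₁ (ψ p.1)) (ρ₁ (ψ p.2))
  let m₂ : ℕ × ℕ → ℂ → ℝ := fun p => mix (1 / 2) (ρ₂ (ψ p.1)) (ρ₂ (ψ p.2))
  have dm₁ : ∀ p, IsDens Λ (m₁ p) := fun p =>
    (d₁ _).mix hΛ hV (d₁ _) (by norm_num) (by norm_num)
  have dm₂ : ∀ p, IsDens Λ (m₂ p) := fun p =>
    (d₂ _).mix hΛ hV (d₂ _) (by norm_num) (by norm_num)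
  have bm₁ : ∀ p, ∫ x in Λ, m₁ p x * Real.log (m₁ p x) ≤ Kb := by
    intro p
    have h := entr_mix hΛ hV (d₁ (ψ p.1)) (d₁ (ψ p.2)) (t := 1 / 2) (by norm_num) (by norm_num)
    have e1 := b₁ (ψ p.1)
    have e2 := b₁ (ψ p.2)
    unfold entr at h
    simp only [m₁]
    linarith
  have bm₂ : ∀ p, ∫ x in Λ, m₂ p x * Real.log (m₂ p x) ≤ Kb := by
    intro p
    have h := entr_mix hΛ hV (d₂ (ψ p.1)) (d₂ (ψ p.2)) (t := 1 / 2) (by norm_num) (by norm_num)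
    have e1 := b₂ (ψ p.1)
    have e2 := b₂ (ψ p.2)
    unfold entr at h
    simp only [m₂]
    linarith
  have hfst : Tendsto (fun p : ℕ × ℕ => p.1) (atTop ×ˢ atTop) atTop := tendsto_fst
  have hsnd : Tendsto (fun p : ℕ × ℕ => p.2) (atTop ×ˢ atTop) atTop := tendsto_snd
  have hM1 : ∀ j, Tendsto (fun p : ℕ × ℕ => mass Λ (q j) (m₁ p)) (atTop ×ˢ atTop)
      (𝓝 fun α => (a ⟨j, α⟩).1) := by
    intro j
    rw [tendsto_pi_nhds]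
    intro α
    have e1 := (tendsto_pi_nhds.1 (hl1 j) α).comp hfst
    have e2 := (tendsto_pi_nhds.1 (hl1 j) α).comp hsnd
    have e3 := (e1.const_mul (1 - 1 / 2)).add (e2.const_mul (1 / 2))
    have e4 : (1 - 1 / 2) * (a ⟨j, α⟩).1 + 1 / 2 * (a ⟨j, α⟩).1 = (a ⟨j, α⟩).1 := by ring
    rw [e4] at e3
    refine e3.congr fun p => ?_
    simp only [m₁]
    rw [mass_mix (d₁ _).integrable (d₁ _).integrable]
    rfl
  have hM2 : ∀ j, Tendsto (fun p : ℕ × ℕ => mass Λ (q j) (m₂ p)) (atTop ×ˢ atTop)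
      (𝓝 fun α => (a ⟨j, α⟩).2) := by
    intro j
    rw [tendsto_pi_nhds]
    intro α
    have e1 := (tendsto_pi_nhds.1 (hl2 j) α).comp hfst
    have e2 := (tendsto_pi_nhds.1 (hl2 j) α).comp hsnd
    have e3 := (e1.const_mul (1 - 1 / 2)).add (e2.const_mul (1 / 2))
    have e4 : (1 - 1 / 2) * (a ⟨j, α⟩).2 + 1 / 2 * (a ⟨j, α⟩).2 = (a ⟨j, α⟩).2 := by ring
    rw [e4] at e3
    refine e3.congr fun p => ?_
    simp only [m₂]
    rw [mass_mix (d₂ _).integrable (d₂ _).integrable]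
    rfl
  -- the energy of the midpoints
  have hen : ∀ e < ε, ∀ᶠ p in (atTop ×ˢ atTop : Filter (ℕ × ℕ)),
      4 * e ≤ en Λ (K g) (m₁ p) (m₂ p) := by
    intro e hee
    set κ := (ε - e) / 2 with hκ
    have hκ0 : 0 < κ := by rw [hκ]; linarith
    obtain ⟨j, hj⟩ := exists_nat_one_div_lt hκ0
    have t1 : Tendsto (fun p : ℕ × ℕ => stepEn (Gt j) (mass Λ (q j) (m₁ p))
        (mass Λ (q j) (m₂ p)) - stepEn (Gt j) (mass Λ (q j) (ρ₁ (ψ p.1)))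
        (mass Λ (q j) (ρ₂ (ψ p.1)))) (atTop ×ˢ atTop) (𝓝 0) := by
      have e1 := tendsto_stepEn (Gt j) (hM1 j) (hM2 j)
      have e2 := tendsto_stepEn (Gt j) ((hl1 j).comp hfst) ((hl2 j).comp hfst)
      have e3 := e1.sub e2
      rw [sub_self] at e3
      exact e3
    have t2 := t1.eventually (Ioi_mem_nhds (show -κ < 0 by linarith))
    have t3 := hfst.eventually (hψ.tendsto_atTop.eventually (he ((e + ε) / 2) (by linarith)))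
    filter_upwards [t2, t3] with p hp2 hp3
    have k1 := hG j (m₁ p) (m₂ p) (dm₁ p) (dm₂ p) (bm₁ p) (bm₂ p)
    have k2 := hG j (ρ₁ (ψ p.1)) (ρ₂ (ψ p.1)) (d₁ _) (d₂ _) (b₁ _) (b₂ _)
    rw [abs_le] at k1 k2
    have hp2' : -κ < _ := hp2
    linarith [k1.1, k1.2, k2.1, k2.2]
  -- the entropy of the midpoints
  have hent : ∀ γ > 0, ∀ᶠ p in (atTop ×ˢ atTop : Filter (ℕ × ℕ)),
      (entr Λ (m₁ p) - 1 / 2 * entr Λ (ρ₁ (ψ p.1)) - 1 / 2 * entr Λ (ρ₁ (ψ p.2)) ≤ γ) ∧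
      (entr Λ (m₂ p) - 1 / 2 * entr Λ (ρ₂ (ψ p.1)) - 1 / 2 * entr Λ (ρ₂ (ψ p.2)) ≤ γ) := by
    intro γ hγ
    obtain ⟨e, hee, hub'⟩ := hub (s + γ / 4) (by linarith)
    have t0 := hψ.tendsto_atTop.eventually (hs (s - γ / 4) (by linarith))
    filter_upwards [hen e hee, hfst.eventually t0, hsnd.eventually t0] with p hp1 hp2 hp3
    have k1 := hub' (m₁ p) (m₂ p) (dm₁ p) (dm₂ p) hp1
    have k2 := entr_mix hΛ hV (d₁ (ψ p.1)) (d₁ (ψ p.2)) (t := 1 / 2) (by norm_num) (by norm_num)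
    have k3 := entr_mix hΛ hV (d₂ (ψ p.1)) (d₂ (ψ p.2)) (t := 1 / 2) (by norm_num) (by norm_num)
    change _ ≤ entr Λ (m₁ p) at k2
    change _ ≤ entr Λ (m₂ p) at k3
    constructor <;> linarith
  -- Cauchy in `L¹`
  have hcau : ∀ κ : ℝ, 0 < κ → ∃ N, ∀ n, N ≤ n → ∀ m, N ≤ m →
      (∫ x in Λ, |ρ₁ (ψ n) x - ρ₁ (ψ m) x| < κ) ∧ ∫ x in Λ, |ρ₂ (ψ n) x - ρ₂ (ψ m) x| < κ := by
    intro κ hκ
    have h := hent ((κ / 4) ^ 2 / 6) (by positivity)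
    rw [prod_atTop_atTop_eq, eventually_atTop_prod_self] at h
    obtain ⟨N, hN⟩ := h
    refine ⟨N, fun n hn m hm => ?_⟩
    obtain ⟨g1, g2⟩ := hN n m hn hm
    have l1 := l1_gap hΛ hV (d₁ (ψ n)) (d₁ (ψ m)) (l := κ / 4) (by positivity)
    have l2 := l1_gap hΛ hV (d₂ (ψ n)) (d₂ (ψ m)) (l := κ / 4) (by positivity)
    have c : 6 / (κ / 4) * ((κ / 4) ^ 2 / 6) = κ / 4 := by field_simp
    have c1 := mul_le_mul_of_nonneg_left g1 (show 0 ≤ 6 / (κ / 4) by positivity)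
    have c2 := mul_le_mul_of_nonneg_left g2 (show 0 ≤ 6 / (κ / 4) by positivity)
    rw [c] at c1 c2
    simp only [m₁, m₂] at c1 c2
    constructor <;> linarith
  obtain ⟨σ₁, s10, s1i, s1l⟩ := exists_l1_limit hΛ (fun n => (d₁ (ψ n)).integrable)
    (fun n => (d₁ (ψ n)).nonneg) (fun κ hκ => by
      obtain ⟨N, hN⟩ := hcau κ hκ
      exact ⟨N, fun n hn m hm => (hN n hn m hm).1⟩)
  obtain ⟨σ₂, s20, s2i, s2l⟩ := exists_l1_limit hΛ (fun n => (d₂ (ψ n)).integrable)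
    (fun n => (d₂ (ψ n)).nonneg) (fun κ hκ => by
      obtain ⟨N, hN⟩ := hcau κ hκ
      exact ⟨N, fun n hn m hm => (hN n hn m hm).2⟩)
  have hone : ∀ (f : ℕ → ℂ → ℝ) (σ : ℂ → ℝ), (∀ n, IsDens Λ (f n)) → IntegrableOn σ Λ →
      Tendsto (fun n => ∫ x in Λ, |f n x - σ x|) atTop (𝓝 0) → ∫ x in Λ, σ x = 1 := by
    intro f σ hf hσ hl
    have : |1 - ∫ x in Λ, σ x| ≤ 0 := by
      refine ge_of_tendsto' hl fun n => ?_
      rw [← (hf n).integral, ← integral_sub (hf n).integrable hσ]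
      exact abs_integral_le_integral_abs
    have := abs_nonpos_iff.1 this
    linarith
  have hE1 : IntegrableOn (fun x => σ₁ x * Real.log (σ₁ x)) Λ ∧
      ∫ x in Λ, σ₁ x * Real.log (σ₁ x) ≤ Kb := by
    obtain ⟨k1, k2⟩ := entropy_lsc hΛ hV (fun n => d₁ (ψ n)) (fun n => d₁ (ψ n)) s1i s1i s1l s1l
      (C := Kb + Kb) (Eventually.of_forall fun n => add_le_add (b₁ _) (b₁ _))
    have k3 : IntegrableOn (fun x => σ₁ x * Real.log (σ₁ x)) Λ := by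
      refine (k1.const_mul (1 / 2)).congr (Eventually.of_forall fun x => ?_)
      simp only
      ring
    rw [integral_add k3 k3] at k2
    exact ⟨k3, by linarith⟩
  have hE2 : IntegrableOn (fun x => σ₂ x * Real.log (σ₂ x)) Λ ∧
      ∫ x in Λ, σ₂ x * Real.log (σ₂ x) ≤ Kb := by
    obtain ⟨k1, k2⟩ := entropy_lsc hΛ hV (fun n => d₂ (ψ n)) (fun n => d₂ (ψ n)) s2i s2i s2l s2l
      (C := Kb + Kb) (Eventually.of_forall fun n => add_le_add (b₂ _) (b₂ _))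
    have k3 : IntegrableOn (fun x => σ₂ x * Real.log (σ₂ x)) Λ := by
      refine (k1.const_mul (1 / 2)).congr (Eventually.of_forall fun x => ?_)
      simp only
      ring
    rw [integral_add k3 k3] at k2
    exact ⟨k3, by linarith⟩
  have D1 : IsDens Λ σ₁ := ⟨fun x _ => s10 x, s1i, hone _ _ (fun n => d₁ (ψ n)) s1i s1l, hE1.1⟩
  have D2 : IsDens Λ σ₂ := ⟨fun x _ => s20 x, s2i, hone _ _ (fun n => d₂ (ψ n)) s2i s2l, hE2.1⟩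
  refine ⟨ψ, hψ, σ₁, σ₂, D1, D2, ?_, ?_, s1l, s2l⟩
  · -- energy of the limit
    by_contra hcon
    push Not at hcon
    set κ := (4 * ε - en Λ (K g) σ₁ σ₂) / 8 with hκ
    have hκ0 : 0 < κ := by rw [hκ]; linarith
    obtain ⟨j, hj⟩ := exists_nat_one_div_lt hκ0
    have u1 : Tendsto (fun n => mass Λ (q j) (ρ₁ (ψ n))) atTop (𝓝 (mass Λ (q j) σ₁)) :=
      tendsto_mass (f := fun n => ρ₁ (ψ n)) (fun n => (d₁ (ψ n)).integrable) s1i s1l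
    have u2 : Tendsto (fun n => mass Λ (q j) (ρ₂ (ψ n))) atTop (𝓝 (mass Λ (q j) σ₂)) :=
      tendsto_mass (f := fun n => ρ₂ (ψ n)) (fun n => (d₂ (ψ n)).integrable) s2i s2l
    have t1 : Tendsto (fun n => stepEn (Gt j) (mass Λ (q j) (ρ₁ (ψ n)))
        (mass Λ (q j) (ρ₂ (ψ n)))) atTop
        (𝓝 (stepEn (Gt j) (mass Λ (q j) σ₁) (mass Λ (q j) σ₂))) :=
      tendsto_stepEn (Gt j) u1 u2
    have t2 := t1.eventually (Iio_mem_nhds (show stepEn (Gt j) (mass Λ (q j) σ₁)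
      (mass Λ (q j) σ₂) < stepEn (Gt j) (mass Λ (q j) σ₁) (mass Λ (q j) σ₂) + κ by linarith))
    have t3 := hψ.tendsto_atTop.eventually (he (ε - κ) (by linarith))
    obtain ⟨n, hn2, hn3⟩ := (t2.and t3).exists
    have hn2' : _ < stepEn (Gt j) (mass Λ (q j) σ₁) (mass Λ (q j) σ₂) + κ := hn2
    have k1 := hG j σ₁ σ₂ D1 D2 hE1.2 hE2.2
    have k2 := hG j (ρ₁ (ψ n)) (ρ₂ (ψ n)) (d₁ _) (d₂ _) (b₁ _) (b₂ _)
    rw [abs_le] at k1 k2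
    have hj' : 1 / ((j : ℝ) + 1) < κ := hj
    have : 8 * κ = 4 * ε - en Λ (K g) σ₁ σ₂ := by rw [hκ]; ring
    linarith [k1.1, k1.2, k2.1, k2.2]
  · -- entropy of the limit
    apply le_of_forall_lt
    intro t ht
    obtain ⟨t', ht1, ht2⟩ := exists_between ht
    have hC : ∀ᶠ n in atTop, (∫ x in Λ, ρ₁ (ψ n) x * Real.log (ρ₁ (ψ n) x)) +
        ∫ x in Λ, ρ₂ (ψ n) x * Real.log (ρ₂ (ψ n) x) ≤
          -2 * Real.log (volume Λ).toReal - 2 * t' := by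
      filter_upwards [hψ.tendsto_atTop.eventually (hs t' ht2)] with n hn
      unfold entr at hn
      linarith
    obtain ⟨k1, k2⟩ := entropy_lsc hΛ hV (fun n => d₁ (ψ n)) (fun n => d₂ (ψ n)) s1i s2i s1l s2l hC
    rw [integral_add D1.entropy D2.entropy] at k2
    unfold entr
    linarith

end

end Pool.Agent.H836_PV
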