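import Pool.Agent.H836_PV.Defs

/-!
# Internal definitions and the statements of the tasks (every task is a `Prop`)
-/

open MeasureTheory Filter Topology Set Metric

namespace Pool.Agent.H836_PV

/-- The kernel `G^*` in terms of its regular part `g` (`Real.log 0 = 0`, so that this is the Robin
function on the diagonal). -/
noncomputable def K (g : ℂ → ℂ → ℝ) (x y : ℂ) : ℝ := g x y - Real.log ‖x - y‖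

noncomputable def Ham {ι : Type} [Fintype ι] (g : ℂ → ℂ → ℝ) (c : ι → ℝ) (x : ι → ℂ) : ℝ :=
  1 / 2 * ∑ i, ∑ j, c i * c j * K g (x i) (x j)

/-- The first derivative, in direction `a`. -/
noncomputable def D1 {V : Type*} [NormedAddCommGroup V] [NormedSpace ℝ V] (h : V → ℝ) (u a : V) : ℝ :=
  fderiv ℝ h u a

/-- The second derivative, in directions `a`, `b`. -/
noncomputable def D2 {V : Type*} [NormedAddCommGroup V] [NormedSpace ℝ V] (h : V → ℝ) (u a b : V) :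
    ℝ := fderiv ℝ (fderiv ℝ h) u a b

/-- `h` has on `U` (an open set) two derivatives along lines, the second one is a symmetric bilinear
form `B u`, whose quadratic form is `L`-Lipschitz in `u ∈ U`. -/
structure HessOn {V : Type*} [NormedAddCommGroup V] [NormedSpace ℝ V]
    (U : Set V) (h : V → ℝ) (h1 : V → V → ℝ) (B : V → V → V → ℝ) (L : ℝ) : Prop where
  d1 : ∀ u ∈ U, ∀ a, HasDerivAt (fun t : ℝ => h (u + t • a)) (h1 u a) 0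
  d2 : ∀ u ∈ U, ∀ a, HasDerivAt (fun t : ℝ => h1 (u + t • a) a) (B u a a) 0
  add_left : ∀ u ∈ U, ∀ a b c, B u (a + b) c = B u a c + B u b c
  smul_left : ∀ u ∈ U, ∀ (t : ℝ) a b, B u (t • a) b = t * B u a b
  symm : ∀ u ∈ U, ∀ a b, B u a b = B u b a
  lip : ∀ u ∈ U, ∀ v ∈ U, ∀ a, |B u a a - B v a a| ≤ L * ‖u - v‖ * ‖a‖ ^ 2

/-- What the rest of the proof uses about the Green's function; `g` is its regular part. -/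
structure Ker (Λ : Set ℂ) (g : ℂ → ℂ → ℝ) (D C₃ cL CB : ℝ) : Prop where
  isOpen : IsOpen Λ
  nonempty : Λ.Nonempty
  one_le : 1 ≤ D
  diam : ∀ x ∈ Λ, ∀ y ∈ Λ, ‖x - y‖ ≤ D
  norm_le : ∀ x ∈ Λ, ‖x‖ ≤ D
  symm : ∀ x ∈ Λ, ∀ y ∈ Λ, g x y = g y x
  le_log : ∀ x ∈ Λ, ∀ y ∈ Λ, g x y ≤ Real.log D
  log_le : ∀ x ∈ Λ, ∀ y ∈ Λ, x ≠ y → Real.log ‖x - y‖ ≤ g x y
  log_r_le : ∀ x ∈ Λ, ∀ y ∈ Λ, ∀ r, 0 < r → ball x r ⊆ Λ → Real.log r ≤ g x y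
  smooth : ContDiffOn ℝ 3 (fun p : ℂ × ℂ => g p.1 p.2) (Λ ×ˢ Λ)
  harm : ∀ y ∈ Λ, InnerProductSpace.HarmonicOnNhd (fun x => g x y) Λ
  C₃_nonneg : 0 ≤ C₃
  cL_pos : 0 < cL
  CB_nonneg : 0 ≤ CB
  hess : ∀ x₀ y₀ r, 0 < r → r ≤ 1 → ball x₀ r ⊆ Λ → ball y₀ r ⊆ Λ →
    HessOn (ball x₀ (r / 4) ×ˢ ball y₀ (r / 4)) (fun p : ℂ × ℂ => g p.1 p.2)
      (D1 (fun p : ℂ × ℂ => g p.1 p.2)) (D2 (fun p : ℂ × ℂ => g p.1 p.2)) (C₃ / r ^ 4)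
  levi : ∀ (κ : Type) [Fintype κ], Fintype.card κ = 3 → ∀ c : κ → ℝ, (∀ i, |c i| = 1) →
    ∀ u : κ → ℂ, (∀ i, u i ∈ Λ) → ∀ r, 0 < r → r ≤ 1 → (∀ i j, i ≠ j → r ≤ ‖u i - u j‖) →
    ∀ a : κ → ℂ,
      1 / 2 * ∑ i, ∑ j, c i * c j *
        (D2 (fun p : ℂ × ℂ => g p.1 p.2) (u i, u j) (a i, a j) (a i, a j) +
         D2 (fun p : ℂ × ℂ => g p.1 p.2) (u i, u j) (Complex.I * a i, Complex.I * a j)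
          (Complex.I * a i, Complex.I * a j)) ≤ - (cL * r ^ 4 * ‖a‖ ^ 2)
  hessv : ∀ v ∈ Λ, ∀ x₀ r, 0 < r → r ≤ 1 → ball x₀ r ⊆ Λ →
    HessOn (ball x₀ (r / 4)) (fun z => g z v) (D1 (fun z => g z v)) (D2 (fun z => g z v))
      (C₃ / r ^ 4)
  layer : ∀ r, 0 < r → r ≤ 1 → volume {x ∈ Λ | ¬ ball x r ⊆ Λ} ≤ ENNReal.ofReal (CB * r)

/-! ### Module P: potential theory -/

/-- TASK P (potential theory) -/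
def TaskP : Prop := ∀ (Λ : Set ℂ) (G : ℂ → ℂ → ℝ), Dom Λ → IsGreen Λ G →
  ∃ (g : ℂ → ℂ → ℝ) (D C₃ cL CB : ℝ), Ker Λ g D C₃ cL CB ∧
    ∀ x ∈ Λ, ∀ y ∈ Λ, Gstar G x y = K g x y

/-! ### Module V: large deviations, upper bound -/

/-- `f_δ(x, y) = (log (δ / |x - y|))_+` (zero for `x = y` by the conventions of Lean). -/
noncomputable def fd (δ : ℝ) (x y : ℂ) : ℝ := max 0 (Real.log (δ / ‖x - y‖))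

/-- TASK V1 (superexponential estimate) -/
def TaskV1 : Prop := ∀ D : ℝ, 1 ≤ D → ∀ η : ℝ, 0 < η → ∀ A : ℝ, 0 < A →
  ∃ δ : ℝ, 0 < δ ∧ δ < 1 ∧ ∃ N₀ : ℕ, ∀ (ι : Type) [Fintype ι], N₀ ≤ Fintype.card ι →
    ∀ Λ : Set ℂ, MeasurableSet Λ → Λ ⊆ closedBall 0 D →
      volume {x : ι → ℂ | x ∈ cf Λ ι ∧
        η * (Fintype.card ι : ℝ) ^ 2 < ∑ i, ∑ j, fd δ (x i) (x j)} ≤
      ENNReal.ofReal (Real.exp (-(A * Fintype.card ι)))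

/-- empirical masses of the cells -/
noncomputable def emp {M n : ℕ} (q : ℂ → Fin n) (x : Fin M → ℂ) (α : Fin n) : ℝ :=
  ((Finset.univ.filter fun i => q (x i) = α).card : ℝ) / M

/-- masses of the cells for a density -/
noncomputable def mass (Λ : Set ℂ) {n : ℕ} (q : ℂ → Fin n) (ρ : ℂ → ℝ) (α : Fin n) : ℝ :=
  ∫ x in Λ ∩ q ⁻¹' {α}, ρ x

/-- TASK V2 (method of types) -/
def TaskV2 : Prop := ∀ (Λ : Set ℂ), MeasurableSet Λ → volume Λ ≠ 0 → volume Λ ≠ ⊤ →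
  ∀ (M n : ℕ), 0 < M → ∀ (q : ℂ → Fin n), Measurable q → ∀ (T₁ T₂ : Fin n → ℕ),
    volume {x : Conf M | x ∈ cf Λ _ ∧ emp q (x ∘ Sum.inl) = (fun α => (T₁ α : ℝ) / M) ∧
      emp q (x ∘ Sum.inr) = (fun α => (T₂ α : ℝ) / M)} = 0 ∨
    ∃ ρ₁ ρ₂ : ℂ → ℝ, IsDens Λ ρ₁ ∧ IsDens Λ ρ₂ ∧
      (∀ x ∈ Λ, ρ₁ x = (T₁ (q x) : ℝ) / M / (volume (Λ ∩ q ⁻¹' {q x})).toReal) ∧
      (∀ x ∈ Λ, ρ₂ x = (T₂ (q x) : ℝ) / M / (volume (Λ ∩ q ⁻¹' {q x})).toReal) ∧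
      (∀ α, mass Λ q ρ₁ α = (T₁ α : ℝ) / M) ∧ (∀ α, mass Λ q ρ₂ α = (T₂ α : ℝ) / M) ∧
      volume {x : Conf M | x ∈ cf Λ _ ∧ emp q (x ∘ Sum.inl) = (fun α => (T₁ α : ℝ) / M) ∧
        emp q (x ∘ Sum.inr) = (fun α => (T₂ α : ℝ) / M)} ≤
      ENNReal.ofReal (Real.exp (-(M * ((∫ x in Λ, ρ₁ x * Real.log (ρ₁ x)) +
        ∫ x in Λ, ρ₂ x * Real.log (ρ₂ x)))))

/-- TASK V3 (step approximation of the truncated kernel) -/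
def TaskV3 : Prop := ∀ (Λ : Set ℂ) (g : ℂ → ℂ → ℝ) (D C₃ cL CB : ℝ), Ker Λ g D C₃ cL CB →
  ∀ ε₁ L : ℝ, 0 < ε₁ → 0 < L → ∃ (n : ℕ) (q : ℂ → Fin (n + 1)) (Gt : Fin (n + 1) → Fin (n + 1) → ℝ),
    Measurable q ∧ (∀ α β, Gt α β = Gt β α) ∧ (∀ α β, 0 ≤ Gt α β ∧ Gt α β ≤ L) ∧
    (∀ x ∈ Λ, ∀ y ∈ Λ, x ≠ y → q x ≠ 0 → q y ≠ 0 →
      |min (K g x y) L - Gt (q x) (q y)| ≤ ε₁) ∧
    volume (Λ ∩ q ⁻¹' {0}) ≤ ENNReal.ofReal ε₁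

/-- TASK V4 (large deviation upper bound for the volume), uses V1, V2, V3, S1 -/
def TaskV4 : Prop := ∀ (Λ : Set ℂ) (g : ℂ → ℂ → ℝ) (D C₃ cL CB : ℝ), Ker Λ g D C₃ cL CB →
  ∀ (n : ℕ) (q : ℂ → Fin n), Measurable q → ∀ (F : Set ((Fin n → ℝ) × (Fin n → ℝ)))
    (ε ε₁ v : ℝ), 0 < ε₁ → ε₁ < ε →
    (∀ ρ₁ ρ₂, IsDens Λ ρ₁ → IsDens Λ ρ₂ → 4 * (ε - ε₁) ≤ en Λ (K g) ρ₁ ρ₂ →
      (mass Λ q ρ₁, mass Λ q ρ₂) ∈ F → 1 / 2 * (entr Λ ρ₁ + entr Λ ρ₂) ≤ v) →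
    ∀ η : ℝ, 0 < η → ∃ ε₂ : ℝ, 0 < ε₂ ∧ ∃ M₀ : ℕ, ∀ M : ℕ, M₀ ≤ M →
      volume {x : Conf M | x ∈ cf Λ _ ∧ (2 * (M : ℝ)) ^ 2 * (ε - ε₂) ≤ Ham g (circ M) x ∧
        (emp q (x ∘ Sum.inl), emp q (x ∘ Sum.inr)) ∈ F} ≤
      ENNReal.ofReal (Real.exp (2 * M * (v + η))) * (volume Λ) ^ (2 * M)

/-! ### Module S: the variational problem -/

/-- TASK S1: integrability, and uniform smallness of the near diagonal part. -/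
def TaskS1 : Prop := ∀ (Λ : Set ℂ) (g : ℂ → ℂ → ℝ) (D C₃ cL CB : ℝ), Ker Λ g D C₃ cL CB →
  (∀ ρ₁ ρ₂, IsDens Λ ρ₁ → IsDens Λ ρ₂ →
    IntegrableOn (fun p : ℂ × ℂ => K g p.1 p.2 * ρ₁ p.1 * ρ₂ p.2) (Λ ×ˢ Λ)) ∧
  (∀ Kb η : ℝ, 0 < η → ∃ δ₀ : ℝ, 0 < δ₀ ∧ δ₀ < 1 ∧ ∀ δ, 0 < δ → δ ≤ δ₀ → ∀ ρ₁ ρ₂,
    IsDens Λ ρ₁ → IsDens Λ ρ₂ → ∫ x in Λ, ρ₁ x * Real.log (ρ₁ x) ≤ Kb →
    ∫ x in Λ, ρ₂ x * Real.log (ρ₂ x) ≤ Kb →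
    IntegrableOn (fun p : ℂ × ℂ => fd δ p.1 p.2 * ρ₁ p.1 * ρ₂ p.2) (Λ ×ˢ Λ) ∧
    ∫ p in Λ ×ˢ Λ, fd δ p.1 p.2 * ρ₁ p.1 * ρ₂ p.2 ≤ η) ∧
  (∀ Kb η : ℝ, 0 < η → ∃ δ₀ : ℝ, 0 < δ₀ ∧ ∀ ρ, IsDens Λ ρ →
    ∫ x in Λ, ρ x * Real.log (ρ x) ≤ Kb → ∀ A, MeasurableSet A → A ⊆ Λ →
    volume A ≤ ENNReal.ofReal δ₀ → ∫ x in A, ρ x ≤ η)

/-- TASK S0: the variational problem is not empty, and upper bound `0`. -/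
def TaskS0 : Prop := ∀ (Λ : Set ℂ) (g : ℂ → ℂ → ℝ) (D C₃ cL CB : ℝ), Ker Λ g D C₃ cL CB →
  (∀ ρ, IsDens Λ ρ → entr Λ ρ ≤ 0) ∧ ∀ ε : ℝ, 0 < ε → ∃ ρ₁ ρ₂, Adm Λ (K g) ε ρ₁ ρ₂

/-- TASK S2 (compactness, existence, left continuity), uses S1, V3, S0 -/
def TaskS2 : Prop := ∀ (Λ : Set ℂ) (g : ℂ → ℂ → ℝ) (D C₃ cL CB : ℝ), Ker Λ g D C₃ cL CB →
  ∀ ε : ℝ, 0 < ε →
  (∀ (ρ₁ ρ₂ : ℕ → ℂ → ℝ), (∀ n, IsDens Λ (ρ₁ n)) → (∀ n, IsDens Λ (ρ₂ n)) →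
    (∀ e < ε, ∀ᶠ n in atTop, 4 * e ≤ en Λ (K g) (ρ₁ n) (ρ₂ n)) →
    (∀ t < sL Λ (K g) ε, ∀ᶠ n in atTop, t ≤ 1 / 2 * (entr Λ (ρ₁ n) + entr Λ (ρ₂ n))) →
    ∃ φ : ℕ → ℕ, StrictMono φ ∧ ∃ σ₁ σ₂, IsMaxPair Λ (K g) ε σ₁ σ₂ ∧
      Tendsto (fun n => ∫ x in Λ, |ρ₁ (φ n) x - σ₁ x|) atTop (𝓝 0) ∧
      Tendsto (fun n => ∫ x in Λ, |ρ₂ (φ n) x - σ₂ x|) atTop (𝓝 0)) ∧
  (∀ η : ℝ, 0 < η → ∃ ε₁ : ℝ, 0 < ε₁ ∧ ε₁ < ε ∧ ∀ ρ₁ ρ₂, IsDens Λ ρ₁ → IsDens Λ ρ₂ →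
    4 * (ε - ε₁) ≤ en Λ (K g) ρ₁ ρ₂ →
    1 / 2 * (entr Λ ρ₁ + entr Λ ρ₂) ≤ sL Λ (K g) ε + η)

/-- a pair of bounded densities carried by a compact subset `Q` of `Λ` away from a disc -/
structure Nice (Λ : Set ℂ) (ρ₁ ρ₂ : ℂ → ℝ) (Q : Set ℂ) (c : ℂ) (r L : ℝ) : Prop where
  m₁ : Measurable ρ₁
  m₂ : Measurable ρ₂
  compact : IsCompact Q
  subset : Q ⊆ Λ
  rpos : 0 < r
  inside : closedBall c (2 * r) ⊆ Λ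
  disj : Disjoint Q (ball c (2 * r))
  zero₁ : ∀ x, x ∉ Q → ρ₁ x = 0
  zero₂ : ∀ x, x ∉ Q → ρ₂ x = 0
  nonneg₁ : ∀ x, 0 ≤ ρ₁ x
  nonneg₂ : ∀ x, 0 ≤ ρ₂ x
  le₁ : ∀ x, ρ₁ x ≤ L
  le₂ : ∀ x, ρ₂ x ≤ L
  one₁ : ∫ x in Λ, ρ₁ x = 1
  one₂ : ∫ x in Λ, ρ₂ x = 1

/-- TASK S3 (right continuity and approximation by nice pairs), uses S1 -/
def TaskS3 : Prop := ∀ (Λ : Set ℂ) (g : ℂ → ℂ → ℝ) (D C₃ cL CB : ℝ), Ker Λ g D C₃ cL CB →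
  ∀ ε η : ℝ, 0 < ε → 0 < η → ∃ (ρ₁ ρ₂ : ℂ → ℝ) (Q : Set ℂ) (c : ℂ) (r L : ℝ),
    Nice Λ ρ₁ ρ₂ Q c r L ∧ 4 * ε < en Λ (K g) ρ₁ ρ₂ ∧
    sL Λ (K g) ε - η ≤ 1 / 2 * (entr Λ ρ₁ + entr Λ ρ₂)

/-! ### Module W: lower bound for thin shells -/

/-- TASK W -/
def TaskW : Prop := ∀ (Λ : Set ℂ) (g : ℂ → ℂ → ℝ) (D C₃ cL CB : ℝ), Ker Λ g D C₃ cL CB →
  ∀ (ρ₁ ρ₂ : ℂ → ℝ) (Q : Set ℂ) (c : ℂ) (r L ε : ℝ), 0 < ε → Nice Λ ρ₁ ρ₂ Q c r L →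
    4 * ε < en Λ (K g) ρ₁ ρ₂ → ∀ η : ℝ, 0 < η → ∃ M₀ : ℕ, ∀ M : ℕ, M₀ ≤ M →
    ∀ E : ℝ, |E - (2 * (M : ℝ)) ^ 2 * ε| ≤ 1 → ∀ δ : ℝ, 0 < δ → δ ≤ 1 →
      ENNReal.ofReal (δ * Real.exp (2 * M * (1 / 2 * (entr Λ ρ₁ + entr Λ ρ₂) - η))) *
        (volume Λ) ^ (2 * M) ≤
      volume {x : Conf M | x ∈ cf Λ _ ∧ E ≤ Ham g (circ M) x ∧ Ham g (circ M) x < E + δ}

/-! ### Module L: local density -/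

/-- TASK L (local density lemma) -/
def TaskL : Prop := ∃ C : ℝ, 0 < C ∧ ∀ (κ : Type) [Fintype κ], Fintype.card κ = 3 →
  ∀ (R : Set (κ → ℂ)) (D r L lam τ : ℝ) (h : (κ → ℂ) → ℝ) (h1 : (κ → ℂ) → (κ → ℂ) → ℝ)
    (B : (κ → ℂ) → (κ → ℂ) → (κ → ℂ) → ℝ),
    MeasurableSet R → Measurable h → 1 ≤ D → R ⊆ closedBall 0 D → 0 < r → r ≤ 1 → 0 < lam →
    lam ≤ 1 → 1 ≤ L → 0 < τ →
    (∀ u ∈ R, HessOn (ball u r) h h1 B L) →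
    (∀ u ∈ R, ∀ a, B u a a + B u (Complex.I • a) (Complex.I • a) ≤ -(lam * ‖a‖ ^ 2)) →
    ∀ E δ : ℝ, 0 < δ →
      volume (R ∩ {u | E ≤ h u ∧ h u < E + δ}) ≤
        ENNReal.ofReal (C * δ * D ^ 6 / lam * (1 / r + L / lam) ^ 2) ∧
      ((∀ u ∈ R, ∀ a, |h1 u a| ≤ τ * ‖a‖) →
      volume (R ∩ {u | E ≤ h u ∧ h u < E + δ}) ≤
        ENNReal.ofReal (C * δ * D ^ 6 / lam ^ 2 * (1 / r + L / lam) ^ 3 * τ))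

/-! ### Module U: upper bound for thin shells -/

/-- vortex `i` is at distance `≥ r` from the boundary and from all other vortices in `t` -/
def Gd (Λ : Set ℂ) {ι : Type} (t : Finset ι) (r : ℝ) (x : ι → ℂ) (i : ι) : Prop :=
  ball (x i) r ⊆ Λ ∧ ∀ j ∈ t, j ≠ i → r ≤ ‖x i - x j‖

/-- TASK U (upper bound for thin shells) -/
def TaskU : Prop := ∀ (Λ : Set ℂ) (g : ℂ → ℂ → ℝ) (D C₃ cL CB : ℝ), Ker Λ g D C₃ cL CB →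
  ∃ C : ℝ, 0 < C ∧ ∀ η : ℝ, 0 < η → η < 1 → ∃ N₀ : ℕ, ∀ (ι : Type) [Fintype ι] [DecidableEq ι],
    N₀ ≤ Fintype.card ι → ∀ c : ι → ℝ, (∀ i, |c i| = 1) → ∀ (A A' : Set (ι → ℂ)),
    MeasurableSet A → MeasurableSet A' →
    (∀ x ∈ A, ∀ x', (∃ s : Finset ι, s.card = 3 ∧ ∀ i ∉ s, x' i = x i) → x' ∈ A') →
    ∀ E δ : ℝ, 0 < δ →
      volume (cf Λ ι ∩ A ∩ {x | E ≤ Ham g c x ∧ Ham g c x < E + δ}) ≤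
        ENNReal.ofReal (δ * Real.exp (C * η * Fintype.card ι)) *
          volume (cf Λ ι ∩ A' ∩ {x | E - C * η * (Fintype.card ι : ℝ) ^ 2 ≤ Ham g c x}) +
        ENNReal.ofReal (δ * Real.exp (-(η * (Fintype.card ι : ℝ) ^ 2 / 16)))

/-! ### Module Df: differentiability -/

/-- TASK Df -/
def TaskDf : Prop := ∀ (Λ : Set ℂ) (g : ℂ → ℂ → ℝ) (D C₃ cL CB : ℝ), Ker Λ g D C₃ cL CB →
  ∃ M₀ : ℕ, ∀ M : ℕ, M₀ ≤ M → ∀ F : Conf M → ℝ, ContinuousOn F (cf Λ _) →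
    (∃ C, ∀ x ∈ cf Λ _, |F x| ≤ C) → ∀ E : ℝ,
    DifferentiableAt ℝ (fun t => ∫ x in {x : Conf M | x ∈ cf Λ _ ∧ Ham g (circ M) x < t}, F x) E

end Pool.Agent.H836_PV
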