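/-
TASK S3 of project PV (MP_fa244c_mp, owner helper836), by helper777.
-/
import Pool.Agent.H836_PV.Stmts

open MeasureTheory Filter Topology Set Metric

namespace Pool.Agent.H836_PV

namespace S3

variable {Λ : Set ℂ} {g : ℂ → ℂ → ℝ} {D C₃ cL CB : ℝ}

/-! ### The kernel -/

/-- the kernel cut off outside `Λ × Λ` -/
noncomputable def Ki (Λ : Set ℂ) (g : ℂ → ℂ → ℝ) : ℂ × ℂ → ℝ :=
  (Λ ×ˢ Λ).indicator (fun p => K g p.1 p.2)

lemma measΛ (h : Ker Λ g D C₃ cL CB) : MeasurableSet Λ := h.isOpen.measurableSet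

lemma Ki_meas (h : Ker Λ g D C₃ cL CB) : Measurable (Ki Λ g) := by
  classical
  have hΛ : MeasurableSet (Λ ×ˢ Λ) := (measΛ h).prod (measΛ h)
  have h1 : Measurable ((Λ ×ˢ Λ).indicator (fun p : ℂ × ℂ => g p.1 p.2)) := by
    rw [← Set.piecewise_eq_indicator]
    exact ContinuousOn.measurable_piecewise h.smooth.continuousOn continuousOn_const hΛ
  have h2 : Measurable ((Λ ×ˢ Λ).indicator (fun p : ℂ × ℂ => Real.log ‖p.1 - p.2‖)) := by
    apply Measurable.indicator _ hΛ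
    fun_prop
  have h3 : Ki Λ g = fun p => (Λ ×ˢ Λ).indicator (fun p : ℂ × ℂ => g p.1 p.2) p -
      (Λ ×ˢ Λ).indicator (fun p : ℂ × ℂ => Real.log ‖p.1 - p.2‖) p := by
    funext p
    by_cases hp : p ∈ Λ ×ˢ Λ
    · simp only [Ki, Set.indicator_of_mem hp, K]
    · simp only [Ki, Set.indicator_of_notMem hp, sub_zero]
  rw [h3]; exact h1.sub h2

lemma K_aemeas (h : Ker Λ g D C₃ cL CB) :
    AEStronglyMeasurable (fun p : ℂ × ℂ => K g p.1 p.2) (volume.restrict (Λ ×ˢ Λ)) := by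
  have hΛ : MeasurableSet (Λ ×ˢ Λ) := (measΛ h).prod (measΛ h)
  refine ⟨Ki Λ g, (Ki_meas h).stronglyMeasurable, ?_⟩
  filter_upwards [ae_restrict_mem hΛ] with p hp
  simp only [Ki, Set.indicator_of_mem hp]

lemma vol_lt_top (h : Ker Λ g D C₃ cL CB) : volume Λ < ⊤ :=
  lt_of_le_of_lt (measure_mono (fun x hx => by simpa using h.norm_le x hx : Λ ⊆ closedBall 0 D))
    measure_closedBall_lt_top

lemma ae_ne : ∀ᵐ p : ℂ × ℂ ∂(volume : Measure (ℂ × ℂ)), p.1 ≠ p.2 := by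
  rw [ae_iff]
  simp only [not_not]
  have hm : MeasurableSet {p : ℂ × ℂ | p.1 = p.2} := measurableSet_eq_fun measurable_fst measurable_snd
  rw [Measure.volume_eq_prod, Measure.measure_prod_null hm]
  filter_upwards with x
  have : Prod.mk x ⁻¹' {p : ℂ × ℂ | p.1 = p.2} = {x} := by
    ext y; simp [eq_comm]
  rw [this]; simp

lemma K_nonneg (h : Ker Λ g D C₃ cL CB) {x y : ℂ} (hx : x ∈ Λ) (hy : y ∈ Λ) (hxy : x ≠ y) :
    0 ≤ K g x y := by
  have := h.log_le x hx y hy hxy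
  unfold K; linarith

lemma K_symm (h : Ker Λ g D C₃ cL CB) {x y : ℂ} (hx : x ∈ Λ) (hy : y ∈ Λ) :
    K g x y = K g y x := by
  unfold K; rw [h.symm x hx y hy, norm_sub_rev]

lemma ae_K_nonneg (h : Ker Λ g D C₃ cL CB) :
    ∀ᵐ p : ℂ × ℂ ∂(volume.restrict (Λ ×ˢ Λ)), 0 ≤ K g p.1 p.2 := by
  have hΛ : MeasurableSet (Λ ×ˢ Λ) := (measΛ h).prod (measΛ h)
  filter_upwards [ae_restrict_mem hΛ, ae_restrict_of_ae ae_ne] with p hp hne
  exact K_nonneg h hp.1 hp.2 hne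

/-- the kernel is large near the diagonal -/
lemma K_large (h : Ker Λ g D C₃ cL CB) {x₀ : ℂ} (hx₀ : x₀ ∈ Λ) (M : ℝ) :
    ∃ s, 0 < s ∧ ball x₀ s ⊆ Λ ∧ ∀ x ∈ ball x₀ s, ∀ y ∈ ball x₀ s, x ≠ y → M ≤ K g x y := by
  obtain ⟨R, hR, hRΛ⟩ := Metric.isOpen_iff.mp h.isOpen x₀ hx₀
  have hR2 : 0 < R / 2 := by linarith
  set s := min (R / 2) (R / 4 * Real.exp (-M)) with hs
  have hs0 : 0 < s := lt_min hR2 (by positivity)
  have hsR : s ≤ R / 2 := min_le_left _ _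
  have hsM : s ≤ R / 4 * Real.exp (-M) := min_le_right _ _
  have hsub : ball x₀ s ⊆ Λ := (ball_subset_ball (by linarith)).trans hRΛ
  refine ⟨s, hs0, hsub, ?_⟩
  intro x hx y hy hxy
  have hbx : ball x (R / 2) ⊆ Λ := by
    intro z hz
    apply hRΛ
    rw [mem_ball] at *
    calc dist z x₀ ≤ dist z x + dist x x₀ := dist_triangle _ _ _
      _ < R := by linarith
  have h1 := h.log_r_le x (hsub hx) y (hsub hy) (R / 2) hR2 hbx
  have hpos : 0 < ‖x - y‖ := norm_pos_iff.mpr (sub_ne_zero.mpr hxy)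
  have hle : ‖x - y‖ ≤ R / 2 * Real.exp (-M) := by
    rw [← dist_eq_norm]
    rw [mem_ball] at hx hy
    calc dist x y ≤ dist x x₀ + dist y x₀ := dist_triangle_right _ _ _
      _ ≤ R / 2 * Real.exp (-M) := by linarith
  have h2 : Real.log ‖x - y‖ ≤ Real.log (R / 2) - M := by
    have := Real.log_le_log hpos hle
    rwa [Real.log_mul hR2.ne' (Real.exp_pos _).ne', Real.log_exp, ← sub_eq_add_neg] at this
  unfold K; linarith

/-! ### The bilinear form -/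

noncomputable def J (Λ : Set ℂ) (g : ℂ → ℂ → ℝ) (f k : ℂ → ℝ) : ℝ :=
  ∫ p in Λ ×ˢ Λ, K g p.1 p.2 * f p.1 * k p.2

def JI (Λ : Set ℂ) (g : ℂ → ℂ → ℝ) (f k : ℂ → ℝ) : Prop :=
  IntegrableOn (fun p : ℂ × ℂ => K g p.1 p.2 * f p.1 * k p.2) (Λ ×ˢ Λ)

lemma J_symm (h : Ker Λ g D C₃ cL CB) (f k : ℂ → ℝ) : J Λ g f k = J Λ g k f := by
  have hΛ : MeasurableSet (Λ ×ˢ Λ) := (measΛ h).prod (measΛ h)
  unfold J
  rw [Measure.volume_eq_prod, ← setIntegral_prod_swap]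
  apply setIntegral_congr_fun hΛ
  intro p hp
  simp only [Prod.fst_swap, Prod.snd_swap]
  rw [K_symm h hp.1 hp.2]; ring

/-- the potential of `k` -/
noncomputable def Po (Λ : Set ℂ) (g : ℂ → ℂ → ℝ) (k : ℂ → ℝ) (x : ℂ) : ℝ :=
  ∫ y in Λ, Ki Λ g (x, y) * k y

lemma Po_meas (h : Ker Λ g D C₃ cL CB) {k : ℂ → ℝ} (hk : Measurable k) :
    Measurable (Po Λ g k) := by
  have h1 : StronglyMeasurable (Function.uncurry fun x y => Ki Λ g (x, y) * k y) := by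
    apply Measurable.stronglyMeasurable
    exact (Ki_meas h).mul (hk.comp measurable_snd)
  exact (StronglyMeasurable.integral_prod_right h1).measurable

lemma J_eq (h : Ker Λ g D C₃ cL CB) {f k : ℂ → ℝ} (hI : JI Λ g f k) :
    J Λ g f k = ∫ x in Λ, f x * Po Λ g k x := by
  unfold J
  unfold JI at hI
  rw [Measure.volume_eq_prod] at hI ⊢
  rw [setIntegral_prod _ hI]
  apply setIntegral_congr_fun (measΛ h)
  intro x hx
  simp only [Po]
  rw [← integral_const_mul]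
  apply setIntegral_congr_fun (measΛ h)
  intro y hy
  have : Ki Λ g (x, y) = K g x y := by
    simp only [Ki]
    rw [Set.indicator_of_mem (show (x, y) ∈ Λ ×ˢ Λ from ⟨hx, hy⟩)]
  simp only [this]; ring

lemma J_eq_int (h : Ker Λ g D C₃ cL CB) {f k : ℂ → ℝ} (hI : JI Λ g f k) :
    IntegrableOn (fun x => f x * Po Λ g k x) Λ := by
  unfold JI at hI
  rw [Measure.volume_eq_prod, IntegrableOn, ← Measure.prod_restrict] at hI
  have h1 := hI.integral_prod_left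
  refine h1.congr ?_
  filter_upwards [ae_restrict_mem (measΛ h)] with x hx
  simp only [Po]
  rw [← integral_const_mul]
  apply setIntegral_congr_fun (measΛ h)
  intro y hy
  have : Ki Λ g (x, y) = K g x y := by
    simp only [Ki]
    rw [Set.indicator_of_mem (show (x, y) ∈ Λ ×ˢ Λ from ⟨hx, hy⟩)]
  simp only [this]; ring

lemma J_lin_left {f₁ f₂ k : ℂ → ℝ} (h1 : JI Λ g f₁ k) (h2 : JI Λ g f₂ k) (a b : ℝ) :
    J Λ g (fun x => a * f₁ x + b * f₂ x) k = a * J Λ g f₁ k + b * J Λ g f₂ k := by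
  unfold J JI at *
  rw [← integral_const_mul, ← integral_const_mul, ← integral_add (h1.const_mul a) (h2.const_mul b)]
  congr 1
  funext p; ring

lemma JI_lin_left {f₁ f₂ k : ℂ → ℝ} (h1 : JI Λ g f₁ k) (h2 : JI Λ g f₂ k) (a b : ℝ) :
    JI Λ g (fun x => a * f₁ x + b * f₂ x) k := by
  unfold JI at *
  have := (h1.const_mul a).add (h2.const_mul b)
  refine this.congr (ae_of_all _ fun p => ?_)
  simp only [Pi.add_apply]; ring

lemma en_eq' {f₁ f₂ : ℂ → ℝ} (hF : IntegrableOn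
    (fun p : ℂ × ℂ => K g p.1 p.2 * (f₁ p.1 - f₂ p.1) * (f₁ p.2 - f₂ p.2)) (Λ ×ˢ Λ)) :
    en Λ (K g) f₁ f₂ =
      1 / 2 * ∫ p in Λ ×ˢ Λ, K g p.1 p.2 * (f₁ p.1 - f₂ p.1) * (f₁ p.2 - f₂ p.2) := by
  unfold en
  rw [Measure.volume_eq_prod] at hF ⊢
  rw [setIntegral_prod _ hF]

lemma en_eq {f₁ f₂ : ℂ → ℝ} (h11 : JI Λ g f₁ f₁) (h12 : JI Λ g f₁ f₂) (h21 : JI Λ g f₂ f₁)
    (h22 : JI Λ g f₂ f₂) :
    en Λ (K g) f₁ f₂ = 1 / 2 * (J Λ g f₁ f₁ - J Λ g f₁ f₂ - J Λ g f₂ f₁ + J Λ g f₂ f₂) := by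
  have e : (fun p : ℂ × ℂ => K g p.1 p.2 * (f₁ p.1 - f₂ p.1) * (f₁ p.2 - f₂ p.2)) =
      fun p : ℂ × ℂ => ((K g p.1 p.2 * f₁ p.1 * f₁ p.2 - K g p.1 p.2 * f₁ p.1 * f₂ p.2) -
        K g p.1 p.2 * f₂ p.1 * f₁ p.2) + K g p.1 p.2 * f₂ p.1 * f₂ p.2 := by
    funext p; ring
  unfold JI at *
  rw [en_eq' (by rw [e]; exact ((h11.sub h12).sub h21).add h22), e]
  unfold J
  have e1 := integral_add ((h11.sub h12).sub h21) h22
  have e2 := integral_sub (h11.sub h12) h21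
  have e3 := integral_sub h11 h12
  simp only [Pi.sub_apply] at e1 e2 e3
  rw [e1, e2, e3]

lemma J_nonneg (h : Ker Λ g D C₃ cL CB) {f k : ℂ → ℝ} (hf : ∀ x, 0 ≤ f x) (hk : ∀ x, 0 ≤ k x) :
    0 ≤ J Λ g f k := by
  unfold J
  apply integral_nonneg_of_ae
  filter_upwards [ae_K_nonneg h] with p hp
  exact mul_nonneg (mul_nonneg hp (hf _)) (hk _)

/-! ### Densities -/

lemma isDens_congr {ρ ρ' : ℂ → ℝ} (hρ : IsDens Λ ρ) (hn : ∀ x, 0 ≤ ρ' x)
    (he : ρ' =ᵐ[volume.restrict Λ] ρ) : IsDens Λ ρ' where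
  nonneg := fun x _ => hn x
  integrable := hρ.integrable.congr he.symm
  integral := by rw [integral_congr_ae he]; exact hρ.integral
  entropy := by
    refine hρ.entropy.congr ?_
    filter_upwards [he] with x hx
    rw [hx]

lemma ent_congr {ρ ρ' : ℂ → ℝ} (he : ρ' =ᵐ[volume.restrict Λ] ρ) :
    ∫ x in Λ, ρ' x * Real.log (ρ' x) = ∫ x in Λ, ρ x * Real.log (ρ x) := by
  apply integral_congr_ae
  filter_upwards [he] with x hx
  rw [hx]

lemma en_congr {G : ℂ → ℂ → ℝ} {ρ₁ ρ₁' ρ₂ ρ₂' : ℂ → ℝ} (h₁ : ρ₁' =ᵐ[volume.restrict Λ] ρ₁)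
    (h₂ : ρ₂' =ᵐ[volume.restrict Λ] ρ₂) : en Λ G ρ₁' ρ₂' = en Λ G ρ₁ ρ₂ := by
  unfold en
  congr 1
  apply integral_congr_ae
  filter_upwards [h₁, h₂] with x hx1 hx2
  apply integral_congr_ae
  filter_upwards [h₁, h₂] with y hy1 hy2
  rw [hx1, hx2, hy1, hy2]

lemma regularize {ρ : ℂ → ℝ} (h : Ker Λ g D C₃ cL CB) (hρ : IsDens Λ ρ) :
    ∃ ρ' : ℂ → ℝ, Measurable ρ' ∧ (∀ x, 0 ≤ ρ' x) ∧ ρ' =ᵐ[volume.restrict Λ] ρ := by
  refine ⟨fun x => max 0 (hρ.integrable.aestronglyMeasurable.mk ρ x), ?_, ?_, ?_⟩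
  · exact measurable_const.max hρ.integrable.aestronglyMeasurable.stronglyMeasurable_mk.measurable
  · intro x; exact le_max_left _ _
  · filter_upwards [hρ.integrable.aestronglyMeasurable.ae_eq_mk, ae_restrict_mem (measΛ h)] with x hx hxΛ
    rw [← hx]
    exact max_eq_right (hρ.nonneg x hxΛ)

lemma mul_log_mul (a b : ℝ) :
    a * b * Real.log (a * b) = b * (a * Real.log a) + (b * Real.log b) * a := by
  rcases eq_or_ne a 0 with rfl | ha
  · simp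
  rcases eq_or_ne b 0 with rfl | hb
  · simp
  rw [Real.log_mul ha hb]; ring

lemma mul_log_bdd (H : ℝ) : ∃ B, ∀ t, 0 ≤ t → t ≤ H → |t * Real.log t| ≤ B := by
  obtain ⟨B, hB⟩ := (isCompact_Icc (a := (0 : ℝ)) (b := H)).exists_bound_of_continuousOn
    (Real.continuous_mul_log.continuousOn)
  exact ⟨B, fun t h0 h1 => hB t ⟨h0, h1⟩⟩

lemma isDens_weight {ρ w : ℂ → ℝ} (hm : Measurable ρ) (h0 : ∀ x, 0 ≤ ρ x) (hρ : IsDens Λ ρ)
    (hw : Measurable w) (hw0 : ∀ x, 0 ≤ w x) (H : ℝ) (hwH : ∀ x, w x ≤ H)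
    (h1 : ∫ x in Λ, ρ x * w x = 1) : IsDens Λ (fun x => ρ x * w x) where
  nonneg := fun x _ => mul_nonneg (h0 x) (hw0 x)
  integrable := by
    refine (hρ.integrable.mul_const H).mono' (hm.mul hw).aestronglyMeasurable
      (ae_of_all _ fun x => ?_)
    rw [Real.norm_eq_abs, abs_of_nonneg (mul_nonneg (h0 x) (hw0 x))]
    exact mul_le_mul_of_nonneg_left (hwH x) (h0 x)
  integral := h1
  entropy := by
    obtain ⟨B, hB⟩ := mul_log_bdd H
    have i1 : IntegrableOn (fun x => w x * (ρ x * Real.log (ρ x))) Λ := by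
      refine (hρ.entropy.norm.const_mul H).mono' ?_ (ae_of_all _ fun x => ?_)
      · exact (hw.mul (hm.mul (Real.measurable_log.comp hm))).aestronglyMeasurable
      · rw [norm_mul, Real.norm_eq_abs (w x), abs_of_nonneg (hw0 x)]
        exact mul_le_mul_of_nonneg_right (hwH x) (norm_nonneg _)
    have i2 : IntegrableOn (fun x => (w x * Real.log (w x)) * ρ x) Λ := by
      refine (hρ.integrable.const_mul B).mono' ?_ (ae_of_all _ fun x => ?_)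
      · exact ((hw.mul (Real.measurable_log.comp hw)).mul hm).aestronglyMeasurable
      · rw [norm_mul, Real.norm_eq_abs (ρ x), abs_of_nonneg (h0 x)]
        exact mul_le_mul_of_nonneg_right (hB _ (hw0 x) (hwH x)) (h0 x)
    refine (i1.add i2).congr (ae_of_all _ fun x => ?_)
    simp only [Pi.add_apply]
    rw [mul_log_mul]

/-! ### Step (a): the energy can be increased at small cost -/

lemma stepA (h : Ker Λ g D C₃ cL CB)
    (hI : ∀ ρ₁ ρ₂, IsDens Λ ρ₁ → IsDens Λ ρ₂ → JI Λ g ρ₁ ρ₂) {ρ₁ ρ₂ : ℂ → ℝ}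
    (hm₁ : Measurable ρ₁) (h0₁ : ∀ x, 0 ≤ ρ₁ x) (hρ₁ : IsDens Λ ρ₁)
    (hm₂ : Measurable ρ₂) (hρ₂ : IsDens Λ ρ₂) {η : ℝ} (hη : 0 < η) :
    ∃ σ : ℂ → ℝ, Measurable σ ∧ (∀ x, 0 ≤ σ x) ∧ IsDens Λ σ ∧
      en Λ (K g) ρ₁ ρ₂ < en Λ (K g) σ ρ₂ ∧
      ∫ x in Λ, σ x * Real.log (σ x) ≤ (∫ x in Λ, ρ₁ x * Real.log (ρ₁ x)) + η := by
  have hΛ := measΛ h
  set φ₁ := Po Λ g ρ₁ with hφ₁
  set φ₂ := Po Λ g ρ₂ with hφ₂
  have mφ₁ : Measurable φ₁ := Po_meas h hm₁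
  have mφ₂ : Measurable φ₂ := Po_meas h hm₂
  set a := J Λ g ρ₁ ρ₁ - J Λ g ρ₁ ρ₂ with ha
  have hpsi : ∀ σ, IsDens Λ σ → J Λ g σ ρ₁ - J Λ g σ ρ₂ = ∫ x in Λ, σ x * (φ₁ x - φ₂ x) := by
    intro σ hσ
    rw [J_eq h (hI _ _ hσ hρ₁), J_eq h (hI _ _ hσ hρ₂),
      ← integral_sub (J_eq_int h (hI _ _ hσ hρ₁)) (J_eq_int h (hI _ _ hσ hρ₂))]
    congr 1
    funext x; ring
  have hpsi_int : ∀ σ, IsDens Λ σ → IntegrableOn (fun x => σ x * (φ₁ x - φ₂ x)) Λ := by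
    intro σ hσ
    refine ((J_eq_int h (hI _ _ hσ hρ₁)).sub (J_eq_int h (hI _ _ hσ hρ₂))).congr
      (ae_of_all _ fun x => ?_)
    simp only [Pi.sub_apply]; ring
  -- the good set
  set A : ℕ → Set ℂ := fun n => {x | x ∈ Λ ∧ 0 < ρ₁ x ∧ a ≤ φ₁ x - φ₂ x ∧ φ₁ x ≤ n} with hA
  have mA : ∀ n, MeasurableSet (A n) := by
    intro n
    exact hΛ.inter ((measurableSet_lt measurable_const hm₁).inter
      ((measurableSet_le measurable_const (mφ₁.sub mφ₂)).inter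
        (measurableSet_le mφ₁ measurable_const)))
  have hpos : volume (⋃ n, A n) ≠ 0 := by
    intro h0
    have hae : ∀ᵐ x ∂(volume.restrict Λ), 0 ≤ ρ₁ x * (a - (φ₁ x - φ₂ x)) ∧
        (ρ₁ x * (a - (φ₁ x - φ₂ x)) = 0 → ρ₁ x = 0) := by
      have h1 : ∀ᵐ x ∂(volume : Measure ℂ), x ∉ ⋃ n, A n := measure_eq_zero_iff_ae_notMem.mp h0
      filter_upwards [ae_restrict_mem hΛ, ae_restrict_of_ae h1] with x hx hxA
      have h2 : ¬ (0 < ρ₁ x ∧ a ≤ φ₁ x - φ₂ x) := by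
        rintro ⟨h3, h4⟩
        obtain ⟨n, hn⟩ := exists_nat_ge (φ₁ x)
        exact hxA (Set.mem_iUnion.mpr ⟨n, hx, h3, h4, hn⟩)
      rcases (h0₁ x).lt_or_eq with h3 | h3
      · have h4 : φ₁ x - φ₂ x < a := by
          by_contra h5
          push Not at h5
          exact h2 ⟨h3, h5⟩
        have h5 : 0 < ρ₁ x * (a - (φ₁ x - φ₂ x)) := mul_pos h3 (by linarith)
        exact ⟨h5.le, fun h6 => absurd h6 h5.ne'⟩
      · rw [← h3]; simp
    have hint : IntegrableOn (fun x => ρ₁ x * (a - (φ₁ x - φ₂ x))) Λ := by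
      refine ((hρ₁.integrable.mul_const a).sub (hpsi_int _ hρ₁)).congr (ae_of_all _ fun x => ?_)
      simp only [Pi.sub_apply]; ring
    have hval : ∫ x in Λ, ρ₁ x * (a - (φ₁ x - φ₂ x)) = 0 := by
      have e1 : ∫ x in Λ, ρ₁ x * (a - (φ₁ x - φ₂ x)) =
          ∫ x in Λ, (ρ₁ x * a - ρ₁ x * (φ₁ x - φ₂ x)) := by
        congr 1; funext x; ring
      rw [e1, integral_sub (hρ₁.integrable.mul_const a) (hpsi_int _ hρ₁), ← hpsi _ hρ₁,
        integral_mul_const, hρ₁.integral, ha]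
      ring
    have h3 := (integral_eq_zero_iff_of_nonneg_ae (by filter_upwards [hae] with x hx using hx.1)
      hint).mp hval
    have h4 : ρ₁ =ᵐ[volume.restrict Λ] 0 := by
      filter_upwards [hae, h3] with x hx1 hx2
      exact hx1.2 hx2
    have h5 := hρ₁.integral
    rw [integral_congr_ae h4] at h5
    simp at h5
  obtain ⟨n, hn⟩ := exists_measure_pos_of_not_measure_iUnion_null hpos
  obtain ⟨x₀, hx₀, hx₀'⟩ := exists_mem_forall_mem_nhdsWithin_pos_measure (μ := volume) hn.ne'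
  obtain ⟨s, hs, hsΛ, hsK⟩ := K_large h hx₀.1 (2 * n + 1)
  set C := A n ∩ ball x₀ s with hC
  have mC : MeasurableSet C := (mA n).inter measurableSet_ball
  have hCΛ : C ⊆ Λ := fun x hx => hx.1.1
  have hCpos : 0 < volume C := by
    apply hx₀'
    exact inter_mem_nhdsWithin _ (ball_mem_nhds x₀ hs)
  have hiC : IntegrableOn ρ₁ C := hρ₁.integrable.mono_set hCΛ
  set m := ∫ x in C, ρ₁ x with hm
  have hmpos : 0 < m := by
    rw [hm, setIntegral_pos_iff_support_of_nonneg_ae (ae_of_all _ h0₁) hiC]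
    have : Function.support ρ₁ ∩ C = C := by
      apply Set.inter_eq_right.mpr
      intro x hx
      exact hx.1.2.1.ne'
    rw [this]; exact hCpos
  set w : ℂ → ℝ := C.indicator (fun _ => m⁻¹) with hw
  have mw : Measurable w := measurable_const.indicator mC
  have hw0 : ∀ x, 0 ≤ w x := fun x => Set.indicator_nonneg (fun _ _ => by positivity) x
  have hwH : ∀ x, w x ≤ m⁻¹ := fun x => by
    by_cases hx : x ∈ C
    · rw [hw, Set.indicator_of_mem hx]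
    · rw [hw, Set.indicator_of_notMem hx]; positivity
  set ν : ℂ → ℝ := fun x => ρ₁ x * w x with hν
  have hν1 : ∫ x in Λ, ν x = 1 := by
    have e1 : ν = fun x => m⁻¹ * C.indicator ρ₁ x := by
      funext x
      simp only [hν, hw]
      by_cases hx : x ∈ C
      · rw [Set.indicator_of_mem hx, Set.indicator_of_mem hx]; ring
      · rw [Set.indicator_of_notMem hx, Set.indicator_of_notMem hx]; ring
    rw [e1, integral_const_mul, setIntegral_indicator mC, Set.inter_eq_right.mpr hCΛ, ← hm]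
    field_simp
  have dν : IsDens Λ ν := isDens_weight hm₁ h0₁ hρ₁ mw hw0 _ hwH hν1
  have hν0 : ∀ x, 0 ≤ ν x := fun x => mul_nonneg (h0₁ x) (hw0 x)
  have hνoff : ∀ x, x ∉ C → ν x = 0 := by
    intro x hx
    simp only [hν, hw, Set.indicator_of_notMem hx, mul_zero]
  -- the three estimates
  have est1 : J Λ g ν ρ₁ ≤ n := by
    rw [J_eq h (hI _ _ dν hρ₁)]
    have : (n : ℝ) = ∫ x in Λ, ν x * n := by rw [integral_mul_const, hν1, one_mul]
    rw [this]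
    apply integral_mono (J_eq_int h (hI _ _ dν hρ₁)) (dν.integrable.mul_const _)
    intro x
    by_cases hx : x ∈ C
    · exact mul_le_mul_of_nonneg_left hx.1.2.2.2 (hν0 x)
    · simp only [hνoff x hx, zero_mul]; exact le_rfl
  have est2 : a ≤ J Λ g ν ρ₁ - J Λ g ν ρ₂ := by
    rw [hpsi _ dν]
    have : a = ∫ x in Λ, ν x * a := by rw [integral_mul_const, hν1, one_mul]
    conv_lhs => rw [this]
    apply integral_mono (dν.integrable.mul_const _) (hpsi_int _ dν)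
    intro x
    by_cases hx : x ∈ C
    · exact mul_le_mul_of_nonneg_left hx.1.2.2.1 (hν0 x)
    · simp only [hνoff x hx, zero_mul]; exact le_rfl
  have est3 : (2 * n + 1 : ℝ) ≤ J Λ g ν ν := by
    have e1 : ∫ p in Λ ×ˢ Λ, (2 * n + 1 : ℝ) * (ν p.1 * ν p.2) = 2 * n + 1 := by
      rw [integral_const_mul, Measure.volume_eq_prod, setIntegral_prod_mul, hν1]; ring
    rw [← e1]
    have i1 : IntegrableOn (fun p : ℂ × ℂ => (2 * n + 1 : ℝ) * (ν p.1 * ν p.2)) (Λ ×ˢ Λ) := by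
      rw [IntegrableOn, Measure.volume_eq_prod, ← Measure.prod_restrict]
      exact (dν.integrable.mul_prod dν.integrable).const_mul _
    unfold J
    apply integral_mono_ae i1 (hI _ _ dν dν)
    filter_upwards [ae_restrict_of_ae ae_ne] with p hp
    by_cases hx : p.1 ∈ C
    · by_cases hy : p.2 ∈ C
      · have := hsK p.1 hx.2 p.2 hy.2 hp
        rw [mul_assoc (K g p.1 p.2)]
        exact mul_le_mul_of_nonneg_right this (mul_nonneg (hν0 _) (hν0 _))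
      · simp only [hνoff _ hy, mul_zero]; exact le_rfl
    · simp only [hνoff _ hx, mul_zero, zero_mul]; exact le_rfl
  have est4 : 0 ≤ J Λ g ρ₁ ρ₁ := J_nonneg h h0₁ h0₁
  -- the choice of κ
  set E₁ := ∫ x in Λ, ρ₁ x * Real.log (ρ₁ x) with hE₁
  set Eν := ∫ x in Λ, ν x * Real.log (ν x) with hEν
  set κ := min (1 / 2) (η / (|Eν - E₁| + 1)) with hκ
  have hκ0 : 0 < κ := lt_min (by norm_num) (by positivity)
  have hκ1 : κ ≤ 1 / 2 := min_le_left _ _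
  have hκη : κ * (Eν - E₁) ≤ η := by
    have h1 : κ ≤ η / (|Eν - E₁| + 1) := min_le_right _ _
    have h2 : 0 < |Eν - E₁| + 1 := by positivity
    calc κ * (Eν - E₁) ≤ κ * (|Eν - E₁| + 1) := by
          apply mul_le_mul_of_nonneg_left _ hκ0.le
          linarith [le_abs_self (Eν - E₁)]
      _ ≤ η / (|Eν - E₁| + 1) * (|Eν - E₁| + 1) := mul_le_mul_of_nonneg_right h1 h2.le
      _ = η := by field_simp
  set σ : ℂ → ℝ := fun x => (1 - κ) * ρ₁ x + κ * ν x with hσ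
  have hσ0 : ∀ x, 0 ≤ σ x := fun x =>
    add_nonneg (mul_nonneg (by linarith) (h0₁ x)) (mul_nonneg hκ0.le (hν0 x))
  have hσ1 : ∫ x in Λ, σ x = 1 := by
    rw [hσ, integral_add (hρ₁.integrable.const_mul _) (dν.integrable.const_mul _),
      integral_const_mul, integral_const_mul, hν1, hρ₁.integral]
    ring
  have eσ : σ = fun x => ρ₁ x * ((1 - κ) + κ * w x) := by
    funext x; simp only [hσ, hν]; ring
  have dσ : IsDens Λ σ := by
    have mw' : Measurable (fun x => (1 - κ) + κ * w x) := measurable_const.add (mw.const_mul κ)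
    rw [eσ]
    apply isDens_weight hm₁ h0₁ hρ₁ mw' _ (1 + κ * m⁻¹)
    · intro x
      have := mul_le_mul_of_nonneg_left (hwH x) hκ0.le
      linarith
    · rw [← eσ]; exact hσ1
    · intro x
      have := mul_nonneg hκ0.le (hw0 x)
      linarith
  refine ⟨σ, (hm₁.const_mul _).add ((hm₁.mul mw).const_mul _), hσ0, dσ, ?_, ?_⟩
  · rw [en_eq (hI _ _ hρ₁ hρ₁) (hI _ _ hρ₁ hρ₂) (hI _ _ hρ₂ hρ₁) (hI _ _ hρ₂ hρ₂),
      en_eq (hI _ _ dσ dσ) (hI _ _ dσ hρ₂) (hI _ _ hρ₂ dσ) (hI _ _ hρ₂ hρ₂),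
      J_symm h ρ₂ ρ₁, J_symm h ρ₂ σ]
    have l1 : J Λ g σ ρ₂ = (1 - κ) * J Λ g ρ₁ ρ₂ + κ * J Λ g ν ρ₂ :=
      J_lin_left (hI _ _ hρ₁ hρ₂) (hI _ _ dν hρ₂) _ _
    have l2 : J Λ g σ σ = (1 - κ) * J Λ g ρ₁ σ + κ * J Λ g ν σ :=
      J_lin_left (hI _ _ hρ₁ dσ) (hI _ _ dν dσ) _ _
    have l3 : J Λ g ρ₁ σ = (1 - κ) * J Λ g ρ₁ ρ₁ + κ * J Λ g ν ρ₁ := by
      rw [J_symm h ρ₁ σ]
      exact J_lin_left (hI _ _ hρ₁ hρ₁) (hI _ _ dν hρ₁) _ _
    have l4 : J Λ g ν σ = (1 - κ) * J Λ g ν ρ₁ + κ * J Λ g ν ν := by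
      rw [J_symm h ν σ, J_symm h ν ρ₁]
      exact J_lin_left (hI _ _ hρ₁ dν) (hI _ _ dν dν) _ _
    rw [l2, l1, l3, l4]
    have hk2 : 0 < κ ^ 2 := by positivity
    have b1 : 0 ≤ κ * ((J Λ g ν ρ₁ - J Λ g ν ρ₂) - a) := mul_nonneg hκ0.le (by linarith)
    have b2 : 0 < κ ^ 2 * (J Λ g ρ₁ ρ₁ - 2 * J Λ g ν ρ₁ + J Λ g ν ν) :=
      mul_pos hk2 (by linarith)
    rw [ha] at b1
    linarith
  · calc ∫ x in Λ, σ x * Real.log (σ x)
        ≤ ∫ x in Λ, ((1 - κ) * (ρ₁ x * Real.log (ρ₁ x)) + κ * (ν x * Real.log (ν x))) := by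
          apply integral_mono dσ.entropy
            ((hρ₁.entropy.const_mul _).add (dν.entropy.const_mul _))
          intro x
          have := Real.convexOn_mul_log.2 (show ρ₁ x ∈ Set.Ici (0 : ℝ) from h0₁ x)
            (show ν x ∈ Set.Ici (0 : ℝ) from hν0 x) (show 0 ≤ 1 - κ by linarith) hκ0.le (by ring)
          simp only [smul_eq_mul] at this
          exact this
      _ = (1 - κ) * E₁ + κ * Eν := by
          rw [integral_add (hρ₁.entropy.const_mul _) (dν.entropy.const_mul _),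
            integral_const_mul, integral_const_mul]
      _ ≤ E₁ + η := by linarith

/-! ### Step (b): truncation -/

lemma trunc {ρ : ℂ → ℝ} (h : Ker Λ g D C₃ cL CB) (hm : Measurable ρ) (h0 : ∀ x, 0 ≤ ρ x)
    (hρ : IsDens Λ ρ) {c : ℂ} (hc : ρ c = 0) {Q : ℕ → Set ℂ} (mQ : ∀ n, MeasurableSet (Q n))
    (hQ : ∀ x ∈ Λ, x ≠ c → ∀ᶠ n in atTop, x ∈ Q n) :
    ∃ F : ℕ → ℂ → ℝ, (∀ n, Measurable (F n)) ∧ (∀ n x, 0 ≤ F n x) ∧
      (∀ n x, x ∉ Q n → F n x = 0) ∧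
      (∀ᶠ n in atTop, (∫ x in Λ, F n x = 1) ∧ ∀ x, F n x ≤ 2 * (n : ℝ) ∧ F n x ≤ 2 * ρ x) ∧
      (∀ x ∈ Λ, Tendsto (fun n => F n x) atTop (𝓝 (ρ x))) ∧
      Tendsto (fun n => ∫ x in Λ, F n x * Real.log (F n x)) atTop
        (𝓝 (∫ x in Λ, ρ x * Real.log (ρ x))) := by
  have hΛ := measΛ h
  set u : ℕ → ℂ → ℝ := fun n => (Q n).indicator (fun x => min (ρ x) n) with hu
  have mu : ∀ n, Measurable (u n) := fun n => (hm.min measurable_const).indicator (mQ n)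
  have u0 : ∀ n x, 0 ≤ u n x := fun n x =>
    Set.indicator_nonneg (fun y _ => le_min (h0 y) (Nat.cast_nonneg n)) x
  have hux : ∀ n x, u n x = 0 ∨ u n x = min (ρ x) n := by
    intro n x
    by_cases hx : x ∈ Q n
    · right; simp only [hu, Set.indicator_of_mem hx]
    · left; simp only [hu, Set.indicator_of_notMem hx]
  have u1 : ∀ n x, u n x ≤ ρ x := by
    intro n x
    rcases hux n x with h1 | h1 <;> rw [h1]
    · exact h0 x
    · exact min_le_left _ _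
  have u2 : ∀ n x, u n x ≤ n := by
    intro n x
    rcases hux n x with h1 | h1 <;> rw [h1]
    · exact Nat.cast_nonneg n
    · exact min_le_right _ _
  have ulim : ∀ x ∈ Λ, Tendsto (fun n => u n x) atTop (𝓝 (ρ x)) := by
    intro x hx
    apply tendsto_const_nhds.congr'
    by_cases hxc : x = c
    · filter_upwards with n
      have := u1 n x
      rw [hxc] at this ⊢
      rw [hc] at this ⊢
      exact le_antisymm (u0 n c) this
    · filter_upwards [hQ x hx hxc, eventually_ge_atTop ⌈ρ x⌉₊] with n hn1 hn2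
      simp only [hu, Set.indicator_of_mem hn1]
      rw [min_eq_left]
      exact (Nat.le_ceil _).trans (Nat.cast_le.mpr hn2)
  set Z : ℕ → ℝ := fun n => ∫ x in Λ, u n x with hZ
  have Zlim : Tendsto Z atTop (𝓝 1) := by
    rw [← hρ.integral]
    apply tendsto_integral_of_dominated_convergence ρ
      (fun n => (mu n).aestronglyMeasurable) hρ.integrable
    · intro n
      refine ae_of_all _ fun x => ?_
      rw [Real.norm_eq_abs, abs_of_nonneg (u0 n x)]; exact u1 n x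
    · filter_upwards [ae_restrict_mem hΛ] with x hx using ulim x hx
  have Z0 : ∀ n, 0 ≤ Z n := fun n => integral_nonneg (u0 n)
  have Zge : ∀ᶠ n in atTop, 1 / 2 < Z n := Zlim.eventually_const_lt (by norm_num)
  have Zle : ∀ n, Z n ≤ 1 := by
    intro n
    rw [← hρ.integral]
    apply integral_mono_of_nonneg (ae_of_all _ (u0 n)) hρ.integrable (ae_of_all _ (u1 n))
  have flim : ∀ x ∈ Λ, Tendsto (fun n => u n x / Z n) atTop (𝓝 (ρ x)) := by
    intro x hx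
    have := (ulim x hx).div Zlim one_ne_zero
    rwa [div_one] at this
  refine ⟨fun n x => u n x / Z n, fun n => (mu n).div_const _, fun n x => div_nonneg (u0 n x) (Z0 n),
    ?_, ?_, flim, ?_⟩
  · intro n x hx
    simp only [hu, Set.indicator_of_notMem hx, zero_div]
  · filter_upwards [Zge] with n hn
    have hZp : 0 < Z n := by linarith
    have key : ∀ x, u n x / Z n ≤ 2 * u n x := by
      intro x
      rw [div_le_iff₀ hZp]
      nlinarith [u0 n x]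
    refine ⟨?_, fun x => ⟨?_, ?_⟩⟩
    · rw [integral_div]; exact div_self hZp.ne'
    · linarith [key x, u2 n x]
    · linarith [key x, u1 n x]
  · apply tendsto_integral_filter_of_dominated_convergence
      (fun x => 2 * ‖ρ x * Real.log (ρ x)‖ + 2 * ρ x)
    · filter_upwards with n
      have : Measurable (fun x => u n x / Z n) := (mu n).div_const _
      exact (this.mul (Real.measurable_log.comp this)).aestronglyMeasurable
    · filter_upwards [Zge, eventually_ge_atTop 1] with n hn hn1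
      refine ae_of_all _ fun x => ?_
      have hZp : 0 < Z n := by linarith
      have hn1' : (1 : ℝ) ≤ n := by exact_mod_cast hn1
      -- |u log u| ≤ |ρ log ρ|
      have k1 : |u n x * Real.log (u n x)| ≤ |ρ x * Real.log (ρ x)| := by
        rcases hux n x with h1 | h1
        · rw [h1, zero_mul, abs_zero]; exact abs_nonneg _
        · rw [h1]
          rcases le_total (ρ x) n with h2 | h2
          · rw [min_eq_left h2]
          · rw [min_eq_right h2]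
            have l1 : 0 ≤ Real.log n := Real.log_nonneg hn1'
            have l2 : Real.log n ≤ Real.log (ρ x) := Real.log_le_log (by linarith) h2
            rw [abs_of_nonneg (by positivity), abs_of_nonneg (mul_nonneg (h0 x) (l1.trans l2))]
            exact mul_le_mul h2 l2 l1 (h0 x)
      have k2 : u n x / Z n * Real.log (u n x / Z n) =
          (Z n)⁻¹ * (u n x * Real.log (u n x)) + (-(Real.log (Z n)) * (Z n)⁻¹) * u n x := by
        rw [div_eq_mul_inv, mul_log_mul, Real.log_inv]; ring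
      have k3 : (Z n)⁻¹ ≤ 2 := by
        rw [inv_le_comm₀ hZp (by norm_num)]; linarith
      have k3' : 0 ≤ (Z n)⁻¹ := by positivity
      have k4 : 0 ≤ -(Real.log (Z n)) := by
        have := Real.log_nonpos (Z0 n) (Zle n); linarith
      have k5 : -(Real.log (Z n)) ≤ 1 := by
        have := Real.one_sub_inv_le_log_of_pos hZp
        linarith
      have k6 : 0 ≤ -(Real.log (Z n)) * (Z n)⁻¹ := mul_nonneg k4 k3'
      have k7 : -(Real.log (Z n)) * (Z n)⁻¹ ≤ 2 := by nlinarith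
      rw [k2, Real.norm_eq_abs]
      calc |(Z n)⁻¹ * (u n x * Real.log (u n x)) + (-(Real.log (Z n)) * (Z n)⁻¹) * u n x|
          ≤ |(Z n)⁻¹ * (u n x * Real.log (u n x))| + |(-(Real.log (Z n)) * (Z n)⁻¹) * u n x| :=
            abs_add_le _ _
        _ = (Z n)⁻¹ * |u n x * Real.log (u n x)| + (-(Real.log (Z n)) * (Z n)⁻¹) * u n x := by
            rw [abs_mul, abs_of_nonneg k3', abs_mul (-(Real.log (Z n)) * (Z n)⁻¹),
              abs_of_nonneg k6, abs_of_nonneg (u0 n x)]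
        _ ≤ 2 * ‖ρ x * Real.log (ρ x)‖ + 2 * ρ x := by
            rw [Real.norm_eq_abs]
            apply add_le_add
            · exact mul_le_mul k3 k1 (abs_nonneg _) (by norm_num)
            · exact mul_le_mul k7 (u1 n x) (u0 n x) (by norm_num)
    · exact (hρ.entropy.norm.const_mul 2).add (hρ.integrable.const_mul 2)
    · filter_upwards [ae_restrict_mem hΛ] with x hx
      exact (Real.continuous_mul_log.tendsto (ρ x)).comp (flim x hx)

lemma stepB' (h : Ker Λ g D C₃ cL CB)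
    (hI : ∀ ρ₁ ρ₂, IsDens Λ ρ₁ → IsDens Λ ρ₂ → JI Λ g ρ₁ ρ₂) {ρ₁ ρ₂ : ℂ → ℝ}
    (hm₁ : Measurable ρ₁) (h0₁ : ∀ x, 0 ≤ ρ₁ x) (hρ₁ : IsDens Λ ρ₁)
    (hm₂ : Measurable ρ₂) (h0₂ : ∀ x, 0 ≤ ρ₂ x) (hρ₂ : IsDens Λ ρ₂) {c : ℂ} (hc : c ∈ Λ)
    (hc₁ : ρ₁ c = 0) (hc₂ : ρ₂ c = 0) {e : ℝ} (he : e < en Λ (K g) ρ₁ ρ₂) {η : ℝ} (hη : 0 < η) :
    ∃ (f₁ f₂ : ℂ → ℝ) (Q : Set ℂ) (r L : ℝ), Nice Λ f₁ f₂ Q c r L ∧
      e < en Λ (K g) f₁ f₂ ∧
      ∫ x in Λ, f₁ x * Real.log (f₁ x) < (∫ x in Λ, ρ₁ x * Real.log (ρ₁ x)) + η ∧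
      ∫ x in Λ, f₂ x * Real.log (f₂ x) < (∫ x in Λ, ρ₂ x * Real.log (ρ₂ x)) + η := by
  have hΛ := measΛ h
  obtain ⟨R, hR, hRΛ⟩ := Metric.isOpen_iff.mp h.isOpen c hc
  have hne : (Λᶜ).Nonempty := by
    refine ⟨((D + 1 : ℝ) : ℂ), fun hmem => ?_⟩
    have h1 := h.norm_le _ hmem
    rw [Complex.norm_real, Real.norm_eq_abs, abs_of_nonneg (by linarith [h.one_le])] at h1
    linarith
  have hcl : IsClosed (Λᶜ) := h.isOpen.isClosed_compl
  set r : ℕ → ℝ := fun n => R / (4 * ((n : ℝ) + 1)) with hr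
  have hr0 : ∀ n, 0 < r n := fun n => by simp only [hr]; positivity
  have hr2 : ∀ n, 2 * r n < R := by
    intro n
    have h1 : (0 : ℝ) < (n : ℝ) + 1 := by positivity
    have h2 : r n ≤ R / 4 := by
      simp only [hr]
      apply div_le_div_of_nonneg_left hR.le (by norm_num)
      have : (0 : ℝ) ≤ n := Nat.cast_nonneg n
      linarith
    linarith
  set Q : ℕ → Set ℂ := fun n => {x | 1 / ((n : ℝ) + 1) ≤ infDist x Λᶜ} ∩ (ball c (2 * r n))ᶜ with hQ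
  have cQ : ∀ n, IsClosed (Q n) := fun n =>
    (isClosed_le continuous_const (continuous_infDist_pt _)).inter isOpen_ball.isClosed_compl
  have sQ : ∀ n, Q n ⊆ Λ := by
    intro n x hx
    by_contra hxΛ
    have h1 : infDist x Λᶜ = 0 := infDist_zero_of_mem hxΛ
    have h2 : 1 / ((n : ℝ) + 1) ≤ infDist x Λᶜ := hx.1
    rw [h1] at h2
    have : 0 < 1 / ((n : ℝ) + 1) := by positivity
    linarith
  have kQ : ∀ n, IsCompact (Q n) := by
    intro n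
    apply (isCompact_closedBall (0 : ℂ) D).of_isClosed_subset (cQ n)
    intro x hx
    have := h.norm_le x (sQ n hx)
    simpa using this
  have hQev : ∀ x ∈ Λ, x ≠ c → ∀ᶠ n in atTop, x ∈ Q n := by
    intro x hx hxc
    have h1 : 0 < infDist x Λᶜ := by
      rw [← hcl.notMem_iff_infDist_pos hne]
      simpa using hx
    have h2 : 0 < dist x c := dist_pos.mpr hxc
    have t1 : Tendsto (fun n : ℕ => 1 / ((n : ℝ) + 1)) atTop (𝓝 0) :=
      tendsto_one_div_add_atTop_nhds_zero_nat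
    have t2 : Tendsto (fun n : ℕ => 2 * r n) atTop (𝓝 0) := by
      have : (fun n : ℕ => 2 * r n) = fun n : ℕ => (R / 2) * (1 / ((n : ℝ) + 1)) := by
        funext n; simp only [hr]; field_simp; ring
      rw [this]
      simpa using t1.const_mul (R / 2)
    filter_upwards [t1.eventually_lt_const h1, t2.eventually_lt_const h2] with n hn1 hn2
    refine ⟨hn1.le, ?_⟩
    intro hmem
    rw [mem_ball] at hmem
    linarith
  obtain ⟨F₁, mF₁, nF₁, zF₁, bF₁, lF₁, eF₁⟩ := trunc h hm₁ h0₁ hρ₁ hc₁ (fun n => (cQ n).measurableSet) hQev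
  obtain ⟨F₂, mF₂, nF₂, zF₂, bF₂, lF₂, eF₂⟩ := trunc h hm₂ h0₂ hρ₂ hc₂ (fun n => (cQ n).measurableSet) hQev
  -- the energies converge
  set bd : ℂ × ℂ → ℝ := fun p => 4 * ((‖K g p.1 p.2 * ρ₁ p.1 * ρ₁ p.2‖ +
    ‖K g p.1 p.2 * ρ₁ p.1 * ρ₂ p.2‖) + (‖K g p.1 p.2 * ρ₂ p.1 * ρ₁ p.2‖ +
    ‖K g p.1 p.2 * ρ₂ p.1 * ρ₂ p.2‖)) with hbd
  have ibd : IntegrableOn bd (Λ ×ˢ Λ) :=
    (((hI _ _ hρ₁ hρ₁).norm.add (hI _ _ hρ₁ hρ₂).norm).add
      ((hI _ _ hρ₂ hρ₁).norm.add (hI _ _ hρ₂ hρ₂).norm)).const_mul 4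
  have meas : ∀ n, AEStronglyMeasurable (fun p : ℂ × ℂ => K g p.1 p.2 * (F₁ n p.1 - F₂ n p.1) *
      (F₁ n p.2 - F₂ n p.2)) (volume.restrict (Λ ×ˢ Λ)) := by
    intro n
    have m1 : Measurable (fun p : ℂ × ℂ => F₁ n p.1 - F₂ n p.1) :=
      ((mF₁ n).sub (mF₂ n)).comp measurable_fst
    have m2 : Measurable (fun p : ℂ × ℂ => F₁ n p.2 - F₂ n p.2) :=
      ((mF₁ n).sub (mF₂ n)).comp measurable_snd
    exact ((K_aemeas h).mul m1.aestronglyMeasurable).mul m2.aestronglyMeasurable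
  have hbound : ∀ᶠ n in atTop, ∀ p : ℂ × ℂ, ‖K g p.1 p.2 * (F₁ n p.1 - F₂ n p.1) *
      (F₁ n p.2 - F₂ n p.2)‖ ≤ bd p := by
    filter_upwards [bF₁, bF₂] with n h1 h2
    intro p
    have a1 : ∀ x, |F₁ n x - F₂ n x| ≤ 2 * (ρ₁ x + ρ₂ x) := by
      intro x
      rw [abs_le]
      constructor
      · linarith [nF₁ n x, (h2.2 x).2, h0₁ x]
      · linarith [nF₂ n x, (h1.2 x).2, h0₂ x]
    have b1 : ∀ a b : ℂ → ℝ, (∀ x, 0 ≤ a x) → (∀ x, 0 ≤ b x) →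
        ‖K g p.1 p.2 * a p.1 * b p.2‖ = |K g p.1 p.2| * (a p.1 * b p.2) := by
      intro a b ha hb
      rw [norm_mul, norm_mul, Real.norm_eq_abs, Real.norm_eq_abs, Real.norm_eq_abs,
        abs_of_nonneg (ha _), abs_of_nonneg (hb _), mul_assoc]
    simp only [hbd]
    rw [b1 _ _ h0₁ h0₁, b1 _ _ h0₁ h0₂, b1 _ _ h0₂ h0₁, b1 _ _ h0₂ h0₂, norm_mul, norm_mul,
      Real.norm_eq_abs, Real.norm_eq_abs, Real.norm_eq_abs, mul_assoc]
    have c1 : |F₁ n p.1 - F₂ n p.1| * |F₁ n p.2 - F₂ n p.2| ≤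
        (2 * (ρ₁ p.1 + ρ₂ p.1)) * (2 * (ρ₁ p.2 + ρ₂ p.2)) :=
      mul_le_mul (a1 _) (a1 _) (abs_nonneg _) (by linarith [h0₁ p.1, h0₂ p.1])
    have := mul_le_mul_of_nonneg_left c1 (abs_nonneg (K g p.1 p.2))
    refine this.trans (le_of_eq ?_)
    ring
  have hlim : Tendsto (fun n => ∫ p in Λ ×ˢ Λ, K g p.1 p.2 * (F₁ n p.1 - F₂ n p.1) *
      (F₁ n p.2 - F₂ n p.2)) atTop (𝓝 (∫ p in Λ ×ˢ Λ, K g p.1 p.2 * (ρ₁ p.1 - ρ₂ p.1) *
      (ρ₁ p.2 - ρ₂ p.2))) := by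
    apply tendsto_integral_filter_of_dominated_convergence bd
    · exact Eventually.of_forall meas
    · filter_upwards [hbound] with n hn
      exact ae_of_all _ hn
    · exact ibd
    · filter_upwards [ae_restrict_mem (hΛ.prod hΛ)] with p hp
      exact (tendsto_const_nhds.mul ((lF₁ _ hp.1).sub (lF₂ _ hp.1))).mul
        ((lF₁ _ hp.2).sub (lF₂ _ hp.2))
  have hen : ∀ᶠ n in atTop, e < en Λ (K g) (F₁ n) (F₂ n) := by
    have h1 : en Λ (K g) ρ₁ ρ₂ = 1 / 2 * ∫ p in Λ ×ˢ Λ, K g p.1 p.2 * (ρ₁ p.1 - ρ₂ p.1) *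
        (ρ₁ p.2 - ρ₂ p.2) := by
      apply en_eq'
      have h11 := hI _ _ hρ₁ hρ₁
      have h12 := hI _ _ hρ₁ hρ₂
      have h21 := hI _ _ hρ₂ hρ₁
      have h22 := hI _ _ hρ₂ hρ₂
      unfold JI at h11 h12 h21 h22
      refine (((h11.sub h12).sub h21).add h22).congr (ae_of_all _ fun p => ?_)
      simp only [Pi.sub_apply, Pi.add_apply]; ring
    rw [h1] at he
    have h2 := (hlim.const_mul (1 / 2)).eventually_const_lt he
    filter_upwards [h2, hbound] with n hn hb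
    rw [en_eq']
    · exact hn
    · exact ibd.mono' (meas n) (ae_of_all _ hb)
  obtain ⟨n, hn1, hn2, hn3, hn4, hn5⟩ := (hen.and (bF₁.and (bF₂.and
    ((eF₁.eventually_lt_const (lt_add_of_pos_right _ hη)).and
      (eF₂.eventually_lt_const (lt_add_of_pos_right _ hη)))))).exists
  refine ⟨F₁ n, F₂ n, Q n, r n, 2 * n, ?_, hn1, hn4, hn5⟩
  exact
    { m₁ := mF₁ n
      m₂ := mF₂ n
      compact := kQ n
      subset := sQ n
      rpos := hr0 n
      inside := (closedBall_subset_ball (hr2 n)).trans hRΛ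
      disj := Set.disjoint_left.mpr fun x hx hx' => hx.2 hx'
      zero₁ := zF₁ n
      zero₂ := zF₂ n
      nonneg₁ := nF₁ n
      nonneg₂ := nF₂ n
      le₁ := fun x => (hn2.2 x).1
      le₂ := fun x => (hn3.2 x).1
      one₁ := hn2.1
      one₂ := hn3.1 }

lemma stepB (h : Ker Λ g D C₃ cL CB)
    (hI : ∀ ρ₁ ρ₂, IsDens Λ ρ₁ → IsDens Λ ρ₂ → JI Λ g ρ₁ ρ₂) {ρ₁ ρ₂ : ℂ → ℝ}
    (hm₁ : Measurable ρ₁) (h0₁ : ∀ x, 0 ≤ ρ₁ x) (hρ₁ : IsDens Λ ρ₁)
    (hm₂ : Measurable ρ₂) (h0₂ : ∀ x, 0 ≤ ρ₂ x) (hρ₂ : IsDens Λ ρ₂)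
    {e : ℝ} (he : e < en Λ (K g) ρ₁ ρ₂) {η : ℝ} (hη : 0 < η) :
    ∃ (f₁ f₂ : ℂ → ℝ) (Q : Set ℂ) (c : ℂ) (r L : ℝ), Nice Λ f₁ f₂ Q c r L ∧
      e < en Λ (K g) f₁ f₂ ∧
      ∫ x in Λ, f₁ x * Real.log (f₁ x) < (∫ x in Λ, ρ₁ x * Real.log (ρ₁ x)) + η ∧
      ∫ x in Λ, f₂ x * Real.log (f₂ x) < (∫ x in Λ, ρ₂ x * Real.log (ρ₂ x)) + η := by
  obtain ⟨c, hc⟩ := h.nonempty
  have key : ∀ ρ : ℂ → ℝ, ({c}ᶜ : Set ℂ).indicator ρ =ᵐ[volume.restrict Λ] ρ := by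
    intro ρ
    have h1 : ∀ᵐ x ∂(volume : Measure ℂ), x ≠ c := by
      rw [ae_iff]; simp
    filter_upwards [ae_restrict_of_ae h1] with x hx
    rw [Set.indicator_of_mem]
    exact hx
  have k0 : ∀ ρ : ℂ → ℝ, (∀ x, 0 ≤ ρ x) → ∀ x, 0 ≤ ({c}ᶜ : Set ℂ).indicator ρ x :=
    fun ρ hρ x => Set.indicator_nonneg (fun y _ => hρ y) x
  have kc : ∀ ρ : ℂ → ℝ, ({c}ᶜ : Set ℂ).indicator ρ c = 0 := fun ρ => by simp
  have mc : MeasurableSet ({c}ᶜ : Set ℂ) := (measurableSet_singleton c).compl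
  rw [← en_congr (key ρ₁) (key ρ₂)] at he
  rw [← ent_congr (key ρ₁), ← ent_congr (key ρ₂)]
  obtain ⟨f₁, f₂, Q, r, L, hN, h1, h2, h3⟩ := stepB' h hI (hm₁.indicator mc) (k0 _ h0₁)
    (isDens_congr hρ₁ (k0 _ h0₁) (key _)) (hm₂.indicator mc) (k0 _ h0₂)
    (isDens_congr hρ₂ (k0 _ h0₂) (key _)) hc (kc _) (kc _) he hη
  exact ⟨f₁, f₂, Q, c, r, L, hN, h1, h2, h3⟩

end S3

theorem taskS3 (hS1 : TaskS1) (hS0 : TaskS0) : TaskS3 := by
  intro Λ g D C₃ cL CB h ε η hε hη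
  have hI : ∀ ρ₁ ρ₂, IsDens Λ ρ₁ → IsDens Λ ρ₂ → S3.JI Λ g ρ₁ ρ₂ :=
    (hS1 Λ g D C₃ cL CB h).1
  obtain ⟨hle, hex⟩ := hS0 Λ g D C₃ cL CB h
  obtain ⟨τ₁, τ₂, hτ⟩ := hex ε hε
  have hlt : sL Λ (K g) ε - η / 2 < sL Λ (K g) ε := by linarith
  obtain ⟨s, ⟨ρ₁, ρ₂, ⟨d₁, d₂, hen⟩, rfl⟩, hs⟩ := exists_lt_of_lt_csSup
    (s := {s | ∃ ρ₁ ρ₂, Adm Λ (K g) ε ρ₁ ρ₂ ∧ s = 1 / 2 * (entr Λ ρ₁ + entr Λ ρ₂)})
    ⟨_, τ₁, τ₂, hτ, rfl⟩ hlt
  obtain ⟨ρ₁', m₁, n₁, e₁⟩ := S3.regularize h d₁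
  obtain ⟨ρ₂', m₂, n₂, e₂⟩ := S3.regularize h d₂
  have d₁' := S3.isDens_congr d₁ n₁ e₁
  have d₂' := S3.isDens_congr d₂ n₂ e₂
  obtain ⟨σ, mσ, nσ, dσ, hσ1, hσ2⟩ := S3.stepA h hI m₁ n₁ d₁' m₂ d₂' (show 0 < η / 4 by linarith)
  rw [S3.en_congr e₁ e₂, hen] at hσ1
  obtain ⟨f₁, f₂, Q, c, r, L, hN, h1, h2, h3⟩ := S3.stepB h hI mσ nσ dσ m₂ n₂ d₂' hσ1
    (show 0 < η / 4 by linarith)
  refine ⟨f₁, f₂, Q, c, r, L, hN, h1, ?_⟩
  rw [S3.ent_congr e₁] at hσ2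
  rw [S3.ent_congr e₂] at h3
  simp only [entr] at hs ⊢
  linarith

end Pool.Agent.H836_PV
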