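import Pool.Agent.H836_PV.L3

/-!
# Module U, part 1: the Hessian of the Hamiltonian in three coordinates
-/

open MeasureTheory Filter Topology Set Metric

namespace Pool.Agent.H836_PV

section calculus
variable {V W : Type*} [NormedAddCommGroup V] [NormedSpace ℝ V] [NormedAddCommGroup W]
  [NormedSpace ℝ W]

theorem line_cont (u a : V) : Continuous fun t : ℝ => u + t • a := by fun_prop

theorem line_ev {U : Set V} (hU : IsOpen U) {u a : V} (hu : u ∈ U) :
    ∀ᶠ t : ℝ in 𝓝 0, u + t • a ∈ U := by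
  have : (fun t : ℝ => u + t • a) ⁻¹' U ∈ 𝓝 (0 : ℝ) := by
    apply (line_cont u a).continuousAt.preimage_mem_nhds
    simpa using hU.mem_nhds hu
  exact this

theorem HessOn.congr {U : Set V} {h h' : V → ℝ} {h1 : V → V → ℝ} {B : V → V → V → ℝ} {L : ℝ}
    (H : HessOn U h h1 B L) (hU : IsOpen U) (e : ∀ u ∈ U, h' u = h u) : HessOn U h' h1 B L where
  d1 u hu a := by
    apply (H.d1 u hu a).congr_of_eventuallyEq
    filter_upwards [line_ev hU hu (a := a)] with t ht
    exact e _ ht
  d2 := H.d2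
  add_left := H.add_left
  smul_left := H.smul_left
  symm := H.symm
  lip := H.lip

theorem HessOn.mono {U U' : Set V} {h : V → ℝ} {h1 : V → V → ℝ} {B : V → V → V → ℝ} {L L' : ℝ}
    (H : HessOn U h h1 B L) (hU : U' ⊆ U) (hL : L ≤ L') : HessOn U' h h1 B L' where
  d1 u hu a := H.d1 u (hU hu) a
  d2 u hu a := H.d2 u (hU hu) a
  add_left u hu := H.add_left u (hU hu)
  smul_left u hu := H.smul_left u (hU hu)
  symm u hu := H.symm u (hU hu)
  lip u hu v hv a := (H.lip u (hU hu) v (hU hv) a).trans (by gcongr)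

theorem HessOn.const (U : Set V) (c : ℝ) :
    HessOn U (fun _ => c) (fun _ _ => 0) (fun _ _ _ => 0) 0 where
  d1 u _ a := hasDerivAt_const _ _
  d2 u _ a := hasDerivAt_const _ _
  add_left := by intros; simp
  smul_left := by intros; simp
  symm := by intros; simp
  lip := by intros; simp

theorem HessOn.add {U : Set V} {h h' : V → ℝ} {h1 h1' : V → V → ℝ} {B B' : V → V → V → ℝ}
    {L L' : ℝ} (H : HessOn U h h1 B L) (H' : HessOn U h' h1' B' L') :
    HessOn U (fun u => h u + h' u) (fun u a => h1 u a + h1' u a)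
      (fun u a b => B u a b + B' u a b) (L + L') where
  d1 u hu a := (H.d1 u hu a).add (H'.d1 u hu a)
  d2 u hu a := (H.d2 u hu a).add (H'.d2 u hu a)
  add_left u hu a b c := by rw [H.add_left u hu, H'.add_left u hu]; ring
  smul_left u hu t a b := by rw [H.smul_left u hu, H'.smul_left u hu]; ring
  symm u hu a b := by rw [H.symm u hu, H'.symm u hu]
  lip u hu v hv a := by
    have e : B u a a + B' u a a - (B v a a + B' v a a) =
      (B u a a - B v a a) + (B' u a a - B' v a a) := by ring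
    rw [e]
    refine (abs_add_le _ _).trans ?_
    have := H.lip u hu v hv a
    have := H'.lip u hu v hv a
    linarith

theorem HessOn.const_mul {U : Set V} {h : V → ℝ} {h1 : V → V → ℝ} {B : V → V → V → ℝ}
    {L : ℝ} (H : HessOn U h h1 B L) (c : ℝ) :
    HessOn U (fun u => c * h u) (fun u a => c * h1 u a) (fun u a b => c * B u a b) (|c| * L) where
  d1 u hu a := (H.d1 u hu a).const_mul c
  d2 u hu a := (H.d2 u hu a).const_mul c
  add_left u hu a b d := by rw [H.add_left u hu]; ring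
  smul_left u hu t a b := by rw [H.smul_left u hu]; ring
  symm u hu a b := by rw [H.symm u hu]
  lip u hu v hv a := by
    rw [← mul_sub, abs_mul]
    have := H.lip u hu v hv a
    calc |c| * |B u a a - B v a a| ≤ |c| * (L * ‖u - v‖ * ‖a‖ ^ 2) := by gcongr
      _ = _ := by ring

theorem HessOn.sum {α : Type*} (t : Finset α) {U : Set V} {h : α → V → ℝ} {h1 : α → V → V → ℝ}
    {B : α → V → V → V → ℝ} {L : α → ℝ} (H : ∀ i ∈ t, HessOn U (h i) (h1 i) (B i) (L i)) :
    HessOn U (fun u => ∑ i ∈ t, h i u) (fun u a => ∑ i ∈ t, h1 i u a)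
      (fun u a b => ∑ i ∈ t, B i u a b) (∑ i ∈ t, L i) := by
  classical
  induction t using Finset.induction_on with
  | empty => simpa using HessOn.const U 0
  | insert i t hi ih =>
    simp only [Finset.sum_insert hi]
    exact (H i (Finset.mem_insert_self _ _)).add (ih fun j hj => H j (Finset.mem_insert_of_mem hj))

theorem HessOn.comp {U : Set W} {h : W → ℝ} {h1 : W → W → ℝ} {B : W → W → W → ℝ}
    {L : ℝ} (H : HessOn U h h1 B L) (A : V →ₗ[ℝ] W) (b : W) {k : ℝ} (hk : 0 ≤ k) (hL : 0 ≤ L)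
    (hA : ∀ v, ‖A v‖ ≤ k * ‖v‖) {U' : Set V} (hU : ∀ u ∈ U', A u + b ∈ U) :
    HessOn U' (fun u => h (A u + b)) (fun u a => h1 (A u + b) (A a))
      (fun u a c => B (A u + b) (A a) (A c)) (L * k ^ 3) where
  d1 u hu a := by
    have := H.d1 _ (hU u hu) (A a)
    convert! this using 1
    ext t
    congr 1
    rw [map_add, map_smul]; abel
  d2 u hu a := by
    have := H.d2 _ (hU u hu) (A a)
    convert! this using 1
    ext t
    congr 1
    rw [map_add, map_smul]; abel
  add_left u hu a c d := by rw [map_add, H.add_left _ (hU u hu)]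
  smul_left u hu t a c := by rw [map_smul, H.smul_left _ (hU u hu)]
  symm u hu a c := H.symm _ (hU u hu) _ _
  lip u hu v hv a := by
    refine (H.lip _ (hU u hu) _ (hU v hv) (A a)).trans ?_
    have e : A u + b - (A v + b) = A (u - v) := by rw [map_sub]; abel
    rw [e]
    have h1 := hA (u - v)
    have h2 := hA a
    calc L * ‖A (u - v)‖ * ‖A a‖ ^ 2 ≤ L * (k * ‖u - v‖) * (k * ‖a‖) ^ 2 := by gcongr
      _ = _ := by ring

end calculus

/-- the logarithm -/
theorem hess_log {r : ℝ} (hr : 0 < r) :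
    HessOn {z : ℂ | r < ‖z‖} (fun z => Real.log ‖z‖) (fun z a => (a / z).re)
      (fun z a b => -(a * b / z ^ 2).re) (2 / r ^ 3) where
  d1 z hz a := by
    have hz0 : z ≠ 0 := by
      intro h; simp [h] at hz; linarith
    have hn : Complex.normSq z ≠ 0 := by simpa using hz0
    have e : (fun t : ℝ => Real.log ‖z + t • a‖) =
        fun t : ℝ => Real.log (Complex.normSq (z + t • a)) / 2 := by
      ext t
      rw [Complex.normSq_eq_norm_sq, Real.log_pow]
      push_cast; ring
    rw [e]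
    have h1 : HasDerivAt (fun t : ℝ => Complex.normSq (z + t • a))
        (2 * (z.re * a.re + z.im * a.im)) 0 := by
      have : (fun t : ℝ => Complex.normSq (z + t • a)) = fun t : ℝ =>
          (z.re + t * a.re) ^ 2 + (z.im + t * a.im) ^ 2 := by
        ext t
        simp [Complex.normSq_apply]; ring
      rw [this]
      have k1 : HasDerivAt (fun t : ℝ => z.re + t * a.re) a.re 0 := by
        simpa using ((hasDerivAt_id (0:ℝ)).mul_const a.re).const_add z.re
      have k2 : HasDerivAt (fun t : ℝ => z.im + t * a.im) a.im 0 := by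
        simpa using ((hasDerivAt_id (0:ℝ)).mul_const a.im).const_add z.im
      have := (k1.pow 2).add (k2.pow 2)
      convert! this using 1
      simp; ring
    have h2 := (h1.log (by simpa using hz0)).div_const 2
    convert! h2 using 1
    simp only [zero_smul, add_zero]
    rw [Complex.div_re]
    field_simp
  d2 z hz a := by
    have hz0 : z ≠ 0 := by
      intro h; simp [h] at hz; linarith
    have h1 : HasDerivAt (fun w : ℂ => a / (z + w * a)) (-(a * a / z ^ 2)) ((0 : ℝ) : ℂ) := by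
      have k1 : HasDerivAt (fun w : ℂ => z + w * a) a ((0:ℝ):ℂ) := by
        simpa using ((hasDerivAt_id ((0:ℝ):ℂ)).mul_const a).const_add z
      have k2 := (hasDerivAt_const ((0:ℝ):ℂ) a).div k1 (by simpa using hz0)
      convert! k2 using 1
      simp
      field_simp
    have h2 := h1.real_of_complex
    simpa using h2
  add_left z hz a b c := by
    have : (a + b) * c / z ^ 2 = a * c / z ^ 2 + b * c / z ^ 2 := by ring
    rw [this, Complex.add_re]; ring
  smul_left z hz t a b := by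
    have : (t • a) * b / z ^ 2 = (t : ℂ) * (a * b / z ^ 2) := by
      rw [Complex.real_smul]; ring
    rw [this, Complex.re_ofReal_mul]; ring
  symm z hz a b := by rw [mul_comm a b]
  lip z hz w hw a := by
    have hz' : r < ‖z‖ := hz
    have hw' : r < ‖w‖ := hw
    have hz0 : z ≠ 0 := by rw [← norm_pos_iff]; linarith
    have hw0 : w ≠ 0 := by rw [← norm_pos_iff]; linarith
    have e : -(a * a / z ^ 2).re - -(a * a / w ^ 2).re =
        ((a * a) * ((z - w) * (z + w)) / (z ^ 2 * w ^ 2)).re := by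
      rw [← Complex.neg_re, ← Complex.neg_re, ← Complex.sub_re]
      congr 1
      field_simp
      ring
    rw [e]
    refine (Complex.abs_re_le_norm _).trans ?_
    rw [norm_div, norm_mul, norm_mul, norm_mul, norm_mul, norm_pow, norm_pow]
    have h1 : ‖z + w‖ ≤ ‖z‖ + ‖w‖ := norm_add_le _ _
    have hzp : 0 < ‖z‖ := by linarith
    have hwp : 0 < ‖w‖ := by linarith
    rw [div_le_iff₀ (by positivity)]
    -- (|z|+|w|) r^3 ≤ 2 |z|² |w|²
    have h2 : (‖z‖ + ‖w‖) * r ^ 3 ≤ 2 * (‖z‖ ^ 2 * ‖w‖ ^ 2) := by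
      have a1 : r ^ 3 ≤ ‖z‖ * ‖w‖ ^ 2 := by
        calc r ^ 3 = r * r ^ 2 := by ring
          _ ≤ ‖z‖ * ‖w‖ ^ 2 := by gcongr
      have a2 : r ^ 3 ≤ ‖z‖ ^ 2 * ‖w‖ := by
        calc r ^ 3 = r ^ 2 * r := by ring
          _ ≤ ‖z‖ ^ 2 * ‖w‖ := by gcongr
      nlinarith [mul_le_mul_of_nonneg_left a1 hzp.le, mul_le_mul_of_nonneg_left a2 hwp.le]
    have h3 : 0 ≤ ‖a‖ * ‖a‖ * ‖z - w‖ := by positivity
    calc ‖a‖ * ‖a‖ * (‖z - w‖ * ‖z + w‖) ≤ ‖a‖ * ‖a‖ * (‖z - w‖ * (‖z‖ + ‖w‖)) := by gcongr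
      _ = (‖a‖ * ‖a‖ * ‖z - w‖) * ((‖z‖ + ‖w‖) * r ^ 3) / r ^ 3 := by field_simp
      _ ≤ (‖a‖ * ‖a‖ * ‖z - w‖) * (2 * (‖z‖ ^ 2 * ‖w‖ ^ 2)) / r ^ 3 := by gcongr
      _ = 2 / r ^ 3 * ‖z - w‖ * ‖a‖ ^ 2 * (‖z‖ ^ 2 * ‖w‖ ^ 2) := by ring

end Pool.Agent.H836_PV
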