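import Pool.Agent.H836_PV.U1
import Pool.Agent.H836_PV.StmtsB

/-!
# Module U, part 1b: the Hessian of the Hamiltonian in three coordinates
-/

open MeasureTheory Filter Topology Set Metric

namespace Pool.Agent.H836_PV

variable {ι : Type} [Fintype ι] [DecidableEq ι]

/-- first derivative of the pair term -/
noncomputable def T1 (g : ℂ → ℂ → ℝ) (s : Finset ι) (y : {i // i ∉ s} → ℂ) (i j : ι)
    (u a : {i // i ∈ s} → ℂ) : ℝ :=
  if hi : i ∈ s then
    if hj : j ∈ s then D1 (fun p : ℂ × ℂ => g p.1 p.2) (u ⟨i, hi⟩, u ⟨j, hj⟩) (a ⟨i, hi⟩, a ⟨j, hj⟩) -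
      ((a ⟨i, hi⟩ - a ⟨j, hj⟩) / (u ⟨i, hi⟩ - u ⟨j, hj⟩)).re
    else D1 (fun z => g z (y ⟨j, hj⟩)) (u ⟨i, hi⟩) (a ⟨i, hi⟩) -
      (a ⟨i, hi⟩ / (u ⟨i, hi⟩ - y ⟨j, hj⟩)).re
  else
    if hj : j ∈ s then D1 (fun z => g z (y ⟨i, hi⟩)) (u ⟨j, hj⟩) (a ⟨j, hj⟩) -
      (a ⟨j, hj⟩ / (u ⟨j, hj⟩ - y ⟨i, hi⟩)).re
    else 0

/-- second derivative of the pair term -/
noncomputable def T2 (g : ℂ → ℂ → ℝ) (s : Finset ι) (y : {i // i ∉ s} → ℂ) (i j : ι)
    (u a b : {i // i ∈ s} → ℂ) : ℝ :=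
  if hi : i ∈ s then
    if hj : j ∈ s then D2 (fun p : ℂ × ℂ => g p.1 p.2) (u ⟨i, hi⟩, u ⟨j, hj⟩)
        (a ⟨i, hi⟩, a ⟨j, hj⟩) (b ⟨i, hi⟩, b ⟨j, hj⟩) +
      ((a ⟨i, hi⟩ - a ⟨j, hj⟩) * (b ⟨i, hi⟩ - b ⟨j, hj⟩) / (u ⟨i, hi⟩ - u ⟨j, hj⟩) ^ 2).re
    else D2 (fun z => g z (y ⟨j, hj⟩)) (u ⟨i, hi⟩) (a ⟨i, hi⟩) (b ⟨i, hi⟩) +
      (a ⟨i, hi⟩ * b ⟨i, hi⟩ / (u ⟨i, hi⟩ - y ⟨j, hj⟩) ^ 2).re
  else
    if hj : j ∈ s then D2 (fun z => g z (y ⟨i, hi⟩)) (u ⟨j, hj⟩) (a ⟨j, hj⟩) (b ⟨j, hj⟩) +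
      (a ⟨j, hj⟩ * b ⟨j, hj⟩ / (u ⟨j, hj⟩ - y ⟨i, hi⟩) ^ 2).re
    else 0

variable {Λ : Set ℂ} {g : ℂ → ℂ → ℝ} {D C₃ cL CB : ℝ}

theorem ball_coord {κ : Type} [Fintype κ] {u₀ u : κ → ℂ} {ρ : ℝ} (hu : u ∈ ball u₀ ρ) (i : κ) :
    ‖u i - u₀ i‖ < ρ := by
  rw [mem_ball, dist_eq_norm] at hu
  have := norm_le_pi_norm (u - u₀) i
  simp only [Pi.sub_apply] at this
  linarith

/-- the term `g(z, v) - log|z - v|` with `v` fixed -/
theorem hess_single (hK : Ker Λ g D C₃ cL CB) {v : ℂ} (hv : v ∈ Λ) {x₀ : ℂ} {r : ℝ} (hr : 0 < r)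
    (hr1 : r ≤ 1) (hb : ball x₀ r ⊆ Λ) (hd : r ≤ ‖x₀ - v‖) :
    HessOn (ball x₀ (r / 4)) (fun z => g z v - Real.log ‖z - v‖)
      (fun z a => D1 (fun z => g z v) z a - (a / (z - v)).re)
      (fun z a b => D2 (fun z => g z v) z a b + (a * b / (z - v) ^ 2).re)
      ((C₃ + 16) / r ^ 4) := by
  have h1 := hK.hessv v hv x₀ r hr hr1 hb
  have h2 := (hess_log (half_pos hr)).comp (V := ℂ) (LinearMap.id) (-v) zero_le_one
    (by positivity) (by simp) (U' := ball x₀ (r / 4)) (by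
      intro u hu
      rw [mem_ball, dist_eq_norm] at hu
      simp only [LinearMap.id_coe, id_eq, mem_ofPred_eq]
      have : ‖x₀ - v‖ ≤ ‖u + -v‖ + ‖u - x₀‖ := by
        have e : x₀ - v = (u + -v) - (u - x₀) := by ring
        rw [e]; exact norm_sub_le _ _
      linarith)
  have h3 := h1.add (h2.const_mul (-1))
  refine HessOn.mono ?_ subset_rfl (L := C₃ / r ^ 4 + |(-1 : ℝ)| * (2 / (r / 2) ^ 3 * 1 ^ 3)) ?_
  · convert! h3 using 1
    · ext z; simp [sub_eq_add_neg]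
    · ext z a; simp [sub_eq_add_neg]
    · ext z a b; simp [sub_eq_add_neg]
  · rw [abs_neg, abs_one, add_div]
    have : 1 * (2 / (r / 2) ^ 3 * 1 ^ 3) = 16 / r ^ 3 := by field_simp; norm_num
    rw [this]
    have hr34 : r ^ 4 ≤ r ^ 3 := pow_le_pow_of_le_one hr.le hr1 (by norm_num)
    have : 16 / r ^ 3 ≤ 16 / r ^ 4 := div_le_div_of_nonneg_left (by norm_num) (by positivity) hr34
    linarith

/-- the pair `i ≠ j` both moving -/
theorem hess_pair (hK : Ker Λ g D C₃ cL CB) {κ : Type} [Fintype κ] {i j : κ} {u₀ : κ → ℂ} {r : ℝ}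
    (hr : 0 < r) (hr1 : r ≤ 1) (hi : ball (u₀ i) r ⊆ Λ) (hj : ball (u₀ j) r ⊆ Λ)
    (hd : i ≠ j → r ≤ ‖u₀ i - u₀ j‖) :
    HessOn (ball u₀ (r / 4)) (fun u : κ → ℂ => g (u i) (u j) - Real.log ‖u i - u j‖)
      (fun u a => D1 (fun p : ℂ × ℂ => g p.1 p.2) (u i, u j) (a i, a j) -
        ((a i - a j) / (u i - u j)).re)
      (fun u a b => D2 (fun p : ℂ × ℂ => g p.1 p.2) (u i, u j) (a i, a j) (b i, b j) +
        ((a i - a j) * (b i - b j) / (u i - u j) ^ 2).re)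
      ((C₃ + 1024) / r ^ 4) := by
  have h1 := (hK.hess (u₀ i) (u₀ j) r hr hr1 hi hj).comp (V := κ → ℂ)
    ((LinearMap.proj i).prod (LinearMap.proj j)) 0 zero_le_one (by have := hK.C₃_nonneg; positivity)
    (by
      intro v
      simp only [LinearMap.prod_apply, Function.prod_apply, LinearMap.proj_apply, one_mul]
      rw [Prod.norm_def]
      exact max_le (norm_le_pi_norm v i) (norm_le_pi_norm v j))
    (U' := ball u₀ (r / 4)) (by
      intro u hu
      simp only [add_zero]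
      constructor
      · simp only [LinearMap.prod_apply, Function.prod_apply, LinearMap.proj_apply, mem_ball,
          dist_eq_norm]
        exact ball_coord hu i
      · simp only [LinearMap.prod_apply, Function.prod_apply, LinearMap.proj_apply, mem_ball,
          dist_eq_norm]
        exact ball_coord hu j)
  by_cases hij : i = j
  · subst hij
    refine HessOn.mono ?_ subset_rfl (L := C₃ / r ^ 4 * 1 ^ 3) ?_
    · convert! h1 using 1
      · ext u; simp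
      · ext u a; simp
      · ext u a b; simp
    · rw [one_pow, mul_one]; gcongr; linarith
  · have hd' := hd hij
    have h2 := (hess_log (half_pos hr)).comp (V := κ → ℂ)
      ((LinearMap.proj i : (κ → ℂ) →ₗ[ℝ] ℂ) - LinearMap.proj j) 0 zero_le_two
      (by positivity) (by
        intro v
        simp only [LinearMap.sub_apply, LinearMap.proj_apply]
        refine (norm_sub_le _ _).trans ?_
        have := norm_le_pi_norm v i
        have := norm_le_pi_norm v j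
        linarith) (U' := ball u₀ (r / 4)) (by
        intro u hu
        simp only [LinearMap.sub_apply, LinearMap.proj_apply, add_zero, mem_ofPred_eq]
        have k1 := ball_coord hu i
        have k2 := ball_coord hu j
        have e : u₀ i - u₀ j = (u i - u j) - (u i - u₀ i) + (u j - u₀ j) := by ring
        have k3 : ‖u₀ i - u₀ j‖ ≤ ‖u i - u j‖ + ‖u i - u₀ i‖ + ‖u j - u₀ j‖ := by
          rw [e]
          refine (norm_add_le _ _).trans ?_
          have := norm_sub_le (u i - u j) (u i - u₀ i)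
          linarith
        linarith)
    have h3 := h1.add (h2.const_mul (-1))
    refine HessOn.mono ?_ subset_rfl
      (L := C₃ / r ^ 4 * 1 ^ 3 + |(-1 : ℝ)| * (2 / (r / 2) ^ 3 * 2 ^ 3)) ?_
    · convert! h3 using 1
      · ext z; simp [sub_eq_add_neg]
      · ext z a; simp [sub_eq_add_neg]
      · ext z a b; simp [sub_eq_add_neg]
    · rw [abs_neg, abs_one, add_div]
      have : 1 * (2 / (r / 2) ^ 3 * 2 ^ 3) = 128 / r ^ 3 := by field_simp; norm_num
      rw [this, one_pow, mul_one]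
      have hr34 : r ^ 4 ≤ r ^ 3 := pow_le_pow_of_le_one hr.le hr1 (by norm_num)
      have h5 : 128 / r ^ 3 ≤ 128 / r ^ 4 :=
        div_le_div_of_nonneg_left (by norm_num) (by positivity) hr34
      have h6 : 128 / r ^ 4 ≤ 1024 / r ^ 4 := by gcongr; norm_num
      linarith

/-- every pair term -/
theorem hess_T (hK : Ker Λ g D C₃ cL CB) {s : Finset ι} {y : {i // i ∉ s} → ℂ}
    (hy : ∀ i, y i ∈ Λ) {u₀ : {i // i ∈ s} → ℂ} {r : ℝ} (hr : 0 < r) (hr1 : r ≤ 1)
    (hG : GoodAt Λ s y r u₀) (i j : ι) :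
    HessOn (ball u₀ (r / 4)) (fun u => K g (glue s u y i) (glue s u y j))
      (T1 g s y i j) (T2 g s y i j)
      (if i ∈ s ∨ j ∈ s then (C₃ + 1024) / r ^ 4 else 0) := by
  have hC := hK.C₃_nonneg
  have hb : ∀ i : {i // i ∈ s}, ∀ u ∈ ball u₀ (r / 4), u i ∈ Λ := by
    intro i u hu
    apply hG.bdry i
    have := ball_coord hu i
    rw [mem_ball, dist_eq_norm]; linarith
  by_cases hi : i ∈ s
  · rw [if_pos (Or.inl hi)]
    by_cases hj : j ∈ s
    · have h := hess_pair hK (κ := {i // i ∈ s}) (i := ⟨i, hi⟩) (j := ⟨j, hj⟩) hr hr1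
        (hG.bdry ⟨i, hi⟩) (hG.bdry ⟨j, hj⟩) (fun h => hG.pair ⟨i, hi⟩ ⟨j, hj⟩ h)
      convert! h using 1
      · ext u; simp [glue, K, hi, hj]
      · ext u a; simp [T1, hi, hj]
      · ext u a b; simp [T2, hi, hj]
    · have h := (hess_single hK (hy ⟨j, hj⟩) hr hr1 (hG.bdry ⟨i, hi⟩)
        (hG.other ⟨i, hi⟩ ⟨j, hj⟩)).comp (V := {i // i ∈ s} → ℂ)
        (LinearMap.proj ⟨i, hi⟩ : ({i // i ∈ s} → ℂ) →ₗ[ℝ] ℂ) 0 zero_le_one (by positivity)
        (by intro v; simpa using norm_le_pi_norm v ⟨i, hi⟩) (U' := ball u₀ (r / 4)) (by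
          intro u hu
          simpa [dist_eq_norm] using ball_coord hu ⟨i, hi⟩)
      refine HessOn.mono (L := (C₃ + 16) / r ^ 4 * 1 ^ 3) ?_ subset_rfl ?_
      · convert! h using 1
        · ext u; simp [glue, K, hi, hj]
        · ext u a; simp [T1, hi, hj]
        · ext u a b; simp [T2, hi, hj]
      · rw [one_pow, mul_one]; gcongr; norm_num
  · by_cases hj : j ∈ s
    · rw [if_pos (Or.inr hj)]
      have h := (hess_single hK (hy ⟨i, hi⟩) hr hr1 (hG.bdry ⟨j, hj⟩)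
        (hG.other ⟨j, hj⟩ ⟨i, hi⟩)).comp (V := {i // i ∈ s} → ℂ)
        (LinearMap.proj ⟨j, hj⟩ : ({i // i ∈ s} → ℂ) →ₗ[ℝ] ℂ) 0 zero_le_one (by positivity)
        (by intro v; simpa using norm_le_pi_norm v ⟨j, hj⟩) (U' := ball u₀ (r / 4)) (by
          intro u hu
          simpa [dist_eq_norm] using ball_coord hu ⟨j, hj⟩)
      have h' : HessOn (ball u₀ (r / 4)) (fun u => g (u ⟨j, hj⟩) (y ⟨i, hi⟩) -
          Real.log ‖u ⟨j, hj⟩ - y ⟨i, hi⟩‖) (T1 g s y i j) (T2 g s y i j)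
          ((C₃ + 1024) / r ^ 4) := by
        refine HessOn.mono (L := (C₃ + 16) / r ^ 4 * 1 ^ 3) ?_ subset_rfl ?_
        · convert! h using 1
          · ext u; simp
          · ext u a; simp [T1, hi, hj]
          · ext u a b; simp [T2, hi, hj]
        · rw [one_pow, mul_one]; gcongr; norm_num
      apply h'.congr isOpen_ball
      intro u hu
      simp only [glue, K, hi, hj, dif_pos, dif_neg, not_false_eq_true]
      rw [hK.symm _ (hb ⟨j, hj⟩ u hu) _ (hy ⟨i, hi⟩), norm_sub_rev]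
    · rw [if_neg (by tauto)]
      have h := HessOn.const (ball u₀ (r / 4)) (K g (y ⟨i, hi⟩) (y ⟨j, hj⟩))
      convert! h using 1
      · ext u; simp [glue, hi, hj]
      · ext u a; simp [T1, hi, hj]
      · ext u a b; simp [T2, hi, hj]

/-- first derivative of the Hamiltonian in the coordinates `s` -/
noncomputable def HH1 (g : ℂ → ℂ → ℝ) (c : ι → ℝ) (s : Finset ι) (y : {i // i ∉ s} → ℂ)
    (u a : {i // i ∈ s} → ℂ) : ℝ := 1 / 2 * ∑ i, ∑ j, c i * c j * T1 g s y i j u a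

/-- second derivative of the Hamiltonian in the coordinates `s` -/
noncomputable def HH2 (g : ℂ → ℂ → ℝ) (c : ι → ℝ) (s : Finset ι) (y : {i // i ∉ s} → ℂ)
    (u a b : {i // i ∈ s} → ℂ) : ℝ := 1 / 2 * ∑ i, ∑ j, c i * c j * T2 g s y i j u a b

theorem hess_Ham (hK : Ker Λ g D C₃ cL CB) {c : ι → ℝ} (hc : ∀ i, |c i| = 1) {s : Finset ι}
    (hs : s.card = 3) {y : {i // i ∉ s} → ℂ}
    (hy : ∀ i, y i ∈ Λ) {u₀ : {i // i ∈ s} → ℂ} {r : ℝ} (hr : 0 < r) (hr1 : r ≤ 1)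
    (hG : GoodAt Λ s y r u₀) :
    HessOn (ball u₀ (r / 4)) (fun u => Ham g c (glue s u y)) (HH1 g c s y) (HH2 g c s y)
      (3 * (C₃ + 1024) * Fintype.card ι / r ^ 4) := by
  have hC := hK.C₃_nonneg
  have h1 : ∀ i j, HessOn (ball u₀ (r / 4)) (fun u => c i * c j * K g (glue s u y i) (glue s u y j))
      (fun u a => c i * c j * T1 g s y i j u a) (fun u a b => c i * c j * T2 g s y i j u a b)
      (if i ∈ s ∨ j ∈ s then (C₃ + 1024) / r ^ 4 else 0) := by
    intro i j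
    have := (hess_T hK hy hr hr1 hG i j).const_mul (c i * c j)
    rwa [abs_mul, hc, hc, one_mul, one_mul] at this
  have h2 := (HessOn.sum Finset.univ fun i _ => HessOn.sum Finset.univ fun j _ => h1 i j).const_mul
    (1 / 2 : ℝ)
  refine HessOn.mono ?_ subset_rfl (L := |(1 / 2 : ℝ)| * ∑ i : ι, ∑ j : ι,
    (if i ∈ s ∨ j ∈ s then (C₃ + 1024) / r ^ 4 else 0)) ?_
  · convert! h2 using 1
  · set q := (C₃ + 1024) / r ^ 4 with hq
    have hq0 : 0 ≤ q := by positivity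
    have h3 : ∀ i j : ι, (if i ∈ s ∨ j ∈ s then q else 0) ≤
        (if i ∈ s then q else 0) + (if j ∈ s then q else 0) := by
      intro i j
      by_cases hi : i ∈ s <;> by_cases hj : j ∈ s <;> simp [hi, hj, hq0]
    have h4 : ∑ i : ι, ∑ j : ι, (if i ∈ s ∨ j ∈ s then q else 0) ≤
        ∑ i : ι, ∑ j : ι, ((if i ∈ s then q else 0) + (if j ∈ s then q else 0)) :=
      Finset.sum_le_sum fun i _ => Finset.sum_le_sum fun j _ => h3 i j
    have h5 : ∑ i : ι, ∑ j : ι, ((if i ∈ s then q else 0) + (if j ∈ s then q else 0)) =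
        6 * q * Fintype.card ι := by
      simp only [Finset.sum_add_distrib, Finset.sum_const, Finset.card_univ, nsmul_eq_mul,
        ← Finset.mul_sum, Finset.sum_ite_mem, Finset.univ_inter, hs]
      push_cast; ring
    have : |(1 / 2 : ℝ)| = 1 / 2 := abs_of_pos (by norm_num)
    rw [this]
    have h6 : 3 * (C₃ + 1024) * Fintype.card ι / r ^ 4 = 3 * q * Fintype.card ι := by
      rw [hq]; ring
    rw [h6]
    linarith

/-- the Laplacian vanishes -/
theorem lap_zero (hK : Ker Λ g D C₃ cL CB) {v x : ℂ} (hv : v ∈ Λ) (hx : x ∈ Λ) (a : ℂ) :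
    D2 (fun z => g z v) x a a + D2 (fun z => g z v) x (Complex.I * a) (Complex.I * a) = 0 := by
  have h1 := hK.harm v hv x hx
  have h2 := h1.2.self_of_nhds
  rw [InnerProductSpace.laplacian_eq_iteratedFDeriv_complexPlane] at h2
  simp only [iteratedFDeriv_two_apply, Matrix.cons_val_zero, Matrix.cons_val_one, Pi.zero_apply]
    at h2
  set T := fderiv ℝ (fderiv ℝ fun z => g z v) x with hT
  have hsymm : ∀ p q, T p q = T q p := by
    intro p q
    have := (h1.1.isSymmSndFDerivAt (by simp)) p q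
    exact this
  have ha : a = a.re • (1 : ℂ) + a.im • Complex.I := by
    apply Complex.ext <;> simp
  have hIa : Complex.I * a = (-a.im) • (1 : ℂ) + a.re • Complex.I := by
    apply Complex.ext <;> simp
  unfold D2
  rw [← hT, hIa]
  nth_rewrite 1 [ha]
  nth_rewrite 3 [ha]
  simp only [map_add, map_smul, ContinuousLinearMap.add_apply, ContinuousLinearMap.smul_apply,
    smul_eq_mul]
  have := hsymm 1 Complex.I
  rw [this]
  linear_combination (a.re ^ 2 + a.im ^ 2) * h2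

theorem levi_Ham (hK : Ker Λ g D C₃ cL CB) {c : ι → ℝ} (hc : ∀ i, |c i| = 1) {s : Finset ι}
    (hs : s.card = 3) {y : {i // i ∉ s} → ℂ}
    (hy : ∀ i, y i ∈ Λ) {u₀ : {i // i ∈ s} → ℂ} {r : ℝ} (hr : 0 < r) (hr1 : r ≤ 1)
    (hG : GoodAt Λ s y r u₀) (a : {i // i ∈ s} → ℂ) :
    HH2 g c s y u₀ a a + HH2 g c s y u₀ (Complex.I • a) (Complex.I • a) ≤
      -(cL * r ^ 4 * ‖a‖ ^ 2) := by
  have hu : ∀ i, u₀ i ∈ Λ := fun i => hG.bdry i (mem_ball_self hr)
  have hl := hK.levi {i // i ∈ s} (by simpa using hs) (fun i => c i) (fun i => hc i) u₀ hu r hr hr1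
    hG.pair a
  refine le_trans (le_of_eq ?_) hl
  unfold HH2
  rw [← mul_add, ← Finset.sum_add_distrib]
  congr 1
  -- each term
  have key : ∀ i j : ι, c i * c j * T2 g s y i j u₀ a a +
      c i * c j * T2 g s y i j u₀ (Complex.I • a) (Complex.I • a) =
      if hi : i ∈ s then if hj : j ∈ s then c i * c j *
        (D2 (fun p : ℂ × ℂ => g p.1 p.2) (u₀ ⟨i, hi⟩, u₀ ⟨j, hj⟩) (a ⟨i, hi⟩, a ⟨j, hj⟩)
          (a ⟨i, hi⟩, a ⟨j, hj⟩) +
         D2 (fun p : ℂ × ℂ => g p.1 p.2) (u₀ ⟨i, hi⟩, u₀ ⟨j, hj⟩)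
          (Complex.I * a ⟨i, hi⟩, Complex.I * a ⟨j, hj⟩)
          (Complex.I * a ⟨i, hi⟩, Complex.I * a ⟨j, hj⟩)) else 0 else 0 := by
    intro i j
    have hI : ∀ p q z : ℂ, (Complex.I * p * (Complex.I * q) / z) = -(p * q / z) := by
      intro p q z
      have : Complex.I * p * (Complex.I * q) = (Complex.I * Complex.I) * (p * q) := by ring
      rw [this, Complex.I_mul_I]; ring
    by_cases hi : i ∈ s
    · by_cases hj : j ∈ s
      · simp only [T2, hi, hj, dif_pos, Pi.smul_apply, smul_eq_mul, ← mul_sub]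
        rw [hI, Complex.neg_re]
        ring
      · simp only [T2, hi, hj, dif_pos, Pi.smul_apply, smul_eq_mul, dif_neg, not_false_eq_true]
        rw [hI, Complex.neg_re]
        have := lap_zero hK (hy ⟨j, hj⟩) (hu ⟨i, hi⟩) (a ⟨i, hi⟩)
        linear_combination (c i * c j) * this
    · by_cases hj : j ∈ s
      · simp only [T2, hi, hj, dif_pos, Pi.smul_apply, smul_eq_mul, dif_neg, not_false_eq_true]
        rw [hI, Complex.neg_re]
        have := lap_zero hK (hy ⟨i, hi⟩) (hu ⟨j, hj⟩) (a ⟨j, hj⟩)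
        linear_combination (c i * c j) * this
      · simp [T2, hi, hj]
  calc ∑ i, (∑ j, c i * c j * T2 g s y i j u₀ a a +
        ∑ j, c i * c j * T2 g s y i j u₀ (Complex.I • a) (Complex.I • a))
      = ∑ i, ∑ j, (if hi : i ∈ s then if hj : j ∈ s then c i * c j *
        (D2 (fun p : ℂ × ℂ => g p.1 p.2) (u₀ ⟨i, hi⟩, u₀ ⟨j, hj⟩) (a ⟨i, hi⟩, a ⟨j, hj⟩)
          (a ⟨i, hi⟩, a ⟨j, hj⟩) +
         D2 (fun p : ℂ × ℂ => g p.1 p.2) (u₀ ⟨i, hi⟩, u₀ ⟨j, hj⟩)
          (Complex.I * a ⟨i, hi⟩, Complex.I * a ⟨j, hj⟩)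
          (Complex.I * a ⟨i, hi⟩, Complex.I * a ⟨j, hj⟩)) else 0 else 0) := by
        apply Finset.sum_congr rfl; intro i _
        rw [← Finset.sum_add_distrib]
        apply Finset.sum_congr rfl; intro j _
        exact key i j
    _ = _ := by
        rw [← Finset.sum_subset (Finset.subset_univ s)]
        · rw [← Finset.sum_coe_sort s]
          apply Finset.sum_congr rfl; intro i _
          rw [← Finset.sum_subset (Finset.subset_univ s)]
          · rw [← Finset.sum_coe_sort s]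
            apply Finset.sum_congr rfl; intro j _
            simp
          · intro j _ hj
            simp [hj]
        · intro i _ hi
          simp [hi]

end Pool.Agent.H836_PV
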