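import Pool.Agent.H836_PV.V4a

/-!
# Task V4, part b: energy of the density of a type
-/

open MeasureTheory Filter Topology Set Metric

namespace Pool.Agent.H836_PV

theorem V4_emp_sum {M n : ℕ} (q : ℂ → Fin n) (x : Fin M → ℂ) (φ : Fin n → ℝ) :
    ∑ α, φ α * emp q x α = (∑ i, φ (q (x i))) / M := by
  classical
  unfold emp
  have h1 : ∀ α, φ α * (((Finset.univ.filter fun i => q (x i) = α).card : ℝ) / M) =
      (∑ i, if q (x i) = α then φ α else 0) / M := by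
    intro α
    rw [← Finset.sum_filter, Finset.sum_const, nsmul_eq_mul]
    ring
  simp only [h1]
  rw [← Finset.sum_div, Finset.sum_comm]
  congr 1
  apply Finset.sum_congr rfl
  intro i _
  simp

theorem V4_mass_sum {Λ : Set ℂ} {n : ℕ} {q : ℂ → Fin n} (hq : Measurable q) {ρ : ℂ → ℝ}
    (hρ : IntegrableOn ρ Λ) (φ : Fin n → ℝ) :
    ∫ x in Λ, φ (q x) * ρ x = ∑ α, φ α * mass Λ q ρ α := by
  classical
  have h1 : ∀ x, φ (q x) * ρ x = ∑ α, φ α * (q ⁻¹' {α}).indicator ρ x := by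
    intro x
    rw [Finset.sum_eq_single (q x)]
    · rw [indicator_of_mem]; rfl
    · intro β _ hβ
      rw [indicator_of_notMem, mul_zero]
      intro h
      exact hβ h.symm
    · intro h; exact absurd (Finset.mem_univ _) h
  simp only [h1]
  rw [integral_finsetSum]
  · apply Finset.sum_congr rfl
    intro α _
    rw [integral_const_mul, setIntegral_indicator (hq (measurableSet_singleton α))]
    rfl
  · intro α _
    exact (hρ.indicator (hq (measurableSet_singleton α))).const_mul _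

theorem V4_int_cell {Λ : Set ℂ} {n : ℕ} {q : ℂ → Fin n} (hq : Measurable q) {ρ : ℂ → ℝ}
    (hρ : IntegrableOn ρ Λ) (φ : Fin n → ℝ) : IntegrableOn (fun x => φ (q x) * ρ x) Λ := by
  have hm : Measurable fun x => φ (q x) := (measurable_of_countable φ).comp hq
  obtain ⟨C, hC⟩ : ∃ C : ℝ, ∀ α, |φ α| ≤ C :=
    ⟨∑ α, |φ α|, fun α => Finset.single_le_sum (f := fun α => |φ α|)
      (fun _ _ => abs_nonneg _) (Finset.mem_univ α)⟩
  refine Integrable.bdd_mul hρ hm.aestronglyMeasurable (c := C) ?_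
  exact Eventually.of_forall fun x => hC _

theorem V4_diag (μ : Measure ℂ) [SFinite μ] [NullSingletonClass μ] : ∀ᵐ p ∂(μ.prod μ), p.1 ≠ p.2 := by
  have h : MeasurableSet {p : ℂ × ℂ | p.1 = p.2} := measurableSet_eq_fun measurable_fst measurable_snd
  rw [ae_iff]
  simp only [ne_eq, not_not]
  rw [Measure.measure_prod_null h]
  refine Eventually.of_forall fun x => ?_
  have : Prod.mk x ⁻¹' {p : ℂ × ℂ | p.1 = p.2} = {x} := by
    ext y
    constructor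
    · intro h
      exact (h : x = y).symm
    · intro h
      exact (h : y = x).symm
  show μ (Prod.mk x ⁻¹' {p : ℂ × ℂ | p.1 = p.2}) = 0
  rw [this]
  exact measure_singleton x

theorem V4_int4 {X : Type} [MeasurableSpace X] {μ : Measure X} {a b c d : X → ℝ}
    (ha : Integrable a μ) (hb : Integrable b μ) (hc : Integrable c μ) (hd : Integrable d μ) :
    ∫ x, (a x + b x + c x + d x) ∂μ =
      (∫ x, a x ∂μ) + (∫ x, b x ∂μ) + (∫ x, c x ∂μ) + ∫ x, d x ∂μ := by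
  have hab : Integrable (fun x => a x + b x) μ := ha.add hb
  have habc : Integrable (fun x => a x + b x + c x) μ := hab.add hc
  rw [integral_add habc hd, integral_add hab hc, integral_add ha hb]

theorem V4_push {Λ : Set ℂ} {M m : ℕ} {q : ℂ → Fin (m + 1)} (hq : Measurable q) {ρ₁ ρ₂ : ℂ → ℝ}
    (h₁ : IntegrableOn ρ₁ Λ) (h₂ : IntegrableOn ρ₂ Λ) (x : Conf M)
    (H₁ : ∀ φ : Fin (m + 1) → ℝ, ∫ z in Λ, φ (q z) * ρ₁ z = (∑ i, φ (q (x (Sum.inl i)))) / M)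
    (H₂ : ∀ φ : Fin (m + 1) → ℝ, ∫ z in Λ, φ (q z) * ρ₂ z = (∑ i, φ (q (x (Sum.inr i)))) / M)
    (φ : Fin (m + 1) → ℝ) :
    ∫ z in Λ, φ (q z) * (ρ₁ z - ρ₂ z) = (∑ i, circ M i * φ (q (x i))) / M ∧
    ∫ z in Λ, φ (q z) * (ρ₁ z + ρ₂ z) = (∑ i, φ (q (x i))) / M := by
  constructor
  · have : ∀ z, φ (q z) * (ρ₁ z - ρ₂ z) = φ (q z) * ρ₁ z - φ (q z) * ρ₂ z := fun z => by ring
    simp only [this]
    rw [integral_sub (V4_int_cell hq h₁ φ) (V4_int_cell hq h₂ φ), H₁, H₂, Fintype.sum_sum_type]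
    simp only [circ, Sum.elim_inl, Sum.elim_inr, one_mul, neg_mul, Finset.sum_neg_distrib]
    ring
  · have : ∀ z, φ (q z) * (ρ₁ z + ρ₂ z) = φ (q z) * ρ₁ z + φ (q z) * ρ₂ z := fun z => by ring
    simp only [this]
    rw [integral_add (V4_int_cell hq h₁ φ) (V4_int_cell hq h₂ φ), H₁, H₂, Fintype.sum_sum_type]
    ring

/-- the energy of the density of a type versus the step kernel -/
theorem V4_en {Λ : Set ℂ} {g : ℂ → ℂ → ℝ} {D C₃ cL CB : ℝ} (hK : Ker Λ g D C₃ cL CB)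
    {M : ℕ} (hM : 0 < M) {δ ε₃ η₂ : ℝ} (hδ : 0 < δ) (hδ1 : δ < 1) (hε₃ : 0 ≤ ε₃)
    {m : ℕ} (q : ℂ → Fin (m + 1)) (hq : Measurable q) (Gt : Fin (m + 1) → Fin (m + 1) → ℝ)
    (hG0 : ∀ α β, 0 ≤ Gt α β ∧ Gt α β ≤ Real.log (D / δ))
    (hGt : ∀ x ∈ Λ, ∀ y ∈ Λ, x ≠ y → q x ≠ 0 → q y ≠ 0 →
      |min (K g x y) (Real.log (D / δ)) - Gt (q x) (q y)| ≤ ε₃)
    {ρ₁ ρ₂ : ℂ → ℝ} (h₁ : IsDens Λ ρ₁) (h₂ : IsDens Λ ρ₂)
    (hint : ∀ ρ ρ', IsDens Λ ρ → IsDens Λ ρ' →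
      IntegrableOn (fun p : ℂ × ℂ => K g p.1 p.2 * ρ p.1 * ρ' p.2) (Λ ×ˢ Λ))
    (hfd : ∀ ρ ρ', (ρ = ρ₁ ∨ ρ = ρ₂) → (ρ' = ρ₁ ∨ ρ' = ρ₂) →
      IntegrableOn (fun p : ℂ × ℂ => fd δ p.1 p.2 * ρ p.1 * ρ' p.2) (Λ ×ˢ Λ) ∧
      ∫ p in Λ ×ˢ Λ, fd δ p.1 p.2 * ρ p.1 * ρ' p.2 ≤ η₂)
    (x : Conf M)
    (H₁ : ∀ φ : Fin (m + 1) → ℝ, ∫ z in Λ, φ (q z) * ρ₁ z = (∑ i, φ (q (x (Sum.inl i)))) / M)
    (H₂ : ∀ φ : Fin (m + 1) → ℝ, ∫ z in Λ, φ (q z) * ρ₂ z = (∑ i, φ (q (x (Sum.inr i)))) / M) :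
    1 / 2 * ((∑ i, ∑ j, circ M i * circ M j * Gt (q (x i)) (q (x j))) / (M : ℝ) ^ 2) ≤
      en Λ (K g) ρ₁ ρ₂ + (2 * η₂ + 2 * ε₃ + 2 * Real.log (D / δ) *
        (((Finset.univ.filter fun i => q (x i) = 0).card : ℝ) / M)) := by
  classical
  set L := Real.log (D / δ) with hL
  have hD : 1 ≤ D := hK.one_le
  have hL0 : 0 ≤ L := by
    apply Real.log_nonneg
    rw [le_div_iff₀ hδ]
    linarith
  have hΛm : MeasurableSet Λ := hK.isOpen.measurableSet
  set μ : Measure ℂ := volume.restrict Λ with hμ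
  have hprod : (volume : Measure (ℂ × ℂ)).restrict (Λ ×ˢ Λ) = μ.prod μ := by
    rw [hμ, Measure.prod_restrict, Measure.volume_eq_prod]
  set ω : ℂ → ℝ := fun z => ρ₁ z - ρ₂ z with hω
  set s : ℂ → ℝ := fun z => ρ₁ z + ρ₂ z with hs
  have hi₁ : Integrable ρ₁ μ := h₁.integrable
  have hi₂ : Integrable ρ₂ μ := h₂.integrable
  have hiω : Integrable ω μ := hi₁.sub hi₂
  have his : Integrable s μ := hi₁.add hi₂
  have hMR : (0 : ℝ) < M := by exact_mod_cast hM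
  -- pushforward identities
  have hpush := V4_push hq h₁.integrable h₂.integrable x H₁ H₂
  have hints : ∫ z, s z ∂μ = 2 := by
    rw [hs, integral_add hi₁ hi₂]
    have e1 : ∫ z, ρ₁ z ∂μ = 1 := h₁.integral
    have e2 : ∫ z, ρ₂ z ∂μ = 1 := h₂.integral
    rw [e1, e2]; norm_num
  set χ : Fin (m + 1) → ℝ := fun α => if α = 0 then 1 else 0 with hχ
  set n₀ : ℝ := ((Finset.univ.filter fun i => q (x i) = 0).card : ℝ) with hn₀
  have hint0 : ∫ z, χ (q z) * s z ∂μ = n₀ / M := by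
    have := (hpush χ).2
    rw [hs, this]
    congr 1
    simp only [hχ]
    rw [Finset.sum_boole]
  -- integrability
  have hP : Integrable (fun p : ℂ × ℂ => K g p.1 p.2 * ω p.1 * ω p.2) (μ.prod μ) := by
    have a11 := hint _ _ h₁ h₁
    have a12 := hint _ _ h₁ h₂
    have a21 := hint _ _ h₂ h₁
    have a22 := hint _ _ h₂ h₂
    unfold IntegrableOn at a11 a12 a21 a22
    rw [hprod] at a11 a12 a21 a22
    refine (((a11.sub a12).sub a21).add a22).congr (Eventually.of_forall fun p => ?_)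
    simp only [Pi.add_apply, Pi.sub_apply, hω]
    ring
  have b11 := hfd ρ₁ ρ₁ (Or.inl rfl) (Or.inl rfl)
  have b12 := hfd ρ₁ ρ₂ (Or.inl rfl) (Or.inr rfl)
  have b21 := hfd ρ₂ ρ₁ (Or.inr rfl) (Or.inl rfl)
  have b22 := hfd ρ₂ ρ₂ (Or.inr rfl) (Or.inr rfl)
  unfold IntegrableOn at b11 b12 b21 b22
  rw [hprod] at b11 b12 b21 b22
  have hFeq : (fun p : ℂ × ℂ => fd δ p.1 p.2 * s p.1 * s p.2) =
      fun p => fd δ p.1 p.2 * ρ₁ p.1 * ρ₁ p.2 + fd δ p.1 p.2 * ρ₁ p.1 * ρ₂ p.2 +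
        fd δ p.1 p.2 * ρ₂ p.1 * ρ₁ p.2 + fd δ p.1 p.2 * ρ₂ p.1 * ρ₂ p.2 := by
    funext p
    simp only [hs]
    ring
  have hF : Integrable (fun p : ℂ × ℂ => fd δ p.1 p.2 * s p.1 * s p.2) (μ.prod μ) := by
    rw [hFeq]
    exact ((b11.1.add b12.1).add b21.1).add b22.1
  have hF4 : ∫ p, fd δ p.1 p.2 * s p.1 * s p.2 ∂(μ.prod μ) ≤ 4 * η₂ := by
    rw [hFeq, V4_int4 b11.1 b12.1 b21.1 b22.1]
    linarith [b11.2, b12.2, b21.2, b22.2]
  have hχs : Integrable (fun z => χ (q z) * s z) μ := V4_int_cell hq his χ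
  have hss : Integrable (fun p : ℂ × ℂ => s p.1 * s p.2) (μ.prod μ) := his.mul_prod his
  have hχss : Integrable (fun p : ℂ × ℂ => (χ (q p.1) * s p.1) * s p.2) (μ.prod μ) :=
    hχs.mul_prod his
  have hsχs : Integrable (fun p : ℂ × ℂ => s p.1 * (χ (q p.2) * s p.2)) (μ.prod μ) :=
    his.mul_prod hχs
  have hRf : ∀ β, Integrable (fun z => Gt (q z) β * ω z) μ :=
    fun β => V4_int_cell hq hiω (fun α => Gt α β)
  have hRh : ∀ β : Fin (m + 1), Integrable (fun z => (if q z = β then (1 : ℝ) else 0) * ω z) μ :=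
    fun β => V4_int_cell hq hiω (fun α => if α = β then (1 : ℝ) else 0)
  have hReq : (fun p : ℂ × ℂ => Gt (q p.1) (q p.2) * ω p.1 * ω p.2) =
      fun p => ∑ β, (Gt (q p.1) β * ω p.1) * ((if q p.2 = β then (1 : ℝ) else 0) * ω p.2) := by
    funext p
    rw [Finset.sum_eq_single (q p.2)]
    · simp
    · intro β _ hβ
      rw [if_neg (fun h => hβ h.symm)]
      ring
    · intro h; exact absurd (Finset.mem_univ _) h
  have hR : Integrable (fun p : ℂ × ℂ => Gt (q p.1) (q p.2) * ω p.1 * ω p.2) (μ.prod μ) := by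
    rw [hReq]
    exact integrable_finsetSum _ fun β _ => (hRf β).mul_prod (hRh β)
  have hRint : ∫ p, Gt (q p.1) (q p.2) * ω p.1 * ω p.2 ∂(μ.prod μ) =
      (∑ i, ∑ j, circ M i * circ M j * Gt (q (x i)) (q (x j))) / (M : ℝ) ^ 2 := by
    rw [hReq, integral_finsetSum _ fun β _ => (hRf β).mul_prod (hRh β)]
    have e : ∀ β, ∫ p : ℂ × ℂ, (Gt (q p.1) β * ω p.1) *
        ((if q p.2 = β then (1 : ℝ) else 0) * ω p.2) ∂(μ.prod μ) =
        ((∑ i, circ M i * Gt (q (x i)) β) / M) *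
          ((∑ j, circ M j * (if q (x j) = β then (1 : ℝ) else 0)) / M) := by
      intro β
      rw [integral_prod_mul (fun z => Gt (q z) β * ω z)
        (fun z => (if q z = β then (1 : ℝ) else 0) * ω z)]
      have e1 := (hpush (fun α => Gt α β)).1
      have e2 := (hpush (fun α => if α = β then (1 : ℝ) else 0)).1
      rw [hω, e1, e2]
    simp only [e]
    have e3 : ∀ β, ((∑ i, circ M i * Gt (q (x i)) β) / M) *
          ((∑ j, circ M j * (if q (x j) = β then (1 : ℝ) else 0)) / M) =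
        (∑ i, ∑ j, circ M i * circ M j * (if q (x j) = β then Gt (q (x i)) β else 0)) /
          (M : ℝ) ^ 2 := by
      intro β
      rw [div_mul_div_comm, Finset.sum_mul_sum, ← pow_two]
      congr 1
      apply Finset.sum_congr rfl
      intro i _
      apply Finset.sum_congr rfl
      intro j _
      split_ifs <;> ring
    simp only [e3]
    rw [← Finset.sum_div, Finset.sum_comm]
    congr 1
    apply Finset.sum_congr rfl
    intro i _
    rw [Finset.sum_comm]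
    apply Finset.sum_congr rfl
    intro j _
    rw [← Finset.mul_sum]
    simp
  -- the pointwise bound
  have hae : ∀ᵐ p ∂(μ.prod μ), Gt (q p.1) (q p.2) * ω p.1 * ω p.2 ≤
      K g p.1 p.2 * ω p.1 * ω p.2 + (fd δ p.1 p.2 * s p.1 * s p.2 + ε₃ * (s p.1 * s p.2) +
        L * ((χ (q p.1) * s p.1) * s p.2) + L * (s p.1 * (χ (q p.2) * s p.2))) := by
    have hmem : ∀ᵐ p ∂(μ.prod μ), p ∈ Λ ×ˢ Λ := by
      rw [← hprod]
      exact ae_restrict_mem (hΛm.prod hΛm)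
    filter_upwards [hmem, V4_diag μ] with p hp hne
    obtain ⟨hp1, hp2⟩ := hp
    obtain ⟨ht, hK0⟩ := V4_trunc hK hδ hp1 hp2 hne
    rw [← hL] at ht
    have hmin0 : 0 ≤ min (K g p.1 p.2) L := le_min hK0 hL0
    have hminL : min (K g p.1 p.2) L ≤ L := min_le_right _ _
    have hminK : min (K g p.1 p.2) L ≤ K g p.1 p.2 := min_le_left _ _
    have hG1 := hG0 (q p.1) (q p.2)
    have hfd0 := V4_fd_nonneg δ p.1 p.2
    have hχ0 : ∀ α, 0 ≤ χ α := fun α => by simp only [hχ]; split_ifs <;> norm_num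
    have hdiff : |Gt (q p.1) (q p.2) - K g p.1 p.2| ≤ fd δ p.1 p.2 + ε₃ + L * χ (q p.1) +
        L * χ (q p.2) := by
      have hi0 : 0 ≤ L * χ (q p.1) := mul_nonneg hL0 (hχ0 _)
      have hj0 : 0 ≤ L * χ (q p.2) := mul_nonneg hL0 (hχ0 _)
      by_cases c1 : q p.1 = 0
      · have : χ (q p.1) = 1 := by simp [hχ, c1]
        rw [this] at hi0 ⊢
        rw [abs_le]; constructor <;> linarith
      · by_cases c2 : q p.2 = 0
        · have : χ (q p.2) = 1 := by simp [hχ, c2]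
          rw [this] at hj0 ⊢
          rw [abs_le]; constructor <;> linarith
        · have := hGt _ hp1 _ hp2 hne c1 c2
          rw [abs_le] at this ⊢
          constructor <;> linarith [this.1, this.2]
    have ha : 0 ≤ ρ₁ p.1 := h₁.nonneg _ hp1
    have hb : 0 ≤ ρ₂ p.1 := h₂.nonneg _ hp1
    have hc : 0 ≤ ρ₁ p.2 := h₁.nonneg _ hp2
    have hd : 0 ≤ ρ₂ p.2 := h₂.nonneg _ hp2
    have hωs1 : |ω p.1| ≤ s p.1 := by
      simp only [hω, hs]; rw [abs_le]; constructor <;> linarith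
    have hωs2 : |ω p.2| ≤ s p.2 := by
      simp only [hω, hs]; rw [abs_le]; constructor <;> linarith
    have hs1 : 0 ≤ s p.1 := by simp only [hs]; linarith
    have hs2 : 0 ≤ s p.2 := by simp only [hs]; linarith
    have hωω : |ω p.1 * ω p.2| ≤ s p.1 * s p.2 := by
      rw [abs_mul]
      exact mul_le_mul hωs1 hωs2 (abs_nonneg _) hs1
    have hR0 : 0 ≤ fd δ p.1 p.2 + ε₃ + L * χ (q p.1) + L * χ (q p.2) :=
      (abs_nonneg _).trans hdiff
    have hfin : (Gt (q p.1) (q p.2) - K g p.1 p.2) * (ω p.1 * ω p.2) ≤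
        (fd δ p.1 p.2 + ε₃ + L * χ (q p.1) + L * χ (q p.2)) * (s p.1 * s p.2) := by
      refine (le_abs_self _).trans ?_
      rw [abs_mul]
      exact mul_le_mul hdiff hωω (abs_nonneg _) hR0
    linarith [hfin]
  have hEint : Integrable (fun p : ℂ × ℂ => fd δ p.1 p.2 * s p.1 * s p.2 + ε₃ * (s p.1 * s p.2) +
        L * ((χ (q p.1) * s p.1) * s p.2) + L * (s p.1 * (χ (q p.2) * s p.2))) (μ.prod μ) :=
    ((hF.add (hss.const_mul ε₃)).add (hχss.const_mul L)).add (hsχs.const_mul L)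
  have hmono := integral_mono_ae hR (hP.add hEint) hae
  have hadd : ∫ p, ((fun p : ℂ × ℂ => K g p.1 p.2 * ω p.1 * ω p.2) + fun p : ℂ × ℂ =>
      fd δ p.1 p.2 * s p.1 * s p.2 + ε₃ * (s p.1 * s p.2) +
        L * ((χ (q p.1) * s p.1) * s p.2) + L * (s p.1 * (χ (q p.2) * s p.2))) p ∂(μ.prod μ) =
      (∫ p, K g p.1 p.2 * ω p.1 * ω p.2 ∂(μ.prod μ)) +
        ((∫ p, fd δ p.1 p.2 * s p.1 * s p.2 ∂(μ.prod μ)) + ε₃ * (2 * 2) +
        L * ((n₀ / M) * 2) + L * (2 * (n₀ / M))) := by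
    rw [integral_add' hP hEint, V4_int4 hF (hss.const_mul ε₃) (hχss.const_mul L)
      (hsχs.const_mul L), integral_const_mul, integral_const_mul,
      integral_const_mul, integral_prod_mul s s, integral_prod_mul (fun z => χ (q z) * s z) s,
      integral_prod_mul s (fun z => χ (q z) * s z), hints, hint0]
  rw [hadd, hRint] at hmono
  have hen : en Λ (K g) ρ₁ ρ₂ = 1 / 2 * ∫ p, K g p.1 p.2 * ω p.1 * ω p.2 ∂(μ.prod μ) := by
    rw [integral_prod _ hP]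
    rfl
  rw [hen]
  linarith [hmono, hF4]

end Pool.Agent.H836_PV
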