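import Mathlib

/-!
# Module W, part 1: product probability measures on configurations; variance of pair sums
-/

open MeasureTheory Filter Topology Set Metric ProbabilityTheory

namespace Pool.Agent.H836_PV

variable {ι : Type} [Fintype ι] (ν : ι → Measure ℂ) [∀ i, IsProbabilityMeasure (ν i)]

/-- the law of a pair of coordinates -/
theorem w_pair_law [DecidableEq ι] {i j : ι} (hij : i ≠ j) :
    MeasurePreserving (fun x : ι → ℂ => (x i, x j)) (Measure.pi ν) ((ν i).prod (ν j)) := by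
  refine ⟨by fun_prop, ?_⟩
  have h := (iIndepFun_pi (μ := ν) (X := fun _ z => z) fun i => aemeasurable_id).indepFun hij
  rw [h.map_prod_eq_prod_map_map (measurable_pi_apply i).aemeasurable
    (measurable_pi_apply j).aemeasurable]
  have h1 : Measure.map (fun x : ι → ℂ => x i) (Measure.pi ν) = ν i :=
    (measurePreserving_eval ν i).map_eq
  have h2 : Measure.map (fun x : ι → ℂ => x j) (Measure.pi ν) = ν j :=
    (measurePreserving_eval ν j).map_eq
  rw [h1, h2]

theorem w_one_law (i : ι) :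
    MeasurePreserving (fun x : ι → ℂ => x i) (Measure.pi ν) (ν i) :=
  measurePreserving_eval ν i

/-- covariances of pair functions with disjoint indices vanish -/
theorem w_cov_zero {i j k l : ι} (hik : i ≠ k) (hil : i ≠ l) (hjk : j ≠ k) (hjl : j ≠ l)
    (f h : ℂ × ℂ → ℝ) (hf : Measurable f) (hh : Measurable h)
    (hf2 : MemLp (fun x : ι → ℂ => f (x i, x j)) 2 (Measure.pi ν))
    (hh2 : MemLp (fun x : ι → ℂ => h (x k, x l)) 2 (Measure.pi ν)) :
    cov[fun x : ι → ℂ => f (x i, x j), fun x : ι → ℂ => h (x k, x l); Measure.pi ν] = 0 := by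
  have h0 := (iIndepFun_pi (μ := ν) (X := fun _ z => z) fun i => aemeasurable_id)
  have h1 := h0.indepFun_prodMk_prodMk (fun i => by fun_prop) i j k l hik hil hjk hjl
  exact (h1.comp hf hh).covariance_eq_zero hf2 hh2

theorem w_cov_le {Ω : Type*} [MeasurableSpace Ω] {μ : Measure Ω} [IsProbabilityMeasure μ]
    {X Y : Ω → ℝ} (hX : MemLp X 2 μ) (hY : MemLp Y 2 μ) {B : ℝ}
    (hXB : ∫ ω, X ω ^ 2 ∂μ ≤ B) (hYB : ∫ ω, Y ω ^ 2 ∂μ ≤ B) : cov[X, Y; μ] ≤ B := by
  have h1 := variance_sub hX hY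
  have h2 := variance_nonneg (X - Y) μ
  have h3 := variance_le_expectation_sq (μ := μ) hX.aestronglyMeasurable
  have h4 := variance_le_expectation_sq (μ := μ) hY.aestronglyMeasurable
  have h5 : μ[X ^ 2] = ∫ ω, X ω ^ 2 ∂μ := rfl
  have h6 : μ[Y ^ 2] = ∫ ω, Y ω ^ 2 ∂μ := rfl
  linarith

/-- variance of a sum of pair functions -/
theorem w_pair_var [DecidableEq ι] (h : ι → ι → ℂ × ℂ → ℝ) (hm : ∀ i j, Measurable (h i j)) (B : ℝ)
    (hB0 : 0 ≤ B)
    (hL : ∀ i j, MemLp (fun x : ι → ℂ => h i j (x i, x j)) 2 (Measure.pi ν))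
    (hB : ∀ i j, ∫ x : ι → ℂ, (h i j (x i, x j)) ^ 2 ∂(Measure.pi ν) ≤ B) :
    Var[fun x : ι → ℂ => ∑ i, ∑ j, h i j (x i, x j); Measure.pi ν] ≤
      4 * (Fintype.card ι : ℝ) ^ 3 * B := by
  have e1 : (fun x : ι → ℂ => ∑ i, ∑ j, h i j (x i, x j)) =
      fun x : ι → ℂ => ∑ p : ι × ι, h p.1 p.2 (x p.1, x p.2) := by
    funext x; rw [Fintype.sum_prod_type]
  rw [e1, variance_fun_sum (X := fun (p : ι × ι) (x : ι → ℂ) => h p.1 p.2 (x p.1, x p.2))
    (fun p => hL p.1 p.2)]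
  have e2 : ∀ p q : ι × ι, cov[fun x : ι → ℂ => h p.1 p.2 (x p.1, x p.2),
      fun x : ι → ℂ => h q.1 q.2 (x q.1, x q.2); Measure.pi ν] ≤
      B * ((if p.1 = q.1 then 1 else 0) + (if p.1 = q.2 then 1 else 0) +
        (if p.2 = q.1 then 1 else 0) + (if p.2 = q.2 then 1 else 0)) := by
    intro p q
    have hc := w_cov_le (hL p.1 p.2) (hL q.1 q.2) (hB p.1 p.2) (hB q.1 q.2)
    by_cases h1 : p.1 = q.1
    · rw [if_pos h1]
      refine hc.trans ?_
      have : (0 : ℝ) ≤ (if p.1 = q.2 then 1 else 0) + (if p.2 = q.1 then 1 else 0) +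
        (if p.2 = q.2 then 1 else 0) := by positivity
      nlinarith
    by_cases h2 : p.1 = q.2
    · rw [if_pos h2]
      refine hc.trans ?_
      have : (0 : ℝ) ≤ (if p.1 = q.1 then 1 else 0) + (if p.2 = q.1 then 1 else 0) +
        (if p.2 = q.2 then 1 else 0) := by positivity
      nlinarith
    by_cases h3 : p.2 = q.1
    · rw [if_pos h3]
      refine hc.trans ?_
      have : (0 : ℝ) ≤ (if p.1 = q.1 then 1 else 0) + (if p.1 = q.2 then 1 else 0) +
        (if p.2 = q.2 then 1 else 0) := by positivity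
      nlinarith
    by_cases h4 : p.2 = q.2
    · rw [if_pos h4]
      refine hc.trans ?_
      have : (0 : ℝ) ≤ (if p.1 = q.1 then 1 else 0) + (if p.1 = q.2 then 1 else 0) +
        (if p.2 = q.1 then 1 else 0) := by positivity
      nlinarith
    rw [w_cov_zero ν h1 h2 h3 h4 _ _ (hm _ _) (hm _ _) (hL _ _) (hL _ _)]
    simp [h1, h2, h3, h4]
  calc ∑ p : ι × ι, ∑ q : ι × ι, cov[fun x : ι → ℂ => h p.1 p.2 (x p.1, x p.2),
      fun x : ι → ℂ => h q.1 q.2 (x q.1, x q.2); Measure.pi ν]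
      ≤ ∑ p : ι × ι, ∑ q : ι × ι, B * ((if p.1 = q.1 then 1 else 0) +
        (if p.1 = q.2 then 1 else 0) +
        (if p.2 = q.1 then 1 else 0) + (if p.2 = q.2 then 1 else 0)) :=
        Finset.sum_le_sum fun p _ => Finset.sum_le_sum fun q _ => e2 p q
    _ = 4 * (Fintype.card ι : ℝ) ^ 3 * B := by
        have s1 : ∀ a : ι, ∑ q : ι × ι, (if a = q.1 then (1 : ℝ) else 0) = Fintype.card ι := by
          intro a
          rw [Fintype.sum_prod_type, Finset.sum_comm]
          simp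
        have s2 : ∀ a : ι, ∑ q : ι × ι, (if a = q.2 then (1 : ℝ) else 0) = Fintype.card ι := by
          intro a
          rw [Fintype.sum_prod_type]
          simp
        simp only [← Finset.mul_sum, Finset.sum_add_distrib]
        simp only [s1, s2, Finset.sum_const, Finset.card_univ, Fintype.card_prod, nsmul_eq_mul]
        push_cast
        ring

/-- Chebyshev for pair sums -/
theorem w_pair_cheb [DecidableEq ι] (h : ι → ι → ℂ × ℂ → ℝ) (hm : ∀ i j, Measurable (h i j))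
    (B : ℝ) (hB0 : 0 ≤ B)
    (hL : ∀ i j, MemLp (fun x : ι → ℂ => h i j (x i, x j)) 2 (Measure.pi ν))
    (hB : ∀ i j, ∫ x : ι → ℂ, (h i j (x i, x j)) ^ 2 ∂(Measure.pi ν) ≤ B) (t : ℝ) (ht : 0 < t) :
    Measure.pi ν {x | t ≤ |∑ i, ∑ j, h i j (x i, x j) -
      ∑ i, ∑ j, ∫ x : ι → ℂ, h i j (x i, x j) ∂(Measure.pi ν)|} ≤
      ENNReal.ofReal (4 * (Fintype.card ι : ℝ) ^ 3 * B / t ^ 2) := by
  have hX : MemLp (fun x : ι → ℂ => ∑ i, ∑ j, h i j (x i, x j)) 2 (Measure.pi ν) :=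
    memLp_finsetSum _ fun i _ => memLp_finsetSum _ fun j _ => hL i j
  have hmean : ∫ x : ι → ℂ, (∑ i, ∑ j, h i j (x i, x j)) ∂(Measure.pi ν) =
      ∑ i, ∑ j, ∫ x : ι → ℂ, h i j (x i, x j) ∂(Measure.pi ν) := by
    rw [integral_finsetSum _ fun i _ => integrable_finsetSum _ fun j _ =>
      (hL i j).integrable (by norm_num)]
    exact Finset.sum_congr rfl fun i _ => integral_finsetSum _ fun j _ =>
      (hL i j).integrable (by norm_num)
  have h' := meas_ge_le_variance_div_sq hX ht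
  rw [hmean] at h'
  refine h'.trans (ENNReal.ofReal_le_ofReal ?_)
  have := w_pair_var ν h hm B hB0 hL hB
  gcongr

theorem w_pair_int [DecidableEq ι] {i j : ι} (hij : i ≠ j) (h : ℂ × ℂ → ℝ) (hm : Measurable h) :
    ∫ x : ι → ℂ, h (x i, x j) ∂(Measure.pi ν) = ∫ p, h p ∂((ν i).prod (ν j)) := by
  have h1 := w_pair_law ν hij
  rw [← h1.map_eq, integral_map h1.measurable.aemeasurable hm.aestronglyMeasurable]

theorem w_pair_memLp [DecidableEq ι] {i j : ι} (hij : i ≠ j) (h : ℂ × ℂ → ℝ)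
    (hm : MemLp h 2 ((ν i).prod (ν j))) :
    MemLp (fun x : ι → ℂ => h (x i, x j)) 2 (Measure.pi ν) :=
  hm.comp_measurePreserving (w_pair_law ν hij)

theorem w_diag_int (i : ι) (h : ℂ × ℂ → ℝ) (hm : Measurable h) :
    ∫ x : ι → ℂ, h (x i, x i) ∂(Measure.pi ν) = ∫ z, h (z, z) ∂(ν i) := by
  have h2 : Measurable fun z : ℂ => h (z, z) := hm.comp (by fun_prop)
  exact integral_comp_eval (μ := ν) (f := fun z => h (z, z)) h2.aestronglyMeasurable

theorem w_diag_memLp (i : ι) (h : ℂ × ℂ → ℝ)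
    (hm : MemLp (fun z => h (z, z)) 2 (ν i)) :
    MemLp (fun x : ι → ℂ => h (x i, x i)) 2 (Measure.pi ν) :=
  hm.comp_measurePreserving (w_one_law ν i)

end Pool.Agent.H836_PV
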