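import Pool.Agent.H836_PV.W9

/-!
# Module W, part 10: uniform densities, mixtures, bounds of the form `Bf`
-/

open MeasureTheory Filter Topology Set Metric ProbabilityTheory

namespace Pool.Agent.H836_PV

/-- uniform density -/
noncomputable def unifW (S : Set ℂ) : ℂ → ℝ := S.indicator fun _ => (volume.real S)⁻¹

theorem unif_pd {S : Set ℂ} (hS : MeasurableSet S) (h0 : 0 < volume.real S) :
    Pd S (volume.real S)⁻¹ (unifW S) := by
  refine ⟨measurable_const.indicator hS, fun x => Set.indicator_nonneg (fun _ _ => by positivity) _,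
    fun x => ?_, fun x hx => Set.indicator_of_notMem hx _, ?_⟩
  · by_cases hx : x ∈ S
    · rw [unifW, Set.indicator_of_mem hx]
    · rw [unifW, Set.indicator_of_notMem hx]; positivity
  · rw [unifW, integral_indicator hS, setIntegral_const, smul_eq_mul, mul_inv_cancel₀ h0.ne']

theorem unif_ent {S : Set ℂ} (hS : MeasurableSet S) (h0 : 0 < volume.real S) :
    Ent (unifW S) = - Real.log (volume.real S) := by
  have h1 : (fun z => unifW S z * Real.log (unifW S z)) =
      S.indicator fun _ => (volume.real S)⁻¹ * Real.log (volume.real S)⁻¹ := by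
    funext z
    by_cases hz : z ∈ S
    · simp [unifW, hz]
    · simp [unifW, hz]
  rw [Ent, h1, integral_indicator hS, setIntegral_const, smul_eq_mul, ← mul_assoc,
    mul_inv_cancel₀ h0.ne', one_mul, Real.log_inv]

theorem pd_vol_pos {S : Set ℂ} (hS : MeasurableSet S) (hSf : volume S ≠ ⊤) {L : ℝ} {q : ℂ → ℝ}
    (h : Pd S L q) : 0 < volume.real S := by
  by_contra hn
  have h0 : volume.real S = 0 := le_antisymm (not_lt.1 hn) measureReal_nonneg
  have h1 : volume S = 0 := by
    rcases (ENNReal.toReal_eq_zero_iff _).1 h0 with h | h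
    · exact h
    · exact absurd h hSf
  have h2 : ∫ x, q x = 0 := by
    rw [← integral_indicator_eq_self_of_zero hS h.zero]
    rw [integral_indicator hS, Measure.restrict_eq_zero.2 h1]
    simp
  rw [h.one] at h2
  exact one_ne_zero h2
where
  integral_indicator_eq_self_of_zero {S : Set ℂ} (_ : MeasurableSet S) {q : ℂ → ℝ}
    (hz : ∀ x, x ∉ S → q x = 0) : ∫ x, S.indicator q x = ∫ x, q x := by
    congr 1; funext x
    by_cases hx : x ∈ S
    · rw [Set.indicator_of_mem hx]
    · rw [Set.indicator_of_notMem hx, hz x hx]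

/-- mixture with the uniform density -/
noncomputable def mixW (s : ℝ) (f h : ℂ → ℝ) : ℂ → ℝ := fun z => (1 - s) * f z + s * h z

theorem mix_pd {S : Set ℂ} {L : ℝ} {f h : ℂ → ℝ} (hf : Pd S L f) (hh : Pd S L h) {s : ℝ}
    (hs : s ∈ Icc (0 : ℝ) 1) : Pd S L (mixW s f h) := by
  have s0 : 0 ≤ s := hs.1
  have s1 : 0 ≤ 1 - s := sub_nonneg.2 hs.2
  have mf := hf.meas
  have mh := hh.meas
  refine ⟨by unfold mixW; fun_prop, fun x => add_nonneg (mul_nonneg s1 (hf.nonneg x))
    (mul_nonneg s0 (hh.nonneg x)), fun x => ?_, fun x hx => ?_, ?_⟩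
  · have h1 := mul_le_mul_of_nonneg_left (hf.le x) s1
    have h2 := mul_le_mul_of_nonneg_left (hh.le x) s0
    simp only [mixW]; linarith
  · simp only [mixW, hf.zero x hx, hh.zero x hx]; ring
  · simp only [mixW]
    rw [integral_add (hf.integrable.const_mul _) (hh.integrable.const_mul _), integral_const_mul,
      integral_const_mul, hf.one, hh.one]
    ring

theorem ent_unif_le {S : Set ℂ} (hS : MeasurableSet S) (hSf : volume S ≠ ⊤) {L : ℝ} {f : ℂ → ℝ}
    (hf : Pd S L f) : Ent (unifW S) ≤ Ent f := by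
  have hV := pd_vol_pos hS hSf hf
  have hu := unif_pd hS hV
  set m := (volume.real S)⁻¹ with hm
  have hm0 : 0 < m := by positivity
  have key : ∀ z, (Real.log m + 1) * (f z - unifW S z) ≤
      f z * Real.log (f z) - unifW S z * Real.log (unifW S z) := by
    intro z
    by_cases hz : z ∈ S
    · have e : unifW S z = m := by rw [unifW, Set.indicator_of_mem hz]
      rw [e]
      rcases eq_or_lt_of_le (hf.nonneg z) with h0 | h0
      · rw [← h0]; simp; nlinarith
      · have h1 : Real.log (m / f z) ≤ m / f z - 1 := Real.log_le_sub_one_of_pos (by positivity)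
        rw [Real.log_div hm0.ne' h0.ne'] at h1
        have h2 : f z * (Real.log m - Real.log (f z)) ≤ f z * (m / f z - 1) := by gcongr
        have h3 : f z * (m / f z - 1) = m - f z := by field_simp
        rw [h3] at h2
        linarith
    · rw [hf.zero z hz, hu.zero z hz]; simp
  have i1 := ent_integrable hS hSf hf
  have i2 := ent_integrable hS hSf hu
  have h1 : ∫ z, (Real.log m + 1) * (f z - unifW S z) ≤
      ∫ z, (f z * Real.log (f z) - unifW S z * Real.log (unifW S z)) :=
    integral_mono ((hf.integrable.sub hu.integrable).const_mul _) (i1.sub i2) key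
  rw [integral_const_mul, integral_sub hf.integrable hu.integrable, hf.one, hu.one,
    integral_sub i1 i2] at h1
  simp only [Ent]
  linarith

theorem ent_mix_le {S : Set ℂ} (hS : MeasurableSet S) (hSf : volume S ≠ ⊤) {L : ℝ} {f : ℂ → ℝ}
    (hf : Pd S L f) (hu : Pd S L (unifW S)) {s : ℝ} (hs : s ∈ Icc (0 : ℝ) 1) :
    Ent (mixW s f (unifW S)) ≤ Ent f := by
  have s0 : 0 ≤ s := hs.1
  have s1 : 0 ≤ 1 - s := sub_nonneg.2 hs.2
  have i1 := ent_integrable hS hSf hf
  have i2 := ent_integrable hS hSf hu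
  have i3 := ent_integrable hS hSf (mix_pd hf hu hs)
  have key : ∀ z, mixW s f (unifW S) z * Real.log (mixW s f (unifW S) z) ≤
      (1 - s) * (f z * Real.log (f z)) + s * (unifW S z * Real.log (unifW S z)) := by
    intro z
    have := Real.convexOn_mul_log.2 (hf.nonneg z) (hu.nonneg z) s1 s0 (by ring)
    simpa [mixW] using this
  have h1 : Ent (mixW s f (unifW S)) ≤ ∫ z, ((1 - s) * (f z * Real.log (f z)) +
      s * (unifW S z * Real.log (unifW S z))) :=
    integral_mono i3 ((i1.const_mul _).add (i2.const_mul _)) key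
  rw [integral_add (i1.const_mul _) (i2.const_mul _), integral_const_mul, integral_const_mul] at h1
  have h2 := ent_unif_le hS hSf hf
  simp only [Ent] at *
  nlinarith

section
variable {Λ : Set ℂ} {g : ℂ → ℂ → ℝ} {D C₃ cL CB : ℝ}

/-- energy of cluster and the rest -/
theorem Bf_far (hK : Ker Λ g D C₃ cL CB) {S Q : Set ℂ} {d : ℝ} (hd : 0 < d)
    (hdist : ∀ x ∈ S, ∀ y ∈ Q, d ≤ ‖x - y‖) {L : ℝ} {f h : ℂ → ℝ}
    (hf : Pd S L f) (hh : Pd Q L h) (hSΛ : S ⊆ Λ) (hQΛ : Q ⊆ Λ) : Bf Λ g f h ≤ D / d := by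
  have hD := hK.one_le
  have h1 : Integrable fun p : ℂ × ℂ => D / d * (f p.1 * h p.2) :=
    (hf.integrable.mul_prod hh.integrable).const_mul _
  have h2 : Bf Λ g f h ≤ ∫ p : ℂ × ℂ, D / d * (f p.1 * h p.2) := by
    refine integral_mono_ae (kk_int hK hf.meas hh.meas hf.abs_le hh.abs_le) h1 ?_
    filter_upwards [diag_null] with p hp
    by_cases hp1 : p.1 ∈ S
    · by_cases hp2 : p.2 ∈ Q
      · have h3 := (kk_le hK hp).1
        rw [Fdom_of_mem hK (p := p) ⟨hSΛ hp1, hQΛ hp2⟩] at h3
        have h4 := hdist _ hp1 _ hp2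
        have h5 : D * ‖p.1 - p.2‖⁻¹ ≤ D / d := by
          rw [div_eq_mul_inv]
          gcongr
        exact mul_le_mul_of_nonneg_right (h3.trans h5) (mul_nonneg (hf.nonneg _) (hh.nonneg _))
      · simp only [hh.zero _ hp2, mul_zero, le_refl]
    · simp only [hf.zero _ hp1, zero_mul, mul_zero, le_refl]
  refine h2.trans (le_of_eq ?_)
  rw [integral_const_mul, Measure.volume_eq_prod, integral_prod_mul, hf.one, hh.one]
  ring

/-- self energy of the cluster -/
theorem Bf_self (hK : Ker Λ g D C₃ cL CB) {c₀ : ℂ} {r' : ℝ} (hr : 0 < r')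
    (hSΛ : closedBall c₀ r' ⊆ Λ) :
    Bf Λ g (unifW (closedBall c₀ r')) (unifW (closedBall c₀ r')) ≤ 6 * D / r' := by
  have hD := hK.one_le
  have hvol : volume.real (closedBall c₀ r') = Real.pi * r' ^ 2 := by
    simp [Measure.real, Complex.volume_closedBall, hr.le]; ring
  have hV : 0 < volume.real (closedBall c₀ r') := by rw [hvol]; positivity
  have hu := unif_pd isClosed_closedBall.measurableSet hV
  set u := unifW (closedBall c₀ r') with hu'
  set m := (volume.real (closedBall c₀ r'))⁻¹ with hm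
  have hm0 : 0 < m := by positivity
  have h1 : Integrable fun p : ℂ × ℂ => D * m * (u p.2 * Jf (3 * r') (p.1 - p.2)) :=
    (hu.integrable.convolution_integrand (ContinuousLinearMap.mul ℝ ℝ)
      (Jf_integrable (3 * r'))).const_mul _
  have h2 : Bf Λ g u u ≤ ∫ p : ℂ × ℂ, D * m * (u p.2 * Jf (3 * r') (p.1 - p.2)) := by
    refine integral_mono_ae (kk_int hK hu.meas hu.meas hu.abs_le hu.abs_le) h1 ?_
    filter_upwards [diag_null] with p hp
    have hnn : 0 ≤ D * m * (u p.2 * Jf (3 * r') (p.1 - p.2)) := by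
      have := hu.nonneg p.2
      have := Jf_nonneg (3 * r') (p.1 - p.2)
      positivity
    by_cases hp1 : p.1 ∈ closedBall c₀ r'
    · by_cases hp2 : p.2 ∈ closedBall c₀ r'
      · have h3 := (kk_le hK hp).1
        rw [Fdom_of_mem hK (p := p) ⟨hSΛ hp1, hSΛ hp2⟩] at h3
        have h4 : ‖p.1 - p.2‖ < 3 * r' := by
          have a := dist_triangle_right p.1 p.2 c₀
          have b : dist p.1 c₀ ≤ r' := hp1
          have c : dist p.2 c₀ ≤ r' := hp2
          rw [← dist_eq_norm]; linarith
        have h5 : Jf (3 * r') (p.1 - p.2) = ‖p.1 - p.2‖⁻¹ := by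
          rw [Jf, Set.indicator_of_mem (by simpa using h4)]
        rw [h5]
        have h6 := hu.le p.1
        have h7 := hu.nonneg p.1
        have h8 := hu.nonneg p.2
        have h9 := kk_nonneg hK hp
        calc kk Λ g p * (u p.1 * u p.2) ≤ (D * ‖p.1 - p.2‖⁻¹) * (m * u p.2) := by gcongr
          _ = _ := by ring
      · simp only [hu.zero _ hp2, mul_zero, zero_mul, le_refl]
    · simp only [hu.zero _ hp1, zero_mul, mul_zero]; exact hnn
  refine h2.trans (le_of_eq ?_)
  have h1' : Integrable (fun p : ℂ × ℂ => u p.2 * Jf (3 * r') (p.1 - p.2))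
      ((volume : Measure ℂ).prod volume) :=
    hu.integrable.convolution_integrand (ContinuousLinearMap.mul ℝ ℝ) (Jf_integrable (3 * r'))
  rw [integral_const_mul, Measure.volume_eq_prod, integral_prod_symm _ h1']
  have h3 : ∀ y : ℂ, ∫ x : ℂ, u y * Jf (3 * r') (x - y) = u y * (2 * Real.pi * (3 * r')) := by
    intro y
    rw [integral_const_mul, integral_sub_right_eq_self (fun x => Jf (3 * r') x) y,
      Jf_integral _ (by positivity)]
  simp only [h3]
  rw [integral_mul_const, hu.one, hm, hvol]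
  field_simp
  norm_num

end

end Pool.Agent.H836_PV
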