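import Mathlib

/-!
# Module W, part 2: product densities; volume of typical configurations
-/

open MeasureTheory Filter Topology Set Metric ProbabilityTheory

namespace Pool.Agent.H836_PV

/-- the measure with density `q` -/
noncomputable def dm (q : ℂ → ℝ) : Measure ℂ := volume.withDensity fun z => ENNReal.ofReal (q z)

theorem dm_prob {q : ℂ → ℝ} (h0 : ∀ x, 0 ≤ q x) (hi : Integrable q) (h1 : ∫ x, q x = 1) :
    IsProbabilityMeasure (dm q) := by
  refine ⟨?_⟩
  rw [dm, withDensity_apply _ MeasurableSet.univ, Measure.restrict_univ,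
    ← ofReal_integral_eq_lintegral_ofReal hi (Eventually.of_forall h0), h1]
  simp

theorem w_pi_density {ι : Type} [Fintype ι] (q : ι → ℂ → ℝ) 
    (h0 : ∀ i x, 0 ≤ q i x) (hi : ∀ i, Integrable (q i)) (h1 : ∀ i, ∫ x, q i x = 1) :
    Measure.pi (fun i => dm (q i)) =
      (volume : Measure (ι → ℂ)).withDensity (fun x => ENNReal.ofReal (∏ i, q i (x i))) := by
  have : ∀ i, IsProbabilityMeasure (dm (q i)) := fun i => dm_prob (h0 i) (hi i) (h1 i)
  refine Measure.pi_eq fun s hs => ?_
  rw [withDensity_apply _ (MeasurableSet.univ_pi hs)]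
  have e1 : ∀ i, dm (q i) (s i) = ENNReal.ofReal (∫ z, (s i).indicator (q i) z) := by
    intro i
    rw [dm, withDensity_apply _ (hs i), integral_indicator (hs i),
      ofReal_integral_eq_lintegral_ofReal (hi i).integrableOn (Eventually.of_forall (h0 i))]
  simp only [e1]
  rw [← ENNReal.ofReal_prod_of_nonneg (fun i _ => integral_nonneg fun z =>
    Set.indicator_nonneg (fun z _ => h0 i z) z)]
  rw [← integral_fintype_prod_volume_eq_prod (f := fun i z => (s i).indicator (q i) z)]
  have e2 : (fun x : ι → ℂ => ∏ i, (s i).indicator (q i) (x i)) =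
      (Set.pi univ s).indicator (fun x => ∏ i, q i (x i)) := by
    funext x
    by_cases hx : x ∈ Set.pi univ s
    · rw [Set.indicator_of_mem hx]
      exact Finset.prod_congr rfl fun i _ => Set.indicator_of_mem (hx i (mem_univ i)) _
    · rw [Set.indicator_of_notMem hx]
      have : ∃ i, x i ∉ s i := by
        by_contra h
        push Not at h
        exact hx fun i _ => h i
      obtain ⟨i, hi'⟩ := this
      exact Finset.prod_eq_zero (Finset.mem_univ i) (Set.indicator_of_notMem hi' _)
  rw [e2, integral_indicator (MeasurableSet.univ_pi hs)]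
  symm
  refine ofReal_integral_eq_lintegral_ofReal ?_ (Eventually.of_forall fun x =>
    Finset.prod_nonneg fun i _ => h0 i _)
  exact (Integrable.fintype_prod (f := fun i z => q i z) hi).integrableOn

/-- volume of a set which is typical for the product law -/
theorem w_vol_lower {ι : Type} [Fintype ι] (q : ι → ℂ → ℝ)
    (h0 : ∀ i x, 0 ≤ q i x) (hi : ∀ i, Integrable (q i)) (h1 : ∀ i, ∫ x, q i x = 1)
    (A : Set (ι → ℂ)) (hA : MeasurableSet A) (T : ℝ) (hT : ∀ x ∈ A, ∏ i, q i (x i) ≤ Real.exp T)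
    (hP : ENNReal.ofReal (1 / 2) ≤ Measure.pi (fun i => dm (q i)) A) :
    ENNReal.ofReal (Real.exp (-T) / 2) ≤ volume A := by
  rw [w_pi_density q h0 hi h1, withDensity_apply _ hA] at hP
  have h2 : ∫⁻ x in A, ENNReal.ofReal (∏ i, q i (x i)) ≤
      ∫⁻ _ in A, ENNReal.ofReal (Real.exp T) :=
    setLIntegral_mono (by fun_prop) fun x hx => ENNReal.ofReal_le_ofReal (hT x hx)
  rw [setLIntegral_const] at h2
  have h3 := hP.trans h2
  have h4 : ENNReal.ofReal (Real.exp (-T) / 2) =
      ENNReal.ofReal (Real.exp (-T)) * ENNReal.ofReal (1 / 2) := by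
    rw [← ENNReal.ofReal_mul (Real.exp_pos _).le]; ring_nf
  rw [h4]
  calc ENNReal.ofReal (Real.exp (-T)) * ENNReal.ofReal (1 / 2)
      ≤ ENNReal.ofReal (Real.exp (-T)) * (ENNReal.ofReal (Real.exp T) * volume A) := by gcongr
    _ = volume A := by
        rw [← mul_assoc, ← ENNReal.ofReal_mul (Real.exp_pos _).le, ← Real.exp_add]
        simp

/-- Chebyshev for sums of one body functions -/
theorem w_one_cheb {ι : Type} [Fintype ι] (ν : ι → Measure ℂ) [∀ i, IsProbabilityMeasure (ν i)]
    (f : ι → ℂ → ℝ) (hf : ∀ i, MemLp (f i) 2 (ν i)) (B : ℝ)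
    (hB : ∀ i, ∫ z, f i z ^ 2 ∂(ν i) ≤ B) (t : ℝ) (ht : 0 < t) :
    Measure.pi ν {x | t ≤ |∑ i, f i (x i) - ∑ i, ∫ z, f i z ∂(ν i)|} ≤
      ENNReal.ofReal (Fintype.card ι * B / t ^ 2) := by
  have hm : ∀ i, MemLp (fun x : ι → ℂ => f i (x i)) 2 (Measure.pi ν) := fun i =>
    (hf i).comp_measurePreserving (measurePreserving_eval ν i)
  have hX : MemLp (∑ i, fun x : ι → ℂ => f i (x i)) 2 (Measure.pi ν) :=
    memLp_finsetSum' _ fun i _ => hm i
  have hv : Var[∑ i, fun x : ι → ℂ => f i (x i); Measure.pi ν] ≤ Fintype.card ι * B := by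
    rw [variance_sum_pi hf]
    calc ∑ i, Var[f i; ν i] ≤ ∑ _i : ι, B := Finset.sum_le_sum fun i _ =>
          (variance_le_expectation_sq (hf i).aestronglyMeasurable).trans (hB i)
      _ = Fintype.card ι * B := by simp
  have hmean : ∫ x, (∑ i, fun x : ι → ℂ => f i (x i)) x ∂(Measure.pi ν) =
      ∑ i, ∫ z, f i z ∂(ν i) := by
    simp only [Finset.sum_apply]
    rw [integral_finsetSum _ fun i _ => (hm i).integrable (by norm_num)]
    exact Finset.sum_congr rfl fun i _ => integral_comp_eval (hf i).aestronglyMeasurable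
  have h := meas_ge_le_variance_div_sq hX ht
  rw [hmean] at h
  simp only [Finset.sum_apply] at h
  refine h.trans (ENNReal.ofReal_le_ofReal ?_)
  gcongr

end Pool.Agent.H836_PV
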