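import Pool.Agent.H836_PV.Stmts
import Pool.Agent.H836_PV.W1
import Pool.Agent.H836_PV.W2

/-!
# Module W, part 3: integrability of the kernel
-/

open MeasureTheory Filter Topology Set Metric ProbabilityTheory

namespace Pool.Agent.H836_PV

/-- the kernel, set to `0` outside `Λ × Λ` -/
noncomputable def kk (Λ : Set ℂ) (g : ℂ → ℂ → ℝ) : ℂ × ℂ → ℝ :=
  (Λ ×ˢ Λ).indicator (fun p => K g p.1 p.2)

theorem kk_of_mem {Λ : Set ℂ} {g : ℂ → ℂ → ℝ} {x y : ℂ} (hx : x ∈ Λ) (hy : y ∈ Λ) :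
    kk Λ g (x, y) = K g x y := Set.indicator_of_mem (show (x, y) ∈ Λ ×ˢ Λ from ⟨hx, hy⟩) _

theorem kk_measurable {Λ : Set ℂ} {g : ℂ → ℂ → ℝ} {D C₃ cL CB : ℝ} (hK : Ker Λ g D C₃ cL CB) :
    Measurable (kk Λ g) := by
  classical
  have hm : MeasurableSet (Λ ×ˢ Λ) := (hK.isOpen.prod hK.isOpen).measurableSet
  have h1 : Measurable ((Λ ×ˢ Λ).piecewise (fun p : ℂ × ℂ => g p.1 p.2) fun _ => 0) :=
    hK.smooth.continuousOn.measurable_piecewise continuousOn_const hm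
  have h2 : Measurable ((Λ ×ˢ Λ).indicator fun p : ℂ × ℂ => Real.log ‖p.1 - p.2‖) :=
    (Real.measurable_log.comp (by fun_prop)).indicator hm
  have h3 : kk Λ g = fun p => (Λ ×ˢ Λ).piecewise (fun p : ℂ × ℂ => g p.1 p.2) (fun _ => 0) p -
      (Λ ×ˢ Λ).indicator (fun p : ℂ × ℂ => Real.log ‖p.1 - p.2‖) p := by
    funext p
    by_cases hp : p ∈ Λ ×ˢ Λ
    · simp [kk, hp, K]
    · simp [kk, hp]
  rw [h3]
  exact h1.sub h2

theorem kk_symm {Λ : Set ℂ} {g : ℂ → ℂ → ℝ} {D C₃ cL CB : ℝ} (hK : Ker Λ g D C₃ cL CB) (x y : ℂ) :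
    kk Λ g (x, y) = kk Λ g (y, x) := by
  by_cases hx : x ∈ Λ
  · by_cases hy : y ∈ Λ
    · rw [kk_of_mem hx hy, kk_of_mem hy hx, K, K, hK.symm x hx y hy, norm_sub_rev]
    · simp [kk, hy]
  · simp [kk, hx]

/-- the function `|z|⁻¹` on a disc -/
noncomputable def Jf (R : ℝ) : ℂ → ℝ := (ball (0 : ℂ) R).indicator fun z => ‖z‖⁻¹

theorem Jf_nonneg (R : ℝ) (z : ℂ) : 0 ≤ Jf R z :=
  Set.indicator_nonneg (fun _ _ => by positivity) _

theorem Jf_eq (R : ℝ) : Jf R = fun z => (Iio R).indicator (fun y : ℝ => y⁻¹) ‖z‖ := by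
  funext z
  by_cases hz : ‖z‖ < R
  · rw [Jf, Set.indicator_of_mem (by simpa using hz), Set.indicator_of_mem (by simpa using hz)]
  · rw [Jf, Set.indicator_of_notMem (by simpa using hz), Set.indicator_of_notMem (by simpa using hz)]

theorem Jf_integrable (R : ℝ) : Integrable (Jf R) := by
  rw [Jf_eq, integrable_fun_norm_addHaar (μ := volume)]
  simp only [Complex.finrank_real_complex, Nat.add_one_sub_one, pow_one, smul_eq_mul]
  have h : EqOn ((Ioo (0 : ℝ) R).indicator fun _ => (1 : ℝ))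
      (fun y => y * (Iio R).indicator (fun y : ℝ => y⁻¹) y) (Ioi 0) := by
    intro y hy
    have hy0 : 0 < y := hy
    by_cases h : y < R
    · simp [h, hy0, hy0.ne']
    · simp [h, hy0]
  refine IntegrableOn.congr_fun ?_ h measurableSet_Ioi
  refine Integrable.integrableOn ?_
  rw [integrable_indicator_iff measurableSet_Ioo]
  simp

theorem Jf_integral (R : ℝ) (hR : 0 ≤ R) : ∫ z, Jf R z = 2 * Real.pi * R := by
  rw [Jf_eq, integral_fun_norm_addHaar volume (fun y => (Iio R).indicator (fun y : ℝ => y⁻¹) y)]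
  simp only [Complex.finrank_real_complex, Nat.add_one_sub_one, pow_one, smul_eq_mul]
  have h : EqOn (fun y => y * (Iio R).indicator (fun y : ℝ => y⁻¹) y)
      ((Ioo (0 : ℝ) R).indicator fun _ => (1 : ℝ)) (Ioi 0) := by
    intro y hy
    have hy0 : 0 < y := hy
    by_cases h : y < R
    · simp [h, hy0, hy0.ne']
    · simp [h, hy0]
  rw [setIntegral_congr_fun measurableSet_Ioi h, setIntegral_indicator measurableSet_Ioo]
  have h2 : Ioi (0 : ℝ) ∩ Ioo 0 R = Ioo 0 R := by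
    ext y; simp only [mem_inter_iff, mem_Ioi, mem_Ioo]; tauto
  rw [h2]
  simp [Measure.real, Complex.volume_ball, hR]
  ring

/-- the dominating function -/
noncomputable def Fdom (Λ : Set ℂ) (D : ℝ) : ℂ × ℂ → ℝ := fun p =>
  Λ.indicator (fun _ => (1 : ℝ)) p.2 * Jf (2 * D) (p.1 - p.2)

theorem Fdom_nonneg (Λ : Set ℂ) (D : ℝ) (p : ℂ × ℂ) : 0 ≤ Fdom Λ D p :=
  mul_nonneg (Set.indicator_nonneg (fun _ _ => zero_le_one) _) (Jf_nonneg _ _)

theorem ker_vol_lt_top {Λ : Set ℂ} {g : ℂ → ℂ → ℝ} {D C₃ cL CB : ℝ} (hK : Ker Λ g D C₃ cL CB) :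
    volume Λ < ⊤ :=
  lt_of_le_of_lt (measure_mono fun x hx => by
    simpa using hK.norm_le x hx) (measure_closedBall_lt_top (x := (0 : ℂ)) (r := D))

theorem Fdom_integrable {Λ : Set ℂ} {g : ℂ → ℂ → ℝ} {D C₃ cL CB : ℝ} (hK : Ker Λ g D C₃ cL CB) :
    Integrable (Fdom Λ D) := by
  have h1 : Integrable (Λ.indicator fun _ => (1 : ℝ)) := by
    rw [integrable_indicator_iff hK.isOpen.measurableSet]
    exact integrableOn_const (ker_vol_lt_top hK).ne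
  exact h1.convolution_integrand (ContinuousLinearMap.mul ℝ ℝ) (Jf_integrable (2 * D))

theorem diag_null : ∀ᵐ p : ℂ × ℂ, p.1 ≠ p.2 := by
  have h : volume {p : ℂ × ℂ | p.1 = p.2} = 0 := by
    rw [Measure.volume_eq_prod]
    rw [Measure.measure_prod_null (measurableSet_eq_fun measurable_fst measurable_snd)]
    refine Eventually.of_forall fun x => ?_
    have : Prod.mk x ⁻¹' {p : ℂ × ℂ | p.1 = p.2} = {x} := by
      ext y; simp [eq_comm]
    simp only [this]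
    simp
  rw [ae_iff]
  simpa using h

theorem kk_nonneg {Λ : Set ℂ} {g : ℂ → ℂ → ℝ} {D C₃ cL CB : ℝ} (hK : Ker Λ g D C₃ cL CB)
    {p : ℂ × ℂ} (hp : p.1 ≠ p.2) : 0 ≤ kk Λ g p := by
  by_cases h : p ∈ Λ ×ˢ Λ
  · rw [kk, Set.indicator_of_mem h, K]
    linarith [hK.log_le p.1 h.1 p.2 h.2 hp]
  · rw [kk, Set.indicator_of_notMem h]

theorem kk_le_log {Λ : Set ℂ} {g : ℂ → ℂ → ℝ} {D C₃ cL CB : ℝ} (hK : Ker Λ g D C₃ cL CB)
    {p : ℂ × ℂ} (h : p ∈ Λ ×ˢ Λ) : kk Λ g p ≤ Real.log D - Real.log ‖p.1 - p.2‖ := by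
  rw [kk, Set.indicator_of_mem h, K]
  linarith [hK.le_log p.1 h.1 p.2 h.2]

theorem log_sq_le {s : ℝ} (hs : 1 ≤ s) : Real.log s ^ 2 ≤ 4 * s := by
  have h0 : 0 ≤ Real.log s := Real.log_nonneg hs
  have h1 : Real.log (√s) ≤ √s - 1 := Real.log_le_sub_one_of_pos (by positivity)
  have h2 : Real.log s = 2 * Real.log √s := by
    rw [Real.log_sqrt (by linarith)]; ring
  have h3 : Real.log s ≤ 2 * √s := by rw [h2]; linarith
  calc Real.log s ^ 2 ≤ (2 * √s) ^ 2 := by gcongr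
    _ = 4 * s := by rw [mul_pow, Real.sq_sqrt (by linarith)]; norm_num

theorem Fdom_of_mem {Λ : Set ℂ} {g : ℂ → ℂ → ℝ} {D C₃ cL CB : ℝ} (hK : Ker Λ g D C₃ cL CB)
    {p : ℂ × ℂ} (h : p ∈ Λ ×ˢ Λ) : Fdom Λ D p = ‖p.1 - p.2‖⁻¹ := by
  have h1 : ‖p.1 - p.2‖ < 2 * D := by
    have := hK.diam p.1 h.1 p.2 h.2
    linarith [hK.one_le]
  rw [Fdom, Set.indicator_of_mem h.2, Jf, Set.indicator_of_mem (by simpa using h1), one_mul]

/-- pointwise bounds of the kernel -/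
theorem kk_le {Λ : Set ℂ} {g : ℂ → ℂ → ℝ} {D C₃ cL CB : ℝ} (hK : Ker Λ g D C₃ cL CB)
    {p : ℂ × ℂ} (hp : p.1 ≠ p.2) : kk Λ g p ≤ D * Fdom Λ D p ∧ kk Λ g p ^ 2 ≤ 4 * D * Fdom Λ D p := by
  have hD := hK.one_le
  by_cases h : p ∈ Λ ×ˢ Λ
  · have h0 : 0 < ‖p.1 - p.2‖ := norm_pos_iff.2 (sub_ne_zero.2 hp)
    have h1 := kk_le_log hK h
    have h2 := kk_nonneg hK hp
    rw [Fdom_of_mem hK h]
    rw [← Real.log_div (by linarith) h0.ne'] at h1
    have h3 : 1 ≤ D / ‖p.1 - p.2‖ := by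
      rw [le_div_iff₀ h0]; simpa using hK.diam p.1 h.1 p.2 h.2
    have h4 : Real.log (D / ‖p.1 - p.2‖) ≤ D / ‖p.1 - p.2‖ - 1 :=
      Real.log_le_sub_one_of_pos (by positivity)
    constructor
    · rw [← div_eq_mul_inv]; linarith
    · calc kk Λ g p ^ 2 ≤ Real.log (D / ‖p.1 - p.2‖) ^ 2 := by gcongr
        _ ≤ 4 * (D / ‖p.1 - p.2‖) := log_sq_le h3
        _ = 4 * D * ‖p.1 - p.2‖⁻¹ := by ring
  · rw [kk, Set.indicator_of_notMem h]
    have := Fdom_nonneg Λ D p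
    constructor
    · positivity
    · simp only [ne_eq, OfNat.ofNat_ne_zero, not_false_eq_true, zero_pow]; positivity

/-- integrability of `kk · f ⊗ h` and `kk² · f ⊗ h` for bounded functions -/
theorem kk_int {Λ : Set ℂ} {g : ℂ → ℂ → ℝ} {D C₃ cL CB : ℝ} (hK : Ker Λ g D C₃ cL CB)
    {f h : ℂ → ℝ} {L : ℝ} (hf : Measurable f) (hh : Measurable h) (hfL : ∀ x, |f x| ≤ L)
    (hhL : ∀ x, |h x| ≤ L) :
    Integrable (fun p : ℂ × ℂ => kk Λ g p * (f p.1 * h p.2)) := by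
  have hm := kk_measurable hK
  have h1 := (Fdom_integrable hK).const_mul (D * (L * L))
  refine h1.mono' (by fun_prop) ?_
  filter_upwards [diag_null] with p hp
  have h2 := (kk_le hK hp).1
  have h3 := kk_nonneg hK hp
  have hL : 0 ≤ L := (abs_nonneg _).trans (hfL 0)
  rw [Real.norm_eq_abs, abs_mul, abs_mul, abs_of_nonneg h3]
  have h4 : |f p.1| * |h p.2| ≤ L * L := mul_le_mul (hfL _) (hhL _) (abs_nonneg _) hL
  calc kk Λ g p * (|f p.1| * |h p.2|) ≤ (D * Fdom Λ D p) * (L * L) :=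
        mul_le_mul h2 h4 (by positivity) (h3.trans h2)
    _ = _ := by ring

theorem kk_sq_int {Λ : Set ℂ} {g : ℂ → ℂ → ℝ} {D C₃ cL CB : ℝ} (hK : Ker Λ g D C₃ cL CB)
    {f h : ℂ → ℝ} {L : ℝ} (hf : Measurable f) (hh : Measurable h) (hfL : ∀ x, |f x| ≤ L)
    (hhL : ∀ x, |h x| ≤ L) :
    Integrable (fun p : ℂ × ℂ => kk Λ g p ^ 2 * (f p.1 * h p.2)) := by
  have hm := kk_measurable hK
  have h1 := (Fdom_integrable hK).const_mul (4 * D * (L * L))
  refine h1.mono' (by fun_prop) ?_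
  filter_upwards [diag_null] with p hp
  have h2 := (kk_le hK hp).2
  have h3 : 0 ≤ kk Λ g p ^ 2 := sq_nonneg _
  have hL : 0 ≤ L := (abs_nonneg _).trans (hfL 0)
  rw [Real.norm_eq_abs, abs_mul, abs_mul, abs_of_nonneg h3]
  have h4 : |f p.1| * |h p.2| ≤ L * L := mul_le_mul (hfL _) (hhL _) (abs_nonneg _) hL
  calc kk Λ g p ^ 2 * (|f p.1| * |h p.2|) ≤ (4 * D * Fdom Λ D p) * (L * L) :=
        mul_le_mul h2 h4 (by positivity) (h3.trans h2)
    _ = _ := by ring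

/-- the bilinear form -/
noncomputable def Bf (Λ : Set ℂ) (g : ℂ → ℂ → ℝ) (f h : ℂ → ℝ) : ℝ :=
  ∫ p : ℂ × ℂ, kk Λ g p * (f p.1 * h p.2)

theorem Bf_symm {Λ : Set ℂ} {g : ℂ → ℂ → ℝ} {D C₃ cL CB : ℝ} (hK : Ker Λ g D C₃ cL CB)
    (f h : ℂ → ℝ) : Bf Λ g f h = Bf Λ g h f := by
  rw [Bf, Bf, Measure.volume_eq_prod, ← integral_prod_swap]
  refine integral_congr_ae (Eventually.of_forall fun p => ?_)
  simp only [Prod.fst_swap, Prod.snd_swap]
  rw [show kk Λ g p.swap = kk Λ g p from kk_symm hK p.2 p.1]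
  ring

theorem Bf_bilin {Λ : Set ℂ} {g : ℂ → ℂ → ℝ} {D C₃ cL CB : ℝ} (hK : Ker Λ g D C₃ cL CB)
    {J : Type} [Fintype J] (f : J → ℂ → ℝ) {L : ℝ} (hf : ∀ a, Measurable (f a))
    (hfL : ∀ a x, |f a x| ≤ L) (x y : J → ℝ) :
    Bf Λ g (fun z => ∑ a, x a * f a z) (fun z => ∑ b, y b * f b z) =
      ∑ a, ∑ b, x a * y b * Bf Λ g (f a) (f b) := by
  have h1 : (fun p : ℂ × ℂ => kk Λ g p * ((∑ a, x a * f a p.1) * ∑ b, y b * f b p.2)) =
      fun p => ∑ a, ∑ b, x a * y b * (kk Λ g p * (f a p.1 * f b p.2)) := by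
    funext p
    rw [Finset.sum_mul_sum, Finset.mul_sum]
    refine Finset.sum_congr rfl fun a _ => ?_
    rw [Finset.mul_sum]
    exact Finset.sum_congr rfl fun b _ => by ring
  have h2 : ∀ a b, Integrable fun p : ℂ × ℂ => x a * y b * (kk Λ g p * (f a p.1 * f b p.2)) :=
    fun a b => (kk_int hK (hf a) (hf b) (hfL a) (hfL b)).const_mul _
  rw [Bf, h1, integral_finsetSum _ fun a _ => integrable_finsetSum _ fun b _ => h2 a b]
  refine Finset.sum_congr rfl fun a _ => ?_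
  rw [integral_finsetSum _ fun b _ => h2 a b]
  refine Finset.sum_congr rfl fun b _ => ?_
  rw [integral_const_mul, Bf]

theorem Bf_nonneg {Λ : Set ℂ} {g : ℂ → ℂ → ℝ} {D C₃ cL CB : ℝ} (hK : Ker Λ g D C₃ cL CB)
    {f h : ℂ → ℝ} (hf : ∀ x, 0 ≤ f x) (hh : ∀ x, 0 ≤ h x) : 0 ≤ Bf Λ g f h := by
  refine integral_nonneg_of_ae ?_
  filter_upwards [diag_null] with p hp
  exact mul_nonneg (kk_nonneg hK hp) (mul_nonneg (hf _) (hh _))

theorem en_eq_Bf {Λ : Set ℂ} {g : ℂ → ℂ → ℝ} {D C₃ cL CB : ℝ} (hK : Ker Λ g D C₃ cL CB)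
    {f h : ℂ → ℝ} {L : ℝ} (hf : Measurable f) (hh : Measurable h) (hfL : ∀ x, |f x| ≤ L)
    (hhL : ∀ x, |h x| ≤ L) :
    en Λ (K g) f h = 1 / 2 * Bf Λ g (fun z => f z - h z) (fun z => f z - h z) := by
  have hL : ∀ x, |f x - h x| ≤ 2 * L := fun x => by
    have := abs_sub (f x) (h x)
    linarith [hfL x, hhL x]
  have hi := kk_int hK (hf.sub hh) (hf.sub hh) hL hL
  have hi' : Integrable (fun p : ℂ × ℂ => kk Λ g p * ((f p.1 - h p.1) * (f p.2 - h p.2)))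
      ((volume : Measure ℂ).prod volume) := hi
  rw [en, Bf, Measure.volume_eq_prod, integral_prod _ hi']
  congr 1
  rw [← integral_indicator hK.isOpen.measurableSet]
  refine integral_congr_ae (Eventually.of_forall fun x => ?_)
  by_cases hx : x ∈ Λ
  · simp only [Set.indicator_of_mem hx]
    rw [← integral_indicator hK.isOpen.measurableSet]
    refine integral_congr_ae (Eventually.of_forall fun y => ?_)
    by_cases hy : y ∈ Λ
    · simp only [Set.indicator_of_mem hy]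
      rw [kk_of_mem hx hy]; ring
    · simp [hy, kk]
  · simp [hx, kk]

end Pool.Agent.H836_PV
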