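import Pool.Agent.H836_PV.W3

/-!
# Module W, part 4: densities
-/

open MeasureTheory Filter Topology Set Metric ProbabilityTheory

namespace Pool.Agent.H836_PV

/-- bounded probability density carried by `S` -/
structure Pd (S : Set ℂ) (L : ℝ) (q : ℂ → ℝ) : Prop where
  meas : Measurable q
  nonneg : ∀ x, 0 ≤ q x
  le : ∀ x, q x ≤ L
  zero : ∀ x, x ∉ S → q x = 0
  one : ∫ x, q x = 1

namespace Pd

variable {S : Set ℂ} {L : ℝ} {q : ℂ → ℝ}

theorem integrable (h : Pd S L q) : Integrable q := by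
  by_contra hn
  have := h.one
  rw [integral_undef hn] at this
  exact zero_ne_one this

theorem prob (h : Pd S L q) : IsProbabilityMeasure (dm q) := dm_prob h.nonneg h.integrable h.one

theorem abs_le (h : Pd S L q) (x : ℂ) : |q x| ≤ L := by rw [abs_of_nonneg (h.nonneg x)]; exact h.le x

theorem L_nonneg (h : Pd S L q) : 0 ≤ L := (h.nonneg 0).trans (h.le 0)

theorem mono (h : Pd S L q) {S' : Set ℂ} {L' : ℝ} (hS : S ⊆ S') (hL : L ≤ L') : Pd S' L' q :=
  ⟨h.meas, h.nonneg, fun x => (h.le x).trans hL, fun x hx => h.zero x fun h' => hx (hS h'), h.one⟩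

end Pd

theorem dm_int {q : ℂ → ℝ} (hm : Measurable q) (h0 : ∀ x, 0 ≤ q x) (f : ℂ → ℝ) :
    ∫ z, f z ∂(dm q) = ∫ z, f z * q z := by
  rw [dm, integral_withDensity_eq_integral_toReal_smul (by fun_prop)
    (Eventually.of_forall fun _ => ENNReal.ofReal_lt_top)]
  refine integral_congr_ae (Eventually.of_forall fun z => ?_)
  simp only [smul_eq_mul]
  rw [ENNReal.toReal_ofReal (h0 z), mul_comm]

theorem dm_integrable {q : ℂ → ℝ} (hm : Measurable q) (h0 : ∀ x, 0 ≤ q x) (f : ℂ → ℝ)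
    (hf : Integrable fun z => f z * q z) : Integrable f (dm q) := by
  rw [dm, integrable_withDensity_iff (by fun_prop)
    (Eventually.of_forall fun _ => ENNReal.ofReal_lt_top)]
  refine hf.congr (Eventually.of_forall fun z => ?_)
  simp only
  rw [ENNReal.toReal_ofReal (h0 z)]

theorem dm_prod {a b : ℂ → ℝ} (ha : Measurable a) (hb : Measurable b) (ha0 : ∀ x, 0 ≤ a x) :
    (dm a).prod (dm b) =
      (volume : Measure (ℂ × ℂ)).withDensity fun p => ENNReal.ofReal (a p.1 * b p.2) := by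
  rw [dm, dm, prod_withDensity (by fun_prop) (by fun_prop), Measure.volume_eq_prod]
  congr 1
  funext p
  rw [ENNReal.ofReal_mul (ha0 _)]

theorem dm_prod_int {a b : ℂ → ℝ} (ha : Measurable a) (hb : Measurable b) (ha0 : ∀ x, 0 ≤ a x)
    (hb0 : ∀ x, 0 ≤ b x) (f : ℂ × ℂ → ℝ) :
    ∫ p, f p ∂((dm a).prod (dm b)) = ∫ p, f p * (a p.1 * b p.2) := by
  rw [dm_prod ha hb ha0, integral_withDensity_eq_integral_toReal_smul (by fun_prop)
    (Eventually.of_forall fun _ => ENNReal.ofReal_lt_top)]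
  refine integral_congr_ae (Eventually.of_forall fun z => ?_)
  simp only [smul_eq_mul]
  rw [ENNReal.toReal_ofReal (mul_nonneg (ha0 _) (hb0 _)), mul_comm]

theorem dm_prod_integrable {a b : ℂ → ℝ} (ha : Measurable a) (hb : Measurable b)
    (ha0 : ∀ x, 0 ≤ a x) (hb0 : ∀ x, 0 ≤ b x) (f : ℂ × ℂ → ℝ)
    (hf : Integrable fun p : ℂ × ℂ => f p * (a p.1 * b p.2)) :
    Integrable f ((dm a).prod (dm b)) := by
  rw [dm_prod ha hb ha0, integrable_withDensity_iff (by fun_prop)
    (Eventually.of_forall fun _ => ENNReal.ofReal_lt_top)]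
  refine hf.congr (Eventually.of_forall fun z => ?_)
  simp only
  rw [ENNReal.toReal_ofReal (mul_nonneg (ha0 _) (hb0 _))]

section
variable {Λ : Set ℂ} {g : ℂ → ℂ → ℝ} {D C₃ cL CB : ℝ} {S : Set ℂ} {L : ℝ}

theorem kk_memLp (hK : Ker Λ g D C₃ cL CB) {a b : ℂ → ℝ} (ha : Pd S L a) (hb : Pd S L b) :
    MemLp (kk Λ g) 2 ((dm a).prod (dm b)) := by
  have := ha.prob
  have := hb.prob
  rw [memLp_two_iff_integrable_sq (kk_measurable hK).aestronglyMeasurable]
  exact dm_prod_integrable ha.meas hb.meas ha.nonneg hb.nonneg _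
    (kk_sq_int hK ha.meas hb.meas ha.abs_le hb.abs_le)

theorem kk_mean {a b : ℂ → ℝ} (ha : Pd S L a) (hb : Pd S L b) :
    ∫ p, kk Λ g p ∂((dm a).prod (dm b)) = Bf Λ g a b :=
  dm_prod_int ha.meas hb.meas ha.nonneg hb.nonneg _

/-- the diagonal is bounded on compact sets -/
theorem kk_diag_bdd (hK : Ker Λ g D C₃ cL CB) (hS : IsCompact S) (hSΛ : S ⊆ Λ) :
    ∃ C : ℝ, 0 ≤ C ∧ ∀ z ∈ S, |kk Λ g (z, z)| ≤ C := by
  obtain ⟨r, hr, hr'⟩ := hS.exists_thickening_subset_open hK.isOpen hSΛ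
  refine ⟨|Real.log D| + |Real.log r|, by positivity, fun z hz => ?_⟩
  have hb : ball z r ⊆ Λ := (ball_subset_thickening hz r).trans hr'
  have h1 := hK.log_r_le z (hSΛ hz) z (hSΛ hz) r hr hb
  have h2 := hK.le_log z (hSΛ hz) z (hSΛ hz)
  rw [kk_of_mem (hSΛ hz) (hSΛ hz), K]
  simp only [sub_self, norm_zero, Real.log_zero, sub_zero]
  rw [_root_.abs_le]
  constructor
  · have := neg_abs_le (Real.log r)
    have := abs_nonneg (Real.log D)
    linarith
  · have := le_abs_self (Real.log D)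
    have := abs_nonneg (Real.log r)
    linarith

theorem dm_ae_mem {q : ℂ → ℝ} (h : Pd S L q) : ∀ᵐ z ∂(dm q), z ∈ S := by
  rw [dm, ae_withDensity_iff (by have := h.meas; fun_prop)]
  refine Eventually.of_forall fun z hz => ?_
  by_contra hn
  exact hz (by rw [h.zero z hn]; simp)

theorem dm_ae_pos {q : ℂ → ℝ} (h : Pd S L q) : ∀ᵐ z ∂(dm q), 0 < q z := by
  rw [dm, ae_withDensity_iff (by have := h.meas; fun_prop)]
  refine Eventually.of_forall fun z hz => ?_
  by_contra hn
  exact hz (ENNReal.ofReal_of_nonpos (not_lt.1 hn))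

theorem kk_diag_memLp (hK : Ker Λ g D C₃ cL CB) (hS : IsCompact S) (hSΛ : S ⊆ Λ) {q : ℂ → ℝ}
    (h : Pd S L q) : MemLp (fun z => kk Λ g (z, z)) 2 (dm q) := by
  have := h.prob
  obtain ⟨C, _, hC⟩ := kk_diag_bdd hK hS hSΛ
  refine MemLp.of_bound ((kk_measurable hK).comp (by fun_prop)).aestronglyMeasurable C ?_
  filter_upwards [dm_ae_mem h] with z hz
  exact hC z hz

/-- entropy -/
noncomputable def Ent (q : ℂ → ℝ) : ℝ := ∫ z, q z * Real.log (q z)

theorem mul_log_sq_le {t L : ℝ} (h0 : 0 ≤ t) (hL : t ≤ L) :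
    Real.log t ^ 2 * t ≤ 4 * (1 + L ^ 2) := by
  rcases eq_or_lt_of_le h0 with h | h
  · rw [← h]; simp; positivity
  rcases le_or_gt 1 t with h1 | h1
  · have := log_sq_le h1
    calc Real.log t ^ 2 * t ≤ 4 * t * t := by gcongr
      _ = 4 * t ^ 2 := by ring
      _ ≤ 4 * (1 + L ^ 2) := by nlinarith
  · have h2 : 1 ≤ t⁻¹ := (one_le_inv₀ h).2 h1.le
    have h3 := log_sq_le h2
    rw [Real.log_inv, neg_sq] at h3
    calc Real.log t ^ 2 * t ≤ 4 * t⁻¹ * t := by gcongr
      _ = 4 := by rw [mul_assoc, inv_mul_cancel₀ h.ne']; norm_num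
      _ ≤ 4 * (1 + L ^ 2) := by nlinarith [sq_nonneg L]

theorem log_memLp {q : ℂ → ℝ} (hS : MeasurableSet S) (hSf : volume S ≠ ⊤) (h : Pd S L q) :
    MemLp (fun z => Real.log (q z)) 2 (dm q) := by
  have hm := h.meas
  have := h.prob
  have hl : Measurable fun z => Real.log (q z) := Real.measurable_log.comp hm
  rw [memLp_two_iff_integrable_sq hl.aestronglyMeasurable]
  refine dm_integrable h.meas h.nonneg _ ?_
  have h1 : Integrable (S.indicator fun _ => 4 * (1 + L ^ 2)) := by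
    rw [integrable_indicator_iff hS]
    exact integrableOn_const hSf
  refine h1.mono' (by fun_prop) (Eventually.of_forall fun z => ?_)
  rw [Real.norm_eq_abs, abs_of_nonneg (mul_nonneg (sq_nonneg _) (h.nonneg z))]
  by_cases hz : z ∈ S
  · rw [Set.indicator_of_mem hz]
    exact mul_log_sq_le (h.nonneg z) (h.le z)
  · rw [Set.indicator_of_notMem hz, h.zero z hz, mul_zero]

theorem log_mean {q : ℂ → ℝ} (h : Pd S L q) : ∫ z, Real.log (q z) ∂(dm q) = Ent q := by
  rw [dm_int h.meas h.nonneg, Ent]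
  exact integral_congr_ae (Eventually.of_forall fun z => mul_comm _ _)

theorem ent_integrable {q : ℂ → ℝ} (hS : MeasurableSet S) (hSf : volume S ≠ ⊤) (h : Pd S L q) :
    Integrable fun z => q z * Real.log (q z) := by
  have hm := h.meas
  have h1 : Integrable (S.indicator fun _ => 4 * (1 + L ^ 2) + L) := by
    rw [integrable_indicator_iff hS]
    exact integrableOn_const hSf
  refine h1.mono' (by fun_prop) (Eventually.of_forall fun z => ?_)
  by_cases hz : z ∈ S
  · rw [Set.indicator_of_mem hz, Real.norm_eq_abs, abs_mul, abs_of_nonneg (h.nonneg z)]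
    have h2 := mul_log_sq_le (h.nonneg z) (h.le z)
    have h3 : |Real.log (q z)| ≤ 1 + Real.log (q z) ^ 2 := by
      rw [← sq_abs]; nlinarith [abs_nonneg (Real.log (q z)), sq_nonneg (|Real.log (q z)| - 1)]
    calc q z * |Real.log (q z)| ≤ q z * (1 + Real.log (q z) ^ 2) := by
          gcongr; exact h.nonneg z
      _ = q z + Real.log (q z) ^ 2 * q z := by ring
      _ ≤ _ := by linarith [h.le z]
  · rw [Set.indicator_of_notMem hz, h.zero z hz]; simp

end

end Pool.Agent.H836_PV
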