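import Pool.Agent.H836_PV.W4

/-!
# Module W, part 5: contraction of the cluster
-/

open MeasureTheory Filter Topology Set Metric ProbabilityTheory

namespace Pool.Agent.H836_PV

/-- crossing lemma -/
theorem w_cross (φ : ℝ → ℝ) (C : ℝ) (hC : 0 < C) (E δ : ℝ)
    (hL : ∀ s ∈ Icc (0 : ℝ) 1, ∀ t ∈ Icc (0 : ℝ) 1, |φ s - φ t| ≤ C * |s - t|)
    (h0 : φ 0 < E) (h1 : E + δ ≤ φ 1) :
    ENNReal.ofReal (δ / C) ≤ volume {t : ℝ | t ∈ Icc (0 : ℝ) 1 ∧ E ≤ φ t ∧ φ t < E + δ} := by
  set S := {t : ℝ | t ∈ Icc (0 : ℝ) 1 ∧ E ≤ φ t ∧ φ t < E + δ} with hS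
  have hlip : LipschitzOnWith C.toNNReal φ (Icc 0 1) := by
    refine LipschitzOnWith.of_dist_le_mul fun s hs t ht => ?_
    rw [Real.dist_eq, Real.dist_eq, Real.coe_toNNReal C hC.le]
    exact hL s hs t ht
  have hsub : Ico E (E + δ) ⊆ φ '' S := by
    intro y hy
    have : y ∈ Icc (φ 0) (φ 1) := ⟨by linarith [hy.1], by linarith [hy.2]⟩
    obtain ⟨t, ht, rfl⟩ := intermediate_value_Icc (zero_le_one) hlip.continuousOn this
    exact ⟨t, ⟨ht, hy.1, hy.2⟩, rfl⟩
  have hSub : S ⊆ Icc 0 1 := fun t ht => ht.1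
  have h2 := (hlip.mono hSub).hausdorffMeasure_image_le (d := 1) zero_le_one
  rw [hausdorffMeasure_real] at h2
  have h3 : ENNReal.ofReal δ ≤ ENNReal.ofReal C * volume S := by
    calc ENNReal.ofReal δ = volume (Ico E (E + δ)) := by simp
      _ ≤ volume (φ '' S) := measure_mono hsub
      _ ≤ _ := h2
      _ = ENNReal.ofReal C * volume S := by simp [ENNReal.ofReal]
  rw [ENNReal.ofReal_div_of_pos hC]
  exact ENNReal.div_le_of_le_mul' h3

/-- the contraction by `e^{-t}` of the coordinates in `bl` towards `c₀` -/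
noncomputable def ctr {ι : Type} (bl : ι → Prop) [DecidablePred bl] (c₀ : ℂ) (t : ℝ) (x : ι → ℂ) :
    ι → ℂ := fun i => if bl i then c₀ + Real.exp (-t) • (x i - c₀) else x i

theorem w_map_homothety (c₀ : ℂ) (t : ℝ) :
    Measure.map (fun z : ℂ => c₀ + Real.exp (-t) • (z - c₀)) volume =
      ENNReal.ofReal (Real.exp (2 * t)) • (volume : Measure ℂ) := by
  have h1 : (fun z : ℂ => c₀ + Real.exp (-t) • (z - c₀)) =
      (fun z => z + (c₀ - Real.exp (-t) • c₀)) ∘ (fun z => Real.exp (-t) • z) := by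
    funext z; simp only [Function.comp, smul_sub]; ring
  rw [h1, ← Measure.map_map (by fun_prop) (by fun_prop),
    Measure.map_addHaar_smul volume (Real.exp_ne_zero _), Measure.map_smul,
    (measurePreserving_add_right volume _).map_eq, Complex.finrank_real_complex]
  congr 2
  rw [abs_of_pos (by positivity), ← Real.exp_nat_mul, ← Real.exp_neg]
  congr 1
  push_cast; ring

theorem w_jac {ι : Type} [Fintype ι] (bl : ι → Prop) [DecidablePred bl] (c₀ : ℂ) (t : ℝ)
    (S : Set (ι → ℂ)) (hS : MeasurableSet S) :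
    volume (ctr bl c₀ t ⁻¹' S) =
      ENNReal.ofReal (Real.exp (2 * (Finset.univ.filter bl).card * t)) * volume S := by
  set a : ι → ENNReal := fun i => if bl i then ENNReal.ofReal (Real.exp (2 * t)) else 1 with ha
  have hsf : ∀ i, SigmaFinite (a i • (volume : Measure ℂ)) := fun i => by
    by_cases h : bl i
    · simp only [ha, h, if_true]
      exact SMul.sigmaFinite (Real.toNNReal (Real.exp (2 * t)))
    · simp only [ha, h, if_false, one_smul]
      infer_instance
  have h1 : ∀ i, MeasurePreserving (fun z : ℂ => if bl i then c₀ + Real.exp (-t) • (z - c₀) else z)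
      volume (a i • (volume : Measure ℂ)) := by
    intro i
    by_cases h : bl i
    · simp only [h, if_true, ha]
      exact ⟨by fun_prop, w_map_homothety c₀ t⟩
    · simp only [h, if_false, ha, one_smul]
      exact MeasurePreserving.id _
  have h2 := measurePreserving_pi (fun _ : ι => (volume : Measure ℂ)) (fun i => a i • volume) h1
  have h3 : Measure.pi (fun i => a i • (volume : Measure ℂ)) =
      (∏ i, a i) • (volume : Measure (ι → ℂ)) := by
    refine Measure.pi_eq fun s hs => ?_
    rw [Measure.smul_apply, volume_pi_pi, smul_eq_mul, ← Finset.prod_mul_distrib]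
    rfl
  rw [h3] at h2
  have h4 : (∏ i, a i) = ENNReal.ofReal (Real.exp (2 * (Finset.univ.filter bl).card * t)) := by
    simp only [ha]
    rw [Finset.prod_ite, Finset.prod_const, Finset.prod_const_one, mul_one,
      ← ENNReal.ofReal_pow (Real.exp_pos _).le, ← Real.exp_nat_mul]
    congr 2; ring
  rw [← h4]
  have h5 := h2.measure_preimage hS.nullMeasurableSet
  rw [Measure.smul_apply, smul_eq_mul] at h5
  exact h5

theorem w_ctr_meas {ι : Type} [Fintype ι] (bl : ι → Prop) [DecidablePred bl] (c₀ : ℂ) :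
    Measurable fun p : (ι → ℂ) × ℝ => ctr bl c₀ p.2 p.1 := by
  refine measurable_pi_iff.2 fun i => ?_
  by_cases h : bl i
  · simp only [ctr, h, if_true]; fun_prop
  · simp only [ctr, h, if_false]; fun_prop

/-- Tonelli -/
theorem w_tonelli {ι : Type} [Fintype ι] (bl : ι → Prop) [DecidablePred bl] (c₀ : ℂ)
    (A S : Set (ι → ℂ)) (hA : MeasurableSet A) (hS : MeasurableSet S) (v : ENNReal)
    (h : ∀ x ∈ A, v ≤ volume {t : ℝ | t ∈ Icc (0 : ℝ) 1 ∧ ctr bl c₀ t x ∈ S}) :
    v * volume A ≤ ENNReal.ofReal (Real.exp (2 * (Finset.univ.filter bl).card)) * volume S := by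
  set W : Set ((ι → ℂ) × ℝ) := {p | p.1 ∈ A ∧ p.2 ∈ Icc (0 : ℝ) 1 ∧ ctr bl c₀ p.2 p.1 ∈ S} with hW
  have hWm : MeasurableSet W := (measurable_fst hA).inter
    ((measurable_snd measurableSet_Icc).inter (w_ctr_meas bl c₀ hS))
  have e1 := Measure.prod_apply (μ := (volume : Measure (ι → ℂ))) (ν := (volume : Measure ℝ)) hWm
  have e2 := Measure.prod_apply_symm (μ := (volume : Measure (ι → ℂ))) (ν := (volume : Measure ℝ)) hWm
  have i1 : v * volume A ≤ ∫⁻ x, volume (Prod.mk x ⁻¹' W) := by
    calc v * volume A = ∫⁻ x in A, v := by rw [setLIntegral_const]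
      _ ≤ ∫⁻ x in A, volume (Prod.mk x ⁻¹' W) := by
          refine setLIntegral_mono' hA fun x hx => (h x hx).trans (measure_mono fun t ht => ?_)
          exact ⟨hx, ht.1, ht.2⟩
      _ ≤ _ := setLIntegral_le_lintegral _ _
  have i2 : ∫⁻ t, volume ((fun x => (x, t)) ⁻¹' W) ≤
      ENNReal.ofReal (Real.exp (2 * (Finset.univ.filter bl).card)) * volume S := by
    calc ∫⁻ t, volume ((fun x => (x, t)) ⁻¹' W)
        ≤ ∫⁻ t, (Icc (0 : ℝ) 1).indicator (fun _ =>
          ENNReal.ofReal (Real.exp (2 * (Finset.univ.filter bl).card)) * volume S) t := by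
          refine lintegral_mono fun t => ?_
          by_cases ht : t ∈ Icc (0 : ℝ) 1
          · rw [Set.indicator_of_mem ht]
            calc volume ((fun x => (x, t)) ⁻¹' W) ≤ volume (ctr bl c₀ t ⁻¹' S) :=
                  measure_mono fun x hx => hx.2.2
              _ = ENNReal.ofReal (Real.exp (2 * (Finset.univ.filter bl).card * t)) * volume S :=
                  w_jac bl c₀ t S hS
              _ ≤ _ := by
                  have : (0 : ℝ) ≤ 2 * (Finset.univ.filter bl).card := by positivity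
                  refine mul_le_mul_left (ENNReal.ofReal_le_ofReal (Real.exp_le_exp.2 ?_)) _
                  nlinarith [ht.1, ht.2]
          · have : (fun x => (x, t)) ⁻¹' W = ∅ := by
              ext x; simp only [hW, mem_preimage, mem_ofPred_eq, mem_empty_iff_false, iff_false]
              tauto
            rw [this]; simp
      _ = _ := by
          rw [lintegral_indicator measurableSet_Icc, setLIntegral_const]
          simp
  rw [← e1, e2] at i1
  exact i1.trans i2

end Pool.Agent.H836_PV
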