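import Pool.Agent.H836_PV.W5

/-!
# Module W, part 6: energy along the contraction
-/

open MeasureTheory Filter Topology Set Metric ProbabilityTheory

namespace Pool.Agent.H836_PV

/-- Lipschitz bounds near the cluster -/
structure LipH (g : ℂ → ℂ → ℝ) (Q : Set ℂ) (c₀ : ℂ) (r l : ℝ) : Prop where
  pos : 0 < l
  gg : ∀ z ∈ closedBall c₀ r, ∀ z' ∈ closedBall c₀ r, ∀ w ∈ closedBall c₀ r,
    ∀ w' ∈ closedBall c₀ r, |g z w - g z' w'| ≤ l * (‖z - z'‖ + ‖w - w'‖)
  kq : ∀ z ∈ closedBall c₀ r, ∀ z' ∈ closedBall c₀ r, ∀ y ∈ Q,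
    |K g z y - K g z' y| ≤ l * ‖z - z'‖

theorem abs_log_sub_log_le {a b r : ℝ} (hr : 0 < r) (ha : r ≤ a) (hb : r ≤ b) :
    |Real.log a - Real.log b| ≤ |a - b| / r := by
  have key : ∀ a b : ℝ, r ≤ a → r ≤ b → Real.log a - Real.log b ≤ |a - b| / r := by
    intro a b ha hb
    have ha0 : 0 < a := hr.trans_le ha
    have hb0 : 0 < b := hr.trans_le hb
    rw [← Real.log_div ha0.ne' hb0.ne']
    calc Real.log (a / b) ≤ a / b - 1 := Real.log_le_sub_one_of_pos (by positivity)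
      _ = (a - b) / b := by field_simp
      _ ≤ |a - b| / b := by gcongr; exact le_abs_self _
      _ ≤ |a - b| / r := by gcongr
  rw [abs_le]
  constructor
  · have := key b a hb ha
    rw [abs_sub_comm] at this
    linarith
  · exact key a b ha hb

theorem lip_exists {Λ : Set ℂ} {g : ℂ → ℂ → ℝ} {D C₃ cL CB : ℝ} (hK : Ker Λ g D C₃ cL CB)
    {Q : Set ℂ} (hQ : IsCompact Q) (hQΛ : Q ⊆ Λ) {c₀ : ℂ} {r : ℝ} (hr : 0 < r)
    (hin : closedBall c₀ (2 * r) ⊆ Λ) (hdis : Disjoint Q (ball c₀ (2 * r))) :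
    ∃ l, LipH g Q c₀ r l := by
  have hball : closedBall c₀ r ⊆ Λ := (closedBall_subset_closedBall (by linarith)).trans hin
  set gt : ℂ × ℂ → ℝ := fun p => g p.1 p.2 with hgt
  have hopen : IsOpen (Λ ×ˢ Λ) := hK.isOpen.prod hK.isOpen
  have hcont : ContinuousOn (fderiv ℝ gt) (Λ ×ˢ Λ) :=
    hK.smooth.continuousOn_fderiv_of_isOpen hopen (by norm_num)
  have hdiff : ∀ p ∈ Λ ×ˢ Λ, DifferentiableAt ℝ gt p := fun p hp =>
    (hK.smooth.contDiffAt (hopen.mem_nhds hp)).differentiableAt (by norm_num)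
  have hA : IsCompact (closedBall c₀ r ×ˢ closedBall c₀ r) :=
    (isCompact_closedBall c₀ r).prod (isCompact_closedBall c₀ r)
  have hA' : closedBall c₀ r ×ˢ closedBall c₀ r ⊆ Λ ×ˢ Λ := Set.prod_mono hball hball
  have hB : IsCompact (closedBall c₀ r ×ˢ Q) := (isCompact_closedBall c₀ r).prod hQ
  have hB' : closedBall c₀ r ×ˢ Q ⊆ Λ ×ˢ Λ := Set.prod_mono hball hQΛ
  obtain ⟨C₁, hC₁⟩ := hA.exists_bound_of_continuousOn (hcont.mono hA')
  obtain ⟨C₂, hC₂⟩ := hB.exists_bound_of_continuousOn (hcont.mono hB')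
  refine ⟨|C₁| + |C₂| + 1 / r + 1, by positivity, ?_, ?_⟩
  · intro z hz z' hz' w hw w' hw'
    have hconv : Convex ℝ (closedBall c₀ r ×ˢ closedBall c₀ r) :=
      (convex_closedBall _ _).prod (convex_closedBall _ _)
    have h := hconv.norm_image_sub_le_of_norm_fderiv_le (𝕜 := ℝ) (f := gt)
      (fun p hp => hdiff p (hA' hp)) hC₁ (x := (z', w')) (y := (z, w)) ⟨hz', hw'⟩ ⟨hz, hw⟩
    rw [Real.norm_eq_abs] at h
    have h2 : ‖((z, w) : ℂ × ℂ) - (z', w')‖ ≤ ‖z - z'‖ + ‖w - w'‖ := by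
      rw [Prod.mk_sub_mk, Prod.norm_def]
      exact max_le (by simp) (by simp)
    calc |g z w - g z' w'| ≤ C₁ * ‖((z, w) : ℂ × ℂ) - (z', w')‖ := h
      _ ≤ (|C₁| + |C₂| + 1 / r + 1) * (‖z - z'‖ + ‖w - w'‖) := by
          have h3 : C₁ ≤ |C₁| + |C₂| + 1 / r + 1 := by
            have := le_abs_self C₁
            have := abs_nonneg C₂
            have : 0 < 1 / r := by positivity
            linarith
          gcongr
  · intro z hz z' hz' y hy
    have hconv : Convex ℝ (closedBall c₀ r ×ˢ {y}) :=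
      (convex_closedBall _ _).prod (convex_singleton _)
    have hsub : closedBall c₀ r ×ˢ {y} ⊆ closedBall c₀ r ×ˢ Q :=
      Set.prod_mono subset_rfl (by simpa using hy)
    have h := hconv.norm_image_sub_le_of_norm_fderiv_le (𝕜 := ℝ) (f := gt)
      (fun p hp => hdiff p (hB' (hsub hp))) (fun p hp => hC₂ p (hsub hp))
      (x := (z', y)) (y := (z, y)) ⟨hz', rfl⟩ ⟨hz, rfl⟩
    rw [Real.norm_eq_abs] at h
    have h2 : ‖((z, y) : ℂ × ℂ) - (z', y)‖ = ‖z - z'‖ := by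
      rw [Prod.mk_sub_mk, Prod.norm_def]; simp
    rw [h2] at h
    have hfar : ∀ u ∈ closedBall c₀ r, r ≤ ‖u - y‖ := by
      intro u hu
      have h3 : 2 * r ≤ dist y c₀ := by
        by_contra hlt
        exact (Set.disjoint_left.1 hdis hy) (by simpa using hlt)
      have h4 : dist u c₀ ≤ r := hu
      have h5 := dist_triangle_left y c₀ u
      rw [dist_eq_norm u y] at h5
      linarith
    have h6 := abs_log_sub_log_le hr (hfar z hz) (hfar z' hz')
    have h7 : |‖z - y‖ - ‖z' - y‖| ≤ ‖z - z'‖ := by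
      have := abs_norm_sub_norm_le (z - y) (z' - y)
      simpa using this
    have h8 : |Real.log ‖z - y‖ - Real.log ‖z' - y‖| ≤ 1 / r * ‖z - z'‖ := by
      refine h6.trans ?_
      rw [div_eq_inv_mul, one_div]
      gcongr
    have e : K g z y - K g z' y = (g z y - g z' y) - (Real.log ‖z - y‖ - Real.log ‖z' - y‖) := by
      simp only [K]; ring
    rw [e]
    calc |(g z y - g z' y) - (Real.log ‖z - y‖ - Real.log ‖z' - y‖)|
        ≤ |g z y - g z' y| + |Real.log ‖z - y‖ - Real.log ‖z' - y‖| := abs_sub _ _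
      _ ≤ C₂ * ‖z - z'‖ + 1 / r * ‖z - z'‖ := add_le_add h h8
      _ ≤ |C₂| * ‖z - z'‖ + 1 / r * ‖z - z'‖ + (|C₁| + 1) * ‖z - z'‖ := by
          have h9 : C₂ * ‖z - z'‖ ≤ |C₂| * ‖z - z'‖ := by gcongr; exact le_abs_self _
          have h10 : 0 ≤ (|C₁| + 1) * ‖z - z'‖ := by positivity
          linarith
      _ = _ := by ring

section
variable {ι : Type} [Fintype ι] [DecidableEq ι] (bl : ι → Prop) [DecidablePred bl]

theorem exp_neg_lip {s t : ℝ} (hs : 0 ≤ s) (ht : 0 ≤ t) :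
    |Real.exp (-t) - Real.exp (-s)| ≤ |t - s| := by
  have key : ∀ s t : ℝ, 0 ≤ s → Real.exp (-s) - Real.exp (-t) ≤ |t - s| := by
    intro s t hs
    have h1 : Real.exp (-t) = Real.exp (-s) * Real.exp (-(t - s)) := by
      rw [← Real.exp_add]; ring_nf
    have h2 : -(t - s) + 1 ≤ Real.exp (-(t - s)) := Real.add_one_le_exp _
    have h3 : Real.exp (-s) ≤ 1 := Real.exp_le_one_iff.2 (by linarith)
    have h4 := Real.exp_pos (-s)
    rw [h1]
    have h5 := le_abs_self (t - s)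
    have h6 := abs_nonneg (t - s)
    nlinarith
  rw [abs_le]
  constructor
  · linarith [key s t hs]
  · have := key t s ht
    rw [abs_sub_comm] at this
    linarith

omit [Fintype ι] [DecidableEq ι] in
theorem ctr_dist (c₀ : ℂ) {r' : ℝ} {x : ι → ℂ} {i : ι} (hb : bl i) (hx : x i ∈ closedBall c₀ r')
    {s t : ℝ} (hs : 0 ≤ s) (ht : 0 ≤ t) :
    ‖ctr bl c₀ t x i - ctr bl c₀ s x i‖ ≤ r' * |t - s| := by
  simp only [ctr, hb, if_true]
  have h1 : c₀ + Real.exp (-t) • (x i - c₀) - (c₀ + Real.exp (-s) • (x i - c₀)) =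
      (Real.exp (-t) - Real.exp (-s)) • (x i - c₀) := by rw [sub_smul]; ring
  rw [h1, norm_smul, Real.norm_eq_abs]
  have h2 := exp_neg_lip hs ht
  have h3 : ‖x i - c₀‖ ≤ r' := by rw [← dist_eq_norm]; exact hx
  calc |Real.exp (-t) - Real.exp (-s)| * ‖x i - c₀‖ ≤ |t - s| * r' := by gcongr
    _ = _ := mul_comm _ _

omit [Fintype ι] [DecidableEq ι] in
theorem ctr_mem (c₀ : ℂ) {r' : ℝ} {x : ι → ℂ} {i : ι} (hb : bl i) (hx : x i ∈ closedBall c₀ r')
    {t : ℝ} (ht : 0 ≤ t) : ctr bl c₀ t x i ∈ closedBall c₀ r' := by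
  simp only [ctr, hb, if_true]
  rw [mem_closedBall, dist_eq_norm, add_sub_cancel_left, norm_smul, Real.norm_eq_abs,
    abs_of_pos (Real.exp_pos _)]
  have h3 : ‖x i - c₀‖ ≤ r' := by rw [← dist_eq_norm]; exact hx
  have h4 : Real.exp (-t) ≤ 1 := Real.exp_le_one_iff.2 (by linarith)
  have := norm_nonneg (x i - c₀)
  have := Real.exp_pos (-t)
  nlinarith

omit [Fintype ι] [DecidableEq ι] in
theorem ctr_sub (c₀ : ℂ) {x : ι → ℂ} {i j : ι} (hi : bl i) (hj : bl j) (t : ℝ) :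
    ‖ctr bl c₀ t x i - ctr bl c₀ t x j‖ = Real.exp (-t) * ‖x i - x j‖ := by
  simp only [ctr, hi, hj, if_true]
  have h1 : c₀ + Real.exp (-t) • (x i - c₀) - (c₀ + Real.exp (-t) • (x j - c₀)) =
      Real.exp (-t) • (x i - x j) := by simp only [smul_sub]; ring
  rw [h1, norm_smul, Real.norm_eq_abs, abs_of_pos (Real.exp_pos _)]

omit [Fintype ι] [DecidableEq ι] in
theorem ctr_of_not (c₀ : ℂ) {x : ι → ℂ} {i : ι} (hi : ¬ bl i) (t : ℝ) :
    ctr bl c₀ t x i = x i := by simp [ctr, hi]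

theorem K_symm {Λ : Set ℂ} {g : ℂ → ℂ → ℝ} {D C₃ cL CB : ℝ} (hK : Ker Λ g D C₃ cL CB) {x y : ℂ}
    (hx : x ∈ Λ) (hy : y ∈ Λ) : K g x y = K g y x := by
  rw [K, K, hK.symm x hx y hy, norm_sub_rev]

omit [Fintype ι] in
/-- one pair -/
theorem w_pair_move {Λ : Set ℂ} {g : ℂ → ℂ → ℝ} {D C₃ cL CB : ℝ} (hK : Ker Λ g D C₃ cL CB)
    {Q : Set ℂ} (hQΛ : Q ⊆ Λ) {c₀ : ℂ} {r l r' : ℝ} (hr : closedBall c₀ r ⊆ Λ)
    (hL : LipH g Q c₀ r l) (hr' : r' ≤ r) {x : ι → ℂ}
    (hb : ∀ i, bl i → x i ∈ closedBall c₀ r')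
    (hq : ∀ i, ¬ bl i → x i ∈ Q) (hne : ∀ i j, bl i → bl j → i ≠ j → x i ≠ x j)
    {s t : ℝ} (hs : 0 ≤ s) (ht : 0 ≤ t) (i j : ι) :
    |(K g (ctr bl c₀ t x i) (ctr bl c₀ t x j) - K g (ctr bl c₀ s x i) (ctr bl c₀ s x j)) -
      (t - s) * (if bl i ∧ bl j ∧ i ≠ j then 1 else 0)| ≤
      l * r' * |t - s| * ((if bl i then 1 else 0) + (if bl j then 1 else 0)) := by
  have hl := hL.pos
  have hsub : closedBall c₀ r' ⊆ closedBall c₀ r := closedBall_subset_closedBall hr'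
  by_cases h1 : bl i
  · by_cases h2 : bl j
    · have mi := hsub (ctr_mem bl c₀ h1 (hb i h1) ht)
      have mi' := hsub (ctr_mem bl c₀ h1 (hb i h1) hs)
      have mj := hsub (ctr_mem bl c₀ h2 (hb j h2) ht)
      have mj' := hsub (ctr_mem bl c₀ h2 (hb j h2) hs)
      have hg := hL.gg _ mi _ mi' _ mj _ mj'
      have di := ctr_dist bl c₀ h1 (hb i h1) hs ht
      have dj := ctr_dist bl c₀ h2 (hb j h2) hs ht
      have hg2 : |g (ctr bl c₀ t x i) (ctr bl c₀ t x j) - g (ctr bl c₀ s x i) (ctr bl c₀ s x j)| ≤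
          l * r' * |t - s| * (1 + 1) := by
        refine hg.trans ?_
        calc l * (‖ctr bl c₀ t x i - ctr bl c₀ s x i‖ + ‖ctr bl c₀ t x j - ctr bl c₀ s x j‖)
            ≤ l * (r' * |t - s| + r' * |t - s|) := by gcongr
          _ = _ := by ring
      by_cases h3 : i = j
      · subst h3
        simp only [K, sub_self, norm_zero, Real.log_zero, sub_zero, ne_eq, not_true_eq_false,
          and_false, if_false, mul_zero, h1, if_true]
        exact hg2
      · have hn : 0 < ‖x i - x j‖ := norm_pos_iff.2 (sub_ne_zero.2 (hne i j h1 h2 h3))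
        simp only [K, h1, h2, ne_eq, h3, not_false_eq_true, and_self, if_true, mul_one]
        rw [ctr_sub bl c₀ h1 h2, ctr_sub bl c₀ h1 h2, Real.log_mul (Real.exp_ne_zero _) hn.ne',
          Real.log_mul (Real.exp_ne_zero _) hn.ne', Real.log_exp, Real.log_exp]
        refine le_trans (le_of_eq ?_) hg2
        congr 1
        ring
    · have mi := hsub (ctr_mem bl c₀ h1 (hb i h1) ht)
      have mi' := hsub (ctr_mem bl c₀ h1 (hb i h1) hs)
      have di := ctr_dist bl c₀ h1 (hb i h1) hs ht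
      rw [ctr_of_not bl c₀ h2, ctr_of_not bl c₀ h2]
      have hk := hL.kq _ mi _ mi' _ (hq j h2)
      simp only [h1, h2, false_and, and_false, if_false, mul_zero, sub_zero, if_true, add_zero,
        mul_one]
      calc _ ≤ l * ‖ctr bl c₀ t x i - ctr bl c₀ s x i‖ := hk
        _ ≤ l * (r' * |t - s|) := by gcongr
        _ = _ := by ring
  · by_cases h2 : bl j
    · have mj := hsub (ctr_mem bl c₀ h2 (hb j h2) ht)
      have mj' := hsub (ctr_mem bl c₀ h2 (hb j h2) hs)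
      have dj := ctr_dist bl c₀ h2 (hb j h2) hs ht
      rw [ctr_of_not bl c₀ h1, ctr_of_not bl c₀ h1]
      have hk := hL.kq _ mj _ mj' _ (hq i h1)
      rw [K_symm hK (hQΛ (hq i h1)) (hr mj), K_symm hK (hQΛ (hq i h1)) (hr mj')]
      simp only [h1, h2, false_and, if_false, mul_zero, sub_zero, if_true, zero_add,
        mul_one]
      calc _ ≤ l * ‖ctr bl c₀ t x j - ctr bl c₀ s x j‖ := hk
        _ ≤ l * (r' * |t - s|) := by gcongr
        _ = _ := by ring
    · rw [ctr_of_not bl c₀ h1, ctr_of_not bl c₀ h1, ctr_of_not bl c₀ h2, ctr_of_not bl c₀ h2]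
      simp [h1, h2]

/-- energy along the contraction -/
theorem w_energy {Λ : Set ℂ} {g : ℂ → ℂ → ℝ} {D C₃ cL CB : ℝ} (hK : Ker Λ g D C₃ cL CB)
    {Q : Set ℂ} (hQΛ : Q ⊆ Λ) {c₀ : ℂ} {r l r' : ℝ} (hr : closedBall c₀ r ⊆ Λ)
    (hL : LipH g Q c₀ r l) (hr' : r' ≤ r) (c : ι → ℝ) (hc : ∀ i, |c i| = 1)
    (hcb : ∀ i, bl i → c i = 1) {x : ι → ℂ}
    (hb : ∀ i, bl i → x i ∈ closedBall c₀ r')
    (hq : ∀ i, ¬ bl i → x i ∈ Q) (hne : ∀ i j, bl i → bl j → i ≠ j → x i ≠ x j)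
    {s t : ℝ} (hs : 0 ≤ s) (ht : 0 ≤ t) :
    |Ham g c (ctr bl c₀ t x) - Ham g c (ctr bl c₀ s x) - (t - s) *
      (((Finset.univ.filter bl).card : ℝ) * ((Finset.univ.filter bl).card - 1) / 2)| ≤
      (Finset.univ.filter bl).card * Fintype.card ι * l * r' * |t - s| := by
  set n : ℝ := ((Finset.univ.filter bl).card : ℝ) with hn
  have s1 : ∑ i, (if bl i then (1 : ℝ) else 0) = n := by
    rw [Finset.sum_boole]
  have s2 : ∑ i, ∑ j, (if bl i ∧ bl j ∧ i ≠ j then (1 : ℝ) else 0) = n * (n - 1) := by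
    have e1 : ∀ i j, (if bl i ∧ bl j ∧ i ≠ j then (1 : ℝ) else 0) =
        (if bl i then (1 : ℝ) else 0) * (if bl j then (1 : ℝ) else 0) -
        (if bl i then (1 : ℝ) else 0) * (if i = j then 1 else 0) := by
      intro i j
      by_cases h1 : bl i <;> by_cases h2 : bl j <;> by_cases h3 : i = j <;> simp_all
    simp only [e1, Finset.sum_sub_distrib, ← Finset.mul_sum, ← Finset.sum_mul, s1]
    simp only [Finset.sum_ite_eq, Finset.mem_univ, if_true, mul_one, s1]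
    ring
  have e2 : Ham g c (ctr bl c₀ t x) - Ham g c (ctr bl c₀ s x) - (t - s) * (n * (n - 1) / 2) =
      1 / 2 * ∑ i, ∑ j, (c i * c j * (K g (ctr bl c₀ t x i) (ctr bl c₀ t x j) -
        K g (ctr bl c₀ s x i) (ctr bl c₀ s x j)) -
        (t - s) * (if bl i ∧ bl j ∧ i ≠ j then 1 else 0)) := by
    simp only [Finset.sum_sub_distrib, ← Finset.mul_sum, s2, mul_sub, Ham]
    ring
  rw [e2, abs_mul, abs_of_pos (by norm_num : (0 : ℝ) < 1 / 2)]
  have e3 : ∀ i j, |c i * c j * (K g (ctr bl c₀ t x i) (ctr bl c₀ t x j) -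
        K g (ctr bl c₀ s x i) (ctr bl c₀ s x j)) -
        (t - s) * (if bl i ∧ bl j ∧ i ≠ j then 1 else 0)| ≤
      l * r' * |t - s| * ((if bl i then 1 else 0) + (if bl j then 1 else 0)) := by
    intro i j
    have h := w_pair_move bl hK hQΛ hr hL hr' hb hq hne hs ht i j
    have e4 : c i * c j * (K g (ctr bl c₀ t x i) (ctr bl c₀ t x j) -
        K g (ctr bl c₀ s x i) (ctr bl c₀ s x j)) -
        (t - s) * (if bl i ∧ bl j ∧ i ≠ j then 1 else 0) =
      c i * c j * ((K g (ctr bl c₀ t x i) (ctr bl c₀ t x j) -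
        K g (ctr bl c₀ s x i) (ctr bl c₀ s x j)) -
        (t - s) * (if bl i ∧ bl j ∧ i ≠ j then 1 else 0)) := by
      by_cases h1 : bl i ∧ bl j ∧ i ≠ j
      · rw [hcb i h1.1, hcb j h1.2.1]; ring
      · simp [h1]
    rw [e4, abs_mul, abs_mul, hc i, hc j, one_mul, one_mul]
    exact h
  calc 1 / 2 * |∑ i, ∑ j, (c i * c j * (K g (ctr bl c₀ t x i) (ctr bl c₀ t x j) -
        K g (ctr bl c₀ s x i) (ctr bl c₀ s x j)) -
        (t - s) * (if bl i ∧ bl j ∧ i ≠ j then 1 else 0))|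
      ≤ 1 / 2 * ∑ i, ∑ j, l * r' * |t - s| * ((if bl i then 1 else 0) + (if bl j then 1 else 0)) := by
        gcongr
        refine (Finset.abs_sum_le_sum_abs _ _).trans (Finset.sum_le_sum fun i _ => ?_)
        exact (Finset.abs_sum_le_sum_abs _ _).trans (Finset.sum_le_sum fun j _ => e3 i j)
    _ = n * Fintype.card ι * l * r' * |t - s| := by
        simp only [← Finset.mul_sum, Finset.sum_add_distrib, s1, Finset.sum_const,
          Finset.card_univ, nsmul_eq_mul]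
        ring

end

end Pool.Agent.H836_PV
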