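import Pool.Agent.H836_PV.W6

/-!
# Module W, part 7: the product law; means, typical configurations
-/

open MeasureTheory Filter Topology Set Metric ProbabilityTheory

namespace Pool.Agent.H836_PV

/-- types: `0` cluster, `1` other positive vortices, `2` negative vortices -/
def ty (M n : ℕ) : Fin M ⊕ Fin M → Fin 3 :=
  Sum.elim (fun k => if (k : ℕ) < n then 0 else 1) (fun _ => 2)

def blb (M n : ℕ) (i : Fin M ⊕ Fin M) : Prop := ty M n i = 0

instance (M n : ℕ) : DecidablePred (blb M n) := fun i => by unfold blb; infer_instance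

/-- circulation of a type -/
def cct : Fin 3 → ℝ := ![1, 1, -1]

theorem circ_eq (M n : ℕ) (i : Fin M ⊕ Fin M) : circ M i = cct (ty M n i) := by
  rcases i with k | k
  · by_cases h : (k : ℕ) < n <;> simp [circ, ty, cct, h]
  · simp [circ, ty, cct]

theorem sum_fin_lt (M n : ℕ) (hn : n ≤ M) (a b : ℝ) :
    ∑ k : Fin M, (if (k : ℕ) < n then a else b) = n * a + (M - n) * b := by
  rw [Fin.sum_univ_eq_sum_range (fun k => if k < n then a else b) M,
    Finset.sum_ite, Finset.sum_const, Finset.sum_const, nsmul_eq_mul, nsmul_eq_mul]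
  have h1 : (Finset.filter (fun k => k < n) (Finset.range M)) = Finset.range n := by
    ext k; simp only [Finset.mem_filter, Finset.mem_range]; omega
  have h2 : (Finset.filter (fun k => ¬ k < n) (Finset.range M)).card = M - n := by
    have := Finset.card_filter_add_card_filter_not (s := Finset.range M) (fun k => k < n)
    rw [h1] at this
    simp only [Finset.card_range] at this
    omega
  rw [h1, h2, Finset.card_range]
  push_cast [hn]
  ring

theorem sum_ty (M n : ℕ) (hn : n ≤ M) (F : Fin 3 → ℝ) :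
    ∑ i, F (ty M n i) = n * F 0 + (M - n) * F 1 + M * F 2 := by
  rw [Fintype.sum_sum_type]
  have h1 : ∀ k : Fin M, F (ty M n (Sum.inl k)) = if (k : ℕ) < n then F 0 else F 1 := by
    intro k; simp only [ty, Sum.elim_inl]; split_ifs <;> rfl
  simp only [h1, sum_fin_lt M n hn]
  simp [ty]

theorem card_blb (M n : ℕ) (hn : n ≤ M) :
    ((Finset.univ.filter (blb M n)).card : ℝ) = n := by
  have h := sum_ty M n hn (fun a => if a = 0 then 1 else 0)
  simp only [if_true] at h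
  rw [← Finset.sum_boole]
  have h2 : ∀ i, (if blb M n i then (1 : ℝ) else 0) = if ty M n i = 0 then 1 else 0 := fun i => rfl
  simp only [h2, h]
  simp

section
variable {Λ : Set ℂ} {g : ℂ → ℂ → ℝ} {D C₃ cL CB : ℝ}

/-- the quadratic form of the energy of the types -/
noncomputable def Qf (A : Fin 3 → Fin 3 → ℝ) (v : Fin 3 → ℝ) : ℝ := ∑ a, ∑ b, v a * v b * A a b

/-- the mean of the Hamiltonian -/
theorem mean_formula (M n : ℕ) (hn : n ≤ M) (A : Fin 3 → Fin 3 → ℝ) (Dg : Fin 3 → ℝ)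
    (m : Fin M ⊕ Fin M → Fin M ⊕ Fin M → ℝ)
    (hm : ∀ i j, i ≠ j → m i j = 1 / 2 * circ M i * circ M j * A (ty M n i) (ty M n j))
    (hd : ∀ i, m i i = 1 / 2 * Dg (ty M n i)) :
    ∑ i, ∑ j, m i j = 1 / 2 * Qf A ![(n : ℝ), M - n, -M] +
      1 / 2 * (n * (Dg 0 - A 0 0) + (M - n) * (Dg 1 - A 1 1) + M * (Dg 2 - A 2 2)) := by
  have h1 : ∀ i j, m i j = 1 / 2 * (cct (ty M n i) * cct (ty M n j) * A (ty M n i) (ty M n j)) +
      (if i = j then 1 / 2 * (Dg (ty M n i) - A (ty M n i) (ty M n i)) else 0) := by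
    intro i j
    by_cases h : i = j
    · subst h
      have hc : cct (ty M n i) * cct (ty M n i) = 1 := by
        rcases i with k | k
        · by_cases h : (k : ℕ) < n <;> simp [ty, cct, h]
        · simp [ty, cct]
      rw [hd i, if_pos rfl, hc]; ring
    · rw [hm i j h, if_neg h, circ_eq M n, circ_eq M n]; ring
  have h2 : ∀ i, ∑ j, m i j = 1 / 2 * (n * (cct (ty M n i) * cct 0 * A (ty M n i) 0) +
      (M - n) * (cct (ty M n i) * cct 1 * A (ty M n i) 1) +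
      M * (cct (ty M n i) * cct 2 * A (ty M n i) 2)) +
      1 / 2 * (Dg (ty M n i) - A (ty M n i) (ty M n i)) := by
    intro i
    simp only [h1, Finset.sum_add_distrib, ← Finset.mul_sum, Finset.sum_ite_eq, Finset.mem_univ,
      if_true]
    rw [sum_ty M n hn (fun a => cct (ty M n i) * cct a * A (ty M n i) a)]
  simp only [h2]
  rw [sum_ty M n hn (fun a => 1 / 2 * (n * (cct a * cct 0 * A a 0) +
      (M - n) * (cct a * cct 1 * A a 1) + M * (cct a * cct 2 * A a 2)) +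
      1 / 2 * (Dg a - A a a))]
  simp only [Qf, Fin.sum_univ_three, cct, Matrix.cons_val_zero, Matrix.cons_val_one,
    Matrix.cons_val]
  ring

/-- the mean is `M² · (limit) + O(M)` -/
theorem mean_bound (A : Fin 3 → Fin 3 → ℝ) (Dg : Fin 3 → ℝ) (κ : ℝ) :
    ∃ C : ℝ, 0 ≤ C ∧ ∀ M : ℕ, 1 ≤ M → ∀ θ : ℝ, |θ| ≤ 1 → ∀ n : ℝ, n = κ * M + θ → 0 ≤ n → n ≤ M →
      |(1 / 2 * Qf A ![n, M - n, -M] +
        1 / 2 * (n * (Dg 0 - A 0 0) + (M - n) * (Dg 1 - A 1 1) + M * (Dg 2 - A 2 2))) -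
        (M : ℝ) ^ 2 * (1 / 2 * Qf A ![κ, 1 - κ, -1])| ≤ C * M := by
  set U : ℝ := Qf A ![1, -1, 0] with hU
  set W : ℝ := κ * (A 0 0 + A 0 0) + (1 - κ) * (A 1 0 + A 0 1) - (A 2 0 + A 0 2) -
    κ * (A 0 1 + A 1 0) - (1 - κ) * (A 1 1 + A 1 1) + (A 2 1 + A 1 2) with hW
  refine ⟨|W| + |U| + |Dg 0 - A 0 0| + |Dg 1 - A 1 1| + |Dg 2 - A 2 2|, by positivity, ?_⟩
  intro M hM θ hθ n hn hn0 hnM
  have hM1 : (1 : ℝ) ≤ M := by exact_mod_cast hM
  have e1 : (1 / 2 * Qf A ![n, M - n, -M] +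
        1 / 2 * (n * (Dg 0 - A 0 0) + (M - n) * (Dg 1 - A 1 1) + M * (Dg 2 - A 2 2))) -
        (M : ℝ) ^ 2 * (1 / 2 * Qf A ![κ, 1 - κ, -1]) =
      1 / 2 * (M * θ * W) + 1 / 2 * (θ ^ 2 * U) + 1 / 2 * (n * (Dg 0 - A 0 0)) +
        1 / 2 * ((M - n) * (Dg 1 - A 1 1)) + 1 / 2 * (M * (Dg 2 - A 2 2)) := by
    rw [hn, hW, hU]
    simp only [Qf, Fin.sum_univ_three, Matrix.cons_val_zero, Matrix.cons_val_one,
      Matrix.cons_val]
    ring
  rw [e1]
  have b1 : |1 / 2 * (M * θ * W)| ≤ |W| * M := by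
    rw [abs_mul, abs_mul, abs_mul, abs_of_pos (by norm_num : (0 : ℝ) < 1 / 2),
      abs_of_pos (by linarith : (0 : ℝ) < M)]
    have := abs_nonneg W
    have := abs_nonneg θ
    calc 1 / 2 * (M * |θ| * |W|) ≤ 1 * (M * 1 * |W|) := by gcongr; norm_num
      _ = _ := by ring
  have b2 : |1 / 2 * (θ ^ 2 * U)| ≤ |U| * M := by
    rw [abs_mul, abs_mul, abs_of_pos (by norm_num : (0 : ℝ) < 1 / 2), abs_pow]
    have := abs_nonneg U
    calc 1 / 2 * (|θ| ^ 2 * |U|) ≤ 1 * (1 ^ 2 * |U|) := by gcongr; norm_num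
      _ ≤ _ := by nlinarith
  have b3 : |1 / 2 * (n * (Dg 0 - A 0 0))| ≤ |Dg 0 - A 0 0| * M := by
    rw [abs_mul, abs_mul, abs_of_pos (by norm_num : (0 : ℝ) < 1 / 2), abs_of_nonneg hn0]
    have := abs_nonneg (Dg 0 - A 0 0)
    calc 1 / 2 * (n * |Dg 0 - A 0 0|) ≤ 1 * (M * |Dg 0 - A 0 0|) := by gcongr; norm_num
      _ = _ := by ring
  have b4 : |1 / 2 * ((M - n) * (Dg 1 - A 1 1))| ≤ |Dg 1 - A 1 1| * M := by
    rw [abs_mul, abs_mul, abs_of_pos (by norm_num : (0 : ℝ) < 1 / 2),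
      abs_of_nonneg (sub_nonneg.2 hnM)]
    have h5 : 0 ≤ (M - n) * |Dg 1 - A 1 1| := mul_nonneg (sub_nonneg.2 hnM) (abs_nonneg _)
    have h6 : 0 ≤ n * |Dg 1 - A 1 1| := mul_nonneg hn0 (abs_nonneg _)
    linarith
  have b5 : |1 / 2 * (M * (Dg 2 - A 2 2))| ≤ |Dg 2 - A 2 2| * M := by
    rw [abs_mul, abs_mul, abs_of_pos (by norm_num : (0 : ℝ) < 1 / 2),
      abs_of_pos (by linarith : (0 : ℝ) < M)]
    have := abs_nonneg (Dg 2 - A 2 2)
    calc 1 / 2 * (M * |Dg 2 - A 2 2|) ≤ 1 * (M * |Dg 2 - A 2 2|) := by gcongr; norm_num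
      _ = _ := by ring
  calc _ ≤ |1 / 2 * (M * θ * W)| + |1 / 2 * (θ ^ 2 * U)| + |1 / 2 * (n * (Dg 0 - A 0 0))| +
        |1 / 2 * ((M - n) * (Dg 1 - A 1 1))| + |1 / 2 * (M * (Dg 2 - A 2 2))| := by
        refine (abs_add_le _ _).trans (add_le_add_left ?_ _)
        refine (abs_add_le _ _).trans (add_le_add_left ?_ _)
        refine (abs_add_le _ _).trans (add_le_add_left ?_ _)
        exact abs_add_le _ _
    _ ≤ |W| * M + |U| * M + |Dg 0 - A 0 0| * M + |Dg 1 - A 1 1| * M + |Dg 2 - A 2 2| * M := by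
        gcongr
    _ = _ := by ring

end

end Pool.Agent.H836_PV
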