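import Pool.Agent.H836_PV.W7

/-!
# Module W, part 8: typical configurations of the product law
-/

open MeasureTheory Filter Topology Set Metric ProbabilityTheory

namespace Pool.Agent.H836_PV

section
variable {Λ : Set ℂ} {g : ℂ → ℂ → ℝ} {D C₃ cL CB : ℝ}

theorem circ_sq (M : ℕ) (i : Fin M ⊕ Fin M) : circ M i ^ 2 = 1 := by
  rcases i with k | k <;> simp [circ]

theorem circ_abs (M : ℕ) (i : Fin M ⊕ Fin M) : |circ M i| = 1 := by
  rcases i with k | k <;> simp [circ]

theorem ham_eq_kk {ι : Type} [Fintype ι] (c : ι → ℝ) {x : ι → ℂ} (hx : x ∈ cf Λ ι) :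
    Ham g c x = ∑ i, ∑ j, 1 / 2 * c i * c j * kk Λ g (x i, x j) := by
  rw [Ham, Finset.mul_sum]
  refine Finset.sum_congr rfl fun i _ => ?_
  rw [Finset.mul_sum]
  refine Finset.sum_congr rfl fun j _ => ?_
  rw [kk_of_mem (hx i) (hx j)]; ring

theorem w_typical (hK : Ker Λ g D C₃ cL CB) {S : Fin 3 → Set ℂ} (hS : ∀ a, IsCompact (S a))
    (hSΛ : ∀ a, S a ⊆ Λ) {q : Fin 3 → ℂ → ℝ} {L : ℝ} (hq : ∀ a, Pd (S a) L (q a)) (κ : ℝ) :
    ∃ B C : ℝ, 0 ≤ B ∧ 0 ≤ C ∧ ∀ M n : ℕ, 1 ≤ M → n ≤ M → ∀ θ : ℝ, |θ| ≤ 1 → (n : ℝ) = κ * M + θ →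
      ∀ t₁ t₂ : ℝ, 0 < t₁ → 0 < t₂ → 4 * (2 * (M : ℝ)) ^ 3 * B / t₁ ^ 2 ≤ 1 / 4 →
      2 * (M : ℝ) * B / t₂ ^ 2 ≤ 1 / 4 →
      ∃ A : Set (Conf M), MeasurableSet A ∧
        (∀ x ∈ A, (∀ i, x i ∈ S (ty M n i)) ∧ (∀ i j, i ≠ j → x i ≠ x j) ∧
          |Ham g (circ M) x - (M : ℝ) ^ 2 *
            (1 / 2 * Qf (fun a b => Bf Λ g (q a) (q b)) ![κ, 1 - κ, -1])| ≤ C * M + t₁) ∧
        ENNReal.ofReal (Real.exp (-(n * Ent (q 0) + (M - n) * Ent (q 1) + M * Ent (q 2) + t₂)) / 2) ≤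
          volume A := by
  classical
  have hprob : ∀ a, IsProbabilityMeasure (dm (q a)) := fun a => (hq a).prob
  set Am : Fin 3 → Fin 3 → ℝ := fun a b => Bf Λ g (q a) (q b) with hAm
  set Dg : Fin 3 → ℝ := fun a => ∫ z, kk Λ g (z, z) ∂(dm (q a)) with hDg
  obtain ⟨C, hC0, hC⟩ := mean_bound Am Dg κ
  set B1 : Fin 3 → Fin 3 → ℝ := fun a b => ∫ p, kk Λ g p ^ 2 ∂((dm (q a)).prod (dm (q b))) with hB1
  set B2 : Fin 3 → ℝ := fun a => ∫ z, kk Λ g (z, z) ^ 2 ∂(dm (q a)) with hB2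
  set B3 : Fin 3 → ℝ := fun a => ∫ z, Real.log (q a z) ^ 2 ∂(dm (q a)) with hB3
  have n1 : ∀ a b, 0 ≤ B1 a b := fun a b => integral_nonneg fun _ => sq_nonneg _
  have n2 : ∀ a, 0 ≤ B2 a := fun a => integral_nonneg fun _ => sq_nonneg _
  have n3 : ∀ a, 0 ≤ B3 a := fun a => integral_nonneg fun _ => sq_nonneg _
  set B : ℝ := (∑ a, ∑ b, B1 a b) + ∑ a, B2 a + ∑ a, B3 a with hB
  have s1 : 0 ≤ ∑ a, ∑ b, B1 a b := Finset.sum_nonneg fun a _ => Finset.sum_nonneg fun b _ => n1 a b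
  have s2 : 0 ≤ ∑ a, B2 a := Finset.sum_nonneg fun a _ => n2 a
  have s3 : 0 ≤ ∑ a, B3 a := Finset.sum_nonneg fun a _ => n3 a
  have l1 : ∀ a b, B1 a b ≤ B := fun a b => by
    have h1 : B1 a b ≤ ∑ b, B1 a b :=
      Finset.single_le_sum (f := fun b => B1 a b) (fun b _ => n1 a b) (Finset.mem_univ b)
    have h2 : ∑ b, B1 a b ≤ ∑ a, ∑ b, B1 a b :=
      Finset.single_le_sum (f := fun a => ∑ b, B1 a b)
        (fun a _ => Finset.sum_nonneg fun b _ => n1 a b) (Finset.mem_univ a)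
    linarith
  have l2 : ∀ a, B2 a ≤ B := fun a => by
    have h1 : B2 a ≤ ∑ b, B2 b :=
      Finset.single_le_sum (f := fun b => B2 b) (fun b _ => n2 b) (Finset.mem_univ a)
    linarith
  have l3 : ∀ a, B3 a ≤ B := fun a => by
    have h1 : B3 a ≤ ∑ b, B3 b :=
      Finset.single_le_sum (f := fun b => B3 b) (fun b _ => n3 b) (Finset.mem_univ a)
    linarith
  refine ⟨B, C, by linarith, hC0, ?_⟩
  intro M n hM hn θ hθ hnκ t₁ t₂ ht₁ ht₂ hc₁ hc₂
  have hnM : (n : ℝ) ≤ M := by exact_mod_cast hn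
  set τ := ty M n with hτ
  set ν : Fin M ⊕ Fin M → Measure ℂ := fun i => dm (q (τ i)) with hν
  have hνp : ∀ i, IsProbabilityMeasure (ν i) := fun i => hprob _
  set h : Fin M ⊕ Fin M → Fin M ⊕ Fin M → ℂ × ℂ → ℝ :=
    fun i j p => 1 / 2 * circ M i * circ M j * kk Λ g p with hh
  have hkm := kk_measurable hK
  have hmeas : ∀ i j, Measurable (h i j) := fun i j => hkm.const_mul _
  have hsq : ∀ i j p, (h i j p) ^ 2 = 1 / 4 * kk Λ g p ^ 2 := fun i j p => by
    simp only [hh, mul_pow, circ_sq]; ring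
  have hL : ∀ i j, MemLp (fun x : Conf M => h i j (x i, x j)) 2 (Measure.pi ν) := by
    intro i j
    by_cases hij : i = j
    · subst hij
      refine w_diag_memLp ν i (h i i) ?_
      exact (kk_diag_memLp hK (hS _) (hSΛ _) (hq (τ i))).const_mul _
    · refine w_pair_memLp ν hij (h i j) ?_
      exact (kk_memLp hK ((hq (τ i)).mono (Set.subset_union_left (t := S (τ j))) le_rfl)
        ((hq (τ j)).mono (Set.subset_union_right (s := S (τ i))) le_rfl)).const_mul _
  have hBb : ∀ i j, ∫ x : Conf M, (h i j (x i, x j)) ^ 2 ∂(Measure.pi ν) ≤ B := by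
    intro i j
    simp only [hsq]
    rw [integral_const_mul]
    by_cases hij : i = j
    · subst hij
      rw [w_diag_int ν i (fun p => kk Λ g p ^ 2) (hkm.pow_const 2)]
      have := l2 (τ i)
      have := n2 (τ i)
      simp only [hB2] at *
      linarith
    · rw [w_pair_int ν hij (fun p => kk Λ g p ^ 2) (hkm.pow_const 2)]
      have := l1 (τ i) (τ j)
      have := n1 (τ i) (τ j)
      simp only [hB1] at *
      linarith
  have hcard : (Fintype.card (Fin M ⊕ Fin M) : ℝ) = 2 * M := by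
    simp [Fintype.card_sum]; ring
  -- Chebyshev for the energy
  have cheb1 := w_pair_cheb ν h hmeas B (by linarith) hL hBb t₁ ht₁
  rw [hcard] at cheb1
  have hmean : ∑ i, ∑ j, ∫ x : Conf M, h i j (x i, x j) ∂(Measure.pi ν) =
      1 / 2 * Qf Am ![(n : ℝ), M - n, -M] +
      1 / 2 * (n * (Dg 0 - Am 0 0) + (M - n) * (Dg 1 - Am 1 1) + M * (Dg 2 - Am 2 2)) := by
    refine mean_formula M n hn Am Dg _ ?_ ?_
    · intro i j hij
      rw [w_pair_int ν hij (h i j) (hmeas i j)]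
      simp only [hh]
      rw [integral_const_mul]
      rw [kk_mean ((hq (τ i)).mono (Set.subset_union_left (t := S (τ j))) le_rfl)
        ((hq (τ j)).mono (Set.subset_union_right (s := S (τ i))) le_rfl)]
    · intro i
      rw [w_diag_int ν i (h i i) (hmeas i i)]
      simp only [hh]
      rw [integral_const_mul]
      have : 1 / 2 * circ M i * circ M i = 1 / 2 := by rw [mul_assoc, ← sq, circ_sq, mul_one]
      rw [this]
  set m : ℝ := ∑ i, ∑ j, ∫ x : Conf M, h i j (x i, x j) ∂(Measure.pi ν) with hm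
  have hmb := hC M hM θ hθ n hnκ (Nat.cast_nonneg n) hnM
  rw [← hmean] at hmb
  -- Chebyshev for the entropy
  have cheb2 := w_one_cheb ν (fun i z => Real.log (q (τ i) z))
    (fun i => log_memLp (hS _).measurableSet (hS _).measure_lt_top.ne (hq (τ i))) B
    (fun i => l3 (τ i)) t₂ ht₂
  rw [hcard] at cheb2
  have hent : ∑ i, ∫ z, Real.log (q (τ i) z) ∂(ν i) =
      n * Ent (q 0) + (M - n) * Ent (q 1) + M * Ent (q 2) := by
    have : ∀ i, ∫ z, Real.log (q (τ i) z) ∂(ν i) = (fun a => Ent (q a)) (τ i) := fun i =>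
      log_mean (hq (τ i))
    simp only [this]
    exact sum_ty M n hn (fun a => Ent (q a))
  rw [hent] at cheb2
  set T : ℝ := n * Ent (q 0) + (M - n) * Ent (q 1) + M * Ent (q 2) with hT
  -- almost sure properties
  have as1 : ∀ᵐ x ∂(Measure.pi ν), ∀ i, 0 < q (τ i) (x i) := by
    rw [ae_all_iff]
    intro i
    exact (w_one_law ν i).quasiMeasurePreserving.ae (dm_ae_pos (hq (τ i)))
  have as2 : ∀ᵐ x ∂(Measure.pi ν), ∀ i j, i ≠ j → x i ≠ x j := by
    rw [ae_all_iff]; intro i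
    rw [ae_all_iff]; intro j
    by_cases hij : i = j
    · exact Eventually.of_forall fun x h => absurd hij h
    have h1 : ∀ᵐ p ∂((ν i).prod (ν j)), p.1 ≠ p.2 := by
      simp only [hν]
      rw [dm_prod (hq _).meas (hq _).meas (hq _).nonneg]
      exact (withDensity_absolutelyContinuous _ _).ae_le diag_null
    filter_upwards [(w_pair_law ν hij).quasiMeasurePreserving.ae h1] with x hx _
    exact hx
  -- the set
  set G1 : Set (Conf M) := {x | ∀ i, 0 < q (τ i) (x i)} with hG1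
  set G2 : Set (Conf M) := {x | ∀ i j, i ≠ j → x i ≠ x j} with hG2
  set X1 : Set (Conf M) := {x | t₁ ≤ |∑ i, ∑ j, h i j (x i, x j) - m|} with hX1
  set X2 : Set (Conf M) := {x | t₂ ≤ |∑ i, Real.log (q (τ i) (x i)) - T|} with hX2
  have mG1 : MeasurableSet G1 := by
    have : G1 = ⋂ i, {x : Conf M | 0 < q (τ i) (x i)} := by ext x; simp [hG1]
    rw [this]
    exact MeasurableSet.iInter fun i => measurableSet_lt measurable_const
      ((hq _).meas.comp (measurable_pi_apply i))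
  have mG2 : MeasurableSet G2 := by
    have : G2 = ⋂ i, ⋂ j, {x : Conf M | i ≠ j → x i ≠ x j} := by ext x; simp [hG2]
    rw [this]
    refine MeasurableSet.iInter fun i => MeasurableSet.iInter fun j => ?_
    by_cases hij : i = j
    · have : {x : Conf M | i ≠ j → x i ≠ x j} = univ := by ext x; simp [hij]
      rw [this]; exact MeasurableSet.univ
    · have : {x : Conf M | i ≠ j → x i ≠ x j} = {x | x i = x j}ᶜ := by ext x; simp [hij]
      rw [this]
      exact (measurableSet_eq_fun (measurable_pi_apply i) (measurable_pi_apply j)).compl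
  have mF : Measurable fun x : Conf M => ∑ i, ∑ j, h i j (x i, x j) :=
    Finset.measurable_sum _ fun i _ => Finset.measurable_sum _ fun j _ =>
      (hmeas i j).comp ((measurable_pi_apply i).prodMk (measurable_pi_apply j))
  have mX1 : MeasurableSet X1 :=
    measurableSet_le measurable_const ((mF.sub measurable_const).abs)
  have mE : Measurable fun x : Conf M => ∑ i, Real.log (q (τ i) (x i)) :=
    Finset.measurable_sum _ fun i _ =>
      Real.measurable_log.comp ((hq _).meas.comp (measurable_pi_apply i))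
  have mX2 : MeasurableSet X2 :=
    measurableSet_le measurable_const ((mE.sub measurable_const).abs)
  set A : Set (Conf M) := (G1 ∩ G2) ∩ (X1ᶜ ∩ X2ᶜ) with hA
  have mA : MeasurableSet A := (mG1.inter mG2).inter (mX1.compl.inter mX2.compl)
  have hPA : ENNReal.ofReal (1 / 2) ≤ Measure.pi ν A := by
    have hPAc : Measure.pi ν Aᶜ ≤ ENNReal.ofReal (1 / 2) := by
      have hsub : Aᶜ ⊆ ((G1 ∩ G2)ᶜ) ∪ (X1 ∪ X2) := by
        intro x hx
        simp only [hA, mem_compl_iff, mem_inter_iff, mem_union] at hx ⊢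
        tauto
      have z : Measure.pi ν ((G1 ∩ G2)ᶜ) = 0 := by
        have : ∀ᵐ x ∂(Measure.pi ν), x ∈ G1 ∩ G2 := by
          filter_upwards [as1, as2] with x h1 h2
          exact ⟨h1, h2⟩
        exact this
      calc Measure.pi ν Aᶜ ≤ Measure.pi ν (((G1 ∩ G2)ᶜ) ∪ (X1 ∪ X2)) := measure_mono hsub
        _ ≤ Measure.pi ν ((G1 ∩ G2)ᶜ) + (Measure.pi ν X1 + Measure.pi ν X2) :=
            (measure_union_le _ _).trans (add_le_add_right (measure_union_le _ _) _)
        _ ≤ 0 + (ENNReal.ofReal (1 / 4) + ENNReal.ofReal (1 / 4)) := by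
            refine add_le_add z.le (add_le_add ?_ ?_)
            · exact cheb1.trans (ENNReal.ofReal_le_ofReal hc₁)
            · exact cheb2.trans (ENNReal.ofReal_le_ofReal hc₂)
        _ = ENNReal.ofReal (1 / 2) := by
            rw [zero_add, ← ENNReal.ofReal_add (by norm_num) (by norm_num)]; norm_num
    have h1 := prob_add_prob_compl (μ := Measure.pi ν) mA
    have h2 : (1 : ENNReal) = ENNReal.ofReal (1 / 2) + ENNReal.ofReal (1 / 2) := by
      rw [← ENNReal.ofReal_add (by norm_num) (by norm_num)]; norm_num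
    by_contra hlt
    rw [not_le] at hlt
    have h3 : Measure.pi ν A + Measure.pi ν Aᶜ < ENNReal.ofReal (1 / 2) + ENNReal.ofReal (1 / 2) :=
      ENNReal.add_lt_add_of_lt_of_le (ne_top_of_le_ne_top ENNReal.ofReal_ne_top hPAc) hlt hPAc
    rw [h1, ← h2] at h3
    exact lt_irrefl _ h3
  refine ⟨A, mA, ?_, ?_⟩
  · intro x hx
    have hxS : ∀ i, x i ∈ S (τ i) := by
      intro i
      by_contra hn
      have h1 := hx.1.1 i
      rw [(hq (τ i)).zero _ hn] at h1
      exact lt_irrefl _ h1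
    refine ⟨hxS, hx.1.2, ?_⟩
    have hxΛ : x ∈ cf Λ _ := fun i => hSΛ _ (hxS i)
    have h1 : ¬ t₁ ≤ |∑ i, ∑ j, h i j (x i, x j) - m| := hx.2.1
    rw [not_le] at h1
    rw [ham_eq_kk (Λ := Λ) (circ M) hxΛ]
    have h2 : |∑ i, ∑ j, 1 / 2 * circ M i * circ M j * kk Λ g (x i, x j) -
        (M : ℝ) ^ 2 * (1 / 2 * Qf Am ![κ, 1 - κ, -1])| ≤
        |∑ i, ∑ j, h i j (x i, x j) - m| + |m - (M : ℝ) ^ 2 * (1 / 2 * Qf Am ![κ, 1 - κ, -1])| := by
      refine le_trans (le_of_eq ?_) (abs_add_le _ _)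
      congr 1
      simp only [hh]
      ring
    linarith
  · refine w_vol_lower (fun i => q (τ i)) (fun i => (hq _).nonneg) (fun i => (hq _).integrable)
      (fun i => (hq _).one) A mA _ ?_ hPA
    intro x hx
    have h1 : ¬ t₂ ≤ |∑ i, Real.log (q (τ i) (x i)) - T| := hx.2.2
    rw [not_le] at h1
    have h2 : ∏ i, q (τ i) (x i) = Real.exp (∑ i, Real.log (q (τ i) (x i))) := by
      rw [Real.exp_sum]
      exact Finset.prod_congr rfl fun i _ => (Real.exp_log (hx.1.1 i)).symm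
    rw [h2, Real.exp_le_exp]
    have := (abs_lt.1 h1).2
    linarith

end

end Pool.Agent.H836_PV
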