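import Pool.Agent.H836_PV.W8

/-!
# Module W, part 9: the lower bound for thin shells for fixed densities
-/

open MeasureTheory Filter Topology Set Metric ProbabilityTheory

namespace Pool.Agent.H836_PV

section
variable {Λ : Set ℂ} {g : ℂ → ℂ → ℝ} {D C₃ cL CB : ℝ}

theorem ham_shell_meas (hK : Ker Λ g D C₃ cL CB) (M : ℕ) (E δ : ℝ) :
    MeasurableSet {x : Conf M | x ∈ cf Λ _ ∧ E ≤ Ham g (circ M) x ∧ Ham g (circ M) x < E + δ} := by
  have hkm := kk_measurable hK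
  set F : Conf M → ℝ := fun x => ∑ i, ∑ j, 1 / 2 * circ M i * circ M j * kk Λ g (x i, x j) with hF
  have mF : Measurable F :=
    Finset.measurable_sum _ fun i _ => Finset.measurable_sum _ fun j _ =>
      (hkm.const_mul _).comp ((measurable_pi_apply i).prodMk (measurable_pi_apply j))
  have mcf : MeasurableSet (cf Λ (Fin M ⊕ Fin M)) := by
    have : cf Λ (Fin M ⊕ Fin M) = ⋂ i, {x | x i ∈ Λ} := by ext x; simp [cf]
    rw [this]
    exact MeasurableSet.iInter fun i => (measurable_pi_apply i) hK.isOpen.measurableSet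
  have e : {x : Conf M | x ∈ cf Λ _ ∧ E ≤ Ham g (circ M) x ∧ Ham g (circ M) x < E + δ} =
      cf Λ _ ∩ ({x | E ≤ F x} ∩ {x | F x < E + δ}) := by
    ext x
    constructor
    · rintro ⟨h1, h2, h3⟩
      rw [ham_eq_kk (Λ := Λ) (circ M) h1] at h2 h3
      exact ⟨h1, h2, h3⟩
    · rintro ⟨h1, h2, h3⟩
      refine ⟨h1, ?_, ?_⟩
      · rw [ham_eq_kk (Λ := Λ) (circ M) h1]; exact h2
      · rw [ham_eq_kk (Λ := Λ) (circ M) h1]; exact h3
  rw [e]
  exact mcf.inter ((measurableSet_le measurable_const mF).inter (measurableSet_lt mF measurable_const))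

theorem ctr_zero {ι : Type} (bl : ι → Prop) [DecidablePred bl] (c₀ : ℂ) (x : ι → ℂ) :
    ctr bl c₀ 0 x = x := by
  funext i
  by_cases h : bl i <;> simp [ctr, h]

/-- arithmetic of the choice of `M` -/
theorem w_arith {κ B C η K M : ℝ} (hκ0 : 0 < κ) (hκ1 : κ < 1) (hB : 0 ≤ B) (hC : 0 ≤ C)
    (hη : 0 < η) (hK : 0 ≤ K) (hM : 1 + 32 * (C + 2) / κ ^ 2 + 131072 * B / κ ^ 4 +
      32 * B / η ^ 2 + 2 / κ + 96 * K / η ^ 3 ≤ M) :
    1 ≤ M ∧ 4 * (2 * M) ^ 3 * B / (κ ^ 2 * M ^ 2 / 32) ^ 2 ≤ 1 / 4 ∧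
    2 * M * B / (η * M / 2) ^ 2 ≤ 1 / 4 ∧
    C * M + κ ^ 2 * M ^ 2 / 32 + 1 < κ ^ 2 * M ^ 2 / 4 ∧
    C * M + 3 * κ * M / 2 + 1 ≤ 5 / 32 * κ ^ 2 * M ^ 2 ∧ 2 ≤ κ * M ∧
    2 * M ^ 2 * K ≤ Real.exp (η * M / 2) := by
  have p1 : 0 ≤ 32 * (C + 2) / κ ^ 2 := by positivity
  have p2 : 0 ≤ 131072 * B / κ ^ 4 := by positivity
  have p3 : 0 ≤ 32 * B / η ^ 2 := by positivity
  have p4 : 0 ≤ 2 / κ := by positivity
  have p5 : 0 ≤ 96 * K / η ^ 3 := by positivity
  have hM1 : 1 ≤ M := by linarith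
  have hM0 : 0 < M := by linarith
  have q1 : 32 * (C + 2) / κ ^ 2 ≤ M := by linarith
  have q2 : 131072 * B / κ ^ 4 ≤ M := by linarith
  have q3 : 32 * B / η ^ 2 ≤ M := by linarith
  have q4 : 2 / κ ≤ M := by linarith
  have q5 : 96 * K / η ^ 3 ≤ M := by linarith
  rw [div_le_iff₀ (by positivity)] at q1 q2 q3 q4 q5
  refine ⟨hM1, ?_, ?_, ?_, ?_, by linarith, ?_⟩
  · rw [div_le_iff₀ (by positivity)]
    have : 4 * (2 * M) ^ 3 * B = M ^ 3 * (32 * B) := by ring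
    rw [this]
    have : 1 / 4 * (κ ^ 2 * M ^ 2 / 32) ^ 2 = M ^ 3 * (M * κ ^ 4 / 4096) := by ring
    rw [this]
    gcongr
    linarith
  · rw [div_le_iff₀ (by positivity)]
    have : 1 / 4 * (η * M / 2) ^ 2 = M * (M * η ^ 2) / 16 := by ring
    rw [this]
    have : 2 * M * B = M * (32 * B) / 16 := by ring
    rw [this]
    gcongr
  · have h1 : M * (32 * (C + 2)) ≤ M * (M * κ ^ 2) := by gcongr
    have h2 : 0 ≤ M * C := by positivity
    nlinarith
  · have h1 : M * (32 * (C + 2)) ≤ M * (M * κ ^ 2) := by gcongr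
    have h2 : 0 ≤ M * C := by positivity
    have h3 : κ * M ≤ 1 * M := by gcongr
    nlinarith
  · have h1 := Real.pow_div_factorial_le_exp (η * M / 2) (by positivity) 3
    refine le_trans ?_ h1
    have : ((Nat.factorial 3 : ℕ) : ℝ) = 6 := by norm_num [Nat.factorial]
    rw [this]
    have h2 : M ^ 2 * (96 * K) ≤ M ^ 2 * (M * η ^ 3) := by gcongr
    have : (η * M / 2) ^ 3 / 6 = M ^ 2 * (M * η ^ 3) / 48 := by ring
    rw [this]
    linarith

theorem w_core (hK : Ker Λ g D C₃ cL CB) {Q : Set ℂ} (hQ : IsCompact Q) (hQΛ : Q ⊆ Λ) {c₀ : ℂ}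
    {r l : ℝ} (hin : closedBall c₀ r ⊆ Λ) (hL : LipH g Q c₀ r l) {r' κ ε L : ℝ} (hκ0 : 0 < κ)
    (hκ1 : κ < 1) (hr0 : 0 < r') (hr' : r' ≤ r) (hlr : l * r' ≤ κ / 32) {q : Fin 3 → ℂ → ℝ}
    (h0 : Pd (closedBall c₀ r') L (q 0)) (h1 : Pd Q L (q 1)) (h2 : Pd Q L (q 2))
    (hmean : 1 / 2 * Qf (fun a b => Bf Λ g (q a) (q b)) ![κ, 1 - κ, -1] = 4 * ε - κ ^ 2 / 4)
    {η : ℝ} (hη : 0 < η) :
    ∃ M₀ : ℕ, ∀ M : ℕ, M₀ ≤ M → ∀ E : ℝ, |E - (2 * (M : ℝ)) ^ 2 * ε| ≤ 1 → ∀ δ : ℝ, 0 < δ → δ ≤ 1 →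
      ENNReal.ofReal (δ * Real.exp (-(M * (κ * Ent (q 0) + (1 - κ) * Ent (q 1) + Ent (q 2) +
        2 * κ + η)))) ≤
      volume {x : Conf M | x ∈ cf Λ _ ∧ E ≤ Ham g (circ M) x ∧ Ham g (circ M) x < E + δ} := by
  set S : Fin 3 → Set ℂ := ![closedBall c₀ r', Q, Q] with hSdef
  have hS : ∀ a, IsCompact (S a) := by
    intro a; fin_cases a
    · exact isCompact_closedBall _ _
    · exact hQ
    · exact hQ
  have hSΛ : ∀ a, S a ⊆ Λ := by
    intro a; fin_cases a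
    · exact (closedBall_subset_closedBall hr').trans hin
    · exact hQΛ
    · exact hQΛ
  have hq : ∀ a, Pd (S a) L (q a) := by
    intro a; fin_cases a
    · exact h0
    · exact h1
    · exact h2
  obtain ⟨B, C, hB0, hC0, htyp⟩ := w_typical hK hS hSΛ hq κ
  set e := |Ent (q 0) - Ent (q 1)| with he
  set R : ℝ := 1 + 32 * (C + 2) / κ ^ 2 + 131072 * B / κ ^ 4 +
      32 * B / η ^ 2 + 2 / κ + 96 * Real.exp e / η ^ 3 with hR
  refine ⟨⌈R⌉₊, ?_⟩
  intro M hM E hE δ hδ0 hδ1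
  have hMR : R ≤ (M : ℝ) := (Nat.le_ceil R).trans (by exact_mod_cast hM)
  obtain ⟨a1, a2, a3, a4, a5, a6, a7⟩ := w_arith hκ0 hκ1 hB0 hC0 hη (Real.exp_pos e).le hMR
  have hM0 : (0 : ℝ) < M := by linarith
  have hMnat : 1 ≤ M := by exact_mod_cast a1
  set n : ℕ := ⌊κ * (M : ℝ)⌋₊ with hn
  have hn1 : (n : ℝ) ≤ κ * M := Nat.floor_le (by positivity)
  have hn2 : κ * M < n + 1 := Nat.lt_floor_add_one _
  have hnMr : (n : ℝ) ≤ M := hn1.trans (mul_le_of_le_one_left hM0.le hκ1.le)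
  have hnM : n ≤ M := by exact_mod_cast hnMr
  set θ : ℝ := n - κ * M with hθ
  have hθ1 : |θ| ≤ 1 := by rw [abs_le]; constructor <;> linarith
  have hn1' : (1 : ℝ) ≤ n := by
    have : (1 : ℝ) < n + 1 - 0 := by linarith
    have h3 : 0 < n := by
      have : (0 : ℝ) < n := by linarith
      exact_mod_cast this
    exact_mod_cast h3
  obtain ⟨A, mA, hA, hvA⟩ := htyp M n hMnat hnM θ hθ1 (by rw [hθ]; ring)
    (κ ^ 2 * M ^ 2 / 32) (η * M / 2) (by positivity) (by positivity) a2 a3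
  rw [hmean] at hA
  have mSh := ham_shell_meas hK M E δ
  set Sh : Set (Conf M) :=
    {x : Conf M | x ∈ cf Λ _ ∧ E ≤ Ham g (circ M) x ∧ Ham g (circ M) x < E + δ} with hSh
  have hEb := abs_le.1 hE
  -- the crossing
  have hcross : ∀ x ∈ A, ENNReal.ofReal (δ / (M : ℝ) ^ 2) ≤
      volume {t : ℝ | t ∈ Icc (0 : ℝ) 1 ∧ ctr (blb M n) c₀ t x ∈ Sh} := by
    intro x hx
    obtain ⟨hxS, hxne, hxH⟩ := hA x hx
    have hb : ∀ i, blb M n i → x i ∈ closedBall c₀ r' := by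
      intro i hi
      have := hxS i
      rw [show ty M n i = 0 from hi] at this
      exact this
    have hqq : ∀ i, ¬ blb M n i → x i ∈ Q := by
      intro i hi
      have h3 := hxS i
      have h4 : ty M n i = 1 ∨ ty M n i = 2 := by
        have : ty M n i ≠ 0 := hi
        generalize ty M n i = a at this ⊢
        fin_cases a
        · exact absurd rfl this
        · left; rfl
        · right; rfl
      rcases h4 with h4 | h4
      · rw [h4] at h3; exact h3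
      · rw [h4] at h3; exact h3
    set φ : ℝ → ℝ := fun t => Ham g (circ M) (ctr (blb M n) c₀ t x) with hφ
    have hcard := card_blb M n hnM
    have hcardι : (Fintype.card (Fin M ⊕ Fin M) : ℝ) = 2 * M := by
      simp [Fintype.card_sum]; ring
    have hen : ∀ s t : ℝ, 0 ≤ s → 0 ≤ t →
        |φ t - φ s - (t - s) * ((n : ℝ) * (n - 1) / 2)| ≤ n * (2 * M) * l * r' * |t - s| := by
      intro s t hs ht
      have := w_energy (blb M n) hK hQΛ hin hL hr' (circ M) (circ_abs M)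
        (fun i hi => by rw [circ_eq M n, show ty M n i = 0 from hi]; rfl) hb hqq
        (fun i j _ _ hij => hxne i j hij) hs ht
      rw [hcard, hcardι] at this
      exact this
    have hl := hL.pos
    have hlr2 : (n : ℝ) * (2 * M) * l * r' ≤ κ ^ 2 * M ^ 2 / 16 := by
      have : (n : ℝ) * (2 * M) * l * r' = n * (2 * M) * (l * r') := by ring
      rw [this]
      calc (n : ℝ) * (2 * M) * (l * r') ≤ (κ * M) * (2 * M) * (κ / 32) := by gcongr
        _ = _ := by ring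
    have hlr0 : 0 ≤ (n : ℝ) * (2 * M) * l * r' := by positivity
    have hkk : κ ^ 2 * M ^ 2 / 16 ≤ (M : ℝ) ^ 2 / 2 := by
      have h1 : κ ^ 2 ≤ 1 := pow_le_one₀ hκ0.le hκ1.le
      have h2 := mul_le_mul_of_nonneg_right h1 (sq_nonneg (M : ℝ))
      linarith [sq_nonneg (M : ℝ)]
    have hφL : ∀ s ∈ Icc (0 : ℝ) 1, ∀ t ∈ Icc (0 : ℝ) 1, |φ s - φ t| ≤ (M : ℝ) ^ 2 * |s - t| := by
      intro s hs t ht
      have h3 := hen t s ht.1 hs.1
      have h4 : |φ s - φ t| ≤ |φ s - φ t - (s - t) * ((n : ℝ) * (n - 1) / 2)| +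
          |(s - t) * ((n : ℝ) * (n - 1) / 2)| := by
        have := abs_add_le (φ s - φ t - (s - t) * ((n : ℝ) * (n - 1) / 2))
          ((s - t) * ((n : ℝ) * (n - 1) / 2))
        simpa using this
      have h5 : |(s - t) * ((n : ℝ) * (n - 1) / 2)| ≤ |s - t| * ((M : ℝ) ^ 2 / 2) := by
        rw [abs_mul]
        gcongr
        rw [abs_of_nonneg (by
          have : 0 ≤ (n : ℝ) - 1 := by linarith
          positivity)]
        have : (n : ℝ) * (n - 1) ≤ M ^ 2 := by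
          rw [sq]
          exact mul_le_mul hnMr (by linarith) (by linarith) hM0.le
        linarith
      have h6 : (n : ℝ) * (2 * M) * l * r' * |s - t| ≤ ((M : ℝ) ^ 2 / 2) * |s - t| := by
        gcongr
        linarith
      calc |φ s - φ t| ≤ _ := h4
        _ ≤ ((M : ℝ) ^ 2 / 2) * |s - t| + |s - t| * ((M : ℝ) ^ 2 / 2) :=
            add_le_add (h3.trans h6) h5
        _ = _ := by ring
    have hx2 := abs_le.1 hxH
    have hφ0 : φ 0 = Ham g (circ M) x := by simp only [hφ, ctr_zero]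
    have hφ0' : φ 0 < E := by
      rw [hφ0]
      have : (2 * (M : ℝ)) ^ 2 * ε = (M : ℝ) ^ 2 * (4 * ε) := by ring
      have h7 : (M : ℝ) ^ 2 * (4 * ε - κ ^ 2 / 4) = (M : ℝ) ^ 2 * (4 * ε) - κ ^ 2 * M ^ 2 / 4 := by
        ring
      rw [h7] at hx2
      linarith [hx2.2, hEb.1]
    have hφ1 : E + δ ≤ φ 1 := by
      have h3 := abs_le.1 (hen 0 1 le_rfl zero_le_one)
      simp only [sub_zero, abs_one, mul_one, one_mul] at h3
      have h7 : (M : ℝ) ^ 2 * (4 * ε - κ ^ 2 / 4) = (M : ℝ) ^ 2 * (4 * ε) - κ ^ 2 * M ^ 2 / 4 := by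
        ring
      rw [h7] at hx2
      have h8 : (κ * M - 1) * (κ * M - 2) ≤ (n : ℝ) * (n - 1) := by
        have e8 : (n : ℝ) * (n - 1) - (κ * M - 1) * (κ * M - 2) =
          (n - κ * M + 1) * (n + κ * M - 2) := by ring
        have p8 : 0 ≤ (n - κ * M + 1) * (n + κ * M - 2) :=
          mul_nonneg (by linarith) (by linarith)
        linarith
      have h9 : (κ * M - 1) * (κ * M - 2) = κ ^ 2 * M ^ 2 - 3 * κ * M + 2 := by ring
      have h10 : (2 * (M : ℝ)) ^ 2 * ε = (M : ℝ) ^ 2 * (4 * ε) := by ring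
      rw [hφ0] at h3
      linarith [hx2.1, hEb.2, h3.1]
    have hc := w_cross φ ((M : ℝ) ^ 2) (by positivity) E δ hφL hφ0' hφ1
    refine hc.trans (measure_mono fun t ht => ⟨ht.1, ?_, ht.2.1, ht.2.2⟩)
    intro i
    by_cases hi : blb M n i
    · exact hin (closedBall_subset_closedBall hr' (ctr_mem (blb M n) c₀ hi (hb i hi) ht.1.1))
    · rw [ctr_of_not (blb M n) c₀ hi]; exact hQΛ (hqq i hi)
  have hton := w_tonelli (blb M n) c₀ A Sh mA mSh _ hcross
  rw [card_blb M n hnM] at hton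
  set T : ℝ := n * Ent (q 0) + (M - n) * Ent (q 1) + M * Ent (q 2) + η * M / 2 with hT
  have hfin : ENNReal.ofReal (δ * Real.exp (-(M * (κ * Ent (q 0) + (1 - κ) * Ent (q 1) + Ent (q 2) +
        2 * κ + η)))) ≤ ENNReal.ofReal (Real.exp (-(2 * n))) *
      (ENNReal.ofReal (δ / (M : ℝ) ^ 2) * ENNReal.ofReal (Real.exp (-T) / 2)) := by
    rw [← ENNReal.ofReal_mul (by positivity), ← ENNReal.ofReal_mul (by positivity)]
    refine ENNReal.ofReal_le_ofReal ?_
    set Y : ℝ := κ * Ent (q 0) + (1 - κ) * Ent (q 1) + Ent (q 2) + 2 * κ + η with hY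
    -- exp(-MY) ≤ exp(-2n) exp(-T) / (2 M²)
    have h3 : 2 * (M : ℝ) ^ 2 * Real.exp (-(M * Y)) ≤ Real.exp (-(2 * n)) * Real.exp (-T) := by
      have h4 : 2 * (M : ℝ) ^ 2 ≤ Real.exp (η * M / 2 - e) := by
        rw [Real.exp_sub, le_div_iff₀ (Real.exp_pos _)]; exact a7
      calc 2 * (M : ℝ) ^ 2 * Real.exp (-(M * Y)) ≤ Real.exp (η * M / 2 - e) * Real.exp (-(M * Y)) := by
            gcongr
        _ = Real.exp (η * M / 2 - e - M * Y) := by rw [← Real.exp_add]; ring_nf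
        _ ≤ Real.exp (-(2 * n) + -T) := by
            rw [Real.exp_le_exp]
            have h5 : T = M * (κ * Ent (q 0) + (1 - κ) * Ent (q 1) + Ent (q 2)) +
                θ * (Ent (q 0) - Ent (q 1)) + η * M / 2 := by
              rw [hT, hθ]; ring
            have h6 : θ * (Ent (q 0) - Ent (q 1)) ≤ e := by
              calc θ * (Ent (q 0) - Ent (q 1)) ≤ |θ * (Ent (q 0) - Ent (q 1))| := le_abs_self _
                _ = |θ| * e := by rw [abs_mul]
                _ ≤ 1 * e := by gcongr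
                _ = e := one_mul _
            have h7 : M * Y = M * (κ * Ent (q 0) + (1 - κ) * Ent (q 1) + Ent (q 2)) +
                2 * (κ * M) + η * M := by rw [hY]; ring
            rw [h5, h7]
            linarith
        _ = _ := Real.exp_add _ _
    have h8 : Real.exp (-(M * Y)) ≤ Real.exp (-(2 * n)) * Real.exp (-T) / (2 * (M : ℝ) ^ 2) := by
      rw [le_div_iff₀ (by positivity)]; linarith
    calc δ * Real.exp (-(M * Y)) ≤ δ * (Real.exp (-(2 * n)) * Real.exp (-T) / (2 * (M : ℝ) ^ 2)) := by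
          gcongr
      _ = Real.exp (-(2 * n)) * (δ / (M : ℝ) ^ 2 * (Real.exp (-T) / 2)) := by
          field_simp
  refine hfin.trans ?_
  calc ENNReal.ofReal (Real.exp (-(2 * n))) *
      (ENNReal.ofReal (δ / (M : ℝ) ^ 2) * ENNReal.ofReal (Real.exp (-T) / 2))
      ≤ ENNReal.ofReal (Real.exp (-(2 * n))) *
        (ENNReal.ofReal (δ / (M : ℝ) ^ 2) * volume A) := by gcongr
    _ ≤ ENNReal.ofReal (Real.exp (-(2 * n))) *
        (ENNReal.ofReal (Real.exp (2 * n)) * volume Sh) := by gcongr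
    _ = volume Sh := by
        rw [← mul_assoc, ← ENNReal.ofReal_mul (Real.exp_pos _).le, ← Real.exp_add]
        simp

end

end Pool.Agent.H836_PV
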